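import Pool.Agent.H.MP_b2d7dd_lc.TC.Df

/-!
# Module Adj: the adjunction of one element, derivations of polynomials

`PD K δ a b d` = `d` is the derivation of `K[X]` which is `δ` on `K`, with `d X = a X + b`; then
`δ (P(θ)) = (d P)(θ)` for every `θ` with `δ θ = a θ + b`.
-/

namespace Pool.Agent.TC

open Polynomial

variable {ι H : Type} [Field H] {D : ι → Derivation ℤ H H} {K : Subfield H}

private theorem Adj_aeval (θ : H) (P : K[X]) : aeval θ P ∈ TC.adj K {θ} := by
  rw [aeval_eq_sum_range]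
  refine sum_mem fun i _ => ?_
  rw [Algebra.smul_def]
  exact mul_mem (le_adj K {θ} (P.coeff i).2) (pow_mem (mem_adj K (Set.mem_singleton θ)) i)

theorem mem_adj_single {θ x : H} : x ∈ adj K {θ} ↔
    ∃ P Q : K[X], aeval θ Q ≠ 0 ∧ x = aeval θ P / aeval θ Q := by
  constructor
  · intro hx
    unfold TC.adj at hx
    induction hx using Subfield.closure_induction with
    | mem y hy =>
      rcases hy with hy | hy
      · refine ⟨C ⟨y, hy⟩, 1, by simp, ?_⟩
        rw [aeval_C, map_one, div_one]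
        rfl
      · rw [Set.mem_singleton_iff] at hy
        exact ⟨X, 1, by simp, by simp [hy]⟩
    | one => exact ⟨1, 1, by simp, by simp⟩
    | add y z _ _ h1 h2 =>
      obtain ⟨P, Q, hQ, rfl⟩ := h1
      obtain ⟨P', Q', hQ', rfl⟩ := h2
      refine ⟨P * Q' + P' * Q, Q * Q', ?_, ?_⟩
      · rw [map_mul]
        exact mul_ne_zero hQ hQ'
      · rw [map_add, map_mul, map_mul, map_mul]
        field_simp
    | neg y _ h1 =>
      obtain ⟨P, Q, hQ, rfl⟩ := h1
      refine ⟨-P, Q, hQ, ?_⟩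
      rw [map_neg, neg_div]
    | inv y _ h1 =>
      obtain ⟨P, Q, hQ, rfl⟩ := h1
      by_cases hP : aeval θ P = 0
      · exact ⟨0, 1, by simp, by simp [hP]⟩
      · exact ⟨Q, P, hP, by rw [inv_div]⟩
    | mul y z _ _ h1 h2 =>
      obtain ⟨P, Q, hQ, rfl⟩ := h1
      obtain ⟨P', Q', hQ', rfl⟩ := h2
      refine ⟨P * P', Q * Q', ?_, ?_⟩
      · rw [map_mul]
        exact mul_ne_zero hQ hQ'
      · rw [map_mul, map_mul, div_mul_div_comm]
  · rintro ⟨P, Q, -, rfl⟩
    exact div_mem (Adj_aeval θ P) (Adj_aeval θ Q)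

/-- Stability. -/
theorem Stb.adj (hK : Stb D K) {S : Set H} (hS : ∀ i, ∀ x ∈ S, D i x ∈ TC.adj K S) :
    Stb D (TC.adj K S) := by
  refine ⟨hK.cst.trans (le_adj K S), ?_⟩
  intro i x hx
  unfold TC.adj at hx
  induction hx using Subfield.closure_induction with
  | mem y hy =>
    rcases hy with hy | hy
    · exact le_adj K S (hK.map i y hy)
    · exact hS i y hy
  | one =>
    rw [Derivation.map_one_eq_zero]
    exact zero_mem _
  | add y z _ _ h1 h2 =>
    rw [map_add]
    exact add_mem h1 h2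
  | neg y _ h1 =>
    rw [map_neg]
    exact neg_mem h1
  | inv y hy h1 =>
    rw [Derivation.leibniz_inv, smul_eq_mul]
    exact mul_mem (neg_mem (pow_mem (inv_mem hy) 2)) h1
  | mul y z hy hz h1 h2 =>
    rw [Derivation.leibniz, smul_eq_mul, smul_eq_mul]
    exact add_mem (mul_mem hy h2) (mul_mem hz h1)

structure PD (K : Subfield H) (δ : Derivation ℤ H H) (a b : H) (d : Derivation ℤ K[X] K[X]) :
    Prop where
  c : ∀ (c : K) , ∃ c' : K, (c' : H) = δ c ∧ d (C c) = C c'
  x : ∃ a' b' : K, (a' : H) = a ∧ (b' : H) = b ∧ d X = C a' * X + C b'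
  deg : ∀ P : K[X], (d P).natDegree ≤ P.natDegree
  ev : ∀ θ : H, δ θ = a * θ + b → ∀ P : K[X], δ (aeval θ P) = aeval θ (d P)

private def Adj_res {δ : Derivation ℤ H H} (h : ∀ x ∈ K, δ x ∈ K) : Derivation ℤ K K :=
  Derivation.mk' ((δ.toLinearMap.toAddMonoidHom.comp K.subtype.toAddMonoidHom).codRestrict
    K.toAddSubgroup (fun x => h x x.2)).toIntLinearMap (by
      intro x y
      apply Subtype.ext
      show δ ((x : H) * y) = (x : H) * δ y + (y : H) * δ x
      rw [Derivation.leibniz, smul_eq_mul, smul_eq_mul])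

private theorem Adj_mono {d : Derivation ℤ K[X] K[X]} {a' b' : K} (hx : d X = C a' * X + C b')
    {c c' : K} (hc : d (C c) = C c') (m : ℕ) : d (monomial m c) =
      C c * ((m : K[X]) * X ^ (m - 1) * (C a' * X + C b')) + X ^ m * C c' := by
  rw [← C_mul_X_pow_eq_monomial, Derivation.leibniz, Derivation.leibniz_pow, hx, hc]
  simp only [smul_eq_mul, nsmul_eq_mul]
  ring

private theorem Adj_coeff {δ : Derivation ℤ H H} {a b : H} {d : Derivation ℤ K[X] K[X]}
    (hc : ∀ c : K, ∃ c' : K, (c' : H) = δ c ∧ d (C c) = C c')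
    (hx : ∃ a' b' : K, (a' : H) = a ∧ (b' : H) = b ∧ d X = C a' * X + C b') (P : K[X]) (n : ℕ) :
    (((d P).coeff n : K) : H) = δ (P.coeff n : K) + n * a * (P.coeff n : K) +
      (n + 1) * b * (P.coeff (n + 1) : K) := by
  obtain ⟨a', b', rfl, rfl, hx⟩ := hx
  induction P using Polynomial.induction_on' with
  | add p q hp hq =>
    rw [map_add, coeff_add, coeff_add, coeff_add, Subfield.coe_add, Subfield.coe_add,
      Subfield.coe_add, hp, hq, map_add]
    ring
  | monomial m c =>
    obtain ⟨c', hc', hcd⟩ := hc c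
    rw [Adj_mono hx hcd]
    rcases m with _ | m
    · have h1 : (C c * (((0 : ℕ) : K[X]) * X ^ (0 - 1) * (C a' * X + C b')) + X ^ 0 * C c') =
          C c' := by
        simp
      rw [h1, coeff_monomial, coeff_monomial, coeff_C]
      rcases n with _ | n
      · simp [hc']
      · simp
    · have h1 : (C c * (((m + 1 : ℕ) : K[X]) * X ^ (m + 1 - 1) * (C a' * X + C b')) +
          X ^ (m + 1) * C c') =
          C (c * ((m + 1 : ℕ) : K) * a' + c') * X ^ (m + 1) +
            C (c * ((m + 1 : ℕ) : K) * b') * X ^ m := by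
        rw [Nat.add_sub_cancel]
        simp only [map_add, map_mul, map_natCast]
        ring
      rw [h1, coeff_add, coeff_C_mul_X_pow, coeff_C_mul_X_pow, coeff_monomial, coeff_monomial]
      by_cases h2 : n = m + 1
      · subst h2
        rw [if_pos rfl, if_neg (by omega), if_pos rfl, if_neg (by omega)]
        push_cast
        rw [hc']
        ring
      · by_cases h3 : n = m
        · subst h3
          rw [if_neg (by omega), if_pos rfl, if_neg (by omega), if_pos rfl]
          push_cast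
          rw [map_zero]
          ring
        · rw [if_neg h2, if_neg h3, if_neg (fun h => h2 h.symm), if_neg (by omega)]
          simp

private theorem Adj_ev {δ : Derivation ℤ H H} {a b : H} {d : Derivation ℤ K[X] K[X]}
    (hc : ∀ c : K, ∃ c' : K, (c' : H) = δ c ∧ d (C c) = C c')
    (hx : ∃ a' b' : K, (a' : H) = a ∧ (b' : H) = b ∧ d X = C a' * X + C b')
    (θ : H) (hθ : δ θ = a * θ + b) (P : K[X]) : δ (aeval θ P) = aeval θ (d P) := by
  obtain ⟨a', b', rfl, rfl, hx⟩ := hx
  induction P using Polynomial.induction_on' with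
  | add p q hp hq => rw [map_add, map_add, hp, hq, map_add, map_add]
  | monomial m c =>
    obtain ⟨c', hc', hcd⟩ := hc c
    have e : ∀ x : K, algebraMap K H x = (x : H) := fun _ => rfl
    rw [Adj_mono hx hcd, aeval_monomial, Derivation.leibniz, Derivation.leibniz_pow, hθ, e, ← hc']
    simp only [map_add, map_mul, map_pow, aeval_X, aeval_C, map_natCast, e, smul_eq_mul,
      nsmul_eq_mul]
    ring

theorem exists_PD {δ : Derivation ℤ H H} (h : ∀ x ∈ K, δ x ∈ K) {a b : H} (ha : a ∈ K)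
    (hb : b ∈ K) : ∃ d : Derivation ℤ K[X] K[X], PD K δ a b d := by
  letI : Differential K := ⟨Adj_res h⟩
  refine ⟨Differential.implicitDeriv (C (⟨a, ha⟩ : K) * X + C (⟨b, hb⟩ : K)), ?_⟩
  have hc : ∀ c : K, ∃ c' : K, (c' : H) = δ c ∧
      Differential.implicitDeriv (C (⟨a, ha⟩ : K) * X + C (⟨b, hb⟩ : K)) (C c) = C c' := by
    intro c
    exact ⟨⟨δ c, h c c.2⟩, rfl, Differential.implicitDeriv_C _ _⟩
  have hx : ∃ a' b' : K, (a' : H) = a ∧ (b' : H) = b ∧
      Differential.implicitDeriv (C (⟨a, ha⟩ : K) * X + C (⟨b, hb⟩ : K)) X =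
        C a' * X + C b' :=
    ⟨⟨a, ha⟩, ⟨b, hb⟩, rfl, rfl, Differential.implicitDeriv_X _⟩
  refine ⟨hc, hx, ?_, ?_⟩
  · intro P
    rw [natDegree_le_iff_coeff_eq_zero]
    intro n hn
    apply Subtype.ext
    rw [Adj_coeff hc hx P n, coeff_eq_zero_of_natDegree_lt hn,
      coeff_eq_zero_of_natDegree_lt (Nat.lt_succ_of_lt hn)]
    simp
  · intro θ hθ P
    exact Adj_ev hc hx θ hθ P

/-- The leading coefficient of the derivative. -/
theorem PD.coeff {δ : Derivation ℤ H H} {a b : H} {d : Derivation ℤ K[X] K[X]}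
    (h : PD K δ a b d) (P : K[X]) (n : ℕ) :
    (((d P).coeff n : K) : H) = δ (P.coeff n : K) + n * a * (P.coeff n : K) +
      (n + 1) * b * (P.coeff (n + 1) : K) := by
  exact Adj_coeff h.c h.x P n

end Pool.Agent.TC
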