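import Pool.Agent.H.MP_b2d7dd_lc.TC.Fnc

/-!
# Module An: the ring of the real analytic functions
-/

namespace Pool.Agent.TC

variable (W : Finset (List Bool))

/-- The ring of the real analytic functions. -/
def An : Subring (Pt W → ℝ) where
  carrier := {f | AnalyticOnNhd ℝ f Set.univ}
  mul_mem' := fun ha hb => ha.mul hb
  one_mem' := analyticOnNhd_const
  add_mem' := fun ha hb => ha.add hb
  zero_mem' := analyticOnNhd_const
  neg_mem' := fun ha => ha.neg

theorem mem_An {f : Pt W → ℝ} : f ∈ An W ↔ AnalyticOnNhd ℝ f Set.univ := Iff.rfl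

private theorem An_nzd : NoZeroDivisors (An W) := by
  refine ⟨?_⟩
  intro f g h
  by_contra hcon
  rw [not_or] at hcon
  obtain ⟨hf, hg⟩ := hcon
  obtain ⟨t0, ht0⟩ : ∃ t, (f : Pt W → ℝ) t ≠ 0 := by
    by_contra h'
    push Not at h'
    exact hf (Subtype.ext (funext h'))
  have hfa : AnalyticOnNhd ℝ (f : Pt W → ℝ) Set.univ := f.2
  have hga : AnalyticOnNhd ℝ (g : Pt W → ℝ) Set.univ := g.2
  have hev : ∀ᶠ t in nhds t0, (f : Pt W → ℝ) t ≠ 0 :=
    (hfa t0 (Set.mem_univ _)).continuousAt.eventually_ne ht0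
  have hfg : ∀ t, (f : Pt W → ℝ) t * (g : Pt W → ℝ) t = 0 :=
    fun t => congrFun (congrArg Subtype.val h) t
  have hg0 : (g : Pt W → ℝ) =ᶠ[nhds t0] fun _ => (0 : ℝ) :=
    hev.mono fun t ht => (mul_eq_zero.1 (hfg t)).resolve_left ht
  have h1 : (g : Pt W → ℝ) = fun _ => (0 : ℝ) :=
    hga.eq_of_eventuallyEq analyticOnNhd_const hg0
  exact hg (Subtype.ext h1)

private theorem An_nat (n : ℕ) : (((n : An W) : Pt W → ℝ)) 0 = n := by
  rw [Subring.coe_natCast]
  rfl

private theorem An_ntr : Nontrivial (An W) := by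
  refine ⟨0, 1, fun h => ?_⟩
  have h1 : (0 : ℝ) = 1 := congrFun (congrArg Subtype.val h) (0 : Pt W)
  exact zero_ne_one h1

/-- Identity theorem. -/
instance : IsDomain (An W) := by
  have := An_nzd W
  have := An_ntr W
  exact NoZeroDivisors.to_isDomain _

instance : CharZero (An W) := by
  refine ⟨fun m n h => ?_⟩
  have h1 : (((m : An W) : Pt W → ℝ)) 0 = (((n : An W) : Pt W → ℝ)) 0 :=
    congrFun (congrArg Subtype.val h) 0
  rw [An_nat, An_nat] at h1
  exact Nat.cast_injective h1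

/-- The derivative in a direction. -/
noncomputable def pd (w : W) (f : Pt W → ℝ) : Pt W → ℝ :=
  fun t => fderiv ℝ f t (Pi.single w 1)

variable {W} in
private theorem An_der {f : Pt W → ℝ} (hf : f ∈ An W) (t : Pt W) :
    HasFDerivAt f (fderiv ℝ f t) t :=
  ((hf t (Set.mem_univ _)).differentiableAt).hasFDerivAt

variable {W} in
private theorem An_pd {w : W} {f : Pt W → ℝ} {t : Pt W} {L : Pt W →L[ℝ] ℝ}
    (h : HasFDerivAt f L t) : pd W w f t = L (Pi.single w 1) := by
  change fderiv ℝ f t (Pi.single w 1) = _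
  rw [h.fderiv]

theorem pd_mem {w : W} {f : Pt W → ℝ} (hf : f ∈ An W) : pd W w f ∈ An W := by
  intro t _
  have h1 : AnalyticAt ℝ (fderiv ℝ f) t := (hf t (Set.mem_univ _)).fderiv
  exact ((ContinuousLinearMap.apply ℝ ℝ (Pi.single w 1 : Pt W)).analyticAt _).comp h1

theorem pd_add {w : W} {f g : Pt W → ℝ} (hf : f ∈ An W) (hg : g ∈ An W) :
    pd W w (f + g) = pd W w f + pd W w g := by
  funext t
  exact An_pd ((An_der hf t).add (An_der hg t))

theorem pd_mul {w : W} {f g : Pt W → ℝ} (hf : f ∈ An W) (hg : g ∈ An W) :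
    pd W w (f * g) = f * pd W w g + g * pd W w f := by
  funext t
  exact An_pd ((An_der hf t).mul (An_der hg t))

theorem pd_exp {w : W} {f : Pt W → ℝ} (hf : f ∈ An W) :
    (fun t => Real.exp (f t)) ∈ An W ∧
      pd W w (fun t => Real.exp (f t)) = (fun t => Real.exp (f t)) * pd W w f := by
  refine ⟨fun t _ => (hf t (Set.mem_univ _)).rexp, ?_⟩
  funext t
  exact An_pd (An_der hf t).exp

theorem pd_log {w : W} {f : Pt W → ℝ} (hf : f ∈ An W) (h0 : ∀ t, 0 < f t) :
    (fun t => Real.log (f t)) ∈ An W ∧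
      pd W w f = f * pd W w (fun t => Real.log (f t)) := by
  refine ⟨fun t _ => AnalyticAt.comp (analyticAt_log (h0 t)) (hf t (Set.mem_univ _)), ?_⟩
  funext t
  have h1 : pd W w (fun t => Real.log (f t)) t = (f t)⁻¹ * fderiv ℝ f t (Pi.single w 1) :=
    An_pd ((An_der hf t).log (h0 t).ne')
  change fderiv ℝ f t (Pi.single w 1) = f t * pd W w (fun t => Real.log (f t)) t
  rw [h1, ← mul_assoc, mul_inv_cancel₀ (h0 t).ne', one_mul]

theorem pd_coord (w w' : W) : (fun t : Pt W => t w') ∈ An W ∧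
    pd W w (fun t : Pt W => t w') = fun _ => if w' = w then 1 else 0 := by
  refine ⟨fun t _ => (ContinuousLinearMap.proj (R := ℝ) (φ := fun _ : W => ℝ) w').analyticAt t,
    ?_⟩
  funext t
  have h1 : pd W w (fun t : Pt W => t w') t = (Pi.single w 1 : Pt W) w' :=
    An_pd (ContinuousLinearMap.proj (R := ℝ) (φ := fun _ : W => ℝ) w').hasFDerivAt
  rw [h1, Pi.single_apply]

end Pool.Agent.TC
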