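import Pool.Agent.H.MP_b2d7dd_lc.TC.Df

/-!
# Module AnD: the ring of the real analytic functions on the open orthant, its derivations

`Po k` is the open orthant, `AF k` the ring of the real analytic functions on it (as functions on the subtype; `ez f`
is the extension by zero), `dA i` the partial derivatives.
-/

set_option autoImplicit false

namespace Pool.Agent.TC

open Set Filter Topology

/-- The open orthant. -/
def Po (k : ℕ) : Set (Fin k → ℝ) := {x | ∀ i, 0 < x i}

theorem isOpen_Po (k : ℕ) : IsOpen (Po k) := by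
  have h : Po k = ⋂ i, {x : Fin k → ℝ | 0 < x i} := by
    ext x
    simp [Po]
  rw [h]
  exact isOpen_iInter_of_finite fun i => isOpen_lt continuous_const (continuous_apply i)

theorem convex_Po (k : ℕ) : Convex ℝ (Po k) := by
  intro x hx y hy a b ha hb hab i
  have h1 := hx i
  have h2 := hy i
  show 0 < a * x i + b * y i
  rcases ha.eq_or_lt with rfl | ha'
  · have hb1 : b = 1 := by linarith
    rw [hb1]
    linarith
  · have := mul_pos ha' h1
    have := mul_nonneg hb h2.le
    linarith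

theorem isPreconnected_Po (k : ℕ) : IsPreconnected (Po k) := (convex_Po k).isPreconnected

theorem one_mem_Po (k : ℕ) : (fun _ => 1 : Fin k → ℝ) ∈ Po k := fun _ => one_pos

open Classical in
/-- The extension by zero. -/
noncomputable def ez {k : ℕ} (f : Po k → ℝ) (x : Fin k → ℝ) : ℝ :=
  if h : x ∈ Po k then f ⟨x, h⟩ else 0

theorem ez_of {k : ℕ} (f : Po k → ℝ) {x : Fin k → ℝ} (h : x ∈ Po k) : ez f x = f ⟨x, h⟩ := by
  unfold ez
  rw [dif_pos h]

theorem ez_coe {k : ℕ} (f : Po k → ℝ) (x : Po k) : ez f x = f x := ez_of f x.2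

/-- A function is in the ring if it is the restriction of a function which is analytic on `Po k`. -/
theorem ez_analytic {k : ℕ} {f : Po k → ℝ} {g : (Fin k → ℝ) → ℝ} (hg : AnalyticOnNhd ℝ g (Po k))
    (h : ∀ x : Po k, f x = g x) : AnalyticOnNhd ℝ (ez f) (Po k) :=
  hg.congr (isOpen_Po k) fun x hx => by rw [ez_of f hx, h]

/-- The ring of the real analytic functions on the open orthant. -/
def AF (k : ℕ) : Subring (Po k → ℝ) where
  carrier := {f | AnalyticOnNhd ℝ (ez f) (Po k)}
  mul_mem' := by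
    intro f g hf hg
    exact ez_analytic (g := fun x => ez f x * ez g x) (hf.mul hg) fun x => by
      rw [ez_coe, ez_coe]
      rfl
  one_mem' := ez_analytic (g := fun _ => 1) analyticOnNhd_const fun _ => rfl
  add_mem' := by
    intro f g hf hg
    exact ez_analytic (g := fun x => ez f x + ez g x) (hf.add hg) fun x => by
      rw [ez_coe, ez_coe]
      rfl
  zero_mem' := ez_analytic (g := fun _ => 0) analyticOnNhd_const fun _ => rfl
  neg_mem' := by
    intro f hf
    exact ez_analytic (g := fun x => -ez f x) hf.neg fun x => by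
      rw [ez_coe]
      rfl

variable {k : ℕ}

theorem AF_an (f : AF k) : AnalyticOnNhd ℝ (ez f.1) (Po k) := f.2

theorem AF_anAt (f : AF k) (x : Po k) : AnalyticAt ℝ (ez f.1) x := f.2 x x.2

theorem AF_diffAt (f : AF k) (x : Po k) : DifferentiableAt ℝ (ez f.1) x :=
  (AF_anAt f x).differentiableAt

/-- Elements of the ring from analytic functions. -/
def mkA (g : (Fin k → ℝ) → ℝ) (hg : AnalyticOnNhd ℝ g (Po k)) : AF k :=
  ⟨fun x => g x, ez_analytic hg fun _ => rfl⟩

@[simp] theorem mkA_apply (g : (Fin k → ℝ) → ℝ) (hg : AnalyticOnNhd ℝ g (Po k)) (x : Po k) :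
    (mkA g hg).1 x = g x := rfl

theorem AF_ext {f g : AF k} (h : ∀ x : Po k, f.1 x = g.1 x) : f = g :=
  Subtype.ext (funext h)

/-- The identity theorem. -/
theorem AF_eq_zero {f : AF k} {x : Po k} (h : ∀ᶠ y in 𝓝 (x : Fin k → ℝ), ez f.1 y = 0) : f = 0 := by
  have h1 := (AF_an f).eqOn_zero_of_preconnected_of_eventuallyEq_zero (isPreconnected_Po k) x.2 h
  refine AF_ext fun y => ?_
  have h2 := h1 y.2
  rw [ez_coe] at h2
  exact h2

theorem AF_eventually_ne {g : AF k} {x : Po k} (h : g.1 x ≠ 0) :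
    ∀ᶠ y in 𝓝 (x : Fin k → ℝ), ez g.1 y ≠ 0 := by
  have h1 : ContinuousAt (ez g.1) x := (AF_anAt g x).continuousAt
  refine h1.eventually_ne ?_
  rwa [ez_coe]

instance : IsDomain (AF k) := by
  have : Nontrivial (AF k) := ⟨⟨0, 1, fun h => by
    have h1 := congrArg (fun f : AF k => f.1 ⟨_, one_mem_Po k⟩) h
    exact zero_ne_one (α := ℝ) h1⟩⟩
  have : NoZeroDivisors (AF k) := ⟨fun {f g} hfg => by
    by_contra hcon
    push Not at hcon
    obtain ⟨hf, hg⟩ := hcon
    obtain ⟨x, hx⟩ : ∃ x, f.1 x ≠ 0 := by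
      by_contra h
      push Not at h
      exact hf (AF_ext h)
    apply hg
    refine AF_eq_zero (x := x) ?_
    filter_upwards [AF_eventually_ne hx, (isOpen_Po k).mem_nhds x.2] with y hy hy'
    have h1 := congrArg (fun f : AF k => f.1 ⟨y, hy'⟩) hfg
    have h2 : f.1 ⟨y, hy'⟩ * g.1 ⟨y, hy'⟩ = 0 := h1
    rw [ez_of _ hy'] at hy ⊢
    rcases mul_eq_zero.1 h2 with h3 | h3
    · exact absurd h3 hy
    · exact h3⟩
  exact NoZeroDivisors.to_isDomain _

/-- The evaluation. -/
def evA (x : Po k) : AF k →+* ℝ := (Pi.evalRingHom (fun _ : Po k => ℝ) x).comp (AF k).subtype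

theorem evA_apply (x : Po k) (f : AF k) : evA x f = f.1 x := rfl

/-- The constants. -/
noncomputable def cA (k : ℕ) : ℝ →+* AF k where
  toFun c := mkA (fun _ => c) analyticOnNhd_const
  map_one' := rfl
  map_mul' _ _ := rfl
  map_zero' := rfl
  map_add' _ _ := rfl

theorem cA_apply (c : ℝ) (x : Po k) : (cA k c).1 x = c := rfl

/-- The partial derivatives. -/
noncomputable def dA (i : Fin k) : Derivation ℤ (AF k) (AF k) :=
  Derivation.mk' (AddMonoidHom.mk' (fun f : AF k =>
      mkA (fun x => fderiv ℝ (ez f.1) x (Pi.single i 1))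
        (((ContinuousLinearMap.apply ℝ ℝ (Pi.single i 1 : Fin k → ℝ)).analyticOnNhd univ).comp
          (AF_an f).fderiv (mapsTo_univ _ _))) (by
    intro f g
    refine AF_ext fun x => ?_
    show fderiv ℝ (ez (f + g).1) x (Pi.single i 1) =
      fderiv ℝ (ez f.1) x (Pi.single i 1) + fderiv ℝ (ez g.1) x (Pi.single i 1)
    have h1 : ez (f + g).1 =ᶠ[𝓝 (x : Fin k → ℝ)] ez f.1 + ez g.1 := by
      filter_upwards [(isOpen_Po k).mem_nhds x.2] with y hy
      rw [Pi.add_apply, ez_of _ hy, ez_of _ hy, ez_of _ hy]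
      rfl
    rw [h1.fderiv_eq, fderiv_add (AF_diffAt f x) (AF_diffAt g x)]
    rfl)).toIntLinearMap (by
    intro f g
    refine AF_ext fun x => ?_
    show fderiv ℝ (ez (f * g).1) x (Pi.single i 1) =
      f.1 x * fderiv ℝ (ez g.1) x (Pi.single i 1) + g.1 x * fderiv ℝ (ez f.1) x (Pi.single i 1)
    have h1 : ez (f * g).1 =ᶠ[𝓝 (x : Fin k → ℝ)] fun y => ez f.1 y * ez g.1 y := by
      filter_upwards [(isOpen_Po k).mem_nhds x.2] with y hy
      rw [ez_of _ hy, ez_of _ hy, ez_of _ hy]
      rfl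
    rw [h1.fderiv_eq, fderiv_fun_mul (AF_diffAt f x) (AF_diffAt g x), ez_coe, ez_coe]
    rfl)

theorem dA_apply (i : Fin k) (f : AF k) (x : Po k) :
    (dA i f).1 x = fderiv ℝ (ez f.1) x (Pi.single i 1) := rfl

/-- The derivative of the restriction of a differentiable function. -/
theorem dA_mk (i : Fin k) (f : AF k) {g : (Fin k → ℝ) → ℝ} {x : Po k}
    {g' : (Fin k → ℝ) →L[ℝ] ℝ} (hg : HasFDerivAt g g' x) (h : ∀ y : Po k, f.1 y = g y) :
    (dA i f).1 x = g' (Pi.single i 1) := by
  rw [dA_apply]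
  have h1 : ez f.1 =ᶠ[𝓝 (x : Fin k → ℝ)] g := by
    filter_upwards [(isOpen_Po k).mem_nhds x.2] with y hy
    rw [ez_of _ hy, h]
  rw [h1.fderiv_eq, hg.fderiv]

theorem AF_hasFDerivAt (f : AF k) (x : Po k) :
    HasFDerivAt (ez f.1) (fderiv ℝ (ez f.1) x) x := (AF_diffAt f x).hasFDerivAt

theorem dA_const (i : Fin k) (c : ℝ) : dA i (cA k c) = 0 := by
  refine AF_ext fun x => ?_
  rw [dA_mk i _ (hasFDerivAt_const c (x : Fin k → ℝ)) fun _ => rfl]
  rfl

end Pool.Agent.TC
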