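import Pool.Agent.H.MP_b2d7dd_lc.TC.AnF

/-!
# Module AnE: coordinates, exponentials, logarithms, powers, inverses of analytic functions
-/

set_option autoImplicit false

namespace Pool.Agent.TC

open Set Filter Topology

variable {k : ℕ}

theorem cA_inj : Function.Injective (cA k) := by
  intro a b h
  exact congrArg (fun f : AF k => f.1 ⟨_, one_mem_Po k⟩) h

theorem cH_inj : Function.Injective (cH k) := algHF_inj.comp cA_inj

instance : CharZero (HF k) := (cH k).charZero_iff cH_inj |>.1 inferInstance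

/-- The coordinates. -/
noncomputable def xA (i : Fin k) : AF k :=
  mkA (fun x => x i) ((ContinuousLinearMap.proj (R := ℝ) (φ := fun _ : Fin k => ℝ) i).analyticOnNhd _)

theorem xA_apply (i : Fin k) (x : Po k) : (xA i).1 x = x.1 i := rfl

theorem dA_xA (i j : Fin k) : dA i (xA j) = if i = j then 1 else 0 := by
  refine AF_ext fun x => ?_
  rw [dA_mk (g' := ContinuousLinearMap.proj (R := ℝ) (φ := fun _ : Fin k => ℝ) j) i (xA j)
    ((ContinuousLinearMap.proj (R := ℝ) (φ := fun _ : Fin k => ℝ) j).hasFDerivAt) fun _ => rfl]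
  show (Pi.single i (1 : ℝ) : Fin k → ℝ) j = _
  by_cases h : i = j
  · subst h
    rw [Pi.single_eq_same, if_pos rfl]
    rfl
  · rw [Pi.single_eq_of_ne (fun h' => h h'.symm), if_neg h]
    rfl

/-- Exponentials. -/
noncomputable def exA (f : AF k) : AF k :=
  mkA (fun x => Real.exp (ez f.1 x)) fun x hx => (AF_an f x hx).rexp'

theorem exA_apply (f : AF k) (x : Po k) : (exA f).1 x = Real.exp (f.1 x) := by
  show Real.exp (ez f.1 x) = _
  rw [ez_coe]

theorem exA_pos (f : AF k) (x : Po k) : 0 < (exA f).1 x := by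
  rw [exA_apply]
  exact Real.exp_pos _

theorem dA_exA (i : Fin k) (f : AF k) : dA i (exA f) = exA f * dA i f := by
  refine AF_ext fun x => ?_
  have h1 := (AF_hasFDerivAt f x).exp
  rw [dA_mk i (exA f) h1 fun _ => rfl]
  show Real.exp (ez f.1 x) * fderiv ℝ (ez f.1) x (Pi.single i 1) = _
  rfl

/-- Logarithms of positive functions. -/
noncomputable def lgA (f : AF k) (hf : ∀ x, 0 < f.1 x) : AF k :=
  mkA (fun x => Real.log (ez f.1 x)) fun x hx =>
    (analyticAt_log (show 0 < ez f.1 x by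
      rw [ez_of _ hx]
      exact hf _)).comp (AF_an f x hx)

theorem lgA_apply (f : AF k) (hf : ∀ x, 0 < f.1 x) (x : Po k) :
    (lgA f hf).1 x = Real.log (f.1 x) := by
  show Real.log (ez f.1 x) = _
  rw [ez_coe]

theorem dA_lgA (i : Fin k) (f : AF k) (hf : ∀ x, 0 < f.1 x) : dA i (lgA f hf) * f = dA i f := by
  refine AF_ext fun x => ?_
  have h0 : ez f.1 x ≠ 0 := by
    rw [ez_coe]
    exact (hf x).ne'
  have h1 := (AF_hasFDerivAt f x).log h0
  show (dA i (lgA f hf)).1 x * f.1 x = _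
  rw [dA_mk i (lgA f hf) h1 fun _ => rfl]
  show (ez f.1 x)⁻¹ * fderiv ℝ (ez f.1) x (Pi.single i 1) * f.1 x =
    fderiv ℝ (ez f.1) x (Pi.single i 1)
  rw [← ez_coe f.1 x]
  field_simp

theorem exA_lgA (f : AF k) (hf : ∀ x, 0 < f.1 x) : exA (lgA f hf) = f :=
  AF_ext fun x => by rw [exA_apply, lgA_apply, Real.exp_log (hf x)]

theorem lgA_exA (f : AF k) : lgA (exA f) (exA_pos f) = f :=
  AF_ext fun x => by rw [lgA_apply, exA_apply, Real.log_exp]

theorem exA_add (f g : AF k) : exA (f + g) = exA f * exA g :=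
  AF_ext fun x => by
    rw [exA_apply]
    show Real.exp (f.1 x + g.1 x) = (exA f).1 x * (exA g).1 x
    rw [exA_apply, exA_apply, Real.exp_add]

theorem lgA_mul (f g : AF k) (hf : ∀ x, 0 < f.1 x) (hg : ∀ x, 0 < g.1 x)
    (hfg : ∀ x, 0 < (f * g).1 x) : lgA (f * g) hfg = lgA f hf + lgA g hg :=
  AF_ext fun x => by
    rw [lgA_apply]
    show Real.log (f.1 x * g.1 x) = (lgA f hf).1 x + (lgA g hg).1 x
    rw [lgA_apply, lgA_apply, Real.log_mul (hf x).ne' (hg x).ne']

/-- Powers. -/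
noncomputable def pwA (f : AF k) (hf : ∀ x, 0 < f.1 x) (g : AF k) : AF k := exA (g * lgA f hf)

theorem pwA_apply (f : AF k) (hf : ∀ x, 0 < f.1 x) (g : AF k) (x : Po k) :
    (pwA f hf g).1 x = f.1 x ^ g.1 x := by
  unfold pwA
  rw [exA_apply, Real.rpow_def_of_pos (hf x)]
  show Real.exp (g.1 x * (lgA f hf).1 x) = _
  rw [lgA_apply, mul_comm]

theorem pwA_pos (f : AF k) (hf : ∀ x, 0 < f.1 x) (g : AF k) (x : Po k) :
    0 < (pwA f hf g).1 x := exA_pos _ x

/-- Inverses of functions without zeros. -/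
noncomputable def ivA (f : AF k) (hf : ∀ x, f.1 x ≠ 0) : AF k :=
  mkA (fun x => (ez f.1 x)⁻¹) fun x hx => (AF_an f x hx).inv (by
    rw [ez_of _ hx]
    exact hf _)

theorem ivA_mul (f : AF k) (hf : ∀ x, f.1 x ≠ 0) : ivA f hf * f = 1 :=
  AF_ext fun x => by
    show (ez f.1 x)⁻¹ * f.1 x = 1
    rw [ez_coe, inv_mul_cancel₀ (hf x)]

/-- Powers with a constant exponent. -/
theorem dA_pwA (i : Fin k) (f : AF k) (hf : ∀ x, 0 < f.1 x) (g : AF k) :
    dA i (pwA f hf g) = pwA f hf g * dA i (g * lgA f hf) := dA_exA i _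

/-! ### The same in the field of fractions -/

/-- the image in the field of fractions -/
noncomputable abbrev tH (f : AF k) : HF k := algebraMap (AF k) (HF k) f

theorem tH_ne {f : AF k} (h : f ≠ 0) : tH f ≠ 0 := by
  rw [Ne, map_eq_zero_iff _ algHF_inj]
  exact h

theorem ne_of_pos {f : AF k} (h : ∀ x, 0 < f.1 x) : f ≠ 0 := by
  rintro rfl
  exact lt_irrefl (0 : ℝ) (h ⟨_, one_mem_Po k⟩)

theorem dH_exp (i : Fin k) (f : AF k) : dH i (tH (exA f)) = tH (exA f) * dH i (tH f) := by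
  rw [dH_alg, dH_alg, dA_exA, map_mul]

theorem dH_log (i : Fin k) (f : AF k) (hf : ∀ x, 0 < f.1 x) :
    dH i (tH (lgA f hf)) = dH i (tH f) / tH f := by
  rw [eq_div_iff (tH_ne (ne_of_pos hf)), dH_alg, dH_alg, ← map_mul, dA_lgA]

theorem dH_x (i j : Fin k) : dH i (tH (xA j)) = if i = j then 1 else 0 := by
  rw [dH_alg, dA_xA]
  split_ifs
  · exact map_one _
  · exact map_zero _

theorem dH_cH (i : Fin k) (c : ℝ) : dH i (cH k c) = 0 := mem_Cst_HF.2 ⟨c, rfl⟩ i

end Pool.Agent.TC
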