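import Pool.Agent.H.MP_b2d7dd_lc.TC.AnD

/-!
# Module AnF: the field of fractions of the ring of analytic functions, derivations, constants
-/

set_option autoImplicit false

namespace Pool.Agent.TC

open Set Filter Topology

/-- Derivations extend to the field of fractions. -/
theorem exists_frac_deriv {A K : Type} [CommRing A] [IsDomain A] [Field K] [Algebra A K]
    [IsFractionRing A K] (d : Derivation ℤ A A) :
    ∃ D : Derivation ℤ K K, ∀ a, D (algebraMap A K a) = algebraMap A K (d a) := by
  let φ : A →+* TrivSqZeroExt K K :=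
    { toFun := fun a => (algebraMap A K a, algebraMap A K (d a))
      map_one' := by
        refine TrivSqZeroExt.ext ?_ ?_
        · exact map_one _
        · show algebraMap A K (d 1) = 0
          rw [Derivation.map_one_eq_zero, map_zero]
      map_mul' := by
        intro a b
        refine TrivSqZeroExt.ext ?_ ?_
        · exact map_mul _ _ _
        · show algebraMap A K (d (a * b)) = algebraMap A K a • algebraMap A K (d b) +
            MulOpposite.op (algebraMap A K b) • algebraMap A K (d a)
          rw [Derivation.leibniz, map_add, smul_eq_mul, smul_eq_mul, map_mul, map_mul,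
            smul_eq_mul, MulOpposite.smul_eq_mul_unop, MulOpposite.unop_op]
          ring
      map_zero' := by
        refine TrivSqZeroExt.ext ?_ ?_
        · exact map_zero _
        · show algebraMap A K (d 0) = 0
          rw [map_zero, map_zero]
      map_add' := by
        intro a b
        refine TrivSqZeroExt.ext ?_ ?_
        · exact map_add _ _ _
        · show algebraMap A K (d (a + b)) = algebraMap A K (d a) + algebraMap A K (d b)
          rw [map_add, map_add] }
  have hφ1 : ∀ a, (φ a).fst = algebraMap A K a := fun _ => rfl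
  have hφ2 : ∀ a, (φ a).snd = algebraMap A K (d a) := fun _ => rfl
  have hu : ∀ y : nonZeroDivisors A, IsUnit (φ y) := by
    intro y
    rw [TrivSqZeroExt.isUnit_iff_isUnit_fst, hφ1]
    exact IsLocalization.map_units K y
  let Φ : K →+* TrivSqZeroExt K K := IsLocalization.lift (M := nonZeroDivisors A) hu
  have hΦ : ∀ a, Φ (algebraMap A K a) = φ a := fun a => IsLocalization.lift_eq hu a
  have hfst : ∀ x : K, (Φ x).fst = x := by
    have h1 : ((TrivSqZeroExt.fstHom K K K).toRingHom.comp Φ) = RingHom.id K := by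
      refine IsLocalization.ringHom_ext (nonZeroDivisors A) ?_
      ext a
      show (Φ (algebraMap A K a)).fst = algebraMap A K a
      rw [hΦ, hφ1]
    intro x
    exact RingHom.congr_fun h1 x
  refine ⟨Derivation.mk' (AddMonoidHom.mk' (fun x : K => (Φ x).snd) (by
    intro x y
    rw [map_add]
    rfl)).toIntLinearMap (by
    intro x y
    show (Φ (x * y)).snd = x * (Φ y).snd + y * (Φ x).snd
    rw [map_mul, TrivSqZeroExt.snd_mul, hfst, hfst, smul_eq_mul, MulOpposite.smul_eq_mul_unop,
      MulOpposite.unop_op]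
    ring), fun a => ?_⟩
  show (Φ (algebraMap A K a)).snd = _
  rw [hΦ, hφ2]

/-- The field of fractions. -/
def HF (k : ℕ) : Type := FractionRing (AF k)

noncomputable instance (k : ℕ) : Field (HF k) := inferInstanceAs (Field (FractionRing (AF k)))

noncomputable instance (k : ℕ) : Algebra (AF k) (HF k) :=
  inferInstanceAs (Algebra (AF k) (FractionRing (AF k)))

instance (k : ℕ) : IsFractionRing (AF k) (HF k) :=
  inferInstanceAs (IsFractionRing (AF k) (FractionRing (AF k)))

variable {k : ℕ}

/-- The derivations of the field of fractions. -/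
noncomputable def dH (i : Fin k) : Derivation ℤ (HF k) (HF k) :=
  (exists_frac_deriv (A := AF k) (K := HF k) (dA i)).choose

theorem dH_alg (i : Fin k) (f : AF k) :
    dH i (algebraMap (AF k) (HF k) f) = algebraMap (AF k) (HF k) (dA i f) :=
  (exists_frac_deriv (A := AF k) (K := HF k) (dA i)).choose_spec f

theorem algHF_inj : Function.Injective (algebraMap (AF k) (HF k)) :=
  IsFractionRing.injective (AF k) (HF k)

/-- The constants. -/
noncomputable def cH (k : ℕ) : ℝ →+* HF k := (algebraMap (AF k) (HF k)).comp (cA k)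

/-- A function whose logarithmic derivatives are those of `g` is a multiple of `g`. -/
theorem AF_const {f g : AF k} (hg : g ≠ 0) (h : ∀ i, g * dA i f = f * dA i g) :
    ∃ c : ℝ, f = cA k c * g := by
  obtain ⟨x, hx⟩ : ∃ x, g.1 x ≠ 0 := by
    by_contra hcon
    push Not at hcon
    exact hg (AF_ext hcon)
  obtain ⟨ε, hε, hb⟩ := Metric.eventually_nhds_iff_ball.1
    ((AF_eventually_ne hx).and ((isOpen_Po k).mem_nhds x.2))
  have hd : ∀ y ∈ Metric.ball (x : Fin k → ℝ) ε,
      HasFDerivAt (fun y => ez f.1 y / ez g.1 y) (0 : (Fin k → ℝ) →L[ℝ] ℝ) y := by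
    intro y hy
    obtain ⟨hy1, hy2⟩ := hb y hy
    have h1 := AF_hasFDerivAt f ⟨y, hy2⟩
    have h2 := AF_hasFDerivAt g ⟨y, hy2⟩
    have h3 := h1.mul ((hasDerivAt_inv hy1).comp_hasFDerivAt y h2)
    have h5 : ez g.1 y • fderiv ℝ (ez f.1) y = ez f.1 y • fderiv ℝ (ez g.1) y := by
      refine ContinuousLinearMap.coe_injective (LinearMap.pi_ext' fun i => ?_)
      refine LinearMap.ext_ring ?_
      have h6 := congrArg (fun F : AF k => F.1 ⟨y, hy2⟩) (h i)
      have h7 : g.1 ⟨y, hy2⟩ * fderiv ℝ (ez f.1) y (Pi.single i 1) =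
        f.1 ⟨y, hy2⟩ * fderiv ℝ (ez g.1) y (Pi.single i 1) := h6
      show ez g.1 y * fderiv ℝ (ez f.1) y (Pi.single i 1) =
        ez f.1 y * fderiv ℝ (ez g.1) y (Pi.single i 1)
      rw [ez_of _ hy2, ez_of _ hy2, h7]
    refine h3.congr_fderiv ?_
    refine ContinuousLinearMap.ext fun v => ?_
    have h6 : ez g.1 y * fderiv ℝ (ez f.1) y v = ez f.1 y * fderiv ℝ (ez g.1) y v :=
      congrArg (fun L : (Fin k → ℝ) →L[ℝ] ℝ => L v) h5
    show ez f.1 y * (-(ez g.1 y ^ 2)⁻¹ * fderiv ℝ (ez g.1) y v) +
      (ez g.1 y)⁻¹ * fderiv ℝ (ez f.1) y v = 0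
    field_simp
    linear_combination h6
  have hc : ∀ y ∈ Metric.ball (x : Fin k → ℝ) ε, ez f.1 y / ez g.1 y =
      ez f.1 x / ez g.1 x := by
    intro y hy
    refine (convex_ball (x : Fin k → ℝ) ε).is_const_of_fderivWithin_eq_zero (𝕜 := ℝ)
      (f := fun y => ez f.1 y / ez g.1 y)
      (fun z hz => (hd z hz).differentiableAt.differentiableWithinAt) ?_ hy
      (Metric.mem_ball_self hε)
    intro z hz
    rw [fderivWithin_of_isOpen Metric.isOpen_ball hz]
    exact (hd z hz).fderiv
  refine ⟨ez f.1 x / ez g.1 x, ?_⟩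
  rw [← sub_eq_zero]
  refine AF_eq_zero (x := x) ?_
  filter_upwards [Metric.ball_mem_nhds (x : Fin k → ℝ) hε] with y hy
  obtain ⟨hy1, hy2⟩ := hb y hy
  rw [ez_of _ hy2]
  show f.1 ⟨y, hy2⟩ - ez f.1 x / ez g.1 x * g.1 ⟨y, hy2⟩ = 0
  rw [← hc y hy, ez_of _ hy2, ez_of _ hy2, div_mul_cancel₀, sub_self]
  rwa [ez_of _ hy2] at hy1

/-- The constants of the field of fractions are the real numbers. -/
theorem mem_Cst_HF {x : HF k} : x ∈ Cst (dH : Fin k → Derivation ℤ (HF k) (HF k)) ↔
    ∃ c : ℝ, x = cH k c := by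
  constructor
  · intro hx
    obtain ⟨f, g, hg, rfl⟩ := IsFractionRing.div_surjective (A := AF k) x
    have hg0 : g ≠ 0 := nonZeroDivisors.ne_zero hg
    have hg1 : algebraMap (AF k) (HF k) g ≠ 0 := by
      rw [Ne, map_eq_zero_iff _ algHF_inj]
      exact hg0
    have h1 : ∀ i, g * dA i f = f * dA i g := by
      intro i
      have h2 := hx i
      rw [Derivation.leibniz_div, dH_alg, dH_alg, smul_eq_mul, smul_eq_mul, smul_eq_mul,
        mul_eq_zero] at h2
      rcases h2 with h2 | h2
      · exact absurd h2 (pow_ne_zero 2 (inv_ne_zero hg1))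
      · apply algHF_inj
        rw [map_mul, map_mul]
        exact sub_eq_zero.1 h2
    obtain ⟨c, hc⟩ := AF_const hg0 h1
    refine ⟨c, ?_⟩
    rw [hc, map_mul, mul_div_assoc, div_self hg1, mul_one]
    rfl
  · rintro ⟨c, rfl⟩ i
    show dH i (algebraMap (AF k) (HF k) (cA k c)) = 0
    rw [dH_alg, dA_const, map_zero]

end Pool.Agent.TC
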