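import Pool.Agent.H.MP_b2d7dd_lc.TC.An

/-!
# Module Anq: quotients of analytic functions, functions of the terms
-/

namespace Pool.Agent.TC

variable (W : Finset (List Bool))

/-- A quotient with vanishing derivatives is constant. -/
theorem quot_const {f g : Pt W → ℝ} (hf : f ∈ An W) (hg : g ∈ An W) (hg0 : g ≠ 0)
    (h : ∀ w, g * pd W w f = f * pd W w g) : ∃ c : ℝ, f = fun t => c * g t := by
  have hf' : AnalyticOnNhd ℝ f Set.univ := hf
  have hg' : AnalyticOnNhd ℝ g Set.univ := hg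
  have hfd : Differentiable ℝ f := fun t => (hf' t (Set.mem_univ t)).differentiableAt
  have hgd : Differentiable ℝ g := fun t => (hg' t (Set.mem_univ t)).differentiableAt
  obtain ⟨t0, ht0⟩ : ∃ t0, g t0 ≠ 0 := Function.ne_iff.1 hg0
  obtain ⟨r, hr, hball⟩ := Metric.isOpen_iff.1
    (isOpen_ne_fun hgd.continuous (continuous_const (y := (0 : ℝ)))) t0 ht0
  have hd : ∀ t, g t • fderiv ℝ f t = f t • fderiv ℝ g t := by
    intro t
    refine ContinuousLinearMap.ext fun v => ?_
    have hlin : (g t • fderiv ℝ f t : Pt W →L[ℝ] ℝ).toLinearMap =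
        (f t • fderiv ℝ g t : Pt W →L[ℝ] ℝ).toLinearMap := by
      refine LinearMap.pi_ext' fun w => LinearMap.ext_ring ?_
      exact congrFun (h w) t
    exact congrArg (fun L : Pt W →ₗ[ℝ] ℝ => L v) hlin
  have hq : ∀ t ∈ Metric.ball t0 r, HasFDerivAt (fun t => f t * (g t)⁻¹) (0 : Pt W →L[ℝ] ℝ) t := by
    intro t ht
    have hgt : g t ≠ 0 := hball ht
    have h1 : HasFDerivAt (fun t => (g t)⁻¹) (-(g t ^ 2)⁻¹ • fderiv ℝ g t) t :=
      (hasDerivAt_inv hgt).comp_hasFDerivAt t (hgd t).hasFDerivAt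
    have h2 := (hfd t).hasFDerivAt.mul h1
    have h3 : f t • (-(g t ^ 2)⁻¹ • fderiv ℝ g t) + (g t)⁻¹ • fderiv ℝ f t =
        (0 : Pt W →L[ℝ] ℝ) := by
      rw [smul_comm, ← hd t, smul_smul, ← add_smul]
      have h4 : -(g t ^ 2)⁻¹ * g t + (g t)⁻¹ = 0 := by
        field_simp
        ring
      rw [h4, zero_smul]
    rw [h3] at h2
    exact h2
  obtain ⟨c, hc⟩ := Metric.isOpen_ball.exists_is_const_of_fderiv_eq_zero
    (convex_ball t0 r).isPreconnected (f := fun t => f t * (g t)⁻¹)
    (fun t ht => (hq t ht).differentiableAt.differentiableWithinAt)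
    (fun t ht => (hq t ht).fderiv)
  refine ⟨c, ?_⟩
  have hcg : AnalyticOnNhd ℝ (fun t => c * g t) Set.univ := analyticOnNhd_const.mul hg'
  have hev : f =ᶠ[nhds t0] fun t => c * g t := by
    filter_upwards [Metric.ball_mem_nhds t0 hr] with t ht
    have hgt : g t ≠ 0 := hball ht
    have h1 : f t * (g t)⁻¹ = c := hc t ht
    rw [← h1, mul_assoc, inv_mul_cancel₀ hgt, mul_one]
  funext t
  exact hf'.eqOn_of_preconnected_of_eventuallyEq hcg isPreconnected_univ (Set.mem_univ t0) hev
    (Set.mem_univ t)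

/-- The functions of the terms are analytic. -/
theorem rf_mem (t : Pool.Agent.TI.Tm) : rf W t ∈ An W ∧ lr W t ∈ An W := by
  induction t with
  | one => exact ⟨analyticOnNhd_const, analyticOnNhd_const⟩
  | var w =>
    by_cases h : w ∈ W
    · have h1 : AnalyticOnNhd ℝ (fun t : Pt W => t ⟨w, h⟩) Set.univ :=
        (ContinuousLinearMap.proj (R := ℝ) (φ := fun _ : W => ℝ) ⟨w, h⟩).analyticOnNhd _
      have e1 : rf W (.var w) = fun t : Pt W => Real.exp (t ⟨w, h⟩) := by
        funext t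
        exact dif_pos h
      have e2 : lr W (.var w) = fun t : Pt W => t ⟨w, h⟩ := by
        funext t
        exact dif_pos h
      rw [e1, e2]
      exact ⟨h1.rexp, h1⟩
    · have e1 : rf W (.var w) = fun _ : Pt W => (1 : ℝ) := by
        funext t
        exact dif_neg h
      have e2 : lr W (.var w) = fun _ : Pt W => (0 : ℝ) := by
        funext t
        exact dif_neg h
      rw [e1, e2]
      exact ⟨analyticOnNhd_const, analyticOnNhd_const⟩
  | add a b ha hb => exact ⟨(An W).add_mem ha.1 hb.1, analyticOnNhd_const⟩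
  | mul a b ha hb => exact ⟨(An W).mul_mem ha.1 hb.1, analyticOnNhd_const⟩
  | pow a b ha hb =>
    have h1 : AnalyticOnNhd ℝ (rf W a) Set.univ := ha.1
    have h2 : AnalyticOnNhd ℝ (rf W b) Set.univ := hb.1
    have h4 : AnalyticOnNhd ℝ (fun t => Real.log (rf W a t)) Set.univ := fun t ht =>
      (analyticAt_log (rf_pos W a t)).comp (h1 t ht)
    have h3 : AnalyticOnNhd ℝ (fun t => rf W b t * Real.log (rf W a t)) Set.univ := h2.mul h4
    exact ⟨h3.rexp, h3⟩

end Pool.Agent.TC
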