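import Pool.Agent.H.MP_b2d7dd_lc.TC.Pv

/-!
# Module Bg: relations between the logarithms of new powers

`PQ W as L ρ lam` = the `ℚ`-span of the pairs `(rf μ · l, ρ μ · lam b)` with `l = log (rf b)`, `l ∈ L`,
and `(rf μ · log p, ρ μ · lam (num p))` with `p` prime. A pair with first component zero has second
component zero (`PQ_zero`), and the pairs `(log (rf a), lam a)` are in `PQ`.
-/

namespace Pool.Agent.TC

open Pool.Agent.TI (Tm)

variable {W : Finset (List Bool)} {as : List Tm} {F : Type} [Field F] [CharZero F]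

/-- The pairs. -/
noncomputable def PQ (W : Finset (List Bool)) (as : List Tm) (L : Finset (Pt W → ℝ))
    (ρ lam : Tm → F) : Submodule ℚ ((Pt W → ℝ) × F) :=
  Submodule.span ℚ {p | ∃ μ : Tm, ats μ ⊆ At W as ∧
    ((∃ b : Tm, ats b ⊆ At W as ∧ (fun x => Real.log (rf W b x)) ∈ L ∧
        p = (fun x => rf W μ x * Real.log (rf W b x), ρ μ * lam b)) ∨
      ∃ q : ℕ, q.Prime ∧ p = (fun x => rf W μ x * Real.log q, ρ μ * lam (num q)))}

/-- Multiplication by a term. -/
theorem PQ_mul {L : Finset (Pt W → ℝ)} {ρ lam : Tm → F} (h : Pv W as F ρ lam) {μ : Tm}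
    (hμ : ats μ ⊆ At W as) {p : (Pt W → ℝ) × F} (hp : p ∈ PQ W as L ρ lam) :
    ((fun x => rf W μ x * p.1 x, ρ μ * p.2) : (Pt W → ℝ) × F) ∈ PQ W as L ρ lam := by
  refine Submodule.span_induction (p := fun p _ =>
    ((fun x => rf W μ x * p.1 x, ρ μ * p.2) : (Pt W → ℝ) × F) ∈ PQ W as L ρ lam) ?_ ?_ ?_ ?_ hp
  · rintro p ⟨ν, hν, h1⟩
    have h2 : ats (.mul μ ν) ⊆ At W as := Set.union_subset hμ hν
    have h3 : ρ (.mul μ ν) = ρ μ * ρ ν := h.mul μ ν hμ hν
    rcases h1 with ⟨b, hb, hbL, rfl⟩ | ⟨q, hq, rfl⟩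
    · refine Submodule.subset_span ⟨.mul μ ν, h2, Or.inl ⟨b, hb, hbL, ?_⟩⟩
      refine Prod.ext ?_ ?_
      · funext x
        show rf W μ x * (rf W ν x * Real.log (rf W b x)) =
          rf W μ x * rf W ν x * Real.log (rf W b x)
        ring
      · show ρ μ * (ρ ν * lam b) = ρ (.mul μ ν) * lam b
        rw [h3]
        ring
    · refine Submodule.subset_span ⟨.mul μ ν, h2, Or.inr ⟨q, hq, ?_⟩⟩
      refine Prod.ext ?_ ?_
      · funext x
        show rf W μ x * (rf W ν x * Real.log q) = rf W μ x * rf W ν x * Real.log q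
        ring
      · show ρ μ * (ρ ν * lam (num q)) = ρ (.mul μ ν) * lam (num q)
        rw [h3]
        ring
  · have h1 : ((fun x => rf W μ x * (0 : (Pt W → ℝ) × F).1 x, ρ μ * (0 : (Pt W → ℝ) × F).2) :
        (Pt W → ℝ) × F) = 0 := by
      refine Prod.ext ?_ ?_
      · funext x
        show rf W μ x * 0 = 0
        rw [mul_zero]
      · show ρ μ * 0 = 0
        rw [mul_zero]
    rw [h1]
    exact zero_mem _
  · intro p p' _ _ h1 h2
    have h3 : ((fun x => rf W μ x * (p + p').1 x, ρ μ * (p + p').2) : (Pt W → ℝ) × F) =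
        (fun x => rf W μ x * p.1 x, ρ μ * p.2) + (fun x => rf W μ x * p'.1 x, ρ μ * p'.2) := by
      refine Prod.ext ?_ ?_
      · funext x
        show rf W μ x * (p.1 x + p'.1 x) = rf W μ x * p.1 x + rf W μ x * p'.1 x
        ring
      · show ρ μ * (p.2 + p'.2) = ρ μ * p.2 + ρ μ * p'.2
        ring
    rw [h3]
    exact add_mem h1 h2
  · intro c p _ h1
    have h3 : ((fun x => rf W μ x * (c • p).1 x, ρ μ * (c • p).2) : (Pt W → ℝ) × F) =
        c • (fun x => rf W μ x * p.1 x, ρ μ * p.2) := by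
      refine Prod.ext ?_ ?_
      · funext x
        show rf W μ x * (c • p.1 x) = c • (rf W μ x * p.1 x)
        rw [mul_smul_comm]
      · show ρ μ * (c • p.2) = c • (ρ μ * p.2)
        rw [mul_smul_comm]
    rw [h3]
    exact Submodule.smul_mem _ _ h1

/-! ### The pairs `(rf μ, ρ μ)` -/

private noncomputable def Bg_Γ (W : Finset (List Bool)) (as : List Tm) (ρ : Tm → F) :
    Submodule ℚ ((Pt W → ℝ) × F) :=
  Submodule.span ℚ {p | ∃ τ : Tm, ats τ ⊆ At W as ∧ ∃ v ∈ Vm W as,
    (rf W τ = fun x => Real.exp (v x)) ∧ p = (rf W τ, ρ τ)}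

private theorem Bg_Γ_mul {ρ lam : Tm → F} (h : Pv W as F ρ lam) {p p' : (Pt W → ℝ) × F}
    (hp : p ∈ Bg_Γ W as ρ) (hp' : p' ∈ Bg_Γ W as ρ) : p * p' ∈ Bg_Γ W as ρ := by
  refine Submodule.span_induction (p := fun p _ => p * p' ∈ Bg_Γ W as ρ) ?_ ?_ ?_ ?_ hp
  · rintro p ⟨τ, hτ, v, hv, h1, rfl⟩
    refine Submodule.span_induction (p := fun p' _ => (rf W τ, ρ τ) * p' ∈ Bg_Γ W as ρ)
      ?_ ?_ ?_ ?_ hp'
    · rintro p' ⟨τ', hτ', v', hv', h1', rfl⟩
      refine Submodule.subset_span ⟨.mul τ τ', Set.union_subset hτ hτ', v + v',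
        add_mem hv hv', ?_, ?_⟩
      · funext x
        show rf W τ x * rf W τ' x = Real.exp (v x + v' x)
        rw [h1, h1', Real.exp_add]
      · refine Prod.ext ?_ ?_
        · funext x
          rfl
        · exact (h.mul τ τ' hτ hτ').symm
    · rw [mul_zero]
      exact zero_mem _
    · intro a b _ _ ha hb
      rw [mul_add]
      exact add_mem ha hb
    · intro c a _ ha
      rw [mul_smul_comm]
      exact Submodule.smul_mem _ _ ha
  · rw [zero_mul]
    exact zero_mem _
  · intro a b _ _ ha hb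
    rw [add_mul]
    exact add_mem ha hb
  · intro c a _ ha
    rw [smul_mul_assoc]
    exact Submodule.smul_mem _ _ ha

private theorem Bg_Γ_mem {ρ lam : Tm → F} (h : Pv W as F ρ lam) {μ : Tm}
    (hμ : ats μ ⊆ At W as) : ((rf W μ, ρ μ) : (Pt W → ℝ) × F) ∈ Bg_Γ W as ρ := by
  have key : ∀ μ : Tm, ats μ ⊆ At W as → μ ∈ At W as →
      (rf W μ = fun x => Real.exp (lr W μ x)) →
      ((rf W μ, ρ μ) : (Pt W → ℝ) × F) ∈ Bg_Γ W as ρ := fun μ h1 h2 h3 =>
    Submodule.subset_span ⟨μ, h1, lr W μ, lr_mem_Vm h2, h3, rfl⟩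
  induction μ with
  | one =>
    refine Submodule.subset_span ⟨.one, hμ, 0, zero_mem _, ?_, rfl⟩
    funext x
    show (1 : ℝ) = Real.exp 0
    rw [Real.exp_zero]
  | var w => exact key _ hμ (hμ rfl) (funext fun x => rf_var W w x)
  | add s t hs ht =>
    have h1 : ats s ⊆ At W as := Set.subset_union_left.trans hμ
    have h2 : ats t ⊆ At W as := Set.subset_union_right.trans hμ
    have h3 : ((rf W (.add s t), ρ (.add s t)) : (Pt W → ℝ) × F) =
        (rf W s, ρ s) + (rf W t, ρ t) := by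
      refine Prod.ext ?_ ?_
      · funext x
        rfl
      · exact h.add s t h1 h2
    rw [h3]
    exact add_mem (hs h1) (ht h2)
  | mul s t hs ht =>
    have h1 : ats s ⊆ At W as := Set.subset_union_left.trans hμ
    have h2 : ats t ⊆ At W as := Set.subset_union_right.trans hμ
    have h3 : ((rf W (.mul s t), ρ (.mul s t)) : (Pt W → ℝ) × F) =
        (rf W s, ρ s) * (rf W t, ρ t) := by
      refine Prod.ext ?_ ?_
      · funext x
        rfl
      · exact h.mul s t h1 h2
    rw [h3]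
    exact Bg_Γ_mul h (hs h1) (ht h2)
  | pow a b _ _ => exact key _ hμ (hμ rfl) (funext fun x => rf_pow W a b x)

/-- The second component is determined by the first. -/
theorem PQ_zero {L : Finset (Pt W → ℝ)} {ρ lam : Tm → F} (hc : Cl W as) (hs : Sc W as L)
    (h : Pv W as F ρ lam) {y : F} (hy : ((0 : Pt W → ℝ), y) ∈ PQ W as L ρ lam) : y = 0 := by
  classical
  -- the values at the exponentials
  obtain ⟨rh, hrh⟩ : ∃ rh : (Pt W → ℝ) → F, ∀ (τ : Tm) (v : Pt W → ℝ), ats τ ⊆ At W as →
      (rf W τ = fun x => Real.exp (v x)) → ρ τ = rh v := by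
    refine ⟨fun v => if h0 : ∃ τ : Tm, ats τ ⊆ At W as ∧ rf W τ = fun x => Real.exp (v x) then
      ρ h0.choose else 0, fun τ v h1 h2 => ?_⟩
    have h0 : ∃ τ : Tm, ats τ ⊆ At W as ∧ rf W τ = fun x => Real.exp (v x) := ⟨τ, h1, h2⟩
    show ρ τ = if h0 : ∃ τ : Tm, ats τ ⊆ At W as ∧ rf W τ = fun x => Real.exp (v x) then
      ρ h0.choose else 0
    rw [dif_pos h0]
    exact h.ext _ _ h1 h0.choose_spec.1 (h2.trans h0.choose_spec.2.symm)
  have hlb : ∀ l : L, ∃ b : Tm, ats b ⊆ At W as ∧ (l : Pt W → ℝ) = fun x => Real.log (rf W b x) :=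
    fun l => hs.lb _ l.2
  choose bb hbb1 hbb2 using hlb
  have hli := exp_log_ind hs.iv.ind
  obtain ⟨e, he⟩ : ∃ e : Vs W as × (L ⊕ Nat.Primes) → Pt W → ℝ, e = fun p => fun x : Pt W =>
      Real.exp ((p.1 : Pt W → ℝ) x) *
        Sum.elim (fun l : L => (l : Pt W → ℝ) x) (fun q => Real.log q) p.2 := ⟨_, rfl⟩
  rw [← he] at hli
  obtain ⟨σ, hσ⟩ : ∃ σ : Vs W as × (L ⊕ Nat.Primes) → F, σ = fun p =>
      rh (p.1 : Pt W → ℝ) * Sum.elim (fun l : L => lam (bb l))
        (fun q : Nat.Primes => lam (num (q : ℕ))) p.2 := ⟨_, rfl⟩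
  have hmul : ∀ (g : Pt W → ℝ) (z : F), (∀ v ∈ Vm W as,
      ((fun x => Real.exp (v x) * g x, rh v * z) : (Pt W → ℝ) × F) ∈
        Submodule.span ℚ (Set.range fun i => (e i, σ i))) → ∀ p ∈ Bg_Γ W as ρ,
      ((p.1 * g, p.2 * z) : (Pt W → ℝ) × F) ∈
        Submodule.span ℚ (Set.range fun i => (e i, σ i)) := by
    intro g z hg p hp
    have e1 : ∀ p : (Pt W → ℝ) × F, ((p.1 * g, p.2 * z) : (Pt W → ℝ) × F) = p * (g, z) :=
      fun p => rfl
    refine Submodule.span_induction (p := fun p _ => ((p.1 * g, p.2 * z) : (Pt W → ℝ) × F) ∈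
      Submodule.span ℚ (Set.range fun i => (e i, σ i))) ?_ ?_ ?_ ?_ hp
    · rintro p ⟨τ, hτ, v, hv, h1, rfl⟩
      have h2 := hg v hv
      rw [← hrh τ v hτ h1] at h2
      have h3 : (fun x => Real.exp (v x) * g x) = rf W τ * g := by
        rw [h1]
        rfl
      rw [h3] at h2
      exact h2
    · rw [e1, zero_mul]
      exact zero_mem _
    · intro a b _ _ ha hb
      rw [e1] at ha hb ⊢
      rw [add_mul]
      exact add_mem ha hb
    · intro c a _ ha
      rw [e1] at ha ⊢
      rw [smul_mul_assoc]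
      exact Submodule.smul_mem _ _ ha
  have hle : PQ W as L ρ lam ≤ Submodule.span ℚ (Set.range fun i => (e i, σ i)) := by
    refine Submodule.span_le.2 ?_
    rintro p ⟨μ, hμ, h1⟩
    have hμΓ := Bg_Γ_mem h hμ
    rcases h1 with ⟨b, hb, hbL, rfl⟩ | ⟨q, hq, rfl⟩
    · refine hmul (fun x => Real.log (rf W b x)) (lam b) ?_ _ hμΓ
      intro v hv
      refine Submodule.subset_span ⟨(⟨v, Vm_le hv⟩, Sum.inl ⟨_, hbL⟩), ?_⟩
      rw [he, hσ]
      refine Prod.ext rfl ?_
      show rh v * lam (bb ⟨_, hbL⟩) = rh v * lam b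
      have h2 : rf W (bb ⟨_, hbL⟩) = rf W b := by
        funext x
        have h3 := congrFun (hbb2 ⟨_, hbL⟩) x
        have h4 : Real.log (rf W b x) = Real.log (rf W (bb ⟨_, hbL⟩) x) := h3
        exact (Real.log_injOn_pos (rf_pos W _ x) (rf_pos W _ x) h4).symm
      rw [h.lext _ _ (hbb1 _) hb h2]
    · refine hmul (fun _ => Real.log q) (lam (num q)) ?_ _ hμΓ
      intro v hv
      refine Submodule.subset_span ⟨(⟨v, Vm_le hv⟩, Sum.inr ⟨q, hq⟩), ?_⟩
      rw [he, hσ]
      exact Prod.ext rfl rfl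
  obtain ⟨c, hc'⟩ := Finsupp.mem_span_range_iff_exists_finsupp.1 (hle hy)
  have h1 : c.sum (fun i a => a • e i) = 0 := by
    have h2 := congrArg Prod.fst hc'
    rw [Finsupp.sum, Prod.fst_sum] at h2
    exact h2
  have h2 : c.sum (fun i a => a • σ i) = y := by
    have h2 := congrArg Prod.snd hc'
    rw [Finsupp.sum, Prod.snd_sum] at h2
    exact h2
  have h3 : c = 0 := linearIndependent_iff.1 hli c h1
  rw [← h2, h3, Finsupp.sum_zero_index]

/-- The logarithms of the natural numbers. -/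
theorem PQ_num {L : Finset (Pt W → ℝ)} {ρ lam : Tm → F} (h : Pv W as F ρ lam) {n : ℕ}
    (hn : 1 ≤ n) : ((fun _ => Real.log n, lam (num n)) : (Pt W → ℝ) × F) ∈ PQ W as L ρ lam := by
  have hn0 : ∀ m : ℕ, ats (num m) ⊆ At W as := fun m => by
    rw [ats_num]
    exact Set.empty_subset _
  have h1 : lam .one = 0 := by
    have h2 := h.lmul .one .one (Set.empty_subset _) (Set.empty_subset _)
    have h3 := h.lext (.mul .one .one) .one (Set.union_subset (Set.empty_subset _)
      (Set.empty_subset _)) (Set.empty_subset _) (by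
        funext x
        show (1 : ℝ) * 1 = 1
        rw [mul_one])
    rw [h3] at h2
    exact left_eq_add.1 h2
  induction n using induction_on_primes with
  | zero => omega
  | one =>
    have h2 : ((fun _ => Real.log ((1 : ℕ) : ℝ), lam (num 1)) : (Pt W → ℝ) × F) = 0 := by
      refine Prod.ext ?_ h1
      funext x
      show Real.log ((1 : ℕ) : ℝ) = 0
      rw [Nat.cast_one, Real.log_one]
    rw [h2]
    exact zero_mem _
  | prime_mul q m hq ih =>
    have hm : 1 ≤ m := by
      rcases Nat.eq_zero_or_pos m with h2 | h2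
      · rw [h2, mul_zero] at hn
        omega
      · exact h2
    have h2 := ih hm
    have h3 : ((fun _ => Real.log q, lam (num q)) : (Pt W → ℝ) × F) ∈ PQ W as L ρ lam := by
      refine Submodule.subset_span ⟨.one, Set.empty_subset _, Or.inr ⟨q, hq, ?_⟩⟩
      refine Prod.ext ?_ ?_
      · funext x
        show Real.log q = 1 * Real.log q
        rw [one_mul]
      · show lam (num q) = ρ .one * lam (num q)
        rw [h.one, one_mul]
    have h4 : lam (num (q * m)) = lam (num q) + lam (num m) := by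
      rw [← h.lmul _ _ (hn0 q) (hn0 m)]
      refine h.lext _ _ (hn0 _) (Set.union_subset (hn0 q) (hn0 m)) ?_
      funext x
      show _ = rf W (num q) x * rf W (num m) x
      rw [rf_num hn, rf_num hq.one_lt.le, rf_num hm]
      push_cast
      rfl
    have h5 : ((fun _ => Real.log ((q * m : ℕ) : ℝ), lam (num (q * m))) : (Pt W → ℝ) × F) =
        (fun _ => Real.log q, lam (num q)) + (fun _ => Real.log m, lam (num m)) := by
      refine Prod.ext ?_ h4
      funext x
      show Real.log ((q * m : ℕ) : ℝ) = Real.log q + Real.log m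
      rw [Nat.cast_mul, Real.log_mul (Nat.cast_ne_zero.2 hq.ne_zero)
        (Nat.cast_ne_zero.2 (by omega))]
    rw [h5]
    exact add_mem h3 h2

/-- The logarithm of a term with a relation, from the pairs of the atoms. -/
private theorem Bg_rel {L : Finset (Pt W → ℝ)} {ρ lam : Tm → F} (hc : Cl W as) (hs : Sc W as L)
    (h : Pv W as F ρ lam) {as' : List Tm} (has : as' <:+ as) {a : Tm} (ha : ats a ⊆ At W as)
    (hr : Rl (Vs W as') L fun x => Real.log (rf W a x))
    (hat : ∀ c ∈ At W as', ((lr W c, lam c) : (Pt W → ℝ) × F) ∈ PQ W as L ρ lam) :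
    ((fun x => Real.log (rf W a x), lam a) : (Pt W → ℝ) × F) ∈ PQ W as L ρ lam := by
  classical
  obtain ⟨M, m, S, q, p₁, p₂, hM, hp₁, hp₂, hS, hrel⟩ := rat_rel hc hs has ha hr
  have hlb : ∀ l : L, ∃ b : Tm, ats b ⊆ At W as ∧ (l : Pt W → ℝ) = fun x => Real.log (rf W b x) :=
    fun l => hs.lb _ l.2
  choose bb hbb1 hbb2 using hlb
  have hAt' : ∀ c ∈ At W as', c ∈ At W as := fun c hc' =>
    hc'.imp_right fun h1 => has.subset h1
  have hSc : ∀ c ∈ S, c ∈ At W as' := fun c hc' => hS hc'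
  have hats : ∀ c ∈ S, ats c ⊆ At W as ∧ ∀ x, Real.log (rf W c x) = lr W c x := by
    intro c hc'
    rcases hAt' c (hSc c hc') with ⟨w, hw, rfl⟩ | h1
    · refine ⟨?_, fun x => by rw [rf_var, Real.log_exp]⟩
      intro t ht
      rw [show t = .var w from ht]
      exact Or.inl ⟨w, hw, rfl⟩
    · obtain ⟨a', b', rfl, -⟩ := hc.nw c h1
      refine ⟨?_, fun x => by rw [rf_pow, Real.log_exp]⟩
      intro t ht
      rw [show t = .pow a' b' from ht]
      exact Or.inr h1
  have hn0 : ∀ m : ℕ, ats (num m) ⊆ At W as := fun m => by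
    rw [ats_num]
    exact Set.empty_subset _
  -- the relation for the parallel values
  have hlam : (M : F) * lam a + lam (num p₁) =
      ∑ l : L, (m l : F) * lam (bb l) + ∑ c ∈ S, (q c : F) * lam c + lam (num p₂) := by
    have h1 := h.rel (J := Option (Option (Option (L ⊕ S)))) Finset.univ
      (fun j => j.elim a fun j => j.elim (num p₁) fun j => j.elim (num p₂) fun j =>
        Sum.elim (fun l : L => bb l) (fun c : S => (c : Tm)) j)
      (by
        rintro (_ | _ | _ | l | c) _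
        · exact ha
        · exact hn0 _
        · exact hn0 _
        · exact hbb1 l
        · exact (hats c c.2).1)
      (fun j => j.elim (M : ℤ) fun j => j.elim 1 fun j => j.elim (-1) fun j =>
        Sum.elim (fun l : L => -m l) (fun c : S => -q c) j)
      (by
        intro x
        rw [Fintype.sum_option, Fintype.sum_option, Fintype.sum_option, Fintype.sum_sum_type]
        simp only [Option.elim_none, Option.elim_some, Sum.elim_inl, Sum.elim_inr]
        have h2 : ∑ l : L, ((-m l : ℤ) : ℝ) * Real.log (rf W (bb l) x) =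
            -∑ l ∈ L, (m l : ℝ) * l x := by
          rw [← Finset.sum_neg_distrib, ← Finset.sum_coe_sort L]
          refine Finset.sum_congr rfl fun l _ => ?_
          have h3 := congrFun (hbb2 l) x
          have h4 : (l : Pt W → ℝ) x = Real.log (rf W (bb l) x) := h3
          rw [← h4]
          push_cast
          ring
        have h3 : ∑ c : S, ((-q c : ℤ) : ℝ) * Real.log (rf W (c : Tm) x) =
            -∑ c ∈ S, (q c : ℝ) * lr W c x := by
          rw [← Finset.sum_neg_distrib, ← Finset.sum_coe_sort S]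
          refine Finset.sum_congr rfl fun c _ => ?_
          rw [(hats c c.2).2 x]
          push_cast
          ring
        rw [h2, h3, rf_num hp₁, rf_num hp₂]
        have h4 := hrel x
        push_cast
        linarith)
    rw [Fintype.sum_option, Fintype.sum_option, Fintype.sum_option, Fintype.sum_sum_type] at h1
    simp only [Option.elim_none, Option.elim_some, Sum.elim_inl, Sum.elim_inr] at h1
    rw [← Finset.sum_coe_sort S fun c => (q c : F) * lam c]
    push_cast at h1
    simp only [neg_mul, Finset.sum_neg_distrib] at h1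
    linear_combination h1
  have h1 : (M : ℚ) • ((fun x => Real.log (rf W a x), lam a) : (Pt W → ℝ) × F) =
      ∑ l : L, (m l) • (((l : Pt W → ℝ), lam (bb l)) : (Pt W → ℝ) × F) +
      ∑ c ∈ S, (q c) • ((lr W c, lam c) : (Pt W → ℝ) × F) +
      ((fun _ => Real.log p₂, lam (num p₂)) : (Pt W → ℝ) × F) -
      ((fun _ => Real.log p₁, lam (num p₁)) : (Pt W → ℝ) × F) := by
    refine Prod.ext ?_ ?_
    · funext x
      rw [Prod.fst_sub, Prod.fst_add, Prod.fst_add, Prod.fst_sum, Prod.fst_sum, Pi.sub_apply,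
        Pi.add_apply, Pi.add_apply, Finset.sum_apply, Finset.sum_apply]
      show (M : ℚ) • Real.log (rf W a x) = ∑ l : L, (m l) • (l : Pt W → ℝ) x +
        ∑ c ∈ S, (q c) • lr W c x + Real.log p₂ - Real.log p₁
      have h4 := hrel x
      rw [← Finset.sum_coe_sort L] at h4
      simp only [zsmul_eq_mul]
      rw [Rat.smul_def]
      push_cast
      linarith
    · rw [Prod.snd_sub, Prod.snd_add, Prod.snd_add, Prod.snd_sum, Prod.snd_sum]
      show (M : ℚ) • lam a = ∑ l : L, (m l) • lam (bb l) +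
        ∑ c ∈ S, (q c) • lam c + lam (num p₂) - lam (num p₁)
      simp only [zsmul_eq_mul]
      rw [Rat.smul_def]
      push_cast
      linear_combination hlam
  have h2 : (M : ℚ) • ((fun x => Real.log (rf W a x), lam a) : (Pt W → ℝ) × F) ∈
      PQ W as L ρ lam := by
    rw [h1]
    refine sub_mem (add_mem (add_mem (sum_mem fun l _ => zsmul_mem ?_ _)
      (sum_mem fun c hc' => zsmul_mem (hat c (hSc c hc')) _)) (PQ_num h hp₂)) (PQ_num h hp₁)
    refine Submodule.subset_span ⟨.one, Set.empty_subset _, Or.inl ⟨bb l, hbb1 l, ?_, ?_⟩⟩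
    · rw [← hbb2 l]
      exact l.2
    · refine Prod.ext ?_ ?_
      · funext x
        show (l : Pt W → ℝ) x = 1 * Real.log (rf W (bb l) x)
        rw [one_mul]
        exact congrFun (hbb2 l) x
      · show lam (bb l) = ρ .one * lam (bb l)
        rw [h.one, one_mul]
  have h3 := Submodule.smul_mem _ ((M : ℚ)⁻¹) h2
  rw [smul_smul, inv_mul_cancel₀ (Nat.cast_ne_zero.2 (by omega)), one_smul] at h3
  exact h3

/-- The logarithms of the variables and powers and of the terms with a relation. -/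
theorem PQ_at {L : Finset (Pt W → ℝ)} {ρ lam : Tm → F} (hc : Cl W as) (hs : Sc W as L)
    (h : Pv W as F ρ lam) {a : Tm} (ha : a ∈ At W as) :
    ((lr W a, lam a) : (Pt W → ℝ) × F) ∈ PQ W as L ρ lam := by
  classical
  have hvar : ∀ w ∈ W, ((lr W (.var w), lam (.var w)) : (Pt W → ℝ) × F) ∈ PQ W as L ρ lam := by
    intro w hw
    have h1 : ats (.var w) ⊆ At W as := by
      intro t ht
      rw [show t = .var w from ht]
      exact Or.inl ⟨w, hw, rfl⟩
    have h2 : (fun x => Real.log (rf W (.var w) x)) = lr W (.var w) := by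
      funext x
      rw [rf_var, Real.log_exp]
    refine Submodule.subset_span ⟨.one, Set.empty_subset _, Or.inl ⟨.var w, h1, ?_, ?_⟩⟩
    · rw [h2]
      refine hs.l0 ?_
      rw [L0, Finset.mem_image]
      refine ⟨⟨w, hw⟩, Finset.mem_univ _, ?_⟩
      funext x
      show x ⟨w, hw⟩ = if h : w ∈ W then x ⟨w, h⟩ else 0
      rw [dif_pos hw]
    · refine Prod.ext ?_ ?_
      · funext x
        show lr W (.var w) x = 1 * Real.log (rf W (.var w) x)
        rw [one_mul, rf_var, Real.log_exp]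
      · show lam (.var w) = ρ .one * lam (.var w)
        rw [h.one, one_mul]
  have key : ∀ as' : List Tm, as' <:+ as → ∀ c ∈ At W as',
      ((lr W c, lam c) : (Pt W → ℝ) × F) ∈ PQ W as L ρ lam := by
    intro as'
    induction as' with
    | nil =>
      rintro - c (⟨w, hw, rfl⟩ | h1)
      · exact hvar w hw
      · exact absurd h1 List.not_mem_nil
    | cons t as' ih =>
      intro hsuf c hc'
      have hsuf' : as' <:+ as := (List.suffix_cons t as').trans hsuf
      have ih' := ih hsuf'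
      rcases hc' with ⟨w, hw, rfl⟩ | h1
      · exact hvar w hw
      · rcases List.mem_cons.1 h1 with rfl | h1
        · have hcas : c ∈ as := hsuf.subset List.mem_cons_self
          obtain ⟨a', b', rfl, ha', hb', -, -⟩ := hc.nw c hcas
          have h2 := Bg_rel hc hs h hsuf' ha' (hs.rl a' b' as' hsuf) ih'
          have h3 := PQ_mul h hb' h2
          rw [h.lpow a' b' hcas]
          exact h3
        · exact ih' c (Or.inr h1)
  exact key as (List.suffix_refl as) a ha

theorem PQ_log {L : Finset (Pt W → ℝ)} {ρ lam : Tm → F} (hc : Cl W as) (hs : Sc W as L)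
    (h : Pv W as F ρ lam) {a : Tm} (ha : ats a ⊆ At W as)
    (hr : Rl (Vs W as) L fun x => Real.log (rf W a x)) :
    ((fun x => Real.log (rf W a x), lam a) : (Pt W → ℝ) × F) ∈ PQ W as L ρ lam :=
  Bg_rel hc hs h (List.suffix_refl as) ha hr fun _ hc' => PQ_at hc hs h hc'

/-- Relations between the logarithms of the variables and of new powers hold for the parallel
values. -/
theorem bg (hc : Cl W as) {ρ lam : Tm → F} (h : Pv W as F ρ lam) {J : Type} (s : Finset J)
    (a b : J → Tm) (ha : ∀ j ∈ s, ats (a j) ⊆ At W as) (hb : ∀ j ∈ s, ats (b j) ⊆ At W as)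
    (k : J → ℤ) (c : List Bool → ℤ)
    (h0 : ∀ x, ∑ j ∈ s, (k j : ℝ) * lr W (.pow (a j) (b j)) x +
      ∑ w ∈ W, (c w : ℝ) * lr W (.var w) x = 0) :
    ∑ j ∈ s, (k j : F) * (ρ (b j) * lam (a j)) + ∑ w ∈ W, (c w : F) * lam (.var w) = 0 := by
  classical
  obtain ⟨L, hs, hl⟩ := exists_Sc_logs hc (s.image a) (by
    intro t ht
    obtain ⟨j, hj, rfl⟩ := Finset.mem_image.1 ht
    exact ha j hj)
  have h1 : ∀ j ∈ s, ((lr W (.pow (a j) (b j)), ρ (b j) * lam (a j)) : (Pt W → ℝ) × F) ∈
      PQ W as L ρ lam := fun j hj =>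
    PQ_mul h (hb j hj) (PQ_log hc hs h (ha j hj) (hl _ (Finset.mem_image_of_mem a hj)))
  have h2 : ∀ w ∈ W, ((lr W (.var w), lam (.var w)) : (Pt W → ℝ) × F) ∈ PQ W as L ρ lam :=
    fun w hw => PQ_at hc hs h (Or.inl ⟨w, hw, rfl⟩)
  have h3 : ∑ j ∈ s, (k j) • ((lr W (.pow (a j) (b j)), ρ (b j) * lam (a j)) : (Pt W → ℝ) × F) +
      ∑ w ∈ W, (c w) • ((lr W (.var w), lam (.var w)) : (Pt W → ℝ) × F) ∈ PQ W as L ρ lam :=
    add_mem (sum_mem fun j hj => zsmul_mem (h1 j hj) _)
      (sum_mem fun w hw => zsmul_mem (h2 w hw) _)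
  refine PQ_zero hc hs h (y := ∑ j ∈ s, (k j : F) * (ρ (b j) * lam (a j)) +
    ∑ w ∈ W, (c w : F) * lam (.var w)) ?_
  refine Eq.mp (congrArg (· ∈ PQ W as L ρ lam) ?_) h3
  refine Prod.ext ?_ ?_
  · funext x
    rw [Prod.fst_add, Prod.fst_sum, Prod.fst_sum, Pi.add_apply, Finset.sum_apply,
      Finset.sum_apply]
    simpa [zsmul_eq_mul] using h0 x
  · rw [Prod.snd_add, Prod.snd_sum, Prod.snd_sum]
    simp [zsmul_eq_mul]

end Pool.Agent.TC
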