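import Pool.Agent.H.MP_b2d7dd_lc.TC.Iv

/-!
# Module Br: transcendence gives linear independence
-/

namespace Pool.Agent.TC

variable {W : Finset (List Bool)} {V : Submodule ℚ (Pt W → ℝ)} {L : Finset (Pt W → ℝ)}

private theorem Br_cst_mem (c : ℝ) : (fun _ : Pt W => c) ∈ An W := analyticOnNhd_const

private theorem Br_zero : toH W (0 : Pt W → ℝ) = 0 := by
  classical
  have h : (0 : Pt W → ℝ) ∈ An W := (An W).zero_mem
  rw [toH, dif_pos h]
  exact map_zero (algebraMap (An W) (HW W))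

private theorem Br_pow_mem {f : Pt W → ℝ} (hf : f ∈ An W) (j : ℕ) : (fun t => f t ^ j) ∈ An W :=
  (An W).pow_mem hf j

private theorem Br_pow {f : Pt W → ℝ} (hf : f ∈ An W) (j : ℕ) :
    toH W (fun t => f t ^ j) = toH W f ^ j := by
  induction j with
  | zero =>
    rw [pow_zero, ← toH_one]
    rfl
  | succ j ih =>
    rw [pow_succ, ← ih, ← toH_mul (Br_pow_mem hf j) hf]
    rfl

private theorem Br_main {ι : Type} {b : ι → Pt W → ℝ} (K : Subfield (HW W))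
    (hK : ∀ c : ℝ, toH W (fun _ => c) ∈ K) (hb : ∀ i, b i ∈ An W ∧ toH W (b i) ∈ K)
    (hi : LinearIndependent ℝ b) {l : Pt W → ℝ} (hl : l ∈ An W)
    (ht : Transcendental K (toH W l)) :
    LinearIndependent ℝ (fun p : ι × ℕ => fun t => b p.1 t * l t ^ p.2) := by
  classical
  rw [linearIndependent_iff']
  intro s c hs p hp
  obtain ⟨S, hS⟩ : ∃ S : ℕ → Pt W → ℝ, S = fun j t => ∑ q ∈ s.filter (fun q => q.2 = j),
    c q * b q.1 t := ⟨_, rfl⟩
  have hcb : ∀ q : ι × ℕ, (fun t => c q * b q.1 t) ∈ An W := fun q =>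
    (An W).mul_mem (Br_cst_mem (c q)) (hb q.1).1
  have hS1 : ∀ j, S j ∈ An W := by
    intro j
    have h1 : S j = ∑ q ∈ s.filter (fun q => q.2 = j), fun t => c q * b q.1 t := by
      rw [hS]
      ext t
      simp
    rw [h1]
    exact (An W).sum_mem fun q _ => hcb q
  have hS2 : ∀ j, toH W (S j) ∈ K := by
    intro j
    rw [hS]
    show toH W (fun t => ∑ q ∈ s.filter (fun q => q.2 = j), c q * b q.1 t) ∈ K
    rw [toH_sum _ _ fun q _ => hcb q]
    refine K.sum_mem fun q _ => ?_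
    rw [toH_smul _ (hb q.1).1]
    exact K.mul_mem (hK _) (hb q.1).2
  have hrel : (fun t => ∑ j ∈ s.image Prod.snd, S j t * l t ^ j) = (0 : Pt W → ℝ) := by
    ext t
    have h1 := congrFun hs t
    rw [Finset.sum_apply] at h1
    rw [Pi.zero_apply] at h1 ⊢
    rw [← h1, ← Finset.sum_fiberwise_of_maps_to (g := Prod.snd) (t := s.image Prod.snd)
      (fun q hq => Finset.mem_image_of_mem _ hq)]
    refine Finset.sum_congr rfl fun j _ => ?_
    rw [hS]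
    show (∑ q ∈ s.filter (fun q => q.2 = j), c q * b q.1 t) * l t ^ j = _
    rw [Finset.sum_mul]
    refine Finset.sum_congr rfl fun q hq => ?_
    rw [← (Finset.mem_filter.1 hq).2]
    simp only [Pi.smul_apply, smul_eq_mul]
    ring
  have hrel2 : ∑ j ∈ s.image Prod.snd, toH W (S j) * toH W l ^ j = 0 := by
    rw [← Br_zero, ← hrel, toH_sum (s.image Prod.snd) (fun j t => S j t * l t ^ j) fun j _ =>
      (An W).mul_mem (hS1 j) (Br_pow_mem hl j)]
    refine Finset.sum_congr rfl fun j _ => ?_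
    rw [toH_mul (hS1 j) (Br_pow_mem hl j), Br_pow hl]
  obtain ⟨P, hP⟩ : ∃ P : Polynomial K, P = ∑ j ∈ s.image Prod.snd,
    Polynomial.C (⟨toH W (S j), hS2 j⟩ : K) * Polynomial.X ^ j := ⟨_, rfl⟩
  have hP0 : P = 0 := by
    refine transcendental_iff.1 ht P ?_
    rw [hP, map_sum, ← hrel2]
    refine Finset.sum_congr rfl fun j _ => ?_
    rw [map_mul, map_pow, Polynomial.aeval_C, Polynomial.aeval_X]
    rfl
  have hco : P.coeff p.2 = ⟨toH W (S p.2), hS2 p.2⟩ := by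
    rw [hP, Polynomial.finset_sum_coeff, Finset.sum_eq_single p.2]
    · rw [Polynomial.coeff_C_mul_X_pow, if_pos rfl]
    · intro j _ hj
      rw [Polynomial.coeff_C_mul_X_pow, if_neg (Ne.symm hj)]
    · intro h
      exact absurd (Finset.mem_image_of_mem _ hp) h
  have hz : S p.2 = 0 := by
    refine toH_inj (hS1 _) (An W).zero_mem ?_
    rw [Br_zero]
    rw [hP0, Polynomial.coeff_zero] at hco
    exact (congrArg Subtype.val hco).symm
  have hfin := linearIndependent_iff'.1 hi ((s.filter (fun q => q.2 = p.2)).image Prod.fst)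
    (fun i => c (i, p.2)) ?_ p.1 (Finset.mem_image.2 ⟨p, Finset.mem_filter.2 ⟨hp, rfl⟩, rfl⟩)
  · exact hfin
  · rw [Finset.sum_image]
    · rw [← hz, hS]
      ext t
      rw [Finset.sum_apply]
      refine Finset.sum_congr rfl fun q hq => ?_
      have h1 : (q.1, p.2) = q := by
        rw [← (Finset.mem_filter.1 hq).2]
      rw [h1]
      rfl
    · intro q hq q' hq' h
      exact Prod.ext h ((Finset.mem_filter.1 hq).2.trans (Finset.mem_filter.1 hq').2.symm)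

private theorem Br_K (V : Submodule ℚ (Pt W → ℝ)) (L : Finset (Pt W → ℝ)) (c : ℝ) :
    toH W (fun _ => c) ∈ Kf V L :=
  le_adj _ _ (mem_Cst_DD.2 ⟨c, rfl⟩)

private theorem Br_exp {f : Pt W → ℝ} (hf : f ∈ An W) : (fun t => Real.exp (f t)) ∈ An W :=
  fun x hx => (hf x hx).rexp

private theorem Br_b (hV : ∀ v ∈ V, v ∈ An W) (hL : ∀ l ∈ L, l ∈ An W) (p : V × (L →₀ ℕ)) :
    (fun t : Pt W => Real.exp ((p.1 : Pt W → ℝ) t) * p.2.prod fun l k => ((l : Pt W → ℝ) t) ^ k) ∈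
      An W ∧
    toH W (fun t : Pt W => Real.exp ((p.1 : Pt W → ℝ) t) *
      p.2.prod fun l k => ((l : Pt W → ℝ) t) ^ k) ∈ Kf V L := by
  have h1 : (fun t : Pt W => Real.exp ((p.1 : Pt W → ℝ) t)) ∈ An W := Br_exp (hV _ p.1.2)
  have h2 : ∀ l : L, (fun t : Pt W => ((l : Pt W → ℝ) t) ^ p.2 l) ∈ An W := fun l =>
    Br_pow_mem (hL _ l.2) _
  have h3 : (fun t : Pt W => ∏ l ∈ p.2.support, ((l : Pt W → ℝ) t) ^ p.2 l) ∈ An W := by
    have h4 : (fun t : Pt W => ∏ l ∈ p.2.support, ((l : Pt W → ℝ) t) ^ p.2 l) =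
        ∏ l ∈ p.2.support, fun t : Pt W => ((l : Pt W → ℝ) t) ^ p.2 l := by
      ext t
      simp
    rw [h4]
    exact (An W).prod_mem fun l _ => h2 l
  refine ⟨(An W).mul_mem h1 h3, ?_⟩
  have h5 := toH_mul h1 h3
  have h6 := toH_prod p.2.support (fun (l : L) (t : Pt W) => ((l : Pt W → ℝ) t) ^ p.2 l)
    fun l _ => h2 l
  rw [h6] at h5
  show toH W (fun t : Pt W => Real.exp ((p.1 : Pt W → ℝ) t) *
    ∏ l ∈ p.2.support, ((l : Pt W → ℝ) t) ^ p.2 l) ∈ Kf V L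
  rw [h5]
  refine (Kf V L).mul_mem (mem_adj _ (Or.inl ⟨_, p.1.2, rfl⟩)) ((Kf V L).prod_mem fun l _ => ?_)
  rw [Br_pow (hL _ l.2)]
  exact (Kf V L).pow_mem (mem_adj _ (Or.inr ⟨_, l.2, rfl⟩)) _

open Classical in
/-- A new transcendental function. -/
theorem ind_log (hV : ∀ v ∈ V, v ∈ An W) (hL : ∀ l ∈ L, l ∈ An W) (h : Ind V L) {l : Pt W → ℝ}
    (hl : l ∈ An W) (ht : Transcendental (Kf V L) (toH W l)) : Ind V (insert l L) := by
  have hlL : l ∉ L := by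
    intro h1
    refine ht (isAlgebraic_algebraMap (⟨toH W l, mem_adj _ (Or.inr ⟨l, h1, rfl⟩)⟩ : Kf V L))
  have hm := Br_main (Kf V L) (Br_K V L) (Br_b hV hL) h hl ht
  obtain ⟨φ, hφ⟩ : ∃ φ : V × (↥(insert l L) →₀ ℕ) → (V × (L →₀ ℕ)) × ℕ, φ = fun p =>
    ((p.1, Finsupp.equivFunOnFinite.symm fun a : L => p.2 ⟨a, Finset.mem_insert_of_mem a.2⟩),
      p.2 ⟨l, Finset.mem_insert_self l L⟩) := ⟨_, rfl⟩
  have hinj : Function.Injective φ := by
    intro p p' hpp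
    rw [hφ] at hpp
    have e1 : p.1 = p'.1 := congrArg (fun x => x.1.1) hpp
    have e2 := congrArg (fun x => x.1.2) hpp
    have e3 : p.2 ⟨l, Finset.mem_insert_self l L⟩ = p'.2 ⟨l, Finset.mem_insert_self l L⟩ :=
      congrArg (fun x => x.2) hpp
    refine Prod.ext e1 (Finsupp.ext fun a => ?_)
    obtain ⟨a, ha⟩ := a
    rcases Finset.mem_insert.1 ha with h1 | h1
    · subst h1
      exact e3
    · exact DFunLike.congr_fun e2 (⟨a, h1⟩ : L)
  have hc := hm.comp φ hinj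
  suffices he : (fun p : V × (↥(insert l L) →₀ ℕ) => fun t : Pt W =>
      Real.exp ((p.1 : Pt W → ℝ) t) * p.2.prod fun l k => ((l : Pt W → ℝ) t) ^ k) =
      (fun p : (V × (L →₀ ℕ)) × ℕ => fun t : Pt W => (Real.exp ((p.1.1 : Pt W → ℝ) t) *
        p.1.2.prod fun l k => ((l : Pt W → ℝ) t) ^ k) * l t ^ p.2) ∘ φ by
    rw [Ind, he]
    exact hc
  refine funext fun p => funext fun t => Eq.symm ?_
  rw [hφ]
  show Real.exp ((p.1 : Pt W → ℝ) t) * (Finsupp.equivFunOnFinite.symm fun a : L =>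
    p.2 ⟨a, Finset.mem_insert_of_mem a.2⟩).prod (fun l k => ((l : Pt W → ℝ) t) ^ k) *
      l t ^ p.2 ⟨l, Finset.mem_insert_self l L⟩ =
    Real.exp ((p.1 : Pt W → ℝ) t) * p.2.prod fun l k => ((l : Pt W → ℝ) t) ^ k
  rw [Finsupp.prod_fintype _ _ (fun _ => pow_zero _), Finsupp.prod_fintype _ _ (fun _ => pow_zero _)]
  obtain ⟨K, hK⟩ : ∃ K : (Pt W → ℝ) → ℕ, K = fun a => if h : a ∈ insert l L then p.2 ⟨a, h⟩ else 0 :=
    ⟨_, rfl⟩
  have hK1 : ∀ a (h : a ∈ insert l L), p.2 ⟨a, h⟩ = K a := by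
    intro a h
    rw [hK]
    show p.2 ⟨a, h⟩ = if h : a ∈ insert l L then p.2 ⟨a, h⟩ else 0
    rw [dif_pos h]
  have e1 : ∏ a : L, ((a : Pt W → ℝ) t) ^ (Finsupp.equivFunOnFinite.symm fun a : L =>
      p.2 ⟨a, Finset.mem_insert_of_mem a.2⟩) a = ∏ a ∈ L, (a t) ^ K a := by
    rw [← Finset.prod_coe_sort L fun a => (a t) ^ K a]
    refine Finset.prod_congr rfl fun a _ => ?_
    rw [← hK1 a (Finset.mem_insert_of_mem a.2)]
    rfl
  have e2 : ∏ a : ↥(insert l L), ((a : Pt W → ℝ) t) ^ p.2 a = ∏ a ∈ insert l L, (a t) ^ K a := by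
    rw [← Finset.prod_coe_sort (insert l L) fun a => (a t) ^ K a]
    refine Finset.prod_congr rfl fun a _ => ?_
    rw [← hK1 a a.2]
  rw [e1, e2, Finset.prod_insert hlL, hK1]
  ring

/-- A new transcendental exponential. -/
theorem ind_exp (hV : ∀ v ∈ V, v ∈ An W) (hL : ∀ l ∈ L, l ∈ An W) (h : Ind V L) {g : Pt W → ℝ}
    (hg : g ∈ An W) (ht : Transcendental (Kf V L) (toH W fun t => Real.exp (g t))) :
    Ind (V ⊔ Submodule.span ℚ {g}) L := by
  classical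
  have hdec : ∀ v' : ↥(V ⊔ Submodule.span ℚ {g}), ∃ (v : V) (q : ℚ),
      (v' : Pt W → ℝ) = v + q • g := by
    intro v'
    obtain ⟨v, hv, y, hy, hvy⟩ := Submodule.mem_sup.1 v'.2
    obtain ⟨q, hq⟩ := Submodule.mem_span_singleton.1 hy
    exact ⟨⟨v, hv⟩, q, by rw [← hvy, ← hq]⟩
  choose vv qq hdec using hdec
  rw [Ind, linearIndependent_iff_finset_linearIndependent]
  intro s
  -- the common denominator
  obtain ⟨N, hN0, hN⟩ : ∃ N : ℕ, N ≠ 0 ∧ ∀ p ∈ s, ∃ m : ℤ, qq p.1 = m / N := by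
    refine ⟨∏ p ∈ s, (qq p.1).den, Finset.prod_ne_zero_iff.2 fun p _ => (qq p.1).den_nz,
      fun p hp => ?_⟩
    obtain ⟨r, hr⟩ := Finset.dvd_prod_of_mem (fun p => (qq p.1).den) hp
    have hr0 : r ≠ 0 := by
      rintro rfl
      rw [mul_zero] at hr
      exact Finset.prod_ne_zero_iff.2 (fun p _ => (qq p.1).den_nz) hr
    refine ⟨(qq p.1).num * r, ?_⟩
    rw [hr]
    push_cast
    have h1 : ((qq p.1).den : ℚ) ≠ 0 := Nat.cast_ne_zero.2 (qq p.1).den_nz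
    have h2 : (r : ℚ) ≠ 0 := Nat.cast_ne_zero.2 hr0
    rw [mul_div_mul_right _ _ h2]
    exact (Rat.num_div_den _).symm
  choose! mm hmm using hN
  obtain ⟨A, hA⟩ : ∃ A : ℕ, ∀ p ∈ s, 0 ≤ mm p + A := by
    refine ⟨∑ p ∈ s, (mm p).natAbs, fun p hp => ?_⟩
    have h1 : (mm p).natAbs ≤ ∑ p ∈ s, (mm p).natAbs :=
      Finset.single_le_sum (f := fun p => (mm p).natAbs) (fun _ _ => Nat.zero_le _) hp
    omega
  obtain ⟨E, hE⟩ : ∃ E : Pt W → ℝ, E = fun t => Real.exp ((N : ℝ)⁻¹ * g t) := ⟨_, rfl⟩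
  have hgN : (fun t => (N : ℝ)⁻¹ * g t) ∈ An W := (An W).mul_mem (Br_cst_mem _) hg
  have hE1 : E ∈ An W := by
    rw [hE]
    exact Br_exp hgN
  have hNr : (N : ℝ) ≠ 0 := Nat.cast_ne_zero.2 hN0
  have hE2 : Transcendental (Kf V L) (toH W E) := by
    intro h1
    refine ht ?_
    have h2 : (fun t => Real.exp (g t)) = fun t => E t ^ N := by
      ext t
      rw [hE]
      show Real.exp (g t) = Real.exp ((N : ℝ)⁻¹ * g t) ^ N
      rw [← Real.exp_nat_mul, mul_inv_cancel_left₀ hNr]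
    rw [h2, Br_pow hE1]
    exact h1.pow N
  have hm := Br_main (Kf V L) (Br_K V L) (Br_b hV hL) h hE1 hE2
  refine LinearIndependent.of_comp (LinearMap.mulLeft ℝ fun t => E t ^ A) ?_
  obtain ⟨φ, hφ⟩ : ∃ φ : s → (V × (L →₀ ℕ)) × ℕ, φ = fun p =>
    ((vv p.1.1, p.1.2), (mm p.1 + A).toNat) := ⟨_, rfl⟩
  have hinj : Function.Injective φ := by
    rintro ⟨p, hp⟩ ⟨p', hp'⟩ hpp
    rw [hφ] at hpp
    have e1 : vv p.1 = vv p'.1 := congrArg (fun x => x.1.1) hpp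
    have e2 : p.2 = p'.2 := congrArg (fun x => x.1.2) hpp
    have e3 : (mm p + A).toNat = (mm p' + A).toNat := congrArg (fun x => x.2) hpp
    have e4 : mm p = mm p' := by
      have h1 := hA p hp
      have h2 := hA p' hp'
      omega
    have e5 : qq p.1 = qq p'.1 := by rw [hmm p hp, hmm p' hp', e4]
    refine Subtype.ext (Prod.ext (Subtype.ext ?_) e2)
    rw [hdec p.1, hdec p'.1, e1, e5]
  have hc := hm.comp φ hinj
  suffices he : (LinearMap.mulLeft ℝ fun t => E t ^ A) ∘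
      (fun p : ↥(V ⊔ Submodule.span ℚ {g}) × (L →₀ ℕ) => fun t : Pt W =>
        Real.exp ((p.1 : Pt W → ℝ) t) * p.2.prod fun l k => ((l : Pt W → ℝ) t) ^ k) ∘
        (Subtype.val : s → _) =
      (fun p : (V × (L →₀ ℕ)) × ℕ => fun t : Pt W => (Real.exp ((p.1.1 : Pt W → ℝ) t) *
        p.1.2.prod fun l k => ((l : Pt W → ℝ) t) ^ k) * E t ^ p.2) ∘ φ by
    rw [he]
    exact hc
  refine funext fun p => funext fun t => Eq.symm ?_
  rw [hφ]
  show Real.exp ((vv p.1.1 : Pt W → ℝ) t) * p.1.2.prod (fun l k => ((l : Pt W → ℝ) t) ^ k) *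
      E t ^ (mm p.1 + A).toNat = E t ^ A * (Real.exp (((p.1.1 : ↥(V ⊔ Submodule.span ℚ {g})) :
        Pt W → ℝ) t) * p.1.2.prod fun l k => ((l : Pt W → ℝ) t) ^ k)
  have h1 : ((p.1.1 : ↥(V ⊔ Submodule.span ℚ {g})) : Pt W → ℝ) t =
      (vv p.1.1 : Pt W → ℝ) t + (mm p.1 : ℝ) * ((N : ℝ)⁻¹ * g t) := by
    rw [hdec p.1.1, hmm p.1 p.2]
    show (vv p.1.1 : Pt W → ℝ) t + (((mm p.1 : ℚ) / N : ℚ) • g) t = _
    rw [Pi.smul_apply, Rat.smul_def]
    push_cast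
    ring
  have h2 : (((mm p.1 + A).toNat : ℕ) : ℝ) = (mm p.1 : ℝ) + A := by
    have h3 := Int.toNat_of_nonneg (hA p.1 p.2)
    have h4 : ((((mm p.1 + A).toNat : ℕ) : ℤ) : ℝ) = ((mm p.1 + A : ℤ) : ℝ) := by rw [h3]
    push_cast at h4
    exact h4
  rw [h1, hE]
  simp only [← Real.exp_nat_mul]
  rw [h2, Real.exp_add, add_mul, Real.exp_add]
  ring

end Pool.Agent.TC
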