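import Pool.Agent.H.MP_b2d7dd_lc.TC.St

/-!
# Module Bs: the variables
-/

namespace Pool.Agent.TC

variable (W : Finset (List Bool))

/-- The span of the coordinates. -/
noncomputable def V0 : Submodule ℚ (Pt W → ℝ) := Submodule.span ℚ (Set.range fun w : W => fun t : Pt W => t w)

open Classical in
/-- The coordinates. -/
noncomputable def L0 : Finset (Pt W → ℝ) := Finset.univ.image fun w : W => fun t : Pt W => t w

variable {W}

private theorem Bs_const (c : ℝ) : (fun _ : Pt W => c) ∈ An W := (mem_An W).2 analyticOnNhd_const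

private theorem Bs_smul_mem (q : ℚ) {f : Pt W → ℝ} (hf : f ∈ An W) : q • f ∈ An W := by
  have h : q • f = (fun _ : Pt W => (q : ℝ)) * f := by
    funext t
    rw [Pi.smul_apply, Pi.mul_apply, Rat.smul_def]
  rw [h]
  exact mul_mem (Bs_const _) hf

private theorem Bs_toH_smul (q : ℚ) {f : Pt W → ℝ} (hf : f ∈ An W) :
    toH W (q • f) = toH W (fun _ => (q : ℝ)) * toH W f := by
  rw [← toH_smul _ hf]
  congr 1

private theorem Bs_cst (c : ℝ) : toH W (fun _ => c) ∈ Cst (DD W) := mem_Cst_DD.2 ⟨c, rfl⟩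

private theorem Bs_toH_zero : toH W (0 : Pt W → ℝ) = 0 := by
  have h := toH_add (W := W) (Bs_const 0) (Bs_const 0)
  have h1 : (fun _ : Pt W => (0 : ℝ) + 0) = fun _ => 0 := by
    funext t
    rw [add_zero]
  rw [h1] at h
  exact left_eq_add.1 h

private theorem Bs_exp {f : Pt W → ℝ} (hf : f ∈ An W) : (fun t => Real.exp (f t)) ∈ An W :=
  (mem_An W).2 ((mem_An W).1 hf).rexp

private theorem Bs_pow {f : Pt W → ℝ} (hf : f ∈ An W) (n : ℕ) :
    toH W (fun t => Real.exp (f t)) ^ n = toH W fun t => Real.exp (n * f t) := by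
  have h := toH_prod (Finset.range n) (fun _ : ℕ => fun t : Pt W => Real.exp (f t))
    fun _ _ => Bs_exp hf
  rw [Finset.prod_const, Finset.card_range] at h
  rw [← h]
  congr 1
  funext t
  rw [Finset.prod_const, Finset.card_range, Real.exp_nat_mul]

private theorem Bs_inv {f : Pt W → ℝ} (hf : f ∈ An W) :
    toH W (fun t => Real.exp (-f t)) = (toH W fun t => Real.exp (f t))⁻¹ := by
  refine eq_inv_of_mul_eq_one_left ?_
  have h1 : (fun t => Real.exp (-f t)) ∈ An W := Bs_exp (neg_mem hf)
  rw [← toH_mul h1 (Bs_exp hf), ← toH_one (W := W)]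
  congr 1
  funext t
  rw [← Real.exp_add, neg_add_cancel, Real.exp_zero]

private theorem Bs_nsmul {f : Pt W → ℝ} (hf : f ∈ An W) (n : ℕ) :
    toH W (fun t => n * f t) = n • toH W f := by
  have h := toH_sum (Finset.range n) (fun _ : ℕ => f) fun _ _ => hf
  rw [Finset.sum_const, Finset.card_range] at h
  rw [← h]
  congr 1
  funext t
  rw [Finset.sum_const, Finset.card_range, nsmul_eq_mul]

/-- The span of the coordinates in `S`. -/
private noncomputable def Bs_V (S : Finset W) : Submodule ℚ (Pt W → ℝ) :=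
  Submodule.span ℚ ((fun w : W => fun t : Pt W => t w) '' (S : Set W))

open Classical in
/-- The coordinates in `S`. -/
private noncomputable def Bs_L (S : Finset W) : Finset (Pt W → ℝ) :=
  S.image fun w : W => fun t : Pt W => t w

private theorem Bs_anV (S : Finset W) : ∀ v ∈ Bs_V S, v ∈ An W := by
  intro v hv
  unfold Bs_V at hv
  induction hv using Submodule.span_induction with
  | mem x hx =>
    obtain ⟨w, -, rfl⟩ := hx
    exact (pd_coord W w w).1
  | zero => exact zero_mem _
  | add x y _ _ h1 h2 => exact add_mem h1 h2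
  | smul q x _ h1 => exact Bs_smul_mem q h1

private theorem Bs_anL (S : Finset W) : ∀ l ∈ Bs_L S, l ∈ An W := by
  classical
  intro l hl
  unfold Bs_L at hl
  obtain ⟨w, -, rfl⟩ := Finset.mem_image.1 hl
  exact (pd_coord W w w).1

private theorem Bs_dc (i w : W) : DD W i (toH W fun t => t w) ∈ Cst (DD W) := by
  rw [DD_coord]
  split_ifs
  · exact one_mem _
  · exact zero_mem _

private theorem Bs_dV (S : Finset W) (i : W) : ∀ v ∈ Bs_V S,
    DD W i (toH W v) ∈ Cst (DD W) ∧ (i ∉ S → DD W i (toH W v) = 0) := by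
  intro v hv
  have hm := Bs_anV S
  unfold Bs_V at hv hm
  induction hv using Submodule.span_induction with
  | mem x hx =>
    obtain ⟨w, hw, rfl⟩ := hx
    refine ⟨Bs_dc i w, fun hi => ?_⟩
    rw [DD_coord, if_neg]
    rintro rfl
    exact hi hw
  | zero =>
    rw [Bs_toH_zero, map_zero]
    exact ⟨zero_mem _, fun _ => rfl⟩
  | add x y hx hy h1 h2 =>
    have h3 : toH W (x + y) = toH W x + toH W y := toH_add (hm x hx) (hm y hy)
    rw [h3, map_add]
    refine ⟨add_mem h1.1 h2.1, fun hi => ?_⟩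
    rw [h1.2 hi, h2.2 hi, add_zero]
  | smul q x hx h1 =>
    rw [Bs_toH_smul q (hm x hx), Derivation.leibniz, mem_Cst.1 (Bs_cst (q : ℝ)) i, smul_zero,
      add_zero, smul_eq_mul]
    refine ⟨mul_mem (Bs_cst _) h1.1, fun hi => ?_⟩
    rw [h1.2 hi, mul_zero]

private theorem Bs_dL (S : Finset W) (i : W) : ∀ l ∈ Bs_L S,
    DD W i (toH W l) ∈ Cst (DD W) ∧ (i ∉ S → DD W i (toH W l) = 0) := by
  classical
  intro l hl
  unfold Bs_L at hl
  obtain ⟨w, hw, rfl⟩ := Finset.mem_image.1 hl
  refine ⟨Bs_dc i w, fun hi => ?_⟩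
  rw [DD_coord, if_neg]
  rintro rfl
  exact hi hw

/-- The generators are in the field. -/
private theorem Bs_memV {V : Submodule ℚ (Pt W → ℝ)} {L : Finset (Pt W → ℝ)} {v : Pt W → ℝ}
    (hv : v ∈ V) : (toH W fun t => Real.exp (v t)) ∈ Kf V L :=
  mem_adj _ (Or.inl ⟨v, hv, rfl⟩)

private theorem Bs_memL {V : Submodule ℚ (Pt W → ℝ)} {L : Finset (Pt W → ℝ)} {l : Pt W → ℝ}
    (hl : l ∈ L) : toH W l ∈ Kf V L :=
  mem_adj _ (Or.inr ⟨l, hl, rfl⟩)

private theorem Bs_le {V V' : Submodule ℚ (Pt W → ℝ)} {L L' : Finset (Pt W → ℝ)} (h1 : V ≤ V')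
    (h2 : L ⊆ L') : Kf V L ≤ Kf V' L' := by
  refine adj_le (le_adj _ _) ?_
  rintro x (⟨v, hv, rfl⟩ | ⟨l, hl, rfl⟩)
  · exact Bs_memV (h1 hv)
  · exact Bs_memL (h2 hl)

private theorem Bs_stb {V : Submodule ℚ (Pt W → ℝ)} {L : Finset (Pt W → ℝ)}
    (hV : ∀ v ∈ V, v ∈ An W) (hdV : ∀ i, ∀ v ∈ V, DD W i (toH W v) ∈ Cst (DD W))
    (hdL : ∀ i, ∀ l ∈ L, DD W i (toH W l) ∈ Cst (DD W)) : Stb (DD W) (Kf V L) := by
  have h0 : Stb (DD W) (Cst (DD W)) := ⟨le_refl _, fun i x hx => by
    rw [mem_Cst.1 hx i]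
    exact zero_mem _⟩
  refine Stb.adj h0 ?_
  rintro i x (⟨v, hv, rfl⟩ | ⟨l, hl, rfl⟩)
  · rw [(DD_exp (hV v hv)).2]
    exact mul_mem (Bs_memV (L := L) hv) (le_adj _ _ (hdV i v hv))
  · exact le_adj _ _ (hdL i l hl)

private theorem Bs_kill (S : Finset W) {i : W} (hi : i ∉ S) :
    ∀ x ∈ Kf (Bs_V S) (Bs_L S), DD W i x = 0 := by
  have h : Kf (Bs_V S) (Bs_L S) ≤ Cst (fun _ : Unit => DD W i) := by
    refine adj_le (fun x hx _ => mem_Cst.1 hx i) ?_
    rintro x (⟨v, hv, rfl⟩ | ⟨l, hl, rfl⟩)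
    · intro _
      show DD W i _ = 0
      rw [(DD_exp (Bs_anV S v hv)).2, (Bs_dV S i v hv).2 hi, mul_zero]
    · intro _
      exact (Bs_dL S i l hl).2 hi
  intro x hx
  exact h hx ()

open Classical in
private theorem Bs_insL (V : Submodule ℚ (Pt W → ℝ)) (L : Finset (Pt W → ℝ)) (l : Pt W → ℝ) :
    Kf V (insert l L) = adj (Kf V L) {toH W l} := by
  refine le_antisymm (adj_le ((le_adj _ _).trans (le_adj _ _)) ?_) (adj_le ?_ ?_)
  · rintro x (⟨v, hv, rfl⟩ | ⟨l', hl, rfl⟩)
    · exact le_adj _ _ (Bs_memV hv)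
    · rcases Finset.mem_insert.1 hl with rfl | hl
      · exact mem_adj _ rfl
      · exact le_adj _ _ (Bs_memL hl)
  · exact Bs_le le_rfl (Finset.subset_insert _ _)
  · rintro x rfl
    exact Bs_memL (Finset.mem_insert_self _ _)

private theorem Bs_insV {V : Submodule ℚ (Pt W → ℝ)} (hV : ∀ v ∈ V, v ∈ An W)
    (L : Finset (Pt W → ℝ)) {g : Pt W → ℝ} (hg : g ∈ An W) :
    Kf (V ⊔ Submodule.span ℚ {g}) L =
      adj (Kf V L) {x | ∃ N : ℕ, 1 ≤ N ∧ x = toH W fun t => Real.exp (g t / N)} := by
  refine le_antisymm (adj_le ((le_adj _ _).trans (le_adj _ _)) ?_) (adj_le ?_ ?_)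
  · rintro x (⟨v, hv, rfl⟩ | ⟨l', hl, rfl⟩)
    · obtain ⟨v1, hv1, v2, hv2, rfl⟩ := Submodule.mem_sup.1 hv
      obtain ⟨q, rfl⟩ := Submodule.mem_span_singleton.1 hv2
      have h1 : (toH W fun t => Real.exp ((v1 + q • g) t)) =
          (toH W fun t => Real.exp (v1 t)) * toH W fun t => Real.exp ((q • g) t) := by
        rw [← toH_mul (Bs_exp (hV v1 hv1)) (Bs_exp (Bs_smul_mem q hg))]
        congr 1
        funext t
        rw [← Real.exp_add]
        rfl
      rw [h1]
      refine mul_mem (le_adj _ _ (Bs_memV hv1)) ?_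
      have hgd : (fun t => g t / (q.den : ℝ)) ∈ An W := by
        have h2 : (fun t => g t / (q.den : ℝ)) = (fun _ : Pt W => ((q.den : ℝ))⁻¹) * g := by
          funext t
          rw [Pi.mul_apply, div_eq_inv_mul]
        rw [h2]
        exact mul_mem (Bs_const _) hg
      have h3 : (toH W fun t => Real.exp (g t / (q.den : ℝ))) ∈
          adj (Kf V L) {x | ∃ N : ℕ, 1 ≤ N ∧ x = toH W fun t => Real.exp (g t / N)} :=
        mem_adj _ ⟨q.den, q.den_pos, rfl⟩
      rcases Int.eq_nat_or_neg q.num with ⟨n, hn | hn⟩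
      · have h4 : (toH W fun t => Real.exp ((q • g) t)) =
            (toH W fun t => Real.exp (g t / (q.den : ℝ))) ^ n := by
          rw [Bs_pow hgd]
          congr 1
          funext t
          congr 1
          rw [Pi.smul_apply, Rat.smul_def, Rat.cast_def, hn]
          push_cast
          ring
        rw [h4]
        exact pow_mem h3 n
      · have h4 : (toH W fun t => Real.exp ((q • g) t)) =
            ((toH W fun t => Real.exp (g t / (q.den : ℝ))) ^ n)⁻¹ := by
          rw [Bs_pow hgd, ← Bs_inv]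
          · congr 1
            funext t
            congr 1
            rw [Pi.smul_apply, Rat.smul_def, Rat.cast_def, hn]
            push_cast
            ring
          · exact mul_mem (Bs_const _) hgd
        rw [h4]
        exact inv_mem (pow_mem h3 n)
    · exact le_adj _ _ (Bs_memL hl)
  · exact Bs_le le_sup_left (Finset.Subset.refl _)
  · rintro x ⟨N, hN, rfl⟩
    have h1 : (fun t => g t / (N : ℝ)) ∈ V ⊔ Submodule.span ℚ {g} := by
      refine Submodule.mem_sup_right (Submodule.mem_span_singleton.2 ⟨(N : ℚ)⁻¹, ?_⟩)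
      funext t
      rw [Pi.smul_apply, Rat.smul_def]
      push_cast
      rw [div_eq_inv_mul]
    exact Bs_memV h1

/-- The exponential of a new variable is transcendental. -/
private theorem Bs_tr {K : Subfield (HW W)} (hK : Stb (DD W) K) {w : W}
    (hk : ∀ x ∈ K, DD W w x = 0) (ht : Transcendental K (toH W fun t => t w))
    (hK' : Stb (DD W) (adj K {toH W fun t => t w})) :
    Transcendental (adj K {toH W fun t => t w}) (toH W fun t => Real.exp (t w)) := by
  intro ha
  have hc : (fun t : Pt W => t w) ∈ An W := (pd_coord W w w).1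
  have hθ : (toH W fun t => t w) ∈ adj K {toH W fun t => t w} := mem_adj _ rfl
  have he0 : (toH W fun t : Pt W => Real.exp (t w)) ≠ 0 := (DD_exp (w := w) hc).1
  obtain ⟨N, hN, hNK⟩ := alg_exp hK' hθ he0 (fun i => (DD_exp hc).2) ha
  have hd : ∀ i, DD W i (toH W fun t => t w) ∈ K := by
    intro i
    rw [DD_coord]
    split_ifs
    · exact one_mem _
    · exact zero_mem _
  have hN0 : (toH W fun t : Pt W => Real.exp (t w)) ^ N ≠ 0 := pow_ne_zero N he0
  have hr : ∀ i, DD W i ((toH W fun t : Pt W => Real.exp (t w)) ^ N) /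
      (toH W fun t : Pt W => Real.exp (t w)) ^ N = N • DD W i (toH W fun t => t w) := by
    intro i
    have hNc : (fun t : Pt W => (N : ℝ) * t w) ∈ An W := mul_mem (Bs_const _) hc
    have h1 := (DD_exp (w := i) hNc).2
    rw [Bs_nsmul hc, map_nsmul, ← Bs_pow hc] at h1
    rw [h1, mul_div_cancel_left₀ _ hN0]
  obtain ⟨c0, u0, k, -, hkK, -, hs, -⟩ := pole_log hK ht hd
    (u := N • toH W fun t => t w) (nsmul_mem hθ N) (fun _ : Unit => 1)
    (fun _ => (toH W fun t : Pt W => Real.exp (t w)) ^ N) (fun _ => ⟨hNK, hN0⟩) (by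
      intro i
      rw [map_nsmul, Finset.univ_unique, Finset.sum_singleton, hr i]
      simp)
  have h1 := hs w
  rw [Finset.univ_unique, Finset.sum_singleton, Finset.sum_singleton, hr w, hk _ (hkK _).1,
    DD_coord, if_pos rfl] at h1
  have h2 : (N : HW W) = 0 := by
    rw [zero_div, mul_zero] at h1
    simpa using h1
  have h3 : N = 0 := Nat.cast_eq_zero.1 h2
  omega

private theorem Bs_main (S : Finset W) : Ind (Bs_V S) (Bs_L S) ∧
    SK (DD W) (Kf (Bs_V S) (Bs_L S)) (Lb (Bs_V S) (Bs_L S)) := by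
  classical
  induction S using Finset.induction_on with
  | empty =>
    have hV : Bs_V (∅ : Finset W) = ⊥ := by
      unfold Bs_V
      rw [Finset.coe_empty, Set.image_empty, Submodule.span_empty]
    have hL : Bs_L (∅ : Finset W) = ∅ := by
      unfold Bs_L
      exact Finset.image_empty _
    rw [hV, hL]
    constructor
    · unfold Ind
      refine LinearIndependent.of_subsingleton (0, 0) ?_
      intro h0
      have h1 := congrFun h0 0
      simp at h1
    · have h1 : Kf (⊥ : Submodule ℚ (Pt W → ℝ)) ∅ = Cst (DD W) := by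
        refine le_antisymm (adj_le le_rfl ?_) (le_adj _ _)
        rintro x (⟨v, hv, rfl⟩ | ⟨l, hl, rfl⟩)
        · rw [(Submodule.mem_bot ℚ).1 hv]
          have h2 : (toH W fun t : Pt W => Real.exp ((0 : Pt W → ℝ) t)) = toH W fun _ => 1 := by
            congr 1
            funext t
            rw [Pi.zero_apply, Real.exp_zero]
          rw [h2]
          exact Bs_cst _
        · simp at hl
      rw [h1]
      exact (SK_cst _).mono (Set.empty_subset _)
  | insert w S hw ih =>
    obtain ⟨hI, hS⟩ := ih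
    have hV : Bs_V (insert w S) = Bs_V S ⊔ Submodule.span ℚ {fun t : Pt W => t w} := by
      unfold Bs_V
      rw [Finset.coe_insert, Set.image_insert_eq, Submodule.span_insert, sup_comm]
    have hL : Bs_L (insert w S) = insert (fun t : Pt W => t w) (Bs_L S) := by
      unfold Bs_L
      exact Finset.image_insert _ _ _
    have hc : (fun t : Pt W => t w) ∈ An W := (pd_coord W w w).1
    have hK : Stb (DD W) (Kf (Bs_V S) (Bs_L S)) :=
      Bs_stb (Bs_anV S) (fun i v hv => (Bs_dV S i v hv).1) fun i l hl => (Bs_dL S i l hl).1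
    have hkill := Bs_kill S hw
    have ht : Transcendental (Kf (Bs_V S) (Bs_L S)) (toH W fun t => t w) := by
      intro ha
      have h1 : (toH W fun t => t w) ∈ Kf (Bs_V S) (Bs_L S) := by
        refine alg_log hK (fun i => ?_) ha
        exact hK.cst (Bs_dc i w)
      have h2 := hkill _ h1
      rw [DD_coord, if_pos rfl] at h2
      exact one_ne_zero h2
    have hI1 : Ind (Bs_V S) (insert (fun t : Pt W => t w) (Bs_L S)) :=
      ind_log (Bs_anV S) (Bs_anL S) hI hc ht
    have hS1 : SK (DD W) (Kf (Bs_V S) (insert (fun t : Pt W => t w) (Bs_L S)))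
        (Lb (Bs_V S) (Bs_L S)) := by
      rw [Bs_insL]
      refine SK_var hK hS (i0 := w) hkill ?_ ?_
      · rw [DD_coord, if_pos rfl]
      · intro i hi
        rw [DD_coord, if_neg (Ne.symm hi)]
    have hL' : ∀ l ∈ insert (fun t : Pt W => t w) (Bs_L S), l ∈ An W := by
      rw [← hL]
      exact Bs_anL _
    have hK1 : Stb (DD W) (Kf (Bs_V S) (insert (fun t : Pt W => t w) (Bs_L S))) := by
      rw [← hL]
      exact Bs_stb (Bs_anV S) (fun i v hv => (Bs_dV S i v hv).1) fun i l hl =>
        (Bs_dL _ i l hl).1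
    have ht1 : Transcendental (Kf (Bs_V S) (insert (fun t : Pt W => t w) (Bs_L S)))
        (toH W fun t => Real.exp (t w)) := by
      rw [Bs_insL] at hK1 ⊢
      exact Bs_tr hK hkill ht hK1
    rw [hV, hL]
    refine ⟨ind_exp (Bs_anV S) hL' hI1 hc ht1, ?_⟩
    rw [Bs_insV (Bs_anV S) _ hc]
    have hN : ∀ N : ℕ, (fun t : Pt W => t w / (N : ℝ)) ∈ An W := by
      intro N
      have h2 : (fun t : Pt W => t w / (N : ℝ)) = (fun _ : Pt W => ((N : ℝ))⁻¹) *
          fun t : Pt W => t w := by
        funext t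
        rw [Pi.mul_apply, div_eq_inv_mul]
      rw [h2]
      exact mul_mem (Bs_const _) hc
    have hE1 : (toH W fun t : Pt W => Real.exp (t w / ((1 : ℕ) : ℝ))) =
        toH W fun t => Real.exp (t w) := by
      congr 1
      funext t
      rw [Nat.cast_one, div_one]
    have h1 := SK_exp hK1 hS1 (g := toH W fun t => t w) (Bs_memL (Finset.mem_insert_self _ _))
      (fun N => toH W fun t => Real.exp (t w / (N : ℝ))) (fun N _ => (DD_exp (w := w) (hN N)).1)
      (by
        intro i N h1N
        rw [(DD_exp (hN N)).2]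
        congr 1
        have h2 := Bs_nsmul (hN N) N
        have h3 : (fun t : Pt W => (N : ℝ) * (t w / (N : ℝ))) = fun t => t w := by
          funext t
          have : (N : ℝ) ≠ 0 := Nat.cast_ne_zero.2 (by omega)
          field_simp
        rw [h3] at h2
        rw [h2, map_nsmul, nsmul_eq_mul, mul_div_cancel_left₀ _ (Nat.cast_ne_zero.2 (by omega))])
      (by
        intro N M h1N h1M
        show (toH W fun t : Pt W => Real.exp (t w / ((N * M : ℕ) : ℝ))) ^ M =
          toH W fun t : Pt W => Real.exp (t w / (N : ℝ))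
        rw [Bs_pow (hN _)]
        congr 1
        funext t
        have h4 : (N : ℝ) ≠ 0 := Nat.cast_ne_zero.2 (by omega)
        have h5 : (M : ℝ) ≠ 0 := Nat.cast_ne_zero.2 (by omega)
        congr 1
        push_cast
        field_simp)
      (by
        show Transcendental _ (toH W fun t : Pt W => Real.exp (t w / ((1 : ℕ) : ℝ)))
        rw [hE1]
        exact ht1)
    refine h1.mono ?_
    intro p hp
    rcases hp with rfl | ⟨f, hf, rfl⟩
    · refine ⟨fun t => t w, Or.inr (Finset.mem_insert_self _ _), ?_⟩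
      exact Prod.ext rfl hE1
    · refine ⟨f, ?_, rfl⟩
      rcases hf with hf | hf
      · exact Or.inl (Submodule.mem_sup_left hf)
      · exact Or.inr (Finset.mem_insert_of_mem hf)

variable (W)

/-- The invariant for the variables: first the coordinates are adjoined (`SK_var`), then their
exponentials (`SK_exp`). -/
theorem iv0 : Iv (V0 W) (L0 W) := by
  classical
  have hV : V0 W = Bs_V Finset.univ := by
    unfold V0 Bs_V
    rw [Finset.coe_univ, Set.image_univ]
  have hL : L0 W = Bs_L Finset.univ := rfl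
  have hvL : ∀ v ∈ Bs_V (Finset.univ : Finset W), toH W v ∈
      Kf (Bs_V Finset.univ) (Bs_L (Finset.univ : Finset W)) := by
    intro v hv
    have hm := Bs_anV (Finset.univ : Finset W)
    have hle : Cst (DD W) ≤ Kf (Bs_V Finset.univ) (Bs_L (Finset.univ : Finset W)) := le_adj _ _
    have hg : ∀ w : W, (toH W fun t => t w) ∈
        Kf (Bs_V Finset.univ) (Bs_L (Finset.univ : Finset W)) := fun w =>
      Bs_memL (Finset.mem_image.2 ⟨w, Finset.mem_univ _, rfl⟩)
    generalize Kf (Bs_V Finset.univ) (Bs_L (Finset.univ : Finset W)) = K at hle hg ⊢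
    unfold Bs_V at hv hm
    induction hv using Submodule.span_induction with
    | mem x hx =>
      obtain ⟨w, -, rfl⟩ := hx
      exact hg w
    | zero =>
      rw [Bs_toH_zero]
      exact zero_mem _
    | add x y hx hy h1 h2 =>
      have h3 : toH W (x + y) = toH W x + toH W y := toH_add (hm x hx) (hm y hy)
      rw [h3]
      exact add_mem h1 h2
    | smul q x hx h1 =>
      rw [Bs_toH_smul q (hm x hx)]
      exact mul_mem (hle (Bs_cst _)) h1
  rw [hV, hL]
  refine ⟨Bs_anV _, Bs_anL _, hvL, fun i v hv => le_adj _ _ (Bs_dV _ i v hv).1,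
    fun i l hl => le_adj _ _ (Bs_dL _ i l hl).1, (Bs_main _).1, ?_, (Bs_main _).2⟩
  intro l hl
  obtain ⟨w, -, rfl⟩ := Finset.mem_image.1 hl
  exact Bs_memV (Submodule.subset_span ⟨w, Finset.mem_coe.2 (Finset.mem_univ _), rfl⟩)

end Pool.Agent.TC
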