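import Mathlib

/-!
# Module Cf: tables

`vec a` (`a < L`) = elements of an abelian group without torsion, `ν` = a list of rows of integers.
`Coh` = every relation between the vectors holds for the rows, `Fai` = every relation which holds for
the rows is a relation between the vectors. `crd` = the coordinates of an element of the group
generated by the vectors, `chi` = the character with the values `U b`. The same as TN/Chi, TN/Crd for
general vectors.
-/

namespace Pool.Agent.TC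

open Finset

variable {M : Type} [AddCommGroup M]

/-- Every relation between the vectors holds for the rows. -/
def Coh (vec : ℕ → M) (L : ℕ) (ν : List (ℕ → ℤ)) : Prop :=
  ∀ k : ℕ → ℤ, ∑ a ∈ range L, k a • vec a = 0 → ∀ row ∈ ν, ∑ a ∈ range L, k a * row a = 0

/-- Every relation which holds for the rows is a relation between the vectors. -/
def Fai (vec : ℕ → M) (L : ℕ) (ν : List (ℕ → ℤ)) : Prop :=
  ∀ k : ℕ → ℤ, (∀ row ∈ ν, ∑ a ∈ range L, k a * row a = 0) → ∑ a ∈ range L, k a • vec a = 0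

/-- The submonoid generated by the vectors. -/
def Vn (vec : ℕ → M) (L : ℕ) : AddSubmonoid M := AddSubmonoid.closure {v | ∃ a < L, v = vec a}

open Classical in
/-- The coordinates. -/
noncomputable def crd (ν : List (ℕ → ℤ)) (vec : ℕ → M) (L : ℕ) (f : M) (b : ℕ) : ℤ :=
  if h : ∃ k : ℕ → ℤ, f = ∑ a ∈ range L, k a • vec a then
    ∑ a ∈ range L, h.choose a * (ν.getD b 0) a
  else 0

/-- The character. -/
noncomputable def chi {K : Type} [CommRing K] (U : ℕ → Kˣ) (ν : List (ℕ → ℤ)) (vec : ℕ → M)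
    (L : ℕ) (f : M) : K :=
  ↑(∏ b ∈ range ν.length, U b ^ crd ν vec L f b)

private theorem Cf_row {ν : List (ℕ → ℤ)} {vec : ℕ → M} {L : ℕ} (hc : Coh vec L ν) {k : ℕ → ℤ}
    (hk : ∑ a ∈ range L, k a • vec a = 0) (b : ℕ) :
    ∑ a ∈ range L, k a * (ν.getD b 0) a = 0 := by
  by_cases hb : b < ν.length
  · have h1 : ν.getD b 0 = ν[b] := List.getD_eq_getElem _ _ hb
    rw [h1]
    exact hc k hk _ (List.getElem_mem hb)
  · have h1 : ν.getD b 0 = 0 := List.getD_eq_default _ _ (not_lt.1 hb)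
    rw [h1]
    simp

theorem crd_eq {ν : List (ℕ → ℤ)} {vec : ℕ → M} {L : ℕ} (hc : Coh vec L ν) (k : ℕ → ℤ)
    (b : ℕ) : crd ν vec L (∑ a ∈ range L, k a • vec a) b =
      ∑ a ∈ range L, k a * (ν.getD b 0) a := by
  have h : ∃ k' : ℕ → ℤ, ∑ a ∈ range L, k a • vec a = ∑ a ∈ range L, k' a • vec a := ⟨k, rfl⟩
  unfold crd
  rw [dif_pos h]
  have h1 := h.choose_spec
  set k' := h.choose
  have h2 : ∑ a ∈ range L, (fun a => k' a - k a) a • vec a = 0 := by
    simp only [sub_smul]
    rw [Finset.sum_sub_distrib, ← h1, sub_self]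
  have h3 := Cf_row hc h2 b
  simp only [sub_mul] at h3
  rw [Finset.sum_sub_distrib, sub_eq_zero] at h3
  exact h3

private theorem Cf_single {vec : ℕ → M} {L a : ℕ} (ha : a < L) :
    vec a = ∑ x ∈ range L, (Pi.single a 1 : ℕ → ℤ) x • vec x := by
  rw [Finset.sum_eq_single a]
  · rw [Pi.single_eq_same, one_smul]
  · intro x _ hx
    rw [Pi.single_eq_of_ne hx, zero_smul]
  · intro h
    exact absurd (Finset.mem_range.2 ha) h

/-- The elements of the submonoid are combinations. -/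
theorem Vn_comb {vec : ℕ → M} {L : ℕ} {f : M} (hf : f ∈ Vn vec L) :
    ∃ k : ℕ → ℤ, f = ∑ a ∈ range L, k a • vec a := by
  unfold Vn at hf
  induction hf using AddSubmonoid.closure_induction with
  | mem x hx =>
    obtain ⟨a, ha, rfl⟩ := hx
    exact ⟨_, Cf_single ha⟩
  | zero => exact ⟨0, by simp⟩
  | add x y _ _ h1 h2 =>
    obtain ⟨k, rfl⟩ := h1
    obtain ⟨k', rfl⟩ := h2
    refine ⟨fun a => k a + k' a, ?_⟩
    simp only [add_smul]
    rw [Finset.sum_add_distrib]

theorem crd_zero {ν : List (ℕ → ℤ)} {vec : ℕ → M} {L : ℕ} (hc : Coh vec L ν) (b : ℕ) :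
    crd ν vec L 0 b = 0 := by
  have h := crd_eq hc (0 : ℕ → ℤ) b
  simpa using h

theorem crd_add {ν : List (ℕ → ℤ)} {vec : ℕ → M} {L : ℕ} (hc : Coh vec L ν) {f g : M}
    (hf : f ∈ Vn vec L) (hg : g ∈ Vn vec L) (b : ℕ) :
    crd ν vec L (f + g) b = crd ν vec L f b + crd ν vec L g b := by
  obtain ⟨k, rfl⟩ := Vn_comb hf
  obtain ⟨k', rfl⟩ := Vn_comb hg
  have h1 : ∑ a ∈ range L, k a • vec a + ∑ a ∈ range L, k' a • vec a =
      ∑ a ∈ range L, (fun a => k a + k' a) a • vec a := by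
    simp only [add_smul]
    rw [Finset.sum_add_distrib]
  rw [h1, crd_eq hc, crd_eq hc, crd_eq hc, ← Finset.sum_add_distrib]
  exact Finset.sum_congr rfl fun a _ => add_mul _ _ _

theorem crd_vec {ν : List (ℕ → ℤ)} {vec : ℕ → M} {L a : ℕ} (hc : Coh vec L ν) (ha : a < L)
    (b : ℕ) : crd ν vec L (vec a) b = (ν.getD b 0) a := by
  have h := crd_eq hc (Pi.single a 1 : ℕ → ℤ) b
  rw [← Cf_single ha] at h
  rw [h, Finset.sum_eq_single a]
  · rw [Pi.single_eq_same, one_mul]
  · intro x _ hx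
    rw [Pi.single_eq_of_ne hx, zero_mul]
  · intro h
    exact absurd (Finset.mem_range.2 ha) h

theorem crd_inj {ν : List (ℕ → ℤ)} {vec : ℕ → M} {L : ℕ} (hc : Coh vec L ν)
    (hf : Fai vec L ν) {f f' : M} (h : f ∈ Vn vec L) (h' : f' ∈ Vn vec L)
    (he : ∀ b < ν.length, crd ν vec L f b = crd ν vec L f' b) : f = f' := by
  obtain ⟨k, rfl⟩ := Vn_comb h
  obtain ⟨k', rfl⟩ := Vn_comb h'
  have h1 : ∑ a ∈ range L, (fun a => k a - k' a) a • vec a = 0 := by
    apply hf
    intro row hrow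
    obtain ⟨b, hb, rfl⟩ := List.mem_iff_getElem.1 hrow
    have h2 := he b hb
    rw [crd_eq hc, crd_eq hc, List.getD_eq_getElem _ _ hb] at h2
    simp only [sub_mul]
    rw [Finset.sum_sub_distrib, h2, sub_self]
  simp only [sub_smul] at h1
  rw [Finset.sum_sub_distrib, sub_eq_zero] at h1
  exact h1

private theorem Cf_vec_mem {vec : ℕ → M} {L a : ℕ} (ha : a < L) : vec a ∈ Vn vec L :=
  AddSubmonoid.subset_closure ⟨a, ha, rfl⟩

/-- Sums of at most `m` vectors have small coordinates. -/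
theorem crd_bound {ν : List (ℕ → ℤ)} {vec : ℕ → M} {L : ℕ} (hc : Coh vec L ν) {P : ℕ}
    (hP : ∀ row ∈ ν, ∀ a, |row a| ≤ P) (l : List M) (hl : ∀ v ∈ l, ∃ a < L, v = vec a) {m : ℕ}
    (hm : l.length ≤ m) (b : ℕ) : |crd ν vec L l.sum b| ≤ m * P := by
  have key : ∀ l : List M, (∀ v ∈ l, ∃ a < L, v = vec a) →
      l.sum ∈ Vn vec L ∧ |crd ν vec L l.sum b| ≤ l.length * P := by
    intro l
    induction l with
    | nil =>
      intro _
      refine ⟨by rw [List.sum_nil]; exact AddSubmonoid.zero_mem _, ?_⟩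
      rw [List.sum_nil, crd_zero hc, List.length_nil]
      simp
    | cons v l ih =>
      intro hl
      obtain ⟨a, ha, hv⟩ := hl v (List.mem_cons_self)
      obtain ⟨h1, h2⟩ := ih fun v hv => hl v (List.mem_cons_of_mem _ hv)
      have h3 : v ∈ Vn vec L := by rw [hv]; exact Cf_vec_mem ha
      refine ⟨by rw [List.sum_cons]; exact AddSubmonoid.add_mem _ h3 h1, ?_⟩
      rw [List.sum_cons, crd_add hc h3 h1, List.length_cons]
      have h4 : |crd ν vec L v b| ≤ P := by
        rw [hv, crd_vec hc ha]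
        by_cases hb : b < ν.length
        · rw [List.getD_eq_getElem _ _ hb]
          exact hP _ (List.getElem_mem hb) a
        · rw [List.getD_eq_default _ _ (not_lt.1 hb)]
          simp
      calc |crd ν vec L v b + crd ν vec L l.sum b|
          ≤ |crd ν vec L v b| + |crd ν vec L l.sum b| := abs_add_le _ _
        _ ≤ P + l.length * P := add_le_add h4 h2
        _ = ((l.length + 1 : ℕ) : ℤ) * P := by push_cast; ring
  refine (key l hl).2.trans ?_
  have h1 : (l.length : ℤ) ≤ m := by exact_mod_cast hm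
  exact mul_le_mul_of_nonneg_right h1 (by positivity)

theorem chi_zero {K : Type} [CommRing K] (U : ℕ → Kˣ) {ν : List (ℕ → ℤ)} {vec : ℕ → M} {L : ℕ}
    (hc : Coh vec L ν) : chi U ν vec L 0 = 1 := by
  unfold chi
  simp only [crd_zero hc, zpow_zero, Finset.prod_const_one, Units.val_one]

theorem chi_add {K : Type} [CommRing K] (U : ℕ → Kˣ) {ν : List (ℕ → ℤ)} {vec : ℕ → M} {L : ℕ}
    (hc : Coh vec L ν) {f g : M} (hf : f ∈ Vn vec L) (hg : g ∈ Vn vec L) :
    chi U ν vec L (f + g) = chi U ν vec L f * chi U ν vec L g := by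
  unfold chi
  simp only [crd_add hc hf hg, zpow_add, Finset.prod_mul_distrib, Units.val_mul]

theorem chi_vec {K : Type} [CommRing K] (U : ℕ → Kˣ) {ν : List (ℕ → ℤ)} {vec : ℕ → M}
    {L a : ℕ} (hc : Coh vec L ν) (ha : a < L) :
    chi U ν vec L (vec a) = ↑(∏ b ∈ range ν.length, U b ^ (ν.getD b 0) a) := by
  unfold chi
  simp only [crd_vec hc ha]

end Pool.Agent.TC
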