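import Pool.Agent.H.MP_b2d7dd_lc.TC.StgC

/-!
# Module Chn: the error probability of the stages

Compare TN/Chn.
-/

namespace Pool.Agent.TC

open Pool.Agent.TI (Tm Tok names Valid)
open Pool.Agent.TE (bl)
open Pool.Agent.TW (SI irow cnt)
open Pool.Agent.H.MP_5be563_lc.PT Finset

theorem tabI_append (n : ℕ) (e : List Bool) (N B : List (List Bool))
    (T : List Tok) (x y : List Bool) (i : ℕ) (hx : i * SS n ≤ x.length) :
    tabI n e N B T (x ++ y) i = tabI n e N B T x i := by
  induction i with
  | zero => rfl
  | succ i ih =>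
    rw [Nat.succ_mul] at hx
    have h1 : bl (SS n) (x ++ y) i = bl (SS n) x i := by
      unfold bl
      rw [List.drop_append_of_le_length (by omega),
        List.take_append_of_le_length (by rw [List.length_drop]; omega)]
    show nxt n e N B T i (tabI n e N B T (x ++ y) i) (bl (SS n) (x ++ y) i) =
      nxt n e N B T i (tabI n e N B T x i) (bl (SS n) x i)
    rw [h1, ih (by omega)]

private theorem Chn_cnt_false {m : ℕ} {P : List Bool → Prop} (h : ∀ z, ¬ P z) : cnt m P = 0 := by
  unfold cnt
  have : IsEmpty {r : Fin m → Bool // P (List.ofFn r)} := ⟨fun r => h _ r.2⟩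
  exact Nat.card_of_isEmpty

private theorem Chn_bl (w : ℕ) (k : ℕ) (x y : List Bool) (hx : x.length = k * w)
    (hy : y.length = w) : bl w (x ++ y) k = y := by
  unfold bl
  rw [List.drop_append_of_le_length (by omega), List.drop_of_length_le (by omega),
    List.nil_append, List.take_of_length_le (by omega)]

theorem chain {n : ℕ} {s t : Tm} (hs : CT s) (ht : CT t) (hn : s.sz + t.sz ≤ n) {i : ℕ}
    (hi : i ≤ s.sz + t.sz) {e : List Bool} (he : 2 ^ vv n ≤ bval e)
    (he2 : bval e < 2 ^ (2 * vv n)) (hp : (bval e + 2).Prime) :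
    8 * (n + 1) * cnt (i * SS n) (fun z => ¬ Fai (lv s t) i
      ((tabI n e (names (s.toks ++ t.toks)) (baseT n (s.toks ++ t.toks)) (s.toks ++ t.toks) z
        i).map irow)) ≤ i * 2 ^ (i * SS n) := by
  induction i with
  | zero =>
    rw [Chn_cnt_false, mul_zero]
    · exact Nat.zero_le _
    · intro z hz
      apply hz
      intro k _
      simp
  | succ i ih =>
    set N := names (s.toks ++ t.toks) with hN
    set B := baseT n (s.toks ++ t.toks) with hB
    set T := s.toks ++ t.toks with hT
    have h1 := ih (by omega)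
    have h2 := TW.cnt_append (a := i * SS n) (b := SS n) (K := 8 * (n + 1)) (c := 1)
      (fun z => ¬ Fai (lv s t) (i + 1) ((tabI n e N B T z (i + 1)).map irow))
      (fun z => ¬ Fai (lv s t) i ((tabI n e N B T z i).map irow)) (by
        intro x hx hA
        have hf : Fai (lv s t) i ((tabI n e N B T x i).map irow) := not_not.1 hA
        have hb := tabI_bound n e N B T x i
        have h3 := stage_cnt hs ht hn (i := i) (by omega) he he2 hp
          (tabI_coh hs ht hn he N x i (by omega)) hf hb.2 (hb.1.trans (by omega))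
        rw [one_mul]
        refine le_trans (Nat.mul_le_mul_left _ (TW.cnt_mono ?_)) h3
        intro y hy hP
        have h4 : tabI n e N B T (x ++ y) (i + 1) = nxt n e N B T i (tabI n e N B T x i) y := by
          show nxt n e N B T i (tabI n e N B T (x ++ y) i) (bl (SS n) (x ++ y) i) = _
          rw [Chn_bl (SS n) i x y hx hy, tabI_append n e N B T x y i (by omega)]
        rw [h4] at hP
        exact hP)
    have h5 : (i + 1) * SS n = i * SS n + SS n := Nat.succ_mul _ _
    rw [h5]
    refine h2.trans ?_
    rw [pow_add, one_mul, Nat.add_mul, one_mul]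
    have h6 := Nat.mul_le_mul_right (2 ^ SS n) h1
    calc 8 * (n + 1) * (cnt (i * SS n)
            (fun z => ¬ Fai (lv s t) i ((tabI n e N B T z i).map irow)) * 2 ^ SS n) +
          2 ^ (i * SS n) * 2 ^ SS n
        = 8 * (n + 1) * cnt (i * SS n)
            (fun z => ¬ Fai (lv s t) i ((tabI n e N B T z i).map irow)) * 2 ^ SS n +
          2 ^ (i * SS n) * 2 ^ SS n := by rw [mul_assoc (8 * (n + 1))]
      _ ≤ i * 2 ^ (i * SS n) * 2 ^ SS n +
          2 ^ (i * SS n) * 2 ^ SS n := Nat.add_le_add_right h6 _
      _ = _ := by rw [mul_assoc]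

end Pool.Agent.TC
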