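import Pool.Agent.H.MP_b2d7dd_lc.TC.Hz
import Pool.Agent.H.MP_b2d7dd_lc.TW.Cmb

/-!
# Module Cmb: linear combinations of hash values are rarely zero

Compare TN/Cmb. The Laurent polynomial: variables number `b` and `c + b` for the two characters
(exponents `crd`), `2 * c + idxOf w N` for the variables, `3 * c + k` for the coprime base.
`laur`: the value of an element of the monoid ring with bounded exponents, which is not zero modulo the
prime number, is rarely zero.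
-/

namespace Pool.Agent.TC

open Pool.Agent.TI (Tm)
open Pool.Agent.TE (bl)
open Pool.Agent.TW (SI irow wun zv cnt cnt_fam laurent_zeros wun_val)
open Pool.Agent.H.MP_5be563_lc.PT Finset

private theorem Cmb_zv {e x : List Bool} {v : ℕ} (hr : 2 ^ v ≤ bval e + 2) (hx : x.length = v)
    (h0 : bval x ≠ 0) : zv e x ≠ 0 := by
  unfold zv
  intro h
  have h1 : (bval e + 2) ∣ bval x := (ZMod.natCast_eq_zero_iff _ _).1 h
  have h2 := Nat.le_of_dvd (Nat.pos_of_ne_zero h0) h1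
  have h3 : bval x < 2 ^ v := by
    have h4 : ∃ ω : Fin v → Bool, List.ofFn ω = x := by
      subst hx
      exact ⟨fun i => x.get i, List.ofFn_get x⟩
    obtain ⟨ω, rfl⟩ := h4
    have := Pool.Agent.TI.XA_le ω
    unfold Pool.Agent.TI.XA at this
    omega
  omega

/-- Products of powers. -/
private theorem Cmb_prod {K : Type} [Field K] {ι : Type} {Q : ℕ} {V : ℕ → K}
    (hV : ∀ q < Q, V q ≠ 0) (S : Finset ι) (e : ι → ℕ) (he : ∀ s ∈ S, e s < Q) (x : ι → ℤ) :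
    ∏ q ∈ range Q, V q ^ (∑ s ∈ S, if e s = q then x s else 0) = ∏ s ∈ S, V (e s) ^ x s := by
  classical
  induction S using Finset.induction_on with
  | empty => simp
  | insert a S ha ih =>
    rw [Finset.prod_insert ha, ← ih fun s hs => he s (Finset.mem_insert_of_mem hs)]
    have h1 : ∏ q ∈ range Q, V q ^ (if e a = q then x a else 0) = V (e a) ^ x a := by
      rw [Finset.prod_eq_single (e a)]
      · rw [if_pos rfl]
      · intro q _ hq
        rw [if_neg (Ne.symm hq), zpow_zero]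
      · intro hq
        exact absurd (Finset.mem_range.2 (he a (Finset.mem_insert_self a S))) hq
    rw [← h1, ← Finset.prod_mul_distrib]
    refine Finset.prod_congr rfl fun q hq => ?_
    rw [Finset.sum_insert ha, zpow_add₀ (hV q (Finset.mem_range.1 hq))]

private theorem Cmb_ev {ι : Type} {S : Finset ι} {e : ι → ℕ} (he : Set.InjOn e S) (x : ι → ℤ)
    {s : ι} (hs : s ∈ S) : ∑ t ∈ S, (if e t = e s then x t else 0) = x s := by
  rw [Finset.sum_eq_single s]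
  · rw [if_pos rfl]
  · intro t ht hts
    exact if_neg fun h => hts (he ht hs h)
  · intro h
    exact absurd hs h

private theorem Cmb_le {ι : Type} {S : Finset ι} {e : ι → ℕ} (he : Set.InjOn e S) (x : ι → ℤ)
    {D : ℤ} (hD : 0 ≤ D) (hx : ∀ s ∈ S, |x s| ≤ D) (q : ℕ) :
    |∑ t ∈ S, (if e t = q then x t else 0)| ≤ D := by
  by_cases h : ∃ s ∈ S, e s = q
  · obtain ⟨s, hs, rfl⟩ := h
    rw [Cmb_ev he x hs]
    exact hx s hs
  · push Not at h
    rw [Finset.sum_eq_zero fun t ht => if_neg (h t ht), abs_zero]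
    exact hD

/-- The numbers of the blocks. -/
private def Cmb_e (n : ℕ) (N : List (List Bool)) : ℕ ⊕ ℕ ⊕ List Bool ⊕ ℕ → ℕ
  | .inl b => b
  | .inr (.inl b) => n + 1 + b
  | .inr (.inr (.inl w)) => 2 * (n + 1) + N.idxOf w
  | .inr (.inr (.inr k)) => 3 * (n + 1) + k

/-- The parameters. -/
private def Cmb_S (l κ : ℕ) (N : List (List Bool)) : Finset (ℕ ⊕ ℕ ⊕ List Bool ⊕ ℕ) :=
  (range l).disjSum ((range l).disjSum (N.toFinset.disjSum (range κ)))

/-- The exponents. -/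
private noncomputable def Cmb_x {W : Finset (List Bool)} (ν : List (ℕ → ℤ)) (ex : ℕ → Tm) (i : ℕ)
    (g : Gx W) : ℕ ⊕ ℕ ⊕ List Bool ⊕ ℕ → ℤ
  | .inl b => crd ν (fun a => lr W (ex a)) i g.1 b
  | .inr (.inl b) => crd ν (fun a => lr W (ex a)) i g.2.1 b
  | .inr (.inr x) => (g.2.2 x : ℤ)

private theorem Cmb_key (n l κ : ℕ) (N : List (List Bool)) (s : ℕ ⊕ ℕ ⊕ List Bool ⊕ ℕ)
    (hs : s ∈ Cmb_S l κ N) : (∃ b < l, s = .inl b ∧ Cmb_e n N s = b) ∨
      (∃ b < l, s = .inr (.inl b) ∧ Cmb_e n N s = n + 1 + b) ∨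
      (∃ w ∈ N, N.idxOf w < N.length ∧ s = .inr (.inr (.inl w)) ∧
        Cmb_e n N s = 2 * (n + 1) + N.idxOf w) ∨
      (∃ k < κ, s = .inr (.inr (.inr k)) ∧ Cmb_e n N s = 3 * (n + 1) + k) := by
  rcases s with b | b | w | k
  · exact Or.inl ⟨b, Finset.mem_range.1 (Finset.inl_mem_disjSum.1 hs), rfl, rfl⟩
  · exact Or.inr (Or.inl ⟨b, Finset.mem_range.1 (Finset.inl_mem_disjSum.1
      (Finset.inr_mem_disjSum.1 hs)), rfl, rfl⟩)
  · have h1 := List.mem_toFinset.1 (Finset.inl_mem_disjSum.1 (Finset.inr_mem_disjSum.1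
      (Finset.inr_mem_disjSum.1 hs)))
    exact Or.inr (Or.inr (Or.inl ⟨w, h1, List.idxOf_lt_length_iff.2 h1, rfl, rfl⟩))
  · exact Or.inr (Or.inr (Or.inr ⟨k, Finset.mem_range.1 (Finset.inr_mem_disjSum.1
      (Finset.inr_mem_disjSum.1 (Finset.inr_mem_disjSum.1 hs))), rfl, rfl⟩))

private theorem Cmb_lt {n l κ Q : ℕ} {N : List (List Bool)} (hN : N.length ≤ n) (hl : l ≤ n)
    (hQ : 3 * (n + 1) + κ ≤ Q) : ∀ s ∈ Cmb_S l κ N, Cmb_e n N s < Q := by
  intro s hs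
  rcases Cmb_key n l κ N s hs with ⟨b, hb, -, h1⟩ | ⟨b, hb, -, h1⟩ | ⟨w, -, hw, -, h1⟩ |
    ⟨k, hk, -, h1⟩ <;> omega

private theorem Cmb_inj {n l κ : ℕ} {N : List (List Bool)} (hN : N.length ≤ n) (hl : l ≤ n) :
    Set.InjOn (Cmb_e n N) (Cmb_S l κ N) := by
  intro s hs t ht h
  rcases Cmb_key n l κ N s (Finset.mem_coe.1 hs) with ⟨b, hb, e1, h1⟩ | ⟨b, hb, e1, h1⟩ |
    ⟨w, hw, hw', e1, h1⟩ | ⟨k, hk, e1, h1⟩
  · rcases Cmb_key n l κ N t (Finset.mem_coe.1 ht) with ⟨b', hb', e2, h2⟩ | ⟨b', hb', e2, h2⟩ |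
      ⟨w', hw', hw'', e2, h2⟩ | ⟨k', hk', e2, h2⟩
    · have h3 : b = b' := by omega
      rw [e1, e2, h3]
    · omega
    · omega
    · omega
  · rcases Cmb_key n l κ N t (Finset.mem_coe.1 ht) with ⟨b', hb', e2, h2⟩ | ⟨b', hb', e2, h2⟩ |
      ⟨w', hw', hw'', e2, h2⟩ | ⟨k', hk', e2, h2⟩
    · omega
    · have h3 : b = b' := by omega
      rw [e1, e2, h3]
    · omega
    · omega
  · rcases Cmb_key n l κ N t (Finset.mem_coe.1 ht) with ⟨b', hb', e2, h2⟩ | ⟨b', hb', e2, h2⟩ |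
      ⟨w', hww, hw'', e2, h2⟩ | ⟨k', hk', e2, h2⟩
    · omega
    · omega
    · have h3 : N.idxOf w = N.idxOf w' := by omega
      have h4 : w = w' := (List.idxOf_inj hw).1 h3
      rw [e1, e2, h4]
    · omega
  · rcases Cmb_key n l κ N t (Finset.mem_coe.1 ht) with ⟨b', hb', e2, h2⟩ | ⟨b', hb', e2, h2⟩ |
      ⟨w', hw', hw'', e2, h2⟩ | ⟨k', hk', e2, h2⟩
    · omega
    · omega
    · omega
    · have h3 : k = k' := by omega
      rw [e1, e2, h3]

private theorem Cmb_chi {W : Finset (List Bool)} {ex : ℕ → Tm} {i : ℕ} {e : List Bool}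
    {v Q : ℕ} [hp : Fact (bval e + 2).Prime] {ν : List (ℕ → ℤ)} {Z : List Bool}
    (hZ : ∀ q < Q, zv e (bl v Z q) ≠ 0) (c : ℕ) (hc : c + ν.length ≤ Q) (f : Pt W → ℝ) :
    chi (fun b => wun e (bl v Z (c + b))) ν (fun a => lr W (ex a)) i f =
      ∏ b ∈ range ν.length, zv e (bl v Z (c + b)) ^ crd ν (fun a => lr W (ex a)) i f b := by
  unfold chi
  rw [Units.coe_prod]
  refine Finset.prod_congr rfl fun b hb => ?_
  have hb' := Finset.mem_range.1 hb
  rw [Units.val_zpow_eq_zpow_val, wun_val hp.out (hZ (c + b) (by omega))]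

private theorem Cmb_fz {W : Finset (List Bool)} {ex : ℕ → Tm} {i : ℕ} {e : List Bool}
    {v n Q : ℕ} [Fact (bval e + 2).Prime] {N : List (List Bool)} (hN : N.length ≤ n)
    {ν : List (ℕ → ℤ)} (hl : ν.length ≤ n) {κ : ℕ} (hQ : 3 * (n + 1) + κ ≤ Q) {Z : List Bool}
    (hZ : ∀ q < Q, zv e (bl v Z q) ≠ 0) {g : Gx W}
    (hpar : ∀ x, g.2.2 x ≠ 0 → Sum.elim (fun w => w ∈ N) (fun k => k < κ) x) :
    fz W e v (n + 1) N ν ex i Z g = ∏ q ∈ range Q, zv e (bl v Z q) ^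
      (∑ s ∈ Cmb_S ν.length κ N, if Cmb_e n N s = q then Cmb_x ν ex i g s else 0) := by
  rw [Cmb_prod hZ (Cmb_S ν.length κ N) (Cmb_e n N) (Cmb_lt hN hl hQ) (Cmb_x ν ex i g)]
  unfold Cmb_S
  rw [Finset.prod_disjSum, Finset.prod_disjSum]
  unfold fz
  have h1 := Cmb_chi (ex := ex) (i := i) hZ 0 (ν := ν) (by omega) g.1
  have h2 := Cmb_chi (ex := ex) (i := i) hZ (n + 1) (ν := ν) (by omega) g.2.1
  simp only [Nat.zero_add] at h1
  rw [h1, h2, mul_assoc]
  congr 1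
  congr 1
  rw [Finsupp.prod_of_support_subset g.2.2 (s := N.toFinset.disjSum (range κ)) ?_ _
    (fun x _ => pow_zero _)]
  · refine Finset.prod_congr rfl fun x hx => ?_
    rcases x with w | k
    · exact (zpow_natCast (zv e (bl v Z (2 * (n + 1) + N.idxOf w))) (g.2.2 (.inl w))).symm
    · exact (zpow_natCast (zv e (bl v Z (3 * (n + 1) + k))) (g.2.2 (.inr k))).symm
  · intro x hx
    have h1 := hpar x (Finsupp.mem_support_iff.1 hx)
    rcases x with w | k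
    · exact Finset.inl_mem_disjSum.2 (List.mem_toFinset.2 h1)
    · exact Finset.inr_mem_disjSum.2 (Finset.mem_range.2 h1)

/-- The number of zeros. `C g` = the coefficients modulo the prime number, `G` contains the exponents
with coefficients which are not zero. -/
theorem laur {W : Finset (List Bool)} {ex : ℕ → Tm} {i : ℕ} {e : List Bool} {v n P m Q : ℕ}
    (hp : (bval e + 2).Prime) (hr : 2 ^ v ≤ bval e + 2) {N : List (List Bool)}
    (hN : N.length ≤ n) {ν : List (ℕ → ℤ)} (hc : Coh (fun a => lr W (ex a)) i ν)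
    (hf : Fai (fun a => lr W (ex a)) i ν) (hP : ∀ row ∈ ν, ∀ a, |row a| ≤ P)
    (hl : ν.length ≤ n) {κ : ℕ} (hQ : 3 * (n + 1) + κ ≤ Q) (hP1 : 1 ≤ P)
    (G : Finset (Gx W)) (C : Gx W → ZMod (bval e + 2)) (hC : ∃ g ∈ G, C g ≠ 0)
    (hG : ∀ g ∈ G, ∃ l1 l2 : List (Pt W → ℝ), l1.length ≤ m ∧ l2.length ≤ m ∧
      (∀ u ∈ l1, u ∈ lr W '' exA ex i) ∧ (∀ u ∈ l2, u ∈ lr W '' exA ex i) ∧ g.1 = l1.sum ∧
        g.2.1 = l2.sum ∧ ∀ x, g.2.2 x ≤ m)
    (hpar : ∀ g ∈ G, ∀ x, g.2.2 x ≠ 0 →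
      Sum.elim (fun w => w ∈ N) (fun k => k < κ) x) :
    2 ^ v * cnt (Q * v) (fun Z => ∑ g ∈ G, C g * fz W e v (n + 1) N ν ex i Z g = 0) ≤
      (2 * (m * P) * Q + Q) * (2 ^ v) ^ Q := by
  classical
  have := Fact.mk hp
  have hinjS := Cmb_inj (κ := κ) hN hl
  have hlt := Cmb_lt hN hl hQ
  have hcomb : ∀ l : List (Pt W → ℝ), (∀ u ∈ l, u ∈ lr W '' exA ex i) →
      ∀ u ∈ l, ∃ a < i, u = (fun a => lr W (ex a)) a := by
    intro l hl u hu
    obtain ⟨t, ⟨a, ha, h1, -⟩, rfl⟩ := hl u hu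
    exact ⟨a, ha, by rw [h1]⟩
  have hVn : ∀ l : List (Pt W → ℝ), (∀ u ∈ l, u ∈ lr W '' exA ex i) →
      l.sum ∈ Vn (fun a => lr W (ex a)) i := by
    intro l hl
    refine AddSubmonoid.list_sum_mem _ fun u hu => ?_
    exact AddSubmonoid.subset_closure (hcomb l hl u hu)
  have hx : ∀ g ∈ G, ∀ s ∈ Cmb_S ν.length κ N, |Cmb_x ν ex i g s| ≤ ((m * P : ℕ) : ℤ) := by
    intro g hg s _
    obtain ⟨l1, l2, h1, h2, h3, h4, h5, h6, h7⟩ := hG g hg
    rcases s with b | b | x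
    · have h8 := crd_bound hc hP l1 (hcomb l1 h3) h1 b
      rw [← h5] at h8
      rw [Nat.cast_mul]
      exact h8
    · have h8 := crd_bound hc hP l2 (hcomb l2 h4) h2 b
      rw [← h6] at h8
      rw [Nat.cast_mul]
      exact h8
    · have h8 : g.2.2 x ≤ m * P := (h7 x).trans (Nat.le_mul_of_pos_right m hP1)
      show |((g.2.2 x : ℕ) : ℤ)| ≤ _
      rw [Nat.abs_cast]
      exact_mod_cast h8
  have hinj : Set.InjOn (fun (g : Gx W) (q : Fin Q) => ∑ s ∈ Cmb_S ν.length κ N,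
      if Cmb_e n N s = q.1 then Cmb_x ν ex i g s else 0) G := by
    intro g hg g' hg' hgg
    have key : ∀ s ∈ Cmb_S ν.length κ N, Cmb_x ν ex i g s = Cmb_x ν ex i g' s := by
      intro s hs
      have h1 := congrFun hgg ⟨Cmb_e n N s, hlt s hs⟩
      simp only at h1
      rwa [Cmb_ev hinjS _ hs, Cmb_ev hinjS _ hs] at h1
    obtain ⟨l1, l2, h1, h2, h3, h4, h5, h6, h7⟩ := hG g (Finset.mem_coe.1 hg)
    obtain ⟨k1, k2, i1, i2, i3, i4, i5, i6, i7⟩ := hG g' (Finset.mem_coe.1 hg')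
    have e1 : g.1 = g'.1 := crd_inj hc hf (by rw [h5]; exact hVn l1 h3)
      (by rw [i5]; exact hVn k1 i3) fun b hb =>
        key (.inl b) (Finset.inl_mem_disjSum.2 (Finset.mem_range.2 hb))
    have e2 : g.2.1 = g'.2.1 := crd_inj hc hf (by rw [h6]; exact hVn l2 h4)
      (by rw [i6]; exact hVn k2 i4) fun b hb =>
        key (.inr (.inl b)) (Finset.inr_mem_disjSum.2
          (Finset.inl_mem_disjSum.2 (Finset.mem_range.2 hb)))
    have e3 : g.2.2 = g'.2.2 := by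
      ext x
      by_cases hx : x ∈ N.toFinset.disjSum (range κ)
      · have h8 := key (.inr (.inr x)) (Finset.inr_mem_disjSum.2 (Finset.inr_mem_disjSum.2 hx))
        exact Int.natCast_inj.1 h8
      · have hz : ∀ g ∈ G, g.2.2 x = 0 := by
          intro g hg
          by_contra h9
          have h10 := hpar g hg x h9
          apply hx
          rcases x with w | k
          · exact Finset.inl_mem_disjSum.2 (List.mem_toFinset.2 h10)
          · exact Finset.inr_mem_disjSum.2 (Finset.mem_range.2 h10)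
        rw [hz g (Finset.mem_coe.1 hg), hz g' (Finset.mem_coe.1 hg')]
    exact Prod.ext e1 (Prod.ext e2 e3)
  have hz := laurent_zeros hr G (fun (g : Gx W) (q : Fin Q) => ∑ s ∈ Cmb_S ν.length κ N,
      if Cmb_e n N s = q.1 then Cmb_x ν ex i g s else 0) hinj (D := m * P)
    (fun g hg q => Cmb_le hinjS _ (Int.natCast_nonneg _) (hx g hg) q.1) C hC
  refine le_trans (Nat.mul_le_mul_left _ ?_) hz
  rw [cnt_fam]
  refine Nat.card_le_card_of_injective (fun ρ : {ρ : Fin Q → Fin v → Bool //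
    ∑ g ∈ G, C g * fz W e v (n + 1) N ν ex i (Pool.Agent.TI.join ρ) g = 0} =>
    (⟨ρ.1, ?_⟩ : {ω : Fin Q → Fin v → Bool // (∃ q, bval (List.ofFn (ω q)) = 0) ∨
      ∑ g ∈ G, C g * ∏ q : Fin Q, ((bval (List.ofFn (ω q)) : ℕ) : ZMod (bval e + 2)) ^
        (∑ s ∈ Cmb_S ν.length κ N, if Cmb_e n N s = q.1 then Cmb_x ν ex i g s else 0) = 0}))
    fun a b hab => Subtype.ext (Subtype.mk.inj hab)
  obtain ⟨ω, hω⟩ := ρ
  show (∃ q, bval (List.ofFn (ω q)) = 0) ∨
    ∑ g ∈ G, C g * ∏ q : Fin Q, ((bval (List.ofFn (ω q)) : ℕ) : ZMod (bval e + 2)) ^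
        (∑ s ∈ Cmb_S ν.length κ N, if Cmb_e n N s = q.1 then Cmb_x ν ex i g s else 0) = 0
  by_cases h0 : ∃ q, bval (List.ofFn (ω q)) = 0
  · exact Or.inl h0
  right
  push Not at h0
  refine Eq.trans ?_ hω
  have hb : ∀ q : Fin Q, bl v (Pool.Agent.TI.join ω) q.1 = List.ofFn (ω q) := fun q =>
    Pool.Agent.TE.bl_join ω q.1 q.2
  have hZ : ∀ q < Q, zv e (bl v (Pool.Agent.TI.join ω) q) ≠ 0 := by
    intro q hq
    have h6 := hb ⟨q, hq⟩
    simp only at h6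
    rw [h6]
    exact Cmb_zv hr (by simp) (h0 _)
  refine Finset.sum_congr rfl fun g hg => ?_
  rw [Cmb_fz hN hl hQ hZ (hpar g hg), Finset.prod_range]
  congr 1
  refine Finset.prod_congr rfl fun q _ => ?_
  rw [hb q]
  rfl

/-- The exponents with good parameters. -/
private def Cmb_T (W : Finset (List Bool)) (κ : ℕ) : AddSubmonoid (Gx W) where
  carrier := {g | ∀ x, g.2.2 x ≠ 0 → Sum.elim (fun w => w ∈ W) (fun k => k < κ) x}
  zero_mem' := fun _ hx => absurd rfl hx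
  add_mem' := by
    intro g h hg hh x hx
    by_cases h0 : g.2.2 x = 0
    · refine hh x fun h1 => hx ?_
      show g.2.2 x + h.2.2 x = 0
      rw [h0, h1]
    · exact hg x h0

private theorem Cmb_T0 {W : Finset (List Bool)} {κ : ℕ} (v v' : Pt W → ℝ) :
    ((v, v', 0) : Gx W) ∈ Cmb_T W κ := fun _ hx => absurd rfl hx

private theorem Cmb_T1 {W : Finset (List Bool)} {κ : ℕ} {y : List Bool ⊕ ℕ}
    (hy : Sum.elim (fun w => w ∈ W) (fun k => k < κ) y) :
    ((0, 0, Finsupp.single y 1) : Gx W) ∈ Cmb_T W κ := by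
  intro x hx
  by_cases h : y = x
  · rw [← h]
    exact hy
  · exact absurd (Finsupp.single_eq_of_ne' h) hx

private theorem Cmb_hr {W : Finset (List Bool)} {κ : ℕ} (t : Tm) :
    Su (Cmb_T W κ) (hP W t) ∧ Su (Cmb_T W κ) (rP W t) := by
  induction t with
  | one => exact ⟨Su.one, Su.one⟩
  | var w => exact ⟨Su.single (Cmb_T0 _ _) 1, Su.single (Cmb_T0 _ _) 1⟩
  | add s t hs ht => exact ⟨Su.add hs.1 ht.1, Su.add hs.2 ht.2⟩
  | mul s t hs ht => exact ⟨Su.mul hs.1 ht.1, Su.mul hs.2 ht.2⟩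
  | pow s t _ _ => exact ⟨Su.single (Cmb_T0 _ _) 1, Su.single (Cmb_T0 _ _) 1⟩

private theorem Cmb_dn {W : Finset (List Bool)} {κ : ℕ} (t : Tm) :
    Su (Cmb_T W κ) (dn W t) := by
  induction t with
  | one => exact Su.one
  | var w => exact Su.one
  | add s t hs ht => exact Su.mul hs ht
  | mul s t hs ht => exact Su.mul hs ht
  | pow a b ha _ => exact Su.mul ha (Cmb_hr a).1

private theorem Cmb_lc {W : Finset (List Bool)} {κ : ℕ} (mu : ℕ → ℕ → ℕ) (n : ℕ) :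
    Su (Cmb_T W κ) (lcP W κ mu n) :=
  Su.sum _ _ fun k hk =>
    Su.zsmul (Su.single (Cmb_T1 (y := Sum.inr k) (Finset.mem_range.1 hk)) 1) _

private theorem Cmb_dP {W : Finset (List Bool)} {κ : ℕ} {mu : ℕ → ℕ → ℕ} {A : Set Tm}
    (hA : ClA A) (hv : ∀ w, Tm.var w ∈ A → w ∈ W) {t : Tm} (ht : ats t ⊆ A) :
    Su (Cmb_T W κ) (dP W κ mu t) := by
  induction t with
  | one => exact Su.zero
  | var w =>
    exact Su.mul (Su.single (Cmb_T0 _ _) 1)
      (Su.single (Cmb_T1 (y := Sum.inl w) (hv w (ht (Set.mem_singleton _)))) 1)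
  | add s t hs ht' =>
    have a1 := hs (fun x hx => ht (Or.inl hx))
    have b1 := ht' (fun x hx => ht (Or.inr hx))
    exact Su.add (Su.mul a1 (Cmb_dn t)) (Su.mul (Cmb_dn s) b1)
  | mul s t hs ht' =>
    have a1 := hs (fun x hx => ht (Or.inl hx))
    have b1 := ht' (fun x hx => ht (Or.inr hx))
    exact Su.add (Su.mul (Su.mul a1 (Cmb_hr t).1) (Cmb_dn t))
      (Su.mul (Su.mul (Cmb_hr s).1 (Cmb_dn s)) b1)
  | pow a b ha _ =>
    have a1 := ha (hA a b (ht (Set.mem_singleton _))).1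
    exact Su.mul (Su.single (Cmb_T0 _ _) 1) (Su.mul (Cmb_hr b).2
      (Su.add a1 (Su.mul (Su.mul (Cmb_lc _ _) (Cmb_dn a)) (Cmb_hr a).1)))

/-- Which parameters occur in the numerators. -/
theorem par_cn {W : Finset (List Bool)} {n' L : ℕ} {ex : ℕ → Tm} (h : FamC W n' L ex) {κ : ℕ}
    {mu : ℕ → ℕ → ℕ} {i : ℕ} (hi : i < L) {a : ℕ} (ha : a ≤ i) :
    ∀ g ∈ (cn W κ mu ex (i + 1) a * Dn W ex (i + 1)).coeff.support, ∀ x, g.2.2 x ≠ 0 →
      Sum.elim (fun w => w ∈ W) (fun k => k < κ) x := by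
  have hph : Su (Cmb_T W κ) (phP W κ mu (ex a)) := by
    cases hx : ex a with
    | one => exact Su.zero
    | var w =>
      exact Su.single (Cmb_T1 (y := Sum.inl w) (h.var a (lt_of_le_of_lt ha hi) w hx)) 1
    | add s t => exact Su.zero
    | mul s t => exact Su.zero
    | pow s t =>
      have haL : a < L := lt_of_le_of_lt ha hi
      have hd : Su (Cmb_T W κ) (dP W κ mu s) := by
        refine Cmb_dP (h.clA haL.le) ?_ (h.at2 a haL s t hx).1
        rintro w ⟨b, hb, h1, -⟩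
        exact h.var b (lt_trans hb haL) w h1.symm
      exact Su.mul (Cmb_hr t).2 (Su.add hd (Su.mul (Su.mul (Cmb_lc _ _) (Cmb_dn s))
        (Cmb_hr s).1))
  have h1 : Su (Cmb_T W κ) (cn W κ mu ex (i + 1) a * Dn W ex (i + 1)) :=
    Su.mul (Su.mul hph (Su.prod _ _ fun b _ => Cmb_dn _)) (Su.prod _ _ fun b _ => Cmb_dn _)
  exact fun g hg => h1 g hg

theorem cnt_comb {W : Finset (List Bool)} {L : ℕ} {ex : ℕ → Tm} {n : ℕ}
    (hF : FamC W n L ex) {e : List Bool} {v P Q : ℕ} (hp : (bval e + 2).Prime)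
    (hr : 2 ^ v ≤ bval e + 2) (hr2 : 2 ^ (n + 1) < bval e + 2) {N : List (List Bool)}
    (hN : N.length ≤ n) (hNW : ∀ w ∈ W, w ∈ N) {i : ℕ} (hi : i < L) {ν : List (ℕ → ℤ)}
    (hc : Coh (fun a => lr W (ex a)) i ν) (hf : Fai (fun a => lr W (ex a)) i ν)
    (hP : ∀ row ∈ ν, ∀ a, |row a| ≤ P) (hP1 : 1 ≤ P) (hl : ν.length ≤ n)
    {B : List (List Bool)} (hQ : 3 * (n + 1) + B.length ≤ Q) (S : Finset ℕ)
    (hS : S ⊆ range (i + 1)) (θ : ℕ → ZMod (bval e + 2))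
    (hθ : ∃ g, ∑ j ∈ S, θ j *
      (((cn W B.length (muB B) ex (i + 1) j).coeff g : ℤ) : ZMod (bval e + 2)) ≠ 0) :
    2 ^ v * cnt (Q * v) (fun Z => ∑ j ∈ S, θ j * hz W e v (n + 1) N B ν ex i Z j = 0) ≤
      (2 * (2 * (n + 3) ^ 3 * P) * Q + Q) * (2 ^ v) ^ Q := by
  classical
  have := Fact.mk hp
  obtain ⟨X, hX⟩ : ∃ X : Gx W → ZMod (bval e + 2), X = fun g => ∑ j ∈ S, θ j *
      (((cn W B.length (muB B) ex (i + 1) j * Dn W ex (i + 1)).coeff g : ℤ) :
        ZMod (bval e + 2)) := ⟨_, rfl⟩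
  obtain ⟨g0, hg0⟩ := comb_ne S θ (fun j => cn W B.length (muB B) ex (i + 1) j)
    (Dn W ex (i + 1)) hθ (Dn_ne hF.sz hr2 (i + 1))
  have hS' : ∀ j ∈ S, j ≤ i := fun j hj => Nat.lt_succ_iff.1 (Finset.mem_range.1 (hS hj))
  obtain ⟨G, hG⟩ : ∃ G : Finset (Gx W), G = S.biUnion fun j =>
    (cn W B.length (muB B) ex (i + 1) j * Dn W ex (i + 1)).coeff.support := ⟨_, rfl⟩
  have hGsub : ∀ j ∈ S,
      (cn W B.length (muB B) ex (i + 1) j * Dn W ex (i + 1)).coeff.support ⊆ G := by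
    intro j hj g hg
    rw [hG]
    exact Finset.mem_biUnion.2 ⟨j, hj, hg⟩
  have hGs : ∀ g ∈ G, ∃ j ∈ S,
      g ∈ (cn W B.length (muB B) ex (i + 1) j * Dn W ex (i + 1)).coeff.support := by
    intro g hg
    rw [hG] at hg
    exact Finset.mem_biUnion.1 hg
  have hC : ∃ g ∈ G, X g ≠ 0 := by
    refine ⟨g0, ?_, by rw [hX]; exact hg0⟩
    obtain ⟨j, hj, h1⟩ := Finset.exists_ne_zero_of_sum_ne_zero hg0
    refine hGsub j hj (Finsupp.mem_support_iff.2 fun h2 => h1 ?_)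
    rw [h2, Int.cast_zero, mul_zero]
  have hmain := laur hp hr hN hc hf hP hl (κ := B.length) hQ hP1 G X hC
    (m := 2 * (n + 3) ^ 3) (fun g hg => by
      obtain ⟨j, hj, h1⟩ := hGs g hg
      exact dg_cn hF hi (hS' j hj) g h1) (fun g hg x hx => by
      obtain ⟨j, hj, h1⟩ := hGs g hg
      have h2 := par_cn hF hi (hS' j hj) g h1 x hx
      rcases x with w | k
      · exact hNW w h2
      · exact h2)
  refine le_trans (Nat.mul_le_mul_left _ (Pool.Agent.TW.cnt_mono fun Z _ hZ => ?_)) hmain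
  obtain ⟨F, hFz⟩ : ∃ F : Gx W → ZMod (bval e + 2), F = fz W e v (n + 1) N ν ex i Z := ⟨_, rfl⟩
  have hmo : Mo (Sg W (exA ex i)) F := by
    rw [hFz]
    exact (fit_z (B := B) hc).mo
  have suc : ∀ j ∈ S, Su (Sg W (exA ex i)) (cn W B.length (muB B) ex (i + 1) j) := by
    intro j hj
    refine Su.mul (su_cn hF hi (hS' j hj)).1 (Su.prod _ _ fun b hb => ?_)
    exact (su_cn (κ := B.length) (mu := muB B) hF hi
      (Nat.lt_succ_iff.1 (Finset.mem_range.1 (Finset.mem_of_mem_erase hb)))).2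
  have suD : Su (Sg W (exA ex i)) (Dn W ex (i + 1)) := Su.prod _ _ fun b hb =>
    (su_cn (κ := B.length) (mu := muB B) hF hi
      (Nat.lt_succ_iff.1 (Finset.mem_range.1 hb))).2
  have key : ∑ g ∈ G, X g * F g = ∑ j ∈ S, θ j *
      evl F (cn W B.length (muB B) ex (i + 1) j * Dn W ex (i + 1)) := by
    rw [hX]
    simp only [Finset.sum_mul]
    rw [Finset.sum_comm]
    refine Finset.sum_congr rfl fun j hj => ?_
    unfold evl
    rw [Finsupp.sum_of_support_subset _ (hGsub j hj) _ (fun g _ => by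
      rw [Int.cast_zero, zero_mul]), Finset.mul_sum]
    refine Finset.sum_congr rfl fun g _ => ?_
    rw [mul_assoc]
  rw [← hFz, key]
  by_cases h0 : evl F (Dn W ex (i + 1)) = 0
  · refine Finset.sum_eq_zero fun j hj => ?_
    rw [evl_mul hmo (suc j hj) suD, h0, mul_zero, mul_zero]
  · have hok : Ok W e v (n + 1) N B ν ex i Z := ok_of_Dn (B := B) hF hi hc hp (by
      rw [← hFz]
      exact h0)
    have h3 : ∀ j ∈ S, θ j * evl F (cn W B.length (muB B) ex (i + 1) j * Dn W ex (i + 1)) =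
        (θ j * hz W e v (n + 1) N B ν ex i Z j) *
          (evl F (Dn W ex (i + 1)) * evl F (Dn W ex (i + 1))) := by
      intro j hj
      have h4 := evl_cn hF hi hc hok (hS' j hj)
      rw [← hFz] at h4
      rw [evl_mul hmo (suc j hj) suD, h4]
      ring
    rw [Finset.sum_congr rfl h3, ← Finset.sum_mul, hZ, zero_mul]

end Pool.Agent.TC
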