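import Pool.Agent.H.MP_b2d7dd_lc.TW.MRat

/-!
# Module Cob: the coprime base

`bgcd k` = greatest common divisor (at most `k` steps). `csp k x out` looks for an entry `y` of `out`
with `g = gcd x y > 1` and replaces `x` by `x / g` and `y` by `y / g`, `g`. `cstep` does this for the
first possible pair (from the right) and removes the entries `0` and `1`. In every such step the product
of the entries is divided by `g ≥ 2`; if there is no such pair the entries are pairwise coprime. `cob`
= `K + 1` steps.
-/

namespace Pool.Agent.TC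

open Pool.Agent.TI (beqv)
open Pool.Agent.TW (bdm)
open Pool.Agent.H.MP_5be563_lc.PT

/-- One step of the Euclidean algorithm. -/
def gstep (s : List Bool × List Bool) : List Bool × List Bool :=
  bif beqv s.2 [] then s else (s.2, (bdm s.1 s.2).2)

/-- The greatest common divisor. -/
def bgcd (k : ℕ) (a b : List Bool) : List Bool := (gstep^[k] (a, b)).1

/-- Search in the list. -/
def csp (k : ℕ) (x : List Bool) (out : List (List Bool)) :
    Bool × List Bool × List (List Bool) :=
  out.foldr (fun y s => bif s.1 || ble (bgcd k s.2.1 y) [true] then (s.1, s.2.1, y :: s.2.2)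
    else (true, (bdm s.2.1 (bgcd k s.2.1 y)).1,
      (bdm y (bgcd k s.2.1 y)).1 :: bgcd k s.2.1 y :: s.2.2)) (false, x, [])

/-- One step. -/
def cstep (k : ℕ) (L : List (List Bool)) : List (List Bool) :=
  ((L.foldr (fun x s => bif s.1 then (true, x :: s.2)
    else ((csp k x s.2).1, (csp k x s.2).2.1 :: (csp k x s.2).2.2))
    ((false, []) : Bool × List (List Bool))).2).filter fun x => !ble x [true]

/-- The coprime base. -/
def cob (k K : ℕ) (L : List (List Bool)) : List (List Bool) := (cstep k)^[K + 1] L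

private theorem Cob_gstep_zero {a b : List Bool} (hb : bval b = 0) : gstep (a, b) = (a, b) := by
  have h1 : beqv b [] = true := (Pool.Agent.TI.beqv_iff _ _).2 (by rw [hb]; rfl)
  show (bif beqv b [] then (a, b) else (b, (bdm a b).2)) = (a, b)
  rw [h1, cond_true]

private theorem Cob_gstep_pos {a b : List Bool} (hb : bval b ≠ 0) :
    gstep (a, b) = (b, (bdm a b).2) := by
  have h1 : beqv b [] = false := by
    rw [Bool.eq_false_iff]
    intro h2
    exact hb ((Pool.Agent.TI.beqv_iff _ _).1 h2)
  show (bif beqv b [] then (a, b) else (b, (bdm a b).2)) = (b, (bdm a b).2)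
  rw [h1, cond_false]

private theorem Cob_gcd (n : ℕ) : ∀ a b : List Bool, bval b ≤ bval a →
    bval a * bval b < 2 ^ n → bval ((gstep^[n] (a, b)).1) = Nat.gcd (bval a) (bval b) := by
  induction n with
  | zero =>
    intro a b hab h
    have hb : bval b = 0 := by
      rcases Nat.eq_zero_or_pos (bval b) with h1 | h1
      · exact h1
      · have h2 : 1 ≤ bval a * bval b := Nat.mul_pos (h1.trans_le hab) h1
        rw [pow_zero] at h
        omega
    rw [hb, Nat.gcd_zero_right]
    rfl
  | succ n ih =>
    intro a b hab h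
    rw [Function.iterate_succ_apply]
    by_cases hb : bval b = 0
    · rw [Cob_gstep_zero hb]
      apply ih a b hab
      rw [hb, mul_zero]
      positivity
    · rw [Cob_gstep_pos hb]
      have hb0 : 0 < bval b := Nat.pos_of_ne_zero hb
      have h1 := (TW.bdm_val a b hb).2
      have h2 := Nat.mod_lt (bval a) hb0
      have h3 : 2 * (bval a % bval b) ≤ bval a := by
        have h4 := Nat.div_add_mod (bval a) (bval b)
        have h5 : 1 ≤ bval a / bval b := Nat.div_pos hab hb0
        have h6 : bval b ≤ bval b * (bval a / bval b) := Nat.le_mul_of_pos_right _ h5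
        omega
      rw [ih b (bdm a b).2 (by rw [h1]; exact h2.le) ?_, h1]
      · rw [Nat.gcd_comm (bval b), ← Nat.gcd_rec, Nat.gcd_comm]
      · rw [h1]
        have h7 : bval b * (2 * (bval a % bval b)) ≤ bval b * bval a := Nat.mul_le_mul_left _ h3
        have h8 : bval b * (2 * (bval a % bval b)) = 2 * (bval b * (bval a % bval b)) := by ring
        rw [pow_succ, mul_comm (bval a)] at h
        omega

theorem bgcd_val {k : ℕ} {a b : List Bool} (hk : 2 * (a.length + b.length) + 2 ≤ k) :
    bval (bgcd k a b) = Nat.gcd (bval a) (bval b) := by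
  obtain ⟨n, rfl⟩ : ∃ n, k = n + 1 := ⟨k - 1, by omega⟩
  have hn : a.length + b.length ≤ n := by omega
  have hA := TI.bval_lt a
  have hB := TI.bval_lt b
  have hAB : bval b * bval a < 2 ^ n := by
    calc bval b * bval a < 2 ^ b.length * 2 ^ a.length := by
          apply Nat.mul_lt_mul'' hB hA
      _ = 2 ^ (a.length + b.length) := by rw [← pow_add, add_comm]
      _ ≤ 2 ^ n := Nat.pow_le_pow_right (by norm_num) hn
  unfold bgcd
  rw [Function.iterate_succ_apply]
  by_cases hb : bval b = 0
  · rw [Cob_gstep_zero hb]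
    apply Cob_gcd n a b (by rw [hb]; exact Nat.zero_le _)
    rw [hb, mul_zero]
    positivity
  · rw [Cob_gstep_pos hb]
    have h1 := (TW.bdm_val a b hb).2
    have h2 := Nat.mod_lt (bval a) (Nat.pos_of_ne_zero hb)
    rw [Cob_gcd n b (bdm a b).2 (by rw [h1]; exact h2.le) ?_, h1]
    · rw [Nat.gcd_comm (bval b), ← Nat.gcd_rec, Nat.gcd_comm]
    · rw [h1]
      exact (Nat.mul_le_mul_left _ (Nat.mod_le _ _)).trans_lt hAB

theorem bgcd_len (k : ℕ) (a b : List Bool) :
    (bgcd k a b).length ≤ max a.length b.length := by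
  have h : ∀ n, ∀ a b : List Bool, (gstep^[n] (a, b)).1.length ≤ max a.length b.length := by
    intro n
    induction n with
    | zero =>
      intro a b
      exact le_max_left _ _
    | succ n ih =>
      intro a b
      rw [Function.iterate_succ_apply]
      by_cases hb : bval b = 0
      · rw [Cob_gstep_zero hb]
        exact ih a b
      · rw [Cob_gstep_pos hb]
        have h1 := (TW.bdm_len a b).2 hb
        refine (ih b (bdm a b).2).trans ?_
        exact max_le (le_max_right _ _) (h1.trans (le_max_right _ _))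
  exact h k a b

private theorem Cob_csp_len {k w : ℕ} {x : List Bool} (hx : x.length ≤ w) :
    ∀ out : List (List Bool), (∀ y ∈ out, y.length ≤ w) →
      (csp k x out).2.1.length ≤ w ∧ (∀ y ∈ (csp k x out).2.2, y.length ≤ w) ∧
      (csp k x out).2.2.length ≤ out.length + 1 ∧
      ((csp k x out).1 = false → (csp k x out).2.2.length = out.length) := by
  intro out
  induction out with
  | nil =>
    intro _
    exact ⟨hx, fun y hy => absurd hy (by simp [csp]), by simp [csp], fun _ => rfl⟩
  | cons y out ih =>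
    intro hy
    obtain ⟨h1, h2, h3, h4⟩ := ih fun z hz => hy z (List.mem_cons_of_mem _ hz)
    have hyw : y.length ≤ w := hy y List.mem_cons_self
    have e : csp k x (y :: out) = bif (csp k x out).1 || ble (bgcd k (csp k x out).2.1 y) [true]
        then ((csp k x out).1, (csp k x out).2.1, y :: (csp k x out).2.2)
        else (true, (bdm (csp k x out).2.1 (bgcd k (csp k x out).2.1 y)).1,
          (bdm y (bgcd k (csp k x out).2.1 y)).1 :: bgcd k (csp k x out).2.1 y ::
            (csp k x out).2.2) := rfl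
    rw [e]
    cases hc : (csp k x out).1 || ble (bgcd k (csp k x out).2.1 y) [true] with
    | true =>
      rw [cond_true]
      refine ⟨h1, ?_, ?_, ?_⟩
      · intro z hz
        rcases List.mem_cons.1 hz with rfl | hz
        · exact hyw
        · exact h2 z hz
      · show (y :: (csp k x out).2.2).length ≤ _
        rw [List.length_cons, List.length_cons]
        omega
      · intro hf
        show (y :: (csp k x out).2.2).length = _
        rw [List.length_cons, List.length_cons, h4 hf]
    | false =>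
      rw [cond_false]
      have hf : (csp k x out).1 = false := (Bool.or_eq_false_iff.1 hc).1
      have hg : (bgcd k (csp k x out).2.1 y).length ≤ w :=
        (bgcd_len _ _ _).trans (max_le h1 hyw)
      refine ⟨?_, ?_, ?_, fun h => absurd h (by simp)⟩
      · show (bdm (csp k x out).2.1 (bgcd k (csp k x out).2.1 y)).1.length ≤ w
        rw [(TW.bdm_len _ _).1]
        exact h1
      · intro z hz
        rcases List.mem_cons.1 hz with rfl | hz
        · rw [(TW.bdm_len _ _).1]
          exact hyw
        rcases List.mem_cons.1 hz with rfl | hz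
        · exact hg
        · exact h2 z hz
      · show ((bdm y (bgcd k (csp k x out).2.1 y)).1 :: bgcd k (csp k x out).2.1 y ::
            (csp k x out).2.2).length ≤ _
        rw [List.length_cons, List.length_cons, List.length_cons, h4 hf]

/-- The fold in `cstep`. -/
private def Cob_cf (k : ℕ) (L : List (List Bool)) : Bool × List (List Bool) :=
  L.foldr (fun x s => bif s.1 then (true, x :: s.2)
    else ((csp k x s.2).1, (csp k x s.2).2.1 :: (csp k x s.2).2.2))
    ((false, []) : Bool × List (List Bool))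

private theorem Cob_cf_cons (k : ℕ) (x : List Bool) (L : List (List Bool)) :
    Cob_cf k (x :: L) = bif (Cob_cf k L).1 then (true, x :: (Cob_cf k L).2)
      else ((csp k x (Cob_cf k L).2).1,
        (csp k x (Cob_cf k L).2).2.1 :: (csp k x (Cob_cf k L).2).2.2) := rfl

private theorem Cob_cstep (k : ℕ) (L : List (List Bool)) :
    cstep k L = (Cob_cf k L).2.filter fun x => !ble x [true] := rfl

private theorem Cob_cf_len {k w : ℕ} : ∀ L : List (List Bool), (∀ x ∈ L, x.length ≤ w) →
    (∀ x ∈ (Cob_cf k L).2, x.length ≤ w) ∧ (Cob_cf k L).2.length ≤ L.length + 1 ∧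
      ((Cob_cf k L).1 = false → (Cob_cf k L).2.length = L.length) := by
  intro L
  induction L with
  | nil =>
    intro _
    exact ⟨fun x hx => absurd hx (by simp [Cob_cf]), by simp [Cob_cf], fun _ => rfl⟩
  | cons x L ih =>
    intro hx
    obtain ⟨h1, h2, h3⟩ := ih fun z hz => hx z (List.mem_cons_of_mem _ hz)
    have hxw : x.length ≤ w := hx x List.mem_cons_self
    rw [Cob_cf_cons]
    cases hc : (Cob_cf k L).1 with
    | true =>
      rw [cond_true]
      refine ⟨?_, ?_, fun h => absurd h (by simp)⟩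
      · intro z hz
        rcases List.mem_cons.1 hz with rfl | hz
        · exact hxw
        · exact h1 z hz
      · show (x :: (Cob_cf k L).2).length ≤ _
        rw [List.length_cons, List.length_cons]
        omega
    | false =>
      rw [cond_false]
      obtain ⟨g1, g2, g3, g4⟩ := Cob_csp_len (k := k) hxw (Cob_cf k L).2 h1
      have h4 := h3 hc
      refine ⟨?_, ?_, ?_⟩
      · intro z hz
        rcases List.mem_cons.1 hz with rfl | hz
        · exact g1
        · exact g2 z hz
      · show ((csp k x (Cob_cf k L).2).2.1 :: (csp k x (Cob_cf k L).2).2.2).length ≤ _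
        rw [List.length_cons, List.length_cons]
        omega
      · intro hf
        show ((csp k x (Cob_cf k L).2).2.1 :: (csp k x (Cob_cf k L).2).2.2).length = _
        rw [List.length_cons, List.length_cons, g4 hf, h4]

/-- The lengths, for the running time. -/
theorem cob_len {k K w : ℕ} {L : List (List Bool)} (hw : ∀ x ∈ L, x.length ≤ w) :
    (∀ x ∈ cob k K L, x.length ≤ w) ∧ (cob k K L).length ≤ L.length + K + 1 := by
  have h : ∀ n, (∀ x ∈ (cstep k)^[n] L, x.length ≤ w) ∧
      ((cstep k)^[n] L).length ≤ L.length + n := by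
    intro n
    induction n with
    | zero => exact ⟨hw, le_rfl⟩
    | succ n ih =>
      rw [Function.iterate_succ_apply', Cob_cstep]
      obtain ⟨h1, h2, _⟩ := Cob_cf_len (k := k) _ ih.1
      refine ⟨fun x hx => h1 x (List.mem_filter.1 hx).1, ?_⟩
      refine (List.length_filter_le _ _).trans (h2.trans ?_)
      have := ih.2
      omega
  have h1 := h (K + 1)
  exact ⟨h1.1, by have := h1.2; unfold cob; omega⟩

/-- All entries are short and not zero. -/
private def Cob_inv (w : ℕ) (L : List (List Bool)) : Prop := ∀ x ∈ L, x.length ≤ w ∧ 1 ≤ bval x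

private theorem Cob_inv_cons {w : ℕ} {x : List Bool} {L : List (List Bool)} :
    Cob_inv w (x :: L) ↔ (x.length ≤ w ∧ 1 ≤ bval x) ∧ Cob_inv w L := by
  unfold Cob_inv
  rw [List.forall_mem_cons]

/-- The product of the entries. -/
private def Cob_pi (L : List (List Bool)) : ℕ := (L.map bval).prod

private theorem Cob_pi_cons (x : List Bool) (L : List (List Bool)) :
    Cob_pi (x :: L) = bval x * Cob_pi L := by
  unfold Cob_pi
  rw [List.map_cons, List.prod_cons]

private theorem Cob_csp {k w : ℕ} (hk : 4 * w + 2 ≤ k) {x : List Bool} (hx : x.length ≤ w)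
    (hx1 : 1 ≤ bval x) : ∀ out : List (List Bool), Cob_inv w out →
      (csp k x out = (false, x, out) ∧ ∀ y ∈ out, Nat.Coprime (bval x) (bval y)) ∨
      ((csp k x out).1 = true ∧ (∃ y ∈ out, ¬ Nat.Coprime (bval x) (bval y)) ∧
        2 * (bval (csp k x out).2.1 * Cob_pi (csp k x out).2.2) ≤ bval x * Cob_pi out ∧
        Cob_inv w ((csp k x out).2.1 :: (csp k x out).2.2) ∧
        ∀ S : Submonoid ℕ, (∀ z ∈ (csp k x out).2.1 :: (csp k x out).2.2, bval z ∈ S) →
          bval x ∈ S ∧ ∀ y ∈ out, bval y ∈ S) := by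
  intro out
  induction out with
  | nil =>
    intro _
    exact Or.inl ⟨rfl, fun y hy => absurd hy (by simp)⟩
  | cons y out ih =>
    intro hI
    obtain ⟨⟨hy, hy1⟩, hI2⟩ := Cob_inv_cons.1 hI
    have e : csp k x (y :: out) = bif (csp k x out).1 || ble (bgcd k (csp k x out).2.1 y) [true]
        then ((csp k x out).1, (csp k x out).2.1, y :: (csp k x out).2.2)
        else (true, (bdm (csp k x out).2.1 (bgcd k (csp k x out).2.1 y)).1,
          (bdm y (bgcd k (csp k x out).2.1 y)).1 :: bgcd k (csp k x out).2.1 y ::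
            (csp k x out).2.2) := rfl
    rcases ih hI2 with ⟨h1, h2⟩ | ⟨h1, ⟨y', hy', hyc⟩, h3, h4, h5⟩
    · rw [h1] at e
      simp only [Bool.false_or] at e
      have hg : bval (bgcd k x y) = Nat.gcd (bval x) (bval y) := bgcd_val (by omega)
      have hg1 : 1 ≤ Nat.gcd (bval x) (bval y) := Nat.gcd_pos_of_pos_left _ hx1
      have hgl : (bgcd k x y).length ≤ w := (bgcd_len _ _ _).trans (max_le hx hy)
      cases hc : ble (bgcd k x y) [true] with
      | true =>
        rw [hc, cond_true] at e
        left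
        refine ⟨e, fun z hz => ?_⟩
        rcases List.mem_cons.1 hz with rfl | hz
        · have h6 := (ble_iff _ _).1 hc
          rw [hg] at h6
          have h7 : bval [true] = 1 := rfl
          rw [h7] at h6
          exact le_antisymm h6 hg1
        · exact h2 z hz
      | false =>
        rw [hc, cond_false] at e
        right
        have h6 : ¬ bval (bgcd k x y) ≤ bval [true] := by
          intro h7
          rw [(ble_iff _ _).2 h7] at hc
          exact absurd hc (by simp)
        have h7 : bval [true] = 1 := rfl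
        rw [h7, hg] at h6
        obtain ⟨g, hgd⟩ : ∃ g, g = Nat.gcd (bval x) (bval y) := ⟨_, rfl⟩
        rw [← hgd] at h6 hg1
        have hg0 : bval (bgcd k x y) ≠ 0 := by rw [hg, ← hgd]; omega
        have hq1 : bval (bdm x (bgcd k x y)).1 = bval x / g := by
          rw [(TW.bdm_val _ _ hg0).1, hg, ← hgd]
        have hq2 : bval (bdm y (bgcd k x y)).1 = bval y / g := by
          rw [(TW.bdm_val _ _ hg0).1, hg, ← hgd]
        have hdx : g ∣ bval x := hgd ▸ Nat.gcd_dvd_left _ _
        have hdy : g ∣ bval y := hgd ▸ Nat.gcd_dvd_right _ _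
        have hmx : bval x / g * g = bval x := Nat.div_mul_cancel hdx
        have hmy : bval y / g * g = bval y := Nat.div_mul_cancel hdy
        have hpx : 1 ≤ bval x / g := Nat.div_pos (Nat.le_of_dvd hx1 hdx) hg1
        have hpy : 1 ≤ bval y / g := Nat.div_pos (Nat.le_of_dvd hy1 hdy) hg1
        rw [e]
        refine ⟨rfl, ⟨y, List.mem_cons_self, ?_⟩, ?_, ?_, ?_⟩
        · intro hco
          have h8 : Nat.gcd (bval x) (bval y) = 1 := hco
          omega
        · show 2 * (bval (bdm x (bgcd k x y)).1 *
            Cob_pi ((bdm y (bgcd k x y)).1 :: bgcd k x y :: out)) ≤ _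
          rw [Cob_pi_cons, Cob_pi_cons, Cob_pi_cons, hq1, hq2, hg, ← hgd]
          have h9 : 2 * (bval x / g * (bval y / g * (g * Cob_pi out))) =
              (2 * (bval x / g)) * ((bval y / g * g) * Cob_pi out) := by ring
          rw [h9, hmy]
          apply Nat.mul_le_mul_right
          calc 2 * (bval x / g) ≤ g * (bval x / g) := Nat.mul_le_mul_right _ (by omega)
            _ = bval x := by rw [mul_comm]; exact hmx
        · show Cob_inv w ((bdm x (bgcd k x y)).1 :: (bdm y (bgcd k x y)).1 :: bgcd k x y :: out)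
          rw [Cob_inv_cons, Cob_inv_cons, Cob_inv_cons, hq1, hq2, hg, ← hgd,
            (TW.bdm_len _ _).1, (TW.bdm_len _ _).1]
          exact ⟨⟨hx, hpx⟩, ⟨hy, hpy⟩, ⟨hgl, hg1⟩, hI2⟩
        · intro S hS
          have s1 : bval x / g ∈ S := hq1 ▸ hS _ List.mem_cons_self
          have s2 : bval y / g ∈ S := hq2 ▸ hS _ (List.mem_cons_of_mem _ List.mem_cons_self)
          have s3 : g ∈ S := by
            have h8 := hS (bgcd k x y)
              (List.mem_cons_of_mem _ (List.mem_cons_of_mem _ List.mem_cons_self))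
            rwa [hg, ← hgd] at h8
          refine ⟨hmx ▸ S.mul_mem s1 s3, fun z hz => ?_⟩
          rcases List.mem_cons.1 hz with rfl | hz
          · exact hmy ▸ S.mul_mem s2 s3
          · exact hS z (List.mem_cons_of_mem _ (List.mem_cons_of_mem _
              (List.mem_cons_of_mem _ hz)))
    · right
      rw [h1, Bool.true_or, cond_true] at e
      rw [e]
      refine ⟨rfl, ⟨y', List.mem_cons_of_mem _ hy', hyc⟩, ?_, ?_, ?_⟩
      · show 2 * (bval (csp k x out).2.1 * Cob_pi (y :: (csp k x out).2.2)) ≤ _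
        rw [Cob_pi_cons, Cob_pi_cons]
        calc 2 * (bval (csp k x out).2.1 * (bval y * Cob_pi (csp k x out).2.2))
            = bval y * (2 * (bval (csp k x out).2.1 * Cob_pi (csp k x out).2.2)) := by ring
          _ ≤ bval y * (bval x * Cob_pi out) := Nat.mul_le_mul_left _ h3
          _ = bval x * (bval y * Cob_pi out) := by ring
      · show Cob_inv w ((csp k x out).2.1 :: y :: (csp k x out).2.2)
        rw [Cob_inv_cons, Cob_inv_cons]
        rw [Cob_inv_cons] at h4
        exact ⟨h4.1, ⟨hy, hy1⟩, h4.2⟩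
      · intro S hS
        have h6 := h5 S fun z hz => by
          rcases List.mem_cons.1 hz with rfl | hz
          · exact hS _ List.mem_cons_self
          · exact hS _ (List.mem_cons_of_mem _ (List.mem_cons_of_mem _ hz))
        refine ⟨h6.1, fun z hz => ?_⟩
        rcases List.mem_cons.1 hz with rfl | hz
        · exact hS _ (List.mem_cons_of_mem _ List.mem_cons_self)
        · exact h6.2 z hz

private theorem Cob_cfs {k w : ℕ} (hk : 4 * w + 2 ≤ k) :
    ∀ L : List (List Bool), Cob_inv w L →
      (Cob_cf k L = (false, L) ∧ L.Pairwise fun x y => Nat.Coprime (bval x) (bval y)) ∨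
      ((Cob_cf k L).1 = true ∧ (¬ L.Pairwise fun x y => Nat.Coprime (bval x) (bval y)) ∧
        2 * Cob_pi (Cob_cf k L).2 ≤ Cob_pi L ∧ Cob_inv w (Cob_cf k L).2 ∧
        ∀ S : Submonoid ℕ, (∀ z ∈ (Cob_cf k L).2, bval z ∈ S) → ∀ y ∈ L, bval y ∈ S) := by
  intro L
  induction L with
  | nil =>
    intro _
    exact Or.inl ⟨rfl, List.Pairwise.nil⟩
  | cons x L ih =>
    intro hI
    obtain ⟨⟨hx, hx1⟩, hI2⟩ := Cob_inv_cons.1 hI
    have e := Cob_cf_cons k x L
    rcases ih hI2 with ⟨h1, h2⟩ | ⟨h1, h2, h3, h4, h5⟩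
    · rw [h1, cond_false] at e
      rcases Cob_csp hk hx hx1 L hI2 with ⟨g1, g2⟩ | ⟨g1, ⟨y, hy, hyc⟩, g3, g4, g5⟩
      · left
        rw [g1] at e
        exact ⟨e, List.pairwise_cons.2 ⟨g2, h2⟩⟩
      · right
        rw [e]
        refine ⟨g1, ?_, ?_, g4, ?_⟩
        · intro hp
          exact hyc ((List.pairwise_cons.1 hp).1 y hy)
        · show 2 * Cob_pi ((csp k x L).2.1 :: (csp k x L).2.2) ≤ _
          rw [Cob_pi_cons, Cob_pi_cons]
          exact g3
        · intro S hS z hz
          have h6 := g5 S hS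
          rcases List.mem_cons.1 hz with rfl | hz
          · exact h6.1
          · exact h6.2 z hz
    · right
      rw [h1, cond_true] at e
      rw [e]
      refine ⟨rfl, ?_, ?_, ?_, ?_⟩
      · intro hp
        exact h2 (List.pairwise_cons.1 hp).2
      · show 2 * Cob_pi (x :: (Cob_cf k L).2) ≤ _
        rw [Cob_pi_cons, Cob_pi_cons]
        calc 2 * (bval x * Cob_pi (Cob_cf k L).2) = bval x * (2 * Cob_pi (Cob_cf k L).2) := by
              ring
          _ ≤ bval x * Cob_pi L := Nat.mul_le_mul_left _ h3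
      · exact Cob_inv_cons.2 ⟨⟨hx, hx1⟩, h4⟩
      · intro S hS z hz
        rcases List.mem_cons.1 hz with rfl | hz
        · exact hS _ List.mem_cons_self
        · exact h5 S (fun z' hz' => hS z' (List.mem_cons_of_mem _ hz')) z hz

private theorem Cob_filter {w : ℕ} : ∀ L : List (List Bool), Cob_inv w L →
    Cob_pi (L.filter fun x => !ble x [true]) ≤ Cob_pi L ∧
    (∀ x ∈ L.filter fun x => !ble x [true], 2 ≤ bval x) ∧
    ∀ S : Submonoid ℕ, (∀ z ∈ L.filter fun x => !ble x [true], bval z ∈ S) →
      ∀ y ∈ L, bval y ∈ S := by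
  have h0 : ∀ x : List Bool, ble x [true] = true ↔ bval x ≤ 1 := fun x => ble_iff x [true]
  intro L hI
  refine ⟨?_, ?_, ?_⟩
  · induction L with
    | nil => exact le_rfl
    | cons x L ih =>
      obtain ⟨⟨hx, hx1⟩, hI2⟩ := Cob_inv_cons.1 hI
      rw [List.filter_cons, Cob_pi_cons]
      split_ifs with h1
      · rw [Cob_pi_cons]
        exact Nat.mul_le_mul_left _ (ih hI2)
      · exact (ih hI2).trans (Nat.le_mul_of_pos_left _ hx1)
  · intro x hx
    have h1 := (List.mem_filter.1 hx).2
    by_contra h2
    have h3 := (h0 x).2 (by omega)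
    rw [h3] at h1
    exact absurd h1 (by simp)
  · intro S hS y hy
    by_cases h1 : ble y [true] = true
    · have h2 := (h0 y).1 h1
      have h3 := (hI y hy).2
      have h4 : bval y = 1 := le_antisymm h2 h3
      rw [h4]
      exact S.one_mem
    · apply hS
      rw [List.mem_filter]
      exact ⟨hy, by simpa using h1⟩

private theorem Cob_one {k w : ℕ} (hk : 4 * w + 2 ≤ k) (L : List (List Bool))
    (hI : Cob_inv w L) :
    Cob_inv w (cstep k L) ∧ (∀ x ∈ cstep k L, 2 ≤ bval x) ∧
    (∀ S : Submonoid ℕ, (∀ z ∈ cstep k L, bval z ∈ S) → ∀ y ∈ L, bval y ∈ S) ∧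
    Cob_pi (cstep k L) ≤ Cob_pi L ∧
    (2 * Cob_pi (cstep k L) ≤ Cob_pi L ∨
      (cstep k L).Pairwise fun x y => Nat.Coprime (bval x) (bval y)) ∧
    ((L.Pairwise fun x y => Nat.Coprime (bval x) (bval y)) →
      (cstep k L).Pairwise fun x y => Nat.Coprime (bval x) (bval y)) := by
  rw [Cob_cstep]
  rcases Cob_cfs hk L hI with ⟨h1, h2⟩ | ⟨_, h2, h3, h4, h5⟩
  · rw [h1]
    obtain ⟨f1, f2, f3⟩ := Cob_filter L hI
    exact ⟨fun x hx => hI x (List.mem_filter.1 hx).1, f2, f3, f1, Or.inr (h2.filter _),
      fun _ => h2.filter _⟩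
  · obtain ⟨f1, f2, f3⟩ := Cob_filter _ h4
    refine ⟨fun x hx => h4 x (List.mem_filter.1 hx).1, f2, fun S hS => h5 S (f3 S hS), ?_,
      Or.inl ?_, fun hp => absurd hp h2⟩
    · omega
    · omega

/-- The coprime base. -/
theorem cob_spec {k K w : ℕ} {L : List (List Bool)} (hw : ∀ x ∈ L, x.length ≤ w)
    (h1 : ∀ x ∈ L, 1 ≤ bval x) (hk : 4 * w + 2 ≤ k) (hK : w * L.length ≤ K) :
    (∀ x ∈ cob k K L, 2 ≤ bval x) ∧
      (cob k K L).Pairwise (fun x y => Nat.Coprime (bval x) (bval y)) ∧
      (cob k K L).length ≤ K ∧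
      ∀ x ∈ L, bval x ∈ Submonoid.closure {m : ℕ | ∃ y ∈ cob k K L, m = bval y} := by
  have hI : Cob_inv w L := fun x hx => ⟨hw x hx, h1 x hx⟩
  have hpi : ∀ L : List (List Bool), Cob_inv w L → Cob_pi L ≤ 2 ^ (w * L.length) ∧
      1 ≤ Cob_pi L := by
    intro L
    induction L with
    | nil =>
      intro _
      exact ⟨by simp [Cob_pi], by simp [Cob_pi]⟩
    | cons x L ih =>
      intro hI
      obtain ⟨⟨hx, hx1⟩, hI2⟩ := Cob_inv_cons.1 hI
      obtain ⟨i1, i2⟩ := ih hI2
      rw [Cob_pi_cons, List.length_cons, mul_add, mul_one, pow_add, mul_comm (2 ^ _)]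
      refine ⟨Nat.mul_le_mul ?_ i1, Nat.mul_pos hx1 i2⟩
      exact (TI.bval_lt x).le.trans (Nat.pow_le_pow_right (by norm_num) hx)
  have hit : ∀ n, Cob_inv w ((cstep k)^[n] L) ∧
      (∀ S : Submonoid ℕ, (∀ z ∈ (cstep k)^[n] L, bval z ∈ S) → ∀ y ∈ L, bval y ∈ S) ∧
      Cob_pi ((cstep k)^[n] L) ≤ Cob_pi L ∧
      (2 ^ n * Cob_pi ((cstep k)^[n] L) ≤ Cob_pi L ∨
        ((cstep k)^[n] L).Pairwise fun x y => Nat.Coprime (bval x) (bval y)) := by
    intro n
    induction n with
    | zero => exact ⟨hI, fun S hS => hS, le_rfl, Or.inl (by simp)⟩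
    | succ n ih =>
      obtain ⟨i1, i2, i3, i4⟩ := ih
      rw [Function.iterate_succ_apply']
      obtain ⟨c1, _, c3, c4, c5, c6⟩ := Cob_one hk _ i1
      refine ⟨c1, fun S hS => i2 S (c3 S hS), c4.trans i3, ?_⟩
      rcases i4 with i4 | i4
      · rcases c5 with c5 | c5
        · left
          calc 2 ^ (n + 1) * Cob_pi (cstep k ((cstep k)^[n] L))
              = 2 ^ n * (2 * Cob_pi (cstep k ((cstep k)^[n] L))) := by ring
            _ ≤ 2 ^ n * Cob_pi ((cstep k)^[n] L) := Nat.mul_le_mul_left _ c5
            _ ≤ Cob_pi L := i4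
        · exact Or.inr c5
      · exact Or.inr (c6 i4)
  have hL := (hpi L hI).1
  have hL2 : Cob_pi L ≤ 2 ^ K := hL.trans (Nat.pow_le_pow_right (by norm_num) hK)
  obtain ⟨a1, a2, a3, a4⟩ := hit (K + 1)
  have a5 : ∀ x ∈ cob k K L, 2 ≤ bval x := by
    unfold cob
    rw [Function.iterate_succ_apply']
    exact (Cob_one hk _ (hit K).1).2.1
  refine ⟨a5, ?_, ?_, ?_⟩
  · rcases a4 with a4 | a4
    · exfalso
      have h2 := (hpi _ a1).2
      have h3 : 2 ^ (K + 1) * 1 ≤ 2 ^ (K + 1) * Cob_pi ((cstep k)^[K + 1] L) :=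
        Nat.mul_le_mul_left _ h2
      have h4 : 2 ^ (K + 1) = 2 * 2 ^ K := by ring
      have h5 : 0 < 2 ^ K := by positivity
      omega
    · exact a4
  · have h2 : ∀ M : List (List Bool), (∀ x ∈ M, 2 ≤ bval x) → 2 ^ M.length ≤ Cob_pi M := by
      intro M
      induction M with
      | nil => intro _; simp [Cob_pi]
      | cons x M ih =>
        intro hM
        rw [List.length_cons, pow_succ, mul_comm, Cob_pi_cons]
        exact Nat.mul_le_mul (hM x List.mem_cons_self)
          (ih fun z hz => hM z (List.mem_cons_of_mem _ hz))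
    have h3 := (h2 _ a5).trans (a3.trans hL2)
    exact (Nat.pow_le_pow_iff_right (by norm_num)).1 h3
  · refine a2 _ fun z hz => Submonoid.subset_closure ⟨z, hz, rfl⟩

end Pool.Agent.TC
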