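import Pool.Agent.H.MP_b2d7dd_lc.TC.Mu
import Pool.Agent.H.MP_b2d7dd_lc.TW.RunP

/-!
# Module CobP: the coprime base and the logarithms of numbers in polynomial time

Compare TW/MRat (`Poly.bdm`, `poly_mden`), TW/RunP (`poly_bl`) for iterations and folds.
-/

namespace Pool.Agent.TC

open Pool.Agent.TI (beqv)
open Pool.Agent.TW (bdm rad zv)
open Pool.Agent.TE (bl)
open Pool.Agent.H.MP_5be563_lc.PT

variable {α : Type} [Enc α]

private theorem CobP_c {β : Type} [Enc β] (b : β) : Poly (fun _ : α => b) :=
  Pool.Agent.H.MP_5be563_lc.PT.Poly.const b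

private theorem CobP_gstep (w : ℕ) (s : List Bool × List Bool) (h1 : s.1.length ≤ w)
    (h2 : s.2.length ≤ w) : (gstep s).1.length ≤ w ∧ (gstep s).2.length ≤ w := by
  unfold gstep
  cases hc : beqv s.2 [] with
  | true =>
    rw [cond_true]
    exact ⟨h1, h2⟩
  | false =>
    rw [cond_false]
    have hb : bval s.2 ≠ 0 := by
      intro h
      have h3 : beqv s.2 [] = true := (Pool.Agent.TI.beqv_iff _ _).2 (by rw [h]; rfl)
      rw [h3] at hc
      exact absurd hc (by simp)
    exact ⟨h2, ((TW.bdm_len s.1 s.2).2 hb).trans h2⟩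

private theorem CobP_giter (w : ℕ) (a b : List Bool) (h1 : a.length ≤ w) (h2 : b.length ≤ w)
    (n : ℕ) : (gstep^[n] (a, b)).1.length ≤ w ∧ (gstep^[n] (a, b)).2.length ≤ w := by
  induction n with
  | zero => exact ⟨h1, h2⟩
  | succ n ih =>
    rw [Function.iterate_succ_apply']
    exact CobP_gstep w _ ih.1 ih.2

private theorem CobP_poly_gstep {f : α → List Bool × List Bool} (hf : Poly f) :
    Poly (fun a => gstep (f a)) := by
  have h1 : Poly (fun a => (f a).1) := by fun_prop
  have h2 : Poly (fun a => (f a).2) := by fun_prop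
  have h3 : Poly (fun a => bdm (f a).1 (f a).2) := Pool.Agent.TW.Poly.bdm h1 h2
  have h4 : Poly (fun a => (bdm (f a).1 (f a).2).2) := by fun_prop
  unfold gstep
  exact Poly.cond (Pool.Agent.TI.Poly.beqv h2 (CobP_c _)) hf (Poly.pair h2 h4)

theorem poly_bgcd {fk : α → ℕ} {fa fb : α → List Bool} (hk : Poly fk) (ha : Poly fa)
    (hb : Poly fb) : Poly (fun a => bgcd (fk a) (fa a) (fb a)) := by
  have h := H.MP_5be563_lc.PT.Poly.iterate
    (f := fun (_ : α) (s : List Bool × List Bool) => gstep s)
    (s := fun a => (fa a, fb a))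
    (n := fk) (B := fun a => 8 * (sz (fa a) + sz (fb a)) + 3)
    (CobP_poly_gstep (by fun_prop)) (Poly.pair ha hb) hk
    (((PBdd.const 8).mul (ha.sz_le.add hb.sz_le)).add (PBdd.const 3)) (by
      intro a k _
      change sz (gstep^[k] (fa a, fb a)) ≤ _
      have g1 := (sz_bool_list (fa a)).1
      have g2 := (sz_bool_list (fb a)).1
      obtain ⟨h1, h2⟩ := CobP_giter (sz (fa a) + sz (fb a)) (fa a) (fb a) (by omega) (by omega) k
      have i1 := (sz_bool_list (gstep^[k] (fa a, fb a)).1).2
      have i2 := (sz_bool_list (gstep^[k] (fa a, fb a)).2).2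
      rw [sz_prod]
      omega)
  unfold bgcd
  exact H.MP_5be563_lc.PT.Poly.fst.comp h

private theorem CobP_csp_cons (k : ℕ) (x y : List Bool) (out : List (List Bool)) :
    csp k x (y :: out) = bif (csp k x out).1 || ble (bgcd k (csp k x out).2.1 y) [true]
        then ((csp k x out).1, (csp k x out).2.1, y :: (csp k x out).2.2)
        else (true, (bdm (csp k x out).2.1 (bgcd k (csp k x out).2.1 y)).1,
          (bdm y (bgcd k (csp k x out).2.1 y)).1 :: bgcd k (csp k x out).2.1 y ::
            (csp k x out).2.2) := rfl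

private theorem CobP_csp_len {k w : ℕ} {x : List Bool} (hx : x.length ≤ w) :
    ∀ out : List (List Bool), (∀ y ∈ out, y.length ≤ w) →
      (csp k x out).2.1.length ≤ w ∧ (∀ y ∈ (csp k x out).2.2, y.length ≤ w) ∧
      (csp k x out).2.2.length ≤ out.length + 1 ∧
      ((csp k x out).1 = false → (csp k x out).2.2.length = out.length) := by
  intro out
  induction out with
  | nil =>
    intro _
    exact ⟨hx, fun y hy => absurd hy (by simp [csp]), by simp [csp], fun _ => rfl⟩
  | cons y out ih =>
    intro hy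
    obtain ⟨h1, h2, h3, h4⟩ := ih fun z hz => hy z (List.mem_cons_of_mem _ hz)
    have hyw : y.length ≤ w := hy y List.mem_cons_self
    rw [CobP_csp_cons]
    cases hc : (csp k x out).1 || ble (bgcd k (csp k x out).2.1 y) [true] with
    | true =>
      rw [cond_true]
      refine ⟨h1, ?_, ?_, ?_⟩
      · intro z hz
        rcases List.mem_cons.1 hz with rfl | hz
        · exact hyw
        · exact h2 z hz
      · show (y :: (csp k x out).2.2).length ≤ _
        rw [List.length_cons, List.length_cons]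
        omega
      · intro hf
        show (y :: (csp k x out).2.2).length = _
        rw [List.length_cons, List.length_cons, h4 hf]
    | false =>
      rw [cond_false]
      have hf : (csp k x out).1 = false := (Bool.or_eq_false_iff.1 hc).1
      have hg : (bgcd k (csp k x out).2.1 y).length ≤ w :=
        (bgcd_len _ _ _).trans (max_le h1 hyw)
      refine ⟨?_, ?_, ?_, fun h => absurd h (by simp)⟩
      · show (bdm (csp k x out).2.1 (bgcd k (csp k x out).2.1 y)).1.length ≤ w
        rw [(TW.bdm_len _ _).1]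
        exact h1
      · intro z hz
        rcases List.mem_cons.1 hz with rfl | hz
        · rw [(TW.bdm_len _ _).1]
          exact hyw
        rcases List.mem_cons.1 hz with rfl | hz
        · exact hg
        · exact h2 z hz
      · show ((bdm y (bgcd k (csp k x out).2.1 y)).1 :: bgcd k (csp k x out).2.1 y ::
            (csp k x out).2.2).length ≤ _
        rw [List.length_cons, List.length_cons, List.length_cons, h4 hf]

/-- Sizes of lists of short lists. -/
private theorem CobP_szL {w n : ℕ} {L : List (List Bool)} (h : ∀ x ∈ L, x.length ≤ w)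
    (hn : L.length ≤ n) : sz L ≤ n * (4 * w + 2) + 1 := by
  refine (sz_le_of_forall L (4 * w + 1) fun x hx => ?_).trans ?_
  · have h1 := h x hx
    have h2 := (sz_bool_list x).2
    omega
  · exact Nat.add_le_add_right (Nat.mul_le_mul_right _ hn) 1

private theorem CobP_mem_len {L : List (List Bool)} : ∀ x ∈ L, x.length ≤ sz L := by
  intro x hx
  have h1 := sz_mem_lt hx
  have h2 := (sz_bool_list x).1
  omega

private theorem CobP_poly_csp {fk : α → ℕ} {fx : α → List Bool} {fo : α → List (List Bool)}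
    (hk : Poly fk) (hx : Poly fx) (ho : Poly fo) :
    Poly (fun a => csp (fk a) (fx a) (fo a)) := by
  have hk1 : Poly (fun p : α × (Bool × List Bool × List (List Bool)) × List Bool => fk p.1) :=
    hk.comp Poly.fst
  have hy : Poly (fun p : α × (Bool × List Bool × List (List Bool)) × List Bool => p.2.2) := by
    fun_prop
  have hs1 : Poly (fun p : α × (Bool × List Bool × List (List Bool)) × List Bool => p.2.1.1) := by
    fun_prop
  have hs2 : Poly (fun p : α × (Bool × List Bool × List (List Bool)) × List Bool =>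
      p.2.1.2.1) := by fun_prop
  have hs3 : Poly (fun p : α × (Bool × List Bool × List (List Bool)) × List Bool =>
      p.2.1.2.2) := by fun_prop
  have hg : Poly (fun p : α × (Bool × List Bool × List (List Bool)) × List Bool =>
      bgcd (fk p.1) p.2.1.2.1 p.2.2) := poly_bgcd hk1 hs2 hy
  have hd1 : Poly (fun p : α × (Bool × List Bool × List (List Bool)) × List Bool =>
      (bdm p.2.1.2.1 (bgcd (fk p.1) p.2.1.2.1 p.2.2)).1) :=
    Poly.fst.comp (Pool.Agent.TW.Poly.bdm hs2 hg)
  have hd2 : Poly (fun p : α × (Bool × List Bool × List (List Bool)) × List Bool =>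
      (bdm p.2.2 (bgcd (fk p.1) p.2.1.2.1 p.2.2)).1) :=
    Poly.fst.comp (Pool.Agent.TW.Poly.bdm hy hg)
  have hf : Poly (fun p : α × (Bool × List Bool × List (List Bool)) × List Bool =>
      bif p.2.1.1 || ble (bgcd (fk p.1) p.2.1.2.1 p.2.2) [true]
        then (p.2.1.1, p.2.1.2.1, p.2.2 :: p.2.1.2.2)
        else (true, (bdm p.2.1.2.1 (bgcd (fk p.1) p.2.1.2.1 p.2.2)).1,
          (bdm p.2.2 (bgcd (fk p.1) p.2.1.2.1 p.2.2)).1 :: bgcd (fk p.1) p.2.1.2.1 p.2.2 ::
            p.2.1.2.2)) :=
    Poly.cond (Poly.or hs1 (Poly.ble hg (CobP_c _)))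
      (Poly.pair hs1 (Poly.pair hs2 (Poly.lcons hy hs3)))
      (Poly.pair (CobP_c _) (Poly.pair hd1 (Poly.lcons hd2 (Poly.lcons hg hs3))))
  unfold csp
  exact Poly.foldr
    (f := fun p : α × (Bool × List Bool × List (List Bool)) × List Bool =>
      bif p.2.1.1 || ble (bgcd (fk p.1) p.2.1.2.1 p.2.2) [true]
        then (p.2.1.1, p.2.1.2.1, p.2.2 :: p.2.1.2.2)
        else (true, (bdm p.2.1.2.1 (bgcd (fk p.1) p.2.1.2.1 p.2.2)).1,
          (bdm p.2.2 (bgcd (fk p.1) p.2.1.2.1 p.2.2)).1 :: bgcd (fk p.1) p.2.1.2.1 p.2.2 ::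
            p.2.1.2.2))
    (l := fo) (s0 := fun a => (false, fx a, ([] : List (List Bool))))
    (B := fun a => 4 * (sz (fx a) + sz (fo a)) + 1 +
      ((sz (fo a) + 1) * (4 * (sz (fx a) + sz (fo a)) + 2) + 1) + 5) hf ho
    (Poly.pair (CobP_c _) (Poly.pair hx (CobP_c _)))
    (((((PBdd.const 4).mul (hx.sz_le.add ho.sz_le)).add (PBdd.const 1)).add
      (((ho.sz_le.add (PBdd.const 1)).mul (((PBdd.const 4).mul (hx.sz_le.add ho.sz_le)).add
        (PBdd.const 2))).add (PBdd.const 1))).add (PBdd.const 5)) (by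
      intro a l₁ l₂ h
      show sz (csp (fk a) (fx a) l₂) ≤ _
      have hx1 : (fx a).length ≤ sz (fx a) + sz (fo a) := by
        have := (sz_bool_list (fx a)).1
        omega
      have hl : ∀ y ∈ l₂, y.length ≤ sz (fx a) + sz (fo a) := by
        intro y hy
        have h1 := CobP_mem_len y (show y ∈ fo a by rw [h]; exact List.mem_append_right _ hy)
        omega
      obtain ⟨h1, h2, h3, _⟩ := CobP_csp_len (k := fk a) hx1 l₂ hl
      have h4 : l₂.length ≤ sz (fo a) := by
        have h5 := length_lt_sz (fo a)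
        have h6 : l₂.length ≤ (fo a).length := by rw [h, List.length_append]; omega
        omega
      have h7 := CobP_szL h2 (h3.trans (Nat.add_le_add_right h4 1))
      have h8 := (sz_bool_list (csp (fk a) (fx a) l₂).2.1).2
      have h9 := sz_bool_le (csp (fk a) (fx a) l₂).1
      rw [sz_prod, sz_prod (csp (fk a) (fx a) l₂).2]
      omega)

/-- The fold in `cstep`. -/
private def CobP_cf (k : ℕ) (L : List (List Bool)) : Bool × List (List Bool) :=
  L.foldr (fun x s => bif s.1 then (true, x :: s.2)
    else ((csp k x s.2).1, (csp k x s.2).2.1 :: (csp k x s.2).2.2))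
    ((false, []) : Bool × List (List Bool))

private theorem CobP_cf_cons (k : ℕ) (x : List Bool) (L : List (List Bool)) :
    CobP_cf k (x :: L) = bif (CobP_cf k L).1 then (true, x :: (CobP_cf k L).2)
      else ((csp k x (CobP_cf k L).2).1,
        (csp k x (CobP_cf k L).2).2.1 :: (csp k x (CobP_cf k L).2).2.2) := rfl

private theorem CobP_cstep (k : ℕ) (L : List (List Bool)) :
    cstep k L = (CobP_cf k L).2.filter fun x => !ble x [true] := rfl

private theorem CobP_cf_len {k w : ℕ} : ∀ L : List (List Bool), (∀ x ∈ L, x.length ≤ w) →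
    (∀ x ∈ (CobP_cf k L).2, x.length ≤ w) ∧ (CobP_cf k L).2.length ≤ L.length + 1 ∧
      ((CobP_cf k L).1 = false → (CobP_cf k L).2.length = L.length) := by
  intro L
  induction L with
  | nil =>
    intro _
    exact ⟨fun x hx => absurd hx (by simp [CobP_cf]), by simp [CobP_cf], fun _ => rfl⟩
  | cons x L ih =>
    intro hx
    obtain ⟨h1, h2, h3⟩ := ih fun z hz => hx z (List.mem_cons_of_mem _ hz)
    have hxw : x.length ≤ w := hx x List.mem_cons_self
    rw [CobP_cf_cons]
    cases hc : (CobP_cf k L).1 with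
    | true =>
      rw [cond_true]
      refine ⟨?_, ?_, fun h => absurd h (by simp)⟩
      · intro z hz
        rcases List.mem_cons.1 hz with rfl | hz
        · exact hxw
        · exact h1 z hz
      · show (x :: (CobP_cf k L).2).length ≤ _
        rw [List.length_cons, List.length_cons]
        omega
    | false =>
      rw [cond_false]
      obtain ⟨g1, g2, g3, g4⟩ := CobP_csp_len (k := k) hxw (CobP_cf k L).2 h1
      have h4 := h3 hc
      refine ⟨?_, ?_, ?_⟩
      · intro z hz
        rcases List.mem_cons.1 hz with rfl | hz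
        · exact g1
        · exact g2 z hz
      · show ((csp k x (CobP_cf k L).2).2.1 :: (csp k x (CobP_cf k L).2).2.2).length ≤ _
        rw [List.length_cons, List.length_cons]
        omega
      · intro hf
        show ((csp k x (CobP_cf k L).2).2.1 :: (csp k x (CobP_cf k L).2).2.2).length = _
        rw [List.length_cons, List.length_cons, g4 hf, h4]

private theorem CobP_poly_cf {fk : α → ℕ} {fL : α → List (List Bool)} (hk : Poly fk)
    (hL : Poly fL) : Poly (fun a => CobP_cf (fk a) (fL a)) := by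
  have hk1 : Poly (fun p : α × (Bool × List (List Bool)) × List Bool => fk p.1) :=
    hk.comp Poly.fst
  have hx : Poly (fun p : α × (Bool × List (List Bool)) × List Bool => p.2.2) := by fun_prop
  have hs1 : Poly (fun p : α × (Bool × List (List Bool)) × List Bool => p.2.1.1) := by fun_prop
  have hs2 : Poly (fun p : α × (Bool × List (List Bool)) × List Bool => p.2.1.2) := by fun_prop
  have hc : Poly (fun p : α × (Bool × List (List Bool)) × List Bool =>
      csp (fk p.1) p.2.2 p.2.1.2) := CobP_poly_csp hk1 hx hs2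
  have hc1 : Poly (fun p : α × (Bool × List (List Bool)) × List Bool =>
      (csp (fk p.1) p.2.2 p.2.1.2).1) := Poly.fst.comp hc
  have hc2 : Poly (fun p : α × (Bool × List (List Bool)) × List Bool =>
      (csp (fk p.1) p.2.2 p.2.1.2).2.1) := Poly.fst.comp (Poly.snd.comp hc)
  have hc3 : Poly (fun p : α × (Bool × List (List Bool)) × List Bool =>
      (csp (fk p.1) p.2.2 p.2.1.2).2.2) := Poly.snd.comp (Poly.snd.comp hc)
  have hf : Poly (fun p : α × (Bool × List (List Bool)) × List Bool =>
      bif p.2.1.1 then (true, p.2.2 :: p.2.1.2)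
      else ((csp (fk p.1) p.2.2 p.2.1.2).1,
        (csp (fk p.1) p.2.2 p.2.1.2).2.1 :: (csp (fk p.1) p.2.2 p.2.1.2).2.2)) :=
    Poly.cond hs1 (Poly.pair (CobP_c _) (Poly.lcons hx hs2))
      (Poly.pair hc1 (Poly.lcons hc2 hc3))
  unfold CobP_cf
  exact Poly.foldr
    (f := fun p : α × (Bool × List (List Bool)) × List Bool =>
      bif p.2.1.1 then (true, p.2.2 :: p.2.1.2)
      else ((csp (fk p.1) p.2.2 p.2.1.2).1,
        (csp (fk p.1) p.2.2 p.2.1.2).2.1 :: (csp (fk p.1) p.2.2 p.2.1.2).2.2))
    (l := fL) (s0 := fun _ => ((false, []) : Bool × List (List Bool)))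
    (B := fun a => ((sz (fL a) + 1) * (4 * sz (fL a) + 2) + 1) + 4) hf hL (CobP_c _)
    ((((hL.sz_le.add (PBdd.const 1)).mul (((PBdd.const 4).mul hL.sz_le).add
        (PBdd.const 2))).add (PBdd.const 1)).add (PBdd.const 4)) (by
      intro a l₁ l₂ h
      show sz (CobP_cf (fk a) l₂) ≤ _
      have hl : ∀ y ∈ l₂, y.length ≤ sz (fL a) := by
        intro y hy
        exact CobP_mem_len y (show y ∈ fL a by rw [h]; exact List.mem_append_right _ hy)
      obtain ⟨h2, h3, _⟩ := CobP_cf_len (k := fk a) l₂ hl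
      have h4 : l₂.length ≤ sz (fL a) := by
        have h5 := length_lt_sz (fL a)
        have h6 : l₂.length ≤ (fL a).length := by rw [h, List.length_append]; omega
        omega
      have h7 := CobP_szL h2 (h3.trans (Nat.add_le_add_right h4 1))
      have h9 := sz_bool_le (CobP_cf (fk a) l₂).1
      rw [sz_prod]
      omega)

theorem poly_cstep {fk : α → ℕ} {fL : α → List (List Bool)} (hk : Poly fk) (hL : Poly fL) :
    Poly (fun a => cstep (fk a) (fL a)) := by
  have h1 : Poly (fun a => (CobP_cf (fk a) (fL a)).2) := Poly.snd.comp (CobP_poly_cf hk hL)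
  have h2 : Poly (fun p : α × List Bool => !ble p.2 [true]) :=
    Poly.not (Poly.ble (by fun_prop) (CobP_c _))
  exact Pool.Agent.H.MP_5be563_lc.PT.Poly.filter
    (f := fun (_ : α) (x : List Bool) => !ble x [true]) h2 h1

private theorem CobP_iter_len {k w n : ℕ} {L : List (List Bool)} (hw : ∀ x ∈ L, x.length ≤ w) :
    (∀ x ∈ (cstep k)^[n] L, x.length ≤ w) ∧ ((cstep k)^[n] L).length ≤ L.length + n := by
  cases n with
  | zero => exact ⟨hw, le_rfl⟩
  | succ n =>
    have h := cob_len (k := k) (K := n) hw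
    exact ⟨h.1, h.2⟩

theorem poly_cob {fk fK : α → ℕ} {fL : α → List (List Bool)} (hk : Poly fk) (hK : Poly fK)
    (hL : Poly fL) : Poly (fun a => cob (fk a) (fK a) (fL a)) := by
  have hf : Poly (fun p : α × List (List Bool) => cstep (fk p.1) p.2) :=
    poly_cstep (hk.comp Poly.fst) Poly.snd
  unfold cob
  exact H.MP_5be563_lc.PT.Poly.iterate
    (f := fun (a : α) (s : List (List Bool)) => cstep (fk a) s) (s := fL)
    (n := fun a => fK a + 1)
    (B := fun a => (sz (fL a) + (sz (fK a) + 1)) * (4 * sz (fL a) + 2) + 1)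
    hf hL (Poly.add hK (CobP_c 1))
    (((hL.sz_le.add (hK.sz_le.add (PBdd.const 1))).mul (((PBdd.const 4).mul hL.sz_le).add
      (PBdd.const 2))).add (PBdd.const 1)) (by
      intro a n hn
      obtain ⟨h1, h2⟩ := CobP_iter_len (k := fk a) (n := n) (CobP_mem_len (L := fL a))
      refine CobP_szL h1 (h2.trans ?_)
      have h3 := length_lt_sz (fL a)
      have h4 := sz_nat (fK a)
      omega)

private theorem CobP_poly_vstep {fe fP fγ : α → List Bool} {fs : α → List Bool × List Bool}
    (he : Poly fe) (hP : Poly fP) (hγ : Poly fγ) (hs : Poly fs) :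
    Poly (fun a => vstep (fe a) (fP a) (fγ a) (fs a)) := by
  have h1 : Poly (fun a => (fs a).1) := by fun_prop
  have h2 : Poly (fun a => (fs a).2) := by fun_prop
  have h3 : Poly (fun a => bdm (fs a).1 (fP a)) := Pool.Agent.TW.Poly.bdm h1 hP
  have h4 : Poly (fun a => (bdm (fs a).1 (fP a)).1) := Poly.fst.comp h3
  have h5 : Poly (fun a => (bdm (fs a).1 (fP a)).2) := Poly.snd.comp h3
  unfold vstep
  exact Poly.cond (Poly.ble h5 (CobP_c _)) (Poly.pair h4 (Pool.Agent.TW.Poly.rad he h2 hγ)) hs

private theorem CobP_vstep (w : ℕ) (e P γ : List Bool) (he : e.length + 4 ≤ w)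
    (s : List Bool × List Bool) (h1 : s.1.length ≤ w) (h2 : s.2.length ≤ w) :
    (vstep e P γ s).1.length ≤ w ∧ (vstep e P γ s).2.length ≤ w := by
  unfold vstep
  cases ble (bdm s.1 P).2 [] with
  | true =>
    rw [cond_true]
    refine ⟨?_, (TW.length_rad_le e _ _).trans he⟩
    show (bdm s.1 P).1.length ≤ w
    rw [(TW.bdm_len _ _).1]
    exact h1
  | false =>
    rw [cond_false]
    exact ⟨h1, h2⟩

private theorem CobP_viter (w : ℕ) (e P γ : List Bool) (he : e.length + 4 ≤ w)
    (s : List Bool × List Bool) (h1 : s.1.length ≤ w) (h2 : s.2.length ≤ w) (n : ℕ) :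
    ((vstep e P γ)^[n] s).1.length ≤ w ∧ ((vstep e P γ)^[n] s).2.length ≤ w := by
  induction n with
  | zero => exact ⟨h1, h2⟩
  | succ n ih =>
    rw [Function.iterate_succ_apply']
    exact CobP_vstep w e P γ he _ ih.1 ih.2

theorem poly_vadd {fe : α → List Bool} {fm : α → ℕ} {fx fP fγ facc : α → List Bool}
    (he : Poly fe) (hm : Poly fm) (hx : Poly fx) (hP : Poly fP) (hγ : Poly fγ)
    (hacc : Poly facc) :
    Poly (fun a => vadd (fe a) (fm a) (fx a) (fP a) (fγ a) (facc a)) := by
  have hf : Poly (fun p : α × (List Bool × List Bool) => vstep (fe p.1) (fP p.1) (fγ p.1) p.2) :=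
    CobP_poly_vstep (he.comp Poly.fst) (hP.comp Poly.fst) (hγ.comp Poly.fst) Poly.snd
  have h := H.MP_5be563_lc.PT.Poly.iterate
    (f := fun (a : α) (s : List Bool × List Bool) => vstep (fe a) (fP a) (fγ a) s)
    (s := fun a => (fx a, facc a)) (n := fm)
    (B := fun a => 8 * (sz (fe a) + 4 + sz (fx a) + sz (facc a)) + 3)
    hf (Poly.pair hx hacc) hm
    (((PBdd.const 8).mul (((he.sz_le.add (PBdd.const 4)).add hx.sz_le).add hacc.sz_le)).add
      (PBdd.const 3)) (by
      intro a n _
      have g0 := (sz_bool_list (fe a)).1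
      have g1 := (sz_bool_list (fx a)).1
      have g2 := (sz_bool_list (facc a)).1
      obtain ⟨h1, h2⟩ := CobP_viter (sz (fe a) + 4 + sz (fx a) + sz (facc a)) (fe a) (fP a) (fγ a)
        (by omega) (fx a, facc a) (by show (fx a).length ≤ _; omega)
        (by show (facc a).length ≤ _; omega) n
      generalize (vstep (fe a) (fP a) (fγ a))^[n] (fx a, facc a) = s at h1 h2 ⊢
      have i1 := (sz_bool_list s.1).2
      have i2 := (sz_bool_list s.2).2
      rw [sz_prod]
      omega)
  unfold vadd
  exact H.MP_5be563_lc.PT.Poly.snd.comp h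

theorem poly_lcv {fe : α → List Bool} {fv fc fm : α → ℕ} {fB : α → List (List Bool)}
    {fZ fx : α → List Bool} (he : Poly fe) (hv : Poly fv) (hc : Poly fc) (hm : Poly fm)
    (hB : Poly fB) (hZ : Poly fZ) (hx : Poly fx) :
    Poly (fun a => lcv (fe a) (fv a) (fc a) (fm a) (fB a) (fZ a) (fx a)) := by
  have hk : Poly (fun p : α × List Bool × ℕ => p.2.2) := by fun_prop
  have hac : Poly (fun p : α × List Bool × ℕ => p.2.1) := by fun_prop
  have hP : Poly (fun p : α × List Bool × ℕ => (fB p.1).getD p.2.2 []) :=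
    Poly.getD hk (hB.comp Poly.fst) (CobP_c _)
  have hj : Poly (fun p : α × List Bool × ℕ => 3 * fc p.1 + p.2.2) :=
    Poly.add (Poly.mul (CobP_c 3) (hc.comp Poly.fst)) hk
  have hbl : Poly (fun p : α × List Bool × ℕ => bl (fv p.1) (fZ p.1) (3 * fc p.1 + p.2.2)) :=
    TW.poly_bl (hv.comp Poly.fst) (hZ.comp Poly.fst) hj
  have hf : Poly (fun p : α × List Bool × ℕ => vadd (fe p.1) (fm p.1) (fx p.1)
      ((fB p.1).getD p.2.2 []) (bl (fv p.1) (fZ p.1) (3 * fc p.1 + p.2.2)) p.2.1) :=
    poly_vadd (he.comp Poly.fst) (hm.comp Poly.fst) (hx.comp Poly.fst) hP hbl hac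
  unfold lcv
  exact Poly.foldr (f := fun p : α × List Bool × ℕ => vadd (fe p.1) (fm p.1) (fx p.1)
      ((fB p.1).getD p.2.2 []) (bl (fv p.1) (fZ p.1) (3 * fc p.1 + p.2.2)) p.2.1)
    (l := fun a => List.range (fB a).length) (s0 := fun _ => ([] : List Bool))
    (B := fun a => 4 * (sz (fe a) + 4) + 1) hf (Poly.range (Poly.length hB)) (CobP_c _)
    (((PBdd.const 4).mul (he.sz_le.add (PBdd.const 4))).add (PBdd.const 1)) (by
      intro a l₁ l₂ _
      have key : ∀ l : List ℕ, (l.foldr (fun k acc => vadd (fe a) (fm a) (fx a)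
          ((fB a).getD k []) (bl (fv a) (fZ a) (3 * fc a + k)) acc) []).length ≤
          (fe a).length + 4 := by
        intro l
        induction l with
        | nil => exact Nat.zero_le _
        | cons k l ih => exact vadd_len (fe a) (fm a) (fx a) _ _ _ ih
      have h1 := key l₂
      refine (sz_bool_list _).2.trans ?_
      have h2 := length_lt_sz (fe a)
      refine Nat.add_le_add_right (Nat.mul_le_mul_left 4 (h1.trans ?_)) 1
      omega)

end Pool.Agent.TC
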