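import Pool.Agent.H.MP_b2d7dd_lc.TI.Defs

/-!
# Definitions used in the statement

Terms in which no exponent has a constant summand. The terms, their values, their strings and the
class coRP are defined in `Pool.Agent.TI` (module TI/Defs).
-/

namespace Pool.Agent.TC

open Pool.Agent.TI

/-- The term is not built from `1` by multiplications and exponentiations with base `1`: it is a
variable, a sum, a product with a factor of this kind or a power of a term of this kind. -/
def Big : Tm → Prop
  | .one => False
  | .var _ => True
  | .add _ _ => True
  | .mul s t => Big s ∨ Big t
  | .pow s _ => Big s

/-- The term has no constant summand: multiplied out, every summand contains a variable or a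
power. -/
def NC : Tm → Prop
  | .one => False
  | .var _ => True
  | .add s t => NC s ∧ NC t
  | .mul s t => NC s ∨ NC t
  | .pow _ _ => True

/-- No exponent has a constant summand (and no base is a product of ones). -/
def CT : Tm → Prop
  | .one => True
  | .var _ => True
  | .add s t => CT s ∧ CT t
  | .mul s t => CT s ∧ CT t
  | .pow s t => Big s ∧ NC t ∧ CT s ∧ CT t

/-- The strings of the identities `s = t` which hold in `N_HS`, where no exponent in `s` and `t` has a
constant summand. -/
def identitiesCT : Set (List Bool) :=
  {x | ∃ s t : Tm, CT s ∧ CT t ∧ Valid s t ∧ x = s.code ++ t.code}

end Pool.Agent.TC
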