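import Pool.Agent.H.MP_b2d7dd_lc.TC.Sml
import Pool.Agent.H.MP_b2d7dd_lc.TW.Lift
import Pool.Agent.H.MP_b2d7dd_lc.TW.MElP

/-!
# Module Det: the new table

The same as TN/Det (copy and adapt) for general vectors.
-/

namespace Pool.Agent.TC

open Finset Pool.Agent.H.MP_5be563_lc.PT
open Pool.Agent.TW (evr pivots ltab irow NB)
open Pool.Agent.TW (zv lift dprod erun mem_ltab lift_cong pivots_val erun_sound erun_complete pow_eq_inv
  lift_complete)

variable {M : Type} [AddCommGroup M] [IsAddTorsionFree M] {Γ : Type}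

theorem coh_ltab {vec : ℕ → M} {B : ℕ → Γ →₀ ℤ} {L m : ℕ} (hE : Eqv vec B L)
    (hB : ∀ a < L, ∀ g, |B a g| ≤ ((2 ^ m : ℕ) : ℤ))
    {e NB' PB : List Bool} (k : ℕ) (hN : NB L (2 ^ m) ≤ bval NB')
    (hr : (L + 1) * bval NB' * bval PB < bval e + 2) (rows : List (List (List Bool)))
    (hlen : ∀ v ∈ rows, v.length = L)
    (hrel : ∀ v ∈ rows, ∀ κ : ℕ → ℤ, ∑ a ∈ range L, κ a • vec a = 0 →
      ∑ a ∈ range L, ((κ a : ℤ) : ZMod (bval e + 2)) * evr e v a = 0) :
    Coh vec L ((ltab e NB' PB k L (pivots e L rows)).map irow) := by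
  intro κ hκ row hrow
  obtain ⟨l, hl, rfl⟩ := List.mem_map.1 hrow
  obtain ⟨⟨prow, hp, rfl⟩, hb⟩ := mem_ltab hl
  refine coh_of_small hE hB hN hr _ hb ?_ κ hκ
  intro κ' hκ'
  rw [← ZMod.intCast_zmod_eq_zero_iff_dvd]
  have hmem : evr e prow ∈ (erun (fun x : ZMod (bval e + 2) => x ^ bval e) L
      (rows.map (evr e))).1 := by
    rw [← pivots_val e L rows hlen]
    exact List.mem_map_of_mem hp
  have h1 := erun_sound (fun x : ZMod (bval e + 2) => x ^ bval e) L (rows.map (evr e))
    L (fun a => ((κ' a : ℤ) : ZMod (bval e + 2))) (by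
      intro v hv
      obtain ⟨v0, hv0, rfl⟩ := List.mem_map.1 hv
      exact hrel v0 hv0 κ' hκ') _ hmem
  rw [Int.cast_sum]
  calc ∑ a ∈ range L, ((κ' a * irow (lift e NB' PB k L prow) a : ℤ) :
        ZMod (bval e + 2)) =
      ∑ a ∈ range L, zv e (dprod e NB' k L prow) *
        (((κ' a : ℤ) : ZMod (bval e + 2)) * evr e prow a) := by
        refine Finset.sum_congr rfl fun a ha => ?_
        rw [Int.cast_mul, lift_cong e NB' PB k L prow (mem_range.1 ha)]
        show _ = zv e (dprod e NB' k L prow) *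
          (((κ' a : ℤ) : ZMod (bval e + 2)) * zv e (prow.getD a []))
        ring
    _ = 0 := by
        rw [← Finset.mul_sum, h1, mul_zero]

/-- The relation between an exponent function and the basis, for a row. -/
theorem Det_row {vec : ℕ → M} {B : ℕ → Γ →₀ ℤ} {L : ℕ} {e : List Bool} {N : ℕ} {S : Finset ℕ} {D : ℤ} {n : ℕ → ℕ → ℤ}
    (hB : Bas vec B L N S D n) {f : ℕ → ZMod (bval e + 2)}
    (hrel : ∀ κ : ℕ → ℤ, ∑ a ∈ range L, κ a • vec a = 0 →
      ∑ a ∈ range L, ((κ a : ℤ) : ZMod (bval e + 2)) * f a = 0) {a : ℕ}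
    (ha : a < L) : (D : ZMod (bval e + 2)) * f a = ∑ s ∈ S, (n a s : ZMod (bval e + 2)) * f s := by
  have h1 : ∑ b ∈ range L, ((if b = a then D else 0) - n a b) • vec b = 0 := by
    simp only [sub_smul, Finset.sum_sub_distrib]
    have e1 : ∑ b ∈ range L, (if b = a then D else 0) • vec b = D • vec a := by
      rw [Finset.sum_eq_single_of_mem a (mem_range.2 ha)]
      · rw [if_pos rfl]
      · intro b _ hb
        rw [if_neg hb, zero_smul]
    have e2 : ∑ b ∈ range L, n a b • vec b = ∑ s ∈ S, n a s • vec s := by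
      symm
      refine Finset.sum_subset hB.sub fun b _ hb => ?_
      rw [hB.supp a b hb, zero_smul]
    rw [e1, e2, hB.rel a ha, sub_self]
  have h2 := hrel _ h1
  simp only [Int.cast_sub, sub_mul, Finset.sum_sub_distrib] at h2
  have e1 : ∑ b ∈ range L, (((if b = a then D else 0 : ℤ)) : ZMod (bval e + 2)) * f b =
      D * f a := by
    rw [Finset.sum_eq_single_of_mem a (mem_range.2 ha)]
    · rw [if_pos rfl]
    · intro b _ hb
      rw [if_neg hb, Int.cast_zero, zero_mul]
  have e2 : ∑ b ∈ range L, (n a b : ZMod (bval e + 2)) * f b =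
      ∑ s ∈ S, (n a s : ZMod (bval e + 2)) * f s := by
    symm
    refine Finset.sum_subset hB.sub fun b _ hb => ?_
    rw [hB.supp a b hb, Int.cast_zero, zero_mul]
  rw [e1, e2] at h2
  exact sub_eq_zero.1 h2

theorem Det_abs {r : ℕ} {x y : ℤ} {K : ℕ} (hx : |x| ≤ K) (hy : |y| ≤ K) (hr : 2 * K < r)
    (h : (x : ZMod r) = (y : ZMod r)) : x = y := by
  have h1 : (r : ℤ) ∣ x - y := by
    rw [← ZMod.intCast_zmod_eq_zero_iff_dvd, Int.cast_sub, h, sub_self]
  have h2 : |x - y| < r := by
    have h3 := abs_sub x y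
    have h4 : (2 * K : ℤ) < r := by exact_mod_cast hr
    omega
  have h3 := Int.eq_zero_of_abs_lt_dvd h1 h2
  omega

theorem fai_ltab {vec : ℕ → M} {B : ℕ → Γ →₀ ℤ} {L : ℕ} {e NB' PB : List Bool} {k : ℕ}
    (hN1 : 1 ≤ bval NB')
    {S : Finset ℕ} {D : ℤ} {n : ℕ → ℕ → ℤ} (hB : Bas vec B L (bval NB') S D n)
    (hp : (bval e + 2).Prime) (hk : bval e + 2 ≤ 2 ^ (k / 2))
    (hNr : (bval NB') ^ 2 * (bval NB' + 1) < bval e + 2)
    (hP : (bval NB') ^ (2 * L + 1) ≤ bval PB)
    (hPr : 2 * bval NB' * bval PB < bval e + 2) (rows : List (List (List Bool)))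
    (hlen : ∀ v ∈ rows, v.length = L)
    (hrel : ∀ v ∈ rows, ∀ κ : ℕ → ℤ, ∑ a ∈ range L, κ a • vec a = 0 →
      ∑ a ∈ range L, ((κ a : ℤ) : ZMod (bval e + 2)) * evr e v a = 0)
    (hind : ∀ θ : ℕ → ZMod (bval e + 2), (∀ s, s ∉ S → θ s = 0) →
      (∀ v ∈ rows, ∑ s ∈ S, θ s * evr e v s = 0) → ∀ s, θ s = 0) :
    Fai vec L ((ltab e NB' PB k L (pivots e L rows)).map irow) := by
  have : Fact (bval e + 2).Prime := ⟨hp⟩
  have hr2 : 2 < bval e + 2 := by
    have h1 : 1 ≤ (bval NB') ^ 2 := Nat.one_le_pow _ _ hN1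
    nlinarith
  have hNlt : bval NB' < bval e + 2 := by
    have h1 : 1 ≤ (bval NB') ^ 2 := Nat.one_le_pow _ _ hN1
    nlinarith
  have hPr2 : 2 * bval PB < bval e + 2 := by
    have h1 : 2 * bval PB ≤ 2 * bval NB' * bval PB := by nlinarith
    omega
  have hD : (D : ZMod (bval e + 2)) ≠ 0 := by
    intro h0
    rw [ZMod.intCast_zmod_eq_zero_iff_dvd] at h0
    have h1 : |D| < ((bval e + 2 : ℕ) : ℤ) := lt_of_le_of_lt hB.Dle (by exact_mod_cast hNlt)
    exact hB.D0 (Int.eq_zero_of_abs_lt_dvd h0 h1)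
  have hpi : (fun x : ZMod (bval e + 2) => x ^ bval e) = fun x => x⁻¹ := pow_eq_inv hr2
  have hc := erun_complete (K := ZMod (bval e + 2)) L (rows.map (evr e)) S hB.sub
    (fun a s => (n a s : ZMod (bval e + 2)) / (D : ZMod (bval e + 2))) (by
      intro v hv a ha
      obtain ⟨v0, hv0, rfl⟩ := List.mem_map.1 hv
      have h1 := Det_row hB (hrel v0 hv0) ha
      have h2 : evr e v0 a = (∑ s ∈ S, (n a s : ZMod (bval e + 2)) * evr e v0 s) /
          (D : ZMod (bval e + 2)) := by
        rw [← h1, mul_div_cancel_left₀ _ hD]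
      rw [h2, Finset.sum_div]
      refine Finset.sum_congr rfl fun s _ => ?_
      ring) (by
      intro a s has
      show (n a s : ZMod (bval e + 2)) / (D : ZMod (bval e + 2)) = 0
      rw [hB.lt a s has, Int.cast_zero, zero_div]) (by
      intro s hs s' hs'
      show (n s s' : ZMod (bval e + 2)) / (D : ZMod (bval e + 2)) = _
      rw [hB.del s hs s' hs']
      split_ifs
      · exact div_self hD
      · rw [Int.cast_zero, zero_div]) (by
      intro θ h1 h2
      refine hind θ h1 fun v hv => ?_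
      exact h2 _ (List.mem_map_of_mem hv))
  have hpv := pivots_val e L rows hlen
  rw [hpi] at hpv
  intro κ hκ
  have key : ∀ s ∈ S, ∑ a ∈ range L, κ a * n a s = 0 := by
    intro s hs
    obtain ⟨u, hu, hus⟩ := hc.2 s hs
    have hu' : u ∈ (pivots e L rows).map (evr e) := by
      rw [hpv]
      exact hu
    obtain ⟨prow, hprow, rfl⟩ := List.mem_map.1 hu'
    have hz : ∀ a < L, (D : ZMod (bval e + 2)) * zv e (prow.getD a []) =
        (n a s : ZMod (bval e + 2)) := by
      intro a ha
      have h1 : zv e (prow.getD a []) = (n a s : ZMod (bval e + 2)) / (D : ZMod (bval e + 2)) :=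
        hus a ha
      rw [h1, mul_div_cancel₀ _ hD]
    obtain ⟨l1, l2⟩ := lift_complete (e := e) (NB := NB') (PB := PB) (k := k) (L := L) hp hN1
      hk hNr hP hPr2 (row := prow) (by
        intro a ha
        rcases le_total 0 D with h0 | h0
        · refine ⟨n a s, D.natAbs, hB.nle a s, Int.natAbs_pos.2 hB.D0, ?_, ?_⟩
          · have h1 := hB.Dle
            rw [abs_of_nonneg h0] at h1
            omega
          · have h1 : ((D.natAbs : ℕ) : ZMod (bval e + 2)) = (D : ZMod (bval e + 2)) := by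
              have h2 : ((D.natAbs : ℕ) : ℤ) = D := Int.natAbs_of_nonneg h0
              calc ((D.natAbs : ℕ) : ZMod (bval e + 2)) =
                    (((D.natAbs : ℕ) : ℤ) : ZMod (bval e + 2)) := (Int.cast_natCast _).symm
                _ = (D : ZMod (bval e + 2)) := by rw [h2]
            rw [h1]
            exact hz a ha
        · refine ⟨- n a s, D.natAbs, by rw [abs_neg]; exact hB.nle a s, Int.natAbs_pos.2 hB.D0,
            ?_, ?_⟩
          · have h1 := hB.Dle
            rw [abs_of_nonpos h0] at h1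
            omega
          · have h1 : ((D.natAbs : ℕ) : ZMod (bval e + 2)) = - (D : ZMod (bval e + 2)) := by
              have h2 : ((D.natAbs : ℕ) : ℤ) = - D := by omega
              calc ((D.natAbs : ℕ) : ZMod (bval e + 2)) =
                    (((D.natAbs : ℕ) : ℤ) : ZMod (bval e + 2)) := (Int.cast_natCast _).symm
                _ = - (D : ZMod (bval e + 2)) := by rw [h2, Int.cast_neg]
            rw [h1, neg_mul, hz a ha, Int.cast_neg])
    have hl : lift e NB' PB k L prow ∈ ltab e NB' PB k L (pivots e L rows) := by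
      unfold ltab
      exact List.mem_filter.2 ⟨List.mem_map_of_mem hprow, l1⟩
    have hb := (mem_ltab hl).2
    have h0 := hκ _ (List.mem_map_of_mem (f := irow) hl)
    have hss : (irow (lift e NB' PB k L prow) s : ZMod (bval e + 2)) =
        zv e (dprod e NB' k L prow) := by
      have hsL := mem_range.1 (hB.sub hs)
      rw [lift_cong e NB' PB k L prow hsL]
      have h1 := hz s hsL
      rw [hB.del s hs s hs, if_pos rfl] at h1
      have h2 : zv e (prow.getD s []) = 1 := mul_left_cancel₀ hD (h1.trans (mul_one _).symm)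
      rw [h2, mul_one]
    have hne : irow (lift e NB' PB k L prow) s ≠ 0 := by
      intro h1
      rw [h1, Int.cast_zero] at hss
      exact l2 hss.symm
    have heq : ∀ a < L, irow (lift e NB' PB k L prow) a * D =
        irow (lift e NB' PB k L prow) s * n a s := by
      intro a ha
      refine Det_abs (r := bval e + 2) (K := bval NB' * bval PB) ?_ ?_ ?_ ?_
      · rw [abs_mul, Nat.cast_mul, mul_comm]
        exact mul_le_mul hB.Dle (hb a) (abs_nonneg _) (Nat.cast_nonneg _)
      · rw [abs_mul, Nat.cast_mul, mul_comm]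
        exact mul_le_mul (hB.nle a s) (hb s) (abs_nonneg _) (Nat.cast_nonneg _)
      · rw [← mul_assoc]
        exact hPr
      · rw [Int.cast_mul, Int.cast_mul, hss, lift_cong e NB' PB k L prow ha, mul_assoc,
          mul_comm (zv e (prow.getD a [])), hz a ha]
    have h1 : irow (lift e NB' PB k L prow) s * ∑ a ∈ range L, κ a * n a s = 0 := by
      calc irow (lift e NB' PB k L prow) s * ∑ a ∈ range L, κ a * n a s =
            ∑ a ∈ range L, κ a * (irow (lift e NB' PB k L prow) s * n a s) := by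
            rw [Finset.mul_sum]
            exact Finset.sum_congr rfl fun a _ => by ring
        _ = ∑ a ∈ range L, κ a * (irow (lift e NB' PB k L prow) a * D) := by
            refine Finset.sum_congr rfl fun a ha => ?_
            rw [heq a (mem_range.1 ha)]
        _ = (∑ a ∈ range L, κ a * irow (lift e NB' PB k L prow) a) * D := by
            rw [Finset.sum_mul]
            exact Finset.sum_congr rfl fun a _ => by ring
        _ = 0 := by rw [h0, zero_mul]
    exact (mul_eq_zero.1 h1).resolve_left hne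
  have hfin : D • ∑ a ∈ range L, κ a • vec a = 0 := by
    calc D • ∑ a ∈ range L, κ a • vec a =
          ∑ a ∈ range L, κ a • ∑ s ∈ S, n a s • vec s := by
          rw [Finset.smul_sum]
          refine Finset.sum_congr rfl fun a ha => ?_
          rw [← hB.rel a (mem_range.1 ha), smul_comm]
      _ = ∑ s ∈ S, (∑ a ∈ range L, κ a * n a s) • vec s := by
          simp only [Finset.smul_sum, Finset.sum_smul, smul_smul]
          exact Finset.sum_comm
      _ = 0 := Finset.sum_eq_zero fun s hs => by rw [key s hs, zero_smul]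
  exact zsmul_right_injective hB.D0 (hfin.trans (smul_zero D).symm)

end Pool.Agent.TC
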