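import Mathlib

/-!
# Module Df: fields with derivations

`Cst D` = the field of the constants. `Stb D K` = the subfield `K` contains the constants and is
stable under the derivations. `Vl D K ν` = `ν` is additive on the products of elements of `K` which are
not zero, and zero on the constants. `SK D K Λ` = every element `(u; Σ c_j ⊗ v_j)` of `K ⊕ C ⊗ Kˣ` with
`D u = Σ c_j D v_j / v_j` is a combination of constants and of elements `(p.1; p.2)` with `p ∈ Λ`.
-/

namespace Pool.Agent.TC

variable {ι H : Type} [Field H]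

/-- The field of constants. -/
def Cst (D : ι → Derivation ℤ H H) : Subfield H where
  carrier := {c | ∀ i, D i c = 0}
  mul_mem' := by
    intro a b ha hb i
    rw [Derivation.leibniz, ha i, hb i]
    simp
  one_mem' := fun i => Derivation.map_one_eq_zero _
  add_mem' := by
    intro a b ha hb i
    rw [map_add, ha i, hb i, add_zero]
  zero_mem' := fun i => map_zero _
  neg_mem' := by
    intro a ha i
    rw [map_neg, ha i, neg_zero]
  inv_mem' := by
    intro a ha i
    rw [Derivation.leibniz_inv, ha i]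
    simp

theorem mem_Cst {D : ι → Derivation ℤ H H} {c : H} : c ∈ Cst D ↔ ∀ i, D i c = 0 := Iff.rfl

/-- The subfield contains the constants and is stable. -/
structure Stb (D : ι → Derivation ℤ H H) (K : Subfield H) : Prop where
  cst : Cst D ≤ K
  map : ∀ i, ∀ x ∈ K, D i x ∈ K

/-- Additive functions on the products which are zero on the constants. -/
structure Vl (D : ι → Derivation ℤ H H) (K : Subfield H) (ν : H → Cst D) : Prop where
  mul : ∀ a ∈ K, ∀ b ∈ K, a ≠ 0 → b ≠ 0 → ν (a * b) = ν a + ν b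
  cst : ∀ c ∈ Cst D, c ≠ 0 → ν c = 0

/-- The kernel of the logarithmic derivative is spanned by `Λ`. -/
def SK (D : ι → Derivation ℤ H H) (K : Subfield H) (Λ : Set (H × H)) : Prop :=
  ∀ (J : Type) [Fintype J] (u : H) (c : J → Cst D) (v : J → H), u ∈ K →
    (∀ j, v j ∈ K ∧ v j ≠ 0) →
    (∀ i, D i u = ∑ j, (c j : H) * (D i (v j) / v j)) →
    ∃ e : (H × H) →₀ Cst D, (∀ p ∈ e.support, p ∈ Λ) ∧
      u - e.sum (fun p a => (a : H) * p.1) ∈ Cst D ∧
      ∀ ν : H → Cst D, Vl D K ν → ∑ j, c j * ν (v j) = e.sum fun p a => a * ν p.2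

/-- The adjunction of a set. -/
def adj (K : Subfield H) (S : Set H) : Subfield H := Subfield.closure ((K : Set H) ∪ S)

theorem le_adj (K : Subfield H) (S : Set H) : K ≤ adj K S :=
  fun _ hx => Subfield.subset_closure (Or.inl hx)

theorem mem_adj (K : Subfield H) {S : Set H} {x : H} (hx : x ∈ S) : x ∈ adj K S :=
  Subfield.subset_closure (Or.inr hx)

theorem adj_le {K L : Subfield H} {S : Set H} (h : K ≤ L) (hS : S ⊆ L) : adj K S ≤ L :=
  Subfield.closure_le.2 (Set.union_subset h hS)

theorem SK.mono {D : ι → Derivation ℤ H H} {K : Subfield H} {Λ Λ' : Set (H × H)} (h : SK D K Λ)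
    (hΛ : Λ ⊆ Λ') : SK D K Λ' := by
  intro J _ u c v hu hv hd
  obtain ⟨e, h1, h2, h3⟩ := h J u c v hu hv hd
  exact ⟨e, fun p hp => hΛ (h1 p hp), h2, h3⟩

/-- The constants. -/
theorem SK_cst (D : ι → Derivation ℤ H H) : SK D (Cst D) ∅ := by
  intro J _ u c v hu hv _
  refine ⟨0, by simp, by simpa using hu, fun ν hν => ?_⟩
  rw [Finsupp.sum_zero_index]
  exact Finset.sum_eq_zero fun j _ => by rw [hν.cst _ (hv j).1 (hv j).2, mul_zero]

end Pool.Agent.TC
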