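import Mathlib

/-!
# Module Dfr: derivations of fields of fractions
-/

namespace Pool.Agent.TC

theorem exists_frac_der {A H : Type} [CommRing A] [IsDomain A] [Field H] [Algebra A H]
    [IsFractionRing A H] (δ : Derivation ℤ A A) :
    ∃ D : Derivation ℤ H H, ∀ a : A, D (algebraMap A H a) = algebraMap A H (δ a) := by
  classical
  obtain ⟨i, hi⟩ : ∃ i : A →+* H, i = algebraMap A H := ⟨_, rfl⟩
  have hinj : Function.Injective i := by
    rw [hi]
    exact IsFractionRing.injective A H
  have hne : ∀ b : A, b ≠ 0 → i b ≠ 0 := fun b hb h => hb (hinj (by rw [h, map_zero]))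
  have hex : ∀ h : H, ∃ a b : A, b ≠ 0 ∧ h = i a / i b := by
    intro h
    obtain ⟨a, b, hb, hab⟩ := IsFractionRing.div_surjective A h
    exact ⟨a, b, nonZeroDivisors.ne_zero hb, by rw [hi, hab]⟩
  choose N E hE hNE using hex
  obtain ⟨f, hf⟩ : ∃ f : A → A → H, f = fun a b => (i (δ a) * i b - i a * i (δ b)) / i b ^ 2 :=
    ⟨_, rfl⟩
  have hδ : ∀ a b : A, i (δ (a * b)) = i a * i (δ b) + i b * i (δ a) := by
    intro a b
    rw [Derivation.leibniz, smul_eq_mul, smul_eq_mul, map_add, map_mul, map_mul]
  have hwd : ∀ a b c d : A, b ≠ 0 → d ≠ 0 → i a / i b = i c / i d → f a b = f c d := by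
    intro a b c d hb hd h
    have hb' := hne b hb
    have hd' := hne d hd
    have e1 : i a * i d = i c * i b := by
      field_simp at h
      linear_combination h
    have e2 : a * d = c * b := hinj (by rw [map_mul, map_mul, e1])
    have e3 : i a * i (δ d) + i d * i (δ a) = i c * i (δ b) + i b * i (δ c) := by
      rw [← hδ, ← hδ, e2]
    rw [hf]
    beta_reduce
    rw [div_eq_div_iff (pow_ne_zero 2 hb') (pow_ne_zero 2 hd')]
    linear_combination (i b * i d) * e3 - (i (δ b) * i d + i b * i (δ d)) * e1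
  obtain ⟨D, hD⟩ : ∃ D : H → H, ∀ a b : A, b ≠ 0 → D (i a / i b) = f a b := by
    refine ⟨fun h => f (N h) (E h), fun a b hb => ?_⟩
    exact hwd _ _ _ _ (hE _) hb (hNE _).symm
  have hadd : ∀ x y : H, D (x + y) = D x + D y := by
    intro x y
    have hx := hne _ (hE x)
    have hy := hne _ (hE y)
    have e : x + y = i (N x * E y + N y * E x) / i (E x * E y) := by
      conv_lhs => rw [hNE x, hNE y]
      rw [map_add, map_mul, map_mul, map_mul]
      field_simp
    rw [e, hD _ _ (mul_ne_zero (hE x) (hE y))]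
    conv_rhs => rw [hNE x, hNE y]
    rw [hD _ _ (hE x), hD _ _ (hE y), hf]
    beta_reduce
    rw [map_add, map_add, map_add, hδ, hδ, hδ, map_mul, map_mul, map_mul]
    field_simp
    ring
  have hmul : ∀ x y : H, D (x * y) = x • D y + y • D x := by
    intro x y
    have hx := hne _ (hE x)
    have hy := hne _ (hE y)
    have e : x * y = i (N x * N y) / i (E x * E y) := by
      conv_lhs => rw [hNE x, hNE y]
      rw [map_mul, map_mul]
      field_simp
    rw [e, hD _ _ (mul_ne_zero (hE x) (hE y)), smul_eq_mul, smul_eq_mul]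
    conv_rhs => rw [hNE x, hNE y]
    rw [hD _ _ (hE x), hD _ _ (hE y), hf]
    beta_reduce
    rw [hδ, hδ, map_mul, map_mul]
    field_simp
    ring
  have hzero : D 0 = 0 := by
    have h := hadd 0 0
    rw [add_zero] at h
    exact left_eq_add.1 h
  refine ⟨Derivation.mk' (AddMonoidHom.toIntLinearMap
    { toFun := D, map_zero' := hzero, map_add' := hadd }) hmul, fun a => ?_⟩
  show D (algebraMap A H a) = algebraMap A H (δ a)
  have e : algebraMap A H a = i a / i 1 := by
    rw [map_one, div_one, hi]
  rw [e, hD _ _ one_ne_zero, hf]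
  beta_reduce
  rw [Derivation.map_one_eq_zero, map_zero, map_one, hi]
  simp

end Pool.Agent.TC
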