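import Pool.Agent.H.MP_b2d7dd_lc.TC.Hp

/-!
# Module Dl: first order data

Parameters: `f`, `g` = values of the variables and powers (two characters), `α` = the values for the
variables, `lc` = the logarithms of the constants, `iv` = inverses. `dl` = the derivation, `ph` = the
logarithmic derivative of a variable or of a power, `lam` = the logarithmic derivative of a term plus
the logarithm of the constant `e1`.
-/

namespace Pool.Agent.TC

open Pool.Agent.TI (Tm)

/-- The parameters. -/
structure Pr (K : Type) where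
  f : Tm → K
  g : Tm → K
  α : List Bool → K
  lc : ℕ → K
  iv : K → K

variable {W : Finset (List Bool)} {as : List Tm} {A : Set Tm} {K : Type} [CommRing K]

/-- The derivation. -/
def dl (P : Pr K) : Tm → K
  | .one => 0
  | .var w => P.f (.var w) * P.α w
  | .add s t => dl P s + dl P t
  | .mul s t => dl P s * av P.f t + av P.f s * dl P t
  | .pow a b => P.f (.pow a b) * (av P.g b * (dl P a * P.iv (av P.f a) + P.lc (e1 a)))

/-- The logarithmic derivative of a variable or of a power. -/
def ph (P : Pr K) : Tm → K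
  | .var w => P.α w
  | .pow a b => av P.g b * (dl P a * P.iv (av P.f a) + P.lc (e1 a))
  | _ => 0

/-- The logarithmic derivative of a term plus the logarithm of the constant. -/
def lam (P : Pr K) (t : Tm) : K := dl P t * P.iv (av P.f t) + P.lc (e1 t)

theorem ph_pow (P : Pr K) (a b : Tm) : ph P (.pow a b) = av P.g b * lam P a := rfl

private theorem Dl_mul {S : AddSubmonoid (Pt W → ℝ)} {f φ : (Pt W → ℝ) → K} (hf : Mo S f)
    (hφ : ∀ v ∈ S, ∀ w ∈ S, φ (v + w) = φ v + φ w) {P Q : AddMonoidAlgebra ℤ (Pt W → ℝ)}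
    (hP : Su S P) (hQ : Su S Q) : evl (fun v => f v * φ v) (P * Q) =
      evl (fun v => f v * φ v) P * evl f Q + evl f P * evl (fun v => f v * φ v) Q := by
  have h1 : P * Q = ∑ g ∈ P.coeff.support, ∑ h ∈ Q.coeff.support,
      AddMonoidAlgebra.single (g + h) (P.coeff g * Q.coeff h) := by
    rw [AddMonoidAlgebra.mul_def]
    rfl
  have h2 : evl (fun v => f v * φ v) P * evl f Q =
      ∑ g ∈ P.coeff.support, ∑ h ∈ Q.coeff.support,
        ((P.coeff g : K) * (f g * φ g)) * ((Q.coeff h : K) * f h) := by
    rw [← Finset.sum_mul_sum]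
    rfl
  have h3 : evl f P * evl (fun v => f v * φ v) Q =
      ∑ g ∈ P.coeff.support, ∑ h ∈ Q.coeff.support,
        ((P.coeff g : K) * f g) * ((Q.coeff h : K) * (f h * φ h)) := by
    rw [← Finset.sum_mul_sum]
    rfl
  rw [h1, h2, h3, evl_sum, ← Finset.sum_add_distrib]
  refine Finset.sum_congr rfl fun g hg => ?_
  rw [evl_sum, ← Finset.sum_add_distrib]
  refine Finset.sum_congr rfl fun h hh => ?_
  rw [evl_single, hf.add g (hP g hg) h (hQ h hh), hφ g (hP g hg) h (hQ h hh), Int.cast_mul]
  ring

/-- The derivation is determined by the element of the monoid ring, if the logarithmic derivatives of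
the variables and powers are given by an additive function. -/
theorem dl_evl {P : Pr K} {f φ : (Pt W → ℝ) → K} (hf : Mo (VA W A) f) (h0 : φ 0 = 0)
    (hφ : ∀ v ∈ VA W A, ∀ w ∈ VA W A, φ (v + w) = φ v + φ w)
    (hfA : ∀ a ∈ A, P.f a = f (lr W a)) (hA : ∀ a ∈ A, φ (lr W a) = ph P a)
    {t : Tm} (ht : ats t ⊆ A) : dl P t = evl (fun v => f v * φ v) (rp W t) := by
  induction t with
  | one =>
    show (0 : K) = evl (fun v => f v * φ v) (1 : AddMonoidAlgebra ℤ (Pt W → ℝ))
    rw [AddMonoidAlgebra.one_def, evl_single, h0, mul_zero, mul_zero]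
  | var w =>
    have hw : Tm.var w ∈ A := ht rfl
    show P.f (.var w) * P.α w = evl (fun v => f v * φ v)
      (AddMonoidAlgebra.single (lr W (.var w)) 1)
    rw [evl_single, Int.cast_one, one_mul, ← hfA _ hw, hA _ hw]
    rfl
  | add s t ihs iht =>
    show dl P s + dl P t = evl (fun v => f v * φ v) (rp W s + rp W t)
    rw [evl_add, ihs (Set.subset_union_left.trans ht), iht (Set.subset_union_right.trans ht)]
  | mul s t ihs iht =>
    have hs := Set.subset_union_left.trans ht
    have ht' := Set.subset_union_right.trans ht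
    show dl P s * av P.f t + av P.f s * dl P t = evl (fun v => f v * φ v) (rp W s * rp W t)
    rw [Dl_mul hf hφ (rp_su hs) (rp_su ht'), ihs hs, iht ht', av_evl hf hfA hs,
      av_evl hf hfA ht']
  | pow a b _ _ =>
    have hw : Tm.pow a b ∈ A := ht rfl
    show P.f (.pow a b) * (av P.g b * (dl P a * P.iv (av P.f a) + P.lc (e1 a))) =
      evl (fun v => f v * φ v) (AddMonoidAlgebra.single (lr W (.pow a b)) 1)
    rw [evl_single, Int.cast_one, one_mul, ← hfA _ hw, hA _ hw]
    rfl

/-- The function `ph` respects all relations between the logarithms of the variables and of the powers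
of the list. -/
def Ch (W : Finset (List Bool)) (as : List Tm) (p : Tm → K) : Prop :=
  ∀ (S : Finset Tm) (k : Tm → ℤ), ↑S ⊆ At W as →
    (∀ x, ∑ a ∈ S, (k a : ℝ) * lr W a x = 0) → ∑ a ∈ S, (k a : K) * p a = 0

private theorem Dl_ch {p : Tm → K} (h : Ch W as p) : ∃ φ : (Pt W → ℝ) → K,
    ∀ k : Tm →₀ ℤ, (∀ a ∈ k.support, a ∈ At W as) →
      φ (fun x => k.sum fun a c => (c : ℝ) * lr W a x) = k.sum fun a c => (c : K) * p a := by
  classical
  have key : ∀ k k' : Tm →₀ ℤ, (∀ a ∈ k.support, a ∈ At W as) →
      (∀ a ∈ k'.support, a ∈ At W as) →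
      (fun x : Pt W => k.sum fun a c => (c : ℝ) * lr W a x) =
        (fun x => k'.sum fun a c => (c : ℝ) * lr W a x) →
      (k.sum fun a c => (c : K) * p a) = k'.sum fun a c => (c : K) * p a := by
    intro k k' hk hk' he
    have h1 := h (k - k').support (k - k') (by
      intro a ha
      rcases Finset.mem_union.1 (Finsupp.support_sub ha) with h2 | h2
      · exact hk a h2
      · exact hk' a h2) (by
      intro x
      have h2 : ((k - k').sum fun a c => (c : ℝ) * lr W a x) =
          (k.sum fun a c => (c : ℝ) * lr W a x) - k'.sum fun a c => (c : ℝ) * lr W a x :=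
        Finsupp.sum_sub_index fun a b c => by rw [Int.cast_sub, sub_mul]
      have h3 : (k.sum fun a c => (c : ℝ) * lr W a x) =
          k'.sum fun a c => (c : ℝ) * lr W a x := congrFun he x
      rw [h3, sub_self] at h2
      exact h2)
    have h2 : ((k - k').sum fun a c => (c : K) * p a) =
        (k.sum fun a c => (c : K) * p a) - k'.sum fun a c => (c : K) * p a :=
      Finsupp.sum_sub_index fun a b c => by rw [Int.cast_sub, sub_mul]
    have h3 : ((k - k').sum fun a c => (c : K) * p a) = 0 := h1
    rw [h3] at h2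
    exact sub_eq_zero.1 h2.symm
  have hex : ∀ v : Pt W → ℝ, ∃ y : K, ∀ k : Tm →₀ ℤ, (∀ a ∈ k.support, a ∈ At W as) →
      v = (fun x => k.sum fun a c => (c : ℝ) * lr W a x) →
        y = k.sum fun a c => (c : K) * p a := by
    intro v
    by_cases hv : ∃ k : Tm →₀ ℤ, (∀ a ∈ k.support, a ∈ At W as) ∧
        v = (fun x => k.sum fun a c => (c : ℝ) * lr W a x)
    · obtain ⟨k, hk, rfl⟩ := hv
      exact ⟨_, fun k' hk' he => key k k' hk hk' he⟩
    · exact ⟨0, fun k hk he => absurd ⟨k, hk, he⟩ hv⟩
  choose φ hφ using hex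
  exact ⟨φ, fun k hk => hφ _ k hk rfl⟩

private theorem Dl_rep {v : Pt W → ℝ} (hv : v ∈ Vm W as) :
    ∃ k : Tm →₀ ℤ, (∀ a ∈ k.support, a ∈ At W as) ∧
      v = fun x => k.sum fun a c => (c : ℝ) * lr W a x := by
  classical
  induction hv using AddSubmonoid.closure_induction with
  | mem y hy =>
    obtain ⟨a, ha, rfl⟩ := hy
    refine ⟨Finsupp.single a 1, fun b hb => ?_, ?_⟩
    · have h1 := Finset.mem_singleton.1 (Finsupp.support_single_subset hb)
      rw [h1]
      exact ha
    · funext x
      rw [Finsupp.sum_single_index (by rw [Int.cast_zero, zero_mul]), Int.cast_one, one_mul]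
  | zero =>
    refine ⟨0, fun b hb => absurd hb (by simp), ?_⟩
    funext x
    rw [Finsupp.sum_zero_index]
    rfl
  | add y z _ _ hy hz =>
    obtain ⟨k, hk, rfl⟩ := hy
    obtain ⟨k', hk', rfl⟩ := hz
    refine ⟨k + k', fun a ha => ?_, ?_⟩
    · rcases Finset.mem_union.1 (Finsupp.support_add ha) with h2 | h2
      · exact hk a h2
      · exact hk' a h2
    · funext x
      rw [Finsupp.sum_add_index' (fun a => by rw [Int.cast_zero, zero_mul])
        (fun a b c => by rw [Int.cast_add, add_mul])]
      rfl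

/-- The additive function. -/
theorem exists_phi {p : Tm → K} (h : Ch W as p) : ∃ φ : (Pt W → ℝ) → K, φ 0 = 0 ∧
    (∀ v ∈ Vm W as, ∀ w ∈ Vm W as, φ (v + w) = φ v + φ w) ∧
      ∀ a ∈ At W as, φ (lr W a) = p a := by
  classical
  obtain ⟨φ, hφ⟩ := Dl_ch h
  refine ⟨φ, ?_, fun v hv w hw => ?_, fun a ha => ?_⟩
  · have h1 := hφ 0 (fun b hb => absurd hb (by simp))
    rw [Finsupp.sum_zero_index] at h1
    have h2 : (fun x : Pt W => (0 : Tm →₀ ℤ).sum fun a c => (c : ℝ) * lr W a x) = 0 := by
      funext x
      rw [Finsupp.sum_zero_index]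
      rfl
    rw [h2] at h1
    exact h1
  · obtain ⟨k, hk, rfl⟩ := Dl_rep hv
    obtain ⟨k', hk', rfl⟩ := Dl_rep hw
    have h1 := hφ (k + k') (fun a ha => by
      rcases Finset.mem_union.1 (Finsupp.support_add ha) with h2 | h2
      · exact hk a h2
      · exact hk' a h2)
    have h2 : (fun x : Pt W => (k + k').sum fun a c => (c : ℝ) * lr W a x) =
        (fun x => k.sum fun a c => (c : ℝ) * lr W a x) +
          fun x => k'.sum fun a c => (c : ℝ) * lr W a x := by
      funext x
      rw [Finsupp.sum_add_index' (fun a => by rw [Int.cast_zero, zero_mul])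
        (fun a b c => by rw [Int.cast_add, add_mul])]
      rfl
    rw [h2, Finsupp.sum_add_index' (fun a => by rw [Int.cast_zero, zero_mul])
      (fun a b c => by rw [Int.cast_add, add_mul])] at h1
    rw [h1, hφ k hk, hφ k' hk']
  · have h1 := hφ (Finsupp.single a 1) (fun b hb => by
      have h2 := Finset.mem_singleton.1 (Finsupp.support_single_subset hb)
      rw [h2]
      exact ha)
    have h2 : (fun x : Pt W => (Finsupp.single a (1 : ℤ)).sum fun a c => (c : ℝ) * lr W a x) =
        lr W a := by
      funext x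
      rw [Finsupp.sum_single_index (by rw [Int.cast_zero, zero_mul]), Int.cast_one, one_mul]
    rw [h2, Finsupp.sum_single_index (by rw [Int.cast_zero, zero_mul]), Int.cast_one,
      one_mul] at h1
    exact h1

end Pool.Agent.TC
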