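import Pool.Agent.H.MP_b2d7dd_lc.TC.Fnc
import Pool.Agent.H.MP_b2d7dd_lc.KV.ExZ

/-!
# Module Ext: identities of positive integers are identities of functions
-/

namespace Pool.Agent.TC

open Pool.Agent.TI (Tm Valid)

/-- The variables of a term are in `W`. -/
def VarsIn (W : Finset (List Bool)) : Tm → Prop
  | .one => True
  | .var w => w ∈ W
  | .add s t => VarsIn W s ∧ VarsIn W t
  | .mul s t => VarsIn W s ∧ VarsIn W t
  | .pow s t => VarsIn W s ∧ VarsIn W t

/-- The value at positive integers. -/
theorem rf_val {W : Finset (List Bool)} {t : Tm} (ht : VarsIn W t) {x : List Bool → ℕ}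
    (hx : ∀ w, 0 < x w) : rf W t (fun w => Real.log (x w)) = t.val x := by
  induction t with
  | one => simp [rf, Tm.val]
  | var w =>
    have hw : w ∈ W := ht
    have h0 : (0 : ℝ) < x w := Nat.cast_pos.2 (hx w)
    unfold rf
    rw [dif_pos hw, Real.exp_log h0]
    rfl
  | add a b ha hb =>
    show rf W a _ + rf W b _ = ((a.val x + b.val x : ℕ) : ℝ)
    rw [ha ht.1, hb ht.2, Nat.cast_add]
  | mul a b ha hb =>
    show rf W a _ * rf W b _ = ((a.val x * b.val x : ℕ) : ℝ)
    rw [ha ht.1, hb ht.2, Nat.cast_mul]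
  | pow a b ha hb =>
    show Real.exp (rf W b _ * Real.log (rf W a _)) = ((a.val x ^ b.val x : ℕ) : ℝ)
    have h0 := rf_pos W a (fun w => Real.log (x w))
    rw [ha ht.1] at h0
    rw [ha ht.1, hb ht.2, Real.exp_nat_mul, Real.exp_log h0, Nat.cast_pow]

/-- The function of one variable. -/
private noncomputable def Ext_tr (W : Finset (List Bool)) (y : Pt W) (w₀ : List Bool) :
    Tm → KV.Ex
  | .one => .cst 1
  | .var w => if w = w₀ then .y else .cst (rf W (.var w) y)
  | .add a b => .add (Ext_tr W y w₀ a) (Ext_tr W y w₀ b)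
  | .mul a b => .mul (Ext_tr W y w₀ a) (Ext_tr W y w₀ b)
  | .pow a b => .pow (Ext_tr W y w₀ a) (Ext_tr W y w₀ b)

private theorem Ext_pos (W : Finset (List Bool)) (y : Pt W) (w₀ : List Bool) (t : Tm) :
    (Ext_tr W y w₀ t).Pos := by
  induction t with
  | one => exact one_pos
  | var w =>
    unfold Ext_tr
    split_ifs
    · trivial
    · exact rf_pos W _ y
  | add a b ha hb => exact ⟨ha, hb⟩
  | mul a b ha hb => exact ⟨ha, hb⟩
  | pow a b ha hb => exact ⟨ha, hb⟩

private theorem Ext_rv (W : Finset (List Bool)) (y : Pt W) (w₀ : W) (t : Tm) {z : ℝ} (hz : 0 < z) :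
    (Ext_tr W y w₀ t).rv z = rf W t (Function.update y w₀ (Real.log z)) := by
  induction t with
  | one => rfl
  | var w =>
    unfold Ext_tr
    split_ifs with h
    · subst h
      show z = _
      unfold rf
      rw [dif_pos w₀.2, Function.update_self, Real.exp_log hz]
    · show rf W (.var w) y = _
      unfold rf
      by_cases hw : w ∈ W
      · rw [dif_pos hw, dif_pos hw, Function.update_of_ne]
        intro h1
        exact h (congrArg Subtype.val h1)
      · rw [dif_neg hw, dif_neg hw]
  | add a b ha hb =>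
    show KV.Ex.rv z (Ext_tr W y w₀ a) + KV.Ex.rv z (Ext_tr W y w₀ b) = _
    rw [ha, hb]
    rfl
  | mul a b ha hb =>
    show KV.Ex.rv z (Ext_tr W y w₀ a) * KV.Ex.rv z (Ext_tr W y w₀ b) = _
    rw [ha, hb]
    rfl
  | pow a b ha hb =>
    show Real.exp (KV.Ex.rv z (Ext_tr W y w₀ b) * Real.log (KV.Ex.rv z (Ext_tr W y w₀ a))) = _
    rw [ha, hb]
    rfl

private theorem Ext_step {W : Finset (List Bool)} {s t : Tm} (y : Pt W) (w₀ : W)
    (h : ∀ k : ℕ, 0 < k → rf W s (Function.update y w₀ (Real.log k)) =
      rf W t (Function.update y w₀ (Real.log k))) : rf W s y = rf W t y := by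
  by_contra hne
  obtain ⟨N, hN⟩ : ∃ N, N = KV.Zk ((Ext_tr W y w₀ s).sz + (Ext_tr W y w₀ t).sz) := ⟨_, rfl⟩
  have key := KV.ex_zeros (Ext_pos W y w₀ s) (Ext_pos W y w₀ t)
    ⟨Real.exp (y w₀), Real.exp_pos _, by
      rw [Ext_rv W y w₀ s (Real.exp_pos _), Ext_rv W y w₀ t (Real.exp_pos _), Real.log_exp,
        Function.update_eq_self]
      exact hne⟩
    ((Finset.range (N + 1)).image fun k : ℕ => ((k + 1 : ℕ) : ℝ)) (by
      intro z hz
      obtain ⟨k, -, rfl⟩ := Finset.mem_image.1 hz
      have h0 : (0 : ℝ) < ((k + 1 : ℕ) : ℝ) := Nat.cast_pos.2 (Nat.succ_pos k)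
      refine ⟨h0, ?_⟩
      rw [Ext_rv W y w₀ s h0, Ext_rv W y w₀ t h0]
      exact h (k + 1) (Nat.succ_pos k))
  rw [Finset.card_image_of_injective, Finset.card_range, ← hN] at key
  · omega
  · intro a b hab
    have h1 : a + 1 = b + 1 := Nat.cast_injective hab
    omega

/-- The identity holds if and only if the functions are equal. -/
theorem valid_iff {W : Finset (List Bool)} {s t : Tm} (hs : VarsIn W s) (ht : VarsIn W t) :
    Valid s t ↔ rf W s = rf W t := by
  classical
  constructor
  · intro hv
    have key : ∀ U : Finset W, ∀ y : Pt W, (∀ w, w ∉ U → ∃ k : ℕ, 0 < k ∧ y w = Real.log k) →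
        rf W s y = rf W t y := by
      intro U
      induction U using Finset.induction_on with
      | empty =>
        intro y hy
        have h1 : ∀ w : W, ∃ k : ℕ, 0 < k ∧ y w = Real.log k :=
          fun w => hy w (Finset.notMem_empty w)
        choose k hk hk' using h1
        obtain ⟨x, hx⟩ : ∃ x : List Bool → ℕ, x = fun w => if h : w ∈ W then k ⟨w, h⟩ else 1 :=
          ⟨_, rfl⟩
        have hx0 : ∀ w, 0 < x w := by
          intro w
          rw [hx]
          beta_reduce
          split_ifs with h
          · exact hk _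
          · exact Nat.one_pos
        have hy' : y = fun w : W => Real.log (x w) := by
          funext w
          rw [hk' w, hx]
          beta_reduce
          rw [dif_pos w.2]
        rw [hy', rf_val hs hx0, rf_val ht hx0, hv x hx0]
      | insert w₀ U _ ih =>
        intro y hy
        refine Ext_step y w₀ fun k hk => ih _ ?_
        intro w hw
        by_cases h : w = w₀
        · subst h
          exact ⟨k, hk, Function.update_self _ _ _⟩
        · rw [Function.update_of_ne h]
          refine hy w ?_
          rw [Finset.mem_insert, not_or]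
          exact ⟨h, hw⟩
    funext y
    exact key Finset.univ y fun w hw => absurd (Finset.mem_univ w) hw
  · intro h x hx
    have h1 := congrFun h fun w => Real.log (x w)
    rw [rf_val hs hx, rf_val ht hx] at h1
    exact Nat.cast_injective h1

end Pool.Agent.TC
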