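import Pool.Agent.H.MP_b2d7dd_lc.TC.Snd
import Pool.Agent.H.MP_b2d7dd_lc.TC.Cmb

/-!
# Module FinC: the last comparison

Compare TN/FinC. Use `laur` with exponents `(g, 0, 0)`, `g` in the support of `rp s` or `rp t` (sums of
at most `n` logarithms), and `rp_ne_mod`.
-/

namespace Pool.Agent.TC

open Pool.Agent.TI (Tm Tok names Valid)
open Pool.Agent.TE (bl)
open Pool.Agent.TW (SI irow cnt)
open Pool.Agent.H.MP_5be563_lc.PT Finset

private theorem FinC_names (T : List Tok) : (names T).length ≤ T.length := by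
  unfold names
  rw [List.length_map]
  exact List.length_filter_le _ _

/-- The exponents of the element of the monoid ring are sums of at most `sz` logarithms. -/
private theorem FinC_dg {W : Finset (List Bool)} {A : Set Tm} {u : Tm} (hu : ats u ⊆ A) :
    ∀ g ∈ (rp W u).coeff.support, ∃ l : List (Pt W → ℝ), l.length ≤ u.sz ∧
      (∀ v ∈ l, v ∈ lr W '' A) ∧ g = l.sum := by
  classical
  induction u with
  | one =>
    intro g hg
    change g ∈ (1 : AddMonoidAlgebra ℤ (Pt W → ℝ)).coeff.support at hg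
    rw [AddMonoidAlgebra.one_def, AddMonoidAlgebra.coeff_single] at hg
    have e := Finset.mem_singleton.1 (Finsupp.support_single_subset hg)
    exact ⟨[], Nat.zero_le _, by simp, by rw [e, List.sum_nil]⟩
  | var w =>
    intro g hg
    change g ∈ (AddMonoidAlgebra.single (lr W (.var w)) 1 :
      AddMonoidAlgebra ℤ (Pt W → ℝ)).coeff.support at hg
    rw [AddMonoidAlgebra.coeff_single] at hg
    have e := Finset.mem_singleton.1 (Finsupp.support_single_subset hg)
    refine ⟨[lr W (.var w)], le_refl 1, ?_, by rw [e, List.sum_singleton]⟩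
    intro v hv
    rw [List.mem_singleton.1 hv]
    exact Set.mem_image_of_mem _ (hu rfl)
  | add s t ihs iht =>
    intro g hg
    change g ∈ (rp W s + rp W t).coeff.support at hg
    rw [AddMonoidAlgebra.coeff_add] at hg
    rcases Finset.mem_union.1 (Finsupp.support_add hg) with h | h
    · obtain ⟨l, h1, h2, h3⟩ := ihs (Set.subset_union_left.trans hu) g h
      exact ⟨l, h1.trans (by simp only [Tm.sz]; omega), h2, h3⟩
    · obtain ⟨l, h1, h2, h3⟩ := iht (Set.subset_union_right.trans hu) g h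
      exact ⟨l, h1.trans (by simp only [Tm.sz]; omega), h2, h3⟩
  | mul s t ihs iht =>
    intro g hg
    change g ∈ (rp W s * rp W t).coeff.support at hg
    obtain ⟨a, ha, b, hb, rfl⟩ :=
      Finset.mem_add.1 (AddMonoidAlgebra.support_coeff_mul_subset _ _ hg)
    obtain ⟨l, h1, h2, h3⟩ := ihs (Set.subset_union_left.trans hu) a ha
    obtain ⟨k, i1, i2, i3⟩ := iht (Set.subset_union_right.trans hu) b hb
    refine ⟨l ++ k, ?_, ?_, ?_⟩
    · rw [List.length_append]
      simp only [Tm.sz]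
      omega
    · intro v hv
      rcases List.mem_append.1 hv with h | h
      · exact h2 v h
      · exact i2 v h
    · rw [List.sum_append, ← h3, ← i3]
  | pow s t _ _ =>
    intro g hg
    change g ∈ (AddMonoidAlgebra.single (lr W (.pow s t)) 1 :
      AddMonoidAlgebra ℤ (Pt W → ℝ)).coeff.support at hg
    rw [AddMonoidAlgebra.coeff_single] at hg
    have e := Finset.mem_singleton.1 (Finsupp.support_single_subset hg)
    refine ⟨[lr W (.pow s t)], Tm.sz_pos _, ?_, by rw [e, List.sum_singleton]⟩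
    intro v hv
    rw [List.mem_singleton.1 hv]
    exact Set.mem_image_of_mem _ (hu rfl)

private theorem FinC_at {s t : Tm} (hs : CT s) (ht : CT t) {u : Tm} (hu : u ∈ [s, t]) :
    ats u ⊆ exA (exF s t) (s.sz + t.sz) := by
  have hF := fam_exF hs ht (le_refl (s.sz + t.sz))
  have hlen : (subs t ++ subs s).length = s.sz + t.sz := by
    rw [List.length_append, length_subs, length_subs, add_comm]
  obtain ⟨a, ha, h1⟩ := List.mem_iff_getElem.1 ((stk_pair s t).mem u hu)
  have h2 : exF s t a = u := by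
    unfold exF
    rw [List.getD_eq_getElem _ _ ha, h1]
  rw [hlen] at ha
  intro v hv
  rw [← h2] at hv
  obtain ⟨b, hb, h3, h4⟩ := hF.at1 a ha hv
  exact ⟨b, by omega, h3, h4⟩

private theorem FinC_evl {M : Type} [AddCommMonoid M] {K : Type} [CommRing K] (f : M → K)
    (P : AddMonoidAlgebra ℤ M) {s : Finset M} (h : P.coeff.support ⊆ s) :
    evl f P = ∑ g ∈ s, (P.coeff g : K) * f g := by
  unfold evl
  exact Finsupp.sum_of_support_subset _ h _ (fun g _ => by rw [Int.cast_zero, zero_mul])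

theorem final_cnt {n : ℕ} {s t : Tm} (hs : CT s) (ht : CT t) (hn : s.sz + t.sz ≤ n)
    (hst : ¬ Valid s t) {e : List Bool} (he : 2 ^ vv n ≤ bval e) (hp : (bval e + 2).Prime)
    {tab : List (List SI)} (hc : Coh (lv s t) (s.sz + t.sz) (tab.map irow))
    (hf : Fai (lv s t) (s.sz + t.sz) (tab.map irow))
    (hP : ∀ row ∈ tab.map irow, ∀ a, |row a| ≤ (2 ^ eP n : ℕ)) (hl : tab.length ≤ n) :
    8 * cnt (SS n) (fun zz => fin1 n e (names (s.toks ++ t.toks)) (baseT n (s.toks ++ t.toks))
      (s.toks ++ t.toks) tab zz = true) ≤ 2 ^ SS n := by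
  classical
  have hs1 := Tm.sz_pos s
  have ht1 := Tm.sz_pos t
  have hN : (names (s.toks ++ t.toks)).length ≤ n := by
    refine (FinC_names _).trans ?_
    rw [List.length_append, Tm.length_toks, Tm.length_toks]
    exact hn
  have hvn := vv_ge n
  have hr : ∀ u : Tm, u.sz ≤ n → e1 u < bval e + 2 := by
    intro u hu
    have h1 : (2 : ℕ) ^ u.sz ≤ 2 ^ vv n := Nat.pow_le_pow_right (by norm_num) (by omega)
    have h2 := e1_le u
    omega
  have hne : rp (Wn s t) s ≠ rp (Wn s t) t := fun h => hst ((valid_rp hs ht).2 h)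
  obtain ⟨g0, hg0⟩ := rp_ne_mod (hr s (by omega)) (hr t (by omega)) hne
  obtain ⟨G0, hG0⟩ : ∃ G0, G0 = (rp (Wn s t) s).coeff.support ∪ (rp (Wn s t) t).coeff.support :=
    ⟨_, rfl⟩
  have hinj : Function.Injective (fun g : Pt (Wn s t) → ℝ => ((g, 0, 0) : Gx (Wn s t))) := by
    intro a b h
    exact congrArg Prod.fst h
  have key := laur (W := Wn s t) (ex := exF s t) (i := s.sz + t.sz) (e := e) (v := vv n) (n := n)
    (P := 2 ^ eP n) (m := n) (Q := Qw n) hp (by omega) hN (ν := tab.map irow) hc hf hP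
    (by rw [List.length_map]; exact hl) (κ := 0) (by unfold Qw; omega) Nat.one_le_two_pow
    (G0.image fun g => (g, 0, 0))
    (fun g => (((rp (Wn s t) s).coeff g.1 : ℤ) : ZMod (bval e + 2)) -
      (((rp (Wn s t) t).coeff g.1 : ℤ) : ZMod (bval e + 2)))
    (by
      refine ⟨(g0, 0, 0), Finset.mem_image_of_mem _ ?_, sub_ne_zero.2 hg0⟩
      rw [hG0, Finset.mem_union]
      by_contra h
      rw [not_or] at h
      apply hg0
      rw [Finsupp.notMem_support_iff.1 h.1, Finsupp.notMem_support_iff.1 h.2])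
    (by
      intro g hg
      obtain ⟨g', hg', rfl⟩ := Finset.mem_image.1 hg
      have h1 : ∃ l : List (Pt (Wn s t) → ℝ), l.length ≤ n ∧
          (∀ v ∈ l, v ∈ lr (Wn s t) '' exA (exF s t) (s.sz + t.sz)) ∧ g' = l.sum := by
        rw [hG0] at hg'
        rcases Finset.mem_union.1 hg' with h | h
        · obtain ⟨l, h1, h2, h3⟩ := FinC_dg (FinC_at hs ht (u := s) (by simp)) g' h
          exact ⟨l, h1.trans (by omega), h2, h3⟩
        · obtain ⟨l, h1, h2, h3⟩ := FinC_dg (FinC_at hs ht (u := t) (by simp)) g' h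
          exact ⟨l, h1.trans (by omega), h2, h3⟩
      obtain ⟨l, h2, h3, h4⟩ := h1
      exact ⟨l, [], h2, Nat.zero_le _, h3, by simp, h4, by rw [List.sum_nil],
        fun x => Nat.zero_le _⟩)
    (by
      intro g hg x hx
      obtain ⟨g', hg', rfl⟩ := Finset.mem_image.1 hg
      exact absurd rfl hx)
  obtain ⟨A, hA⟩ : ∃ A, A = Qw n * vv n := ⟨_, rfl⟩
  obtain ⟨C, hC⟩ : ∃ C, C = cnt A (fun Z => h0 n e s t (tab) Z s = h0 n e s t tab Z t) :=
    ⟨_, rfl⟩
  have e1' : C ≤ cnt (Qw n * vv n) (fun Z => ∑ g ∈ G0.image (fun g => ((g, 0, 0) : Gx (Wn s t))),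
      ((((rp (Wn s t) s).coeff g.1 : ℤ) : ZMod (bval e + 2)) -
        (((rp (Wn s t) t).coeff g.1 : ℤ) : ZMod (bval e + 2))) *
        fz (Wn s t) e (vv n) (n + 1) (names (s.toks ++ t.toks)) (tab.map irow) (exF s t)
          (s.sz + t.sz) Z g = 0) := by
    rw [hC, hA]
    refine Pool.Agent.TW.cnt_mono fun Z _ hZ => ?_
    rw [Finset.sum_image (fun a _ b _ h => hinj h)]
    have h1 : ∀ g ∈ G0, ((((rp (Wn s t) s).coeff g : ℤ) : ZMod (bval e + 2)) -
        (((rp (Wn s t) t).coeff g : ℤ) : ZMod (bval e + 2))) *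
        fz (Wn s t) e (vv n) (n + 1) (names (s.toks ++ t.toks)) (tab.map irow) (exF s t)
          (s.sz + t.sz) Z (g, 0, 0) =
        (((rp (Wn s t) s).coeff g : ℤ) : ZMod (bval e + 2)) *
          chi (fun b => Pool.Agent.TW.wun e (bl (vv n) Z b)) (tab.map irow) (lv s t)
            (s.sz + t.sz) g -
        (((rp (Wn s t) t).coeff g : ℤ) : ZMod (bval e + 2)) *
          chi (fun b => Pool.Agent.TW.wun e (bl (vv n) Z b)) (tab.map irow) (lv s t)
            (s.sz + t.sz) g := by
      intro g _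
      have h2 : fz (Wn s t) e (vv n) (n + 1) (names (s.toks ++ t.toks)) (tab.map irow) (exF s t)
          (s.sz + t.sz) Z (g, 0, 0) = chi (fun b => Pool.Agent.TW.wun e (bl (vv n) Z b))
            (tab.map irow) (lv s t) (s.sz + t.sz) g := by
        show chi _ (tab.map irow) (fun a => lr (Wn s t) (exF s t a)) (s.sz + t.sz) g *
          chi _ (tab.map irow) (fun a => lr (Wn s t) (exF s t a)) (s.sz + t.sz) 0 *
          (0 : (List Bool ⊕ ℕ) →₀ ℕ).prod _ = _
        rw [chi_zero _ hc, Finsupp.prod_zero_index, mul_one, mul_one]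
      rw [h2]
      ring
    rw [Finset.sum_congr rfl h1, Finset.sum_sub_distrib, sub_eq_zero]
    have h3 : h0 n e s t tab Z s = _ := FinC_evl _ (rp (Wn s t) s) (s := G0) (by
      rw [hG0]
      exact Finset.subset_union_left)
    have h4 : h0 n e s t tab Z t = _ := FinC_evl _ (rp (Wn s t) t) (s := G0) (by
      rw [hG0]
      exact Finset.subset_union_right)
    rw [← h3, ← h4]
    exact hZ
  have hAa : 2 * (n * 2 ^ eP n) * Qw n + Qw n ≤ Aa n := by
    unfold Aa Ee
    have h1 : n ≤ 2 * (n + 3) ^ 3 := by nlinarith [Nat.zero_le (n ^ 3), Nat.zero_le (n ^ 2)]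
    have h2 := Nat.mul_le_mul_right (2 ^ eP n) h1
    exact Nat.add_le_add_right (Nat.mul_le_mul_right _ (Nat.mul_le_mul_left _ h2)) _
  have e2 : 2 ^ vv n * C ≤ Aa n * 2 ^ A := by
    refine (Nat.mul_le_mul_left _ e1').trans (key.trans ?_)
    rw [hA, ← pow_mul, mul_comm (vv n)]
    exact Nat.mul_le_mul_right _ hAa
  have e3 : 8 * C ≤ 2 ^ A := by
    have h1 : 2 ^ vv n * (8 * C) ≤ 2 ^ vv n * 2 ^ A := by
      calc 2 ^ vv n * (8 * C) = 8 * (2 ^ vv n * C) := by ring
        _ ≤ 8 * (Aa n * 2 ^ A) := Nat.mul_le_mul_left _ e2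
        _ = (8 * Aa n) * 2 ^ A := by ring
        _ ≤ 2 ^ vv n * 2 ^ A := Nat.mul_le_mul_right _ (par_fin n)
    exact Nat.le_of_mul_le_mul_left h1 (by positivity)
  have e4 : SS n = A + (Rr n - 1) * A := by
    unfold SS Rr
    rw [← hA]
    have : 6 * (n + 1) = 1 + (6 * (n + 1) - 1) := by omega
    conv_lhs => rw [this, add_mul, one_mul]
  have e5 : cnt (SS n) (fun zz => fin1 n e (names (s.toks ++ t.toks))
      (baseT n (s.toks ++ t.toks)) (s.toks ++ t.toks) tab zz = true) ≤
      C * 2 ^ ((Rr n - 1) * A) := by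
    rw [hC, ← Pool.Agent.TW.cnt_take, e4]
    refine Pool.Agent.TW.cnt_mono fun zz _ hz => ?_
    have h1 := (fin1_iff hn e (names (s.toks ++ t.toks)) hc zz).1 hz
    unfold bl at h1
    rw [zero_mul, List.drop_zero] at h1
    rw [hA]
    exact h1
  calc 8 * cnt (SS n) (fun zz => fin1 n e (names (s.toks ++ t.toks))
        (baseT n (s.toks ++ t.toks)) (s.toks ++ t.toks) tab zz = true)
      ≤ 8 * (C * 2 ^ ((Rr n - 1) * A)) := Nat.mul_le_mul_left _ e5
    _ = (8 * C) * 2 ^ ((Rr n - 1) * A) := by ring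
    _ ≤ 2 ^ A * 2 ^ ((Rr n - 1) * A) := Nat.mul_le_mul_right _ e3
    _ = 2 ^ SS n := by rw [e4, pow_add]

end Pool.Agent.TC
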