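import Mathlib
import Pool.Agent.H.MP_b2d7dd_lc.TC.Defs

/-!
# Module Fnc: the real functions of the terms

The variables are `w ∈ W`; the coordinates are the logarithms of the variables. `rf W t` = the real
function of a term, `lr W t` = its logarithm for a variable or a power. `ats t` = the variables and
powers which occur in `t` outside of powers. `At W as` = the variables in `W` and the terms of the list
`as`. `Cl W as` = every term of `as` is a power whose base and exponent are polynomials in the
variables of `W` and the later terms of the list, the base being `Big` and the exponent `NC`.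
-/

namespace Pool.Agent.TC

open Pool.Agent.TI (Tm)

/-- The points: logarithms of the variables. -/
abbrev Pt (W : Finset (List Bool)) : Type := W → ℝ

/-- The real function of a term. -/
noncomputable def rf (W : Finset (List Bool)) : Tm → Pt W → ℝ
  | .one => fun _ => 1
  | .var w => fun t => if h : w ∈ W then Real.exp (t ⟨w, h⟩) else 1
  | .add a b => fun t => rf W a t + rf W b t
  | .mul a b => fun t => rf W a t * rf W b t
  | .pow a b => fun t => Real.exp (rf W b t * Real.log (rf W a t))

/-- The logarithm of a variable or of a power. -/
noncomputable def lr (W : Finset (List Bool)) : Tm → Pt W → ℝ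
  | .var w => fun t => if h : w ∈ W then t ⟨w, h⟩ else 0
  | .pow a b => fun t => rf W b t * Real.log (rf W a t)
  | _ => fun _ => 0

/-- The variables and powers outside of powers. -/
def ats : Tm → Set Tm
  | .one => ∅
  | .var w => {.var w}
  | .add s t => ats s ∪ ats t
  | .mul s t => ats s ∪ ats t
  | .pow s t => {.pow s t}

/-- The variables in `W` and the terms of the list. -/
def At (W : Finset (List Bool)) (as : List Tm) : Set Tm := {t | (∃ w ∈ W, t = .var w) ∨ t ∈ as}

/-- New powers over a list. -/
def Nw (W : Finset (List Bool)) (as : List Tm) (t : Tm) : Prop :=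
  ∃ a b, t = .pow a b ∧ ats a ⊆ At W as ∧ ats b ⊆ At W as ∧ Big a ∧ NC b

/-- Closed lists. -/
def Cl (W : Finset (List Bool)) : List Tm → Prop
  | [] => True
  | t :: as => Nw W as t ∧ Cl W as

theorem rf_pos (W : Finset (List Bool)) (t : Tm) (x : Pt W) : 0 < rf W t x := by
  induction t with
  | one => exact one_pos
  | var w =>
    unfold rf
    split_ifs
    · exact Real.exp_pos _
    · exact one_pos
  | add a b ha hb => exact add_pos ha hb
  | mul a b ha hb => exact mul_pos ha hb
  | pow a b _ _ => exact Real.exp_pos _

theorem rf_var (W : Finset (List Bool)) (w : List Bool) (x : Pt W) :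
    rf W (.var w) x = Real.exp (lr W (.var w) x) := by
  by_cases h : w ∈ W
  · simp [rf, lr, h]
  · simp [rf, lr, h]

theorem rf_pow (W : Finset (List Bool)) (a b : Tm) (x : Pt W) :
    rf W (.pow a b) x = Real.exp (lr W (.pow a b) x) := rfl

theorem Cl.at_cons {W : Finset (List Bool)} {as : List Tm} (t : Tm) : At W as ⊆ At W (t :: as) :=
  fun _ hx => hx.imp_right (List.mem_cons_of_mem _)

/-- The terms of a closed list are powers over the list. -/
theorem Cl.nw {W : Finset (List Bool)} {as : List Tm} (h : Cl W as) : ∀ t ∈ as, Nw W as t := by
  induction as with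
  | nil => simp
  | cons t as ih =>
    intro s hs
    have key : ∀ r, Nw W as r → Nw W (t :: as) r := by
      rintro r ⟨a, b, h1, h2, h3, h4, h5⟩
      exact ⟨a, b, h1, h2.trans (Cl.at_cons t), h3.trans (Cl.at_cons t), h4, h5⟩
    rcases List.mem_cons.1 hs with rfl | hs
    · exact key _ h.1
    · exact key _ (ih h.2 s hs)

end Pool.Agent.TC
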