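import Pool.Agent.H.MP_b2d7dd_lc.TC.Dl
import Pool.Agent.H.MP_b2d7dd_lc.TC.Bg

/-!
# Module Fx: the relations hold for the logarithmic derivatives
-/

namespace Pool.Agent.TC

open Pool.Agent.TI (Tm)

variable {W : Finset (List Bool)} {F : Type} [Field F] [CharZero F]

private def Fx_ip : Tm → Bool
  | .pow _ _ => true
  | _ => false

private def Fx_A : Tm → Tm
  | .pow a _ => a
  | t => t

private def Fx_B : Tm → Tm
  | .pow _ b => b
  | t => t

private theorem Fx_eta {t : Tm} (h : Fx_ip t = true) : Tm.pow (Fx_A t) (Fx_B t) = t := by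
  cases t with
  | pow a b => rfl
  | one => exact absurd h (by decide)
  | var w => exact absurd h (fun h => Bool.noConfusion h)
  | add a b => exact absurd h (fun h => Bool.noConfusion h)
  | mul a b => exact absurd h (fun h => Bool.noConfusion h)

/-- Splitting a sum in powers and variables. -/
private theorem Fx_split {M : Type} [AddCommMonoid M] {S : Finset Tm}
    (hS : ∀ a ∈ S, (∃ w ∈ W, a = .var w) ∨ Fx_ip a = true) (f : Tm → M) :
    ∑ a ∈ S, f a = ∑ a ∈ S.filter (fun a => Fx_ip a = true), f a +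
      ∑ w ∈ W, (if Tm.var w ∈ S then f (.var w) else 0) := by
  classical
  rw [← Finset.sum_filter_add_sum_filter_not S (fun a => Fx_ip a = true)]
  congr 1
  have e : S.filter (fun a => ¬ Fx_ip a = true) =
      (W.filter fun w => Tm.var w ∈ S).image Tm.var := by
    ext a
    rw [Finset.mem_filter, Finset.mem_image]
    constructor
    · rintro ⟨h1, h2⟩
      rcases hS a h1 with ⟨w, hw, rfl⟩ | h3
      · exact ⟨w, Finset.mem_filter.2 ⟨hw, h1⟩, rfl⟩
      · exact absurd h3 h2
    · rintro ⟨w, hw, rfl⟩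
      exact ⟨(Finset.mem_filter.1 hw).2, fun h => Bool.noConfusion h⟩
  rw [e, Finset.sum_image, Finset.sum_filter]
  intro a _ b _ hab
  exact Tm.var.inj hab

/-- Induction on the list with `bg`. -/
theorem ch_all {ρ lam' p : Tm → F} (h1 : ∀ w ∈ W, p (.var w) = lam' (.var w))
    (h2 : ∀ a b, p (.pow a b) = ρ b * lam' a)
    (hstep : ∀ as, Cl W as → Ch W as p → Pv W as F ρ lam') :
    ∀ as, Cl W as → Ch W as p := by
  classical
  intro as
  induction as with
  | nil =>
    intro _ S k hS h0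
    refine Finset.sum_eq_zero fun a ha => ?_
    have hv : ∀ b ∈ S, ∃ w ∈ W, b = .var w := fun b hb => by
      rcases hS hb with h3 | h3
      · exact h3
      · exact absurd h3 List.not_mem_nil
    obtain ⟨w, hw, rfl⟩ := hv a ha
    have h4 := h0 (Pi.single ⟨w, hw⟩ 1)
    rw [Finset.sum_eq_single_of_mem _ ha] at h4
    · have h5 : lr W (.var w) (Pi.single ⟨w, hw⟩ 1) = 1 := by
        show (if h : w ∈ W then (Pi.single ⟨w, hw⟩ 1 : Pt W) ⟨w, h⟩ else 0) = 1
        rw [dif_pos hw, Pi.single_eq_same]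
      rw [h5, mul_one] at h4
      have h6 : k (.var w) = 0 := Int.cast_eq_zero.1 h4
      rw [h6, Int.cast_zero, zero_mul]
    · intro b hb hne
      obtain ⟨w', hw', rfl⟩ := hv b hb
      have h5 : lr W (.var w') (Pi.single ⟨w, hw⟩ 1) = 0 := by
        show (if h : w' ∈ W then (Pi.single ⟨w, hw⟩ 1 : Pt W) ⟨w', h⟩ else 0) = 0
        rw [dif_pos hw', Pi.single_eq_of_ne]
        intro h6
        exact hne (congrArg Tm.var (congrArg Subtype.val h6))
      rw [h5, mul_zero]
  | cons t as ih =>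
    intro hc S k hS h0
    have hch := ih hc.2
    have hpv := hstep as hc.2 hch
    -- the powers of `S`
    have hnw : ∀ a ∈ t :: as, Nw W as a := by
      intro a ha
      rcases List.mem_cons.1 ha with rfl | ha
      · exact hc.1
      · exact Cl.nw hc.2 a ha
    have hS' : ∀ a ∈ S, (∃ w ∈ W, a = .var w) ∨ Fx_ip a = true := by
      intro a ha
      rcases hS ha with h3 | h3
      · exact Or.inl h3
      · obtain ⟨b, c, rfl, -⟩ := hnw a h3
        exact Or.inr rfl
    have hats : ∀ j ∈ S.filter (fun a => Fx_ip a = true),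
        ats (Fx_A j) ⊆ At W as ∧ ats (Fx_B j) ⊆ At W as := by
      intro j hj
      rw [Finset.mem_filter] at hj
      rcases hS hj.1 with ⟨w, -, rfl⟩ | h3
      · exact Bool.noConfusion hj.2
      · obtain ⟨b, c, rfl, hb, hc', -⟩ := hnw j h3
        exact ⟨hb, hc'⟩
    have key := bg hc.2 hpv (S.filter (fun a => Fx_ip a = true)) Fx_A Fx_B
      (fun j hj => (hats j hj).1) (fun j hj => (hats j hj).2) k
      (fun w => if Tm.var w ∈ S then k (.var w) else 0) (by
        intro x
        have h3 := h0 x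
        rw [Fx_split hS'] at h3
        refine Eq.trans ?_ h3
        congr 1
        · refine Finset.sum_congr rfl fun j hj => ?_
          rw [Fx_eta (Finset.mem_filter.1 hj).2]
        · refine Finset.sum_congr rfl fun w _ => ?_
          split_ifs
          · rfl
          · rw [Int.cast_zero, zero_mul])
    rw [Fx_split hS']
    refine Eq.trans ?_ key
    congr 1
    · refine Finset.sum_congr rfl fun j hj => ?_
      rw [← h2, Fx_eta (Finset.mem_filter.1 hj).2]
    · refine Finset.sum_congr rfl fun w hw => ?_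
      split_ifs
      · rw [h1 w hw]
      · rw [Int.cast_zero, zero_mul]

private theorem Fx_mo {S : AddSubmonoid (Pt W → ℝ)} {f : (Pt W → ℝ) → F} (hf : Mo ⊤ f) :
    Mo S f :=
  ⟨hf.zero, fun g _ h _ => hf.add g trivial h trivial⟩

private theorem Fx_lc {P : Pr F}
    (hlc : ∀ m n : ℕ, m ≠ 0 → n ≠ 0 → P.lc (m * n) = P.lc m + P.lc n) : P.lc 1 = 0 := by
  have h := hlc 1 1 one_ne_zero one_ne_zero
  rw [mul_one] at h
  exact left_eq_add.1 h

/-- Parallel values from the first order data. -/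
theorem pv_of {as : List Tm} (hc : Cl W as) {P : Pr F} {f g : (Pt W → ℝ) → F}
    (hf : Mo ⊤ f) (hg : Mo ⊤ g) (hfP : ∀ a ∈ At W as, P.f a = f (lr W a))
    (hgP : ∀ a ∈ At W as, P.g a = g (lr W a)) (hiv : P.iv = fun x => x⁻¹)
    (hne : ∀ t : Tm, ats t ⊆ At W as → av P.f t ≠ 0)
    (hlc : ∀ m n : ℕ, m ≠ 0 → n ≠ 0 → P.lc (m * n) = P.lc m + P.lc n)
    (hch : Ch W as (ph P)) : Pv W as F (av P.g) (lam P) := by
  obtain ⟨φ, hφ0, hφ1, hφ2⟩ := exists_phi hch
  have hl1 := Fx_lc hlc
  have hf' : Mo (VA W (At W as)) f := Fx_mo hf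
  have hg' : Mo (VA W (At W as)) g := Fx_mo hg
  refine ⟨rfl, fun _ _ _ _ => rfl, fun _ _ _ _ => rfl, ?_, ?_, ?_, ?_⟩
  · intro s t hs ht h
    rw [av_evl hg' hgP hs, av_evl hg' hgP ht, rp_ext hc hs ht h]
  · intro s t hs ht
    have h1 := hne s hs
    have h2 := hne t ht
    have h3 := hlc (e1 s) (e1 t) (Nat.one_le_iff_ne_zero.1 (e1_pos s))
      (Nat.one_le_iff_ne_zero.1 (e1_pos t))
    show (dl P s * av P.f t + av P.f s * dl P t) * P.iv (av P.f s * av P.f t) +
      P.lc (e1 s * e1 t) = (dl P s * P.iv (av P.f s) + P.lc (e1 s)) +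
        (dl P t * P.iv (av P.f t) + P.lc (e1 t))
    rw [h3, hiv]
    beta_reduce
    field_simp
    ring
  · intro s t hs ht h
    have hr := rp_ext hc hs ht h
    have hA : ∀ v ∈ VA W (At W as), ∀ w ∈ VA W (At W as), φ (v + w) = φ v + φ w := hφ1
    have e2 : dl P s = dl P t := by
      rw [dl_evl hf' hφ0 hA hfP hφ2 hs, dl_evl hf' hφ0 hA hfP hφ2 ht, hr]
    have e3 : av P.f s = av P.f t := by
      rw [av_evl hf' hfP hs, av_evl hf' hfP ht, hr]
    have e4 : e1 s = e1 t := by
      have h1 := e1_evl (W := W) s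
      rw [hr, ← e1_evl (W := W) t] at h1
      exact Nat.cast_injective h1
    unfold lam
    rw [e2, e3, e4]
  · intro a b hab
    have h1 : P.f (.pow a b) ≠ 0 := hne (.pow a b) (by
      intro t ht
      rw [show t = .pow a b from ht]
      exact Or.inr hab)
    show P.f (.pow a b) * (av P.g b * (dl P a * P.iv (av P.f a) + P.lc (e1 a))) *
      P.iv (P.f (.pow a b)) + P.lc 1 = av P.g b * (dl P a * P.iv (av P.f a) + P.lc (e1 a))
    rw [hl1, add_zero, hiv]
    beta_reduce
    rw [mul_comm (P.f (.pow a b)), mul_assoc, mul_inv_cancel₀ h1, mul_one]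

/-- The relations hold for the first order data in a field. -/
theorem ch_F {P : Pr F} {f g : (Pt W → ℝ) → F} (hf : Mo ⊤ f) (hg : Mo ⊤ g)
    (hfP : ∀ a, P.f a = f (lr W a)) (hgP : ∀ a, P.g a = g (lr W a))
    (hiv : P.iv = fun x => x⁻¹) (hne : ∀ t : Tm, av P.f t ≠ 0)
    (hlc : ∀ m n : ℕ, m ≠ 0 → n ≠ 0 → P.lc (m * n) = P.lc m + P.lc n) :
    ∀ as, Cl W as → Ch W as (ph P) := by
  have hl1 := Fx_lc hlc
  refine ch_all (ρ := av P.g) (lam' := lam P) ?_ (fun a b => rfl) ?_
  · intro w _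
    have h1 : P.f (.var w) ≠ 0 := hne (.var w)
    show P.α w = P.f (.var w) * P.α w * P.iv (P.f (.var w)) + P.lc 1
    rw [hl1, add_zero, hiv]
    beta_reduce
    rw [mul_comm (P.f (.var w)), mul_assoc, mul_inv_cancel₀ h1, mul_one]
  · intro as hc hch
    exact pv_of hc hf hg (fun a _ => hfP a) (fun a _ => hgP a) hiv (fun t _ => hne t) hlc hch

end Pool.Agent.TC
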