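import Pool.Agent.H.MP_b2d7dd_lc.TC.An
import Pool.Agent.H.MP_b2d7dd_lc.TC.Dfr
import Pool.Agent.H.MP_b2d7dd_lc.TC.Df

/-!
# Module Hf: the field of fractions of the ring of the real analytic functions

`toH W f` = the element of the field given by the function `f` (zero if `f` is not analytic). `DD W` =
the derivations (the coordinates are the logarithms of the variables).
-/

namespace Pool.Agent.TC

variable (W : Finset (List Bool))

/-- The field. -/
def HW : Type := FractionRing (An W)

noncomputable instance : Field (HW W) := inferInstanceAs (Field (FractionRing (An W)))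

noncomputable instance : Algebra (An W) (HW W) :=
  inferInstanceAs (Algebra (An W) (FractionRing (An W)))

instance : IsFractionRing (An W) (HW W) :=
  inferInstanceAs (IsFractionRing (An W) (FractionRing (An W)))

open Classical in
/-- The element given by a function. -/
noncomputable def toH (f : Pt W → ℝ) : HW W :=
  if h : f ∈ An W then algebraMap (An W) (HW W) ⟨f, h⟩ else 0

theorem Hf_of {f : Pt W → ℝ} (hf : f ∈ An W) : toH W f = algebraMap (An W) (HW W) ⟨f, hf⟩ := by
  unfold toH
  rw [dif_pos hf]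

theorem Hf_injective : Function.Injective (algebraMap (An W) (HW W)) :=
  IsFractionRing.injective (An W) (HW W)

/-- The derivation of the ring. -/
noncomputable def Hf_der (w : W) : Derivation ℤ (An W) (An W) :=
  Derivation.mk' (AddMonoidHom.mk' (fun f : An W => (⟨pd W w f.1, pd_mem W f.2⟩ : An W)) (by
    intro f g
    exact Subtype.ext (pd_add W f.2 g.2))).toIntLinearMap (by
    intro f g
    exact Subtype.ext (pd_mul W f.2 g.2))

theorem exists_DD : ∃ D : W → Derivation ℤ (HW W) (HW W),
    ∀ w, ∀ f ∈ An W, D w (toH W f) = toH W (pd W w f) := by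
  have h : ∀ w : W, ∃ D : Derivation ℤ (HW W) (HW W),
      ∀ a : An W, D (algebraMap (An W) (HW W) a) = algebraMap (An W) (HW W) (Hf_der W w a) :=
    fun w => exists_frac_der (Hf_der W w)
  choose D hD using h
  refine ⟨D, fun w f hf => ?_⟩
  rw [Hf_of W hf, hD, Hf_of W (pd_mem W hf)]
  rfl

/-- The derivations. -/
noncomputable def DD : W → Derivation ℤ (HW W) (HW W) := Classical.choose (exists_DD W)

theorem DD_toH {w : W} {f : Pt W → ℝ} (hf : f ∈ An W) : DD W w (toH W f) = toH W (pd W w f) :=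
  Classical.choose_spec (exists_DD W) w f hf

instance : CharZero (HW W) := charZero_of_injective_algebraMap (Hf_injective W)

variable {W}

theorem toH_add {f g : Pt W → ℝ} (hf : f ∈ An W) (hg : g ∈ An W) :
    toH W (fun t => f t + g t) = toH W f + toH W g := by
  have h : (fun t => f t + g t) ∈ An W := (An W).add_mem hf hg
  rw [Hf_of W h, Hf_of W hf, Hf_of W hg, ← map_add]
  rfl

theorem toH_mul {f g : Pt W → ℝ} (hf : f ∈ An W) (hg : g ∈ An W) :
    toH W (fun t => f t * g t) = toH W f * toH W g := by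
  have h : (fun t => f t * g t) ∈ An W := (An W).mul_mem hf hg
  rw [Hf_of W h, Hf_of W hf, Hf_of W hg, ← map_mul]
  rfl

theorem toH_one : toH W (fun _ => 1) = 1 := by
  have h : (fun _ => 1 : Pt W → ℝ) ∈ An W := (An W).one_mem
  rw [Hf_of W h]
  exact map_one _

theorem Hf_zero : toH W (fun _ => 0) = 0 := by
  have h : (fun _ => 0 : Pt W → ℝ) ∈ An W := (An W).zero_mem
  rw [Hf_of W h]
  exact map_zero _

theorem toH_inj {f g : Pt W → ℝ} (hf : f ∈ An W) (hg : g ∈ An W) (h : toH W f = toH W g) :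
    f = g := by
  rw [Hf_of W hf, Hf_of W hg] at h
  exact congrArg Subtype.val (Hf_injective W h)

theorem Hf_ne {f : Pt W → ℝ} (hf : f ∈ An W) (t : Pt W) (h : f t ≠ 0) : toH W f ≠ 0 := by
  intro h0
  rw [← Hf_zero] at h0
  exact h (congrFun (toH_inj hf (An W).zero_mem h0) t)

theorem toH_smul (c : ℝ) {f : Pt W → ℝ} (hf : f ∈ An W) :
    toH W (fun t => c * f t) = toH W (fun _ => c) * toH W f :=
  toH_mul (f := fun _ => c) analyticOnNhd_const hf

theorem Hf_sum {J : Type} (s : Finset J) (f : J → Pt W → ℝ) (hf : ∀ j ∈ s, f j ∈ An W) :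
    (fun t => ∑ j ∈ s, f j t) ∈ An W := by
  have h : (fun t => ∑ j ∈ s, f j t) = ∑ j ∈ s, f j := by
    funext t
    rw [Finset.sum_apply]
  rw [h]
  exact (An W).sum_mem hf

theorem Hf_prod {J : Type} (s : Finset J) (f : J → Pt W → ℝ) (hf : ∀ j ∈ s, f j ∈ An W) :
    (fun t => ∏ j ∈ s, f j t) ∈ An W := by
  have h : (fun t => ∏ j ∈ s, f j t) = ∏ j ∈ s, f j := by
    funext t
    rw [Finset.prod_apply]
  rw [h]
  exact (An W).prod_mem hf

theorem toH_sum {J : Type} (s : Finset J) (f : J → Pt W → ℝ) (hf : ∀ j ∈ s, f j ∈ An W) :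
    toH W (fun t => ∑ j ∈ s, f j t) = ∑ j ∈ s, toH W (f j) := by
  classical
  induction s using Finset.induction_on with
  | empty =>
    simp only [Finset.sum_empty]
    exact Hf_zero
  | insert a s ha ih =>
    have h1 : ∀ j ∈ s, f j ∈ An W := fun j hj => hf j (Finset.mem_insert_of_mem hj)
    rw [Finset.sum_insert ha, ← ih h1, ← toH_add (hf a (Finset.mem_insert_self a s)) (Hf_sum s f h1)]
    congr 1
    funext t
    rw [Finset.sum_insert ha]

theorem toH_prod {J : Type} (s : Finset J) (f : J → Pt W → ℝ) (hf : ∀ j ∈ s, f j ∈ An W) :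
    toH W (fun t => ∏ j ∈ s, f j t) = ∏ j ∈ s, toH W (f j) := by
  classical
  induction s using Finset.induction_on with
  | empty =>
    simp only [Finset.prod_empty]
    exact toH_one
  | insert a s ha ih =>
    have h1 : ∀ j ∈ s, f j ∈ An W := fun j hj => hf j (Finset.mem_insert_of_mem hj)
    rw [Finset.prod_insert ha, ← ih h1, ← toH_mul (hf a (Finset.mem_insert_self a s)) (Hf_prod s f h1)]
    congr 1
    funext t
    rw [Finset.prod_insert ha]

theorem DD_exp {w : W} {f : Pt W → ℝ} (hf : f ∈ An W) :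
    toH W (fun t => Real.exp (f t)) ≠ 0 ∧
      DD W w (toH W fun t => Real.exp (f t)) =
        toH W (fun t => Real.exp (f t)) * DD W w (toH W f) := by
  obtain ⟨h1, h2⟩ := pd_exp W (w := w) hf
  refine ⟨Hf_ne h1 0 (Real.exp_pos _).ne', ?_⟩
  rw [DD_toH W h1, DD_toH W hf, h2]
  exact toH_mul h1 (pd_mem W hf)

theorem DD_log {w : W} {f : Pt W → ℝ} (hf : f ∈ An W) (h0 : ∀ t, 0 < f t) :
    toH W f ≠ 0 ∧ DD W w (toH W fun t => Real.log (f t)) = DD W w (toH W f) / toH W f := by
  obtain ⟨h1, h2⟩ := pd_log W (w := w) hf h0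
  have hne : toH W f ≠ 0 := Hf_ne hf 0 (h0 0).ne'
  refine ⟨hne, ?_⟩
  rw [eq_div_iff hne, DD_toH W h1, DD_toH W hf, h2, mul_comm]
  exact (toH_mul hf (pd_mem W h1)).symm

theorem DD_coord (w w' : W) : DD W w (toH W fun t => t w') = if w' = w then 1 else 0 := by
  obtain ⟨h1, h2⟩ := pd_coord W w w'
  rw [DD_toH W h1, h2]
  split
  · exact toH_one
  · exact Hf_zero

end Pool.Agent.TC
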