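import Pool.Agent.H.MP_b2d7dd_lc.TC.Anq
import Pool.Agent.H.MP_b2d7dd_lc.TC.Hf

/-!
# Module Hfc: the field of constants
-/

namespace Pool.Agent.TC

variable {W : Finset (List Bool)}

private theorem Hfc_coe (f : An W) : algebraMap (An W) (HW W) f = toH W f.1 := by
  unfold toH
  rw [dif_pos f.2]

/-- The constants are the real numbers. -/
theorem mem_Cst_DD {x : HW W} : x ∈ Cst (DD W) ↔ ∃ c : ℝ, x = toH W (fun _ => c) := by
  constructor
  · intro hx
    obtain ⟨f, g, hg, rfl⟩ := IsFractionRing.div_surjective (A := An W) x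
    have hg0 : g ≠ 0 := nonZeroDivisors.ne_zero hg
    have hg1 : algebraMap (An W) (HW W) g ≠ 0 := by
      rw [Ne, map_eq_zero_iff _ (IsFractionRing.injective (An W) (HW W))]
      exact hg0
    have h1 : ∀ w, g.1 * pd W w f.1 = f.1 * pd W w g.1 := by
      intro w
      have h2 : DD W w (algebraMap (An W) (HW W) f / algebraMap (An W) (HW W) g) = 0 := hx w
      rw [Derivation.leibniz_div, smul_eq_mul, smul_eq_mul, smul_eq_mul, mul_eq_zero] at h2
      rcases h2 with h2 | h2
      · exact absurd h2 (pow_ne_zero 2 (inv_ne_zero hg1))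
      · have h3 := sub_eq_zero.1 h2
        rw [Hfc_coe, Hfc_coe, DD_toH W f.2, DD_toH W g.2, ← toH_mul g.2 (pd_mem W f.2),
          ← toH_mul f.2 (pd_mem W g.2)] at h3
        exact toH_inj ((An W).mul_mem g.2 (pd_mem W f.2)) ((An W).mul_mem f.2 (pd_mem W g.2)) h3
    obtain ⟨c, hc⟩ := quot_const W f.2 g.2 (fun h2 => hg0 (Subtype.ext h2)) h1
    refine ⟨c, ?_⟩
    rw [div_eq_iff hg1, Hfc_coe, Hfc_coe, hc, toH_smul c g.2]
  · rintro ⟨c, rfl⟩ w
    rw [DD_toH W (show (fun _ => c : Pt W → ℝ) ∈ An W from analyticOnNhd_const)]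
    have h1 : pd W w (fun _ => c) = (0 : An W).1 := by
      funext t
      unfold pd
      rw [fderiv_const_apply]
      rfl
    rw [h1, ← Hfc_coe, map_zero]

end Pool.Agent.TC
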