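import Mathlib

/-!
# Module Lx: monoid rings

`evl f P` = the value of `P` for the values `f` of the exponents. `Mo S f` = `f` is multiplicative on
the submonoid `S`. `Su S P` = the exponents of `P` are in `S`. `nrm P` = the sum of the absolute values
of the coefficients.
-/

namespace Pool.Agent.TC

variable {G : Type} [AddCommMonoid G] {K : Type} [CommRing K]

/-- The value. -/
noncomputable def evl (f : G → K) (P : AddMonoidAlgebra ℤ G) : K :=
  P.coeff.sum fun g c => (c : K) * f g

/-- Multiplicative functions. -/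
structure Mo (S : AddSubmonoid G) (f : G → K) : Prop where
  zero : f 0 = 1
  add : ∀ g ∈ S, ∀ h ∈ S, f (g + h) = f g * f h

/-- The exponents are in `S`. -/
def Su (S : AddSubmonoid G) (P : AddMonoidAlgebra ℤ G) : Prop := ∀ g ∈ P.coeff.support, g ∈ S

/-- The norm. -/
noncomputable def nrm (P : AddMonoidAlgebra ℤ G) : ℕ := P.coeff.sum fun _ c => c.natAbs

variable {S : AddSubmonoid G} {f : G → K} {P Q : AddMonoidAlgebra ℤ G}

private theorem Lx_zs (n : ℤ) (P : AddMonoidAlgebra ℤ G) (g : G) :
    (n • P).coeff g = n * P.coeff g := by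
  rw [AddMonoidAlgebra.coeff_smul_apply, smul_eq_mul]

private theorem Lx_single {g : G} (hg : g ∈ S) (c : ℤ) : Su S (AddMonoidAlgebra.single g c) := by
  intro h hh
  rw [AddMonoidAlgebra.coeff_single] at hh
  have h1 := Finset.mem_singleton.1 (Finsupp.support_single_subset hh)
  rw [h1]
  exact hg

private theorem Lx_one : Su S (1 : AddMonoidAlgebra ℤ G) := by
  rw [AddMonoidAlgebra.one_def]
  exact Lx_single S.zero_mem 1

private theorem Lx_mul (hP : Su S P) (hQ : Su S Q) : Su S (P * Q) := by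
  classical
  intro g hg
  obtain ⟨a, ha, b, hb, rfl⟩ := Finset.mem_add.1 (AddMonoidAlgebra.support_coeff_mul_subset P Q hg)
  exact S.add_mem (hP a ha) (hQ b hb)

private theorem Lx_nrm (P : AddMonoidAlgebra ℤ G) {s : Finset G} (h : P.coeff.support ⊆ s) :
    nrm P = ∑ g ∈ s, (P.coeff g).natAbs := by
  unfold nrm
  rw [Finsupp.sum_of_support_subset _ h _ (fun g _ => Int.natAbs_zero)]

private theorem Lx_nrm_single (g : G) (c : ℤ) :
    nrm (AddMonoidAlgebra.single g c) = c.natAbs := by
  unfold nrm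
  rw [AddMonoidAlgebra.coeff_single, Finsupp.sum_single_index]
  exact Int.natAbs_zero

private theorem Lx_nrm_zero : nrm (0 : AddMonoidAlgebra ℤ G) = 0 := by
  unfold nrm
  rw [AddMonoidAlgebra.coeff_zero, Finsupp.sum_zero_index]

private theorem Lx_nrm_add (P Q : AddMonoidAlgebra ℤ G) : nrm (P + Q) ≤ nrm P + nrm Q := by
  classical
  rw [Lx_nrm P (s := P.coeff.support ∪ Q.coeff.support) Finset.subset_union_left,
    Lx_nrm Q (s := P.coeff.support ∪ Q.coeff.support) Finset.subset_union_right,
    Lx_nrm (P + Q) (s := P.coeff.support ∪ Q.coeff.support) (by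
      rw [AddMonoidAlgebra.coeff_add]
      exact Finsupp.support_add), ← Finset.sum_add_distrib]
  refine Finset.sum_le_sum fun g _ => ?_
  rw [AddMonoidAlgebra.coeff_add, Finsupp.add_apply]
  exact Int.natAbs_add_le _ _

private theorem Lx_nrm_sum {J : Type} (s : Finset J) (P : J → AddMonoidAlgebra ℤ G) :
    nrm (∑ j ∈ s, P j) ≤ ∑ j ∈ s, nrm (P j) := by
  classical
  induction s using Finset.induction_on with
  | empty => rw [Finset.sum_empty, Finset.sum_empty, Lx_nrm_zero]
  | insert a s ha ih =>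
    rw [Finset.sum_insert ha, Finset.sum_insert ha]
    exact (Lx_nrm_add _ _).trans (Nat.add_le_add_left ih _)

theorem evl_add : evl f (P + Q) = evl f P + evl f Q := by
  unfold evl
  rw [AddMonoidAlgebra.coeff_add]
  refine Finsupp.sum_add_index' (fun g => ?_) (fun g c d => ?_)
  · rw [Int.cast_zero, zero_mul]
  · rw [Int.cast_add, add_mul]

theorem evl_zsmul (n : ℤ) : evl f (n • P) = n * evl f P := by
  have h1 : (n • P).coeff.support ⊆ P.coeff.support := by
    intro g hg
    rw [Finsupp.mem_support_iff] at hg ⊢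
    intro h0
    apply hg
    rw [Lx_zs, h0, mul_zero]
  unfold evl
  rw [Finsupp.sum_of_support_subset _ h1 _ (fun g _ => by rw [Int.cast_zero, zero_mul]),
    Finsupp.sum, Finset.mul_sum]
  refine Finset.sum_congr rfl fun g _ => ?_
  rw [Lx_zs, Int.cast_mul, mul_assoc]

theorem evl_zero : evl f (0 : AddMonoidAlgebra ℤ G) = 0 := by
  unfold evl
  rw [AddMonoidAlgebra.coeff_zero, Finsupp.sum_zero_index]

theorem evl_sum {J : Type} (s : Finset J) (P : J → AddMonoidAlgebra ℤ G) :
    evl f (∑ j ∈ s, P j) = ∑ j ∈ s, evl f (P j) := by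
  classical
  induction s using Finset.induction_on with
  | empty => rw [Finset.sum_empty, Finset.sum_empty, evl_zero]
  | insert a s ha ih => rw [Finset.sum_insert ha, Finset.sum_insert ha, evl_add, ih]

theorem evl_single (g : G) (c : ℤ) : evl f (AddMonoidAlgebra.single g c) = c * f g := by
  unfold evl
  rw [AddMonoidAlgebra.coeff_single, Finsupp.sum_single_index]
  rw [Int.cast_zero, zero_mul]

theorem evl_one (hf : Mo S f) : evl f (1 : AddMonoidAlgebra ℤ G) = 1 := by
  rw [AddMonoidAlgebra.one_def, evl_single, hf.zero, Int.cast_one, one_mul]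

theorem evl_mul (hf : Mo S f) (hP : Su S P) (hQ : Su S Q) : evl f (P * Q) = evl f P * evl f Q := by
  have h1 : P * Q = ∑ g ∈ P.coeff.support, ∑ h ∈ Q.coeff.support,
      AddMonoidAlgebra.single (g + h) (P.coeff g * Q.coeff h) := by
    rw [AddMonoidAlgebra.mul_def]
    rfl
  have h2 : evl f P * evl f Q = ∑ g ∈ P.coeff.support, ∑ h ∈ Q.coeff.support,
      ((P.coeff g : K) * f g) * ((Q.coeff h : K) * f h) := by
    rw [← Finset.sum_mul_sum]
    rfl
  rw [h1, h2, evl_sum]
  refine Finset.sum_congr rfl fun g hg => ?_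
  rw [evl_sum]
  refine Finset.sum_congr rfl fun h hh => ?_
  rw [evl_single, hf.add g (hP g hg) h (hQ h hh), Int.cast_mul]
  ring

theorem evl_prod (hf : Mo S f) {J : Type} (s : Finset J) (P : J → AddMonoidAlgebra ℤ G)
    (hP : ∀ j ∈ s, Su S (P j)) : evl f (∏ j ∈ s, P j) = ∏ j ∈ s, evl f (P j) := by
  classical
  have key : Su S (∏ j ∈ s, P j) ∧ evl f (∏ j ∈ s, P j) = ∏ j ∈ s, evl f (P j) := by
    induction s using Finset.induction_on with
    | empty =>
      rw [Finset.prod_empty, Finset.prod_empty]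
      exact ⟨Lx_one, evl_one hf⟩
    | insert a s ha ih =>
      obtain ⟨h1, h2⟩ := ih fun j hj => hP j (Finset.mem_insert_of_mem hj)
      have h3 := hP a (Finset.mem_insert_self a s)
      rw [Finset.prod_insert ha, Finset.prod_insert ha]
      exact ⟨Lx_mul h3 h1, by rw [evl_mul hf h3 h1, h2]⟩
  exact key.2

theorem evl_congr {f' : G → K} (hP : Su S P) (h : ∀ g ∈ S, f g = f' g) :
    evl f P = evl f' P := by
  unfold evl
  refine Finsupp.sum_congr fun g hg => ?_
  rw [h g (hP g hg)]

theorem Su.add (hP : Su S P) (hQ : Su S Q) : Su S (P + Q) := by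
  classical
  intro g hg
  rw [AddMonoidAlgebra.coeff_add] at hg
  rcases Finset.mem_union.1 (Finsupp.support_add hg) with h | h
  · exact hP g h
  · exact hQ g h

theorem Su.mul (hP : Su S P) (hQ : Su S Q) : Su S (P * Q) := by
  exact Lx_mul hP hQ

theorem Su.one : Su S (1 : AddMonoidAlgebra ℤ G) := by
  exact Lx_one

theorem Su.zero : Su S (0 : AddMonoidAlgebra ℤ G) := by
  intro g hg
  rw [AddMonoidAlgebra.coeff_zero, Finsupp.support_zero] at hg
  exact absurd hg (Finset.notMem_empty g)

theorem Su.single {g : G} (hg : g ∈ S) (c : ℤ) : Su S (AddMonoidAlgebra.single g c) := by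
  exact Lx_single hg c

theorem Su.sum {J : Type} (s : Finset J) (P : J → AddMonoidAlgebra ℤ G)
    (hP : ∀ j ∈ s, Su S (P j)) : Su S (∑ j ∈ s, P j) := by
  classical
  induction s using Finset.induction_on with
  | empty =>
    rw [Finset.sum_empty]
    exact Su.zero
  | insert a s ha ih =>
    rw [Finset.sum_insert ha]
    exact Su.add (hP a (Finset.mem_insert_self a s))
      (ih fun j hj => hP j (Finset.mem_insert_of_mem hj))

theorem Su.prod {J : Type} (s : Finset J) (P : J → AddMonoidAlgebra ℤ G)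
    (hP : ∀ j ∈ s, Su S (P j)) : Su S (∏ j ∈ s, P j) := by
  classical
  induction s using Finset.induction_on with
  | empty =>
    rw [Finset.prod_empty]
    exact Su.one
  | insert a s ha ih =>
    rw [Finset.prod_insert ha]
    exact Su.mul (hP a (Finset.mem_insert_self a s))
      (ih fun j hj => hP j (Finset.mem_insert_of_mem hj))

theorem Su.zsmul (hP : Su S P) (n : ℤ) : Su S (n • P) := by
  intro g hg
  refine hP g ?_
  rw [Finsupp.mem_support_iff] at hg ⊢
  intro h0
  apply hg
  rw [Lx_zs, h0, mul_zero]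

theorem nrm_add : nrm (P + Q) ≤ nrm P + nrm Q := by
  exact Lx_nrm_add P Q

theorem nrm_mul : nrm (P * Q) ≤ nrm P * nrm Q := by
  have h1 : P * Q = ∑ g ∈ P.coeff.support, ∑ h ∈ Q.coeff.support,
      AddMonoidAlgebra.single (g + h) (P.coeff g * Q.coeff h) := by
    rw [AddMonoidAlgebra.mul_def]
    rfl
  have h2 : nrm P * nrm Q = ∑ g ∈ P.coeff.support, ∑ h ∈ Q.coeff.support,
      (P.coeff g).natAbs * (Q.coeff h).natAbs := by
    rw [← Finset.sum_mul_sum]
    rfl
  rw [h1, h2]
  refine (Lx_nrm_sum _ _).trans (Finset.sum_le_sum fun g _ => ?_)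
  refine (Lx_nrm_sum _ _).trans (Finset.sum_le_sum fun h _ => ?_)
  rw [Lx_nrm_single, Int.natAbs_mul]

theorem nrm_zsmul (n : ℤ) : nrm (n • P) = n.natAbs * nrm P := by
  have h1 : (n • P).coeff.support ⊆ P.coeff.support := by
    intro g hg
    rw [Finsupp.mem_support_iff] at hg ⊢
    intro h0
    apply hg
    rw [Lx_zs, h0, mul_zero]
  rw [Lx_nrm (n • P) h1, Lx_nrm P subset_rfl, Finset.mul_sum]
  refine Finset.sum_congr rfl fun g _ => ?_
  rw [Lx_zs, Int.natAbs_mul]

theorem nrm_single (g : G) (c : ℤ) : nrm (AddMonoidAlgebra.single g c) = c.natAbs := by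
  exact Lx_nrm_single g c

theorem nrm_one : nrm (1 : AddMonoidAlgebra ℤ G) = 1 := by
  rw [AddMonoidAlgebra.one_def, nrm_single, Int.natAbs_one]

theorem nrm_zero : nrm (0 : AddMonoidAlgebra ℤ G) = 0 := by
  exact Lx_nrm_zero

theorem nrm_sum {J : Type} (s : Finset J) (P : J → AddMonoidAlgebra ℤ G) :
    nrm (∑ j ∈ s, P j) ≤ ∑ j ∈ s, nrm (P j) := by
  exact Lx_nrm_sum s P

theorem nrm_prod {J : Type} (s : Finset J) (P : J → AddMonoidAlgebra ℤ G) :
    nrm (∏ j ∈ s, P j) ≤ ∏ j ∈ s, nrm (P j) := by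
  classical
  induction s using Finset.induction_on with
  | empty => rw [Finset.prod_empty, Finset.prod_empty, nrm_one]
  | insert a s ha ih =>
    rw [Finset.prod_insert ha, Finset.prod_insert ha]
    exact nrm_mul.trans (Nat.mul_le_mul_left _ ih)

theorem coeff_le_nrm (g : G) : |P.coeff g| ≤ nrm P := by
  rw [Int.abs_eq_natAbs]
  norm_cast
  by_cases hg : g ∈ P.coeff.support
  · exact Finset.single_le_sum (f := fun g => (P.coeff g).natAbs) (fun _ _ => Nat.zero_le _) hg
  · rw [Finsupp.notMem_support_iff.1 hg, Int.natAbs_zero]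
    exact Nat.zero_le _

end Pool.Agent.TC
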