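import Pool.Agent.H.MP_b2d7dd_lc.TC.Sc
import Pool.Agent.H.MP_b2d7dd_lc.TC.Lx
import Pool.Agent.H.MP_b2d7dd_lc.TI.Terms

/-!
# Module Hp: the terms as elements of a monoid ring

`rp W t` = the term as a sum of exponentials of sums of logarithms of atoms (the exponents are
functions). `av f t` = the value of the term for the values `f` of the variables and powers outside of
powers. `e1 t` = the value if all of them are `1`.
-/

namespace Pool.Agent.TC

open Pool.Agent.TI (Tm)

variable {W : Finset (List Bool)} {as : List Tm} {A : Set Tm} {K : Type} [CommRing K]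

/-- The sums of the logarithms of the elements of a set of terms. -/
def VA (W : Finset (List Bool)) (A : Set Tm) : AddSubmonoid (Pt W → ℝ) :=
  AddSubmonoid.closure (lr W '' A)

theorem VA_At : VA W (At W as) = Vm W as := rfl

theorem lr_mem_VA {a : Tm} (h : a ∈ A) : lr W a ∈ VA W A :=
  AddSubmonoid.subset_closure (Set.mem_image_of_mem _ h)

/-- The element of the monoid ring. -/
noncomputable def rp (W : Finset (List Bool)) : Tm → AddMonoidAlgebra ℤ (Pt W → ℝ)
  | .one => 1
  | .var w => AddMonoidAlgebra.single (lr W (.var w)) 1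
  | .add s t => rp W s + rp W t
  | .mul s t => rp W s * rp W t
  | .pow s t => AddMonoidAlgebra.single (lr W (.pow s t)) 1

/-- The value for given values of the variables and powers outside of powers. -/
def av (f : Tm → K) : Tm → K
  | .one => 1
  | .var w => f (.var w)
  | .add s t => av f s + av f t
  | .mul s t => av f s * av f t
  | .pow s t => f (.pow s t)

/-- The value if all of them are `1`. -/
def e1 : Tm → ℕ
  | .one => 1
  | .var _ => 1
  | .add s t => e1 s + e1 t
  | .mul s t => e1 s * e1 t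
  | .pow _ _ => 1

theorem rp_su {t : Tm} (ht : ats t ⊆ A) : Su (VA W A) (rp W t) := by
  induction t with
  | one => exact Su.one
  | var w => exact Su.single (lr_mem_VA (ht rfl)) 1
  | add s t ihs iht =>
    exact Su.add (ihs (Set.subset_union_left.trans ht)) (iht (Set.subset_union_right.trans ht))
  | mul s t ihs iht =>
    exact Su.mul (ihs (Set.subset_union_left.trans ht)) (iht (Set.subset_union_right.trans ht))
  | pow s t _ _ => exact Su.single (lr_mem_VA (ht rfl)) 1

theorem av_evl {f : (Pt W → ℝ) → K} (hf : Mo (VA W A) f) {f' : Tm → K}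
    (h : ∀ a ∈ A, f' a = f (lr W a)) {t : Tm} (ht : ats t ⊆ A) : av f' t = evl f (rp W t) := by
  induction t with
  | one => exact (evl_one hf).symm
  | var w =>
    have h1 : evl f (rp W (.var w)) = (1 : ℤ) * f (lr W (.var w)) := evl_single _ _
    rw [h1, Int.cast_one, one_mul]
    exact h _ (ht rfl)
  | add s t ihs iht =>
    have h1 := ihs (Set.subset_union_left.trans ht)
    have h2 := iht (Set.subset_union_right.trans ht)
    show av f' s + av f' t = evl f (rp W s + rp W t)
    rw [evl_add, h1, h2]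
  | mul s t ihs iht =>
    have h1 := ihs (Set.subset_union_left.trans ht)
    have h2 := iht (Set.subset_union_right.trans ht)
    show av f' s * av f' t = evl f (rp W s * rp W t)
    rw [evl_mul hf (rp_su (Set.subset_union_left.trans ht))
      (rp_su (Set.subset_union_right.trans ht)), h1, h2]
  | pow s t _ _ =>
    have h1 : evl f (rp W (.pow s t)) = (1 : ℤ) * f (lr W (.pow s t)) := evl_single _ _
    rw [h1, Int.cast_one, one_mul]
    exact h _ (ht rfl)

theorem av_congr {f f' : Tm → K} (h : ∀ a ∈ A, f a = f' a) {t : Tm} (ht : ats t ⊆ A) :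
    av f t = av f' t := by
  induction t with
  | one => rfl
  | var w => exact h _ (ht rfl)
  | add s t ihs iht =>
    show av f s + av f t = av f' s + av f' t
    rw [ihs (Set.subset_union_left.trans ht), iht (Set.subset_union_right.trans ht)]
  | mul s t ihs iht =>
    show av f s * av f t = av f' s * av f' t
    rw [ihs (Set.subset_union_left.trans ht), iht (Set.subset_union_right.trans ht)]
  | pow s t _ _ => exact h _ (ht rfl)

theorem rf_av (t : Tm) (x : Pt W) : rf W t x = av (fun a => rf W a x) t := by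
  induction t with
  | one => rfl
  | var w => rfl
  | add s t ihs iht =>
    show rf W s x + rf W t x = av (fun a => rf W a x) s + av (fun a => rf W a x) t
    rw [← ihs, ← iht]
  | mul s t ihs iht =>
    show rf W s x * rf W t x = av (fun a => rf W a x) s * av (fun a => rf W a x) t
    rw [← ihs, ← iht]
  | pow s t _ _ => rfl

private theorem Hp_mo (S : AddSubmonoid (Pt W → ℝ)) (x : Pt W) :
    Mo S (fun v : Pt W → ℝ => Real.exp (v x)) := by
  refine ⟨?_, fun g _ h _ => ?_⟩
  · show Real.exp ((0 : Pt W → ℝ) x) = 1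
    rw [Pi.zero_apply, Real.exp_zero]
  · show Real.exp ((g + h) x) = Real.exp (g x) * Real.exp (h x)
    rw [Pi.add_apply, Real.exp_add]

theorem rf_evl (t : Tm) (x : Pt W) : rf W t x = evl (fun v => Real.exp (v x)) (rp W t) := by
  induction t with
  | one => exact (evl_one (Hp_mo (VA W Set.univ) x)).symm
  | var w =>
    have h1 : evl (fun v : Pt W → ℝ => Real.exp (v x)) (rp W (.var w)) =
        (1 : ℤ) * Real.exp (lr W (.var w) x) := evl_single _ _
    rw [h1, Int.cast_one, one_mul]
    exact rf_var W w x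
  | add s t ihs iht =>
    show rf W s x + rf W t x = evl _ (rp W s + rp W t)
    rw [evl_add, ihs, iht]
  | mul s t ihs iht =>
    show rf W s x * rf W t x = evl _ (rp W s * rp W t)
    rw [evl_mul (Hp_mo (VA W Set.univ) x) (rp_su (Set.subset_univ _))
      (rp_su (Set.subset_univ _)), ihs, iht]
  | pow s t _ _ =>
    have h1 : evl (fun v : Pt W → ℝ => Real.exp (v x)) (rp W (.pow s t)) =
        (1 : ℤ) * Real.exp (lr W (.pow s t) x) := evl_single _ _
    rw [h1, Int.cast_one, one_mul]
    exact rf_pow W s t x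

private theorem Hp_evl {f : (Pt W → ℝ) → K} (P : AddMonoidAlgebra ℤ (Pt W → ℝ))
    {s : Finset (Pt W → ℝ)} (h : P.coeff.support ⊆ s) :
    evl f P = ∑ g ∈ s, (P.coeff g : K) * f g := by
  unfold evl
  exact Finsupp.sum_of_support_subset _ h _ (fun g _ => by rw [Int.cast_zero, zero_mul])

/-- The element of the monoid ring is determined by the function. -/
theorem rp_ext (hc : Cl W as) {s t : Tm} (hs : ats s ⊆ At W as) (ht : ats t ⊆ At W as)
    (h : rf W s = rf W t) : rp W s = rp W t := by
  classical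
  have hP : Su (Vm W as) (rp W s) := rp_su hs
  have hQ : Su (Vm W as) (rp W t) := rp_su ht
  have hi := linearIndependent_iff'.1 (exp_ind hc)
  have hS : ∀ g ∈ (rp W s).coeff.support ∪ (rp W t).coeff.support, g ∈ Vs W as := by
    intro g hg
    rcases Finset.mem_union.1 hg with hg | hg
    · exact Vm_le (hP g hg)
    · exact Vm_le (hQ g hg)
  have h1 := hi (((rp W s).coeff.support ∪ (rp W t).coeff.support).subtype (· ∈ Vs W as))
    (fun v => (((rp W s).coeff v : ℤ) : ℝ) - (((rp W t).coeff v : ℤ) : ℝ)) (by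
      funext x
      rw [Finset.sum_apply]
      have h2 := Finset.sum_subtype_of_mem
        (fun g : Pt W → ℝ => ((((rp W s).coeff g : ℤ) : ℝ) - (((rp W t).coeff g : ℤ) : ℝ)) *
          Real.exp (g x)) hS
      refine Eq.trans ?_ (h2.trans ?_)
      · rfl
      · have h3 : rf W s x - rf W t x = 0 := by rw [h, sub_self]
        rw [rf_evl, rf_evl, Hp_evl _ Finset.subset_union_left,
          Hp_evl (rp W t) (Finset.subset_union_right (s₁ := (rp W s).coeff.support)),
          ← Finset.sum_sub_distrib] at h3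
        rw [Pi.zero_apply, ← h3]
        exact Finset.sum_congr rfl fun g _ => sub_mul _ _ _)
  ext g
  by_cases hg : g ∈ (rp W s).coeff.support ∪ (rp W t).coeff.support
  · have h2 := h1 ⟨g, hS g hg⟩ (Finset.mem_subtype.2 hg)
    exact_mod_cast sub_eq_zero.1 h2
  · rw [Finset.mem_union, not_or] at hg
    rw [Finsupp.notMem_support_iff.1 hg.1, Finsupp.notMem_support_iff.1 hg.2]

private theorem Hp_nn_sum {J : Type} (s : Finset J) (P : J → AddMonoidAlgebra ℤ (Pt W → ℝ))
    (h : ∀ j ∈ s, ∀ g, 0 ≤ (P j).coeff g) (g : Pt W → ℝ) : 0 ≤ (∑ j ∈ s, P j).coeff g := by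
  classical
  induction s using Finset.induction_on with
  | empty =>
    rw [Finset.sum_empty, AddMonoidAlgebra.coeff_zero, Finsupp.zero_apply]
  | insert a s ha ih =>
    rw [Finset.sum_insert ha, AddMonoidAlgebra.coeff_add, Finsupp.add_apply]
    exact add_nonneg (h a (Finset.mem_insert_self a s) g)
      (ih fun j hj => h j (Finset.mem_insert_of_mem hj))

private theorem Hp_nn_single (a : Pt W → ℝ) {c : ℤ} (hc : 0 ≤ c) (g : Pt W → ℝ) :
    0 ≤ (AddMonoidAlgebra.single a c : AddMonoidAlgebra ℤ (Pt W → ℝ)).coeff g := by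
  classical
  rw [AddMonoidAlgebra.coeff_single, Finsupp.single_apply]
  split_ifs
  · exact hc
  · exact le_rfl

private theorem Hp_nn_mul {P Q : AddMonoidAlgebra ℤ (Pt W → ℝ)} (hP : ∀ g, 0 ≤ P.coeff g)
    (hQ : ∀ g, 0 ≤ Q.coeff g) (g : Pt W → ℝ) : 0 ≤ (P * Q).coeff g := by
  have h1 : P * Q = ∑ g ∈ P.coeff.support, ∑ h ∈ Q.coeff.support,
      AddMonoidAlgebra.single (g + h) (P.coeff g * Q.coeff h) := by
    rw [AddMonoidAlgebra.mul_def]
    rfl
  rw [h1]
  exact Hp_nn_sum _ _ (fun a _ => Hp_nn_sum _ _ fun b _ =>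
    Hp_nn_single _ (mul_nonneg (hP a) (hQ b))) g

theorem rp_nonneg (t : Tm) (g : Pt W → ℝ) : 0 ≤ (rp W t).coeff g := by
  induction t generalizing g with
  | one =>
    show 0 ≤ (1 : AddMonoidAlgebra ℤ (Pt W → ℝ)).coeff g
    rw [AddMonoidAlgebra.one_def]
    exact Hp_nn_single 0 (by norm_num) g
  | var w => exact Hp_nn_single _ (by norm_num) g
  | add s t ihs iht =>
    show 0 ≤ (rp W s + rp W t).coeff g
    rw [AddMonoidAlgebra.coeff_add, Finsupp.add_apply]
    exact add_nonneg (ihs g) (iht g)
  | mul s t ihs iht => exact Hp_nn_mul ihs iht g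
  | pow s t _ _ => exact Hp_nn_single _ (by norm_num) g

theorem e1_pos (t : Tm) : 1 ≤ e1 t := by
  induction t with
  | one => exact le_rfl
  | var w => exact le_rfl
  | add s t ihs _ => exact ihs.trans (Nat.le_add_right _ _)
  | mul s t ihs iht => exact Nat.mul_pos ihs iht
  | pow s t _ _ => exact le_rfl

theorem e1_le (t : Tm) : e1 t ≤ 2 ^ t.sz := by
  induction t with
  | one => exact Nat.one_le_two_pow
  | var w => exact Nat.one_le_two_pow
  | add s t ihs iht =>
    have h1 : (2 : ℕ) ^ s.sz ≤ 2 ^ (s.sz + t.sz) := Nat.pow_le_pow_right (by norm_num) (by omega)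
    have h2 : (2 : ℕ) ^ t.sz ≤ 2 ^ (s.sz + t.sz) := Nat.pow_le_pow_right (by norm_num) (by omega)
    show e1 s + e1 t ≤ 2 ^ (s.sz + t.sz + 1)
    rw [pow_succ]
    omega
  | mul s t ihs iht =>
    show e1 s * e1 t ≤ 2 ^ (s.sz + t.sz + 1)
    rw [pow_succ, pow_add]
    have h1 := Nat.mul_le_mul ihs iht
    omega
  | pow s t _ _ => exact Nat.one_le_two_pow

private theorem Hp_mo1 (S : AddSubmonoid (Pt W → ℝ)) :
    Mo S (fun _ : Pt W → ℝ => (1 : ℤ)) :=
  ⟨rfl, fun _ _ _ _ => (one_mul (1 : ℤ)).symm⟩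

theorem e1_evl (t : Tm) : (e1 t : ℤ) = evl (fun _ => (1 : ℤ)) (rp W t) := by
  have h1 : (e1 t : ℤ) = av (fun _ => (1 : ℤ)) t := by
    induction t with
    | one => rfl
    | var w => rfl
    | add s t ihs iht =>
      show ((e1 s + e1 t : ℕ) : ℤ) = av (fun _ => (1 : ℤ)) s + av (fun _ => (1 : ℤ)) t
      rw [← ihs, ← iht, Nat.cast_add]
    | mul s t ihs iht =>
      show ((e1 s * e1 t : ℕ) : ℤ) = av (fun _ => (1 : ℤ)) s * av (fun _ => (1 : ℤ)) t
      rw [← ihs, ← iht, Nat.cast_mul]
    | pow s t _ _ => rfl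
  rw [h1]
  exact av_evl (Hp_mo1 (VA W Set.univ)) (fun _ _ => rfl) (Set.subset_univ _)

theorem nrm_rp (t : Tm) : nrm (rp W t) = e1 t := by
  have h1 : ((nrm (rp W t) : ℕ) : ℤ) = (e1 t : ℤ) := by
    rw [e1_evl (W := W) t]
    unfold nrm evl Finsupp.sum
    rw [Nat.cast_sum]
    refine Finset.sum_congr rfl fun g _ => ?_
    rw [Int.natAbs_of_nonneg (rp_nonneg t g)]
    beta_reduce
    rw [mul_one, Int.cast_id]
  exact_mod_cast h1

/-- The elements of the monoid ring are different modulo large numbers. -/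
theorem rp_ne_mod {r : ℕ} {s t : Tm} (hs : e1 s < r) (ht : e1 t < r) (h : rp W s ≠ rp W t) :
    ∃ g, (((rp W s).coeff g : ℤ) : ZMod r) ≠ (((rp W t).coeff g : ℤ) : ZMod r) := by
  by_contra hcon
  apply h
  ext g
  have h1 : (((rp W s).coeff g : ℤ) : ZMod r) = (((rp W t).coeff g : ℤ) : ZMod r) := by
    by_contra h2
    exact hcon ⟨g, h2⟩
  have h2 : (rp W s).coeff g ≡ (rp W t).coeff g [ZMOD r] := (ZMod.intCast_eq_intCast_iff _ _ _).1 h1
  have hlt : ∀ u : Tm, e1 u < r → (rp W u).coeff g < r := by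
    intro u hu
    have h3 := coeff_le_nrm (P := rp W u) g
    rw [nrm_rp, abs_of_nonneg (rp_nonneg u g)] at h3
    exact lt_of_le_of_lt h3 (by exact_mod_cast hu)
  have h4 : (rp W s).coeff g % r = (rp W t).coeff g % r := h2
  rwa [Int.emod_eq_of_lt (rp_nonneg s g) (hlt s hs),
    Int.emod_eq_of_lt (rp_nonneg t g) (hlt t ht)] at h4

end Pool.Agent.TC
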