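import Mathlib

/-!
# Module Mb: logarithms of natural numbers from a coprime base
-/

namespace Pool.Agent.TC

/-- The numbers in `B` are products of powers of the pairwise coprime numbers `P k`, `k < κ`. -/
structure MB (κ : ℕ) (P : ℕ → ℕ) (mu : ℕ → ℕ → ℕ) (B : Set ℕ) : Prop where
  two : ∀ k < κ, 2 ≤ P k
  cop : ∀ k < κ, ∀ l < κ, k ≠ l → Nat.Coprime (P k) (P l)
  fac : ∀ n ∈ B, n = ∏ k ∈ Finset.range κ, P k ^ mu k n

/-- Take a prime divisor `q k` of `P k`; `lc n = ∑ k, v_{q k}(n) / v_{q k}(P k) * γ k`. -/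
theorem MB.lc {κ : ℕ} {P : ℕ → ℕ} {mu : ℕ → ℕ → ℕ} {B : Set ℕ} (h : MB κ P mu B) {F : Type}
    [Field F] [CharZero F] (γ : ℕ → F) :
    ∃ lc : ℕ → F, (∀ m n : ℕ, m ≠ 0 → n ≠ 0 → lc (m * n) = lc m + lc n) ∧
      ∀ n ∈ B, lc n = ∑ k ∈ Finset.range κ, (mu k n : F) * γ k := by
  have hq : ∀ k, ∃ q, k < κ → Nat.Prime q ∧ q ∣ P k := by
    intro k
    by_cases hk : k < κ
    · obtain ⟨q, h1, h2⟩ := Nat.exists_prime_and_dvd (n := P k) (by have := h.two k hk; omega)
      exact ⟨q, fun _ => ⟨h1, h2⟩⟩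
    · exact ⟨0, fun h => absurd h hk⟩
  choose q hq using hq
  have hP0 : ∀ k < κ, P k ≠ 0 := fun k hk h0 => by
    have := h.two k hk
    omega
  refine ⟨fun n => ∑ k ∈ Finset.range κ,
    (n.factorization (q k) : F) / ((P k).factorization (q k) : F) * γ k, ?_, ?_⟩
  · intro m n hm hn
    show _ = _ + _
    rw [← Finset.sum_add_distrib]
    refine Finset.sum_congr rfl fun k _ => ?_
    rw [Nat.factorization_mul hm hn, Finsupp.add_apply, Nat.cast_add, add_div, add_mul]
  · intro n hn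
    refine Finset.sum_congr rfl fun k hk => ?_
    rw [Finset.mem_range] at hk
    obtain ⟨hp, hd⟩ := hq k hk
    have h1 : n.factorization (q k) = mu k n * (P k).factorization (q k) := by
      conv_lhs => rw [h.fac n hn]
      rw [Nat.factorization_prod (fun l hl => pow_ne_zero _ (hP0 l (Finset.mem_range.1 hl))),
        Finsupp.finsetSum_apply, Finset.sum_eq_single k]
      · rw [Nat.factorization_pow, Finsupp.smul_apply, smul_eq_mul]
      · intro l hl hlk
        rw [Finset.mem_range] at hl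
        rw [Nat.factorization_pow, Finsupp.smul_apply, smul_eq_mul]
        rw [Nat.factorization_eq_zero_of_not_dvd, mul_zero]
        intro hdl
        exact hp.one_lt.ne' (Nat.eq_one_of_dvd_coprimes (h.cop l hl k hk hlk) hdl hd)
      · intro hk'
        exact absurd (Finset.mem_range.2 hk) hk'
    have h2 : ((P k).factorization (q k) : F) ≠ 0 := by
      have h3 : 0 < (P k).factorization (q k) := hp.factorization_pos_of_dvd (hP0 k hk) hd
      exact_mod_cast h3.ne'
    rw [h1, Nat.cast_mul, mul_div_assoc, div_self h2, mul_one]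

theorem MB.sum_le {κ : ℕ} {P : ℕ → ℕ} {mu : ℕ → ℕ → ℕ} {B : Set ℕ} (h : MB κ P mu B) {n : ℕ}
    (hn : n ∈ B) {m : ℕ} (hm : n ≤ 2 ^ m) : ∑ k ∈ Finset.range κ, mu k n ≤ m := by
  have h1 : 2 ^ (∑ k ∈ Finset.range κ, mu k n) ≤ n := by
    calc 2 ^ (∑ k ∈ Finset.range κ, mu k n) = ∏ k ∈ Finset.range κ, 2 ^ mu k n :=
          (Finset.prod_pow_eq_pow_sum _ _ _).symm
      _ ≤ ∏ k ∈ Finset.range κ, P k ^ mu k n :=
          Finset.prod_le_prod (fun _ _ => Nat.zero_le _)
            (fun k hk => Nat.pow_le_pow_left (h.two k (Finset.mem_range.1 hk)) _)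
      _ = n := (h.fac n hn).symm
  exact (Nat.pow_le_pow_iff_right (by norm_num)).1 (h1.trans hm)

theorem MB.log {κ : ℕ} {P : ℕ → ℕ} {mu : ℕ → ℕ → ℕ} {B : Set ℕ} (h : MB κ P mu B) {n : ℕ}
    (hn : n ∈ B) : Real.log n = ∑ k ∈ Finset.range κ, (mu k n : ℝ) * Real.log (P k) := by
  have h1 : (n : ℝ) = ∏ k ∈ Finset.range κ, (P k : ℝ) ^ mu k n := by
    have h2 := congrArg (Nat.cast : ℕ → ℝ) (h.fac n hn)
    push_cast at h2
    exact h2
  have h3 : ∀ k ∈ Finset.range κ, (P k : ℝ) ^ mu k n ≠ 0 := by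
    intro k hk
    have h4 := h.two k (Finset.mem_range.1 hk)
    apply pow_ne_zero
    have : P k ≠ 0 := by omega
    exact_mod_cast this
  rw [h1, Real.log_prod h3]
  exact Finset.sum_congr rfl fun k _ => Real.log_pow _ _

end Pool.Agent.TC
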