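import Pool.Agent.H.MP_b2d7dd_lc.TC.Cob
import Pool.Agent.H.MP_b2d7dd_lc.TC.Mb
import Pool.Agent.H.MP_b2d7dd_lc.TE.Blk

/-!
# Module Mu: valuations

`vadd e m x P γ acc` adds `γ` to `acc` (modulo `bval e + 2`) as many times as `P` divides `x`. `lcv` =
the logarithm of the number `x`: the sum over the base `B` of the valuations times the random values
(the blocks number `3 * c + k`).
-/

namespace Pool.Agent.TC

open Pool.Agent.TW (bdm rad zv)
open Pool.Agent.TE (bl)
open Pool.Agent.H.MP_5be563_lc.PT

/-- The step. -/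
def vstep (e P γ : List Bool) (s : List Bool × List Bool) : List Bool × List Bool :=
  bif ble (bdm s.1 P).2 [] then ((bdm s.1 P).1, rad e s.2 γ) else s

/-- Add `γ` as many times as `P` divides `x`. -/
def vadd (e : List Bool) (m : ℕ) (x P γ acc : List Bool) : List Bool :=
  ((vstep e P γ)^[m] (x, acc)).2

/-- The logarithm. -/
def lcv (e : List Bool) (v c m : ℕ) (B : List (List Bool)) (Z x : List Bool) : List Bool :=
  (List.range B.length).foldr (fun k acc => vadd e m x (B.getD k []) (bl v Z (3 * c + k)) acc) []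

/-- The elements of the base. -/
def Pb (B : List (List Bool)) (k : ℕ) : ℕ := bval (B.getD k [])

/-- The valuations. -/
def muB (B : List (List Bool)) (k x : ℕ) : ℕ := padicValNat (Pb B k) x

private theorem Mu_div {p n : ℕ} (hp : 2 ≤ p) (hn : n ≠ 0) (h : p ∣ n) :
    padicValNat p n = padicValNat p (n / p) + 1 := by
  have hp1 : p ≠ 1 := by omega
  have hq : n / p ≠ 0 := by
    have h1 := Nat.le_of_dvd (Nat.pos_of_ne_zero hn) h
    have h2 := Nat.div_pos h1 (by omega)
    omega
  have key : ∀ j, j ≤ padicValNat p (n / p) ↔ j + 1 ≤ padicValNat p n := by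
    intro j
    rw [← padicValNat_dvd_iff_le_of_ne_one hp1 hq, ← padicValNat_dvd_iff_le_of_ne_one hp1 hn,
      pow_succ, Nat.dvd_div_iff_mul_dvd h, mul_comm]
  have h1 := (key (padicValNat p (n / p))).1 le_rfl
  have h2 : 1 ≤ padicValNat p n := by
    rw [← padicValNat_dvd_iff_le_of_ne_one hp1 hn, pow_one]
    exact h
  have h3 := (key (padicValNat p n - 1)).2 (by omega)
  omega

private theorem Mu_test {y P : List Bool} (hP : 2 ≤ bval P) :
    ble (bdm y P).2 [] = true ↔ bval P ∣ bval y := by
  rw [ble_iff, (TW.bdm_val y P (by omega)).2, bval_nil, Nat.le_zero, Nat.dvd_iff_mod_eq_zero]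

private theorem Mu_iter {e : List Bool} {P : List Bool} (hP : 2 ≤ bval P) (γ : List Bool) :
    ∀ (j : ℕ) (y a : List Bool), 1 ≤ bval y →
      zv e ((vstep e P γ)^[j] (y, a)).2 =
        zv e a + (min j (padicValNat (bval P) (bval y)) : ℕ) * zv e γ := by
  intro j
  induction j with
  | zero =>
    intro y a _
    rw [Function.iterate_zero, id_eq, Nat.zero_min, Nat.cast_zero, zero_mul, add_zero]
  | succ j ih =>
    intro y a hy
    rw [Function.iterate_succ_apply]
    unfold vstep
    dsimp only
    cases hc : ble (bdm y P).2 [] with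
    | true =>
      rw [cond_true]
      have hd := (Mu_test hP).1 hc
      have hv := (TW.bdm_val y P (by omega)).1
      have hy' : 1 ≤ bval (bdm y P).1 := by
        rw [hv]
        exact Nat.div_pos (Nat.le_of_dvd hy hd) (by omega)
      have h1 := ih (bdm y P).1 (rad e a γ) hy'
      unfold vstep at h1
      rw [h1, TW.zv_rad, hv, Mu_div hP (by omega) hd, Nat.add_min_add_right]
      push_cast
      ring
    | false =>
      rw [cond_false]
      have hd : ¬ bval P ∣ bval y := fun h => by
        rw [(Mu_test hP).2 h] at hc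
        exact Bool.noConfusion hc
      have h1 := ih y a hy
      unfold vstep at h1
      rw [h1, padicValNat.eq_zero_of_not_dvd hd, Nat.min_zero, Nat.min_zero]

theorem vadd_val {e : List Bool} {m : ℕ} {x P : List Bool} (hP : 2 ≤ bval P) (h1 : 1 ≤ bval x)
    (h2 : bval x < 2 ^ m) (γ acc : List Bool) :
    zv e (vadd e m x P γ acc) = zv e acc + padicValNat (bval P) (bval x) * zv e γ := by
  have hv : padicValNat (bval P) (bval x) ≤ m := by
    by_contra hlt
    push Not at hlt
    have h3 : bval P ^ m ∣ bval x :=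
      (padicValNat_dvd_iff_le_of_ne_one (by omega) (by omega)).2 hlt.le
    have h4 := Nat.le_of_dvd h1 h3
    have h5 : 2 ^ m ≤ bval P ^ m := Nat.pow_le_pow_left hP m
    omega
  unfold vadd
  rw [Mu_iter hP γ m x acc h1, min_eq_right hv]

theorem vadd_len (e : List Bool) (m : ℕ) (x P γ acc : List Bool)
    (h : acc.length ≤ e.length + 4) : (vadd e m x P γ acc).length ≤ e.length + 4 := by
  unfold vadd
  have key : ∀ (j : ℕ) (s : List Bool × List Bool), s.2.length ≤ e.length + 4 →
      ((vstep e P γ)^[j] s).2.length ≤ e.length + 4 := by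
    intro j
    induction j with
    | zero => intro s hs; exact hs
    | succ j ih =>
      intro s hs
      rw [Function.iterate_succ_apply]
      refine ih _ ?_
      unfold vstep
      cases ble (bdm s.1 P).2 [] with
      | true => exact TW.length_rad_le e _ _
      | false => exact hs
  exact key m _ h

private theorem Mu_foldr {e : List Bool} {v c m : ℕ} {B : List (List Bool)} (Z : List Bool)
    {x : List Bool} (h1 : 1 ≤ bval x) (h2 : bval x < 2 ^ m) :
    ∀ (n : ℕ) (init : List Bool), (∀ k < n, 2 ≤ bval (B.getD k [])) →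
      zv e ((List.range n).foldr
        (fun k acc => vadd e m x (B.getD k []) (bl v Z (3 * c + k)) acc) init) =
      ∑ k ∈ Finset.range n,
        (muB B k (bval x) : ZMod (bval e + 2)) * zv e (bl v Z (3 * c + k)) + zv e init := by
  intro n
  induction n with
  | zero => intro init _; rw [List.range_zero, List.foldr_nil, Finset.sum_range_zero, zero_add]
  | succ n ih =>
    intro init hB
    rw [List.range_succ, List.foldr_append, List.foldr_cons, List.foldr_nil,
      ih _ fun k hk => hB k (by omega), vadd_val (hB n (by omega)) h1 h2, Finset.sum_range_succ]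
    unfold muB Pb
    ring

theorem lcv_val {e : List Bool} {v c m : ℕ} {B : List (List Bool)} (hB : ∀ P ∈ B, 2 ≤ bval P)
    (Z : List Bool) {x : List Bool} (h1 : 1 ≤ bval x) (h2 : bval x < 2 ^ m) :
    zv e (lcv e v c m B Z x) = ∑ k ∈ Finset.range B.length,
      (muB B k (bval x) : ZMod (bval e + 2)) * zv e (bl v Z (3 * c + k)) := by
  unfold lcv
  rw [Mu_foldr Z h1 h2 B.length [] fun k hk => by
    rw [List.getD_eq_getElem _ _ hk]
    exact hB _ (List.getElem_mem hk), TW.zv_nil, add_zero]

theorem lcv_len (e : List Bool) (v c m : ℕ) (B : List (List Bool)) (Z x : List Bool) :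
    (lcv e v c m B Z x).length ≤ e.length + 4 := by
  unfold lcv
  induction List.range B.length with
  | nil => exact Nat.zero_le _
  | cons k l ih => exact vadd_len e m x _ _ _ ih

/-- The base from `cob`. -/
theorem mb_cob {k K w : ℕ} {L : List (List Bool)} (hw : ∀ x ∈ L, x.length ≤ w)
    (h1 : ∀ x ∈ L, 1 ≤ bval x) (hk : 4 * w + 2 ≤ k) (hK : w * L.length ≤ K) :
    MB (cob k K L).length (Pb (cob k K L)) (muB (cob k K L)) {m | ∃ x ∈ L, m = bval x} := by
  obtain ⟨hc1, hc2, -, hc4⟩ := cob_spec hw h1 hk hK
  generalize cob k K L = B at hc1 hc2 hc4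
  have htwo : ∀ k < B.length, 2 ≤ Pb B k := by
    intro k hk
    unfold Pb
    rw [List.getD_eq_getElem _ _ hk]
    exact hc1 _ (List.getElem_mem hk)
  have hcop : ∀ k < B.length, ∀ l < B.length, k ≠ l → Nat.Coprime (Pb B k) (Pb B l) := by
    intro k hk l hl hkl
    unfold Pb
    rw [List.getD_eq_getElem _ _ hk, List.getD_eq_getElem _ _ hl]
    rcases lt_or_gt_of_ne hkl with h | h
    · exact List.pairwise_iff_getElem.1 hc2 k l hk hl h
    · exact (List.pairwise_iff_getElem.1 hc2 l k hl hk h).symm
  refine ⟨htwo, hcop, ?_⟩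
  rintro n ⟨x, hx, rfl⟩
  have hex : ∀ n ∈ Submonoid.closure {m : ℕ | ∃ y ∈ B, m = bval y},
      ∃ f : ℕ → ℕ, n = ∏ k ∈ Finset.range B.length, Pb B k ^ f k := by
    intro n hn
    induction hn using Submonoid.closure_induction with
    | mem m hm =>
      obtain ⟨y, hy, rfl⟩ := hm
      obtain ⟨i, hi, rfl⟩ := List.getElem_of_mem hy
      refine ⟨fun k => if k = i then 1 else 0, ?_⟩
      rw [Finset.prod_eq_single i]
      · show bval B[i] = Pb B i ^ (if i = i then 1 else 0)
        rw [if_pos rfl, pow_one]
        unfold Pb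
        rw [List.getD_eq_getElem _ _ hi]
      · intro k _ hki
        show Pb B k ^ (if k = i then 1 else 0) = 1
        rw [if_neg hki, pow_zero]
      · intro hi'
        exact absurd (Finset.mem_range.2 hi) hi'
    | one => exact ⟨fun _ => 0, by simp⟩
    | mul a b _ _ ha hb =>
      obtain ⟨f, hf⟩ := ha
      obtain ⟨g, hg⟩ := hb
      refine ⟨fun k => f k + g k, ?_⟩
      rw [hf, hg, ← Finset.prod_mul_distrib]
      exact Finset.prod_congr rfl fun k _ => (pow_add _ _ _).symm
  obtain ⟨f, hf⟩ := hex _ (hc4 x hx)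
  have hn0 : bval x ≠ 0 := by
    have := h1 x hx
    omega
  conv_lhs => rw [hf]
  refine Finset.prod_congr rfl fun k hk => ?_
  rw [Finset.mem_range] at hk
  congr 1
  have h2 := htwo k hk
  have hsplit : bval x = Pb B k ^ f k *
      ∏ l ∈ (Finset.range B.length).erase k, Pb B l ^ f l := by
    rw [Finset.mul_prod_erase (Finset.range B.length) (fun l => Pb B l ^ f l)
      (Finset.mem_range.2 hk)]
    exact hf
  have hco : ∀ j, Nat.Coprime (Pb B k ^ j)
      (∏ l ∈ (Finset.range B.length).erase k, Pb B l ^ f l) := by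
    intro j
    refine Nat.Coprime.prod_right fun l hl => ?_
    obtain ⟨hlk, hl'⟩ := Finset.mem_erase.1 hl
    exact (hcop k hk l (Finset.mem_range.1 hl') hlk.symm).pow _ _
  have key : ∀ j, j ≤ padicValNat (Pb B k) (bval x) ↔ j ≤ f k := by
    intro j
    rw [← padicValNat_dvd_iff_le_of_ne_one (by omega) hn0]
    constructor
    · intro hd
      rw [hsplit] at hd
      exact (Nat.pow_dvd_pow_iff_le_right (by omega)).1 ((hco j).dvd_of_dvd_mul_right hd)
    · intro hj
      rw [hsplit]
      exact (pow_dvd_pow _ hj).trans (dvd_mul_right _ _)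
  unfold muB
  exact le_antisymm ((key _).2 le_rfl) ((key _).1 le_rfl)

end Pool.Agent.TC
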