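import Pool.Agent.H.MP_b2d7dd_lc.TC.Fx

/-!
# Module Pth: the path

For a point `y` and a real number `τ`: `vh` = the values of the terms, `lx` = the logarithms of the
variables and powers. At `τ = 1` these are the values at the point `y`, at `τ = 0` the logarithms are
zero. The derivatives are the first order data `Py`.
-/

namespace Pool.Agent.TC

open Pool.Agent.TI (Tm)

variable {W : Finset (List Bool)}

/-- The values. -/
noncomputable def vh (W : Finset (List Bool)) (y : Pt W) (τ : ℝ) : Tm → ℝ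
  | .one => 1
  | .var w => Real.exp (τ * lr W (.var w) y)
  | .add s t => vh W y τ s + vh W y τ t
  | .mul s t => vh W y τ s * vh W y τ t
  | .pow a b => Real.exp (rf W b y * (Real.log (vh W y τ a) + (τ - 1) * Real.log (e1 a)))

/-- The logarithms. -/
noncomputable def lx (W : Finset (List Bool)) (y : Pt W) (τ : ℝ) : Tm → ℝ
  | .var w => τ * lr W (.var w) y
  | .pow a b => rf W b y * (Real.log (vh W y τ a) + (τ - 1) * Real.log (e1 a))
  | _ => 0

/-- The first order data. -/
noncomputable def Py (W : Finset (List Bool)) (y : Pt W) (τ : ℝ) : Pr ℝ where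
  f := vh W y τ
  g := fun a => rf W a y
  α := fun w => lr W (.var w) y
  lc := fun n => Real.log n
  iv := fun x => x⁻¹

theorem vh_pos (y : Pt W) (τ : ℝ) (t : Tm) : 0 < vh W y τ t := by
  induction t with
  | one => exact one_pos
  | var w => exact Real.exp_pos _
  | add s t hs ht => exact add_pos hs ht
  | mul s t hs ht => exact mul_pos hs ht
  | pow a b _ _ => exact Real.exp_pos _

theorem vh_one (y : Pt W) (t : Tm) : vh W y 1 t = rf W t y := by
  induction t with
  | one => rfl
  | var w =>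
    rw [rf_var]
    show Real.exp (1 * lr W (.var w) y) = _
    rw [one_mul]
  | add s t hs ht =>
    show vh W y 1 s + vh W y 1 t = rf W s y + rf W t y
    rw [hs, ht]
  | mul s t hs ht =>
    show vh W y 1 s * vh W y 1 t = rf W s y * rf W t y
    rw [hs, ht]
  | pow a b ha _ =>
    show Real.exp (rf W b y * (Real.log (vh W y 1 a) + (1 - 1) * Real.log (e1 a))) =
      Real.exp (rf W b y * Real.log (rf W a y))
    rw [ha, sub_self, zero_mul, add_zero]

theorem vh_zero (y : Pt W) (t : Tm) : vh W y 0 t = e1 t := by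
  induction t with
  | one => exact Nat.cast_one.symm
  | var w =>
    show Real.exp (0 * lr W (.var w) y) = ((1 : ℕ) : ℝ)
    rw [zero_mul, Real.exp_zero, Nat.cast_one]
  | add s t hs ht =>
    show vh W y 0 s + vh W y 0 t = ((e1 s + e1 t : ℕ) : ℝ)
    rw [hs, ht, Nat.cast_add]
  | mul s t hs ht =>
    show vh W y 0 s * vh W y 0 t = ((e1 s * e1 t : ℕ) : ℝ)
    rw [hs, ht, Nat.cast_mul]
  | pow a b ha _ =>
    show Real.exp (rf W b y * (Real.log (vh W y 0 a) + (0 - 1) * Real.log (e1 a))) =
      ((1 : ℕ) : ℝ)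
    have h1 : Real.log (e1 a : ℝ) + (0 - 1) * Real.log (e1 a : ℝ) = 0 := by ring
    rw [ha, h1, mul_zero, Real.exp_zero, Nat.cast_one]

theorem av_vh (y : Pt W) (τ : ℝ) (t : Tm) : av (vh W y τ) t = vh W y τ t := by
  induction t with
  | one => rfl
  | var w => rfl
  | add s t hs ht =>
    show av (vh W y τ) s + av (vh W y τ) t = vh W y τ s + vh W y τ t
    rw [hs, ht]
  | mul s t hs ht =>
    show av (vh W y τ) s * av (vh W y τ) t = vh W y τ s * vh W y τ t
    rw [hs, ht]
  | pow a b _ _ => rfl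

theorem lx_one (y : Pt W) {a : Tm} (ha : a ∈ ats a) : lx W y 1 a = lr W a y := by
  have _ := ha
  cases a with
  | one => rfl
  | var w => exact one_mul _
  | add s t => rfl
  | mul s t => rfl
  | pow a b =>
    show rf W b y * (Real.log (vh W y 1 a) + (1 - 1) * Real.log (e1 a)) =
      rf W b y * Real.log (rf W a y)
    rw [vh_one, sub_self, zero_mul, add_zero]

theorem lx_zero (y : Pt W) (a : Tm) : lx W y 0 a = 0 := by
  cases a with
  | one => rfl
  | var w => exact zero_mul _
  | add s t => rfl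
  | mul s t => rfl
  | pow a b =>
    show rf W b y * (Real.log (vh W y 0 a) + (0 - 1) * Real.log (e1 a)) = 0
    rw [vh_zero]
    ring

/-- The derivative of the logarithm of a power. -/
private theorem Pth_der {y : Pt W} {τ : ℝ} {a : Tm} (b : Tm)
    (ha : HasDerivAt (fun τ => vh W y τ a) (dl (Py W y τ) a) τ) :
    HasDerivAt (fun τ => rf W b y * (Real.log (vh W y τ a) + (τ - 1) * Real.log (e1 a)))
      (av (Py W y τ).g b * (dl (Py W y τ) a * (Py W y τ).iv (av (Py W y τ).f a) +
        (Py W y τ).lc (e1 a))) τ := by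
  have h1 : av (Py W y τ).g b = rf W b y := (rf_av b y).symm
  have h2 : av (Py W y τ).f a = vh W y τ a := av_vh y τ a
  rw [h1, h2]
  show HasDerivAt _ (rf W b y * (dl (Py W y τ) a * (vh W y τ a)⁻¹ + Real.log (e1 a))) τ
  have h3 : HasDerivAt (fun τ => Real.log (vh W y τ a)) (dl (Py W y τ) a / vh W y τ a) τ :=
    ha.log (vh_pos y τ a).ne'
  have h4 : HasDerivAt (fun τ : ℝ => (τ - 1) * Real.log (e1 a)) (1 * Real.log (e1 a)) τ :=
    ((hasDerivAt_id τ).sub_const 1).mul_const _
  rw [one_mul] at h4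
  exact (h3.add h4).const_mul (rf W b y)

theorem vh_der (y : Pt W) (τ : ℝ) (t : Tm) :
    HasDerivAt (fun τ => vh W y τ t) (dl (Py W y τ) t) τ := by
  induction t with
  | one => exact hasDerivAt_const τ (1 : ℝ)
  | var w =>
    show HasDerivAt (fun τ => Real.exp (τ * lr W (.var w) y))
      (Real.exp (τ * lr W (.var w) y) * lr W (.var w) y) τ
    have h1 : HasDerivAt (fun τ : ℝ => τ * lr W (.var w) y) (1 * lr W (.var w) y) τ :=
      (hasDerivAt_id τ).mul_const _
    rw [one_mul] at h1
    exact h1.exp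
  | add s t hs ht => exact hs.add ht
  | mul s t hs ht =>
    have h1 : dl (Py W y τ) (.mul s t) =
        dl (Py W y τ) s * vh W y τ t + vh W y τ s * dl (Py W y τ) t := by
      show dl (Py W y τ) s * av (vh W y τ) t + av (vh W y τ) s * dl (Py W y τ) t = _
      rw [av_vh, av_vh]
    rw [h1]
    exact hs.mul ht
  | pow a b ha _ => exact (Pth_der b ha).exp

theorem lx_der (y : Pt W) (τ : ℝ) (a : Tm) :
    HasDerivAt (fun τ => lx W y τ a) (ph (Py W y τ) a) τ := by
  cases a with
  | one => exact hasDerivAt_const τ (0 : ℝ)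
  | var w =>
    have h1 : HasDerivAt (fun τ : ℝ => τ * lr W (.var w) y) (1 * lr W (.var w) y) τ :=
      (hasDerivAt_id τ).mul_const _
    rw [one_mul] at h1
    exact h1
  | add s t => exact hasDerivAt_const τ (0 : ℝ)
  | mul s t => exact hasDerivAt_const τ (0 : ℝ)
  | pow a b => exact Pth_der b (vh_der y τ a)

/-- The values of the variables and powers are the exponentials of the logarithms. -/
private theorem Pth_exp {as : List Tm} (hc : Cl W as) (y : Pt W) (τ : ℝ) {a : Tm}
    (ha : a ∈ At W as) : vh W y τ a = Real.exp (lx W y τ a) := by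
  rcases ha with ⟨w, -, rfl⟩ | ha
  · rfl
  · obtain ⟨b, c, rfl, -⟩ := hc.nw a ha
    rfl

/-- The relations hold for the logarithms on the path. -/
theorem ch_lx (y : Pt W) (τ : ℝ) : ∀ as, Cl W as → Ch W as (lx W y τ) := by
  refine ch_all (ρ := fun b => rf W b y)
    (lam' := fun t => Real.log (vh W y τ t) + (τ - 1) * Real.log (e1 t)) ?_ ?_ ?_
  · intro w _
    show τ * lr W (.var w) y = Real.log (Real.exp (τ * lr W (.var w) y)) +
      (τ - 1) * Real.log ((1 : ℕ) : ℝ)
    rw [Real.log_exp, Nat.cast_one, Real.log_one, mul_zero, add_zero]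
  · intro a b
    rfl
  · intro as hc hch
    obtain ⟨φ, h0, hadd, hφ⟩ := exists_phi hch
    have hMo : Mo (VA W (At W as)) fun v => Real.exp (φ v) := by
      refine ⟨?_, fun v hv w hw => ?_⟩
      · rw [h0, Real.exp_zero]
      · rw [hadd v hv w hw, Real.exp_add]
    refine ⟨rfl, fun _ _ _ _ => rfl, fun _ _ _ _ => rfl, fun s t _ _ h => congrFun h y, ?_, ?_, ?_⟩
    · intro s t _ _
      show Real.log (vh W y τ s * vh W y τ t) + (τ - 1) * Real.log ((e1 s * e1 t : ℕ) : ℝ) =
        (Real.log (vh W y τ s) + (τ - 1) * Real.log (e1 s)) +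
          (Real.log (vh W y τ t) + (τ - 1) * Real.log (e1 t))
      have hs : (e1 s : ℝ) ≠ 0 := Nat.cast_ne_zero.2 (by have := e1_pos s; omega)
      have ht : (e1 t : ℝ) ≠ 0 := Nat.cast_ne_zero.2 (by have := e1_pos t; omega)
      rw [Real.log_mul (vh_pos y τ s).ne' (vh_pos y τ t).ne', Nat.cast_mul, Real.log_mul hs ht]
      ring
    · intro s t hs ht h
      have h1 := rp_ext hc hs ht h
      have h2 : e1 s = e1 t := by
        have h3 := e1_evl (W := W) s
        rw [h1, ← e1_evl (W := W) t] at h3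
        exact_mod_cast h3
      have h4 : vh W y τ s = vh W y τ t := by
        have h5 : ∀ a ∈ At W as, vh W y τ a = (fun v => Real.exp (φ v)) (lr W a) := by
          intro a ha
          show vh W y τ a = Real.exp (φ (lr W a))
          rw [hφ a ha]
          exact Pth_exp hc y τ ha
        rw [← av_vh y τ s, ← av_vh y τ t, av_evl hMo h5 hs, av_evl hMo h5 ht, h1]
      show Real.log (vh W y τ s) + (τ - 1) * Real.log (e1 s) =
        Real.log (vh W y τ t) + (τ - 1) * Real.log (e1 t)
      rw [h2, h4]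
    · intro a b _
      show Real.log (Real.exp (rf W b y * (Real.log (vh W y τ a) + (τ - 1) *
        Real.log (e1 a)))) + (τ - 1) * Real.log ((1 : ℕ) : ℝ) = _
      rw [Real.log_exp, Nat.cast_one, Real.log_one, mul_zero, add_zero]

/-- If the relation holds for the first order data at all points of all paths, then it holds for the
logarithms. -/
theorem of_path {S : Finset Tm} {k : Tm → ℤ} (hS : ∀ a ∈ S, a ∈ ats a)
    (h : ∀ y τ, ∑ a ∈ S, (k a : ℝ) * ph (Py W y τ) a = 0) :
    ∀ y, ∑ a ∈ S, (k a : ℝ) * lr W a y = 0 := by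
  intro y
  have h1 : ∀ τ, HasDerivAt (fun τ => ∑ a ∈ S, (k a : ℝ) * lx W y τ a) 0 τ := by
    intro τ
    rw [← h y τ]
    exact HasDerivAt.fun_sum fun a _ => (lx_der y τ a).const_mul _
  have h2 := is_const_of_deriv_eq_zero (f := fun τ => ∑ a ∈ S, (k a : ℝ) * lx W y τ a)
    (fun τ => (h1 τ).differentiableAt) (fun τ => (h1 τ).deriv) 1 0
  have h3 : ∑ a ∈ S, (k a : ℝ) * lx W y 1 a = ∑ a ∈ S, (k a : ℝ) * lx W y 0 a := h2
  have h4 : ∑ a ∈ S, (k a : ℝ) * lx W y 0 a = 0 :=
    Finset.sum_eq_zero fun a _ => by rw [lx_zero, mul_zero]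
  rw [h4] at h3
  rw [← h3]
  exact Finset.sum_congr rfl fun a ha => by rw [lx_one y (hS a ha)]

end Pool.Agent.TC
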