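import Pool.Agent.H.MP_b2d7dd_lc.TC.Rl
import Pool.Agent.H.MP_b2d7dd_lc.TC.Pth

/-!
# Module Rb: relations between the numerators hold for the logarithms
-/

namespace Pool.Agent.TC

open Pool.Agent.TI (Tm)
open Finset

variable {W : Finset (List Bool)} {n L : ℕ} {ex : ℕ → Tm} {κ : ℕ} {Pk : ℕ → ℕ} {mu : ℕ → ℕ → ℕ}

private theorem Rb_mono {ex : ℕ → Tm} {i j : ℕ} (h : i ≤ j) : exA ex i ⊆ exA ex j := by
  rintro u ⟨a, ha, h1⟩
  exact ⟨a, lt_of_lt_of_le ha h, h1⟩

private theorem Rb_cl {as : List Tm} (hc : Cl W as) : ClA (At W as) := by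
  rintro a b (⟨w, -, h1⟩ | h1)
  · exact absurd h1 (by simp)
  · obtain ⟨a', b', h2, h3, h4, -, -⟩ := hc.nw _ h1
    rw [Tm.pow.injEq] at h2
    obtain ⟨rfl, rfl⟩ := h2
    exact ⟨h3, h4⟩

/-- the values of the exponents -/
private noncomputable def Rb_f (W : Finset (List Bool)) (Pk : ℕ → ℕ) (y : Pt W)
    (φ : (Pt W → ℝ) → ℝ) (g : Gx W) : ℝ :=
  Real.exp (φ g.1) * Real.exp (g.2.1 y) *
    g.2.2.prod fun x e => (Sum.elim (fun w => lr W (.var w) y) (fun k => Real.log (Pk k)) x) ^ e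

private theorem Rb_fit {as : List Tm} (hc : Cl W as) (y : Pt W) (τ : ℝ) {φ : (Pt W → ℝ) → ℝ}
    (h0 : φ 0 = 0) (h1 : ∀ v ∈ Vm W as, ∀ w ∈ Vm W as, φ (v + w) = φ v + φ w)
    (h2 : ∀ a ∈ At W as, φ (lr W a) = lx W y τ a) :
    Fit W κ mu (At W as) (Rb_f W Pk y φ) (Py W y τ) := by
  refine ⟨⟨?_, ?_⟩, ?_, ?_, ?_⟩
  · show Real.exp (φ 0) * Real.exp ((0 : Pt W → ℝ) y) * Finsupp.prod 0 _ = 1
    rw [h0, Pi.zero_apply, Real.exp_zero, Finsupp.prod_zero_index]
    ring
  · intro g hg h hh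
    have hg1 : g.1 ∈ Vm W as := hg.1
    have hh1 : h.1 ∈ Vm W as := hh.1
    show Real.exp (φ (g.1 + h.1)) * Real.exp ((g.2.1 + h.2.1) y) * (g.2.2 + h.2.2).prod _ = _
    rw [h1 _ hg1 _ hh1, Pi.add_apply, Real.exp_add, Real.exp_add,
      Finsupp.prod_add_index' (fun _ => pow_zero _) (fun _ _ _ => pow_add _ _ _)]
    unfold Rb_f
    ring
  · intro a ha
    show vh W y τ a = Real.exp (φ (lr W a)) * Real.exp ((0 : Pt W → ℝ) y) * Finsupp.prod 0 _
    rw [h2 a ha, Pi.zero_apply, Real.exp_zero, Finsupp.prod_zero_index, mul_one, mul_one]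
    rcases ha with ⟨w, -, rfl⟩ | ha
    · rfl
    · obtain ⟨a', b', rfl, -⟩ := hc.nw _ ha
      rfl
  · intro a ha
    show rf W a y = Real.exp (φ 0) * Real.exp (lr W a y) * Finsupp.prod 0 _
    rw [h0, Real.exp_zero, Finsupp.prod_zero_index, mul_one, one_mul]
    rcases ha with ⟨w, -, rfl⟩ | ha
    · exact rf_var W w y
    · obtain ⟨a', b', rfl, -⟩ := hc.nw _ ha
      exact rf_pow W a' b' y
  · intro w
    show lr W (.var w) y = Real.exp (φ 0) * Real.exp ((0 : Pt W → ℝ) y) *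
      (Finsupp.single (Sum.inl w) 1).prod _
    rw [h0, Pi.zero_apply, Real.exp_zero, Finsupp.prod_single_index (by exact pow_zero _), pow_one]
    simp

open Classical in
private theorem Rb_group (ex : ℕ → Tm) (i : ℕ) (k : ℕ → ℤ) (g : Tm → ℝ)
    (hg : ∀ u, u ∉ ats u → g u = 0) :
    ∑ a ∈ range i, (k a : ℝ) * g (ex a) =
      ∑ u ∈ ((range i).image ex).filter (fun u => u ∈ ats u),
        ((∑ a ∈ (range i).filter (fun a => ex a = u), k a : ℤ) : ℝ) * g u := by
  rw [Finset.sum_filter_of_ne (fun u _ h => by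
      by_contra h1
      exact h (by rw [hg u h1, mul_zero])),
    ← Finset.sum_fiberwise_of_maps_to (g := ex) (t := (range i).image ex)
      (fun a ha => Finset.mem_image_of_mem _ ha)]
  refine Finset.sum_congr rfl fun u _ => ?_
  rw [Int.cast_sum, Finset.sum_mul]
  refine Finset.sum_congr rfl fun a ha => ?_
  rw [(Finset.mem_filter.1 ha).2]

/-- The relations between the numerators hold for the logarithms. -/
theorem rel_bwd (h : FamC W n L ex) (hM : MB κ Pk mu (Bs1 ex L)) {i : ℕ} (hi : i ≤ L) (k : ℕ → ℤ)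
    (hk : ∑ a ∈ range i, k a • cn W κ mu ex i a = 0) : ∑ a ∈ range i, k a • lr W (ex a) = 0 := by
  classical
  obtain ⟨as, hc, hA⟩ := h.cl hi
  have hcA := Rb_cl hc
  have key : ∀ (y : Pt W) (τ : ℝ), ∑ a ∈ range i, (k a : ℝ) * ph (Py W y τ) (ex a) = 0 := by
    intro y τ
    obtain ⟨φ, h0, h1, h2⟩ := exists_phi (ch_lx y τ as hc)
    have hF : Fit W κ mu (At W as) (Rb_f W Pk y φ) (Py W y τ) := Rb_fit hc y τ h0 h1 h2
    obtain ⟨f, hf⟩ : ∃ f, f = Rb_f W Pk y φ := ⟨_, rfl⟩
    rw [← hf] at hF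
    have hinr : ∀ k : ℕ, f (0, 0, Finsupp.single (Sum.inr k) 1) = Real.log (Pk k) := by
      intro k
      rw [hf]
      show Real.exp (φ 0) * Real.exp ((0 : Pt W → ℝ) y) *
        (Finsupp.single (Sum.inr k) 1).prod _ = _
      rw [h0, Pi.zero_apply, Real.exp_zero, Finsupp.prod_single_index (by exact pow_zero _),
        pow_one]
      simp
    have hats : ∀ a < i, ats (ex a) ⊆ At W as := fun a ha =>
      (h.at1 a (lt_of_lt_of_le ha hi)).trans ((Rb_mono ha).trans hA)
    have hbas : ∀ a < i, ∀ c ∈ bases (ex a), ∃ a' < L, ∃ b, ex a' = .pow c b := by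
      intro a ha c hc'
      obtain ⟨a', ha', b, hb⟩ := h.bs a (lt_of_lt_of_le ha hi) c hc'
      exact ⟨a', lt_of_le_of_lt ha' (lt_of_lt_of_le ha hi), b, hb⟩
    have hpos : ∀ c, av (Py W y τ).f c ≠ 0 := by
      intro c
      show av (vh W y τ) c ≠ 0
      rw [av_vh]
      exact (vh_pos y τ c).ne'
    have hunit : ∀ a < i, evl f (dn W (ex a)) ≠ 0 := fun a ha =>
      (dn_unit hcA hF (hats a ha) fun c _ => (hpos c).isUnit).ne_zero
    have hph : ∀ a < i, Su (Sg W (At W as)) (phP W κ mu (ex a)) ∧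
        evl f (phP W κ mu (ex a)) = ph (Py W y τ) (ex a) * evl f (dn W (ex a)) := by
      intro a ha
      have hz : phP W κ mu (ex a) = 0 → ph (Py W y τ) (ex a) = 0 →
          Su (Sg W (At W as)) (phP W κ mu (ex a)) ∧
            evl f (phP W κ mu (ex a)) = ph (Py W y τ) (ex a) * evl f (dn W (ex a)) := by
        intro e1 e2
        rw [e1, e2, evl_zero, zero_mul]
        exact ⟨Su.zero, rfl⟩
      rcases hex : ex a with _ | w | ⟨s, t⟩ | ⟨s, t⟩ | ⟨s, t⟩
      · rw [hex] at hz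
        exact hz rfl rfl
      · have h3 : ((0, 0, Finsupp.single (Sum.inl w) 1) : Gx W) ∈ Sg W (At W as) :=
          AddSubmonoid.mem_prod.2 ⟨zero_mem _, AddSubmonoid.mem_prod.2 ⟨zero_mem _, trivial⟩⟩
        refine ⟨Su.single h3 1, ?_⟩
        show evl f (AddMonoidAlgebra.single (0, 0, Finsupp.single (Sum.inl w) 1) 1) =
          (Py W y τ).α w * evl f (1 : Lx W)
        rw [evl_single, evl_one hF.mo, hF.hα w]
        push_cast
        ring
      · rw [hex] at hz
        exact hz rfl rfl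
      · rw [hex] at hz
        exact hz rfl rfl
      · obtain ⟨h3, h4⟩ := h.at2 a (lt_of_lt_of_le ha hi) s t hex
        have h5 : ats s ⊆ At W as := h3.trans ((Rb_mono ha.le).trans hA)
        have h6 : ats t ⊆ At W as := h4.trans ((Rb_mono ha.le).trans hA)
        refine ⟨su_ph hcA h5 h6, evl_phP hcA hF h5 h6 fun c hc' => ⟨?_, ?_⟩⟩
        · show av (Py W y τ).f c * (av (Py W y τ).f c)⁻¹ = 1
          exact mul_inv_cancel₀ (hpos c)
        · rw [← hex] at hc'
          obtain ⟨a', ha', b, hb⟩ := hbas a ha c hc'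
          have h7 := hM.log (n := e1 c) ⟨a', ha', c, b, hb, rfl⟩
          show Real.log (e1 c) = _
          rw [h7]
          refine Finset.sum_congr rfl fun k _ => ?_
          rw [hinr]
    have hcn : ∀ a ∈ range i, evl f (cn W κ mu ex i a) =
        ph (Py W y τ) (ex a) * ∏ b ∈ range i, evl f (dn W (ex b)) := by
      intro a ha
      have ha' := Finset.mem_range.1 ha
      have h3 : ∀ b ∈ (range i).erase a, Su (Sg W (At W as)) (dn W (ex b)) := fun b hb =>
        (su_P (κ := κ) (mu := mu) hcA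
          (hats b (Finset.mem_range.1 (Finset.mem_of_mem_erase hb)))).2.2.1
      unfold cn
      rw [evl_mul hF.mo (hph a ha').1 (Su.prod _ _ h3), evl_prod hF.mo _ _ h3, (hph a ha').2,
        ← Finset.mul_prod_erase (range i) _ ha]
      ring
    have hsum : evl f (∑ a ∈ range i, k a • cn W κ mu ex i a) =
        (∑ a ∈ range i, (k a : ℝ) * ph (Py W y τ) (ex a)) *
          ∏ b ∈ range i, evl f (dn W (ex b)) := by
      rw [evl_sum, Finset.sum_mul]
      refine Finset.sum_congr rfl fun a ha => ?_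
      rw [evl_zsmul, hcn a ha]
      ring
    rw [hk, evl_zero] at hsum
    refine (mul_eq_zero.1 hsum.symm).resolve_right ?_
    exact Finset.prod_ne_zero_iff.2 fun b hb => hunit b (Finset.mem_range.1 hb)
  have hg1 : ∀ (y : Pt W) (τ : ℝ) (u : Tm), u ∉ ats u → ph (Py W y τ) u = 0 := by
    intro y τ u hu
    cases u with
    | one => rfl
    | var w => exact absurd rfl hu
    | add s t => rfl
    | mul s t => rfl
    | pow s t => exact absurd rfl hu
  have hg2 : ∀ (y : Pt W) (u : Tm), u ∉ ats u → lr W u y = 0 := by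
    intro y u hu
    cases u with
    | one => rfl
    | var w => exact absurd rfl hu
    | add s t => rfl
    | mul s t => rfl
    | pow s t => exact absurd rfl hu
  have hfin := of_path (W := W) (S := ((range i).image ex).filter (fun u => u ∈ ats u))
    (k := fun u => ∑ a ∈ (range i).filter (fun a => ex a = u), k a)
    (fun a ha => (Finset.mem_filter.1 ha).2) (fun y τ => by
      rw [← Rb_group ex i k (fun u => ph (Py W y τ) u) (hg1 y τ)]
      exact key y τ)
  funext y
  rw [Finset.sum_apply, Pi.zero_apply, ← hfin y, ← Rb_group ex i k (fun u => lr W u y) (hg2 y)]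
  refine Finset.sum_congr rfl fun a _ => ?_
  rw [Pi.smul_apply, zsmul_eq_mul]

end Pool.Agent.TC
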