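import Pool.Agent.H.MP_b2d7dd_lc.TC.Cf
import Pool.Agent.H.MP_b2d7dd_lc.TW.Lin

/-!
# Module Sml: small relations between the vectors

The same as TN/Sml (copy and adapt) for general vectors `vec a` in a group without torsion and a matrix
`B a : Γ →₀ ℤ` with entries at most `2 ^ m` and the same relations.
-/

namespace Pool.Agent.TC

open Finset
open Pool.Agent.TW (NB)

variable {M : Type} [AddCommGroup M] [IsAddTorsionFree M] {Γ : Type}

/-- The matrix has the same relations as the vectors. -/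
def Eqv (vec : ℕ → M) (B : ℕ → Γ →₀ ℤ) (L : ℕ) : Prop :=
  ∀ k : ℕ → ℤ, ∑ a ∈ range L, k a • vec a = 0 ↔ ∑ a ∈ range L, k a • B a = 0

/-- A basis with small coordinates. -/
structure Bas (vec : ℕ → M) (B : ℕ → Γ →₀ ℤ) (L : ℕ) (N : ℕ) (S : Finset ℕ) (D : ℤ)
    (n : ℕ → ℕ → ℤ) : Prop where
  sub : S ⊆ range L
  D0 : D ≠ 0
  Dle : |D| ≤ N
  nle : ∀ a s, |n a s| ≤ N
  lt : ∀ a s, a < s → n a s = 0
  supp : ∀ a s, s ∉ S → n a s = 0
  del : ∀ s ∈ S, ∀ s' ∈ S, n s s' = if s = s' then D else 0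
  rel : ∀ a < L, D • vec a = ∑ s ∈ S, n a s • vec s
  ind : ∀ θ : ℕ → ℤ, ∑ s ∈ S, θ s • vec s = 0 → ∀ s ∈ S, θ s = 0
  indr : ∀ r : ℕ, r.Prime → ¬ (r : ℤ) ∣ D → ∀ θ : ℕ → ZMod r,
    (∀ g, ∑ s ∈ S, θ s * ((B s g : ℤ) : ZMod r) = 0) → ∀ s ∈ S, θ s = 0

omit [IsAddTorsionFree M] in
private theorem Sml_fin {vec : ℕ → M} {B : ℕ → Γ →₀ ℤ} {L : ℕ} (hE : Eqv vec B L)
    (k : Fin L → ℤ) : ∑ j : Fin L, k j • vec j = 0 ↔ ∑ j : Fin L, k j • B j = 0 := by
  have h := hE (fun a => if h : a < L then k ⟨a, h⟩ else 0)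
  rw [Finset.sum_range, Finset.sum_range] at h
  have e : ∀ j : Fin L, (if h : (j : ℕ) < L then k ⟨j, h⟩ else 0) = k j := fun j => dif_pos j.2
  simp only [e] at h
  exact h

theorem exists_bas {vec : ℕ → M} {B : ℕ → Γ →₀ ℤ} {L m : ℕ} (hE : Eqv vec B L)
    (hB : ∀ a < L, ∀ g, |B a g| ≤ ((2 ^ m : ℕ) : ℤ)) {N : ℕ} (hN : NB L (2 ^ m) ≤ N) :
    ∃ S D n, Bas vec B L N S D n := by
  classical
  obtain ⟨S, D, n, hD0, hD, hn, hsup, hdel, hrel, hind, hindr⟩ :=
    Pool.Agent.TW.lin (fun a : Fin L => B a)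
      (Nat.one_le_two_pow : 1 ≤ 2 ^ m) (fun a g => hB a a.2 g)
  have hN' : (NB L (2 ^ m) : ℤ) ≤ N := by exact_mod_cast hN
  obtain ⟨q, hq⟩ : ∃ q : ℕ → ℕ → ℤ, q = fun a s =>
      if hh : a < L ∧ s < L then n ⟨a, hh.1⟩ ⟨s, hh.2⟩ else 0 := ⟨_, rfl⟩
  have hm1 : ∀ a s : Fin L, q a s = n a s := by
    intro a s
    rw [hq]
    dsimp only
    rw [dif_pos ⟨a.2, s.2⟩]
  have hm0 : ∀ a s : ℕ, ¬ (a < L ∧ s < L) → q a s = 0 := by
    intro a s hh
    rw [hq]
    dsimp only
    rw [dif_neg hh]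
  have hmS : ∀ x : ℕ, x ∈ S.map Fin.valEmbedding ↔ ∃ y ∈ S, (y : ℕ) = x := by
    intro x
    rw [Finset.mem_map]
    rfl
  refine ⟨S.map Fin.valEmbedding, D, q, ?_, hD0, hD.trans hN', ?_, ?_, ?_, ?_, ?_, ?_, ?_⟩
  · intro x hx
    obtain ⟨y, -, rfl⟩ := (hmS x).1 hx
    exact mem_range.2 y.2
  · intro a s
    by_cases hh : a < L ∧ s < L
    · have h1 := hm1 ⟨a, hh.1⟩ ⟨s, hh.2⟩
      rw [h1]
      exact (hn _ _).trans hN'
    · rw [hm0 a s hh, abs_zero]
      exact_mod_cast Nat.zero_le N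
  · intro a s has
    by_cases hh : a < L ∧ s < L
    · have h1 := hm1 ⟨a, hh.1⟩ ⟨s, hh.2⟩
      rw [h1]
      by_contra h2
      have h3 := (hsup _ _ h2).2
      have h4 : s ≤ a := h3
      omega
    · exact hm0 a s hh
  · intro a s hs
    by_cases hh : a < L ∧ s < L
    · have h1 := hm1 ⟨a, hh.1⟩ ⟨s, hh.2⟩
      rw [h1]
      by_contra h2
      exact hs ((hmS s).2 ⟨_, (hsup _ _ h2).1, rfl⟩)
    · exact hm0 a s hh
  · intro s hs s' hs'
    obtain ⟨y, hy, rfl⟩ := (hmS s).1 hs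
    obtain ⟨y', hy', rfl⟩ := (hmS s').1 hs'
    rw [hm1, hdel y hy y' hy']
    by_cases he : y = y'
    · rw [if_pos he, if_pos (congrArg _ he)]
    · rw [if_neg he, if_neg fun hh => he (Fin.ext hh)]
  · intro a ha
    have h1 := hrel ⟨a, ha⟩
    have h2 : ∑ j : Fin L, ((if j = ⟨a, ha⟩ then D else 0) - n ⟨a, ha⟩ j) •
        B j = 0 := by
      simp only [sub_smul, Finset.sum_sub_distrib]
      rw [← h1, Finset.sum_eq_single_of_mem (⟨a, ha⟩ : Fin L) (mem_univ _)
        (fun b _ hb => by rw [if_neg hb, zero_smul]), if_pos rfl, sub_self]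
    have h3 := (Sml_fin hE _).2 h2
    simp only [sub_smul, Finset.sum_sub_distrib] at h3
    rw [Finset.sum_eq_single_of_mem (⟨a, ha⟩ : Fin L) (mem_univ _)
        (fun b _ hb => by rw [if_neg hb, zero_smul]), if_pos rfl, sub_eq_zero] at h3
    rw [Finset.sum_map]
    refine Eq.trans h3 ?_
    rw [← Finset.sum_subset (subset_univ S)]
    · refine Finset.sum_congr rfl fun s _ => ?_
      have h4 := hm1 ⟨a, ha⟩ s
      change n ⟨a, ha⟩ s • vec s = q a s • vec s
      rw [← h4]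
    · intro s _ hs
      have h5 : n ⟨a, ha⟩ s = 0 := by
        by_contra h6
        exact hs (hsup _ _ h6).1
      rw [h5, zero_smul]
  · intro θ hθ s hs
    obtain ⟨y, hy, rfl⟩ := (hmS s).1 hs
    rw [Finset.sum_map] at hθ
    have h2 : ∑ j : Fin L, (if j ∈ S then θ j else 0) • vec j = 0 := by
      refine Eq.trans ?_ hθ
      rw [← Finset.sum_subset (subset_univ S)]
      · refine Finset.sum_congr rfl fun s hs => ?_
        rw [if_pos hs]
        rfl
      · intro s _ hs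
        rw [if_neg hs, zero_smul]
    have h3 := (Sml_fin hE _).1 h2
    have h4 := hind (fun j => if j ∈ S then θ j else 0) (fun s hs => if_neg hs) h3
    have h5 := congrFun h4 y
    simp only [if_pos hy, Pi.zero_apply] at h5
    exact h5
  · intro r hr hrD θ hθ s hs
    obtain ⟨y, hy, rfl⟩ := (hmS s).1 hs
    have h4 := hindr r hr hrD (fun j => if j ∈ S then θ j else 0) (fun s hs => if_neg hs) (by
      intro g
      have h1 := hθ g
      rw [Finset.sum_map] at h1
      refine Eq.trans ?_ h1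
      rw [← Finset.sum_subset (subset_univ S)]
      · refine Finset.sum_congr rfl fun s hs => ?_
        rw [if_pos hs]
        rfl
      · intro s _ hs
        rw [if_neg hs, zero_mul])
    have h5 := congrFun h4 y
    simp only [if_pos hy, Pi.zero_apply] at h5
    exact h5

theorem coh_of_small {vec : ℕ → M} {B : ℕ → Γ →₀ ℤ} {L m : ℕ} (hE : Eqv vec B L)
    (hB : ∀ a < L, ∀ g, |B a g| ≤ ((2 ^ m : ℕ) : ℤ)) {r N P : ℕ} (hN : NB L (2 ^ m) ≤ N)
    (hr : (L + 1) * N * P < r) (row : ℕ → ℤ) (hrow : ∀ a, |row a| ≤ P)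
    (hrel : ∀ k : ℕ → ℤ, ∑ a ∈ range L, k a • vec a = 0 →
      (r : ℤ) ∣ ∑ a ∈ range L, k a * row a) :
    ∀ k : ℕ → ℤ, ∑ a ∈ range L, k a • vec a = 0 → ∑ a ∈ range L, k a * row a = 0 := by
  obtain ⟨S, D, n, hb⟩ := exists_bas hE hB hN
  have hrel' : ∀ a < L, D • vec a = ∑ s ∈ range L, n a s • vec s := by
    intro a ha
    rw [hb.rel a ha]
    refine Finset.sum_subset hb.sub fun s _ hs => ?_
    rw [hb.supp a s hs, zero_smul]
  have key : ∀ a < L, D * row a = ∑ s ∈ range L, n a s * row s := by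
    intro a ha
    have h1 := hrel (fun s => (if s = a then D else 0) - n a s) (by
      simp only [sub_smul, Finset.sum_sub_distrib]
      rw [← hrel' a ha, Finset.sum_eq_single_of_mem a (mem_range.2 ha)
        (fun b _ hb => by rw [if_neg hb, zero_smul]), if_pos rfl, sub_self])
    simp only [sub_mul, Finset.sum_sub_distrib] at h1
    rw [Finset.sum_eq_single_of_mem a (mem_range.2 ha)
        (fun b _ hb => by rw [if_neg hb, zero_mul]), if_pos rfl] at h1
    have hNP : ∀ x y : ℤ, |x| ≤ N → |y| ≤ P → |x * y| ≤ N * P := by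
      intro x y hx hy
      rw [abs_mul]
      exact mul_le_mul hx hy (abs_nonneg _) (by positivity)
    have h2 : |D * row a - ∑ s ∈ range L, n a s * row s| < (r : ℤ) := by
      have h3 : |D * row a| ≤ N * P := hNP _ _ hb.Dle (hrow a)
      have h4 : |∑ s ∈ range L, n a s * row s| ≤ L * (N * P) := by
        refine (Finset.abs_sum_le_sum_abs _ _).trans ?_
        refine (Finset.sum_le_card_nsmul _ _ ((N : ℤ) * P) fun s _ =>
          hNP _ _ (hb.nle a s) (hrow s)).trans ?_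
        rw [card_range, nsmul_eq_mul]
      have h5 : (((L + 1) * N * P : ℕ) : ℤ) < r := by exact_mod_cast hr
      push_cast at h5
      calc |D * row a - ∑ s ∈ range L, n a s * row s|
          ≤ |D * row a| + |∑ s ∈ range L, n a s * row s| := abs_sub _ _
        _ ≤ N * P + L * (N * P) := add_le_add h3 h4
        _ = (L + 1) * N * P := by ring
        _ < r := h5
    exact sub_eq_zero.1 (Int.eq_zero_of_abs_lt_dvd h1 h2)
  intro k hk
  have h1 : ∑ s ∈ S, (∑ a ∈ range L, k a * n a s) • vec s = 0 := by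
    have h2 : D • ∑ a ∈ range L, k a • vec a =
        ∑ s ∈ S, (∑ a ∈ range L, k a * n a s) • vec s := by
      rw [Finset.smul_sum]
      simp only [Finset.sum_smul]
      rw [Finset.sum_comm]
      refine Finset.sum_congr rfl fun a ha => ?_
      rw [smul_comm, hb.rel a (mem_range.1 ha), Finset.smul_sum]
      refine Finset.sum_congr rfl fun s _ => ?_
      rw [smul_smul]
    rw [← h2, hk, smul_zero]
  have h2 := hb.ind (fun s => ∑ a ∈ range L, k a * n a s) h1
  have h3 : D * ∑ a ∈ range L, k a * row a = 0 := by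
    rw [Finset.mul_sum]
    have h4 : ∀ a ∈ range L, D * (k a * row a) =
        ∑ s ∈ range L, k a * n a s * row s := by
      intro a ha
      have h5 : D * (k a * row a) = k a * (D * row a) := by ring
      rw [h5, key a (mem_range.1 ha), Finset.mul_sum]
      refine Finset.sum_congr rfl fun s _ => ?_
      ring
    rw [Finset.sum_congr rfl h4, Finset.sum_comm]
    refine Finset.sum_eq_zero fun s _ => ?_
    rw [← Finset.sum_mul]
    by_cases hs : s ∈ S
    · have h6 : ∑ a ∈ range L, k a * n a s = 0 := h2 s hs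
      rw [h6, zero_mul]
    · rw [Finset.sum_eq_zero fun a _ => by rw [hb.supp a s hs, mul_zero], zero_mul]
  exact (mul_eq_zero.1 h3).resolve_left hb.D0

end Pool.Agent.TC
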