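import Pool.Agent.H.MP_b2d7dd_lc.TC.Rf
import Pool.Agent.H.MP_b2d7dd_lc.TC.Rb
import Pool.Agent.H.MP_b2d7dd_lc.TC.Sml

/-!
# Module Re: the numerators have the same relations as the logarithms
-/

namespace Pool.Agent.TC

open Pool.Agent.TI (Tm)
open Finset

variable {W : Finset (List Bool)} {n L : ℕ} {ex : ℕ → Tm} {κ : ℕ} {Pk : ℕ → ℕ} {mu : ℕ → ℕ → ℕ}

theorem rel_iff (h : FamC W n L ex) (hM : MB κ Pk mu (Bs1 ex L)) {i : ℕ} (hi : i ≤ L) :
    Eqv (fun a => lr W (ex a)) (fun a => (cn W κ mu ex i a).coeff) i := by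
  have key : ∀ k : ℕ → ℤ, (∑ a ∈ range i, k a • cn W κ mu ex i a = 0 ↔
      ∑ a ∈ range i, k a • (cn W κ mu ex i a).coeff = 0) := by
    intro k
    have e : AddMonoidAlgebra.coeffAddEquiv (∑ a ∈ range i, k a • cn W κ mu ex i a) =
        ∑ a ∈ range i, k a • (cn W κ mu ex i a).coeff := by
      rw [map_sum]
      refine Finset.sum_congr rfl fun a _ => ?_
      rw [map_zsmul]
      rfl
    rw [← e, EmbeddingLike.map_eq_zero_iff]
  exact fun k => ⟨fun hk => (key k).1 (rel_fwd h hM hi k hk),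
    fun hk => rel_bwd h hM hi k ((key k).2 hk)⟩

end Pool.Agent.TC
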