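import Pool.Agent.H.MP_b2d7dd_lc.TC.Adj

/-!
# Module Irr: an irreducible polynomial does not divide all its derivatives
-/

namespace Pool.Agent.TC

open Polynomial

variable {ι H : Type} [Field H] [CharZero H] {D : ι → Derivation ℤ H H} {K : Subfield H}

omit [CharZero H] in
private theorem Irr_key {δ : Derivation ℤ H H} {a b : H} {d : Derivation ℤ K[X] K[X]}
    (h : PD K δ a b d) {π : K[X]} (hπ : π ≠ 0) (hdvd : π ∣ d π) {θ : H}
    (hθ : δ θ = a * θ + b) :
    δ (aeval θ π) * (π.leadingCoeff : K) =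
      (δ (π.leadingCoeff : K) + π.natDegree * a * (π.leadingCoeff : K)) * aeval θ π := by
  have hu0 : π.leadingCoeff ≠ 0 := leadingCoeff_ne_zero.2 hπ
  have hd : d π = C ((d π).coeff π.natDegree / π.leadingCoeff) * π := by
    obtain ⟨r, hr⟩ : ∃ r, r = d π - C ((d π).coeff π.natDegree / π.leadingCoeff) * π := ⟨_, rfl⟩
    rw [← sub_eq_zero, ← hr]
    by_contra hne
    have hr1 : π ∣ r := by
      rw [hr]
      exact dvd_sub hdvd (dvd_mul_left _ _)
    have hr2 : π.natDegree ≤ r.natDegree := natDegree_le_of_dvd hr1 hne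
    have hr3 : r.natDegree ≤ π.natDegree := by
      rw [hr]
      exact (natDegree_sub_le _ _).trans (max_le (h.deg π) (natDegree_C_mul_le _ _))
    have hr4 : r.coeff π.natDegree = 0 := by
      rw [hr, coeff_sub, coeff_C_mul, coeff_natDegree, div_mul_cancel₀ _ hu0, sub_self]
    apply hne
    rw [← leadingCoeff_eq_zero, leadingCoeff, le_antisymm hr3 hr2]
    exact hr4
  have hc : (((d π).coeff π.natDegree / π.leadingCoeff : K) : H) * (π.leadingCoeff : K) =
      δ (π.leadingCoeff : K) + π.natDegree * a * (π.leadingCoeff : K) := by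
    have h1 := h.coeff π π.natDegree
    rw [coeff_eq_zero_of_natDegree_lt (Nat.lt_succ_self π.natDegree), coeff_natDegree] at h1
    have h2 : (((0 : K)) : H) = 0 := rfl
    rw [h2, mul_zero, add_zero] at h1
    rw [← h1, ← Subfield.coe_mul, div_mul_cancel₀ _ hu0]
  have h3 : δ (aeval θ π) =
      (((d π).coeff π.natDegree / π.leadingCoeff : K) : H) * aeval θ π := by
    calc δ (aeval θ π) = aeval θ (d π) := h.ev θ hθ π
      _ = aeval θ (C ((d π).coeff π.natDegree / π.leadingCoeff) * π) := by rw [← hd]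
      _ = _ := by
        rw [map_mul, aeval_C]
        rfl
  rw [h3, ← hc]
  ring

/-- `θ` is primitive (`D θ ∈ K`): otherwise `π(θ)` would be a constant for `π` monic. -/
theorem irr_log (hK : Stb D K) {θ : H} (ht : Transcendental K θ) {b : ι → H}
    (hθ : ∀ i, D i θ = b i) (hb : ∀ i, b i ∈ K) (d : ι → Derivation ℤ K[X] K[X])
    (hd : ∀ i, PD K (D i) 0 (b i) (d i)) {π : K[X]} (hπ : Irreducible π) :
    ∃ i, ¬ π ∣ d i π := by
  by_contra hcon
  push Not at hcon
  have hu0 : π.leadingCoeff ≠ 0 := leadingCoeff_ne_zero.2 hπ.ne_zero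
  have hu : ((π.leadingCoeff : K) : H) ≠ 0 := fun h0 => hu0 (Subtype.ext h0)
  have hw : aeval θ π / (π.leadingCoeff : K) ∈ Cst D := by
    intro i
    have h1 := Irr_key (hd i) hπ.ne_zero (hcon i) (θ := θ) (by rw [hθ i, zero_mul, zero_add])
    rw [mul_zero, zero_mul, add_zero] at h1
    rw [Derivation.leibniz_div]
    have h2 : ((π.leadingCoeff : K) : H) • D i (aeval θ π) -
        aeval θ π • D i (π.leadingCoeff : K) = 0 := by
      rw [smul_eq_mul, smul_eq_mul, mul_comm _ (D i (aeval θ π)), h1]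
      ring
    rw [h2, smul_zero]
  have hz : aeval θ (π - C ((⟨_, hK.cst hw⟩ : K) * π.leadingCoeff)) = 0 := by
    rw [map_sub, aeval_C, sub_eq_zero]
    show aeval θ π = aeval θ π / (π.leadingCoeff : K) * (π.leadingCoeff : K)
    rw [div_mul_cancel₀ _ hu]
  have h0 := transcendental_iff.1 ht _ hz
  rw [sub_eq_zero] at h0
  have h3 := hπ.natDegree_pos
  rw [h0, natDegree_C] at h3
  exact lt_irrefl 0 h3

/-- `θ` is an exponential (`D θ = g' θ`): otherwise `π(θ) / θ ^ n` would be a constant for `π`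
monic of degree `n`. -/
theorem irr_exp (hK : Stb D K) {θ : H} (ht : Transcendental K θ) {a : ι → H}
    (hθ : ∀ i, D i θ = a i * θ) (ha : ∀ i, a i ∈ K) (d : ι → Derivation ℤ K[X] K[X])
    (hd : ∀ i, PD K (D i) (a i) 0 (d i)) {π : K[X]} (hπ : Irreducible π) (hX : ¬ Associated π X) :
    ∃ i, ¬ π ∣ d i π := by
  by_contra hcon
  push Not at hcon
  have hu0 : π.leadingCoeff ≠ 0 := leadingCoeff_ne_zero.2 hπ.ne_zero
  have hu : ((π.leadingCoeff : K) : H) ≠ 0 := fun h0 => hu0 (Subtype.ext h0)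
  have hn : π.natDegree ≠ 0 := hπ.natDegree_pos.ne'
  have hθ0 : θ ≠ 0 := by
    intro h0
    have h1 := transcendental_iff.1 ht X (by rw [aeval_X, h0])
    exact X_ne_zero h1
  have hpw : ∀ i, D i (θ ^ π.natDegree) = π.natDegree * a i * θ ^ π.natDegree := by
    intro i
    rw [Derivation.leibniz_pow, hθ i, smul_eq_mul, nsmul_eq_mul]
    calc (π.natDegree : H) * (θ ^ (π.natDegree - 1) * (a i * θ))
        = π.natDegree * a i * (θ ^ (π.natDegree - 1) * θ) := by ring
      _ = π.natDegree * a i * θ ^ π.natDegree := by rw [pow_sub_one_mul hn]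
  have hw : aeval θ π / ((π.leadingCoeff : K) * θ ^ π.natDegree) ∈ Cst D := by
    intro i
    have h1 := Irr_key (hd i) hπ.ne_zero (hcon i) (θ := θ) (by rw [hθ i, add_zero])
    rw [Derivation.leibniz_div]
    have h2 : (((π.leadingCoeff : K) : H) * θ ^ π.natDegree) • D i (aeval θ π) -
        aeval θ π • D i ((π.leadingCoeff : K) * θ ^ π.natDegree) = 0 := by
      rw [Derivation.leibniz, hpw i]
      simp only [smul_eq_mul]
      linear_combination θ ^ π.natDegree * h1
    rw [h2, smul_zero]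
  have hz : aeval θ (π - C ((⟨_, hK.cst hw⟩ : K) * π.leadingCoeff) * X ^ π.natDegree) = 0 := by
    rw [map_sub, map_mul, aeval_C, map_pow, aeval_X, sub_eq_zero]
    show aeval θ π = aeval θ π / ((π.leadingCoeff : K) * θ ^ π.natDegree) *
      (π.leadingCoeff : K) * θ ^ π.natDegree
    rw [mul_assoc, div_mul_cancel₀ _ (mul_ne_zero hu (pow_ne_zero _ hθ0))]
  have h0 := transcendental_iff.1 ht _ hz
  rw [sub_eq_zero] at h0
  have h3 : X ∣ π := by
    rw [h0]
    exact (dvd_pow_self X hn).mul_left _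
  exact hX (irreducible_X.associated_of_dvd hπ h3).symm

end Pool.Agent.TC
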