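import Pool.Agent.H.MP_b2d7dd_lc.TC.Hfc

/-!
# Module Iv: the invariant

`Kf V L` = the field generated by the constants, the functions `exp v` (`v ∈ V`) and the functions in
`L`. `Ind V L` = the functions `exp v · (monomials in L)` are linearly independent over `ℝ`. `Iv V L` =
the invariant: `V` is a `ℚ`-subspace and `L` a finite set of analytic functions, `Ind V L` holds, the
exponentials of the functions in `L` are in the field, and the kernel of the logarithmic derivative is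
spanned by the pairs `(f, exp f)` with `f ∈ V ∪ L`.
-/

namespace Pool.Agent.TC

variable {W : Finset (List Bool)}

/-- The field. -/
noncomputable def Kf (V : Submodule ℚ (Pt W → ℝ)) (L : Finset (Pt W → ℝ)) : Subfield (HW W) :=
  adj (Cst (DD W)) {x | (∃ v ∈ V, x = toH W fun t => Real.exp (v t)) ∨ ∃ l ∈ L, x = toH W l}

/-- Linear independence. -/
def Ind (V : Submodule ℚ (Pt W → ℝ)) (L : Finset (Pt W → ℝ)) : Prop :=
  LinearIndependent ℝ (fun p : V × (L →₀ ℕ) =>
    (fun t : Pt W => Real.exp ((p.1 : Pt W → ℝ) t) * p.2.prod fun l k => ((l : Pt W → ℝ) t) ^ k))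

/-- The pairs. -/
def Lb (V : Submodule ℚ (Pt W → ℝ)) (L : Finset (Pt W → ℝ)) : Set (HW W × HW W) :=
  {p | ∃ f : Pt W → ℝ, (f ∈ V ∨ f ∈ L) ∧ p = (toH W f, toH W fun t => Real.exp (f t))}

/-- The invariant. -/
structure Iv (V : Submodule ℚ (Pt W → ℝ)) (L : Finset (Pt W → ℝ)) : Prop where
  anV : ∀ v ∈ V, v ∈ An W
  anL : ∀ l ∈ L, l ∈ An W
  vL : ∀ v ∈ V, toH W v ∈ Kf V L
  dV : ∀ i, ∀ v ∈ V, DD W i (toH W v) ∈ Kf V L
  dL : ∀ i, ∀ l ∈ L, DD W i (toH W l) ∈ Kf V L
  ind : Ind V L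
  eL : ∀ l ∈ L, toH W (fun t => Real.exp (l t)) ∈ Kf V L
  sk : SK (DD W) (Kf V L) (Lb V L)

/-- A relation: a multiple of `g` is an integral combination of `L`, an element of `V` and a
constant. -/
def Rl (V : Submodule ℚ (Pt W → ℝ)) (L : Finset (Pt W → ℝ)) (g : Pt W → ℝ) : Prop :=
  ∃ (M : ℕ) (m : (Pt W → ℝ) → ℤ) (v : Pt W → ℝ) (c : ℝ), 1 ≤ M ∧ v ∈ V ∧
    ∀ t, M * g t = ∑ l ∈ L, m l * l t + v t + c

/-- The generators decide. -/
private theorem Iv_clos {H : Type} [Field H] (δ : Derivation ℤ H H) (S : Set H)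
    (h : ∀ x ∈ S, δ x ∈ Subfield.closure S) {x : H} (hx : x ∈ Subfield.closure S) :
    δ x ∈ Subfield.closure S := by
  induction hx using Subfield.closure_induction with
  | mem x hx => exact h x hx
  | one =>
    rw [Derivation.map_one_eq_zero]
    exact zero_mem _
  | add x y _ _ ih1 ih2 =>
    rw [map_add]
    exact add_mem ih1 ih2
  | neg x _ ih =>
    rw [map_neg]
    exact neg_mem ih
  | inv x hx ih =>
    rw [Derivation.leibniz_inv, smul_eq_mul]
    exact mul_mem (neg_mem (pow_mem (inv_mem hx) 2)) ih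
  | mul x y hx hy ih1 ih2 =>
    rw [Derivation.leibniz, smul_eq_mul, smul_eq_mul]
    exact add_mem (mul_mem hx ih2) (mul_mem hy ih1)

/-- The field is stable. -/
theorem Iv.stb {V : Submodule ℚ (Pt W → ℝ)} {L : Finset (Pt W → ℝ)} (h : Iv V L) :
    Stb (DD W) (Kf V L) := by
  refine ⟨le_adj _ _, fun i x hx => ?_⟩
  refine Iv_clos (DD W i) _ ?_ hx
  rintro y (hy | ⟨v, hv, rfl⟩ | ⟨l, hl, rfl⟩)
  · have h0 : DD W i y = 0 := hy i
    rw [h0]
    exact zero_mem _
  · rw [(DD_exp (h.anV v hv)).2]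
    exact mul_mem (mem_adj _ (Or.inl ⟨v, hv, rfl⟩)) (h.dV i v hv)
  · exact h.dL i l hl

end Pool.Agent.TC
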