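import Pool.Agent.H.MP_b2d7dd_lc.TC.Rl
import Pool.Agent.H.MP_b2d7dd_lc.TI.Tokz

/-!
# Module Stk: stacks and subterms

`subs t` = the subterms of `t`, the last token first. `Stk T st U`: the tokens `T` are the tokens of the
terms of the list `st`, whose subterms are `U` (the last token first).
-/

namespace Pool.Agent.TC

open Pool.Agent.TI (Tm Tok names Tm.toks)

/-- The subterms, the last token first. -/
def subs : Tm → List Tm
  | .one => [.one]
  | .var w => [.var w]
  | .add s t => subs t ++ subs s ++ [.add s t]
  | .mul s t => subs t ++ subs s ++ [.mul s t]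
  | .pow s t => subs t ++ subs s ++ [.pow s t]

/-- The subterms of an identity. -/
def exF (s t : Tm) (a : ℕ) : Tm := (subs t ++ subs s).getD a .one

/-- Stacks. -/
inductive Stk : List Tok → List Tm → List Tm → Prop
  | nil : Stk [] [] []
  | one {T st U} : Stk T st U → Stk ((0, []) :: T) (.one :: st) (U ++ [.one])
  | var {T st U} (w : List Bool) : Stk T st U → Stk ((4, w) :: T) (.var w :: st) (U ++ [.var w])
  | add {T st U a b} : Stk T (a :: b :: st) U → Stk ((1, []) :: T) (.add a b :: st)
      (U ++ [.add a b])
  | mul {T st U a b} : Stk T (a :: b :: st) U → Stk ((2, []) :: T) (.mul a b :: st)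
      (U ++ [.mul a b])
  | pow {T st U a b} : Stk T (a :: b :: st) U → Stk ((3, []) :: T) (.pow a b :: st)
      (U ++ [.pow a b])

theorem length_subs (t : Tm) : (subs t).length = t.sz := by
  induction t with
  | one => rfl
  | var w => rfl
  | add s t hs ht =>
    simp only [subs, Tm.sz, List.length_append, List.length_singleton, hs, ht]
    omega
  | mul s t hs ht =>
    simp only [subs, Tm.sz, List.length_append, List.length_singleton, hs, ht]
    omega
  | pow s t hs ht =>
    simp only [subs, Tm.sz, List.length_append, List.length_singleton, hs, ht]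
    omega

theorem Stk.length {T : List Tok} {st U : List Tm} (h : Stk T st U) : U.length = T.length := by
  induction h with
  | nil => rfl
  | one _ ih => rw [List.length_append, List.length_cons, ih]; rfl
  | var w _ ih => rw [List.length_append, List.length_cons, ih]; rfl
  | add _ ih => rw [List.length_append, List.length_cons, ih]; rfl
  | mul _ ih => rw [List.length_append, List.length_cons, ih]; rfl
  | pow _ ih => rw [List.length_append, List.length_cons, ih]; rfl

private theorem Stk_toks (t : Tm) : ∀ {T : List Tok} {st U : List Tm}, Stk T st U →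
    Stk (t.toks ++ T) (t :: st) (U ++ subs t) := by
  induction t with
  | one => exact fun h => Stk.one h
  | var w => exact fun h => Stk.var w h
  | add s t hs ht =>
    intro T st U h
    have h1 := Stk.add (hs (ht h))
    have e1 : (Tm.add s t).toks ++ T = (1, []) :: (s.toks ++ (t.toks ++ T)) := by
      show (1, []) :: (s.toks ++ t.toks) ++ T = _
      rw [List.cons_append, List.append_assoc]
    have e2 : U ++ subs (.add s t) = U ++ subs t ++ subs s ++ [.add s t] := by
      show U ++ (subs t ++ subs s ++ [.add s t]) = _
      rw [← List.append_assoc, ← List.append_assoc]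
    rw [e1, e2]
    exact h1
  | mul s t hs ht =>
    intro T st U h
    have h1 := Stk.mul (hs (ht h))
    have e1 : (Tm.mul s t).toks ++ T = (2, []) :: (s.toks ++ (t.toks ++ T)) := by
      show (2, []) :: (s.toks ++ t.toks) ++ T = _
      rw [List.cons_append, List.append_assoc]
    have e2 : U ++ subs (.mul s t) = U ++ subs t ++ subs s ++ [.mul s t] := by
      show U ++ (subs t ++ subs s ++ [.mul s t]) = _
      rw [← List.append_assoc, ← List.append_assoc]
    rw [e1, e2]
    exact h1
  | pow s t hs ht =>
    intro T st U h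
    have h1 := Stk.pow (hs (ht h))
    have e1 : (Tm.pow s t).toks ++ T = (3, []) :: (s.toks ++ (t.toks ++ T)) := by
      show (3, []) :: (s.toks ++ t.toks) ++ T = _
      rw [List.cons_append, List.append_assoc]
    have e2 : U ++ subs (.pow s t) = U ++ subs t ++ subs s ++ [.pow s t] := by
      show U ++ (subs t ++ subs s ++ [.pow s t]) = _
      rw [← List.append_assoc, ← List.append_assoc]
    rw [e1, e2]
    exact h1

/-- The tokens of an identity. -/
theorem stk_pair (s t : Tm) : Stk (s.toks ++ t.toks) [s, t] (subs t ++ subs s) := by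
  have h1 := Stk_toks t Stk.nil
  rw [List.append_nil, List.nil_append] at h1
  exact Stk_toks s h1

private theorem Stk_drop_step {T : List Tok} {U st : List Tm} {q : Tok} {u : Tm}
    (h : Stk (q :: T) st (U ++ [u])) (hl : U.length = T.length)
    (ih : ∀ m, m ≤ T.length → ∃ st', Stk (T.drop (T.length - m)) st' (U.take m)) (m : ℕ)
    (hm : m ≤ (q :: T).length) :
    ∃ st', Stk ((q :: T).drop ((q :: T).length - m)) st' ((U ++ [u]).take m) := by
  rw [List.length_cons] at hm ⊢
  rcases Nat.lt_or_ge T.length m with h1 | h1
  · have h2 : m = T.length + 1 := by omega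
    refine ⟨st, ?_⟩
    rw [h2, Nat.sub_self, List.drop_zero, List.take_of_length_le (by
      rw [List.length_append, List.length_singleton, hl])]
    exact h
  · obtain ⟨st', h2⟩ := ih m h1
    refine ⟨st', ?_⟩
    have h3 : T.length + 1 - m = (T.length - m) + 1 := by omega
    rw [h3, List.drop_succ_cons, List.take_append_of_le_length (by omega)]
    exact h2

private theorem Stk_drop {T : List Tok} {st U : List Tm} (h : Stk T st U) :
    ∀ m, m ≤ T.length → ∃ st', Stk (T.drop (T.length - m)) st' (U.take m) := by
  induction h with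
  | nil =>
    intro m _
    refine ⟨[], ?_⟩
    rw [List.drop_nil, List.take_nil]
    exact Stk.nil
  | one h ih => exact Stk_drop_step (Stk.one h) h.length ih
  | var w h ih => exact Stk_drop_step (Stk.var w h) h.length ih
  | add h ih => exact Stk_drop_step (Stk.add h) h.length ih
  | mul h ih => exact Stk_drop_step (Stk.mul h) h.length ih
  | pow h ih => exact Stk_drop_step (Stk.pow h) h.length ih

/-- The last `m` tokens. -/
theorem Stk.drop {T : List Tok} {st U : List Tm} (h : Stk T st U) {m : ℕ} (hm : m ≤ T.length) :
    ∃ st', Stk (T.drop (T.length - m)) st' (U.take m) := Stk_drop h m hm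

/-- The members of the stack are subterms. -/
theorem Stk.mem {T : List Tok} {st U : List Tm} (h : Stk T st U) : ∀ u ∈ st, u ∈ U := by
  induction h with
  | nil => exact fun u hu => hu
  | one _ ih =>
    intro u hu
    rcases List.mem_cons.1 hu with hu | hu
    · exact List.mem_append_right _ (List.mem_singleton.2 hu)
    · exact List.mem_append_left _ (ih u hu)
  | var w _ ih =>
    intro u hu
    rcases List.mem_cons.1 hu with hu | hu
    · exact List.mem_append_right _ (List.mem_singleton.2 hu)
    · exact List.mem_append_left _ (ih u hu)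
  | add _ ih =>
    intro u hu
    rcases List.mem_cons.1 hu with hu | hu
    · exact List.mem_append_right _ (List.mem_singleton.2 hu)
    · exact List.mem_append_left _ (ih u (List.mem_cons_of_mem _ (List.mem_cons_of_mem _ hu)))
  | mul _ ih =>
    intro u hu
    rcases List.mem_cons.1 hu with hu | hu
    · exact List.mem_append_right _ (List.mem_singleton.2 hu)
    · exact List.mem_append_left _ (ih u (List.mem_cons_of_mem _ (List.mem_cons_of_mem _ hu)))
  | pow _ ih =>
    intro u hu
    rcases List.mem_cons.1 hu with hu | hu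
    · exact List.mem_append_right _ (List.mem_singleton.2 hu)
    · exact List.mem_append_left _ (ih u (List.mem_cons_of_mem _ (List.mem_cons_of_mem _ hu)))

private def Stk_Q (U : List Tm) (i : ℕ) : Prop :=
  (∀ u ∈ ats (U.getD i .one), u = U.getD i .one ∨ u ∈ U.take i) ∧
    (∀ a b, U.getD i .one = .pow a b → (∀ u ∈ ats a ∪ ats b, u ∈ U.take i)) ∧
      ∀ c ∈ bases (U.getD i .one), ∃ j ≤ i, ∃ b, U.getD j .one = .pow c b

private theorem Stk_getD_lt {U : List Tm} (x : Tm) {i : ℕ} (hi : i < U.length) :
    (U ++ [x]).getD i .one = U.getD i .one := by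
  rw [List.getD_eq_getElem?_getD, List.getD_eq_getElem?_getD, List.getElem?_append_left hi]

private theorem Stk_getD_eq (U : List Tm) (x : Tm) : (U ++ [x]).getD U.length .one = x := by
  rw [List.getD_eq_getElem?_getD, List.getElem?_append_right le_rfl, Nat.sub_self]
  rfl

private theorem Stk_mem {U : List Tm} {a : Tm} (h : a ∈ U) :
    ∃ j < U.length, U.getD j .one = a := by
  obtain ⟨j, hj, h1⟩ := List.mem_iff_getElem.1 h
  refine ⟨j, hj, ?_⟩
  rw [List.getD_eq_getElem?_getD, List.getElem?_eq_getElem hj, h1]
  rfl

private theorem Stk_step {U : List Tm} {x : Tm} (ih : ∀ i < U.length, Stk_Q U i)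
    (hA : ∀ u ∈ ats x, u = x ∨ u ∈ U)
    (hB : ∀ a b, x = .pow a b → ∀ u ∈ ats a ∪ ats b, u ∈ U)
    (hC : ∀ c ∈ bases x, (∃ b, x = .pow c b) ∨ ∃ j < U.length, ∃ b, U.getD j .one = .pow c b) :
    ∀ i < (U ++ [x]).length, Stk_Q (U ++ [x]) i := by
  intro i hi
  rw [List.length_append, List.length_singleton] at hi
  rcases Nat.lt_or_ge i U.length with h1 | h1
  · obtain ⟨q1, q2, q3⟩ := ih i h1
    unfold Stk_Q
    rw [Stk_getD_lt x h1, List.take_append_of_le_length h1.le]
    refine ⟨q1, q2, fun c hc => ?_⟩
    obtain ⟨j, hj, b, hb⟩ := q3 c hc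
    exact ⟨j, hj, b, by rw [Stk_getD_lt x (lt_of_le_of_lt hj h1)]; exact hb⟩
  · have h2 : i = U.length := by omega
    subst h2
    unfold Stk_Q
    rw [Stk_getD_eq, List.take_left]
    refine ⟨hA, hB, fun c hc => ?_⟩
    rcases hC c hc with ⟨b, hb⟩ | ⟨j, hj, b, hb⟩
    · exact ⟨U.length, le_rfl, b, by rw [Stk_getD_eq]; exact hb⟩
    · exact ⟨j, hj.le, b, by rw [Stk_getD_lt x hj]; exact hb⟩

private theorem Stk_sub {U : List Tm} (ih : ∀ i < U.length, Stk_Q U i) {a : Tm} (ha : a ∈ U) :
    (∀ u ∈ ats a, u ∈ U) ∧ ∀ c ∈ bases a, ∃ j < U.length, ∃ b, U.getD j .one = .pow c b := by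
  obtain ⟨j, hj, h1⟩ := Stk_mem ha
  obtain ⟨q1, -, q3⟩ := ih j hj
  rw [h1] at q1 q3
  refine ⟨fun u hu => ?_, fun c hc => ?_⟩
  · rcases q1 u hu with h2 | h2
    · rw [h2]
      exact ha
    · exact List.mem_of_mem_take h2
  · obtain ⟨i, hi, b, hb⟩ := q3 c hc
    exact ⟨i, lt_of_le_of_lt hi hj, b, hb⟩

private theorem Stk_all {T : List Tok} {st U : List Tm} (h : Stk T st U) :
    ∀ i < U.length, Stk_Q U i := by
  induction h with
  | nil => exact fun i hi => absurd hi (Nat.not_lt_zero i)
  | one _ ih =>
    refine Stk_step ih (fun u hu => absurd hu (Set.notMem_empty u)) (fun a b h => ?_)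
      (fun c hc => absurd hc (Set.notMem_empty c))
    exact absurd h (by simp)
  | var w _ ih =>
    refine Stk_step ih (fun u hu => Or.inl hu) (fun a b h => ?_)
      (fun c hc => absurd hc (Set.notMem_empty c))
    exact absurd h (by simp)
  | @add T st U a b h ih =>
    obtain ⟨a1, a2⟩ := Stk_sub ih (h.mem a List.mem_cons_self)
    obtain ⟨b1, b2⟩ := Stk_sub ih (h.mem b (List.mem_cons_of_mem _ List.mem_cons_self))
    refine Stk_step ih (fun u hu => Or.inr ?_) (fun a b h => absurd h (by simp))
      (fun c hc => Or.inr ?_)
    · rcases hu with hu | hu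
      · exact a1 u hu
      · exact b1 u hu
    · rcases hc with hc | hc
      · exact a2 c hc
      · exact b2 c hc
  | @mul T st U a b h ih =>
    obtain ⟨a1, a2⟩ := Stk_sub ih (h.mem a List.mem_cons_self)
    obtain ⟨b1, b2⟩ := Stk_sub ih (h.mem b (List.mem_cons_of_mem _ List.mem_cons_self))
    refine Stk_step ih (fun u hu => Or.inr ?_) (fun a b h => absurd h (by simp))
      (fun c hc => Or.inr ?_)
    · rcases hu with hu | hu
      · exact a1 u hu
      · exact b1 u hu
    · rcases hc with hc | hc
      · exact a2 c hc
      · exact b2 c hc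
  | @pow T st U a b h ih =>
    obtain ⟨a1, a2⟩ := Stk_sub ih (h.mem a List.mem_cons_self)
    obtain ⟨b1, -⟩ := Stk_sub ih (h.mem b (List.mem_cons_of_mem _ List.mem_cons_self))
    refine Stk_step ih (fun u hu => Or.inl hu) (fun a' b' h' u hu => ?_) (fun c hc => ?_)
    · injection h' with e1 e2
      rw [← e1, ← e2] at hu
      rcases hu with hu | hu
      · exact a1 u hu
      · exact b1 u hu
    · rcases hc with hc | hc
      · exact Or.inl ⟨b, by rw [hc]⟩
      · exact Or.inr (a2 c hc)

/-- The parts of a subterm are subterms which come before. -/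
theorem Stk.parts {T : List Tok} {st U : List Tm} (h : Stk T st U) {i : ℕ} (hi : i < U.length) :
    (∀ u ∈ ats (U.getD i .one), u = U.getD i .one ∨ u ∈ U.take i) ∧
    (∀ a b, U.getD i .one = .pow a b → (∀ u ∈ ats a ∪ ats b, u ∈ U.take i)) ∧
      ∀ c ∈ bases (U.getD i .one), ∃ j ≤ i, ∃ b, U.getD j .one = .pow c b :=
  Stk_all h i hi

private theorem Stk_sz {t u : Tm} (h : u ∈ subs t) : u.sz ≤ t.sz := by
  induction t with
  | one => exact le_of_eq (by rw [List.mem_singleton.1 h])
  | var w => exact le_of_eq (by rw [List.mem_singleton.1 h])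
  | add s t hs ht =>
    simp only [subs, List.mem_append, List.mem_singleton] at h
    rcases h with (h | h) | h
    · exact (ht h).trans (by simp only [Tm.sz]; omega)
    · exact (hs h).trans (by simp only [Tm.sz]; omega)
    · rw [h]
  | mul s t hs ht =>
    simp only [subs, List.mem_append, List.mem_singleton] at h
    rcases h with (h | h) | h
    · exact (ht h).trans (by simp only [Tm.sz]; omega)
    · exact (hs h).trans (by simp only [Tm.sz]; omega)
    · rw [h]
  | pow s t hs ht =>
    simp only [subs, List.mem_append, List.mem_singleton] at h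
    rcases h with (h | h) | h
    · exact (ht h).trans (by simp only [Tm.sz]; omega)
    · exact (hs h).trans (by simp only [Tm.sz]; omega)
    · rw [h]

private theorem Stk_var {t : Tm} {w : List Bool} (h : Tm.var w ∈ subs t) : w ∈ names t.toks := by
  induction t with
  | one => simp [subs] at h
  | var w' =>
    simp only [subs, List.mem_singleton, Tm.var.injEq] at h
    simp [names, Tm.toks, h]
  | add s t hs ht =>
    simp only [subs, List.mem_append, List.mem_singleton, reduceCtorEq, or_false] at h
    have e : names (Tm.add s t).toks = names (s.toks ++ t.toks) := by simp [names, Tm.toks]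
    rw [e, Pool.Agent.TI.names_append, List.mem_append]
    rcases h with h | h
    · exact Or.inr (ht h)
    · exact Or.inl (hs h)
  | mul s t hs ht =>
    simp only [subs, List.mem_append, List.mem_singleton, reduceCtorEq, or_false] at h
    have e : names (Tm.mul s t).toks = names (s.toks ++ t.toks) := by simp [names, Tm.toks]
    rw [e, Pool.Agent.TI.names_append, List.mem_append]
    rcases h with h | h
    · exact Or.inr (ht h)
    · exact Or.inl (hs h)
  | pow s t hs ht =>
    simp only [subs, List.mem_append, List.mem_singleton, reduceCtorEq, or_false] at h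
    have e : names (Tm.pow s t).toks = names (s.toks ++ t.toks) := by simp [names, Tm.toks]
    rw [e, Pool.Agent.TI.names_append, List.mem_append]
    rcases h with h | h
    · exact Or.inr (ht h)
    · exact Or.inl (hs h)

private theorem Stk_CT {t u : Tm} (hc : CT t) (h : u ∈ subs t) : CT u := by
  induction t with
  | one => rw [List.mem_singleton.1 h]; exact hc
  | var w => rw [List.mem_singleton.1 h]; exact hc
  | add s t hs ht =>
    simp only [subs, List.mem_append, List.mem_singleton] at h
    rcases h with (h | h) | h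
    · exact ht hc.2 h
    · exact hs hc.1 h
    · rw [h]; exact hc
  | mul s t hs ht =>
    simp only [subs, List.mem_append, List.mem_singleton] at h
    rcases h with (h | h) | h
    · exact ht hc.2 h
    · exact hs hc.1 h
    · rw [h]; exact hc
  | pow s t hs ht =>
    simp only [subs, List.mem_append, List.mem_singleton] at h
    rcases h with (h | h) | h
    · exact ht hc.2.2.2 h
    · exact hs hc.2.2.1 h
    · rw [h]; exact hc

private theorem Stk_atom {u t : Tm} (h : u ∈ ats t) : u ∈ ats u := by
  induction t with
  | one => exact absurd h (Set.notMem_empty u)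
  | var w =>
    have h1 : u = .var w := h
    rw [h1]
    exact Set.mem_singleton _
  | add s t hs ht =>
    rcases h with h | h
    · exact hs h
    · exact ht h
  | mul s t hs ht =>
    rcases h with h | h
    · exact hs h
    · exact ht h
  | pow s t _ _ =>
    have h1 : u = .pow s t := h
    rw [h1]
    exact Set.mem_singleton _

/-- The family of an identity. -/
theorem fam_exF {s t : Tm} (hs : CT s) (ht : CT t) {n : ℕ} (hn : s.sz + t.sz ≤ n) :
    FamC (names (s.toks ++ t.toks)).toFinset n (s.sz + t.sz) (exF s t) := by
  have hlen : (subs t ++ subs s).length = s.sz + t.sz := by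
    rw [List.length_append, length_subs, length_subs, add_comm]
  have hst := stk_pair s t
  have hmem : ∀ i < s.sz + t.sz, exF s t i ∈ subs t ++ subs s := by
    intro i hi
    rw [← hlen] at hi
    unfold exF
    rw [List.getD_eq_getElem?_getD, List.getElem?_eq_getElem hi]
    exact List.getElem_mem hi
  have htake : ∀ i ≤ s.sz + t.sz, ∀ u ∈ (subs t ++ subs s).take i, ∃ a < i, u = exF s t a := by
    intro i hi u hu
    obtain ⟨a, ha, h1⟩ := List.mem_iff_getElem.1 hu
    rw [List.length_take, hlen] at ha
    have ha' : a < (subs t ++ subs s).length := by rw [hlen]; omega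
    refine ⟨a, by omega, ?_⟩
    rw [← h1, List.getElem_take]
    unfold exF
    rw [List.getD_eq_getElem?_getD, List.getElem?_eq_getElem ha']
    rfl
  refine ⟨fun a => ?_, hn, ?_, ?_, ?_, ?_, ?_⟩
  · rcases Nat.lt_or_ge a (s.sz + t.sz) with ha | ha
    · rcases List.mem_append.1 (hmem a ha) with h | h
      · have := Stk_sz h
        omega
      · have := Stk_sz h
        omega
    · have h1 : exF s t a = .one := by
        unfold exF
        rw [List.getD_eq_getElem?_getD, List.getElem?_eq_none (by rw [hlen]; exact ha)]
        rfl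
      rw [h1]
      exact Nat.le_add_left 1 n
  · intro i hi u hu
    obtain ⟨q1, -, -⟩ := hst.parts (i := i) (by rw [hlen]; exact hi)
    rcases q1 u hu with h1 | h1
    · exact ⟨i, Nat.lt_succ_self i, h1, Stk_atom hu⟩
    · obtain ⟨a, ha, h2⟩ := htake i hi.le u h1
      exact ⟨a, Nat.lt_succ_of_lt ha, h2, Stk_atom hu⟩
  · intro i hi a b hab
    obtain ⟨-, q2, -⟩ := hst.parts (i := i) (by rw [hlen]; exact hi)
    refine ⟨fun u hu => ?_, fun u hu => ?_⟩
    · obtain ⟨c, hc, h2⟩ := htake i hi.le u (q2 a b hab u (Or.inl hu))
      exact ⟨c, hc, h2, Stk_atom hu⟩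
    · obtain ⟨c, hc, h2⟩ := htake i hi.le u (q2 a b hab u (Or.inr hu))
      exact ⟨c, hc, h2, Stk_atom hu⟩
  · intro i hi c hc
    obtain ⟨-, -, q3⟩ := hst.parts (i := i) (by rw [hlen]; exact hi)
    exact q3 c hc
  · intro i hi w hw
    have h1 := hmem i hi
    rw [hw] at h1
    rw [List.mem_toFinset, Pool.Agent.TI.names_append, List.mem_append]
    rcases List.mem_append.1 h1 with h | h
    · exact Or.inr (Stk_var h)
    · exact Or.inl (Stk_var h)
  · intro i hi a b hab
    have h1 := hmem i hi
    rw [hab] at h1
    rcases List.mem_append.1 h1 with h | h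
    · have h2 := Stk_CT ht h
      exact ⟨h2.1, h2.2.1⟩
    · have h2 := Stk_CT hs h
      exact ⟨h2.1, h2.2.1⟩

end Pool.Agent.TC
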