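import Pool.Agent.H.MP_b2d7dd_lc.TC.Hz
import Pool.Agent.H.MP_b2d7dd_lc.TC.Stk
import Pool.Agent.H.MP_b2d7dd_lc.TW.MEl

/-!
# Module Mach: the machine

The state: a stack of the values of the terms (first character, second character, derivation, the number
`e1` modulo `bval M + 2`), the list of the values `ph` of all subterms (the last token first), and a
flag: the values of all bases are invertible. `e` = the modulus `bval e + 2`, `v` = bits of a random
value, `c`, `m`, `N` = the names, `B` = the coprime base, `Z` = random bits, `tab` = the table.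
-/

namespace Pool.Agent.TC

open Pool.Agent.TI (Tm Tok names fidx fidx_eq bmod beqv)
open Pool.Agent.TE (bl)
open Pool.Agent.TW (SI zv rad rmu rin md tval irow evr)
open Pool.Agent.H.MP_5be563_lc.PT Finset

/-- Values of a term. -/
abbrev Vx : Type := List Bool × List Bool × List Bool × List Bool

/-- The values of `1`. -/
def vx0 : Vx := ([true], [true], [], [true])

/-- The two names. -/
def nm2 : List (List Bool) := [[], [true]]

/-- The first character of the subterm number `a`. -/
def hv1 (e : List Bool) (v c : ℕ) (Z : List Bool) (tab : List (List SI)) (a : ℕ) : List Bool :=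
  tval e v c nm2 Z tab a []

/-- The second character. -/
def hv2 (e : List Bool) (v c : ℕ) (Z : List Bool) (tab : List (List SI)) (a : ℕ) : List Bool :=
  tval e v c nm2 Z tab a [true]

/-- The value of a variable. -/
def alv (e : List Bool) (v c : ℕ) (N : List (List Bool)) (Z w : List Bool) : List Bool :=
  bmod (bl v Z (2 * c + fidx w N)) (md e)

/-- The logarithmic derivative of a power with the base `a` and the exponent `b`. -/
def pwv (e : List Bool) (v c m : ℕ) (B : List (List Bool)) (Z : List Bool) (a b : Vx) :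
    List Bool :=
  rmu e b.2.1 (rad e (rmu e a.2.2.1 (rin e a.1)) (lcv e v c m B Z a.2.2.2))

/-- The sum. -/
def adx (e M : List Bool) (a b : Vx) : Vx :=
  (rad e a.1 b.1, rad e a.2.1 b.2.1, rad e a.2.2.1 b.2.2.1, rad M a.2.2.2 b.2.2.2)

/-- The product. -/
def mux (e M : List Bool) (a b : Vx) : Vx :=
  (rmu e a.1 b.1, rmu e a.2.1 b.2.1, rad e (rmu e a.2.2.1 b.1) (rmu e a.1 b.2.2.1),
    rmu M a.2.2.2 b.2.2.2)

/-- The logarithmic derivative of the next subterm. -/
def nph (e : List Bool) (v c m : ℕ) (N : List (List Bool)) (B : List (List Bool))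
    (Z : List Bool) (q : Tok) (st : List Vx) : List Bool :=
  bif decide (q.1 = 4) then alv e v c N Z q.2
  else bif decide (q.1 = 3) then pwv e v c m B Z (st.headD vx0) (st.tail.headD vx0)
  else []

/-- The values of the next subterm. -/
def nvx (e M : List Bool) (v c : ℕ) (Z : List Bool) (tab : List (List SI)) (q : Tok)
    (st : List Vx) (p : ℕ) (h : List Bool) : Vx :=
  bif decide (q.1 = 0) then vx0
  else bif decide (q.1 = 1) then adx e M (st.headD vx0) (st.tail.headD vx0)
  else bif decide (q.1 = 2) then mux e M (st.headD vx0) (st.tail.headD vx0)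
  else (hv1 e v c Z tab p, hv2 e v c Z tab p, rmu e (hv1 e v c Z tab p) h, [true])

/-- The value of the base is invertible. -/
def nok (e : List Bool) (q : Tok) (st : List Vx) : Bool :=
  !decide (q.1 = 3) || beqv (rmu e (st.headD vx0).1 (rin e (st.headD vx0).1)) (bmod [true] (md e))

/-- One step. -/
def xstep (e M : List Bool) (v c m : ℕ) (N : List (List Bool)) (B : List (List Bool))
    (Z : List Bool) (tab : List (List SI)) (q : Tok) (s : List Vx × List (List Bool) × Bool) :
    List Vx × List (List Bool) × Bool :=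
  (nvx e M v c Z tab q s.1 s.2.1.length (nph e v c m N B Z q s.1) ::
      (bif decide (q.1 = 0) || decide (q.1 = 4) then s.1 else s.1.tail.tail),
    s.2.1 ++ [nph e v c m N B Z q s.1], s.2.2 && nok e q s.1)

/-- The machine. -/
def xrun (e M : List Bool) (v c m : ℕ) (N : List (List Bool)) (B : List (List Bool))
    (Z : List Bool) (tab : List (List SI)) (T : List Tok) :
    List Vx × List (List Bool) × Bool :=
  T.foldr (xstep e M v c m N B Z tab) ([], [], true)

/-- The hash row for the subterms number `0, ..., i`. -/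
def hrow (e M : List Bool) (v c m : ℕ) (N : List (List Bool)) (B : List (List Bool))
    (tab : List (List SI)) (T : List Tok) (i : ℕ) (Z : List Bool) : List (List Bool) :=
  bif (xrun e M v c m N B Z tab (T.drop (T.length - (i + 1)))).2.2 then
    (xrun e M v c m N B Z tab (T.drop (T.length - (i + 1)))).2.1
  else List.replicate (i + 1) []

/-- The values of a term of the stack. -/
def Val (e M : List Bool) (P : Pr (ZMod (bval e + 2))) (x : Vx) (u : Tm) : Prop :=
  zv e x.1 = av P.f u ∧ zv e x.2.1 = av P.g u ∧ zv e x.2.2.1 = dl P u ∧ bval x.2.2.2 = e1 u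

/-- The values of the characters at the variables and powers number `a < L`. -/
def Hv (e : List Bool) (v c : ℕ) (Z : List Bool) (tab : List (List SI))
    (P : Pr (ZMod (bval e + 2))) (ex : ℕ → Tm) (L : ℕ) : Prop :=
  ∀ a < L, ex a ∈ ats (ex a) → zv e (hv1 e v c Z tab a) = P.f (ex a) ∧
    zv e (hv2 e v c Z tab a) = P.g (ex a)

/-- The other parameters. -/
structure Pc (e : List Bool) (v c m : ℕ) (N : List (List Bool)) (B : List (List Bool))
    (Z : List Bool) (P : Pr (ZMod (bval e + 2))) (U : List Tm) : Prop where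
  α : ∀ w, P.α w = zv e (bl v Z (2 * c + N.idxOf w))
  lc : ∀ x : List Bool, ∀ u b, Tm.pow u b ∈ U → bval x = e1 u →
    zv e (lcv e v c m B Z x) = P.lc (e1 u)
  iv : ∀ x, P.iv x = x ^ bval e

/-- The value of a term of a stack for the tokens `q :: T`. -/
private theorem Mach_cons (e M : List Bool) (v c m : ℕ) (N B : List (List Bool)) (Z : List Bool)
    (tab : List (List SI)) (q : Tok) (T : List Tok) :
    xrun e M v c m N B Z tab (q :: T) =
      xstep e M v c m N B Z tab q (xrun e M v c m N B Z tab T) := rfl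

private theorem Mach_len (e M : List Bool) (v c m : ℕ) (N B : List (List Bool)) (Z : List Bool)
    (tab : List (List SI)) (T : List Tok) :
    (xrun e M v c m N B Z tab T).2.1.length = T.length := by
  induction T with
  | nil => rfl
  | cons q T ih =>
    rw [Mach_cons]
    show ((xrun e M v c m N B Z tab T).2.1 ++ [_]).length = T.length + 1
    rw [List.length_append, List.length_singleton, ih]

private theorem Mach_zero (e M : List Bool) (v c m : ℕ) (N B : List (List Bool)) (Z : List Bool)
    (tab : List (List SI)) (s : List Vx × List (List Bool) × Bool) :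
    xstep e M v c m N B Z tab (0, []) s = (vx0 :: s.1, s.2.1 ++ [[]], s.2.2 && true) := rfl

private theorem Mach_four (e M : List Bool) (v c m : ℕ) (N B : List (List Bool)) (Z : List Bool)
    (tab : List (List SI)) (w : List Bool) (s : List Vx × List (List Bool) × Bool) :
    xstep e M v c m N B Z tab (4, w) s =
      ((hv1 e v c Z tab s.2.1.length, hv2 e v c Z tab s.2.1.length,
        rmu e (hv1 e v c Z tab s.2.1.length) (alv e v c N Z w), [true]) :: s.1,
        s.2.1 ++ [alv e v c N Z w], s.2.2 && true) := rfl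

private theorem Mach_add (e M : List Bool) (v c m : ℕ) (N B : List (List Bool)) (Z : List Bool)
    (tab : List (List SI)) (s : List Vx × List (List Bool) × Bool) :
    xstep e M v c m N B Z tab (1, []) s =
      (adx e M (s.1.headD vx0) (s.1.tail.headD vx0) :: s.1.tail.tail,
        s.2.1 ++ [[]], s.2.2 && true) := rfl

private theorem Mach_mul (e M : List Bool) (v c m : ℕ) (N B : List (List Bool)) (Z : List Bool)
    (tab : List (List SI)) (s : List Vx × List (List Bool) × Bool) :
    xstep e M v c m N B Z tab (2, []) s =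
      (mux e M (s.1.headD vx0) (s.1.tail.headD vx0) :: s.1.tail.tail,
        s.2.1 ++ [[]], s.2.2 && true) := rfl

private theorem Mach_pow (e M : List Bool) (v c m : ℕ) (N B : List (List Bool)) (Z : List Bool)
    (tab : List (List SI)) (s : List Vx × List (List Bool) × Bool) :
    xstep e M v c m N B Z tab (3, []) s =
      ((hv1 e v c Z tab s.2.1.length, hv2 e v c Z tab s.2.1.length,
        rmu e (hv1 e v c Z tab s.2.1.length)
          (pwv e v c m B Z (s.1.headD vx0) (s.1.tail.headD vx0)), [true]) :: s.1.tail.tail,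
        s.2.1 ++ [pwv e v c m B Z (s.1.headD vx0) (s.1.tail.headD vx0)],
        s.2.2 && beqv (rmu e (s.1.headD vx0).1 (rin e (s.1.headD vx0).1))
          (bmod [true] (md e))) := by
  have h : nok e (3, []) s.1 = beqv (rmu e (s.1.headD vx0).1 (rin e (s.1.headD vx0).1))
      (bmod [true] (md e)) := by
    unfold nok
    rw [show decide (((3, []) : Tok).1 = 3) = true from rfl, Bool.not_true, Bool.false_or]
  rw [← h]
  rfl

private theorem Mach_getD_lt {U : List Tm} (x : Tm) {a : ℕ} (ha : a < U.length) :
    (U ++ [x]).getD a .one = U.getD a .one := by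
  rw [List.getD_eq_getElem?_getD, List.getD_eq_getElem?_getD, List.getElem?_append_left ha]

private theorem Mach_getD_eq (U : List Tm) (x : Tm) : (U ++ [x]).getD U.length .one = x := by
  rw [List.getD_eq_getElem?_getD, List.getElem?_append_right le_rfl, Nat.sub_self]
  rfl

private theorem Mach_Hv {e : List Bool} {v c : ℕ} {Z : List Bool} {tab : List (List SI)}
    {P : Pr (ZMod (bval e + 2))} {U : List Tm} {u : Tm} {L : ℕ} (hL : U.length ≤ L)
    (h : Hv e v c Z tab P (fun a => (U ++ [u]).getD a .one) L) :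
    Hv e v c Z tab P (fun a => U.getD a .one) U.length := by
  intro a ha
  have h1 := h a (lt_of_lt_of_le ha hL)
  beta_reduce at h1 ⊢
  rw [Mach_getD_lt u ha] at h1
  exact h1

private theorem Mach_Hv' {e : List Bool} {v c : ℕ} {Z : List Bool} {tab : List (List SI)}
    {P : Pr (ZMod (bval e + 2))} {ex : ℕ → Tm} {L L' : ℕ} (hL : L ≤ L')
    (h : Hv e v c Z tab P ex L') : Hv e v c Z tab P ex L :=
  fun a ha => h a (lt_of_lt_of_le ha hL)

private theorem Mach_last {e : List Bool} {v c : ℕ} {Z : List Bool} {tab : List (List SI)}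
    {P : Pr (ZMod (bval e + 2))} {U : List Tm} {u : Tm} (hu : u ∈ ats u)
    (h : Hv e v c Z tab P (fun a => (U ++ [u]).getD a .one) (U ++ [u]).length) :
    zv e (hv1 e v c Z tab U.length) = P.f u ∧ zv e (hv2 e v c Z tab U.length) = P.g u := by
  have h1 := h U.length (by rw [List.length_append, List.length_singleton]; omega)
  beta_reduce at h1
  rw [Mach_getD_eq] at h1
  exact h1 hu

private theorem Mach_Pc {e : List Bool} {v c m : ℕ} {N B : List (List Bool)} {Z : List Bool}
    {P : Pr (ZMod (bval e + 2))} {U : List Tm} {u : Tm} (h : Pc e v c m N B Z P (U ++ [u])) :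
    Pc e v c m N B Z P U :=
  ⟨h.α, fun x a b hab => h.lc x a b (List.mem_append_left _ hab), h.iv⟩

private theorem Mach_alv {e : List Bool} {v c m : ℕ} {N B : List (List Bool)} {Z : List Bool}
    {P : Pr (ZMod (bval e + 2))} {U : List Tm} (h : Pc e v c m N B Z P U) (w : List Bool) :
    zv e (alv e v c N Z w) = P.α w := by
  unfold alv
  rw [TW.zv_bmod, fidx_eq, h.α]

private theorem Mach_pwv {e M : List Bool} {v c m : ℕ} {N B : List (List Bool)} {Z : List Bool}
    {P : Pr (ZMod (bval e + 2))} {U : List Tm} {a b : Tm} {x y : Vx}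
    (h : Pc e v c m N B Z P (U ++ [.pow a b])) (hx : Val e M P x a) (hy : Val e M P y b) :
    zv e (pwv e v c m B Z x y) = ph P (.pow a b) := by
  obtain ⟨x1, -, x3, x4⟩ := hx
  obtain ⟨-, y2, -, -⟩ := hy
  unfold pwv
  rw [TW.zv_rmu, TW.zv_rad, TW.zv_rmu, TW.zv_rin, x1, x3, y2,
    h.lc _ a b (List.mem_append_right _ (List.mem_singleton.2 rfl)) x4, ← h.iv]
  rfl

private theorem Mach_two {R : Vx → Tm → Prop} {l : List Vx} {a b : Tm} {st : List Tm}
    (h : List.Forall₂ R l (a :: b :: st)) (d : Vx) :
    R (l.headD d) a ∧ R (l.tail.headD d) b ∧ List.Forall₂ R l.tail.tail st := by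
  match l, h with
  | _ :: _ :: _, List.Forall₂.cons h1 (List.Forall₂.cons h2 h3) => exact ⟨h1, h2, h3⟩

private theorem Mach_vx0 {e M : List Bool} (P : Pr (ZMod (bval e + 2))) :
    Val e M P vx0 .one := by
  refine ⟨TW.zv_one e, TW.zv_one e, TW.zv_nil e, rfl⟩

private theorem Mach_rad {M : List Bool} (x y : List Bool) (h : bval x + bval y < bval M + 2) :
    bval (rad M x y) = bval x + bval y := by
  unfold TW.rad
  rw [TW.bval_bmod_md, bval_badd, Nat.mod_eq_of_lt h]

private theorem Mach_rmu {M : List Bool} (x y : List Bool) (h : bval x * bval y < bval M + 2) :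
    bval (rmu M x y) = bval x * bval y := by
  unfold TW.rmu
  rw [TW.bval_bmod_md, bval_bmul, Nat.mod_eq_of_lt h]

private theorem Mach_adx {e M : List Bool} {P : Pr (ZMod (bval e + 2))} {a b : Tm} {x y : Vx}
    (hx : Val e M P x a) (hy : Val e M P y b) (hM : e1 (.add a b) < bval M + 2) :
    Val e M P (adx e M x y) (.add a b) := by
  obtain ⟨x1, x2, x3, x4⟩ := hx
  obtain ⟨y1, y2, y3, y4⟩ := hy
  refine ⟨?_, ?_, ?_, ?_⟩
  · show zv e (rad e x.1 y.1) = av P.f a + av P.f b
    rw [TW.zv_rad, x1, y1]
  · show zv e (rad e x.2.1 y.2.1) = av P.g a + av P.g b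
    rw [TW.zv_rad, x2, y2]
  · show zv e (rad e x.2.2.1 y.2.2.1) = dl P a + dl P b
    rw [TW.zv_rad, x3, y3]
  · show bval (rad M x.2.2.2 y.2.2.2) = e1 a + e1 b
    rw [Mach_rad, x4, y4]
    rw [x4, y4]
    exact hM

private theorem Mach_mux {e M : List Bool} {P : Pr (ZMod (bval e + 2))} {a b : Tm} {x y : Vx}
    (hx : Val e M P x a) (hy : Val e M P y b) (hM : e1 (.mul a b) < bval M + 2) :
    Val e M P (mux e M x y) (.mul a b) := by
  obtain ⟨x1, x2, x3, x4⟩ := hx
  obtain ⟨y1, y2, y3, y4⟩ := hy
  refine ⟨?_, ?_, ?_, ?_⟩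
  · show zv e (rmu e x.1 y.1) = av P.f a * av P.f b
    rw [TW.zv_rmu, x1, y1]
  · show zv e (rmu e x.2.1 y.2.1) = av P.g a * av P.g b
    rw [TW.zv_rmu, x2, y2]
  · show zv e (rad e (rmu e x.2.2.1 y.1) (rmu e x.1 y.2.2.1)) =
      dl P a * av P.f b + av P.f a * dl P b
    rw [TW.zv_rad, TW.zv_rmu, TW.zv_rmu, x3, y3, x1, y1]
  · show bval (rmu M x.2.2.2 y.2.2.2) = e1 a * e1 b
    rw [Mach_rmu, x4, y4]
    rw [x4, y4]
    exact hM

private theorem Mach_ok {e : List Bool} {P : Pr (ZMod (bval e + 2))}
    (hiv : ∀ x, P.iv x = x ^ bval e) {a : Tm} {x : List Bool} (hx : zv e x = av P.f a) :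
    beqv (rmu e x (rin e x)) (bmod [true] (md e)) = true ↔
      av P.f a * P.iv (av P.f a) = 1 := by
  have h1 : zv e (bmul x (rin e x)) = zv e x * zv e x ^ bval e := by
    rw [← TW.zv_rin, ← TW.zv_rmu, TW.rmu, TW.zv_bmod]
  unfold TW.rmu
  rw [TW.beqv_bmod_iff, h1, TW.zv_one, hx, hiv]

private theorem Mach_mem {Q : Tm → Prop} {U : List Tm} {u : Tm} (hu : ∀ a b, u ≠ .pow a b) :
    (∀ a b, Tm.pow a b ∈ U ++ [u] → Q a) ↔ ∀ a b, Tm.pow a b ∈ U → Q a := by
  refine ⟨fun h a b hab => h a b (List.mem_append_left _ hab), fun h a b hab => ?_⟩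
  rcases List.mem_append.1 hab with h1 | h1
  · exact h a b h1
  · exact absurd (List.mem_singleton.1 h1).symm (hu a b)

private theorem Mach_memp {Q : Tm → Prop} {U : List Tm} {a' b' : Tm} :
    (∀ a b, Tm.pow a b ∈ U ++ [.pow a' b'] → Q a) ↔
      (∀ a b, Tm.pow a b ∈ U → Q a) ∧ Q a' := by
  refine ⟨fun h => ⟨fun a b hab => h a b (List.mem_append_left _ hab),
    h a' b' (List.mem_append_right _ (List.mem_singleton.2 rfl))⟩, fun h a b hab => ?_⟩
  rcases List.mem_append.1 hab with h1 | h1
  · exact h.1 a b h1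
  · have h2 := List.mem_singleton.1 h1
    injection h2 with h3 h4
    rw [h3]
    exact h.2

/-- The stack. -/
theorem xrun_stk {e M : List Bool} {v c m : ℕ} {N B : List (List Bool)} {Z : List Bool}
    {tab : List (List SI)} {P : Pr (ZMod (bval e + 2))} {T : List Tok} {st U : List Tm}
    (h : Stk T st U) (hH : Hv e v c Z tab P (fun a => U.getD a .one) U.length)
    (hP : Pc e v c m N B Z P U) (hM : ∀ u ∈ U, e1 u < bval M + 2) :
    List.Forall₂ (Val e M P) (xrun e M v c m N B Z tab T).1 st := by
  induction h with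
  | nil => exact List.Forall₂.nil
  | one _ ih =>
    have h1 := ih (Mach_Hv (by rw [List.length_append]; omega) hH) (Mach_Pc hP)
      fun u hu => hM u (List.mem_append_left _ hu)
    rw [Mach_cons, Mach_zero]
    exact List.Forall₂.cons (Mach_vx0 P) h1
  | @var T st U w h ih =>
    have h1 := ih (Mach_Hv (by rw [List.length_append]; omega) hH) (Mach_Pc hP)
      fun u hu => hM u (List.mem_append_left _ hu)
    obtain ⟨h2, h3⟩ := Mach_last (Set.mem_singleton _) hH
    rw [Mach_cons, Mach_four, Mach_len, ← h.length]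
    refine List.Forall₂.cons ⟨h2, h3, ?_, rfl⟩ h1
    show zv e (rmu e (hv1 e v c Z tab U.length) (alv e v c N Z w)) = P.f (.var w) * P.α w
    rw [TW.zv_rmu, h2, Mach_alv hP]
  | @add T st U a b h ih =>
    have h1 := ih (Mach_Hv (by rw [List.length_append]; omega) hH) (Mach_Pc hP)
      fun u hu => hM u (List.mem_append_left _ hu)
    obtain ⟨h2, h3, h4⟩ := Mach_two h1 vx0
    rw [Mach_cons, Mach_add]
    exact List.Forall₂.cons (Mach_adx h2 h3
      (hM _ (List.mem_append_right _ (List.mem_singleton.2 rfl)))) h4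
  | @mul T st U a b h ih =>
    have h1 := ih (Mach_Hv (by rw [List.length_append]; omega) hH) (Mach_Pc hP)
      fun u hu => hM u (List.mem_append_left _ hu)
    obtain ⟨h2, h3, h4⟩ := Mach_two h1 vx0
    rw [Mach_cons, Mach_mul]
    exact List.Forall₂.cons (Mach_mux h2 h3
      (hM _ (List.mem_append_right _ (List.mem_singleton.2 rfl)))) h4
  | @pow T st U a b h ih =>
    have h1 := ih (Mach_Hv (by rw [List.length_append]; omega) hH) (Mach_Pc hP)
      fun u hu => hM u (List.mem_append_left _ hu)
    obtain ⟨h2, h3, h4⟩ := Mach_two h1 vx0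
    obtain ⟨h5, h6⟩ := Mach_last (Set.mem_singleton _) hH
    rw [Mach_cons, Mach_pow, Mach_len, ← h.length]
    refine List.Forall₂.cons ⟨h5, h6, ?_, rfl⟩ h4
    show zv e (rmu e (hv1 e v c Z tab U.length) (pwv e v c m B Z _ _)) =
      P.f (.pow a b) * (av P.g b * (dl P a * P.iv (av P.f a) + P.lc (e1 a)))
    rw [TW.zv_rmu, h5, Mach_pwv hP h2 h3]
    rfl

/-- The logarithmic derivatives and the flag; the values of the characters at the last subterm are
not needed. -/
theorem xrun_out {e M : List Bool} {v c m : ℕ} {N B : List (List Bool)} {Z : List Bool}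
    {tab : List (List SI)} {P : Pr (ZMod (bval e + 2))} {T : List Tok} {st U : List Tm}
    (h : Stk T st U) (hH : Hv e v c Z tab P (fun a => U.getD a .one) (U.length - 1))
    (hP : Pc e v c m N B Z P U) (hM : ∀ u ∈ U, e1 u < bval M + 2) :
    (xrun e M v c m N B Z tab T).2.1.map (zv e) = U.map (ph P) ∧
      ((xrun e M v c m N B Z tab T).2.2 = true ↔ ∀ u b, Tm.pow u b ∈ U →
        av P.f u * P.iv (av P.f u) = 1) := by
  induction h with
  | nil =>
    refine ⟨rfl, fun _ u b hub => absurd hub (List.not_mem_nil), fun _ => rfl⟩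
  | @one T st U h ih =>
    have hH' := Mach_Hv (le_of_eq (by
      rw [List.length_append, List.length_singleton, Nat.add_sub_cancel])) hH
    obtain ⟨h1, h2⟩ := ih (Mach_Hv' (Nat.sub_le _ _) hH') (Mach_Pc hP)
      fun u hu => hM u (List.mem_append_left _ hu)
    rw [Mach_cons, Mach_zero]
    refine ⟨?_, ?_⟩
    · show ((xrun e M v c m N B Z tab T).2.1 ++ [[]]).map (zv e) = _
      rw [List.map_append, h1, List.map_append, List.map_singleton, List.map_singleton,
        TW.zv_nil]
      rfl
    · show ((xrun e M v c m N B Z tab T).2.2 && true) = true ↔ _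
      rw [Bool.and_true, h2]
      exact (Mach_mem (Q := fun a => av P.f a * P.iv (av P.f a) = 1) (by simp)).symm
  | @var T st U w h ih =>
    have hH' := Mach_Hv (le_of_eq (by
      rw [List.length_append, List.length_singleton, Nat.add_sub_cancel])) hH
    obtain ⟨h1, h2⟩ := ih (Mach_Hv' (Nat.sub_le _ _) hH') (Mach_Pc hP)
      fun u hu => hM u (List.mem_append_left _ hu)
    rw [Mach_cons, Mach_four]
    refine ⟨?_, ?_⟩
    · show ((xrun e M v c m N B Z tab T).2.1 ++ [alv e v c N Z w]).map (zv e) = _
      rw [List.map_append, h1, List.map_append, List.map_singleton, List.map_singleton,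
        Mach_alv hP]
      rfl
    · show ((xrun e M v c m N B Z tab T).2.2 && true) = true ↔ _
      rw [Bool.and_true, h2]
      exact (Mach_mem (Q := fun a => av P.f a * P.iv (av P.f a) = 1) (by simp)).symm
  | @add T st U a b h ih =>
    have hH' := Mach_Hv (le_of_eq (by
      rw [List.length_append, List.length_singleton, Nat.add_sub_cancel])) hH
    obtain ⟨h1, h2⟩ := ih (Mach_Hv' (Nat.sub_le _ _) hH') (Mach_Pc hP)
      fun u hu => hM u (List.mem_append_left _ hu)
    rw [Mach_cons, Mach_add]
    refine ⟨?_, ?_⟩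
    · show ((xrun e M v c m N B Z tab T).2.1 ++ [[]]).map (zv e) = _
      rw [List.map_append, h1, List.map_append, List.map_singleton, List.map_singleton,
        TW.zv_nil]
      rfl
    · show ((xrun e M v c m N B Z tab T).2.2 && true) = true ↔ _
      rw [Bool.and_true, h2]
      exact (Mach_mem (Q := fun a => av P.f a * P.iv (av P.f a) = 1) (by simp)).symm
  | @mul T st U a b h ih =>
    have hH' := Mach_Hv (le_of_eq (by
      rw [List.length_append, List.length_singleton, Nat.add_sub_cancel])) hH
    obtain ⟨h1, h2⟩ := ih (Mach_Hv' (Nat.sub_le _ _) hH') (Mach_Pc hP)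
      fun u hu => hM u (List.mem_append_left _ hu)
    rw [Mach_cons, Mach_mul]
    refine ⟨?_, ?_⟩
    · show ((xrun e M v c m N B Z tab T).2.1 ++ [[]]).map (zv e) = _
      rw [List.map_append, h1, List.map_append, List.map_singleton, List.map_singleton,
        TW.zv_nil]
      rfl
    · show ((xrun e M v c m N B Z tab T).2.2 && true) = true ↔ _
      rw [Bool.and_true, h2]
      exact (Mach_mem (Q := fun a => av P.f a * P.iv (av P.f a) = 1) (by simp)).symm
  | @pow T st U a b h ih =>
    have hH' := Mach_Hv (le_of_eq (by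
      rw [List.length_append, List.length_singleton, Nat.add_sub_cancel])) hH
    obtain ⟨h1, h2⟩ := ih (Mach_Hv' (Nat.sub_le _ _) hH') (Mach_Pc hP)
      fun u hu => hM u (List.mem_append_left _ hu)
    have h3 := xrun_stk (m := m) (N := N) (B := B) h hH' (Mach_Pc hP)
      fun u hu => hM u (List.mem_append_left _ hu)
    obtain ⟨h4, h5, -⟩ := Mach_two h3 vx0
    rw [Mach_cons, Mach_pow]
    refine ⟨?_, ?_⟩
    · show ((xrun e M v c m N B Z tab T).2.1 ++ [pwv e v c m B Z _ _]).map (zv e) = _
      rw [List.map_append, h1, List.map_append, List.map_singleton, List.map_singleton,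
        Mach_pwv hP h4 h5]
    · show ((xrun e M v c m N B Z tab T).2.2 && beqv _ _) = true ↔ _
      rw [Bool.and_eq_true, h2, Mach_ok hP.iv h4.1]
      exact (Mach_memp (Q := fun a => av P.f a * P.iv (av P.f a) = 1)).symm

theorem hrow_length (e M : List Bool) (v c m : ℕ) (N : List (List Bool))
    (B : List (List Bool)) (tab : List (List SI)) (T : List Tok) {i : ℕ} (hi : i + 1 ≤ T.length)
    (Z : List Bool) : (hrow e M v c m N B tab T i Z).length = i + 1 := by
  unfold hrow
  have h1 : (T.drop (T.length - (i + 1))).length = i + 1 := by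
    rw [List.length_drop]
    omega
  cases (xrun e M v c m N B Z tab (T.drop (T.length - (i + 1)))).2.2 with
  | true => rw [cond_true, Mach_len, h1]
  | false => rw [cond_false, List.length_replicate]

private theorem Mach_sz {t u : Tm} (h : u ∈ subs t) : u.sz ≤ t.sz := by
  induction t with
  | one => exact le_of_eq (by rw [List.mem_singleton.1 h])
  | var w => exact le_of_eq (by rw [List.mem_singleton.1 h])
  | add s t hs ht =>
    simp only [subs, List.mem_append, List.mem_singleton] at h
    rcases h with (h | h) | h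
    · exact (ht h).trans (by simp only [Tm.sz]; omega)
    · exact (hs h).trans (by simp only [Tm.sz]; omega)
    · rw [h]
  | mul s t hs ht =>
    simp only [subs, List.mem_append, List.mem_singleton] at h
    rcases h with (h | h) | h
    · exact (ht h).trans (by simp only [Tm.sz]; omega)
    · exact (hs h).trans (by simp only [Tm.sz]; omega)
    · rw [h]
  | pow s t hs ht =>
    simp only [subs, List.mem_append, List.mem_singleton] at h
    rcases h with (h | h) | h
    · exact (ht h).trans (by simp only [Tm.sz]; omega)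
    · exact (hs h).trans (by simp only [Tm.sz]; omega)
    · rw [h]

private theorem Mach_sz2 {s t u : Tm} (h : u ∈ subs t ++ subs s) : u.sz ≤ s.sz + t.sz := by
  rcases List.mem_append.1 h with h | h
  · exact (Mach_sz h).trans (Nat.le_add_left _ _)
  · exact (Mach_sz h).trans (Nat.le_add_right _ _)

private theorem Mach_e1 {s t u : Tm} {M : List Bool} (hM : 2 ^ (s.sz + t.sz) ≤ bval M)
    (h : u ∈ subs t ++ subs s) : e1 u < bval M + 2 := by
  have h1 := e1_le u
  have h2 : (2 : ℕ) ^ u.sz ≤ 2 ^ (s.sz + t.sz) :=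
    Nat.pow_le_pow_right (by norm_num) (Mach_sz2 h)
  omega

/-- The values of the characters at the subterms. -/
private theorem Mach_hv {W : Finset (List Bool)} {e : List Bool} {v c : ℕ}
    {N B : List (List Bool)} (Z : List Bool) {tab : List (List SI)} {ex : ℕ → Tm} {L : ℕ}
    (hc : Coh (fun a => lr W (ex a)) L (tab.map irow)) {a : ℕ} (ha : a < L) :
    zv e (hv1 e v c Z tab a) = (Pz W e v c N B (tab.map irow) ex L Z).f (ex a) ∧
      zv e (hv2 e v c Z tab a) = (Pz W e v c N B (tab.map irow) ex L Z).g (ex a) := by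
  refine ⟨?_, ?_⟩
  · have h1 := chi_vec (fun b => TW.wun e (bl v Z b)) hc ha
    refine Eq.trans ?_ h1.symm
    unfold hv1
    rw [TW.zv_tval]
    congr 1
    refine Finset.prod_congr rfl fun b _ => ?_
    have h2 : TW.wfun e v c nm2 Z [] b = TW.wun e (bl v Z b) := by
      unfold TW.wfun
      rw [show nm2.idxOf [] = 0 from rfl, Nat.zero_mul, Nat.zero_add]
    rw [h2]
  · have h1 := chi_vec (fun b => TW.wun e (bl v Z (c + b))) hc ha
    refine Eq.trans ?_ h1.symm
    unfold hv2
    rw [TW.zv_tval]
    congr 1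
    refine Finset.prod_congr rfl fun b _ => ?_
    have h2 : TW.wfun e v c nm2 Z [true] b = TW.wun e (bl v Z (c + b)) := by
      unfold TW.wfun
      rw [show nm2.idxOf [true] = 1 from rfl, Nat.one_mul]
    rw [h2]

private theorem Mach_Pz {W : Finset (List Bool)} {e : List Bool} {v c m : ℕ}
    {N B : List (List Bool)} (Z : List Bool) (ν : List (ℕ → ℤ)) (ex : ℕ → Tm) (L : ℕ)
    {s t : Tm} (hB : ∀ P ∈ B, 2 ≤ bval P) (hm : s.sz + t.sz ≤ m) {U : List Tm}
    (hU : ∀ u ∈ U, u ∈ subs t ++ subs s) :
    Pc e v c m N B Z (Pz W e v c N B ν ex L Z) U := by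
  refine ⟨fun _ => rfl, fun x u b hub hx => ?_, fun _ => rfl⟩
  have h1 : (Tm.pow u b).sz ≤ s.sz + t.sz := Mach_sz2 (hU _ hub)
  have h2 : u.sz < (Tm.pow u b).sz := by
    simp only [Tm.sz]
    omega
  have h3 := e1_le u
  have h4 : (2 : ℕ) ^ u.sz < 2 ^ m := Nat.pow_lt_pow_right (by norm_num) (by omega)
  have h5 := e1_pos u
  rw [lcv_val hB Z (by rw [hx]; exact h5) (by rw [hx]; omega), hx]
  rfl

private theorem Mach_getD_map {A B C : Type} {f : A → C} {g : B → C} {l : List A} {r : List B}
    (h : l.map f = r.map g) {a : ℕ} (ha : a < r.length) (d : A) (d' : B) :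
    f (l.getD a d) = g (r.getD a d') := by
  have h1 : l.length = r.length := by
    have h2 := congrArg List.length h
    rw [List.length_map, List.length_map] at h2
    exact h2
  rw [List.getD_eq_getElem _ _ (by omega : a < l.length), List.getD_eq_getElem _ _ ha]
  have h3 : (l.map f)[a]'(by rw [List.length_map]; omega) =
      (r.map g)[a]'(by rw [List.length_map]; omega) := List.getElem_of_eq h _
  rw [List.getElem_map, List.getElem_map] at h3
  exact h3

/-- The hash row. -/
theorem hrow_val {W : Finset (List Bool)} {e M : List Bool} {v c m : ℕ} {N B : List (List Bool)}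
    (Z : List Bool) {tab : List (List SI)} (s t : Tm) {i : ℕ} (hi : i < s.sz + t.sz)
    (hB : ∀ P ∈ B, 2 ≤ bval P) (hm : s.sz + t.sz ≤ m) (hM : 2 ^ (s.sz + t.sz) ≤ bval M)
    (hc : Coh (fun a => lr W (exF s t a)) i (tab.map irow)) {a : ℕ} (ha : a ≤ i) :
    evr e (hrow e M v c m N B tab (s.toks ++ t.toks) i Z) a =
      hz W e v c N B (tab.map irow) (exF s t) i Z a := by
  classical
  have hlen : (subs t ++ subs s).length = s.sz + t.sz := by
    rw [List.length_append, length_subs, length_subs, add_comm]
  have hst := stk_pair s t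
  have hTl : (s.toks ++ t.toks).length = s.sz + t.sz := by rw [← hst.length, hlen]
  obtain ⟨st', hS⟩ := hst.drop (m := i + 1) (by omega)
  have hUl : ((subs t ++ subs s).take (i + 1)).length = i + 1 := by
    rw [List.length_take, hlen]
    omega
  have hget : ∀ b ≤ i, ((subs t ++ subs s).take (i + 1)).getD b .one = exF s t b := by
    intro b hb
    unfold exF
    rw [List.getD_eq_getElem _ _ (by rw [hUl]; omega), List.getElem_take,
      List.getD_eq_getElem _ _ (by rw [hlen]; omega)]
  have hmem : ∀ u ∈ (subs t ++ subs s).take (i + 1), u ∈ subs t ++ subs s :=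
    fun u hu => List.mem_of_mem_take hu
  obtain ⟨h1, h2⟩ := xrun_out (e := e) (M := M) (v := v) (c := c) (m := m) (N := N) (B := B)
    (Z := Z) (tab := tab) (P := Pz W e v c N B (tab.map irow) (exF s t) i Z) hS
    (by
      intro b hb _
      rw [hUl] at hb
      have hb' : b < i := by omega
      beta_reduce
      rw [hget b hb'.le]
      exact Mach_hv Z hc hb')
    (Mach_Pz Z _ _ _ hB hm hmem) (fun u hu => Mach_e1 hM (hmem u hu))
  have h3 : (∀ u b, Tm.pow u b ∈ (subs t ++ subs s).take (i + 1) →
      av (Pz W e v c N B (tab.map irow) (exF s t) i Z).f u *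
        (Pz W e v c N B (tab.map irow) (exF s t) i Z).iv
          (av (Pz W e v c N B (tab.map irow) (exF s t) i Z).f u) = 1) ↔
      Ok W e v c N B (tab.map irow) (exF s t) i Z := by
    refine ⟨fun h a ha u b hab => h u b ?_, fun h u b hub => ?_⟩
    · rw [← hab, ← hget a ha, List.getD_eq_getElem _ _ (by rw [hUl]; omega)]
      exact List.getElem_mem _
    · obtain ⟨j, hj, h4⟩ := List.mem_iff_getElem.1 hub
      have hj' : j ≤ i := by
        rw [hUl] at hj
        omega
      refine h j hj' u b ?_
      rw [← hget j hj', List.getD_eq_getElem _ _ hj, h4]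
  rw [h3] at h2
  show zv e ((hrow e M v c m N B tab (s.toks ++ t.toks) i Z).getD a []) = _
  unfold hrow hz
  by_cases hok : Ok W e v c N B (tab.map irow) (exF s t) i Z
  · rw [if_pos hok, h2.2 hok, cond_true, ← hget a ha]
    exact Mach_getD_map h1 (by rw [hUl]; omega) _ _
  · have h4 : (xrun e M v c m N B Z tab ((s.toks ++ t.toks).drop
        ((s.toks ++ t.toks).length - (i + 1)))).2.2 = false :=
      Bool.eq_false_iff.2 fun h5 => hok (h2.1 h5)
    rw [if_neg hok, h4, cond_false, List.getD_eq_getElem _ _ (by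
      rw [List.length_replicate]; omega), List.getElem_replicate, TW.zv_nil]

/-- The values of the two terms. -/
theorem xrun_pair {W : Finset (List Bool)} {e M : List Bool} {v c m : ℕ}
    {N B : List (List Bool)} (Z : List Bool) {tab : List (List SI)} (s t : Tm)
    (hB : ∀ P ∈ B, 2 ≤ bval P) (hm : s.sz + t.sz ≤ m) (hM : 2 ^ (s.sz + t.sz) ≤ bval M)
    (hc : Coh (fun a => lr W (exF s t a)) (s.sz + t.sz) (tab.map irow)) :
    zv e ((xrun e M v c m N B Z tab (s.toks ++ t.toks)).1.headD vx0).1 =
        av (Pz W e v c N B (tab.map irow) (exF s t) (s.sz + t.sz) Z).f s ∧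
      zv e ((xrun e M v c m N B Z tab (s.toks ++ t.toks)).1.tail.headD vx0).1 =
        av (Pz W e v c N B (tab.map irow) (exF s t) (s.sz + t.sz) Z).f t := by
  have hlen : (subs t ++ subs s).length = s.sz + t.sz := by
    rw [List.length_append, length_subs, length_subs, add_comm]
  have h1 := xrun_stk (e := e) (M := M) (v := v) (c := c) (m := m) (N := N) (B := B)
    (Z := Z) (tab := tab) (P := Pz W e v c N B (tab.map irow) (exF s t) (s.sz + t.sz) Z)
    (stk_pair s t)
    (by
      intro b hb _
      rw [hlen] at hb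
      exact Mach_hv Z hc hb)
    (Mach_Pz Z _ _ _ hB hm fun u hu => hu) (fun u hu => Mach_e1 hM hu)
  obtain ⟨h2, h3, -⟩ := Mach_two h1 vx0
  exact ⟨h2.1, h3.1⟩

end Pool.Agent.TC
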