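import Pool.Agent.H.MP_b2d7dd_lc.TC.Mach
import Pool.Agent.H.MP_b2d7dd_lc.TC.CobP

/-!
# Module MachP: the machine runs in polynomial time

Compare TN/NxtP (`mrun_len`, `poly_mrun`, `poly_hrow`).
-/

namespace Pool.Agent.TC

open Pool.Agent.TI (Tok fidx fidx_eq bmod beqv length_bmod_le)
open Pool.Agent.TE (bl)
open Pool.Agent.TW (SI rad rmu rin md tval length_tval_le length_rad_le length_rmu_le
  length_md_le poly_tval poly_bl)
open Pool.Agent.H.MP_5be563_lc.PT

variable {α : Type} [Enc α]

private theorem MachP_c {β : Type} [Enc β] (b : β) : Poly (fun _ : α => b) :=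
  Pool.Agent.H.MP_5be563_lc.PT.Poly.const b

private theorem MachP_fidx_le (w : List Bool) (l : List (List Bool)) : fidx w l ≤ l.length := by
  rw [fidx_eq]
  exact List.idxOf_le_length

private theorem MachP_fidx {fw : α → List Bool} {fl : α → List (List Bool)} (hw : Poly fw)
    (hl : Poly fl) : Poly (fun a => fidx (fw a) (fl a)) := by
  unfold fidx
  refine Poly.foldr (f := fun p : α × ℕ × List Bool =>
      bif decide (p.2.2 = fw p.1) then 0 else p.2.1 + 1) (l := fl) (s0 := fun _ => 0)
      (B := fun a => 2 * sz (fl a) + 1) ?_ hl (by fun_prop)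
      (((PBdd.const 2).mul hl.sz_le).add (PBdd.const 1)) ?_
  · exact Poly.cond (by fun_prop) (by fun_prop) (by fun_prop)
  · intro a l₁ l₂ h
    have h1 : fidx (fw a) l₂ ≤ l₂.length := MachP_fidx_le _ _
    have h2 : l₂.length ≤ (fl a).length := by rw [h]; simp
    have h3 := length_lt_sz (fl a)
    have h4 : sz (fidx (fw a) l₂) = 2 * fidx (fw a) l₂ + 1 := by simp
    change sz (fidx (fw a) l₂) ≤ 2 * sz (fl a) + 1
    rw [h4]
    omega

private theorem MachP_nph (e : List Bool) (v c m : ℕ) (N B : List (List Bool)) (Z : List Bool)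
    (q : Tok) (st : List Vx) : (nph e v c m N B Z q st).length ≤ e.length + 4 := by
  rw [nph]
  cases h4 : decide (q.1 = 4)
  · rw [cond_false]
    cases h3 : decide (q.1 = 3)
    · rw [cond_false]
      simp
    · rw [cond_true, pwv]
      exact length_rmu_le _ _ _
  · rw [cond_true, alv]
    have h1 := length_bmod_le (bl v Z (2 * c + fidx q.2 N)) (md e)
    have h2 := length_md_le e
    omega

private theorem MachP_nvx (e M : List Bool) (v c : ℕ) (Z : List Bool) (tab : List (List SI))
    (q : Tok) (st : List Vx) (p : ℕ) (h : List Bool) :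
    (nvx e M v c Z tab q st p h).1.length ≤ e.length + 4 ∧
      (nvx e M v c Z tab q st p h).2.1.length ≤ e.length + 4 ∧
      (nvx e M v c Z tab q st p h).2.2.1.length ≤ e.length + 4 ∧
      (nvx e M v c Z tab q st p h).2.2.2.length ≤ M.length + 4 := by
  rw [nvx]
  cases h0 : decide (q.1 = 0)
  · rw [cond_false]
    cases h1 : decide (q.1 = 1)
    · rw [cond_false]
      cases h2 : decide (q.1 = 2)
      · rw [cond_false]
        refine ⟨?_, ?_, length_rmu_le _ _ _, ?_⟩
        · exact length_tval_le _ _ _ _ _ _ _ _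
        · exact length_tval_le _ _ _ _ _ _ _ _
        · show ([true] : List Bool).length ≤ M.length + 4
          rw [List.length_singleton]
          omega
      · rw [cond_true]
        exact ⟨length_rmu_le _ _ _, length_rmu_le _ _ _, length_rad_le _ _ _,
          length_rmu_le _ _ _⟩
    · rw [cond_true]
      exact ⟨length_rad_le _ _ _, length_rad_le _ _ _, length_rad_le _ _ _,
        length_rad_le _ _ _⟩
  · rw [cond_true]
    refine ⟨?_, ?_, ?_, ?_⟩
    · show ([true] : List Bool).length ≤ e.length + 4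
      rw [List.length_singleton]
      omega
    · show ([true] : List Bool).length ≤ e.length + 4
      rw [List.length_singleton]
      omega
    · show ([] : List Bool).length ≤ e.length + 4
      rw [List.length_nil]
      omega
    · show ([true] : List Bool).length ≤ M.length + 4
      rw [List.length_singleton]
      omega

/-- The sizes of the state. -/
theorem xrun_len (e M : List Bool) (v c m : ℕ) (N B : List (List Bool)) (Z : List Bool)
    (tab : List (List SI)) (T : List Tok) :
    (xrun e M v c m N B Z tab T).1.length ≤ T.length ∧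
      (xrun e M v c m N B Z tab T).2.1.length = T.length ∧
      (∀ x ∈ (xrun e M v c m N B Z tab T).1, x.1.length ≤ e.length + 4 ∧
        x.2.1.length ≤ e.length + 4 ∧ x.2.2.1.length ≤ e.length + 4 ∧
          x.2.2.2.length ≤ M.length + 4) ∧
      (∀ x ∈ (xrun e M v c m N B Z tab T).2.1, x.length ≤ e.length + 4) := by
  induction T with
  | nil =>
    refine ⟨le_rfl, rfl, ?_, ?_⟩
    · intro x hx
      exact absurd hx (by simp [xrun])
    · intro x hx
      exact absurd hx (by simp [xrun])
  | cons q T ih =>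
    obtain ⟨h1, h2, h3, h4⟩ := ih
    have hcons : xrun e M v c m N B Z tab (q :: T) =
        xstep e M v c m N B Z tab q (xrun e M v c m N B Z tab T) := rfl
    rw [hcons]
    revert h1 h2 h3 h4
    generalize xrun e M v c m N B Z tab T = s
    intro h1 h2 h3 h4
    rw [xstep]
    have hsub : ∀ x ∈ (bif decide (q.1 = 0) || decide (q.1 = 4) then s.1 else s.1.tail.tail),
        x ∈ s.1 := by
      intro x hx
      cases hb : (decide (q.1 = 0) || decide (q.1 = 4))
      · rw [hb, cond_false] at hx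
        exact List.mem_of_mem_tail (List.mem_of_mem_tail hx)
      · rw [hb, cond_true] at hx
        exact hx
    have hlen : (bif decide (q.1 = 0) || decide (q.1 = 4) then s.1 else s.1.tail.tail).length ≤
        s.1.length := by
      cases hb : (decide (q.1 = 0) || decide (q.1 = 4))
      · rw [cond_false, List.length_tail, List.length_tail]
        omega
      · rw [cond_true]
    refine ⟨?_, ?_, ?_, ?_⟩
    · show (_ :: _ : List Vx).length ≤ _
      rw [List.length_cons, List.length_cons]
      omega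
    · show (s.2.1 ++ [_]).length = _
      rw [List.length_append, List.length_singleton, List.length_cons, h2]
    · intro x hx
      rcases List.mem_cons.1 hx with rfl | hx
      · exact MachP_nvx _ _ _ _ _ _ _ _ _ _
      · exact h3 x (hsub x hx)
    · intro x hx
      rcases List.mem_append.1 hx with hx | hx
      · exact h4 x hx
      · rw [List.mem_singleton.1 hx]
        exact MachP_nph _ _ _ _ _ _ _ _ _

private theorem MachP_pnph {fe : α → List Bool} {fv fc fm : α → ℕ}
    {fN fB : α → List (List Bool)} {fZ : α → List Bool} {fq : α → Tok} {fs : α → List Vx}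
    (he : Poly fe) (hv : Poly fv) (hc : Poly fc) (hm : Poly fm) (hN : Poly fN) (hB : Poly fB)
    (hZ : Poly fZ) (hq : Poly fq) (hs : Poly fs) :
    Poly (fun a => nph (fe a) (fv a) (fc a) (fm a) (fN a) (fB a) (fZ a) (fq a) (fs a)) := by
  have hq1 : Poly (fun a => (fq a).1) := by fun_prop
  have hq2 : Poly (fun a => (fq a).2) := by fun_prop
  have hmd : Poly (fun a => md (fe a)) := Pool.Agent.TW.Poly.md he
  have ha : Poly (fun a => alv (fe a) (fv a) (fc a) (fN a) (fZ a) (fq a).2) := by
    unfold alv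
    exact Pool.Agent.TI.Poly.bmod (poly_bl hv hZ (Poly.add (Poly.mul (MachP_c 2) hc)
      (MachP_fidx hq2 hN))) hmd
  have h1 : Poly (fun a => (fs a).headD vx0) := Poly.headD hs (MachP_c vx0)
  have h2 : Poly (fun a => (fs a).tail.headD vx0) := Poly.headD (Poly.tail hs) (MachP_c vx0)
  have k1 : Poly (fun a => ((fs a).headD vx0).1) := Poly.comp Poly.fst h1
  have k2 : Poly (fun a => ((fs a).headD vx0).2.2.1) :=
    Poly.comp Poly.fst (Poly.comp Poly.snd (Poly.comp Poly.snd h1))
  have k3 : Poly (fun a => ((fs a).headD vx0).2.2.2) :=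
    Poly.comp Poly.snd (Poly.comp Poly.snd (Poly.comp Poly.snd h1))
  have k4 : Poly (fun a => ((fs a).tail.headD vx0).2.1) :=
    Poly.comp Poly.fst (Poly.comp Poly.snd h2)
  have k5 : Poly (fun a => ((fs a).tail.headD vx0).2.2.2) :=
    Poly.comp Poly.snd (Poly.comp Poly.snd (Poly.comp Poly.snd h2))
  have k6 : Poly (fun a => ((fs a).tail.headD vx0).2.2.1) :=
    Poly.comp Poly.fst (Poly.comp Poly.snd (Poly.comp Poly.snd h2))
  have hp : Poly (fun a => pwv (fe a) (fv a) (fc a) (fm a) (fB a) (fZ a)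
      ((fs a).headD vx0) ((fs a).tail.headD vx0)) := by
    unfold pwv
    exact Pool.Agent.TW.Poly.rmu he k4 (Pool.Agent.TW.Poly.rad he
      (Pool.Agent.TW.Poly.rmu he k2 (Pool.Agent.TW.Poly.rin he k1))
      (poly_lcv he hv hc hm hB hZ k3))
  unfold nph
  exact Poly.cond (Poly.nateq hq1 (MachP_c 4)) ha (Poly.cond (Poly.nateq hq1 (MachP_c 3)) hp
    (MachP_c _))

private theorem MachP_pnvx {fe fM : α → List Bool} {fv fc : α → ℕ}
    {fZ : α → List Bool} {ft : α → List (List SI)} {fq : α → Tok} {fs : α → List Vx}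
    {fp : α → ℕ} {fh : α → List Bool} (he : Poly fe) (hM : Poly fM) (hv : Poly fv)
    (hc : Poly fc) (hZ : Poly fZ) (ht : Poly ft) (hq : Poly fq) (hs : Poly fs) (hp : Poly fp)
    (hh : Poly fh) :
    Poly (fun a => nvx (fe a) (fM a) (fv a) (fc a) (fZ a) (ft a) (fq a) (fs a) (fp a)
      (fh a)) := by
  have hq1 : Poly (fun a => (fq a).1) := by fun_prop
  have h1 : Poly (fun a => (fs a).headD vx0) := Poly.headD hs (MachP_c vx0)
  have h2 : Poly (fun a => (fs a).tail.headD vx0) := Poly.headD (Poly.tail hs) (MachP_c vx0)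
  have a1 : Poly (fun a => ((fs a).headD vx0).1) := Poly.comp Poly.fst h1
  have a2 : Poly (fun a => ((fs a).headD vx0).2.1) := Poly.comp Poly.fst (Poly.comp Poly.snd h1)
  have a3 : Poly (fun a => ((fs a).headD vx0).2.2.1) :=
    Poly.comp Poly.fst (Poly.comp Poly.snd (Poly.comp Poly.snd h1))
  have a4 : Poly (fun a => ((fs a).headD vx0).2.2.2) :=
    Poly.comp Poly.snd (Poly.comp Poly.snd (Poly.comp Poly.snd h1))
  have b1 : Poly (fun a => ((fs a).tail.headD vx0).1) := Poly.comp Poly.fst h2
  have b2 : Poly (fun a => ((fs a).tail.headD vx0).2.1) :=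
    Poly.comp Poly.fst (Poly.comp Poly.snd h2)
  have b3 : Poly (fun a => ((fs a).tail.headD vx0).2.2.1) :=
    Poly.comp Poly.fst (Poly.comp Poly.snd (Poly.comp Poly.snd h2))
  have b4 : Poly (fun a => ((fs a).tail.headD vx0).2.2.2) :=
    Poly.comp Poly.snd (Poly.comp Poly.snd (Poly.comp Poly.snd h2))
  have t1 : Poly (fun a => hv1 (fe a) (fv a) (fc a) (fZ a) (ft a) (fp a)) := by
    unfold hv1
    exact poly_tval he hv hc (MachP_c nm2) hZ ht hp (MachP_c _)
  have t2 : Poly (fun a => hv2 (fe a) (fv a) (fc a) (fZ a) (ft a) (fp a)) := by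
    unfold hv2
    exact poly_tval he hv hc (MachP_c nm2) hZ ht hp (MachP_c _)
  have hadx : Poly (fun a => adx (fe a) (fM a) ((fs a).headD vx0) ((fs a).tail.headD vx0)) := by
    unfold adx
    exact Poly.pair (Pool.Agent.TW.Poly.rad he a1 b1) (Poly.pair
      (Pool.Agent.TW.Poly.rad he a2 b2) (Poly.pair (Pool.Agent.TW.Poly.rad he a3 b3)
        (Pool.Agent.TW.Poly.rad hM a4 b4)))
  have hmux : Poly (fun a => mux (fe a) (fM a) ((fs a).headD vx0) ((fs a).tail.headD vx0)) := by
    unfold mux
    exact Poly.pair (Pool.Agent.TW.Poly.rmu he a1 b1) (Poly.pair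
      (Pool.Agent.TW.Poly.rmu he a2 b2) (Poly.pair
        (Pool.Agent.TW.Poly.rad he (Pool.Agent.TW.Poly.rmu he a3 b1)
          (Pool.Agent.TW.Poly.rmu he a1 b3))
        (Pool.Agent.TW.Poly.rmu hM a4 b4)))
  unfold nvx
  exact Poly.cond (Poly.isZero hq1) (MachP_c vx0) (Poly.cond (Poly.nateq hq1 (MachP_c 1)) hadx
    (Poly.cond (Poly.nateq hq1 (MachP_c 2)) hmux (Poly.pair t1 (Poly.pair t2 (Poly.pair
      (Pool.Agent.TW.Poly.rmu he t1 hh) (MachP_c _))))))

private theorem MachP_pnok {fe : α → List Bool} {fq : α → Tok} {fs : α → List Vx}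
    (he : Poly fe) (hq : Poly fq) (hs : Poly fs) :
    Poly (fun a => nok (fe a) (fq a) (fs a)) := by
  have hq1 : Poly (fun a => (fq a).1) := by fun_prop
  have h1 : Poly (fun a => (fs a).headD vx0) := Poly.headD hs (MachP_c vx0)
  have a1 : Poly (fun a => ((fs a).headD vx0).1) := Poly.comp Poly.fst h1
  have hmd : Poly (fun a => md (fe a)) := Pool.Agent.TW.Poly.md he
  unfold nok
  exact Poly.or (Poly.not (Poly.nateq hq1 (MachP_c 3))) (Pool.Agent.TI.Poly.beqv
    (Pool.Agent.TW.Poly.rmu he a1 (Pool.Agent.TW.Poly.rin he a1))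
    (Pool.Agent.TI.Poly.bmod (MachP_c _) hmd))

private theorem MachP_xstep {fe fM : α → List Bool} {fv fc fm : α → ℕ}
    {fN fB : α → List (List Bool)} {fZ : α → List Bool} {ft : α → List (List SI)}
    {fq : α → Tok} {fs : α → List Vx × List (List Bool) × Bool} (he : Poly fe)
    (hM : Poly fM) (hv : Poly fv) (hc : Poly fc) (hm : Poly fm) (hN : Poly fN) (hB : Poly fB)
    (hZ : Poly fZ) (ht : Poly ft) (hq : Poly fq) (hs : Poly fs) :
    Poly (fun a => xstep (fe a) (fM a) (fv a) (fc a) (fm a) (fN a) (fB a) (fZ a) (ft a)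
      (fq a) (fs a)) := by
  have hq1 : Poly (fun a => (fq a).1) := by fun_prop
  have s1 : Poly (fun a => (fs a).1) := Poly.comp Poly.fst hs
  have s2 : Poly (fun a => (fs a).2.1) := Poly.comp Poly.fst (Poly.comp Poly.snd hs)
  have s3 : Poly (fun a => (fs a).2.2) := Poly.comp Poly.snd (Poly.comp Poly.snd hs)
  have hph := MachP_pnph he hv hc hm hN hB hZ hq s1
  have hvx := MachP_pnvx he hM hv hc hZ ht hq s1 (Poly.length s2) hph
  have hok := MachP_pnok he hq s1
  have hr : Poly (fun a => bif decide ((fq a).1 = 0) || decide ((fq a).1 = 4) then (fs a).1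
      else (fs a).1.tail.tail) :=
    Poly.cond (Poly.or (Poly.isZero hq1) (Poly.nateq hq1 (MachP_c 4))) s1
      (Poly.tail (Poly.tail s1))
  unfold xstep
  exact Poly.pair (Poly.lcons hvx hr) (Poly.pair (Poly.append s2
    (Poly.lcons hph (MachP_c ([] : List (List Bool))))) (Poly.and s3 hok))

private theorem MachP_sz (e M : List Bool) (v c m : ℕ) (N B : List (List Bool)) (Z : List Bool)
    (tab : List (List SI)) (T l₁ l₂ : List Tok) (h : T = l₁ ++ l₂) :
    sz (xrun e M v c m N B Z tab l₂) ≤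
      (sz T * (3 * (4 * (sz e + 4) + 1) + (4 * (sz M + 4) + 1) + 4) + 1) +
        (sz T * (4 * (sz e + 4) + 2) + 1) + 5 := by
  obtain ⟨h1, h2, h3, h4⟩ := xrun_len e M v c m N B Z tab l₂
  have hT : l₂.length ≤ sz T := by
    have h5 := length_lt_sz T
    have h6 : l₂.length ≤ T.length := by
      rw [h, List.length_append]
      omega
    omega
  have he := length_lt_sz e
  have hM := length_lt_sz M
  have k1 : sz (xrun e M v c m N B Z tab l₂).1 ≤
      sz T * (3 * (4 * (sz e + 4) + 1) + (4 * (sz M + 4) + 1) + 4) + 1 := by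
    refine (sz_le_of_forall _ (3 * (4 * (sz e + 4) + 1) + (4 * (sz M + 4) + 1) + 3)
      fun x hx => ?_).trans ?_
    · obtain ⟨g1, g2, g3, g4⟩ := h3 x hx
      have f1 := (sz_bool_list x.1).2
      have f2 := (sz_bool_list x.2.1).2
      have f3 := (sz_bool_list x.2.2.1).2
      have f4 := (sz_bool_list x.2.2.2).2
      have e1 : sz x = sz x.1 + (sz x.2.1 + (sz x.2.2.1 + sz x.2.2.2 + 1) + 1) + 1 := rfl
      rw [e1]
      omega
    · exact Nat.add_le_add_right (Nat.mul_le_mul_right _ (h1.trans hT)) 1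
  have k2 : sz (xrun e M v c m N B Z tab l₂).2.1 ≤ sz T * (4 * (sz e + 4) + 2) + 1 := by
    refine (sz_le_of_forall _ (4 * (sz e + 4) + 1) fun x hx => ?_).trans ?_
    · have g1 := h4 x hx
      have f1 := (sz_bool_list x).2
      omega
    · exact Nat.add_le_add_right (Nat.mul_le_mul_right _ (h2.le.trans hT)) 1
  have k3 := sz_bool_le (xrun e M v c m N B Z tab l₂).2.2
  have e2 : sz (xrun e M v c m N B Z tab l₂) = sz (xrun e M v c m N B Z tab l₂).1 +
      (sz (xrun e M v c m N B Z tab l₂).2.1 + sz (xrun e M v c m N B Z tab l₂).2.2 + 1) + 1 :=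
    rfl
  rw [e2]
  omega

theorem poly_xrun {fe fM : α → List Bool} {fv fc fm : α → ℕ} {fN fB : α → List (List Bool)}
    {fZ : α → List Bool} {ft : α → List (List SI)} {fT : α → List Tok} (he : Poly fe)
    (hM : Poly fM) (hv : Poly fv) (hc : Poly fc) (hm : Poly fm) (hN : Poly fN) (hB : Poly fB)
    (hZ : Poly fZ) (ht : Poly ft) (hT : Poly fT) :
    Poly (fun a => xrun (fe a) (fM a) (fv a) (fc a) (fm a) (fN a) (fB a) (fZ a) (ft a)
      (fT a)) := by
  have hf : Poly (fun p : α × (List Vx × List (List Bool) × Bool) × Tok =>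
      xstep (fe p.1) (fM p.1) (fv p.1) (fc p.1) (fm p.1) (fN p.1) (fB p.1) (fZ p.1) (ft p.1)
        p.2.2 p.2.1) :=
    MachP_xstep (he.comp Poly.fst) (hM.comp Poly.fst) (hv.comp Poly.fst) (hc.comp Poly.fst)
      (hm.comp Poly.fst) (hN.comp Poly.fst) (hB.comp Poly.fst) (hZ.comp Poly.fst)
      (ht.comp Poly.fst) (Poly.comp Poly.snd Poly.snd) (Poly.comp Poly.fst Poly.snd)
  exact Poly.foldr
    (f := fun p : α × (List Vx × List (List Bool) × Bool) × Tok =>
      xstep (fe p.1) (fM p.1) (fv p.1) (fc p.1) (fm p.1) (fN p.1) (fB p.1) (fZ p.1) (ft p.1)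
        p.2.2 p.2.1)
    (l := fT) (s0 := fun _ => (([], [], true) : List Vx × List (List Bool) × Bool))
    (B := fun a => (sz (fT a) * (3 * (4 * (sz (fe a) + 4) + 1) + (4 * (sz (fM a) + 4) + 1) + 4)
      + 1) + (sz (fT a) * (4 * (sz (fe a) + 4) + 2) + 1) + 5) hf hT
    (MachP_c _)
    ((((hT.sz_le.mul ((((PBdd.const 3).mul (((PBdd.const 4).mul (he.sz_le.add
      (PBdd.const 4))).add (PBdd.const 1))).add (((PBdd.const 4).mul (hM.sz_le.add
      (PBdd.const 4))).add (PBdd.const 1))).add (PBdd.const 4))).add (PBdd.const 1)).add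
      ((hT.sz_le.mul (((PBdd.const 4).mul (he.sz_le.add
      (PBdd.const 4))).add (PBdd.const 2))).add (PBdd.const 1))).add
      (PBdd.const 5)) (by
      intro a l₁ l₂ h
      exact MachP_sz (fe a) (fM a) (fv a) (fc a) (fm a) (fN a) (fB a) (fZ a) (ft a) (fT a)
        l₁ l₂ h)

theorem poly_hrow {fe fM : α → List Bool} {fv fc fm : α → ℕ} {fN fB : α → List (List Bool)}
    {fZ : α → List Bool} {ft : α → List (List SI)} {fT : α → List Tok} {fi : α → ℕ}
    (he : Poly fe) (hM : Poly fM) (hv : Poly fv) (hc : Poly fc) (hm : Poly fm) (hN : Poly fN)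
    (hB : Poly fB) (ht : Poly ft) (hT : Poly fT) (hi : Poly fi) (hZ : Poly fZ) :
    Poly (fun a => hrow (fe a) (fM a) (fv a) (fc a) (fm a) (fN a) (fB a) (ft a) (fT a) (fi a)
      (fZ a)) := by
  have h0 : Poly (fun a => (fT a).drop ((fT a).length - (fi a + 1))) :=
    Poly.drop (Poly.sub (Poly.length hT) (Poly.add hi (MachP_c 1))) hT
  have h1 := poly_xrun he hM hv hc hm hN hB hZ ht h0
  unfold hrow
  exact Poly.cond (Poly.comp Poly.snd (Poly.comp Poly.snd h1))
    (Poly.comp Poly.fst (Poly.comp Poly.snd h1))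
    (Poly.replicate (Poly.add hi (MachP_c 1)) (MachP_c _))

end Pool.Agent.TC
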