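import Pool.Agent.H.MP_b2d7dd_lc.TC.Nxt
import Pool.Agent.H.MP_b2d7dd_lc.TC.Det
import Pool.Agent.H.MP_b2d7dd_lc.TC.Ext
import Pool.Agent.H.MP_b2d7dd_lc.TW.LiftP

/-!
# Module Snd: true identities are always accepted

Compare TN/Snd.
-/

namespace Pool.Agent.TC

open Pool.Agent.TI (Tm Tok names Valid)
open Pool.Agent.TE (bl)
open Pool.Agent.TW (SI irow wun)
open Pool.Agent.H.MP_5be563_lc.PT Finset

/-- The variables. -/
abbrev Wn (s t : Tm) : Finset (List Bool) := (names (s.toks ++ t.toks)).toFinset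

/-- The logarithms of the subterms. -/
noncomputable abbrev lv (s t : Tm) (a : ℕ) : Pt (Wn s t) → ℝ := lr (Wn s t) (exF s t a)

private theorem Snd_atom {u t : Tm} (h : u ∈ ats t) : u ∈ ats u := by
  induction t with
  | one => exact absurd h (Set.notMem_empty u)
  | var w =>
    have h1 : u = .var w := h
    rw [h1]
    exact Set.mem_singleton _
  | add s t hs ht =>
    rcases h with h | h
    · exact hs h
    · exact ht h
  | mul s t hs ht =>
    rcases h with h | h
    · exact hs h
    · exact ht h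
  | pow s t _ _ =>
    have h1 : u = .pow s t := h
    rw [h1]
    exact Set.mem_singleton _

/-- The variables and powers of a member of the stack. -/
private theorem Snd_ats {s t u : Tm} (hu : u ∈ [s, t]) : ats u ⊆ exA (exF s t) (s.sz + t.sz) := by
  have hlen : (subs t ++ subs s).length = s.sz + t.sz := by
    rw [List.length_append, length_subs, length_subs, add_comm]
  have hst := stk_pair s t
  have hidx : ∀ x ∈ subs t ++ subs s, ∃ a < s.sz + t.sz, exF s t a = x := by
    intro x hx
    obtain ⟨j, hj, h1⟩ := List.mem_iff_getElem.1 hx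
    refine ⟨j, by rw [← hlen]; exact hj, ?_⟩
    unfold exF
    rw [List.getD_eq_getElem?_getD, List.getElem?_eq_getElem hj, h1]
    rfl
  obtain ⟨j, hj, h1⟩ := hidx u (hst.mem u hu)
  obtain ⟨q1, -, -⟩ := hst.parts (i := j) (by rw [hlen]; exact hj)
  intro x hx
  have h2 : (subs t ++ subs s).getD j .one = u := h1
  rw [h2] at q1
  rcases q1 x hx with h3 | h3
  · exact ⟨j, hj, by rw [h1, h3], Snd_atom hx⟩
  · obtain ⟨a, ha, h4⟩ := hidx x (List.mem_of_mem_take h3)
    exact ⟨a, ha, h4.symm, Snd_atom hx⟩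

private theorem Snd_vars {W : Finset (List Bool)} {u : Tm} (h : ∀ w ∈ names u.toks, w ∈ W) :
    VarsIn W u := by
  induction u with
  | one => trivial
  | var w =>
    refine h w ?_
    simp [names, Tm.toks]
  | add s t hs ht =>
    have e : names (Tm.add s t).toks = names s.toks ++ names t.toks := by
      rw [← Pool.Agent.TI.names_append]
      simp [names, Tm.toks]
    rw [e] at h
    exact ⟨hs fun w hw => h w (List.mem_append_left _ hw),
      ht fun w hw => h w (List.mem_append_right _ hw)⟩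
  | mul s t hs ht =>
    have e : names (Tm.mul s t).toks = names s.toks ++ names t.toks := by
      rw [← Pool.Agent.TI.names_append]
      simp [names, Tm.toks]
    rw [e] at h
    exact ⟨hs fun w hw => h w (List.mem_append_left _ hw),
      ht fun w hw => h w (List.mem_append_right _ hw)⟩
  | pow s t hs ht =>
    have e : names (Tm.pow s t).toks = names s.toks ++ names t.toks := by
      rw [← Pool.Agent.TI.names_append]
      simp [names, Tm.toks]
    rw [e] at h
    exact ⟨hs fun w hw => h w (List.mem_append_left _ hw),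
      ht fun w hw => h w (List.mem_append_right _ hw)⟩

private theorem Snd_len (s t : Tm) : (s.toks ++ t.toks).length = s.sz + t.sz := by
  rw [List.length_append, Tm.length_toks, Tm.length_toks]

private theorem Snd_Mn {s t : Tm} {n : ℕ} (hn : s.sz + t.sz ≤ n) :
    2 ^ (s.sz + t.sz) ≤ bval (Mn n) := by
  rw [bval_Mn]
  exact Nat.pow_le_pow_right (by norm_num) (by omega)

theorem nxt_coh {n : ℕ} {s t : Tm} (hs : CT s) (ht : CT t) (hn : s.sz + t.sz ≤ n) {i : ℕ}
    (hi : i < s.sz + t.sz) {e : List Bool} (he : 2 ^ vv n ≤ bval e) (N : List (List Bool))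
    {tab : List (List SI)} (hc : Coh (lv s t) i (tab.map irow)) (zz : List Bool) :
    Coh (lv s t) (i + 1)
      ((nxt n e N (baseT n (s.toks ++ t.toks)) (s.toks ++ t.toks) i tab zz).map irow) := by
  have hF : FamC (Wn s t) n (s.sz + t.sz) (exF s t) := fam_exF hs ht hn
  have hM := baseT_mb (s := s) (t := t) hn
  have hL : i + 1 ≤ n := by omega
  have hlen := Snd_len s t
  unfold nxt
  refine coh_ltab (rel_iff hF hM (i := i + 1) (by omega))
    (fun a ha g => cn_bound hF hM (i := i + 1) (by omega) ha g) (kk n) ?_ ?_ _ ?_ ?_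
  · rw [Pool.Agent.TW.bval_pow2]
    exact NB_le hL
  · rw [Pool.Agent.TW.bval_pow2, Pool.Agent.TW.bval_pow2]
    exact par_coh hL (by omega)
  · intro v hv
    obtain ⟨j, -, rfl⟩ := List.mem_map.1 hv
    exact hrow_length e (Mn n) (vv n) (n + 1) n N _ tab _ (by rw [hlen]; omega) _
  · intro v hv κ hκ
    obtain ⟨j, -, rfl⟩ := List.mem_map.1 hv
    have h1 := hz_rel (W := Wn s t) (e := e) (v := vv n) (c := n + 1) (N := N)
      (B := baseT n (s.toks ++ t.toks)) (ν := tab.map irow) (ex := exF s t)
      (Z := bl (Qw n * vv n) zz j) hF hM hi hc κ hκ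
    rw [← h1]
    refine Finset.sum_congr rfl fun a ha => ?_
    rw [hrow_val (W := Wn s t) _ s t hi (baseT_two hn).1 hn (Snd_Mn hn) hc
      (Nat.lt_succ_iff.1 (Finset.mem_range.1 ha))]

theorem Snd_bound (n : ℕ) (e : List Bool) (N B : List (List Bool))
    (T : List Tok) (i : ℕ) (tab : List (List SI)) (zz : List Bool) :
    (nxt n e N B T i tab zz).length ≤ i + 1 ∧
      ∀ row ∈ (nxt n e N B T i tab zz).map irow, ∀ a, |row a| ≤ (2 ^ eP n : ℕ) := by
  unfold nxt
  refine ⟨(Pool.Agent.TW.ltab_len _ _ _ _ _ _).1.trans (Pool.Agent.TW.pivots_len _ _ _).1, ?_⟩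
  intro row hrow a
  obtain ⟨l, hl, rfl⟩ := List.mem_map.1 hrow
  have h1 := (Pool.Agent.TW.mem_ltab hl).2 a
  rw [Pool.Agent.TW.bval_pow2] at h1
  exact h1

theorem tabI_bound (n : ℕ) (e : List Bool) (N B : List (List Bool))
    (T : List Tok) (z : List Bool) (i : ℕ) : (tabI n e N B T z i).length ≤ i ∧
      ∀ row ∈ (tabI n e N B T z i).map irow, ∀ a, |row a| ≤ (2 ^ eP n : ℕ) := by
  cases i with
  | zero =>
    refine ⟨le_rfl, ?_⟩
    intro row hrow
    exact absurd hrow (by simp [tabI])
  | succ i => exact Snd_bound n e N B T i _ _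

theorem tabI_coh {n : ℕ} {s t : Tm} (hs : CT s) (ht : CT t) (hn : s.sz + t.sz ≤ n)
    {e : List Bool} (he : 2 ^ vv n ≤ bval e) (N : List (List Bool)) (z : List Bool) (i : ℕ)
    (hi : i ≤ s.sz + t.sz) :
    Coh (lv s t) i
      ((tabI n e N (baseT n (s.toks ++ t.toks)) (s.toks ++ t.toks) z i).map irow) := by
  induction i with
  | zero =>
    intro κ _ row hrow
    exact absurd hrow (by simp [tabI])
  | succ i ih => exact nxt_coh hs ht hn (by omega) he N (ih (by omega)) _

/-- The value of a term of the identity for the first character. -/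
noncomputable def h0 (n : ℕ) (e : List Bool) (s t : Tm) (tab : List (List SI)) (Z : List Bool)
    (u : Tm) : ZMod (bval e + 2) :=
  evl (fun v => chi (fun b => wun e (bl (vv n) Z b)) (tab.map irow) (lv s t) (s.sz + t.sz) v)
    (rp (Wn s t) u)

theorem fin1_iff {n : ℕ} {s t : Tm} (hn : s.sz + t.sz ≤ n) (e : List Bool)
    (N : List (List Bool)) {tab : List (List SI)}
    (hc : Coh (lv s t) (s.sz + t.sz) (tab.map irow)) (zz : List Bool) :
    fin1 n e N (baseT n (s.toks ++ t.toks)) (s.toks ++ t.toks) tab zz = true ↔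
      h0 n e s t tab (bl (Qw n * vv n) zz 0) s = h0 n e s t tab (bl (Qw n * vv n) zz 0) t := by
  obtain ⟨h1, h2⟩ := xrun_pair (W := Wn s t) (e := e) (M := Mn n) (v := vv n) (c := n + 1)
    (m := n) (N := N) (B := baseT n (s.toks ++ t.toks)) (bl (Qw n * vv n) zz 0) (tab := tab) s t
    (baseT_two hn).1 hn (Snd_Mn hn) hc
  have hMo : Mo (VA (Wn s t) (exA (exF s t) (s.sz + t.sz)))
      (fun v => chi (fun b => wun e (bl (vv n) (bl (Qw n * vv n) zz 0) b)) (tab.map irow)
        (lv s t) (s.sz + t.sz) v) := by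
    rw [VA_exA]
    exact ⟨chi_zero _ hc, fun g hg h hh => chi_add _ hc hg hh⟩
  have h3 : ∀ u, u ∈ [s, t] → av (Pz (Wn s t) e (vv n) (n + 1) N (baseT n (s.toks ++ t.toks))
      (tab.map irow) (exF s t) (s.sz + t.sz) (bl (Qw n * vv n) zz 0)).f u =
        h0 n e s t tab (bl (Qw n * vv n) zz 0) u := fun u hu =>
    av_evl hMo (fun a _ => rfl) (Snd_ats hu)
  unfold fin1
  rw [Pool.Agent.TW.beqv_bmod_iff, h1, h2, h3 s (by simp), h3 t (by simp)]

/-- The identity holds if and only if the elements of the monoid ring are equal. -/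
theorem valid_rp {s t : Tm} (hs : CT s) (ht : CT t) :
    Valid s t ↔ rp (Wn s t) s = rp (Wn s t) t := by
  have hF : FamC (Wn s t) (s.sz + t.sz) (s.sz + t.sz) (exF s t) := fam_exF hs ht le_rfl
  obtain ⟨as, h1, h2⟩ := hF.cl le_rfl
  have hvs : VarsIn (Wn s t) s := Snd_vars fun w hw => by
    rw [List.mem_toFinset, Pool.Agent.TI.names_append]
    exact List.mem_append_left _ hw
  have hvt : VarsIn (Wn s t) t := Snd_vars fun w hw => by
    rw [List.mem_toFinset, Pool.Agent.TI.names_append]
    exact List.mem_append_right _ hw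
  rw [valid_iff hvs hvt]
  constructor
  · intro h
    exact rp_ext h1 ((Snd_ats (by simp)).trans h2) ((Snd_ats (by simp)).trans h2) h
  · intro h
    funext x
    rw [rf_evl, rf_evl, h]

theorem test0_valid {n : ℕ} {s t : Tm} (hs : CT s) (ht : CT t) (hn : s.sz + t.sz ≤ n)
    (hv : Valid s t) (e z : List Bool) : test0 n (s.toks ++ t.toks) e z = true := by
  unfold test0
  cases hb : ble (Pool.Agent.TW.pow2 (vv n)) e with
  | false => rfl
  | true =>
    rw [cond_true]
    have he := (ble_iff _ _).1 hb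
    rw [Pool.Agent.TW.bval_pow2] at he
    rw [Snd_len]
    have hc := tabI_coh hs ht hn he (names (s.toks ++ t.toks)) z (s.sz + t.sz) le_rfl
    rw [fin1_iff hn e (names (s.toks ++ t.toks)) hc]
    unfold h0
    rw [(valid_rp hs ht).1 hv]

end Pool.Agent.TC
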