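import Pool.Agent.H.MP_b2d7dd_lc.TC.NxtP
import Pool.Agent.H.MP_b2d7dd_lc.TC.Snd
import Pool.Agent.H.MP_b2d7dd_lc.TI.Unp

/-!
# Module TabP: the test runs in polynomial time

Compare TN/TabP.
-/

namespace Pool.Agent.TC

open Pool.Agent.TI (Tok names tokz unpair pairCode)
open Pool.Agent.TE (bl)
open Pool.Agent.TW (SI ltab pivots pow2 md ltab_len poly_pow2 poly_bl)
open Pool.Agent.H.MP_5be563_lc.PT

variable {α : Type} [Enc α]

private theorem TabP_fold (n : ℕ) (e : List Bool) (N : List (List Bool))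
    (B : List (List Bool)) (T : List Tok) (z : List Bool) (l : List ℕ) :
    l.foldr (fun _ s => (s.1 + 1, nxt n e N B T s.1 s.2 (bl (SS n) z s.1)))
      ((0 : ℕ), ([] : List (List SI))) = (l.length, tabI n e N B T z l.length) := by
  induction l with
  | nil => rfl
  | cons q l ih =>
    rw [List.foldr_cons, ih]
    rfl

private theorem TabP_SI (x : SI) (c : ℕ) (h : x.2.length ≤ c) : sz x ≤ 4 * c + 5 := by
  have h1 := sz_prod x
  have h2 := sz_bool_le x.1
  have h3 := sz_le_of_forall x.2 3 (fun b _ => sz_bool_le b)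
  omega

private theorem TabP_sz (n : ℕ) (e : List Bool) (N : List (List Bool)) (B : List (List Bool))
    (T : List Tok) (z : List Bool) (i : ℕ) :
    sz (tabI n e N B T z i) ≤ i * (i * (8 * e.length + 86) + 2) + 1 := by
  have hlen := (tabI_bound n e N B T z i).1
  refine (sz_le_of_forall (tabI n e N B T z i) (i * (8 * e.length + 86) + 1) ?_).trans ?_
  · intro l hl
    cases i with
    | zero => exact absurd hl (by simp [tabI])
    | succ i =>
      have h1 := (ltab_len e (pow2 (eN n)) (pow2 (eP n)) (kk n) (i + 1)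
        (pivots e (i + 1) ((List.range (Rr n)).map fun j =>
          hrow e (Mn n) (vv n) (n + 1) n N B (tabI n e N B T z i) T i
            (bl (Qw n * vv n) (bl (SS n) z i) j)))).2 l hl
      refine (sz_le_of_forall l (8 * e.length + 85) fun x hx => ?_).trans ?_
      · have h2 := TabP_SI x _ (h1.2 x hx)
        omega
      · rw [h1.1]
  · exact Nat.add_le_add_right (Nat.mul_le_mul_right _ hlen) 1

theorem poly_tabI {fn : α → ℕ} {fe : α → List Bool} {fN fB : α → List (List Bool)}
    {fT : α → List Tok} {fz : α → List Bool} {fi : α → ℕ}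
    (hn : Poly fn) (he : Poly fe) (hN : Poly fN) (hB : Poly fB) (hT : Poly fT) (hz : Poly fz)
    (hi : Poly fi) :
    Poly (fun a => tabI (fn a) (fe a) (fN a) (fB a) (fT a) (fz a) (fi a)) := by
  have hn' : Poly (fun p : α × (ℕ × List (List SI)) × ℕ => fn p.1) := Poly.comp hn Poly.fst
  have he' : Poly (fun p : α × (ℕ × List (List SI)) × ℕ => fe p.1) := Poly.comp he Poly.fst
  have hN' : Poly (fun p : α × (ℕ × List (List SI)) × ℕ => fN p.1) := Poly.comp hN Poly.fst
  have hB' : Poly (fun p : α × (ℕ × List (List SI)) × ℕ => fB p.1) := Poly.comp hB Poly.fst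
  have hT' : Poly (fun p : α × (ℕ × List (List SI)) × ℕ => fT p.1) := Poly.comp hT Poly.fst
  have hz' : Poly (fun p : α × (ℕ × List (List SI)) × ℕ => fz p.1) := Poly.comp hz Poly.fst
  have hc : Poly (fun p : α × (ℕ × List (List SI)) × ℕ => p.2.1.1 + 1) := by
    fun_prop
  have ht : Poly (fun p : α × (ℕ × List (List SI)) × ℕ => p.2.1.2) := by
    fun_prop
  have hl : Poly (fun p : α × (ℕ × List (List SI)) × ℕ => p.2.1.1) := by
    fun_prop
  have hS : Poly (fun p : α × (ℕ × List (List SI)) × ℕ => SS (fn p.1)) :=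
    (poly_par hn').2.2.2.2.2.2.1
  have hb : Poly (fun p : α × (ℕ × List (List SI)) × ℕ =>
      bl (SS (fn p.1)) (fz p.1) p.2.1.1) := poly_bl hS hz' hl
  have hy : Poly (fun p : α × (ℕ × List (List SI)) × ℕ =>
      nxt (fn p.1) (fe p.1) (fN p.1) (fB p.1) (fT p.1) p.2.1.1 p.2.1.2
        (bl (SS (fn p.1)) (fz p.1) p.2.1.1)) := poly_nxt hn' he' hN' hB' hT' hl ht hb
  have key := Poly.foldr (f := fun p : α × (ℕ × List (List SI)) × ℕ =>
      (p.2.1.1 + 1, nxt (fn p.1) (fe p.1) (fN p.1) (fB p.1) (fT p.1) p.2.1.1 p.2.1.2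
        (bl (SS (fn p.1)) (fz p.1) p.2.1.1)))
    (l := fun a => List.range (fi a)) (s0 := fun _ => ((0 : ℕ), ([] : List (List SI))))
    (B := fun a => (2 * sz (fi a) + 1) +
      (sz (fi a) * (sz (fi a) * (8 * sz (fe a) + 86) + 2) + 1) + 1)
    (Poly.pair hc hy) (Poly.range hi) (by fun_prop)
    (by
      have h1 := hi.sz_le
      have h2 := he.sz_le
      exact ((((PBdd.const 2).mul h1).add (PBdd.const 1)).add
        ((h1.mul ((h1.mul (((PBdd.const 8).mul h2).add (PBdd.const 86))).add
        (PBdd.const 2))).add (PBdd.const 1))).add (PBdd.const 1))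
    (by
      intro a l₁ l₂ h
      simp only
      rw [TabP_fold, sz_pair, sz_nat]
      have h3 : l₂.length ≤ sz (fi a) := by
        have h1 := congrArg List.length h
        rw [List.length_range, List.length_append] at h1
        rw [sz_nat]
        omega
      have h2 := TabP_sz (fn a) (fe a) (fN a) (fB a) (fT a) (fz a) l₂.length
      have h4 : (fe a).length ≤ sz (fe a) := (length_lt_sz (fe a)).le
      have h5 : l₂.length * (l₂.length * (8 * (fe a).length + 86) + 2) ≤
          sz (fi a) * (sz (fi a) * (8 * sz (fe a) + 86) + 2) := by gcongr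
      omega)
  have h2 : Poly (fun a => ((List.range (fi a)).foldr (fun _ s => (s.1 + 1,
      nxt (fn a) (fe a) (fN a) (fB a) (fT a) s.1 s.2 (bl (SS (fn a)) (fz a) s.1)))
      ((0 : ℕ), ([] : List (List SI)))).2) := Poly.comp Poly.snd key
  refine (show (fun a => tabI (fn a) (fe a) (fN a) (fB a) (fT a) (fz a) (fi a)) = _ from ?_) ▸ h2
  funext a
  rw [TabP_fold, List.length_range]

private theorem TabP_Mn {fn : α → ℕ} (hn : Poly fn) : Poly (fun a => Mn (fn a)) := by
  have h2 : Poly (fun a => fn a + 2) := Poly.succ (Poly.succ hn)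
  unfold Mn
  exact poly_pow2 h2

private theorem TabP_fin1 {fn : α → ℕ} {fe : α → List Bool} {fN fB : α → List (List Bool)}
    {fT : α → List Tok} {ft : α → List (List SI)} {fz : α → List Bool} (hn : Poly fn)
    (he : Poly fe) (hN : Poly fN) (hB : Poly fB) (hT : Poly fT) (ht : Poly ft) (hz : Poly fz) :
    Poly (fun a => fin1 (fn a) (fe a) (fN a) (fB a) (fT a) (ft a) (fz a)) := by
  have hv := (poly_par hn).2.2.1
  have hQ := (poly_par hn).2.2.2.1
  have hn1 : Poly (fun a => fn a + 1) := Poly.succ hn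
  have hM := TabP_Mn hn
  have hb : Poly (fun a => bl (Qw (fn a) * vv (fn a)) (fz a) 0) :=
    poly_bl (Poly.mul hQ hv) hz (H.MP_5be563_lc.PT.Poly.const 0)
  have hr := poly_xrun he hM hv hn1 hn hN hB hb ht hT
  have hr1 : Poly (fun a => (xrun (fe a) (Mn (fn a)) (vv (fn a)) (fn a + 1) (fn a) (fN a) (fB a)
      (bl (Qw (fn a) * vv (fn a)) (fz a) 0) (ft a) (fT a)).1) := Poly.comp Poly.fst hr
  have hmd : Poly (fun a => md (fe a)) := Pool.Agent.TW.Poly.md he
  have h0 : Poly (fun _ : α => vx0) := H.MP_5be563_lc.PT.Poly.const vx0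
  unfold fin1
  exact Pool.Agent.TI.Poly.beqv
    (Pool.Agent.TI.Poly.bmod (Poly.comp Poly.fst (Poly.headD hr1 h0)) hmd)
    (Pool.Agent.TI.Poly.bmod (Poly.comp Poly.fst (Poly.headD (Poly.tail hr1) h0)) hmd)

private theorem TabP_test0 {fn : α → ℕ} {fT : α → List Tok} {fe fz : α → List Bool}
    (hn : Poly fn) (hT : Poly fT) (he : Poly fe) (hz : Poly fz) :
    Poly (fun a => test0 (fn a) (fT a) (fe a) (fz a)) := by
  have hN := Pool.Agent.TI.Poly.names hT
  have hv := (poly_par hn).2.2.1
  have hS := (poly_par hn).2.2.2.2.2.2.1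
  have hl : Poly (fun a => (fT a).length) := Poly.length hT
  have hB := poly_baseT hn hT
  have h1 := TabP_fin1 hn he hN hB hT (poly_tabI hn he hN hB hT hz hl)
    (poly_bl hS hz hl)
  have h2 := poly_pow2 hv
  unfold test0
  exact Poly.cond (Poly.ble h2 he) h1 (H.MP_5be563_lc.PT.Poly.const true)

private theorem TabP_test1 {fn : α → ℕ} {fT : α → List Tok} {fz : α → List Bool} (hn : Poly fn)
    (hT : Poly fT) (hz : Poly fz) : Poly (fun a => test1 (fn a) (fT a) (fz a)) := by
  have hv : Poly (fun a => 2 * vv (fn a)) :=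
    Poly.mul (H.MP_5be563_lc.PT.Poly.const 2) (poly_par hn).2.2.1
  unfold test1
  exact TabP_test0 hn hT (Poly.take hv hz) (Poly.drop hv hz)

private theorem TabP_acceptT {fn : α → ℕ} {fT : α → List Tok} {fr : α → List Bool}
    (hn : Poly fn) (hT : Poly fT) (hr : Poly fr) :
    Poly (fun a => acceptT (fn a) (fT a) (fr a)) := by
  have hn' : Poly (fun p : α × ℕ => fn p.1) := Poly.comp hn Poly.fst
  have hr' : Poly (fun p : α × ℕ => fr p.1) := Poly.comp hr Poly.fst
  have hT' : Poly (fun p : α × ℕ => fT p.1) := Poly.comp hT Poly.fst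
  have hp : Poly (fun p : α × ℕ => p.2) := Poly.snd
  have hA := (poly_par hn').2.2.2.2.2.2.2.1
  have hK := (poly_par hn).2.2.2.2.2.2.2.2.1
  have h1 : Poly (fun p : α × ℕ => test1 (fn p.1) (fT p.1) (bl (AA (fn p.1)) (fr p.1) p.2)) :=
    TabP_test1 hn' hT' (poly_bl hA hr' hp)
  unfold acceptT
  exact Poly.and (poly_shapeC hT) (Poly.all (f := fun a j =>
    test1 (fn a) (fT a) (bl (AA (fn a)) (fr a) j)) h1 (Poly.range hK))

private theorem TabP_accept : Poly (fun y : List Bool => accept (unpair y).1 (unpair y).2) := by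
  have hu : Poly (fun y : List Bool => unpair y) := Pool.Agent.TI.Poly.unpair Poly.id
  have h1 : Poly (fun y : List Bool => (unpair y).1) := Poly.comp Poly.fst hu
  have h2 : Poly (fun y : List Bool => (unpair y).2) := Poly.comp Poly.snd hu
  have h1' : Poly (fun p : List Bool × List Tok => (unpair p.1).1.length) :=
    Poly.length (Poly.comp (f := fun y : List Bool => (unpair y).1)
      (g := fun p : List Bool × List Tok => p.1) h1 Poly.fst)
  have h2' : Poly (fun p : List Bool × List Tok => (unpair p.1).2) :=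
    Poly.comp (f := fun y : List Bool => (unpair y).2)
      (g := fun p : List Bool × List Tok => p.1) h2 Poly.fst
  have h := Poly.ocase (f := fun _ : List Bool => false)
    (g := fun y T => acceptT (unpair y).1.length T (unpair y).2) (Pool.Agent.TI.Poly.tokz h1)
    (H.MP_5be563_lc.PT.Poly.const false) (TabP_acceptT h1' Poly.snd h2')
  refine (show (fun y : List Bool => accept (unpair y).1 (unpair y).2) = _ from ?_) ▸ h
  funext y
  unfold accept
  cases tokz (unpair y).1 <;> rfl

theorem tm_accept : Nonempty (Turing.TM2ComputableInPolyTime pairCode Computability.encodeBool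
    (fun z : List Bool × List Bool => accept z.1 z.2)) := by
  have h := Pool.Agent.TI.tm_pair TabP_accept
  simpa only [Pool.Agent.TI.unpair_pairCode] using h

end Pool.Agent.TC
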