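import Pool.Agent.H.MP_b2d7dd_lc.TC.Rnd
import Pool.Agent.H.MP_b2d7dd_lc.TC.TabP
import Pool.Agent.H.MP_b2d7dd_lc.TC.Acc
import Pool.Agent.H.MP_b2d7dd_lc.TI.Read
import Pool.Agent.H.MP_b2d7dd_lc.TI.Md

/-!
# Module Main: the identities whose exponents have no constant summands are in coRP

Compare TN/Main.
-/

namespace Pool.Agent.TC

open Pool.Agent.TI (Tm Tok names tokz Valid prob CoRP pairCode)
open Pool.Agent.TE (bl)
open Pool.Agent.H.MP_5be563_lc.PT

theorem accept_prob {x : List Bool} (h : x ∉ identitiesCT) {p : Polynomial ℕ}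
    (hp : ∀ n, p.eval n = KK n * AA n) :
    prob (p.eval x.length) (fun r => accept x r = true) ≤ 1 / 2 := by
  unfold prob
  rw [hp]
  change (TW.cnt (KK x.length * AA x.length) (fun r => accept x r = true) : ℝ) /
    2 ^ (KK x.length * AA x.length) ≤ 1 / 2
  by_cases hc : ∃ s t : Tm, CT s ∧ CT t ∧ x = s.code ++ t.code
  · obtain ⟨s, t, hs, ht, hx⟩ := hc
    have hv : ¬ Valid s t := fun hv => h ⟨s, t, hs, ht, hv, hx⟩
    have hn : s.sz + t.sz ≤ x.length := by
      rw [hx, List.length_append]
      exact Nat.add_le_add s.sz_le_code t.sz_le_code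
    have h1 := test1_cnt hs ht hn hv
    have hw : 1 ≤ 4 * vv x.length := by
      unfold vv uu
      omega
    have h2 := TI.amp hw h1
    have h3 : TW.cnt (KK x.length * AA x.length) (fun r => accept x r = true) =
        TW.cnt (AA x.length) (fun z => test1 x.length (s.toks ++ t.toks) z = true) ^
          KK x.length := by
      rw [← TW.cnt_blocks]
      congr 1
      funext r
      exact propext (accept_code hs ht hx r)
    have h4 : 4 * TW.cnt (KK x.length * AA x.length) (fun r => accept x r = true) ≤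
        2 ^ (KK x.length * AA x.length) := by
      rw [h3, mul_comm (KK x.length) (AA x.length), pow_mul]
      exact h2
    rw [div_le_iff₀ (by positivity)]
    have h5 : (4 : ℝ) * (TW.cnt (KK x.length * AA x.length) (fun r => accept x r = true) : ℝ) ≤
        2 ^ (KK x.length * AA x.length) := by exact_mod_cast h4
    have h6 : (0 : ℝ) ≤ (TW.cnt (KK x.length * AA x.length) (fun r => accept x r = true) : ℝ) :=
      Nat.cast_nonneg _
    linarith
  · have h2 : TW.cnt (KK x.length * AA x.length) (fun r => accept x r = true) = 0 := by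
      unfold TW.cnt
      rw [Nat.card_eq_zero]
      left
      refine ⟨fun ρ => hc ?_⟩
      exact accept_imp ρ.2
    rw [h2]
    norm_num

theorem corp_CT : CoRP identitiesCT := by
  obtain ⟨p, hp⟩ := exists_p
  exact ⟨p, fun z => accept z.1 z.2, tm_accept, fun x => ⟨fun h r => accept_valid h r,
    fun h => accept_prob h hp⟩⟩

theorem mem_identitiesCT_iff (s t : Tm) :
    s.code ++ t.code ∈ identitiesCT ↔ CT s ∧ CT t ∧ Valid s t := by
  constructor
  · rintro ⟨s', t', hs, ht, hv, hx⟩
    have h1 := TI.code_inj (a₁ := (s, t)) (a₂ := (s', t')) hx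
    rw [Prod.mk.injEq] at h1
    rw [h1.1, h1.2]
    exact ⟨hs, ht, hv⟩
  · rintro ⟨hs, ht, hv⟩
    exact ⟨s, t, hs, ht, hv, rfl⟩

end Pool.Agent.TC
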