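import Pool.Agent.H.MP_b2d7dd_lc.TC.Nu

/-!
# Module Nb: bounds for the numerators

`Dg A m P`: the exponents of `P` are sums of at most `m` logarithms of elements of `A` (both
characters), the parameters have exponents at most `m`.
-/

namespace Pool.Agent.TC

open Pool.Agent.TI (Tm)

variable {W : Finset (List Bool)} {κ : ℕ} {mu : ℕ → ℕ → ℕ} {A : Set Tm}

/-- Bounded exponents. -/
def Dg (W : Finset (List Bool)) (A : Set Tm) (m : ℕ) (P : Lx W) : Prop :=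
  ∀ g ∈ P.coeff.support, ∃ l1 l2 : List (Pt W → ℝ), l1.length ≤ m ∧ l2.length ≤ m ∧
    (∀ v ∈ l1, v ∈ lr W '' A) ∧ (∀ v ∈ l2, v ∈ lr W '' A) ∧ g.1 = l1.sum ∧ g.2.1 = l2.sum ∧
      ∀ x, g.2.2 x ≤ m

theorem Dg.mono {m m' : ℕ} {P : Lx W} (h : Dg W A m P) (hm : m ≤ m') : Dg W A m' P := by
  intro g hg
  obtain ⟨l1, l2, h1, h2, h3, h4, h5, h6, h7⟩ := h g hg
  exact ⟨l1, l2, h1.trans hm, h2.trans hm, h3, h4, h5, h6, fun x => (h7 x).trans hm⟩

theorem Dg.add {m : ℕ} {P Q : Lx W} (hP : Dg W A m P) (hQ : Dg W A m Q) : Dg W A m (P + Q) := by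
  classical
  intro g hg
  rw [AddMonoidAlgebra.coeff_add] at hg
  rcases Finset.mem_union.1 (Finsupp.support_add hg) with h | h
  · exact hP g h
  · exact hQ g h

theorem Dg.mul {m m' : ℕ} {P Q : Lx W} (hP : Dg W A m P) (hQ : Dg W A m' Q) :
    Dg W A (m + m') (P * Q) := by
  classical
  intro g hg
  obtain ⟨a, ha, b, hb, rfl⟩ := Finset.mem_add.1 (AddMonoidAlgebra.support_coeff_mul_subset P Q hg)
  obtain ⟨l1, l2, h1, h2, h3, h4, h5, h6, h7⟩ := hP a ha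
  obtain ⟨k1, k2, i1, i2, i3, i4, i5, i6, i7⟩ := hQ b hb
  refine ⟨l1 ++ k1, l2 ++ k2, ?_, ?_, ?_, ?_, ?_, ?_, ?_⟩
  · rw [List.length_append]
    exact Nat.add_le_add h1 i1
  · rw [List.length_append]
    exact Nat.add_le_add h2 i2
  · intro v hv
    rcases List.mem_append.1 hv with h | h
    · exact h3 v h
    · exact i3 v h
  · intro v hv
    rcases List.mem_append.1 hv with h | h
    · exact h4 v h
    · exact i4 v h
  · rw [List.sum_append, ← h5, ← i5]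
    rfl
  · rw [List.sum_append, ← h6, ← i6]
    rfl
  · intro x
    exact Nat.add_le_add (h7 x) (i7 x)

private theorem Nb_single {m : ℕ} {g : Gx W} (c : ℤ) (l1 l2 : List (Pt W → ℝ))
    (h1 : l1.length ≤ m) (h2 : l2.length ≤ m) (h3 : ∀ v ∈ l1, v ∈ lr W '' A)
    (h4 : ∀ v ∈ l2, v ∈ lr W '' A) (h5 : g.1 = l1.sum) (h6 : g.2.1 = l2.sum)
    (h7 : ∀ x, g.2.2 x ≤ m) : Dg W A m (AddMonoidAlgebra.single g c) := by
  intro h hh
  rw [AddMonoidAlgebra.coeff_single] at hh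
  have e := Finset.mem_singleton.1 (Finsupp.support_single_subset hh)
  rw [e]
  exact ⟨l1, l2, h1, h2, h3, h4, h5, h6, h7⟩

private theorem Nb_one {m : ℕ} : Dg W A m (1 : Lx W) := by
  rw [AddMonoidAlgebra.one_def]
  exact Nb_single 1 [] [] (Nat.zero_le m) (Nat.zero_le m) (by simp) (by simp) rfl rfl
    (fun x => Nat.zero_le m)

private theorem Nb_zero {m : ℕ} : Dg W A m (0 : Lx W) := by
  intro g hg
  rw [AddMonoidAlgebra.coeff_zero, Finsupp.support_zero] at hg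
  exact absurd hg (Finset.notMem_empty g)

private theorem Nb_zsmul {m : ℕ} {P : Lx W} (hP : Dg W A m P) (n : ℤ) : Dg W A m (n • P) := by
  intro g hg
  refine hP g ?_
  rw [Finsupp.mem_support_iff] at hg ⊢
  intro h0
  apply hg
  rw [AddMonoidAlgebra.coeff_smul_apply, smul_eq_mul, h0, mul_zero]

theorem Dg.prod {J : Type} (s : Finset J) (m : ℕ) (P : J → Lx W)
    (h : ∀ j ∈ s, Dg W A m (P j)) : Dg W A (s.card * m) (∏ j ∈ s, P j) := by
  classical
  induction s using Finset.induction_on with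
  | empty =>
    rw [Finset.prod_empty]
    exact Nb_one
  | insert a s ha ih =>
    rw [Finset.prod_insert ha, Finset.card_insert_of_notMem ha]
    refine ((h a (Finset.mem_insert_self a s)).mul
      (ih fun j hj => h j (Finset.mem_insert_of_mem hj))).mono (le_of_eq ?_)
    ring

theorem Dg.sum {J : Type} (s : Finset J) (m : ℕ) (P : J → Lx W)
    (h : ∀ j ∈ s, Dg W A m (P j)) : Dg W A m (∑ j ∈ s, P j) := by
  classical
  induction s using Finset.induction_on with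
  | empty =>
    rw [Finset.sum_empty]
    exact Nb_zero
  | insert a s ha ih =>
    rw [Finset.sum_insert ha]
    exact (h a (Finset.mem_insert_self a s)).add
      (ih fun j hj => h j (Finset.mem_insert_of_mem hj))

/-- The numbers `e1` of the bases are products of powers of the coprime base with at most `sz`
factors. -/
def Mu (κ : ℕ) (mu : ℕ → ℕ → ℕ) (t : Tm) : Prop :=
  ∀ a ∈ bases t, ∑ k ∈ Finset.range κ, mu k (e1 a) ≤ a.sz

private theorem Nb_h1 {a : Tm} (ha : a ∈ A) : Dg W A 1 (h1 W (lr W a)) := by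
  refine Nb_single 1 [lr W a] [] le_rfl (Nat.zero_le 1) ?_ (by simp) ?_ rfl
    (fun x => Nat.zero_le 1)
  · intro v hv
    rw [List.mem_singleton] at hv
    rw [hv]
    exact Set.mem_image_of_mem _ ha
  · rw [List.sum_singleton]

private theorem Nb_h2 {a : Tm} (ha : a ∈ A) : Dg W A 1 (h2 W (lr W a)) := by
  refine Nb_single 1 [] [lr W a] (Nat.zero_le 1) le_rfl (by simp) ?_ rfl ?_
    (fun x => Nat.zero_le 1)
  · intro v hv
    rw [List.mem_singleton] at hv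
    rw [hv]
    exact Set.mem_image_of_mem _ ha
  · rw [List.sum_singleton]

private theorem Nb_fs (y x : List Bool ⊕ ℕ) :
    (Finsupp.single y 1 : (List Bool ⊕ ℕ) →₀ ℕ) x ≤ 1 := by
  classical
  rw [Finsupp.single_apply]
  split_ifs
  · exact le_rfl
  · exact Nat.zero_le 1

private theorem Nb_al (w : List Bool) : Dg W A 1 (al W w) :=
  Nb_single 1 [] [] (Nat.zero_le 1) (Nat.zero_le 1) (by simp) (by simp) rfl rfl
    (fun x => Nb_fs _ x)

private theorem Nb_ga (k : ℕ) : Dg W A 1 (ga W k) :=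
  Nb_single 1 [] [] (Nat.zero_le 1) (Nat.zero_le 1) (by simp) (by simp) rfl rfl
    (fun x => Nb_fs _ x)

private theorem Nb_lcP (n : ℕ) : Dg W A 1 (lcP W κ mu n) :=
  Dg.sum _ _ _ fun k _ => Nb_zsmul (Nb_ga k) _

private theorem Nb_dgp {a b : Tm} (ha : Dg W A a.sz (hP W a)) (hb : Dg W A b.sz (rP W b))
    (hn : Dg W A (a.sz ^ 2) (dn W a)) (hd : Dg W A (3 * a.sz ^ 2) (dP W κ mu a)) :
    Dg W A (b.sz + (3 * a.sz ^ 2 + 1))
      (rP W b * (dP W κ mu a + lcP W κ mu (e1 a) * dn W a * hP W a)) := by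
  have h0 := Tm.sz_pos a
  refine hb.mul ((hd.mono (by omega)).add ((((Nb_lcP (e1 a)).mul hn).mul ha).mono ?_))
  nlinarith

theorem dg_P (hA : ClA A) {t : Tm} (ht : ats t ⊆ A) : Dg W A t.sz (hP W t) ∧
    Dg W A t.sz (rP W t) ∧ Dg W A (t.sz ^ 2) (dn W t) ∧
      Dg W A (3 * t.sz ^ 2) (dP W κ mu t) := by
  induction t with
  | one =>
    exact ⟨Nb_one, Nb_one, Nb_one, Nb_zero⟩
  | var w =>
    have hw : Tm.var w ∈ A := ht rfl
    refine ⟨Nb_h1 hw, Nb_h2 hw, Nb_one, ?_⟩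
    exact ((Nb_h1 hw).mul (Nb_al w)).mono (by simp [Tm.sz])
  | add s t ihs iht =>
    obtain ⟨a1, a2, a3, a4⟩ := ihs (Set.subset_union_left.trans ht)
    obtain ⟨b1, b2, b3, b4⟩ := iht (Set.subset_union_right.trans ht)
    have e : (Tm.add s t).sz = s.sz + t.sz + 1 := rfl
    rw [e]
    refine ⟨?_, ?_, ?_, ?_⟩
    · exact (a1.mono (by omega)).add (b1.mono (by omega))
    · exact (a2.mono (by omega)).add (b2.mono (by omega))
    · exact (a3.mul b3).mono (by nlinarith)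
    · exact ((a4.mul b3).mono (by nlinarith)).add ((a3.mul b4).mono (by nlinarith))
  | mul s t ihs iht =>
    obtain ⟨a1, a2, a3, a4⟩ := ihs (Set.subset_union_left.trans ht)
    obtain ⟨b1, b2, b3, b4⟩ := iht (Set.subset_union_right.trans ht)
    have e : (Tm.mul s t).sz = s.sz + t.sz + 1 := rfl
    rw [e]
    refine ⟨?_, ?_, ?_, ?_⟩
    · exact (a1.mul b1).mono (by omega)
    · exact (a2.mul b2).mono (by omega)
    · exact (a3.mul b3).mono (by nlinarith)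
    · exact (((a4.mul b1).mul b3).mono (by nlinarith)).add
        (((a1.mul a3).mul b4).mono (by nlinarith))
  | pow a b iha ihb =>
    have hab : Tm.pow a b ∈ A := ht rfl
    obtain ⟨hsa, hsb⟩ := hA a b hab
    obtain ⟨a1, a2, a3, a4⟩ := iha hsa
    obtain ⟨b1, b2, b3, b4⟩ := ihb hsb
    have e : (Tm.pow a b).sz = a.sz + b.sz + 1 := rfl
    rw [e]
    refine ⟨?_, ?_, ?_, ?_⟩
    · exact (Nb_h1 hab).mono (by omega)
    · exact (Nb_h2 hab).mono (by omega)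
    · exact (a3.mul a1).mono (by nlinarith)
    · exact ((Nb_h1 hab).mul (Nb_dgp a1 b2 a3 a4)).mono (by nlinarith)

theorem dg_ph (hA : ClA A) {a b : Tm} (ha : ats a ⊆ A) (hb : ats b ⊆ A) :
    Dg W A (3 * (Tm.pow a b).sz ^ 2) (phP W κ mu (.pow a b)) := by
  obtain ⟨a1, a2, a3, a4⟩ := dg_P (W := W) (κ := κ) (mu := mu) hA ha
  obtain ⟨b1, b2, b3, b4⟩ := dg_P (W := W) (κ := κ) (mu := mu) hA hb
  have e : (Tm.pow a b).sz = a.sz + b.sz + 1 := rfl
  rw [e]
  exact (Nb_dgp a1 b2 a3 a4).mono (by nlinarith)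

private theorem Nb_two {x y z : ℕ} (hx : x + 1 ≤ z) (hy : y + 1 ≤ z) :
    2 ^ x + 2 ^ y ≤ 2 ^ z := by
  have h1 : 2 ^ x ≤ 2 ^ (z - 1) := Nat.pow_le_pow_right (by norm_num) (by omega)
  have h2 : 2 ^ y ≤ 2 ^ (z - 1) := Nat.pow_le_pow_right (by norm_num) (by omega)
  have h3 : 2 ^ z = 2 ^ (z - 1) + 2 ^ (z - 1) := by
    have : z = (z - 1) + 1 := by omega
    conv_lhs => rw [this]
    rw [pow_succ]
    ring
  omega

private theorem Nb_le {x y : ℕ} (h : x ≤ y) : 2 ^ x ≤ 2 ^ y :=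
  Nat.pow_le_pow_right (by norm_num) h

private theorem Nb_mul {P Q : Lx W} {x y : ℕ} (hP : nrm P ≤ 2 ^ x) (hQ : nrm Q ≤ 2 ^ y) :
    nrm (P * Q) ≤ 2 ^ (x + y) := by
  rw [pow_add]
  exact nrm_mul.trans (Nat.mul_le_mul hP hQ)

private theorem Nb_add {P Q : Lx W} {x y z : ℕ} (hP : nrm P ≤ 2 ^ x) (hQ : nrm Q ≤ 2 ^ y)
    (hx : x + 1 ≤ z) (hy : y + 1 ≤ z) : nrm (P + Q) ≤ 2 ^ z :=
  nrm_add.trans ((Nat.add_le_add hP hQ).trans (Nb_two hx hy))

private theorem Nb_n1 (g : Gx W) (x : ℕ) : nrm (AddMonoidAlgebra.single g 1 : Lx W) ≤ 2 ^ x := by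
  rw [nrm_single, Int.natAbs_one]
  exact Nat.one_le_two_pow

private theorem Nb_nlc {a : Tm} (h : ∑ k ∈ Finset.range κ, mu k (e1 a) ≤ a.sz) :
    nrm (lcP W κ mu (e1 a)) ≤ 2 ^ a.sz := by
  refine (nrm_sum _ _).trans (le_trans ?_ (h.trans Nat.lt_two_pow_self.le))
  refine Finset.sum_le_sum fun k _ => ?_
  rw [nrm_zsmul, Int.natAbs_natCast, ga, nrm_single, Int.natAbs_one, mul_one]

theorem nrm_P (t : Tm) : nrm (hP W t) ≤ 2 ^ t.sz ∧ nrm (rP W t) ≤ 2 ^ t.sz ∧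
    nrm (dn W t) ≤ 2 ^ t.sz ^ 2 := by
  induction t with
  | one =>
    have h1 : nrm (1 : Lx W) = 1 := nrm_one
    refine ⟨?_, ?_, ?_⟩
    · change nrm (1 : Lx W) ≤ _
      rw [h1]
      exact Nat.one_le_two_pow
    · change nrm (1 : Lx W) ≤ _
      rw [h1]
      exact Nat.one_le_two_pow
    · change nrm (1 : Lx W) ≤ _
      rw [h1]
      exact Nat.one_le_two_pow
  | var w =>
    refine ⟨Nb_n1 _ _, Nb_n1 _ _, ?_⟩
    change nrm (1 : Lx W) ≤ _
    rw [nrm_one]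
    exact Nat.one_le_two_pow
  | add s t ihs iht =>
    obtain ⟨a1, a2, a3⟩ := ihs
    obtain ⟨b1, b2, b3⟩ := iht
    have e : (Tm.add s t).sz = s.sz + t.sz + 1 := rfl
    rw [e]
    refine ⟨?_, ?_, ?_⟩
    · exact Nb_add a1 b1 (by omega) (by omega)
    · exact Nb_add a2 b2 (by omega) (by omega)
    · exact (Nb_mul a3 b3).trans (Nb_le (by nlinarith))
  | mul s t ihs iht =>
    obtain ⟨a1, a2, a3⟩ := ihs
    obtain ⟨b1, b2, b3⟩ := iht
    have e : (Tm.mul s t).sz = s.sz + t.sz + 1 := rfl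
    rw [e]
    refine ⟨?_, ?_, ?_⟩
    · exact (Nb_mul a1 b1).trans (Nb_le (by omega))
    · exact (Nb_mul a2 b2).trans (Nb_le (by omega))
    · exact (Nb_mul a3 b3).trans (Nb_le (by nlinarith))
  | pow a b iha _ =>
    obtain ⟨a1, a2, a3⟩ := iha
    have e : (Tm.pow a b).sz = a.sz + b.sz + 1 := rfl
    refine ⟨Nb_n1 _ _, Nb_n1 _ _, ?_⟩
    rw [e]
    exact (Nb_mul a3 a1).trans (Nb_le (by nlinarith))

private theorem Nb_nph {a b : Tm} (h : ∑ k ∈ Finset.range κ, mu k (e1 a) ≤ a.sz)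
    (hd : nrm (dP W κ mu a) ≤ 2 ^ (3 * a.sz ^ 2)) :
    nrm (rP W b * (dP W κ mu a + lcP W κ mu (e1 a) * dn W a * hP W a)) ≤
      2 ^ (b.sz + (3 * a.sz ^ 2 + 1)) := by
  have h0 := Tm.sz_pos a
  obtain ⟨a1, a2, a3⟩ := nrm_P (W := W) a
  obtain ⟨b1, b2, b3⟩ := nrm_P (W := W) b
  exact Nb_mul b2 (Nb_add hd (Nb_mul (Nb_mul (Nb_nlc h) a3) a1) le_rfl (by nlinarith))

theorem nrm_dP {t : Tm} (h : Mu κ mu t) : nrm (dP W κ mu t) ≤ 2 ^ (3 * t.sz ^ 2) := by
  induction t with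
  | one =>
    change nrm (0 : Lx W) ≤ _
    rw [nrm_zero]
    exact Nat.zero_le _
  | var w =>
    refine (Nb_mul (x := 0) (y := 0) (Nb_n1 _ _) (Nb_n1 _ _)).trans (Nb_le ?_)
    exact Nat.zero_le _
  | add s t ihs iht =>
    have a4 := ihs fun a ha => h a (Or.inl ha)
    have b4 := iht fun a ha => h a (Or.inr ha)
    obtain ⟨a1, a2, a3⟩ := nrm_P (W := W) s
    obtain ⟨b1, b2, b3⟩ := nrm_P (W := W) t
    have e : (Tm.add s t).sz = s.sz + t.sz + 1 := rfl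
    rw [e]
    exact Nb_add (Nb_mul a4 b3) (Nb_mul a3 b4) (by nlinarith) (by nlinarith)
  | mul s t ihs iht =>
    have a4 := ihs fun a ha => h a (Or.inl ha)
    have b4 := iht fun a ha => h a (Or.inr ha)
    obtain ⟨a1, a2, a3⟩ := nrm_P (W := W) s
    obtain ⟨b1, b2, b3⟩ := nrm_P (W := W) t
    have e : (Tm.mul s t).sz = s.sz + t.sz + 1 := rfl
    rw [e]
    exact Nb_add (Nb_mul (Nb_mul a4 b1) b3) (Nb_mul (Nb_mul a1 a3) b4) (by nlinarith)
      (by nlinarith)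
  | pow a b iha _ =>
    have a4 := iha fun c hc => h c (Or.inr hc)
    have h5 := h a (Or.inl rfl)
    have e : (Tm.pow a b).sz = a.sz + b.sz + 1 := rfl
    rw [e]
    refine (Nb_mul (x := 0) (Nb_n1 _ _) (Nb_nph (b := b) h5 a4)).trans (Nb_le ?_)
    nlinarith

theorem nrm_ph {t : Tm} (h : Mu κ mu t) : nrm (phP W κ mu t) ≤ 2 ^ (3 * t.sz ^ 2) := by
  cases t with
  | one =>
    change nrm (0 : Lx W) ≤ _
    rw [nrm_zero]
    exact Nat.zero_le _
  | var w => exact Nb_n1 _ _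
  | add s t =>
    change nrm (0 : Lx W) ≤ _
    rw [nrm_zero]
    exact Nat.zero_le _
  | mul s t =>
    change nrm (0 : Lx W) ≤ _
    rw [nrm_zero]
    exact Nat.zero_le _
  | pow a b =>
    have a4 := nrm_dP (W := W) (t := a) fun c hc => h c (Or.inr hc)
    have h5 := h a (Or.inl rfl)
    have e : (Tm.pow a b).sz = a.sz + b.sz + 1 := rfl
    rw [e]
    refine (Nb_nph (b := b) h5 a4).trans (Nb_le ?_)
    nlinarith

end Pool.Agent.TC
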