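import Pool.Agent.H.MP_b2d7dd_lc.TC.Dl

/-!
# Module Nu: numerators of the first order data

`Lx W` = the monoid ring with exponents (function, function, parameters); the parameters are `inl w`
for the variables and `inr k` for the coprime base. `dn t` = the denominator, `dP t` = the numerator of
`dl`, `phP t` = the numerator of `ph`. `bases t` = the bases of the powers outside of exponents.
-/

namespace Pool.Agent.TC

open Pool.Agent.TI (Tm)

/-- The exponents. -/
abbrev Gx (W : Finset (List Bool)) : Type :=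
  (Pt W → ℝ) × (Pt W → ℝ) × ((List Bool ⊕ ℕ) →₀ ℕ)

/-- The ring. -/
abbrev Lx (W : Finset (List Bool)) : Type := AddMonoidAlgebra ℤ (Gx W)

instance (W : Finset (List Bool)) : IsDomain (Lx W) := inferInstance

variable (W : Finset (List Bool)) (κ : ℕ) (mu : ℕ → ℕ → ℕ)

/-- The first character. -/
noncomputable def h1 (v : Pt W → ℝ) : Lx W := AddMonoidAlgebra.single (v, 0, 0) 1

/-- The second character. -/
noncomputable def h2 (v : Pt W → ℝ) : Lx W := AddMonoidAlgebra.single (0, v, 0) 1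

/-- The parameter of a variable. -/
noncomputable def al (w : List Bool) : Lx W :=
  AddMonoidAlgebra.single (0, 0, Finsupp.single (Sum.inl w) 1) 1

/-- The parameter of an element of the coprime base. -/
noncomputable def ga (k : ℕ) : Lx W :=
  AddMonoidAlgebra.single (0, 0, Finsupp.single (Sum.inr k) 1) 1

/-- The value for the first character. -/
noncomputable def hP (t : Tm) : Lx W := av (fun a => h1 W (lr W a)) t

/-- The value for the second character. -/
noncomputable def rP (t : Tm) : Lx W := av (fun a => h2 W (lr W a)) t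

/-- The logarithm of a number. -/
noncomputable def lcP (n : ℕ) : Lx W := ∑ k ∈ Finset.range κ, (mu k n : ℤ) • ga W k

/-- The denominator. -/
noncomputable def dn : Tm → Lx W
  | .one => 1
  | .var _ => 1
  | .add s t => dn s * dn t
  | .mul s t => dn s * dn t
  | .pow a _ => dn a * hP W a

/-- The numerator of the derivation. -/
noncomputable def dP : Tm → Lx W
  | .one => 0
  | .var w => h1 W (lr W (.var w)) * al W w
  | .add s t => dP s * dn W t + dn W s * dP t
  | .mul s t => dP s * hP W t * dn W t + hP W s * dn W s * dP t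
  | .pow a b => h1 W (lr W (.pow a b)) *
      (rP W b * (dP a + lcP W κ mu (e1 a) * dn W a * hP W a))

/-- The numerator of the logarithmic derivative. -/
noncomputable def phP : Tm → Lx W
  | .var w => al W w
  | .pow a b => rP W b * (dP W κ mu a + lcP W κ mu (e1 a) * dn W a * hP W a)
  | _ => 0

/-- The bases of the powers outside of exponents. -/
def bases : Tm → Set Tm
  | .one => ∅
  | .var _ => ∅
  | .add s t => bases s ∪ bases t
  | .mul s t => bases s ∪ bases t
  | .pow a _ => insert a (bases a)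

/-- The set contains the variables and powers outside of powers of the bases and exponents of its
powers. -/
def ClA (A : Set Tm) : Prop := ∀ a b, Tm.pow a b ∈ A → ats a ⊆ A ∧ ats b ⊆ A

/-- The exponents given by a set of terms. -/
noncomputable def Sg (A : Set Tm) : AddSubmonoid (Gx W) := (VA W A).prod ((VA W A).prod ⊤)

variable {W κ mu} {K : Type} [CommRing K] {A : Set Tm} {f : Gx W → K} {P : Pr K}

private theorem Nu_h1 {v : Pt W → ℝ} (hv : v ∈ VA W A) : Su (Sg W A) (h1 W v) :=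
  Su.single (AddSubmonoid.mem_prod.2
    ⟨hv, AddSubmonoid.mem_prod.2 ⟨(VA W A).zero_mem, AddSubmonoid.mem_top _⟩⟩) 1

private theorem Nu_h2 {v : Pt W → ℝ} (hv : v ∈ VA W A) : Su (Sg W A) (h2 W v) :=
  Su.single (AddSubmonoid.mem_prod.2
    ⟨(VA W A).zero_mem, AddSubmonoid.mem_prod.2 ⟨hv, AddSubmonoid.mem_top _⟩⟩) 1

private theorem Nu_al (w : List Bool) : Su (Sg W A) (al W w) :=
  Su.single (AddSubmonoid.mem_prod.2
    ⟨(VA W A).zero_mem, AddSubmonoid.mem_prod.2
      ⟨(VA W A).zero_mem, AddSubmonoid.mem_top _⟩⟩) 1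

private theorem Nu_ga (k : ℕ) : Su (Sg W A) (ga W k) :=
  Su.single (AddSubmonoid.mem_prod.2
    ⟨(VA W A).zero_mem, AddSubmonoid.mem_prod.2
      ⟨(VA W A).zero_mem, AddSubmonoid.mem_top _⟩⟩) 1

private theorem Nu_lc (n : ℕ) : Su (Sg W A) (lcP W κ mu n) :=
  Su.sum _ _ fun k _ => Su.zsmul (Nu_ga k) _

private theorem Nu_hr {t : Tm} (ht : ats t ⊆ A) :
    Su (Sg W A) (hP W t) ∧ Su (Sg W A) (rP W t) := by
  induction t with
  | one => exact ⟨Su.one, Su.one⟩
  | var w =>
    have hw : Tm.var w ∈ A := ht (Set.mem_singleton _)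
    exact ⟨Nu_h1 (lr_mem_VA hw), Nu_h2 (lr_mem_VA hw)⟩
  | add s t hs ht' =>
    obtain ⟨a1, a2⟩ := hs (fun x hx => ht (Or.inl hx))
    obtain ⟨b1, b2⟩ := ht' (fun x hx => ht (Or.inr hx))
    exact ⟨Su.add a1 b1, Su.add a2 b2⟩
  | mul s t hs ht' =>
    obtain ⟨a1, a2⟩ := hs (fun x hx => ht (Or.inl hx))
    obtain ⟨b1, b2⟩ := ht' (fun x hx => ht (Or.inr hx))
    exact ⟨Su.mul a1 b1, Su.mul a2 b2⟩
  | pow s t _ _ =>
    have hw : Tm.pow s t ∈ A := ht (Set.mem_singleton _)
    exact ⟨Nu_h1 (lr_mem_VA hw), Nu_h2 (lr_mem_VA hw)⟩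

private theorem Nu_pow (hA : ClA A) {a b : Tm} (ht : ats (.pow a b) ⊆ A) :
    ats a ⊆ A ∧ ats b ⊆ A := hA a b (ht (Set.mem_singleton _))

private theorem Nu_dd (hA : ClA A) {t : Tm} (ht : ats t ⊆ A) :
    Su (Sg W A) (dn W t) ∧ Su (Sg W A) (dP W κ mu t) := by
  induction t with
  | one => exact ⟨Su.one, Su.zero⟩
  | var w =>
    have hw : Tm.var w ∈ A := ht (Set.mem_singleton _)
    exact ⟨Su.one, Su.mul (Nu_h1 (lr_mem_VA hw)) (Nu_al w)⟩
  | add s t hs ht' =>
    obtain ⟨a1, a2⟩ := hs (fun x hx => ht (Or.inl hx))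
    obtain ⟨b1, b2⟩ := ht' (fun x hx => ht (Or.inr hx))
    exact ⟨Su.mul a1 b1, Su.add (Su.mul a2 b1) (Su.mul a1 b2)⟩
  | mul s t hs ht' =>
    have cs : ats s ⊆ A := fun x hx => ht (Or.inl hx)
    have ct : ats t ⊆ A := fun x hx => ht (Or.inr hx)
    obtain ⟨a1, a2⟩ := hs cs
    obtain ⟨b1, b2⟩ := ht' ct
    exact ⟨Su.mul a1 b1, Su.add (Su.mul (Su.mul a2 (Nu_hr ct).1) b1)
      (Su.mul (Su.mul (Nu_hr cs).1 a1) b2)⟩
  | pow a b ha _ =>
    have hw : Tm.pow a b ∈ A := ht (Set.mem_singleton _)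
    obtain ⟨ca, cb⟩ := Nu_pow hA ht
    obtain ⟨a1, a2⟩ := ha ca
    exact ⟨Su.mul a1 (Nu_hr ca).1, Su.mul (Nu_h1 (lr_mem_VA hw)) (Su.mul (Nu_hr cb).2
      (Su.add a2 (Su.mul (Su.mul (Nu_lc _) a1) (Nu_hr ca).1)))⟩

/-- The numerators are given by exponents in `Sg`. -/
theorem su_P (hA : ClA A) {t : Tm} (ht : ats t ⊆ A) : Su (Sg W A) (hP W t) ∧
    Su (Sg W A) (rP W t) ∧ Su (Sg W A) (dn W t) ∧ Su (Sg W A) (dP W κ mu t) :=
  ⟨(Nu_hr ht).1, (Nu_hr ht).2, (Nu_dd (κ := κ) (mu := mu) hA ht).1, (Nu_dd hA ht).2⟩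

theorem su_ph (hA : ClA A) {a b : Tm} (ha : ats a ⊆ A) (hb : ats b ⊆ A) :
    Su (Sg W A) (phP W κ mu (.pow a b)) :=
  Su.mul (Nu_hr hb).2 (Su.add (Nu_dd hA ha).2
    (Su.mul (Su.mul (Nu_lc _) (Nu_dd (κ := κ) (mu := mu) hA ha).1) (Nu_hr ha).1))

/-- The values fit to the parameters. -/
structure Fit (W : Finset (List Bool)) (κ : ℕ) (mu : ℕ → ℕ → ℕ) (A : Set Tm) (f : Gx W → K)
    (P : Pr K) : Prop where
  mo : Mo (Sg W A) f
  hf : ∀ a ∈ A, P.f a = f (lr W a, 0, 0)
  hg : ∀ a ∈ A, P.g a = f (0, lr W a, 0)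
  hα : ∀ w, P.α w = f (0, 0, Finsupp.single (Sum.inl w) 1)

private theorem Nu_one (g : Gx W) : evl f (AddMonoidAlgebra.single g 1) = f g := by
  rw [evl_single, Int.cast_one, one_mul]

theorem evl_hP (hF : Fit W κ mu A f P) {t : Tm} (ht : ats t ⊆ A) :
    evl f (hP W t) = av P.f t ∧ evl f (rP W t) = av P.g t := by
  induction t with
  | one => exact ⟨evl_one hF.mo, evl_one hF.mo⟩
  | var w =>
    have hw : Tm.var w ∈ A := ht (Set.mem_singleton _)
    exact ⟨(Nu_one _).trans (hF.hf _ hw).symm, (Nu_one _).trans (hF.hg _ hw).symm⟩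
  | add s t hs ht' =>
    obtain ⟨a1, a2⟩ := hs (fun x hx => ht (Or.inl hx))
    obtain ⟨b1, b2⟩ := ht' (fun x hx => ht (Or.inr hx))
    constructor
    · have h : evl f (hP W s + hP W t) = av P.f s + av P.f t := by rw [evl_add, a1, b1]
      exact h
    · have h : evl f (rP W s + rP W t) = av P.g s + av P.g t := by rw [evl_add, a2, b2]
      exact h
  | mul s t hs ht' =>
    have cs : ats s ⊆ A := fun x hx => ht (Or.inl hx)
    have ct : ats t ⊆ A := fun x hx => ht (Or.inr hx)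
    obtain ⟨a1, a2⟩ := hs cs
    obtain ⟨b1, b2⟩ := ht' ct
    constructor
    · have h : evl f (hP W s * hP W t) = av P.f s * av P.f t := by
        rw [evl_mul hF.mo (Nu_hr cs).1 (Nu_hr ct).1, a1, b1]
      exact h
    · have h : evl f (rP W s * rP W t) = av P.g s * av P.g t := by
        rw [evl_mul hF.mo (Nu_hr cs).2 (Nu_hr ct).2, a2, b2]
      exact h
  | pow s t _ _ =>
    have hw : Tm.pow s t ∈ A := ht (Set.mem_singleton _)
    exact ⟨(Nu_one _).trans (hF.hf _ hw).symm, (Nu_one _).trans (hF.hg _ hw).symm⟩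

/-- The value of the logarithm of a number. -/
theorem evl_lcP (hF : Fit W κ mu A f P) (n : ℕ) : evl f (lcP W κ mu n) =
    ∑ k ∈ Finset.range κ, (mu k n : K) * f (0, 0, Finsupp.single (Sum.inr k) 1) := by
  unfold lcP
  rw [evl_sum]
  refine Finset.sum_congr rfl fun k _ => ?_
  rw [evl_zsmul, Int.cast_natCast]
  congr 1
  exact Nu_one _

/-- The value of the numerator of a base. -/
private theorem Nu_in (hA : ClA A) (hF : Fit W κ mu A f P) {a : Tm} (ha : ats a ⊆ A)
    (h1 : evl f (dP W κ mu a) = dl P a * evl f (dn W a))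
    (h2 : P.lc (e1 a) = ∑ k ∈ Finset.range κ, (mu k (e1 a) : K) *
        f (0, 0, Finsupp.single (Sum.inr k) 1)) :
    evl f (dP W κ mu a + lcP W κ mu (e1 a) * dn W a * hP W a) =
      (dl P a + P.lc (e1 a) * av P.f a) * evl f (dn W a) := by
  have s1 : Su (Sg W A) (dn W a) := (Nu_dd (κ := κ) (mu := mu) hA ha).1
  rw [evl_add, evl_mul hF.mo (Su.mul (Nu_lc _) s1) (Nu_hr ha).1, evl_mul hF.mo (Nu_lc _) s1, h1,
    evl_lcP hF, ← h2, (evl_hP hF ha).1]
  ring

/-- The values of the numerators. -/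
theorem evl_dP (hA : ClA A) (hF : Fit W κ mu A f P) {t : Tm} (ht : ats t ⊆ A)
    (hb : ∀ a ∈ bases t, av P.f a * P.iv (av P.f a) = 1 ∧
      P.lc (e1 a) = ∑ k ∈ Finset.range κ, (mu k (e1 a) : K) *
        f (0, 0, Finsupp.single (Sum.inr k) 1)) :
    evl f (dP W κ mu t) = dl P t * evl f (dn W t) := by
  induction t with
  | one =>
    have h : evl f (0 : Lx W) = 0 * evl f (1 : Lx W) := by rw [evl_zero, zero_mul]
    exact h
  | var w =>
    have hw : Tm.var w ∈ A := ht (Set.mem_singleton _)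
    have h : evl f (h1 W (lr W (.var w)) * al W w) =
        P.f (.var w) * P.α w * evl f (1 : Lx W) := by
      rw [evl_mul hF.mo (Nu_h1 (lr_mem_VA hw)) (Nu_al w), evl_one hF.mo, mul_one, hF.hf _ hw,
        hF.hα w]
      congr 1
      · exact Nu_one _
      · exact Nu_one _
    exact h
  | add s t hs ht' =>
    have cs : ats s ⊆ A := fun x hx => ht (Or.inl hx)
    have ct : ats t ⊆ A := fun x hx => ht (Or.inr hx)
    have a1 := hs cs (fun a ha => hb a (Or.inl ha))
    have b1 := ht' ct (fun a ha => hb a (Or.inr ha))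
    have s1 := Nu_dd (W := W) (κ := κ) (mu := mu) hA cs
    have t1 := Nu_dd (W := W) (κ := κ) (mu := mu) hA ct
    have h : evl f (dP W κ mu s * dn W t + dn W s * dP W κ mu t) =
        (dl P s + dl P t) * evl f (dn W s * dn W t) := by
      rw [evl_add, evl_mul hF.mo s1.2 t1.1, evl_mul hF.mo s1.1 t1.2, evl_mul hF.mo s1.1 t1.1,
        a1, b1]
      ring
    exact h
  | mul s t hs ht' =>
    have cs : ats s ⊆ A := fun x hx => ht (Or.inl hx)
    have ct : ats t ⊆ A := fun x hx => ht (Or.inr hx)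
    have a1 := hs cs (fun a ha => hb a (Or.inl ha))
    have b1 := ht' ct (fun a ha => hb a (Or.inr ha))
    have s1 := Nu_dd (W := W) (κ := κ) (mu := mu) hA cs
    have t1 := Nu_dd (W := W) (κ := κ) (mu := mu) hA ct
    have s2 := (Nu_hr (W := W) cs).1
    have t2 := (Nu_hr (W := W) ct).1
    have h : evl f (dP W κ mu s * hP W t * dn W t + hP W s * dn W s * dP W κ mu t) =
        (dl P s * av P.f t + av P.f s * dl P t) * evl f (dn W s * dn W t) := by
      rw [evl_add, evl_mul hF.mo (Su.mul s1.2 t2) t1.1, evl_mul hF.mo s1.2 t2,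
        evl_mul hF.mo (Su.mul s2 s1.1) t1.2, evl_mul hF.mo s2 s1.1, evl_mul hF.mo s1.1 t1.1,
        a1, b1, (evl_hP hF cs).1, (evl_hP hF ct).1]
      ring
    exact h
  | pow a b ha _ =>
    have hw : Tm.pow a b ∈ A := ht (Set.mem_singleton _)
    obtain ⟨ca, cb⟩ := Nu_pow hA ht
    have a1 := ha ca (fun c hc => hb c (Or.inr hc))
    obtain ⟨b1, b2⟩ := hb a (Or.inl rfl)
    have s1 := Nu_dd (W := W) (κ := κ) (mu := mu) hA ca
    have h : evl f (h1 W (lr W (.pow a b)) *
        (rP W b * (dP W κ mu a + lcP W κ mu (e1 a) * dn W a * hP W a))) =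
        P.f (.pow a b) * (av P.g b * (dl P a * P.iv (av P.f a) + P.lc (e1 a))) *
          evl f (dn W a * hP W a) := by
      have s3 : Su (Sg W A) (dP W κ mu a + lcP W κ mu (e1 a) * dn W a * hP W a) :=
        Su.add s1.2 (Su.mul (Su.mul (Nu_lc _) s1.1) (Nu_hr ca).1)
      have h4 : evl f (h1 W (lr W (.pow a b))) = P.f (.pow a b) :=
        (Nu_one _).trans (hF.hf _ hw).symm
      rw [evl_mul hF.mo (Nu_h1 (lr_mem_VA hw)) (Su.mul (Nu_hr cb).2 s3),
        evl_mul hF.mo (Nu_hr cb).2 s3, Nu_in hA hF ca a1 b2, evl_mul hF.mo s1.1 (Nu_hr ca).1,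
        h4, (evl_hP hF cb).2, (evl_hP hF ca).1]
      linear_combination (- (P.f (.pow a b) * av P.g b * dl P a * evl f (dn W a))) * b1
    exact h

theorem evl_phP (hA : ClA A) (hF : Fit W κ mu A f P) {a b : Tm} (ha : ats a ⊆ A)
    (hb' : ats b ⊆ A) (hb : ∀ c ∈ bases (.pow a b), av P.f c * P.iv (av P.f c) = 1 ∧
      P.lc (e1 c) = ∑ k ∈ Finset.range κ, (mu k (e1 c) : K) *
        f (0, 0, Finsupp.single (Sum.inr k) 1)) :
    evl f (phP W κ mu (.pow a b)) = ph P (.pow a b) * evl f (dn W (.pow a b)) := by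
  have a1 := evl_dP hA hF ha (fun c hc => hb c (Or.inr hc))
  obtain ⟨b1, b2⟩ := hb a (Or.inl rfl)
  have s1 := Nu_dd (W := W) (κ := κ) (mu := mu) hA ha
  have h : evl f (rP W b * (dP W κ mu a + lcP W κ mu (e1 a) * dn W a * hP W a)) =
      (av P.g b * (dl P a * P.iv (av P.f a) + P.lc (e1 a))) * evl f (dn W a * hP W a) := by
    have s3 : Su (Sg W A) (dP W κ mu a + lcP W κ mu (e1 a) * dn W a * hP W a) :=
      Su.add s1.2 (Su.mul (Su.mul (Nu_lc _) s1.1) (Nu_hr ha).1)
    rw [evl_mul hF.mo (Nu_hr hb').2 s3, Nu_in hA hF ha a1 b2, evl_mul hF.mo s1.1 (Nu_hr ha).1,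
      (evl_hP hF hb').2, (evl_hP hF ha).1]
    linear_combination (- (av P.g b * dl P a * evl f (dn W a))) * b1
  exact h

/-- The denominator is not zero if the values of the bases are units. -/
theorem dn_unit (hA : ClA A) (hF : Fit W κ mu A f P) {t : Tm} (ht : ats t ⊆ A)
    (hb : ∀ a ∈ bases t, IsUnit (av P.f a)) : IsUnit (evl f (dn W t)) := by
  induction t with
  | one =>
    have h : evl f (1 : Lx W) = 1 := evl_one hF.mo
    change IsUnit (evl f (1 : Lx W))
    rw [h]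
    exact isUnit_one
  | var w =>
    have h : evl f (1 : Lx W) = 1 := evl_one hF.mo
    change IsUnit (evl f (1 : Lx W))
    rw [h]
    exact isUnit_one
  | add s t hs ht' =>
    have cs : ats s ⊆ A := fun x hx => ht (Or.inl hx)
    have ct : ats t ⊆ A := fun x hx => ht (Or.inr hx)
    change IsUnit (evl f (dn W s * dn W t))
    rw [evl_mul hF.mo (Nu_dd (κ := κ) (mu := mu) hA cs).1 (Nu_dd (κ := κ) (mu := mu) hA ct).1]
    exact (hs cs (fun a ha => hb a (Or.inl ha))).mul (ht' ct (fun a ha => hb a (Or.inr ha)))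
  | mul s t hs ht' =>
    have cs : ats s ⊆ A := fun x hx => ht (Or.inl hx)
    have ct : ats t ⊆ A := fun x hx => ht (Or.inr hx)
    change IsUnit (evl f (dn W s * dn W t))
    rw [evl_mul hF.mo (Nu_dd (κ := κ) (mu := mu) hA cs).1 (Nu_dd (κ := κ) (mu := mu) hA ct).1]
    exact (hs cs (fun a ha => hb a (Or.inl ha))).mul (ht' ct (fun a ha => hb a (Or.inr ha)))
  | pow a b ha _ =>
    obtain ⟨ca, _⟩ := Nu_pow hA ht
    change IsUnit (evl f (dn W a * hP W a))
    rw [evl_mul hF.mo (Nu_dd (κ := κ) (mu := mu) hA ca).1 (Nu_hr ca).1, (evl_hP hF ca).1]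
    exact (ha ca (fun c hc => hb c (Or.inr hc))).mul (hb a (Or.inl rfl))

/-- If the value of the denominator is not zero, then the values of the bases are not zero. -/
theorem bases_ne (hA : ClA A) (hF : Fit W κ mu A f P) {t : Tm} (ht : ats t ⊆ A)
    (h : evl f (dn W t) ≠ 0) : ∀ a ∈ bases t, av P.f a ≠ 0 := by
  induction t with
  | one => exact fun a ha => absurd ha (Set.notMem_empty a)
  | var w => exact fun a ha => absurd ha (Set.notMem_empty a)
  | add s t hs ht' =>
    have cs : ats s ⊆ A := fun x hx => ht (Or.inl hx)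
    have ct : ats t ⊆ A := fun x hx => ht (Or.inr hx)
    change evl f (dn W s * dn W t) ≠ 0 at h
    rw [evl_mul hF.mo (Nu_dd (κ := κ) (mu := mu) hA cs).1
      (Nu_dd (κ := κ) (mu := mu) hA ct).1] at h
    rintro a (ha | ha)
    · exact hs cs (left_ne_zero_of_mul h) a ha
    · exact ht' ct (right_ne_zero_of_mul h) a ha
  | mul s t hs ht' =>
    have cs : ats s ⊆ A := fun x hx => ht (Or.inl hx)
    have ct : ats t ⊆ A := fun x hx => ht (Or.inr hx)
    change evl f (dn W s * dn W t) ≠ 0 at h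
    rw [evl_mul hF.mo (Nu_dd (κ := κ) (mu := mu) hA cs).1
      (Nu_dd (κ := κ) (mu := mu) hA ct).1] at h
    rintro a (ha | ha)
    · exact hs cs (left_ne_zero_of_mul h) a ha
    · exact ht' ct (right_ne_zero_of_mul h) a ha
  | pow a b ha _ =>
    obtain ⟨ca, _⟩ := Nu_pow hA ht
    change evl f (dn W a * hP W a) ≠ 0 at h
    rw [evl_mul hF.mo (Nu_dd (κ := κ) (mu := mu) hA ca).1 (Nu_hr ca).1, (evl_hP hF ca).1] at h
    rintro c (rfl | hc)
    · exact right_ne_zero_of_mul h
    · exact ha ca (left_ne_zero_of_mul h) c hc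

end Pool.Agent.TC
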