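import Pool.Agent.H.MP_b2d7dd_lc.TW.Nxt

/-!
# Module Par: parameters

Parameters for inputs of length `n`; compare TW/Nxt.
-/

namespace Pool.Agent.TC

open Pool.Agent.TW (NB pow2)
open Pool.Agent.H.MP_5be563_lc.PT

/-- Bits of the bound for the minors. -/
def eN (n : ℕ) : ℕ := (n + 3) * (n + 3) * ((n + 3) * (n + 3))

/-- Bits of the bound for the entries of the table. -/
def eP (n : ℕ) : ℕ := (2 * n + 1) * eN n

/-- Half of the number of bits of a random value. -/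
def uu (n : ℕ) : ℕ := eP n + 4 * eN n + 8 * n + 40

/-- Bits of a random value. -/
def vv (n : ℕ) : ℕ := 2 * uu n

/-- Bound for the number of elements of the coprime base. -/
def Kc (n : ℕ) : ℕ := (n + 7) * (n + 7)

/-- Number of random values for one hash. -/
def Qw (n : ℕ) : ℕ := 3 * (n + 1) + Kc n

/-- Number of hashes in one stage. -/
def Rr (n : ℕ) : ℕ := 6 * (n + 1)

/-- Number of steps of the Euclidean algorithm. -/
def kk (n : ℕ) : ℕ := 4 * vv n + 8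

/-- Number of random bits of a stage. -/
def SS (n : ℕ) : ℕ := Rr n * (Qw n * vv n)

/-- Number of random bits of a round. -/
def AA (n : ℕ) : ℕ := 2 * vv n + (n + 1) * SS n

/-- Number of rounds. -/
def KK (n : ℕ) : ℕ := 6 * (4 * vv n)

/-- Bound for the exponents. -/
def Ee (n : ℕ) : ℕ := 2 * (n + 3) ^ 3 * 2 ^ eP n

/-- The number of zeros of a Laurent polynomial of the test. -/
def Aa (n : ℕ) : ℕ := 2 * Ee n * Qw n + Qw n

/-- The number of random bits. -/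
theorem exists_p : ∃ p : Polynomial ℕ, ∀ n, p.eval n = KK n * AA n := by
  let e : Polynomial ℕ := (Polynomial.X + 3) * (Polynomial.X + 3) *
    ((Polynomial.X + 3) * (Polynomial.X + 3))
  let v : Polynomial ℕ := 2 * ((2 * Polynomial.X + 1) * e + 4 * e + 8 * Polynomial.X + 40)
  refine ⟨6 * (4 * v) * (2 * v + (Polynomial.X + 1) * (6 * (Polynomial.X + 1) *
    ((3 * (Polynomial.X + 1) + (Polynomial.X + 7) * (Polynomial.X + 7)) * v))), fun n => ?_⟩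
  simp only [v, e, Polynomial.eval_mul, Polynomial.eval_add, Polynomial.eval_X,
    Polynomial.eval_one, Polynomial.eval_ofNat, KK, AA, SS, Rr, Qw, Kc, vv, uu, eP, eN]

private theorem Par_succ (n : ℕ) : n + 1 ≤ 2 ^ n := Nat.lt_two_pow_self

private theorem Par_le {a b : ℕ} (h : a ≤ b) : 2 ^ a ≤ 2 ^ b :=
  Nat.pow_le_pow_right (by norm_num) h

theorem NB_le {n L : ℕ} (h : L ≤ n) : NB L (2 ^ (n + 3) ^ 3) ≤ 2 ^ eN n := by
  have h1 : L.factorial ≤ 2 ^ (L * L) := by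
    calc L.factorial ≤ L ^ L := Nat.factorial_le_pow L
      _ ≤ (2 ^ L) ^ L := Nat.pow_le_pow_left Nat.lt_two_pow_self.le L
      _ = 2 ^ (L * L) := by rw [← pow_mul]
  calc NB L (2 ^ (n + 3) ^ 3) ≤ 2 ^ (L * L) * (2 ^ (n + 3) ^ 3) ^ L := Nat.mul_le_mul_right _ h1
    _ = 2 ^ (L * L + (n + 3) ^ 3 * L) := by rw [← pow_mul, ← pow_add]
    _ ≤ 2 ^ eN n := Par_le (by
      have h2 : L * L ≤ n * n := Nat.mul_le_mul h h
      have h3 : (n + 3) ^ 3 * L ≤ (n + 3) ^ 3 * n := Nat.mul_le_mul_left _ h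
      have h4 : (n + 3) * (n + 3) * ((n + 3) * (n + 3)) = (n + 3) ^ 3 * n + (n + 3) ^ 3 * 3 := by
        ring
      have h5 : n * n ≤ (n + 3) ^ 3 * 3 := by
        have h6 : (n + 3) ^ 3 * 3 = n * n + (3 * n ^ 3 + 26 * n ^ 2 + 81 * n + 81) := by ring
        rw [h6]
        exact Nat.le_add_right _ _
      unfold eN
      rw [h4]
      omega)

/-- For the coherence. -/
theorem par_coh {n L r : ℕ} (h : L ≤ n) (hr : 2 ^ vv n < r) :
    (L + 1) * 2 ^ eN n * 2 ^ eP n < r := by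
  refine lt_of_le_of_lt ?_ hr
  calc (L + 1) * 2 ^ eN n * 2 ^ eP n ≤ 2 ^ n * 2 ^ eN n * 2 ^ eP n :=
        Nat.mul_le_mul_right _ (Nat.mul_le_mul_right _ ((Nat.succ_le_succ h).trans (Par_succ n)))
    _ = 2 ^ (n + eN n + eP n) := by rw [← pow_add, ← pow_add]
    _ ≤ 2 ^ vv n := Par_le (by unfold vv uu; omega)

theorem par_k {n x : ℕ} (h : x < 2 ^ (2 * vv n)) : x + 2 ≤ 2 ^ (kk n / 2) := by
  have h1 : kk n / 2 = 2 * vv n + 4 := by unfold kk; omega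
  rw [h1, pow_add]
  have h2 : 1 ≤ 2 ^ (2 * vv n) := Nat.one_le_two_pow
  omega

theorem par_N {n r : ℕ} (hr : 2 ^ vv n < r) : (2 ^ eN n) ^ 2 * (2 ^ eN n + 1) < r := by
  refine lt_of_le_of_lt ?_ hr
  have h2 : 1 ≤ 2 ^ eN n := Nat.one_le_two_pow
  calc (2 ^ eN n) ^ 2 * (2 ^ eN n + 1) ≤ (2 ^ eN n) ^ 2 * (2 ^ eN n * 2) :=
        Nat.mul_le_mul_left _ (by omega)
    _ = 2 ^ (eN n * 2 + (eN n + 1)) := by rw [← pow_mul, ← pow_succ, ← pow_add]
    _ ≤ 2 ^ vv n := Par_le (by unfold vv uu; omega)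

theorem par_P {n L : ℕ} (h : L ≤ n) : (2 ^ eN n) ^ (2 * L + 1) ≤ 2 ^ eP n := by
  rw [← pow_mul]
  refine Par_le ?_
  unfold eP
  rw [mul_comm]
  exact Nat.mul_le_mul_right _ (by omega)

theorem par_Pr {n r : ℕ} (hr : 2 ^ vv n < r) : 2 * 2 ^ eN n * 2 ^ eP n < r := by
  refine lt_of_le_of_lt ?_ hr
  calc 2 * 2 ^ eN n * 2 ^ eP n = 2 ^ (1 + eN n + eP n) := by rw [pow_add, pow_add, pow_one]
    _ ≤ 2 ^ vv n := Par_le (by unfold vv uu; omega)

private theorem Par_two (a b : ℕ) : 2 * 2 ^ a * 2 ^ b = 2 ^ (a + b + 1) := by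
  rw [pow_succ, pow_add]
  ring

private theorem Par_eight (a : ℕ) : 8 * 2 ^ a = 2 ^ (a + 3) := by
  rw [pow_succ, pow_succ, pow_succ]
  ring

private theorem Par_Q (n : ℕ) : Qw n ≤ 2 ^ (2 * n + 7) := by
  have h1 := Par_succ n
  have h2 : n + 7 ≤ 2 ^ (n + 3) := by
    rw [pow_add]
    omega
  have h3 : Kc n ≤ 2 ^ (2 * n + 6) := by
    unfold Kc
    calc (n + 7) * (n + 7) ≤ 2 ^ (n + 3) * 2 ^ (n + 3) := Nat.mul_le_mul h2 h2
      _ = 2 ^ (2 * n + 6) := by rw [← pow_add]; congr 1; omega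
  have h4 : 3 * (n + 1) ≤ 2 ^ (2 * n + 6) := by
    calc 3 * (n + 1) ≤ 2 ^ (n + 2) := by rw [pow_add]; omega
      _ ≤ 2 ^ (2 * n + 6) := Par_le (by omega)
  have h5 : 2 ^ (2 * n + 7) = 2 ^ (2 * n + 6) * 2 := by rw [← pow_succ]
  unfold Qw
  omega

private theorem Par_E (n : ℕ) : Ee n ≤ 2 ^ (3 * n + eP n + 7) := by
  have h1 := Par_succ n
  have h2 : n + 3 ≤ 2 ^ (n + 2) := by
    rw [pow_add]
    omega
  have h3 : (n + 3) ^ 3 ≤ 2 ^ (3 * n + 6) := by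
    calc (n + 3) ^ 3 ≤ (2 ^ (n + 2)) ^ 3 := Nat.pow_le_pow_left h2 3
      _ = 2 ^ (3 * n + 6) := by rw [← pow_mul]; congr 1; omega
  unfold Ee
  calc 2 * (n + 3) ^ 3 * 2 ^ eP n ≤ 2 * 2 ^ (3 * n + 6) * 2 ^ eP n :=
        Nat.mul_le_mul_right _ (Nat.mul_le_mul_left _ h3)
    _ = 2 ^ (3 * n + 6 + eP n + 1) := Par_two _ _
    _ = 2 ^ (3 * n + eP n + 7) := by congr 1; omega

private theorem Par_A (n : ℕ) : Aa n ≤ 2 ^ (5 * n + eP n + 16) := by
  have h1 := Par_Q n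
  have h2 : 2 * Ee n * Qw n ≤ 2 ^ (5 * n + eP n + 15) := by
    calc 2 * Ee n * Qw n ≤ 2 * 2 ^ (3 * n + eP n + 7) * 2 ^ (2 * n + 7) :=
          Nat.mul_le_mul (Nat.mul_le_mul_left _ (Par_E n)) h1
      _ = 2 ^ (3 * n + eP n + 7 + (2 * n + 7) + 1) := Par_two _ _
      _ = 2 ^ (5 * n + eP n + 15) := by congr 1; omega
  have h3 : Qw n ≤ 2 ^ (5 * n + eP n + 15) := h1.trans (Par_le (by omega))
  have h4 : 2 ^ (5 * n + eP n + 16) = 2 ^ (5 * n + eP n + 15) * 2 := by rw [← pow_succ]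
  unfold Aa
  omega

/-- For the union bound in one stage. -/
theorem par_union {n r : ℕ} (hr : r ≤ 2 ^ (2 * vv n) + 1) :
    8 * (n + 1) * (r ^ n * Aa n ^ Rr n) ≤ (2 ^ vv n) ^ Rr n := by
  have h0 : 1 ≤ 2 ^ (2 * vv n) := Nat.one_le_two_pow
  have h1 : r ≤ 2 ^ (2 * vv n + 1) := by
    rw [pow_succ]
    omega
  have h2 : r ^ n ≤ 2 ^ ((2 * vv n + 1) * n) := by
    rw [pow_mul]
    exact Nat.pow_le_pow_left h1 n
  have h3 : Aa n ^ Rr n ≤ 2 ^ ((5 * n + eP n + 16) * Rr n) := by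
    rw [pow_mul]
    exact Nat.pow_le_pow_left (Par_A n) _
  have h4 : 8 * (n + 1) ≤ 2 ^ (n + 3) := by
    rw [pow_add]
    have := Par_succ n
    omega
  calc 8 * (n + 1) * (r ^ n * Aa n ^ Rr n)
      ≤ 2 ^ (n + 3) * (2 ^ ((2 * vv n + 1) * n) * 2 ^ ((5 * n + eP n + 16) * Rr n)) :=
        Nat.mul_le_mul h4 (Nat.mul_le_mul h2 h3)
    _ = 2 ^ (n + 3 + ((2 * vv n + 1) * n + (5 * n + eP n + 16) * Rr n)) := by
        rw [← pow_add, ← pow_add]
    _ ≤ 2 ^ (vv n * Rr n) := Par_le (by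
        unfold Rr vv uu
        generalize eP n = P
        generalize eN n = N
        nlinarith [Nat.zero_le (n * P), Nat.zero_le (n * N), Nat.zero_le (n * n)])
    _ = (2 ^ vv n) ^ Rr n := by rw [pow_mul]

/-- For the last comparison. -/
theorem par_fin (n : ℕ) : 8 * Aa n ≤ 2 ^ vv n := by
  calc 8 * Aa n ≤ 8 * 2 ^ (5 * n + eP n + 16) := Nat.mul_le_mul_left _ (Par_A n)
    _ = 2 ^ (5 * n + eP n + 16 + 3) := Par_eight _
    _ ≤ 2 ^ vv n := Par_le (by unfold vv uu; omega)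

theorem vv_ge (n : ℕ) : 2 * n + 8 ≤ vv n := by
  unfold vv uu
  omega

end Pool.Agent.TC
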