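import Pool.Agent.H.MP_b2d7dd_lc.TC.Defs
import Pool.Agent.H.MP_b2d7dd_lc.TI.MachP

/-!
# Module Shp: recognition of the strings of two terms without constant summands in exponents

The same as TN/Shp (copy and adapt) with two flags for every term (`Big`, `NC`).
-/

namespace Pool.Agent.TC

open Pool.Agent.TI Pool.Agent.H.MP_5be563_lc.PT

variable {α : Type} [Enc α]

/-- One step. -/
def shStep (q : Tok) (s : List (Bool × Bool) × Bool) : List (Bool × Bool) × Bool :=
  bif decide (q.1 = 0) then ((false, false) :: s.1, s.2)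
  else bif decide (q.1 = 4) then ((true, true) :: s.1, s.2)
  else
    ((bif decide (q.1 = 1) then
        (true, (s.1.headD (false, false)).2 && (s.1.tail.headD (false, false)).2)
      else bif decide (q.1 = 2) then
        ((s.1.headD (false, false)).1 || (s.1.tail.headD (false, false)).1,
          (s.1.headD (false, false)).2 || (s.1.tail.headD (false, false)).2)
      else ((s.1.headD (false, false)).1, true)) :: s.1.tail.tail,
      s.2 && decide (2 ≤ s.1.length) && (!decide (q.1 = 3) ||
        ((s.1.headD (false, false)).1 && (s.1.tail.headD (false, false)).2)))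

/-- The tokens are the tokens of two terms of the class. -/
def shapeC (T : List Tok) : Bool :=
  (T.foldr shStep ([], true)).2 && decide ((T.foldr shStep ([], true)).1.length = 2)

/-- The flags of a term. -/
private def Shp_fl : Tm → Bool × Bool
  | .one => (false, false)
  | .var _ => (true, true)
  | .add s t => (true, (Shp_fl s).2 && (Shp_fl t).2)
  | .mul s t => ((Shp_fl s).1 || (Shp_fl t).1, (Shp_fl s).2 || (Shp_fl t).2)
  | .pow s _ => ((Shp_fl s).1, true)

private theorem Shp_fl_iff (t : Tm) : ((Shp_fl t).1 = true ↔ Big t) ∧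
    ((Shp_fl t).2 = true ↔ NC t) := by
  induction t with
  | one => simp [Shp_fl, Big, NC]
  | var w => simp [Shp_fl, Big, NC]
  | add s t ihs iht => simp [Shp_fl, Big, NC, ihs.2, iht.2]
  | mul s t ihs iht =>
    simp only [Shp_fl, Bool.or_eq_true, Big, NC, ihs.1, iht.1, ihs.2, iht.2, and_self]
  | pow s t ihs _ => simp [Shp_fl, Big, NC, ihs.1]

private def Shp_F (T : List Tok) : List (Bool × Bool) × Bool := T.foldr shStep ([], true)

private theorem Shp_cons (q : Tok) (T : List Tok) : Shp_F (q :: T) = shStep q (Shp_F T) := rfl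

private theorem Shp_zero (w : List Bool) (s : List (Bool × Bool) × Bool) :
    shStep (0, w) s = ((false, false) :: s.1, s.2) := by
  simp [shStep]

private theorem Shp_four (w : List Bool) (s : List (Bool × Bool) × Bool) :
    shStep (4, w) s = ((true, true) :: s.1, s.2) := by
  simp [shStep]

private theorem Shp_op {k : ℕ} (h0 : k ≠ 0) (h4 : k ≠ 4) (w : List Bool)
    (s : List (Bool × Bool) × Bool) :
    shStep (k, w) s =
      ((bif decide (k = 1) then
          (true, (s.1.headD (false, false)).2 && (s.1.tail.headD (false, false)).2)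
        else bif decide (k = 2) then
          ((s.1.headD (false, false)).1 || (s.1.tail.headD (false, false)).1,
            (s.1.headD (false, false)).2 || (s.1.tail.headD (false, false)).2)
        else ((s.1.headD (false, false)).1, true)) :: s.1.tail.tail,
        s.2 && decide (2 ≤ s.1.length) && (!decide (k = 3) ||
          ((s.1.headD (false, false)).1 && (s.1.tail.headD (false, false)).2))) := by
  simp [shStep, h0, h4]

/-- The run on the tokens of a term. -/
private theorem Shp_toks {t : Tm} (ht : CT t) (s : List (Bool × Bool)) (b : Bool) :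
    t.toks.foldr shStep (s, b) = (Shp_fl t :: s, b) := by
  induction t generalizing s b with
  | one => simp [Tm.toks, Shp_zero, Shp_fl]
  | var w => simp [Tm.toks, Shp_four, Shp_fl]
  | add x y ihx ihy =>
    rw [Tm.toks, List.foldr_cons, List.foldr_append, ihy ht.2, ihx ht.1,
      Shp_op (by norm_num) (by norm_num)]
    simp [Shp_fl]
  | mul x y ihx ihy =>
    rw [Tm.toks, List.foldr_cons, List.foldr_append, ihy ht.2, ihx ht.1,
      Shp_op (by norm_num) (by norm_num)]
    simp [Shp_fl]
  | pow x y ihx ihy =>
    rw [Tm.toks, List.foldr_cons, List.foldr_append, ihy ht.2.2.2, ihx ht.2.2.1,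
      Shp_op (by norm_num) (by norm_num)]
    have h := (Shp_fl_iff x).1.2 ht.1
    have h' := (Shp_fl_iff y).2.2 ht.2.1
    simp [Shp_fl, h, h']

private theorem Shp_forw {T : List Tok} (hT : ∀ q ∈ T, Can q) (hok : (Shp_F T).2 = true) :
    ∃ l : List Tm, (∀ t ∈ l, CT t) ∧ T = l.flatMap Tm.toks ∧ (Shp_F T).1 = l.map Shp_fl := by
  induction T with
  | nil => exact ⟨[], by simp, rfl, rfl⟩
  | cons q T ih =>
    obtain ⟨k, w⟩ := q
    have hq := hT _ List.mem_cons_self
    have hT' : ∀ q ∈ T, Can q := fun q hq => hT q (List.mem_cons_of_mem _ hq)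
    obtain ⟨hk4, hw⟩ := hq
    simp only at hk4 hw
    rw [Shp_cons] at hok ⊢
    by_cases h0 : k = 0
    · subst h0
      rw [Shp_zero] at hok ⊢
      obtain ⟨l, hl, h1, h2⟩ := ih hT' hok
      rw [hw (by norm_num)]
      refine ⟨.one :: l, ?_, by simp [Tm.toks, ← h1], by simp [h2, Shp_fl]⟩
      intro t ht
      rcases List.mem_cons.1 ht with rfl | ht
      · trivial
      · exact hl t ht
    by_cases h4 : k = 4
    · subst h4
      rw [Shp_four] at hok ⊢
      obtain ⟨l, hl, h1, h2⟩ := ih hT' hok
      refine ⟨.var w :: l, ?_, by simp [Tm.toks, ← h1], by simp [h2, Shp_fl]⟩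
      intro t ht
      rcases List.mem_cons.1 ht with rfl | ht
      · trivial
      · exact hl t ht
    rw [Shp_op h0 h4] at hok ⊢
    simp only [Bool.and_eq_true, decide_eq_true_eq] at hok
    obtain ⟨⟨h5, h6⟩, h7⟩ := hok
    obtain ⟨l, hl, h8, h9⟩ := ih hT' h5
    rw [h9, List.length_map] at h6
    rw [hw (by omega)]
    match l, hl, h8, h9, h6 with
    | x :: y :: r, hl, h8, h9, _ =>
      have hx : CT x := hl x (by simp)
      have hy : CT y := hl y (by simp)
      have hr : ∀ t ∈ r, CT t := fun t ht => hl t (by simp [ht])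
      rw [h9]
      by_cases h3 : k = 3
      · subst h3
        have hf : (Shp_fl x).1 = true ∧ (Shp_fl y).2 = true := by
          rw [h9] at h7
          simpa using h7
        refine ⟨.pow x y :: r, ?_, by simp [Tm.toks, h8], by simp [Shp_fl]⟩
        intro t ht
        rcases List.mem_cons.1 ht with rfl | ht
        · exact ⟨(Shp_fl_iff x).1.1 hf.1, (Shp_fl_iff y).2.1 hf.2, hx, hy⟩
        · exact hr t ht
      · by_cases h1 : k = 1
        · subst h1
          refine ⟨.add x y :: r, ?_, by simp [Tm.toks, h8], by simp [Shp_fl]⟩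
          intro t ht
          rcases List.mem_cons.1 ht with rfl | ht
          · exact ⟨hx, hy⟩
          · exact hr t ht
        · have h2 : k = 2 := by omega
          subst h2
          refine ⟨.mul x y :: r, ?_, by simp [Tm.toks, h8], by simp [Shp_fl]⟩
          intro t ht
          rcases List.mem_cons.1 ht with rfl | ht
          · exact ⟨hx, hy⟩
          · exact hr t ht

private theorem Shp_fst (T : List Tok) : (Shp_F T).1.length ≤ T.length := by
  induction T with
  | nil => exact le_rfl
  | cons q T ih =>
    obtain ⟨k, w⟩ := q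
    rw [Shp_cons, List.length_cons]
    by_cases h0 : k = 0
    · subst h0
      rw [Shp_zero, List.length_cons]
      omega
    by_cases h4 : k = 4
    · subst h4
      rw [Shp_four, List.length_cons]
      omega
    rw [Shp_op h0 h4, List.length_cons, List.length_tail, List.length_tail]
    omega

theorem shapeC_iff {T : List Tok} (hT : ∀ q ∈ T, Can q) :
    shapeC T = true ↔ ∃ s t : Tm, CT s ∧ CT t ∧ T = s.toks ++ t.toks := by
  have hsh : shapeC T = ((Shp_F T).2 && decide ((Shp_F T).1.length = 2)) := rfl
  rw [hsh, Bool.and_eq_true, decide_eq_true_eq]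
  constructor
  · rintro ⟨h1, h2⟩
    obtain ⟨l, hl, h3, h4⟩ := Shp_forw hT h1
    rw [h4, List.length_map] at h2
    obtain ⟨x, y, rfl⟩ := List.length_eq_two.1 h2
    exact ⟨x, y, hl x (by simp), hl y (by simp), by simpa using h3⟩
  · rintro ⟨x, y, hx, hy, rfl⟩
    have h1 : Shp_F (x.toks ++ y.toks) = ([Shp_fl x, Shp_fl y], true) := by
      rw [Shp_F, List.foldr_append, Shp_toks hy, Shp_toks hx]
    rw [h1]
    exact ⟨rfl, rfl⟩

private theorem Shp_step :
    Poly (fun p : α × (List (Bool × Bool) × Bool) × Tok => shStep p.2.2 p.2.1) := by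
  have k1 : Poly (fun p : α × (List (Bool × Bool) × Bool) × Tok => p.2.2.1) := by fun_prop
  have c0 : Poly (fun p : α × (List (Bool × Bool) × Bool) × Tok => decide (p.2.2.1 = 0)) :=
    k1.isZero
  have c1 : Poly (fun p : α × (List (Bool × Bool) × Bool) × Tok => decide (p.2.2.1 = 1)) :=
    k1.nateq (by fun_prop)
  have c2 : Poly (fun p : α × (List (Bool × Bool) × Bool) × Tok => decide (p.2.2.1 = 2)) :=
    k1.nateq (by fun_prop)
  have c3 : Poly (fun p : α × (List (Bool × Bool) × Bool) × Tok => decide (p.2.2.1 = 3)) :=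
    k1.nateq (by fun_prop)
  have c4 : Poly (fun p : α × (List (Bool × Bool) × Bool) × Tok => decide (p.2.2.1 = 4)) :=
    k1.nateq (by fun_prop)
  have d1 : Poly (fun p : α × (List (Bool × Bool) × Bool) × Tok => p.2.1.1) := by fun_prop
  have d2 : Poly (fun p : α × (List (Bool × Bool) × Bool) × Tok => p.2.1.2) := by fun_prop
  have k2 : Poly (fun _ : α × (List (Bool × Bool) × Bool) × Tok => 2) := by fun_prop
  have f2 : Poly (fun _ : α × (List (Bool × Bool) × Bool) × Tok => true) := by fun_prop
  have f3 : Poly (fun _ : α × (List (Bool × Bool) × Bool) × Tok => (false, false)) := by fun_prop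
  have f4 : Poly (fun _ : α × (List (Bool × Bool) × Bool) × Tok => (true, true)) := by fun_prop
  have e1 : Poly (fun p : α × (List (Bool × Bool) × Bool) × Tok =>
    p.2.1.1.headD (false, false)) := d1.headD f3
  have e2 : Poly (fun p : α × (List (Bool × Bool) × Bool) × Tok => p.2.1.1.tail) := d1.tail
  have e3 : Poly (fun p : α × (List (Bool × Bool) × Bool) × Tok =>
    p.2.1.1.tail.headD (false, false)) := e2.headD f3
  have e5 : Poly (fun p : α × (List (Bool × Bool) × Bool) × Tok =>
    decide (2 ≤ p.2.1.1.length)) := k2.natle d1.length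
  have g1 : Poly (fun p : α × (List (Bool × Bool) × Bool) × Tok =>
    (p.2.1.1.headD (false, false)).1) := Poly.fst.comp e1
  have g2 : Poly (fun p : α × (List (Bool × Bool) × Bool) × Tok =>
    (p.2.1.1.headD (false, false)).2) := Poly.snd.comp e1
  have g3 : Poly (fun p : α × (List (Bool × Bool) × Bool) × Tok =>
    (p.2.1.1.tail.headD (false, false)).1) := Poly.fst.comp e3
  have g4 : Poly (fun p : α × (List (Bool × Bool) × Bool) × Tok =>
    (p.2.1.1.tail.headD (false, false)).2) := Poly.snd.comp e3
  exact Poly.cond c0 ((f3.lcons d1).pair d2) (Poly.cond c4 ((f4.lcons d1).pair d2)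
    (((Poly.cond c1 (f2.pair (g2.and g4)) (Poly.cond c2 ((g1.or g3).pair (g2.or g4))
      (g1.pair f2))).lcons e2.tail).pair
      ((d2.and e5).and (c3.not.or (g1.and g4)))))

private theorem Shp_sz (l : List (Bool × Bool)) : sz l ≤ 8 * l.length + 1 := by
  induction l with
  | nil => simp
  | cons b l ih =>
    have h1 := sz_prod b
    have h2 := sz_bool_le b.1
    have h3 := sz_bool_le b.2
    simp only [sz_lcons, List.length_cons]
    omega

theorem poly_shapeC {fT : α → List Tok} (hT : Poly fT) : Poly (fun a => shapeC (fT a)) := by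
  have h1 : Poly (fun p : α × (List (Bool × Bool) × Bool) × Tok => shStep p.2.2 p.2.1) :=
    Shp_step
  have h2 : Poly (fun a => (fT a).foldr shStep ([], true)) := by
    refine Poly.foldr (f := fun p : α × (List (Bool × Bool) × Bool) × Tok => shStep p.2.2 p.2.1)
      (l := fT) (s0 := fun _ => (([], true) : List (Bool × Bool) × Bool))
      (B := fun a => 20 * sz (fT a) + 40) h1 hT (by fun_prop)
      (((PBdd.const 20).mul hT.sz_le).add (PBdd.const 40)) ?_
    intro a l₁ l₂ h
    have h3 := Shp_fst l₂
    have h4 : l₂.length ≤ sz (fT a) := by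
      have h5 := length_lt_sz (fT a)
      rw [h, List.length_append] at h5
      rw [h]
      omega
    change sz (Shp_F l₂) ≤ _
    have h6 := sz_prod (Shp_F l₂)
    have h7 := Shp_sz (Shp_F l₂).1
    have h10 := sz_bool_le (Shp_F l₂).2
    omega
  unfold shapeC
  fun_prop

end Pool.Agent.TC
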