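import Pool.Agent.H.MP_b2d7dd_lc.TC.Mach
import Pool.Agent.H.MP_b2d7dd_lc.TC.Par
import Pool.Agent.H.MP_b2d7dd_lc.TC.Shp

/-!
# Module Nxt: the test

The parameters are in Par. `erun` computes the numbers `e1` of the bases, `baseT` = their coprime base.
`nxt` = one stage: the table for the subterms number `0, ..., i` from the table for the subterms before
`i` and the random bits `zz`. `tabI` = all stages. `fin1` = the comparison of the two terms. `test1` =
one round. `accept` = all rounds.
-/

namespace Pool.Agent.TC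

open Pool.Agent.TI (Tm Tok names tokz bmod beqv)
open Pool.Agent.TE (bl)
open Pool.Agent.TW (SI ltab pivots pow2 md rad rmu)
open Pool.Agent.H.MP_5be563_lc.PT

/-- One step: the numbers `e1` of the terms of the stack and of the bases. -/
def estep (M : List Bool) (q : Tok) (s : List (List Bool) × List (List Bool)) :
    List (List Bool) × List (List Bool) :=
  ((bif decide (q.1 = 1) then rad M (s.1.headD [true]) (s.1.tail.headD [true])
    else bif decide (q.1 = 2) then rmu M (s.1.headD [true]) (s.1.tail.headD [true])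
    else [true]) :: (bif decide (q.1 = 0) || decide (q.1 = 4) then s.1 else s.1.tail.tail),
    s.2 ++ [bif decide (q.1 = 3) then s.1.headD [true] else [true]])

/-- The numbers `e1` of the bases. -/
def erun (M : List Bool) (T : List Tok) : List (List Bool) × List (List Bool) :=
  T.foldr (estep M) ([], [])

/-- The modulus for the numbers. -/
def Mn (n : ℕ) : List Bool := pow2 (n + 2)

/-- The coprime base. -/
def baseT (n : ℕ) (T : List Tok) : List (List Bool) :=
  cob (4 * (n + 7) + 2) (Kc n) (erun (Mn n) T).2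

/-- One stage. -/
def nxt (n : ℕ) (e : List Bool) (N B : List (List Bool)) (T : List Tok)
    (i : ℕ) (tab : List (List SI)) (zz : List Bool) : List (List SI) :=
  ltab e (pow2 (eN n)) (pow2 (eP n)) (kk n) (i + 1)
    (pivots e (i + 1) ((List.range (Rr n)).map fun j =>
      hrow e (Mn n) (vv n) (n + 1) n N B tab T i (bl (Qw n * vv n) zz j)))

/-- All stages. -/
def tabI (n : ℕ) (e : List Bool) (N B : List (List Bool)) (T : List Tok)
    (z : List Bool) : ℕ → List (List SI)
  | 0 => []
  | i + 1 => nxt n e N B T i (tabI n e N B T z i) (bl (SS n) z i)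

/-- The two terms have the same value. -/
def fin1 (n : ℕ) (e : List Bool) (N B : List (List Bool)) (T : List Tok) (tab : List (List SI))
    (zz : List Bool) : Bool :=
  beqv
    (bmod ((xrun e (Mn n) (vv n) (n + 1) n N B (bl (Qw n * vv n) zz 0) tab T).1.headD vx0).1
      (md e))
    (bmod ((xrun e (Mn n) (vv n) (n + 1) n N B (bl (Qw n * vv n) zz 0) tab T).1.tail.headD vx0).1
      (md e))

/-- The test for given bits of the modulus and of the stages. -/
def test0 (n : ℕ) (T : List Tok) (e z : List Bool) : Bool :=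
  bif ble (pow2 (vv n)) e then
    fin1 n e (names T) (baseT n T) T (tabI n e (names T) (baseT n T) T z T.length)
      (bl (SS n) z T.length)
  else true

/-- One round. -/
def test1 (n : ℕ) (T : List Tok) (z : List Bool) : Bool :=
  test0 n T (z.take (2 * vv n)) (z.drop (2 * vv n))

/-- The test on tokens. -/
def acceptT (n : ℕ) (T : List Tok) (r : List Bool) : Bool :=
  shapeC T && (List.range (KK n)).all fun j => test1 n T (bl (AA n) r j)

/-- The test. -/
def accept (x r : List Bool) : Bool :=
  match tokz x with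
  | none => false
  | some T => acceptT x.length T r

private theorem Nxt_cons (M : List Bool) (q : Tok) (T : List Tok) :
    erun M (q :: T) = estep M q (erun M T) := rfl

private theorem Nxt_h {l : List (List Bool)} {st : List Tm}
    {a b : Tm} (h : List.Forall₂ (fun x u => bval x = e1 u) l (a :: b :: st)) :
    ∃ x y r, l = x :: y :: r ∧ bval x = e1 a ∧ bval y = e1 b ∧
      List.Forall₂ (fun x u => bval x = e1 u) r st := by
  obtain ⟨x, l', h1, h2, rfl⟩ := List.forall₂_cons_right_iff.1 h
  obtain ⟨y, r, h3, h4, rfl⟩ := List.forall₂_cons_right_iff.1 h2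
  exact ⟨x, y, r, rfl, h1, h3, h4⟩

private theorem Nxt_one : bval [true] = 1 := rfl

private theorem Nxt_app {R : List Bool → Tm → Prop} {l : List (List Bool)} {U : List Tm}
    (h : List.Forall₂ R l U) {x : List Bool} {u : Tm} (hx : R x u) :
    List.Forall₂ R (l ++ [x]) (U ++ [u]) :=
  List.rel_append h (List.Forall₂.cons hx List.Forall₂.nil)

private theorem Nxt_mem {R : List Bool → Tm → Prop} {l : List (List Bool)} {U : List Tm}
    (h : List.Forall₂ R l U) : (∀ x ∈ l, ∃ u ∈ U, R x u) ∧ ∀ u ∈ U, ∃ x ∈ l, R x u := by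
  induction h with
  | nil => exact ⟨fun x hx => absurd hx List.not_mem_nil, fun u hu => absurd hu List.not_mem_nil⟩
  | cons h1 _ ih =>
    refine ⟨fun x hx => ?_, fun u hu => ?_⟩
    · rcases List.mem_cons.1 hx with hx | hx
      · rw [hx]
        exact ⟨_, List.mem_cons_self, h1⟩
      · obtain ⟨u, hu, hr⟩ := ih.1 x hx
        exact ⟨u, List.mem_cons_of_mem _ hu, hr⟩
    · rcases List.mem_cons.1 hu with hu | hu
      · rw [hu]
        exact ⟨_, List.mem_cons_self, h1⟩
      · obtain ⟨x, hx, hr⟩ := ih.2 u hu
        exact ⟨x, List.mem_cons_of_mem _ hx, hr⟩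

/-- The numbers of the bases. -/
theorem erun_val {M : List Bool} {T : List Tok} {st U : List Tm} (h : Stk T st U)
    (hM : ∀ u ∈ U, e1 u < bval M + 2) :
    List.Forall₂ (fun x u => bval x = e1 u) (erun M T).1 st ∧
      List.Forall₂ (fun x u => (∀ a b, u = Tm.pow a b → bval x = e1 a) ∧
        ((∀ a b, u ≠ Tm.pow a b) → bval x = 1)) (erun M T).2 U := by
  induction h with
  | nil => exact ⟨List.Forall₂.nil, List.Forall₂.nil⟩
  | @one T st U h ih =>
    obtain ⟨h1, h2⟩ := ih fun u hu => hM u (List.mem_append_left _ hu)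
    have h3 : erun M ((0, []) :: T) = ([true] :: (erun M T).1, (erun M T).2 ++ [[true]]) := by
      rw [Nxt_cons]
      simp [estep]
    rw [h3]
    refine ⟨List.Forall₂.cons Nxt_one h1, Nxt_app h2 ⟨fun a b h => ?_, fun _ => Nxt_one⟩⟩
    exact absurd h (by simp)
  | @var T st U w h ih =>
    obtain ⟨h1, h2⟩ := ih fun u hu => hM u (List.mem_append_left _ hu)
    have h3 : erun M ((4, w) :: T) = ([true] :: (erun M T).1, (erun M T).2 ++ [[true]]) := by
      rw [Nxt_cons]
      simp [estep]
    rw [h3]
    refine ⟨List.Forall₂.cons Nxt_one h1, Nxt_app h2 ⟨fun a b h => ?_, fun _ => Nxt_one⟩⟩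
    exact absurd h (by simp)
  | @add T st U a b h ih =>
    obtain ⟨h1, h2⟩ := ih fun u hu => hM u (List.mem_append_left _ hu)
    obtain ⟨x, y, r, hl, hx, hy, hr⟩ := Nxt_h h1
    have h3 : erun M ((1, []) :: T) = (rad M x y :: r, (erun M T).2 ++ [[true]]) := by
      rw [Nxt_cons]
      simp [estep, hl]
    have h4 := hM (.add a b) (List.mem_append_right _ (List.mem_singleton.2 rfl))
    have h5 : bval (rad M x y) = e1 (.add a b) := by
      rw [rad, TW.bval_bmod_md, bval_badd, hx, hy]
      exact Nat.mod_eq_of_lt h4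
    rw [h3]
    refine ⟨List.Forall₂.cons h5 hr, Nxt_app h2 ⟨fun a b h => ?_, fun _ => Nxt_one⟩⟩
    exact absurd h (by simp)
  | @mul T st U a b h ih =>
    obtain ⟨h1, h2⟩ := ih fun u hu => hM u (List.mem_append_left _ hu)
    obtain ⟨x, y, r, hl, hx, hy, hr⟩ := Nxt_h h1
    have h3 : erun M ((2, []) :: T) = (rmu M x y :: r, (erun M T).2 ++ [[true]]) := by
      rw [Nxt_cons]
      simp [estep, hl]
    have h4 := hM (.mul a b) (List.mem_append_right _ (List.mem_singleton.2 rfl))
    have h5 : bval (rmu M x y) = e1 (.mul a b) := by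
      rw [rmu, TW.bval_bmod_md, bval_bmul, hx, hy]
      exact Nat.mod_eq_of_lt h4
    rw [h3]
    refine ⟨List.Forall₂.cons h5 hr, Nxt_app h2 ⟨fun a b h => ?_, fun _ => Nxt_one⟩⟩
    exact absurd h (by simp)
  | @pow T st U a b h ih =>
    obtain ⟨h1, h2⟩ := ih fun u hu => hM u (List.mem_append_left _ hu)
    obtain ⟨x, y, r, hl, hx, hy, hr⟩ := Nxt_h h1
    have h3 : erun M ((3, []) :: T) = ([true] :: r, (erun M T).2 ++ [x]) := by
      rw [Nxt_cons]
      simp [estep, hl]
    rw [h3]
    refine ⟨List.Forall₂.cons Nxt_one hr, Nxt_app h2 ⟨fun a' b' h => ?_, fun h => ?_⟩⟩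
    · injection h with e1' e2'
      rw [hx, e1']
    · exact absurd rfl (h a b)

private theorem Nxt_hd {k : ℕ} {l : List (List Bool)} (h : ∀ x ∈ l, x.length ≤ k + 4) :
    (l.headD [true]).length ≤ k + 4 := by
  cases l with
  | nil => exact Nat.succ_le_succ (Nat.zero_le _)
  | cons x l => exact h x List.mem_cons_self

theorem erun_len (M : List Bool) (T : List Tok) : (erun M T).1.length ≤ T.length ∧
    (erun M T).2.length = T.length ∧ (∀ x ∈ (erun M T).1, x.length ≤ M.length + 4) ∧
      ∀ x ∈ (erun M T).2, x.length ≤ M.length + 4 := by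
  induction T with
  | nil =>
    exact ⟨le_rfl, rfl, fun x hx => absurd hx List.not_mem_nil,
      fun x hx => absurd hx List.not_mem_nil⟩
  | cons q T ih =>
    obtain ⟨i1, i2, i3, i4⟩ := ih
    have ht : ([true] : List Bool).length ≤ M.length + 4 := Nat.succ_le_succ (Nat.zero_le _)
    rw [Nxt_cons]
    unfold estep
    refine ⟨?_, ?_, ?_, ?_⟩
    · dsimp only
      rw [List.length_cons, List.length_cons]
      cases (decide (q.1 = 0) || decide (q.1 = 4)) with
      | true => exact Nat.succ_le_succ i1
      | false =>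
        rw [cond_false, List.length_tail, List.length_tail]
        omega
    · dsimp only
      rw [List.length_append, List.length_singleton, List.length_cons, i2]
    · intro x hx
      rcases List.mem_cons.1 hx with hx | hx
      · rw [hx]
        cases decide (q.1 = 1) with
        | true => exact TW.length_rad_le _ _ _
        | false =>
          cases decide (q.1 = 2) with
          | true => exact TW.length_rmu_le _ _ _
          | false => exact ht
      · revert hx
        cases (decide (q.1 = 0) || decide (q.1 = 4)) with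
        | true => exact fun hx => i3 x hx
        | false => exact fun hx => i3 x (List.mem_of_mem_tail (List.mem_of_mem_tail hx))
    · intro x hx
      rcases List.mem_append.1 hx with hx | hx
      · exact i4 x hx
      · rw [List.mem_singleton.1 hx]
        cases decide (q.1 = 3) with
        | true => exact Nxt_hd i3
        | false => exact ht

theorem bval_Mn (n : ℕ) : bval (Mn n) = 2 ^ (n + 2) := TW.bval_pow2 (n + 2)

private theorem Nxt_sz {t u : Tm} (h : u ∈ subs t) : u.sz ≤ t.sz := by
  induction t with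
  | one => exact le_of_eq (by rw [List.mem_singleton.1 h])
  | var w => exact le_of_eq (by rw [List.mem_singleton.1 h])
  | add s t hs ht =>
    simp only [subs, List.mem_append, List.mem_singleton] at h
    rcases h with (h | h) | h
    · exact (ht h).trans (by simp only [Tm.sz]; omega)
    · exact (hs h).trans (by simp only [Tm.sz]; omega)
    · rw [h]
  | mul s t hs ht =>
    simp only [subs, List.mem_append, List.mem_singleton] at h
    rcases h with (h | h) | h
    · exact (ht h).trans (by simp only [Tm.sz]; omega)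
    · exact (hs h).trans (by simp only [Tm.sz]; omega)
    · rw [h]
  | pow s t hs ht =>
    simp only [subs, List.mem_append, List.mem_singleton] at h
    rcases h with (h | h) | h
    · exact (ht h).trans (by simp only [Tm.sz]; omega)
    · exact (hs h).trans (by simp only [Tm.sz]; omega)
    · rw [h]

private theorem Nxt_all {s t : Tm} {n : ℕ} (hn : s.sz + t.sz ≤ n) :
    (∀ x ∈ (erun (Mn n) (s.toks ++ t.toks)).2, x.length ≤ n + 7) ∧
      (∀ x ∈ (erun (Mn n) (s.toks ++ t.toks)).2, 1 ≤ bval x) ∧
      (n + 7) * (erun (Mn n) (s.toks ++ t.toks)).2.length ≤ Kc n ∧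
      ∀ m ∈ Bs1 (exF s t) (s.sz + t.sz),
        ∃ x ∈ (erun (Mn n) (s.toks ++ t.toks)).2, m = bval x := by
  have hst := stk_pair s t
  have hlen : (subs t ++ subs s).length = s.sz + t.sz := by
    rw [List.length_append, length_subs, length_subs, add_comm]
  have hM : ∀ u ∈ subs t ++ subs s, e1 u < bval (Mn n) + 2 := by
    intro u hu
    have h1 : u.sz ≤ n := by
      rcases List.mem_append.1 hu with h | h
      · have := Nxt_sz h
        omega
      · have := Nxt_sz h
        omega
    have h2 : 2 ^ u.sz ≤ 2 ^ (n + 2) := Nat.pow_le_pow_right (by norm_num) (by omega)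
    have h3 := e1_le u
    rw [bval_Mn]
    omega
  obtain ⟨-, hv⟩ := erun_val hst hM
  obtain ⟨-, l2, -, l4⟩ := erun_len (Mn n) (s.toks ++ t.toks)
  have hml : (Mn n).length = n + 3 := by
    unfold Mn pow2
    rw [List.length_append, List.length_replicate, List.length_singleton]
  refine ⟨fun x hx => ?_, fun x hx => ?_, ?_, ?_⟩
  · have h1 := l4 x hx
    rw [hml] at h1
    exact h1
  · obtain ⟨u, -, h1, h2⟩ := (Nxt_mem hv).1 x hx
    by_cases hu : ∃ a b, u = Tm.pow a b
    · obtain ⟨a, b, hab⟩ := hu
      rw [h1 a b hab]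
      exact e1_pos a
    · rw [h2 fun a b hab => hu ⟨a, b, hab⟩]
  · rw [l2, ← hst.length, hlen]
    unfold Kc
    exact Nat.mul_le_mul_left _ (by omega)
  · rintro m ⟨a, ha, c, b, hab, rfl⟩
    have h1 : exF s t a ∈ subs t ++ subs s := by
      unfold exF
      rw [List.getD_eq_getElem _ _ (by rw [hlen]; exact ha)]
      exact List.getElem_mem _
    obtain ⟨x, hx, h2, -⟩ := (Nxt_mem hv).2 _ h1
    exact ⟨x, hx, (h2 c b hab).symm⟩

theorem baseT_two {s t : Tm} {n : ℕ} (hn : s.sz + t.sz ≤ n) :
    (∀ P ∈ baseT n (s.toks ++ t.toks), 2 ≤ bval P) ∧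
      (baseT n (s.toks ++ t.toks)).length ≤ Kc n := by
  obtain ⟨h1, h2, h3, -⟩ := Nxt_all hn
  obtain ⟨c1, -, c3, -⟩ := cob_spec h1 h2 le_rfl h3
  exact ⟨c1, c3⟩

/-- The coprime base is a base for the numbers of the bases. -/
theorem baseT_mb {s t : Tm} {n : ℕ} (hn : s.sz + t.sz ≤ n) :
    MB (baseT n (s.toks ++ t.toks)).length (Pb (baseT n (s.toks ++ t.toks)))
      (muB (baseT n (s.toks ++ t.toks))) (Bs1 (exF s t) (s.sz + t.sz)) := by
  obtain ⟨h1, h2, h3, h4⟩ := Nxt_all hn
  have h5 := mb_cob h1 h2 le_rfl h3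
  exact ⟨h5.two, h5.cop, fun m hm => h5.fac m (h4 m hm)⟩

end Pool.Agent.TC
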