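import Pool.Agent.H.MP_b2d7dd_lc.TC.Nxt
import Pool.Agent.H.MP_b2d7dd_lc.TC.MachP
import Pool.Agent.H.MP_b2d7dd_lc.TW.NxtP

/-!
# Module NxtP: one stage runs in polynomial time

Compare TW/NxtP, TN/NxtP.
-/

namespace Pool.Agent.TC

open Pool.Agent.TI (Tok names)
open Pool.Agent.TE (bl)
open Pool.Agent.TW (SI rad rmu poly_bl poly_pow2 poly_ltab poly_pivots)
open Pool.Agent.H.MP_5be563_lc.PT

variable {α : Type} [Enc α]

theorem poly_par {f : α → ℕ} (hf : Poly f) : Poly (fun a => eN (f a)) ∧ Poly (fun a => eP (f a)) ∧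
    Poly (fun a => vv (f a)) ∧ Poly (fun a => Qw (f a)) ∧ Poly (fun a => Rr (f a)) ∧
    Poly (fun a => kk (f a)) ∧ Poly (fun a => SS (f a)) ∧ Poly (fun a => AA (f a)) ∧
    Poly (fun a => KK (f a)) ∧ Poly (fun a => Kc (f a)) := by
  have h1 : Poly (fun a => eN (f a)) := by
    unfold eN
    fun_prop
  have h2 : Poly (fun a => eP (f a)) := by
    unfold eP
    fun_prop
  have h3 : Poly (fun a => vv (f a)) := by
    unfold vv uu
    fun_prop
  have h10 : Poly (fun a => Kc (f a)) := by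
    unfold Kc
    fun_prop
  have h4 : Poly (fun a => Qw (f a)) := by
    unfold Qw
    fun_prop
  have h5 : Poly (fun a => Rr (f a)) := by
    unfold Rr
    fun_prop
  have h6 : Poly (fun a => kk (f a)) := by
    unfold kk
    fun_prop
  have h7 : Poly (fun a => SS (f a)) := by
    unfold SS
    fun_prop
  have h8 : Poly (fun a => AA (f a)) := by
    unfold AA
    fun_prop
  have h9 : Poly (fun a => KK (f a)) := by
    unfold KK
    fun_prop
  exact ⟨h1, h2, h3, h4, h5, h6, h7, h8, h9, h10⟩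

private theorem NxtP_c {β : Type} [Enc β] (b : β) : Poly (fun _ : α => b) :=
  Pool.Agent.H.MP_5be563_lc.PT.Poly.const b

private theorem NxtP_estep {fM : α → List Bool} {fq : α → Tok}
    {fs : α → List (List Bool) × List (List Bool)}
    (hM : Poly fM) (hq : Poly fq) (hs : Poly fs) :
    Poly (fun a => estep (fM a) (fq a) (fs a)) := by
  have h1 : Poly (fun a => (fs a).1.headD [true]) := by fun_prop
  have h2 : Poly (fun a => (fs a).1.tail.headD [true]) := by fun_prop
  have hq1 : Poly (fun a => (fq a).1) := by fun_prop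
  have hq0 : Poly (fun a => decide ((fq a).1 = 0)) := Poly.isZero hq1
  have hq4 : Poly (fun a => decide ((fq a).1 = 4)) := Poly.nateq hq1 (NxtP_c 4)
  have hu : Poly (fun a => bif decide ((fq a).1 = 1) then
        rad (fM a) ((fs a).1.headD [true]) ((fs a).1.tail.headD [true])
      else bif decide ((fq a).1 = 2) then
        rmu (fM a) ((fs a).1.headD [true]) ((fs a).1.tail.headD [true])
      else [true]) :=
    Poly.cond (Poly.nateq hq1 (NxtP_c 1)) (Pool.Agent.TW.Poly.rad hM h1 h2)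
      (Poly.cond (Poly.nateq hq1 (NxtP_c 2)) (Pool.Agent.TW.Poly.rmu hM h1 h2) (NxtP_c _))
  have hw : Poly (fun a => bif decide ((fq a).1 = 3) then (fs a).1.headD [true] else [true]) :=
    Poly.cond (Poly.nateq hq1 (NxtP_c 3)) h1 (NxtP_c _)
  have hr : Poly (fun a => bif decide ((fq a).1 = 0) || decide ((fq a).1 = 4) then (fs a).1
      else (fs a).1.tail.tail) :=
    Poly.cond (Poly.or hq0 hq4) (by fun_prop) (by fun_prop)
  have h5 : Poly (fun a => (fs a).2) := by fun_prop
  have h7 := Poly.pair (Poly.lcons hu hr) (Poly.append h5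
    (Poly.lcons hw (NxtP_c ([] : List (List Bool)))))
  exact h7

private theorem NxtP_sz (M : List Bool) (T l₁ l₂ : List Tok) (h : T = l₁ ++ l₂) :
    sz (erun M l₂) ≤ 2 * (sz T * (4 * (sz M + 4) + 2) + 1) + 3 := by
  obtain ⟨h1, h2, h3, h4⟩ := erun_len M l₂
  have hT : l₂.length ≤ sz T := by
    have h5 := length_lt_sz T
    have h6 : l₂.length ≤ T.length := by
      rw [h, List.length_append]
      omega
    omega
  have he := length_lt_sz M
  have hK : ∀ l : List (List Bool), l.length ≤ sz T → (∀ x ∈ l, x.length ≤ M.length + 4) →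
      sz l ≤ sz T * (4 * (sz M + 4) + 2) + 1 := by
    intro l hl hx
    refine (sz_le_of_forall l (4 * (sz M + 4) + 1) fun x hm => ?_).trans ?_
    · have h5 := hx x hm
      have h6 := (sz_bool_list x).2
      omega
    · exact Nat.add_le_add_right (Nat.mul_le_mul_right _ hl) 1
  have k1 := hK _ (h1.trans hT) h3
  have k2 := hK _ (h2.le.trans hT) h4
  rw [sz_prod]
  omega

theorem NxtP_erun {fM : α → List Bool} {fT : α → List Tok} (hM : Poly fM) (hT : Poly fT) :
    Poly (fun a => erun (fM a) (fT a)) := by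
  have hf : Poly (fun p : α × (List (List Bool) × List (List Bool)) × Tok =>
      estep (fM p.1) p.2.2 p.2.1) :=
    NxtP_estep (hM.comp Poly.fst) (by fun_prop) (by fun_prop)
  exact Poly.foldr
    (f := fun p : α × (List (List Bool) × List (List Bool)) × Tok =>
      estep (fM p.1) p.2.2 p.2.1)
    (l := fT) (s0 := fun _ => (([], []) : List (List Bool) × List (List Bool)))
    (B := fun a => 2 * (sz (fT a) * (4 * (sz (fM a) + 4) + 2) + 1) + 3) hf hT
    (NxtP_c _)
    (((PBdd.const 2).mul ((hT.sz_le.mul (((PBdd.const 4).mul (hM.sz_le.add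
      (PBdd.const 4))).add (PBdd.const 2))).add (PBdd.const 1))).add
      (PBdd.const 3)) (by
      intro a l₁ l₂ h
      exact NxtP_sz (fM a) (fT a) l₁ l₂ h)

theorem NxtP_Mn {fn : α → ℕ} (hn : Poly fn) : Poly (fun a => Mn (fn a)) :=
  poly_pow2 (Poly.add hn (NxtP_c 2))

theorem poly_baseT {fn : α → ℕ} {fT : α → List Tok} (hn : Poly fn) (hT : Poly fT) :
    Poly (fun a => baseT (fn a) (fT a)) := by
  obtain ⟨-, -, -, -, -, -, -, -, -, h10⟩ := poly_par hn
  unfold baseT
  exact poly_cob (by fun_prop) h10 (Poly.comp Poly.snd (NxtP_erun (NxtP_Mn hn) hT))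

theorem poly_nxt {fn : α → ℕ} {fe : α → List Bool} {fN fB : α → List (List Bool)}
    {fT : α → List Tok} {fi : α → ℕ} {ft : α → List (List SI)}
    {fz : α → List Bool} (hn : Poly fn) (he : Poly fe) (hN : Poly fN) (hB : Poly fB)
    (hT : Poly fT) (hi : Poly fi) (ht : Poly ft) (hz : Poly fz) :
    Poly (fun a => nxt (fn a) (fe a) (fN a) (fB a) (fT a) (fi a) (ft a) (fz a)) := by
  obtain ⟨h1, h2, h3, h4, h5, h6, -, -, -, -⟩ := poly_par hn
  obtain ⟨g1, g2, g3, g4, g5, g6, -, -, -, -⟩ :=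
    poly_par (f := fun p : α × ℕ => fn p.1) (by fun_prop)
  unfold nxt
  refine poly_ltab he (poly_pow2 h1) (poly_pow2 h2) h6 (Poly.add hi (NxtP_c 1)) ?_
  refine poly_pivots he (Poly.add hi (NxtP_c 1)) ?_
  refine H.MP_5be563_lc.PT.Poly.map (f := fun a j => hrow (fe a) (Mn (fn a)) (vv (fn a))
    (fn a + 1) (fn a) (fN a) (fB a) (ft a) (fT a) (fi a) (bl (Qw (fn a) * vv (fn a)) (fz a) j))
    ?_ (Poly.range h5)
  exact poly_hrow (he.comp Poly.fst) (NxtP_Mn (hn.comp Poly.fst)) g3
    (Poly.add (hn.comp Poly.fst) (NxtP_c 1)) (hn.comp Poly.fst)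
    (hN.comp Poly.fst) (hB.comp Poly.fst) (ht.comp Poly.fst) (hT.comp Poly.fst)
    (hi.comp Poly.fst) (poly_bl (Poly.mul g4 g3) (hz.comp Poly.fst) Poly.snd)

end Pool.Agent.TC
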