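import Mathlib

/-!
# Module Po: poles and residues in `K(X)`

`d` is a derivation of `K[X]`, `π` an irreducible polynomial which does not divide `d π`. The
equation `(A / B)' = Σ c_j W_j' / W_j` is written without denominators.
-/

namespace Pool.Agent.TC

open Polynomial Finset

variable {K : Type} [Field K] [CharZero K] (d : Derivation ℤ K[X] K[X])

omit [CharZero K] in
/-- The derivation of `π ^ n * V`, multiplied by `π`. -/
private theorem Po_pow (π V : K[X]) (n : ℕ) :
    π * d (π ^ n * V) = π ^ n * (C (n : K) * d π * V + π * d V) := by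
  rw [Derivation.leibniz, Derivation.leibniz_pow]
  simp only [smul_eq_mul, nsmul_eq_mul, map_natCast]
  rcases n with _ | n
  · simp
  · rw [Nat.add_sub_cancel]
    ring

omit [CharZero K] in
/-- The decomposition of the sum of the right side. -/
private theorem Po_sum (π : K[X]) {J : Type} [Fintype J] [DecidableEq J] (W V : J → K[X])
    (n : J → ℕ) (hW : ∀ j, W j = π ^ n j * V j) (c : J → K) :
    π * ∑ j, C (c j) * (d (W j) * ∏ j' ∈ univ.erase j, W j') =
      π ^ (∑ j, n j) * (d π * (∏ j, V j) * C (∑ j, c j * (n j : K)) +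
        π * ∑ j, C (c j) * (d (V j) * ∏ j' ∈ univ.erase j, V j')) := by
  rw [map_sum, Finset.mul_sum, Finset.mul_sum, Finset.mul_sum, ← Finset.sum_add_distrib,
    Finset.mul_sum]
  refine Finset.sum_congr rfl fun j _ => ?_
  have h1 : ∏ j' ∈ univ.erase j, W j' =
      π ^ (∑ j' ∈ univ.erase j, n j') * ∏ j' ∈ univ.erase j, V j' := by
    rw [← Finset.prod_pow_eq_pow_sum, ← Finset.prod_mul_distrib]
    exact Finset.prod_congr rfl fun j' _ => hW j'
  have h2 : ∑ j, n j = n j + ∑ j' ∈ univ.erase j, n j' :=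
    (Finset.add_sum_erase univ n (mem_univ j)).symm
  have h3 : ∏ j, V j = V j * ∏ j' ∈ univ.erase j, V j' :=
    (Finset.mul_prod_erase univ V (mem_univ j)).symm
  have h4 : π * d (W j) = π ^ n j * (C (n j : K) * d π * V j + π * d (V j)) := by
    rw [hW j]
    exact Po_pow d π (V j) (n j)
  rw [h1, h2, h3, pow_add, C_mul]
  calc π * (C (c j) * (d (W j) * (π ^ (∑ j' ∈ univ.erase j, n j') *
        ∏ j' ∈ univ.erase j, V j')))
      = (π * d (W j)) * (C (c j) * (π ^ (∑ j' ∈ univ.erase j, n j') *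
        ∏ j' ∈ univ.erase j, V j')) := by ring
    _ = _ := by
      rw [h4]
      ring

omit [CharZero K] in
/-- The decomposition of the `W j`. -/
private theorem Po_dec {π : K[X]} (hπ : Irreducible π) {J : Type} (W : J → K[X])
    (hW : ∀ j, W j ≠ 0) :
    ∃ V : J → K[X], ∀ j, W j = π ^ multiplicity π (W j) * V j ∧ ¬ π ∣ V j := by
  have h : ∀ j, ∃ V : K[X], W j = π ^ multiplicity π (W j) * V ∧ ¬ π ∣ V := fun j =>
    (FiniteMultiplicity.of_not_isUnit hπ.not_isUnit (hW j)).exists_eq_pow_mul_and_not_dvd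
  choose V hV using h
  exact ⟨V, hV⟩

/-- The fraction `A / B` has no pole in `π` (otherwise its derivative has a pole of order at least
two, a sum of logarithmic derivatives has only simple poles). -/
theorem no_pole {π : K[X]} (hπ : Irreducible π) (hd : ¬ π ∣ d π) {J : Type} [Fintype J]
    [DecidableEq J] (W : J → K[X]) (hW : ∀ j, W j ≠ 0) (c : J → K) {A B : K[X]} (hB : B ≠ 0)
    (hAB : IsCoprime A B)
    (h : (d A * B - A * d B) * ∏ j, W j =
      B ^ 2 * ∑ j, C (c j) * (d (W j) * ∏ j' ∈ univ.erase j, W j')) : ¬ π ∣ B := by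
  intro hdvd
  have hp : Prime π := hπ.prime
  have hA : ¬ π ∣ A := fun hA => hπ.not_isUnit (hAB.isUnit_of_dvd' hA hdvd)
  obtain ⟨V, hV⟩ := Po_dec hπ W hW
  obtain ⟨B', hB1, hB2⟩ :=
    (FiniteMultiplicity.of_not_isUnit hπ.not_isUnit hB).exists_eq_pow_mul_and_not_dvd
  have hm : multiplicity π B ≠ 0 := by
    intro hm
    rw [hm, pow_zero, one_mul] at hB1
    exact hB2 (hB1 ▸ hdvd)
  obtain ⟨m, hm⟩ := Nat.exists_eq_succ_of_ne_zero hm
  rw [hm, Nat.succ_eq_add_one] at hB1
  have hS := Po_sum d π W V (fun j => multiplicity π (W j)) (fun j => (hV j).1) c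
  have hP : ∏ j, W j = π ^ (∑ j, multiplicity π (W j)) * ∏ j, V j := by
    rw [← Finset.prod_pow_eq_pow_sum, ← Finset.prod_mul_distrib]
    exact Finset.prod_congr rfl fun j _ => (hV j).1
  have hPV : ¬ π ∣ ∏ j, V j := by
    intro hh
    obtain ⟨j, _, hj⟩ := (Prime.dvd_finsetProd_iff hp V).1 hh
    exact (hV j).2 hj
  have hdB : π * d B = π ^ (m + 1) * (C ((m + 1 : ℕ) : K) * d π * B' + π * d B') := by
    rw [hB1]
    exact Po_pow d π B' (m + 1)
  have h0 : π ^ (m + 1 + ∑ j, multiplicity π (W j)) ≠ 0 := pow_ne_zero _ hπ.ne_zero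
  have hmain : (π * (d A * B' - A * d B') - C ((m + 1 : ℕ) : K) * A * d π * B') * ∏ j, V j =
      π * (π ^ m * B' ^ 2 * (d π * (∏ j, V j) * C (∑ j, c j * (multiplicity π (W j) : K)) +
        π * ∑ j, C (c j) * (d (V j) * ∏ j' ∈ univ.erase j, V j'))) := by
    apply mul_left_cancel₀ h0
    have e1 := congrArg (fun x => π * x) h
    simp only at e1
    calc π ^ (m + 1 + ∑ j, multiplicity π (W j)) *
          ((π * (d A * B' - A * d B') - C ((m + 1 : ℕ) : K) * A * d π * B') * ∏ j, V j)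
        = (d A * (π * (π ^ (m + 1) * B')) -
            A * (π ^ (m + 1) * (C ((m + 1 : ℕ) : K) * d π * B' + π * d B'))) *
            (π ^ (∑ j, multiplicity π (W j)) * ∏ j, V j) := by ring
      _ = π * ((d A * B - A * d B) * ∏ j, W j) := by
          rw [← hdB, ← hP, ← hB1]
          ring
      _ = B ^ 2 * (π * ∑ j, C (c j) * (d (W j) * ∏ j' ∈ univ.erase j, W j')) := by
          rw [e1]
          ring
      _ = _ := by
          rw [hS, hB1]
          ring
  have h1 : π ∣ C ((m + 1 : ℕ) : K) * A * d π * B' * ∏ j, V j := by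
    have h2 : π ∣ (π * (d A * B' - A * d B') - C ((m + 1 : ℕ) : K) * A * d π * B') *
        ∏ j, V j := by
      rw [hmain]
      exact Dvd.intro _ rfl
    have h3 : C ((m + 1 : ℕ) : K) * A * d π * B' * ∏ j, V j =
        π * ((d A * B' - A * d B') * ∏ j, V j) -
          (π * (d A * B' - A * d B') - C ((m + 1 : ℕ) : K) * A * d π * B') * ∏ j, V j := by
      ring
    rw [h3]
    exact dvd_sub (Dvd.intro _ rfl) h2
  rcases hp.dvd_or_dvd h1 with h1 | h1
  · rcases hp.dvd_or_dvd h1 with h1 | h1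
    · rcases hp.dvd_or_dvd h1 with h1 | h1
      · rcases hp.dvd_or_dvd h1 with h1 | h1
        · refine hπ.not_isUnit (isUnit_of_dvd_unit h1 ?_)
          rw [isUnit_C]
          exact (Nat.cast_ne_zero.2 (Nat.succ_ne_zero m)).isUnit
        · exact hA h1
      · exact hd h1
    · exact hB2 h1
  · exact hPV h1

omit [CharZero K] in
/-- The residue in `π` is zero. -/
private theorem Po_residue {π : K[X]} (hπ : Irreducible π) (hd : ¬ π ∣ d π) {J : Type} [Fintype J]
    [DecidableEq J] (W : J → K[X]) (hW : ∀ j, W j ≠ 0) (c : J → K) {A B : K[X]} (hB : ¬ π ∣ B)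
    (h : (d A * B - A * d B) * ∏ j, W j =
      B ^ 2 * ∑ j, C (c j) * (d (W j) * ∏ j' ∈ univ.erase j, W j')) :
    ∑ j, c j * (multiplicity π (W j) : K) = 0 := by
  have hp : Prime π := hπ.prime
  obtain ⟨V, hV⟩ := Po_dec hπ W hW
  have hS := Po_sum d π W V (fun j => multiplicity π (W j)) (fun j => (hV j).1) c
  have hP : ∏ j, W j = π ^ (∑ j, multiplicity π (W j)) * ∏ j, V j := by
    rw [← Finset.prod_pow_eq_pow_sum, ← Finset.prod_mul_distrib]
    exact Finset.prod_congr rfl fun j _ => (hV j).1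
  have hPV : ¬ π ∣ ∏ j, V j := by
    intro hh
    obtain ⟨j, _, hj⟩ := (Prime.dvd_finsetProd_iff hp V).1 hh
    exact (hV j).2 hj
  have h0 : π ^ (∑ j, multiplicity π (W j)) ≠ 0 := pow_ne_zero _ hπ.ne_zero
  have hmain : π * ((d A * B - A * d B) * ∏ j, V j) =
      B ^ 2 * (d π * (∏ j, V j) * C (∑ j, c j * (multiplicity π (W j) : K)) +
        π * ∑ j, C (c j) * (d (V j) * ∏ j' ∈ univ.erase j, V j')) := by
    apply mul_left_cancel₀ h0
    calc π ^ (∑ j, multiplicity π (W j)) * (π * ((d A * B - A * d B) * ∏ j, V j))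
        = π * ((d A * B - A * d B) * (π ^ (∑ j, multiplicity π (W j)) * ∏ j, V j)) := by ring
      _ = B ^ 2 * (π * ∑ j, C (c j) * (d (W j) * ∏ j' ∈ univ.erase j, W j')) := by
          rw [← hP, h]
          ring
      _ = _ := by
          rw [hS]
          ring
  have h1 : π ∣ B ^ 2 * (d π * (∏ j, V j) * C (∑ j, c j * (multiplicity π (W j) : K))) := by
    have h3 : B ^ 2 * (d π * (∏ j, V j) * C (∑ j, c j * (multiplicity π (W j) : K))) =
        π * ((d A * B - A * d B) * ∏ j, V j) -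
          π * (B ^ 2 * ∑ j, C (c j) * (d (V j) * ∏ j' ∈ univ.erase j, V j')) := by
      rw [hmain]
      ring
    rw [h3]
    exact dvd_sub (Dvd.intro _ rfl) (Dvd.intro _ rfl)
  by_contra hne
  rcases hp.dvd_or_dvd h1 with h1 | h1
  · exact hB (hp.dvd_of_dvd_pow h1)
  · rcases hp.dvd_or_dvd h1 with h1 | h1
    · rcases hp.dvd_or_dvd h1 with h1 | h1
      · exact hd h1
      · exact hPV h1
    · refine hπ.not_isUnit (isUnit_of_dvd_unit h1 ?_)
      rw [isUnit_C]
      exact isUnit_iff_ne_zero.2 hne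

/-- The residue in `π` is zero. -/
theorem residue {π : K[X]} (hπ : Irreducible π) (hd : ¬ π ∣ d π) {J : Type} [Fintype J]
    [DecidableEq J] (W : J → K[X]) (hW : ∀ j, W j ≠ 0) (c : J → K) {A B : K[X]} (hB : ¬ π ∣ B)
    (h : (d A * B - A * d B) * ∏ j, W j =
      B ^ 2 * ∑ j, C (c j) * (d (W j) * ∏ j' ∈ univ.erase j, W j')) :
    ∑ j, c j * (multiplicity π (W j) : K) = 0 :=
  Po_residue d hπ hd W hW c hB h

end Pool.Agent.TC
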