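import Pool.Agent.H.MP_b2d7dd_lc.TC.Irr
import Pool.Agent.H.MP_b2d7dd_lc.TC.Po

/-!
# Module PlE: solutions of `u' = Σ c_j v_j' / v_j` in `K(θ)`, `θ` an exponential
-/

namespace Pool.Agent.TC

open Polynomial

/-- Additive functions on the products of nonzero polynomials. -/
private theorem PlE_sum {R : Type} [Field R] {F : Type} [CommRing F] {S : Type} [Fintype S]
    (V : S → R[X]) (hV : ∀ s, V s ≠ 0) (c : S → F) (l : R[X] → F)
    (hl : ∀ P Q : R[X], P ≠ 0 → Q ≠ 0 → l (P * Q) = l P + l Q)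
    (hc : ∀ π : R[X], Irreducible π → ¬ Associated π X →
      ∑ s, c s * (multiplicity π (V s) : F) = 0) :
    ∑ s, c s * l (V s) = ∑ s, c s * l (C (V s).leadingCoeff) +
      (∑ s, c s * (multiplicity (X : R[X]) (V s) : F)) * l X := by
  classical
  have h1 : l 1 = 0 := by
    have h := hl 1 1 one_ne_zero one_ne_zero
    rw [mul_one] at h
    exact left_eq_add.1 h
  have hprod : ∀ m : Multiset R[X], (∀ π ∈ m, π ≠ 0) → l m.prod = (m.map l).sum := by
    intro m
    induction m using Multiset.induction_on with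
    | empty => intro _; rw [Multiset.prod_zero, Multiset.map_zero, Multiset.sum_zero, h1]
    | cons a m ih =>
      intro hm
      rw [Multiset.prod_cons, Multiset.map_cons, Multiset.sum_cons,
        hl _ _ (hm a (Multiset.mem_cons_self a m)) (Multiset.prod_ne_zero fun h0 =>
          hm 0 (Multiset.mem_cons_of_mem h0) rfl),
        ih fun π hπ => hm π (Multiset.mem_cons_of_mem hπ)]
  obtain ⟨T, hT⟩ : ∃ T : Finset R[X], T = insert X (Finset.univ.biUnion fun s =>
    (UniqueFactorizationMonoid.normalizedFactors (V s)).toFinset) := ⟨_, rfl⟩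
  have hTirr : ∀ π ∈ T, Irreducible π ∧ normalize π = π := by
    intro π hπ
    rw [hT, Finset.mem_insert, Finset.mem_biUnion] at hπ
    rcases hπ with rfl | ⟨s, _, hs⟩
    · exact ⟨irreducible_X, (normalize_eq_self_iff_monic X_ne_zero).2 monic_X⟩
    · rw [Multiset.mem_toFinset] at hs
      exact ⟨UniqueFactorizationMonoid.irreducible_of_normalized_factor π hs,
        UniqueFactorizationMonoid.normalize_normalized_factor π hs⟩
  have hexp : ∀ s, l (V s) = l (C (V s).leadingCoeff) +
      ∑ π ∈ T, (multiplicity π (V s) : F) * l π := by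
    intro s
    have hne : ∀ π ∈ UniqueFactorizationMonoid.normalizedFactors (V s), π ≠ 0 := fun π hπ =>
      (UniqueFactorizationMonoid.irreducible_of_normalized_factor π hπ).ne_zero
    have e1 : l (V s) = l (C (V s).leadingCoeff *
        (UniqueFactorizationMonoid.normalizedFactors (V s)).prod) := by
      rw [leadingCoeff_mul_prod_normalizedFactors]
    rw [e1, hl _ _ (C_ne_zero.2 (leadingCoeff_ne_zero.2 (hV s)))
      (Multiset.prod_ne_zero fun h0 => hne 0 h0 rfl), hprod _ hne,
      Finset.sum_multiset_map_count]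
    congr 1
    have hsub : (UniqueFactorizationMonoid.normalizedFactors (V s)).toFinset ⊆ T := by
      rw [hT]
      exact fun π hπ => Finset.mem_insert_of_mem
        (Finset.mem_biUnion.2 ⟨s, Finset.mem_univ s, hπ⟩)
    rw [Finset.sum_subset hsub fun π _ hπ => by
      rw [Multiset.count_eq_zero_of_notMem fun h => hπ (Multiset.mem_toFinset.2 h), zero_smul]]
    refine Finset.sum_congr rfl fun π hπ => ?_
    rw [UniqueFactorizationMonoid.multiplicity_eq_count_normalizedFactors (hTirr π hπ).1 (hV s),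
      (hTirr π hπ).2, nsmul_eq_mul]
  have h2 : ∑ s, c s * l (V s) = ∑ s, c s * l (C (V s).leadingCoeff) +
      ∑ π ∈ T, (∑ s, c s * (multiplicity π (V s) : F)) * l π := by
    calc ∑ s, c s * l (V s) = ∑ s, (c s * l (C (V s).leadingCoeff) +
          ∑ π ∈ T, c s * (multiplicity π (V s) : F) * l π) := by
          refine Finset.sum_congr rfl fun s _ => ?_
          rw [hexp s, mul_add, Finset.mul_sum]
          simp only [mul_assoc]
      _ = _ := by
          rw [Finset.sum_add_distrib, Finset.sum_comm]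
          simp only [Finset.sum_mul]
  rw [h2]
  congr 1
  refine Finset.sum_eq_single X (fun π hπ hX => ?_) (fun h => ?_)
  · have hna : ¬ Associated π X := by
      intro ha
      apply hX
      have h3 := normalize_eq_normalize_iff_associated.2 ha
      rw [(hTirr π hπ).2, (normalize_eq_self_iff_monic X_ne_zero).2 monic_X] at h3
      exact h3
    rw [hc π (hTirr π hπ).1 hna, zero_mul]
  · exact absurd (by rw [hT]; exact Finset.mem_insert_self _ _) h


variable {ι H : Type} [Field H] [CharZero H] {D : ι → Derivation ℤ H H} {K : Subfield H}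

omit [CharZero H] in
private theorem PlE_ld (δ : Derivation ℤ H H) {x y : H} (hx : x ≠ 0) (hy : y ≠ 0) :
    δ (x * y) / (x * y) = δ x / x + δ y / y := by
  rw [Derivation.leibniz, smul_eq_mul, smul_eq_mul]
  field_simp
  ring

omit [CharZero H] in
private theorem PlE_ldd (δ : Derivation ℤ H H) {x y : H} (hx : x ≠ 0) (hy : y ≠ 0) :
    δ (x / y) / (x / y) = δ x / x - δ y / y := by
  have h := PlE_ld δ (div_ne_zero hx hy) hy
  rw [div_mul_cancel₀ _ hy] at h
  rw [h]
  ring

omit [CharZero H] in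
private theorem PlE_pow (δ : Derivation ℤ H H) {θ g : H} (hθ : δ θ = θ * δ g) (n : ℕ) :
    δ (θ ^ n) = n * θ ^ n * δ g := by
  induction n with
  | zero =>
    rw [pow_zero, Derivation.map_one_eq_zero, Nat.cast_zero, zero_mul, zero_mul]
  | succ n ih =>
    rw [pow_succ, Derivation.leibniz, ih, hθ, smul_eq_mul, smul_eq_mul]
    push_cast
    ring

omit [CharZero H] in
/-- The equation without denominators. -/
private theorem PlE_eq {δ : Derivation ℤ H H} {θ : H}
    (hinj : Function.Injective (aeval θ : K[X] →ₐ[K] H)) {d : Derivation ℤ K[X] K[X]}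
    (hev : ∀ P : K[X], δ (aeval θ P) = aeval θ (d P)) {S : Type} [Fintype S] [DecidableEq S]
    (V : S → K[X]) (hV : ∀ s, V s ≠ 0) (c : S → K) {A B : K[X]} (hB : B ≠ 0)
    (h : δ (aeval θ A / aeval θ B) =
      ∑ s, (c s : H) * (δ (aeval θ (V s)) / aeval θ (V s))) :
    (d A * B - A * d B) * ∏ s, V s =
      B ^ 2 * ∑ s, C (c s) * (d (V s) * ∏ s' ∈ Finset.univ.erase s, V s') := by
  have hne : ∀ P : K[X], P ≠ 0 → aeval θ P ≠ 0 := fun P hP h0 =>
    hP (hinj (by rw [h0, map_zero]))
  have hb := hne B hB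
  have key : ∀ s, (c s : H) * (δ (aeval θ (V s)) * ∏ s' ∈ Finset.univ.erase s, aeval θ (V s')) =
      ((c s : H) * (δ (aeval θ (V s)) / aeval θ (V s))) * ∏ s', aeval θ (V s') := by
    intro s
    have hs := hne _ (hV s)
    rw [← Finset.mul_prod_erase Finset.univ _ (Finset.mem_univ s)]
    field_simp
  apply hinj
  rw [map_mul, map_mul, map_sub, map_mul, map_mul, map_prod, map_pow, map_sum, ← hev, ← hev]
  have e1 : ∀ s, aeval θ (C (c s) * (d (V s) * ∏ s' ∈ Finset.univ.erase s, V s')) =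
      ((c s : H) * (δ (aeval θ (V s)) / aeval θ (V s))) * ∏ s', aeval θ (V s') := by
    intro s
    rw [map_mul, map_mul, map_prod, aeval_C, ← hev, ← key s]
    rfl
  rw [Finset.sum_congr rfl fun s _ => e1 s, ← Finset.sum_mul, ← h, Derivation.leibniz_div,
    smul_eq_mul, smul_eq_mul, smul_eq_mul]
  field_simp

omit [CharZero H] in
/-- The solution is in `K`. -/
private theorem PlE_u (hK : Stb D K) {θ g : H} (ht : Transcendental K θ) (hg : g ∈ K)
    (hθ : ∀ i, D i θ = θ * D i g) (d : ι → Derivation ℤ K[X] K[X])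
    (hd : ∀ i, PD K (D i) (D i g) 0 (d i)) {u : H} (hDu : ∀ i, D i u ∈ K) (A : K[X]) (n : ℕ)
    (hA : u * θ ^ n = aeval θ A) : u ∈ K := by
  have hinj := transcendental_iff_injective.1 ht
  have hθ0 : θ ≠ 0 := by
    intro h0
    have h1 : (X : K[X]) = 0 := hinj (by rw [aeval_X, map_zero, h0])
    exact X_ne_zero h1
  have hθ' : ∀ i, D i θ = D i g * θ + 0 := fun i => by rw [hθ i, add_zero, mul_comm]
  -- the coefficients
  have hco : ∀ i m, m ≠ n → D i (A.coeff m : K) = ((n : H) - m) * D i g * (A.coeff m : K) := by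
    intro i m hm
    obtain ⟨w, hw⟩ : ∃ w : K, (w : H) = D i u := ⟨⟨_, hDu i⟩, rfl⟩
    obtain ⟨g', hg'⟩ : ∃ w : K, (w : H) = D i g := ⟨⟨_, hK.map i g hg⟩, rfl⟩
    obtain ⟨r, hr⟩ : ∃ r : K, r = (n : K) * g' := ⟨_, rfl⟩
    have hr' : (r : H) = n * D i g := by rw [hr, ← hg']; push_cast; rfl
    have h1 : aeval θ (d i A) = aeval θ (C r * A + C w * X ^ n) := by
      rw [← (hd i).ev θ (hθ' i), ← hA, Derivation.leibniz, PlE_pow (D i) (hθ i), map_add, map_mul,
        map_mul, map_pow, aeval_X, aeval_C, aeval_C, ← hA, smul_eq_mul, smul_eq_mul, ← hw]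
      show u * ((n : H) * θ ^ n * D i g) + θ ^ n * (w : H) =
        (r : H) * (u * θ ^ n) + (w : H) * θ ^ n
      rw [hr']
      ring
    have h2 : (((d i A).coeff m : K) : H) = (((C r * A + C w * X ^ n).coeff m : K) : H) := by
      rw [hinj h1]
    rw [(hd i).coeff, coeff_add, coeff_C_mul, coeff_C_mul, coeff_X_pow, if_neg hm] at h2
    push_cast at h2
    rw [hr'] at h2
    linear_combination h2
  have hz : ∀ m, m ≠ n → A.coeff m = 0 := by
    intro m hm
    have hc : (A.coeff m : H) * θ ^ m / θ ^ n ∈ Cst D := by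
      rw [mem_Cst]
      intro i
      rw [Derivation.leibniz_div, Derivation.leibniz, PlE_pow (D i) (hθ i),
        PlE_pow (D i) (hθ i), hco i m hm]
      simp only [smul_eq_mul]
      ring
    obtain ⟨κ, hκ⟩ : ∃ κ : K, (κ : H) = (A.coeff m : H) * θ ^ m / θ ^ n := ⟨⟨_, hK.cst hc⟩, rfl⟩
    have h1 : C (A.coeff m) * X ^ m = C κ * X ^ n := by
      apply hinj
      rw [map_mul, map_mul, map_pow, map_pow, aeval_X, aeval_C, aeval_C]
      show (A.coeff m : H) * θ ^ m = (κ : H) * θ ^ n
      rw [hκ, div_mul_cancel₀ _ (pow_ne_zero n hθ0)]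
    have h2 := congrArg (fun P : K[X] => P.coeff m) h1
    simp only [coeff_C_mul, coeff_X_pow, if_pos, if_neg hm, mul_one, mul_zero] at h2
    exact h2
  have hAn : A = C (A.coeff n) * X ^ n := by
    ext m
    rw [coeff_C_mul, coeff_X_pow]
    by_cases hm : m = n
    · rw [hm, if_pos rfl, mul_one]
    · rw [if_neg hm, mul_zero, hz m hm]
  rw [hAn, map_mul, map_pow, aeval_X, aeval_C] at hA
  have hu := mul_right_cancel₀ (pow_ne_zero n hθ0) hA
  rw [hu]
  exact (A.coeff n).2

theorem pole_exp (hK : Stb D K) {θ g : H} (ht : Transcendental K θ) (hg : g ∈ K)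
    (hθ : ∀ i, D i θ = θ * D i g) {J : Type} [Fintype J] {u : H} (hu : u ∈ adj K {θ})
    (c : J → Cst D) (v : J → H) (hv : ∀ j, v j ∈ adj K {θ} ∧ v j ≠ 0)
    (h : ∀ i, D i u = ∑ j, (c j : H) * (D i (v j) / v j)) :
    ∃ (m : J → ℤ) (k : J → H), u ∈ K ∧ (∀ j, k j ∈ K ∧ k j ≠ 0) ∧
      (∀ i, ∑ j, (c j : H) * (D i (v j) / v j) =
        ∑ j, (c j : H) * (D i (k j) / k j) + (∑ j, (c j : H) * m j) * D i g) ∧
      ∀ ν : H → Cst D, Vl D (adj K {θ}) ν →
        ∑ j, c j * ν (v j) = ∑ j, c j * ν (k j) + (∑ j, c j * m j) * ν θ := by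
  classical
  have hinj := transcendental_iff_injective.1 ht
  have hne : ∀ P : K[X], P ≠ 0 → aeval θ P ≠ 0 := fun P hP h0 =>
    hP (hinj (by rw [h0, map_zero]))
  have hθ0 : θ ≠ 0 := by
    have h1 := hne X X_ne_zero
    rwa [aeval_X] at h1
  have hθ' : ∀ i, D i θ = D i g * θ + 0 := fun i => by rw [hθ i, add_zero, mul_comm]
  have hθ'' : ∀ i, D i θ = D i g * θ := fun i => by rw [hθ i, mul_comm]
  have hexd : ∀ i, ∃ d : Derivation ℤ K[X] K[X], PD K (D i) (D i g) 0 d := fun i =>
    exists_PD (fun x hx => hK.map i x hx) (hK.map i g hg) (zero_mem K)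
  choose d hd using hexd
  have hev : ∀ i (P : K[X]), D i (aeval θ P) = aeval θ (d i P) := fun i P =>
    (hd i).ev θ (hθ' i) P
  -- numerators and denominators
  obtain ⟨A, B, hB, hAB, huAB⟩ : ∃ A B : K[X], B ≠ 0 ∧ IsCoprime A B ∧
      u = aeval θ A / aeval θ B := by
    obtain ⟨P, Q, hQ, huPQ⟩ := mem_adj_single.1 hu
    have hQ0 : Q ≠ 0 := by
      rintro rfl
      exact hQ (map_zero _)
    obtain ⟨A, hA⟩ := EuclideanDomain.gcd_dvd_left P Q
    obtain ⟨B, hB⟩ := EuclideanDomain.gcd_dvd_right P Q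
    have hG : EuclideanDomain.gcd P Q ≠ 0 := fun h0 => hQ0 (by rw [hB, h0, zero_mul])
    have hB0 : B ≠ 0 := by
      rintro rfl
      exact hQ0 (by rw [hB, mul_zero])
    refine ⟨A, B, hB0, ?_, ?_⟩
    · have hbez := EuclideanDomain.gcd_eq_gcd_ab P Q
      refine ⟨EuclideanDomain.gcdA P Q, EuclideanDomain.gcdB P Q, mul_left_cancel₀ hG ?_⟩
      rw [mul_one]
      calc EuclideanDomain.gcd P Q * (EuclideanDomain.gcdA P Q * A + EuclideanDomain.gcdB P Q * B)
          = EuclideanDomain.gcd P Q * A * EuclideanDomain.gcdA P Q +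
            EuclideanDomain.gcd P Q * B * EuclideanDomain.gcdB P Q := by ring
        _ = P * EuclideanDomain.gcdA P Q + Q * EuclideanDomain.gcdB P Q := by rw [← hA, ← hB]
        _ = EuclideanDomain.gcd P Q := hbez.symm
    · have hA' : aeval θ P = aeval θ (EuclideanDomain.gcd P Q) * aeval θ A := by
        rw [← map_mul, ← hA]
      have hB' : aeval θ Q = aeval θ (EuclideanDomain.gcd P Q) * aeval θ B := by
        rw [← map_mul, ← hB]
      rw [huPQ, hA', hB', mul_div_mul_left _ _ (hne _ hG)]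
  have hW : ∀ j, ∃ W W' : K[X], W ≠ 0 ∧ W' ≠ 0 ∧ v j = aeval θ W / aeval θ W' := by
    intro j
    obtain ⟨P, Q, hQ, hPQ⟩ := mem_adj_single.1 (hv j).1
    refine ⟨P, Q, ?_, ?_, hPQ⟩
    · rintro rfl
      exact (hv j).2 (by rw [hPQ, map_zero, zero_div])
    · rintro rfl
      exact hQ (map_zero _)
  choose W W' hW0 hW0' hvW using hW
  obtain ⟨V, hVl, hVr⟩ : ∃ V : J ⊕ J → K[X], (∀ j, V (Sum.inl j) = W j) ∧
      ∀ j, V (Sum.inr j) = W' j := ⟨Sum.elim W W', fun _ => rfl, fun _ => rfl⟩
  obtain ⟨e, hel, her⟩ : ∃ e : J ⊕ J → Cst D, (∀ j, e (Sum.inl j) = c j) ∧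
      ∀ j, e (Sum.inr j) = - c j := ⟨Sum.elim c fun j => - c j, fun _ => rfl, fun _ => rfl⟩
  have hV : ∀ s, V s ≠ 0 := by
    rintro (j | j)
    · rw [hVl]; exact hW0 j
    · rw [hVr]; exact hW0' j
  obtain ⟨eK, heK⟩ : ∃ eK : J ⊕ J → K, ∀ s, (eK s : H) = (e s : H) :=
    ⟨fun s => ⟨(e s : H), hK.cst (e s).2⟩, fun _ => rfl⟩
  have hD : ∀ i, ∑ j, (c j : H) * (D i (v j) / v j) =
      ∑ s, (e s : H) * (D i (aeval θ (V s)) / aeval θ (V s)) := by
    intro i
    rw [Fintype.sum_sum_type, ← Finset.sum_add_distrib]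
    refine Finset.sum_congr rfl fun j _ => ?_
    rw [hVl, hVr, hel, her, hvW j, PlE_ldd (D i) (hne _ (hW0 j)) (hne _ (hW0' j))]
    push_cast
    ring
  have hpol : ∀ π : K[X], Irreducible π → ¬ Associated π X →
      ¬ π ∣ B ∧ ∑ s, eK s * (multiplicity π (V s) : K) = 0 := by
    intro π hπ hX
    obtain ⟨i, hi⟩ := irr_exp hK ht hθ'' (fun i => hK.map i g hg) d hd hπ hX
    have heq := PlE_eq hinj (hev i) V hV eK hB (by
      rw [← huAB, h i, hD i]
      exact Finset.sum_congr rfl fun s _ => by rw [heK])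
    have hnB := no_pole (d i) hπ hi V hV eK hB hAB heq
    exact ⟨hnB, residue (d i) hπ hi V hV eK hnB heq⟩
  have hresH : ∀ π : K[X], Irreducible π → ¬ Associated π X →
      ∑ s, (e s : H) * (multiplicity π (V s) : H) = 0 := by
    intro π hπ hX
    have h1 : ((∑ s, eK s * (multiplicity π (V s) : K) : K) : H) = ((0 : K) : H) := by
      rw [(hpol π hπ hX).2]
    push_cast at h1
    rw [← h1]
    exact Finset.sum_congr rfl fun s _ => by rw [heK]
  have hresC : ∀ π : K[X], Irreducible π → ¬ Associated π X →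
      ∑ s, e s * (multiplicity π (V s) : Cst D) = 0 := by
    intro π hπ hX
    apply Subtype.ext
    push_cast
    exact hresH π hπ hX
  -- the form of the derivatives
  have hform : ∀ i, ∑ j, (c j : H) * (D i (v j) / v j) =
      ∑ s, (e s : H) * (D i ((V s).leadingCoeff : H) / ((V s).leadingCoeff : H)) +
        (∑ s, (e s : H) * (multiplicity (X : K[X]) (V s) : H)) * D i g := by
    intro i
    have h1 := PlE_sum V hV (fun s => (e s : H)) (fun P => D i (aeval θ P) / aeval θ P)
      (fun P Q hP hQ => by rw [map_mul]; exact PlE_ld (D i) (hne P hP) (hne Q hQ)) hresH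
    rw [hD i, h1]
    have h2 : D i (aeval θ (X : K[X])) / aeval θ (X : K[X]) = D i g := by
      rw [aeval_X, hθ i, mul_div_cancel_left₀ _ hθ0]
    rw [h2]
    simp only [aeval_C]
    rfl
  have hlc : ∀ s, ((V s).leadingCoeff : H) ≠ 0 := fun s h0 =>
    leadingCoeff_ne_zero.2 (hV s) (Subtype.ext h0)
  have hDu : ∀ i, D i u ∈ K := by
    intro i
    rw [h i, hform i]
    refine add_mem (sum_mem fun s _ => mul_mem (hK.cst (e s).2)
      (div_mem (hK.map i _ ((V s).leadingCoeff).2) ((V s).leadingCoeff).2))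
      (mul_mem (sum_mem fun s _ => mul_mem (hK.cst (e s).2) (natCast_mem K _)) (hK.map i g hg))
  -- the denominator
  obtain ⟨n, b, hb0, hBn⟩ : ∃ (n : ℕ) (b : K), b ≠ 0 ∧ B = C b * X ^ n := by
    have hall : ∀ π ∈ UniqueFactorizationMonoid.normalizedFactors B, π = X := by
      intro π hπ
      have hirr := UniqueFactorizationMonoid.irreducible_of_normalized_factor π hπ
      have hassoc : Associated π X := by
        by_contra hX
        exact (hpol π hirr hX).1 (UniqueFactorizationMonoid.dvd_of_mem_normalizedFactors hπ)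
      have h3 := normalize_eq_normalize_iff_associated.2 hassoc
      rw [UniqueFactorizationMonoid.normalize_normalized_factor π hπ,
        (normalize_eq_self_iff_monic X_ne_zero).2 monic_X] at h3
      exact h3
    refine ⟨Multiset.card (UniqueFactorizationMonoid.normalizedFactors B), B.leadingCoeff,
      leadingCoeff_ne_zero.2 hB, ?_⟩
    conv_lhs => rw [← leadingCoeff_mul_prod_normalizedFactors B,
      Multiset.eq_replicate_card.2 hall, Multiset.prod_replicate]
  have huK : u ∈ K := by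
    refine PlE_u hK ht hg hθ d hd hDu (C b⁻¹ * A) n ?_
    have hbH : (b : H) ≠ 0 := fun h0 => hb0 (Subtype.ext h0)
    rw [huAB, hBn, map_mul, map_mul, map_pow, aeval_X, aeval_C, aeval_C]
    show aeval θ A / ((b : H) * θ ^ n) * θ ^ n = ((b⁻¹ : K) : H) * aeval θ A
    have hθn : θ ^ n ≠ 0 := pow_ne_zero n hθ0
    push_cast
    field_simp
  refine ⟨fun j => (multiplicity (X : K[X]) (W j) : ℤ) - (multiplicity (X : K[X]) (W' j) : ℤ),
    fun j => ((W j).leadingCoeff : H) / ((W' j).leadingCoeff : H), huK, fun j => ⟨?_, ?_⟩,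
    fun i => ?_, fun ν hν => ?_⟩
  · exact div_mem ((W j).leadingCoeff).2 ((W' j).leadingCoeff).2
  · have h1 := hlc (Sum.inl j)
    have h2 := hlc (Sum.inr j)
    rw [hVl] at h1
    rw [hVr] at h2
    exact div_ne_zero h1 h2
  · rw [hform i]
    congr 1
    · rw [Fintype.sum_sum_type, ← Finset.sum_add_distrib]
      refine Finset.sum_congr rfl fun j _ => ?_
      have h1 := hlc (Sum.inl j)
      have h2 := hlc (Sum.inr j)
      rw [hVl] at h1
      rw [hVr] at h2
      rw [hVl, hVr, hel, her, PlE_ldd (D i) h1 h2]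
      push_cast
      ring
    · congr 1
      rw [Fintype.sum_sum_type, ← Finset.sum_add_distrib]
      refine Finset.sum_congr rfl fun j _ => ?_
      rw [hVl, hVr, hel, her]
      push_cast
      ring
  · have hmem : ∀ P : K[X], aeval θ P ∈ adj K {θ} := by
      intro P
      exact mem_adj_single.2 ⟨P, 1, by rw [map_one]; exact one_ne_zero, by
        rw [map_one, div_one]⟩
    have hνm : ∀ P Q : K[X], P ≠ 0 → Q ≠ 0 →
        ν (aeval θ (P * Q)) = ν (aeval θ P) + ν (aeval θ Q) := by
      intro P Q hP hQ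
      rw [map_mul]
      exact hν.mul _ (hmem P) _ (hmem Q) (hne P hP) (hne Q hQ)
    have hνd : ∀ x y : H, x ∈ adj K {θ} → y ∈ adj K {θ} → x ≠ 0 → y ≠ 0 →
        ν (x / y) = ν x - ν y := by
      intro x y hx hy hx0 hy0
      have h1 := hν.mul (x / y) (div_mem hx hy) y hy (div_ne_zero hx0 hy0) hy0
      rw [div_mul_cancel₀ _ hy0] at h1
      rw [h1]
      ring
    have h1 := PlE_sum V hV e (fun P => ν (aeval θ P)) hνm hresC
    have h2 : ∑ j, c j * ν (v j) = ∑ s, e s * ν (aeval θ (V s)) := by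
      rw [Fintype.sum_sum_type, ← Finset.sum_add_distrib]
      refine Finset.sum_congr rfl fun j _ => ?_
      rw [hVl, hVr, hel, her, hvW j, hνd _ _ (hmem _) (hmem _) (hne _ (hW0 j)) (hne _ (hW0' j))]
      ring
    rw [h2, h1]
    congr 1
    · rw [Fintype.sum_sum_type, ← Finset.sum_add_distrib]
      refine Finset.sum_congr rfl fun j _ => ?_
      have h3 := hlc (Sum.inl j)
      have h4 := hlc (Sum.inr j)
      rw [hVl] at h3
      rw [hVr] at h4
      rw [hVl, hVr, hel, her, hνd _ _ (le_adj K {θ} ((W j).leadingCoeff).2)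
        (le_adj K {θ} ((W' j).leadingCoeff).2) h3 h4, aeval_C, aeval_C]
      show c j * ν ((W j).leadingCoeff : H) + -c j * ν ((W' j).leadingCoeff : H) =
        c j * (ν ((W j).leadingCoeff : H) - ν ((W' j).leadingCoeff : H))
      ring
    · rw [aeval_X]
      congr 1
      rw [Fintype.sum_sum_type, ← Finset.sum_add_distrib]
      refine Finset.sum_congr rfl fun j _ => ?_
      rw [hVl, hVr, hel, her]
      push_cast
      ring

end Pool.Agent.TC
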