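import Pool.Agent.H.MP_b2d7dd_lc.TC.Irr
import Pool.Agent.H.MP_b2d7dd_lc.TC.Po

/-!
# Module PlL: solutions of `u' = Σ c_j v_j' / v_j` in `K(θ)`, `θ` primitive
-/

namespace Pool.Agent.TC

open Polynomial

variable {ι H : Type} [Field H] [CharZero H] {D : ι → Derivation ℤ H H} {K : Subfield H}

/-- A function which is additive on the products is determined by the factorization. -/
private theorem PlL_split [DecidableEq K] (Φ : K[X] → H)
    (hΦ : ∀ P Q : K[X], P ≠ 0 → Q ≠ 0 → Φ (P * Q) = Φ P + Φ Q) (S : Finset K[X])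
    (hS : ∀ π ∈ S, Irreducible π ∧ π.Monic) {W : K[X]} (hW : W ≠ 0)
    (hWS : ∀ π ∈ UniqueFactorizationMonoid.normalizedFactors W, π ∈ S) :
    Φ W = Φ (C W.leadingCoeff) + ∑ π ∈ S, (multiplicity π W : H) * Φ π := by
  have h1 : Φ 1 = 0 := by
    have h := hΦ 1 1 one_ne_zero one_ne_zero
    rw [mul_one] at h
    exact left_eq_add.1 h
  have hprod : ∀ s : Multiset K[X], (∀ p ∈ s, p ≠ 0) → Φ s.prod = (s.map Φ).sum := by
    intro s
    induction s using Multiset.induction_on with
    | empty => intro _; rw [Multiset.prod_zero, h1, Multiset.map_zero, Multiset.sum_zero]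
    | cons a s ih =>
      intro hs
      rw [Multiset.prod_cons, Multiset.map_cons, Multiset.sum_cons,
        hΦ a s.prod (hs a (Multiset.mem_cons_self a s)) ?_,
        ih fun p hp => hs p (Multiset.mem_cons_of_mem hp)]
      exact Multiset.prod_ne_zero fun h0 => hs 0 (Multiset.mem_cons_of_mem h0) rfl
  have hne : ∀ p ∈ UniqueFactorizationMonoid.normalizedFactors W, p ≠ 0 := fun p hp =>
    (UniqueFactorizationMonoid.irreducible_of_normalized_factor p hp).ne_zero
  have hfac : C W.leadingCoeff * (UniqueFactorizationMonoid.normalizedFactors W).prod = W :=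
    leadingCoeff_mul_prod_normalizedFactors W
  have hlead : (C W.leadingCoeff : K[X]) ≠ 0 := by
    rw [Ne, C_eq_zero, leadingCoeff_eq_zero]
    exact hW
  have hpr : (UniqueFactorizationMonoid.normalizedFactors W).prod ≠ 0 :=
    Multiset.prod_ne_zero fun h0 => hne 0 h0 rfl
  have hmul : ∀ π ∈ S, (multiplicity π W : H) =
      ((UniqueFactorizationMonoid.normalizedFactors W).count π : ℕ) := by
    intro π hπ
    have h2 := UniqueFactorizationMonoid.emultiplicity_eq_count_normalizedFactors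
      (hS π hπ).1 hW
    rw [(hS π hπ).2.normalize_eq_self] at h2
    rw [multiplicity_eq_of_emultiplicity_eq_some h2]
  conv_lhs => rw [← hfac]
  rw [hΦ _ _ hlead hpr, hprod _ hne, Finset.sum_multiset_map_count]
  congr 1
  have hsub : (UniqueFactorizationMonoid.normalizedFactors W).toFinset ⊆ S := by
    intro π hπ
    exact hWS π (Multiset.mem_toFinset.1 hπ)
  rw [Finset.sum_subset hsub]
  · refine Finset.sum_congr rfl fun π hπ => ?_
    rw [hmul π hπ, nsmul_eq_mul]
  · intro π _ hπ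
    rw [Multiset.count_eq_zero.2 (fun h => hπ (Multiset.mem_toFinset.2 h)), zero_smul]

private theorem PlL_dlog (δ : Derivation ℤ H H) {x y : H} (hx : x ≠ 0) (hy : y ≠ 0) :
    δ (x * y) / (x * y) = δ x / x + δ y / y := by
  rw [Derivation.leibniz, smul_eq_mul, smul_eq_mul]
  field_simp
  ring

private theorem PlL_dquot (δ : Derivation ℤ H H) {v p q : H} (hv : v ≠ 0) (hp : p ≠ 0) (hq : q ≠ 0)
    (h : v = p / q) : δ v / v = δ p / p - δ q / q := by
  have h1 : p = v * q := by
    rw [h]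
    field_simp
  have h2 := PlL_dlog δ hv hq
  rw [← h1] at h2
  rw [h2]
  ring

theorem pole_log (hK : Stb D K) {θ : H} (ht : Transcendental K θ) (hθ : ∀ i, D i θ ∈ K)
    {J : Type} [Fintype J] {u : H} (hu : u ∈ adj K {θ}) (c : J → Cst D) (v : J → H)
    (hv : ∀ j, v j ∈ adj K {θ} ∧ v j ≠ 0)
    (h : ∀ i, D i u = ∑ j, (c j : H) * (D i (v j) / v j)) :
    ∃ (c0 : Cst D) (u0 : H) (k : J → H), u0 ∈ K ∧ (∀ j, k j ∈ K ∧ k j ≠ 0) ∧
      u = c0 * θ + u0 ∧
      (∀ i, ∑ j, (c j : H) * (D i (v j) / v j) = ∑ j, (c j : H) * (D i (k j) / k j)) ∧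
      ∀ ν : H → Cst D, Vl D (adj K {θ}) ν → ∑ j, c j * ν (v j) = ∑ j, c j * ν (k j) := by
  classical
  have hinj : Function.Injective (aeval θ : K[X] →ₐ[K] H) := transcendental_iff_injective.1 ht
  have he0 : ∀ P : K[X], P ≠ 0 → aeval θ P ≠ 0 := by
    intro P hP h0
    apply hP
    apply hinj
    rw [h0, map_zero]
  choose d hd using fun i => exists_PD (K := K) (hK.map i) K.zero_mem (hθ i)
  have hev : ∀ i (P : K[X]), D i (aeval θ P) = aeval θ (d i P) := fun i P =>
    (hd i).ev θ (by ring) P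
  have hmem : ∀ P : K[X], aeval θ P ∈ adj K {θ} := fun P =>
    mem_adj_single.2 ⟨P, 1, by rw [map_one]; exact one_ne_zero, by rw [map_one, div_one]⟩
  obtain ⟨A0, B0, hB0, hu0⟩ := mem_adj_single.1 hu
  choose P Q hQ hvj using fun j => mem_adj_single.1 (hv j).1
  have hB00 : B0 ≠ 0 := by
    rintro rfl
    exact hB0 (map_zero _)
  have hQ0 : ∀ j, Q j ≠ 0 := by
    intro j h0
    apply hQ j
    rw [h0, map_zero]
  have hP0 : ∀ j, P j ≠ 0 := by
    intro j h0
    apply (hv j).2
    rw [hvj j, h0, map_zero, zero_div]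
  -- the coprime form of u
  obtain ⟨A, B, g, hAB, hg0, hgA, hgB⟩ : ∃ A B g : K[X], IsCoprime A B ∧ g ≠ 0 ∧ g * A = A0 ∧
      g * B = B0 :=
    ⟨A0 / gcd A0 B0, B0 / gcd A0 B0, gcd A0 B0, isCoprime_div_gcd_div_gcd hB00,
      gcd_ne_zero_of_right hB00,
      EuclideanDomain.mul_div_cancel' (gcd_ne_zero_of_right hB00) (gcd_dvd_left A0 B0),
      EuclideanDomain.mul_div_cancel' (gcd_ne_zero_of_right hB00) (gcd_dvd_right A0 B0)⟩
  have hB : B ≠ 0 := by
    rintro rfl
    rw [mul_zero] at hgB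
    exact hB00 hgB.symm
  have huAB : u * aeval θ B = aeval θ A := by
    have h3 : u * aeval θ B0 = aeval θ A0 := by
      rw [hu0]
      field_simp
    rw [← hgA, ← hgB, map_mul, map_mul] at h3
    apply mul_left_cancel₀ (he0 g hg0)
    rw [← h3]
    ring
  -- the family of numerators and denominators
  obtain ⟨W, hWdef⟩ : ∃ W : J ⊕ J → K[X], W = Sum.elim P Q := ⟨_, rfl⟩
  obtain ⟨c', hcdef⟩ : ∃ c' : J ⊕ J → K, c' = Sum.elim (fun j => ⟨c j, hK.cst (c j).2⟩)
    (fun j => -⟨c j, hK.cst (c j).2⟩) := ⟨_, rfl⟩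
  have hW : ∀ j, W j ≠ 0 := by
    rw [hWdef]
    rintro (j | j)
    · exact hP0 j
    · exact hQ0 j
  have hsum : ∀ f : K[X] → H, ∑ j, (c' j : H) * f (W j) =
      ∑ j, (c j : H) * (f (P j) - f (Q j)) := by
    intro f
    rw [hWdef, hcdef, Fintype.sum_sum_type, ← Finset.sum_add_distrib]
    refine Finset.sum_congr rfl fun j _ => ?_
    show (c j : H) * f (P j) + (-(c j : H)) * f (Q j) = _
    ring
  have hlog : ∀ i, D i u = ∑ j, (c' j : H) * (aeval θ (d i (W j)) / aeval θ (W j)) := by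
    intro i
    rw [h i, hsum fun R => aeval θ (d i R) / aeval θ R]
    refine Finset.sum_congr rfl fun j _ => ?_
    rw [PlL_dquot (D i) (hv j).2 (he0 _ (hP0 j)) (hQ j) (hvj j), hev, hev]
  have hkey : ∀ i, (d i A * B - A * d i B) * ∏ j, W j =
      B ^ 2 * ∑ j, C (c' j) * (d i (W j) * ∏ j' ∈ Finset.univ.erase j, W j') := by
    intro i
    apply hinj
    simp only [map_mul, map_sub, map_pow, map_sum, map_prod, aeval_C]
    have h1 : D i u * aeval θ B + u * aeval θ (d i B) = aeval θ (d i A) := by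
      rw [← hev, ← hev, ← huAB, Derivation.leibniz, smul_eq_mul, smul_eq_mul]
      ring
    have h2 : ∀ j, (algebraMap K H (c' j)) * (aeval θ (d i (W j)) *
        ∏ j' ∈ Finset.univ.erase j, aeval θ (W j')) =
        (c' j : H) * (aeval θ (d i (W j)) / aeval θ (W j)) * ∏ j', aeval θ (W j') := by
      intro j
      have hj := he0 _ (hW j)
      rw [← Finset.mul_prod_erase Finset.univ (fun j' => aeval θ (W j')) (Finset.mem_univ j)]
      have h3 : algebraMap K H (c' j) = (c' j : H) := rfl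
      rw [h3]
      field_simp
    rw [Finset.sum_congr rfl fun j _ => h2 j, ← Finset.sum_mul, ← hlog i, ← h1, ← huAB]
    ring
  have hirr : ∀ π : K[X], Irreducible π → ∃ i, ¬ π ∣ d i π := fun π hπ =>
    irr_log hK ht (fun _ => rfl) hθ d hd hπ
  have hnp : ∀ π : K[X], Irreducible π → ¬ π ∣ B := by
    intro π hπ
    obtain ⟨i, hi⟩ := hirr π hπ
    exact no_pole (d i) hπ hi W hW c' hB hAB (hkey i)
  have hres : ∀ π : K[X], Irreducible π → ∑ j, c' j * (multiplicity π (W j) : K) = 0 := by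
    intro π hπ
    obtain ⟨i, hi⟩ := hirr π hπ
    exact residue (d i) hπ hi W hW c' (hnp π hπ) (hkey i)
  -- u is a polynomial
  have hBu : IsUnit B := by
    by_contra hcon
    obtain ⟨π, hπ, hπB⟩ := WfDvdMonoid.exists_irreducible_factor hcon hB
    exact hnp π hπ hπB
  obtain ⟨U, hU⟩ : ∃ U : K[X], u = aeval θ U := by
    obtain ⟨B', hB'⟩ := hBu.exists_right_inv
    refine ⟨A * B', ?_⟩
    rw [map_mul, ← huAB, mul_assoc, ← map_mul, hB', map_one, mul_one]
  -- the finite set of the factors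
  obtain ⟨S, hSdef⟩ : ∃ S : Finset K[X], S = Finset.univ.biUnion fun j =>
    (UniqueFactorizationMonoid.normalizedFactors (W j)).toFinset := ⟨_, rfl⟩
  have hSmem : ∀ j, ∀ π ∈ UniqueFactorizationMonoid.normalizedFactors (W j), π ∈ S := by
    intro j π hπ
    rw [hSdef, Finset.mem_biUnion]
    exact ⟨j, Finset.mem_univ j, Multiset.mem_toFinset.2 hπ⟩
  have hS : ∀ π ∈ S, Irreducible π ∧ π.Monic := by
    intro π hπ
    rw [hSdef, Finset.mem_biUnion] at hπ
    obtain ⟨j, -, hj⟩ := hπ
    have hj' := Multiset.mem_toFinset.1 hj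
    have h1 := UniqueFactorizationMonoid.irreducible_of_normalized_factor π hj'
    refine ⟨h1, ?_⟩
    have h2 := UniqueFactorizationMonoid.normalize_normalized_factor π hj'
    rw [← h2]
    exact monic_normalize h1.ne_zero
  -- the constants
  obtain ⟨k, hkdef⟩ : ∃ k : J → H, k = fun j => ((P j).leadingCoeff : H) /
    ((Q j).leadingCoeff : H) := ⟨_, rfl⟩
  have hlP : ∀ R : K[X], R ≠ 0 → ((R.leadingCoeff : K) : H) ≠ 0 := by
    intro R hR h0
    apply hR
    rw [← leadingCoeff_eq_zero]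
    exact Subtype.ext h0
  have hk : ∀ j, k j ∈ K ∧ k j ≠ 0 := by
    intro j
    rw [hkdef]
    exact ⟨K.div_mem (P j).leadingCoeff.2 (Q j).leadingCoeff.2,
      div_ne_zero (hlP _ (hP0 j)) (hlP _ (hQ0 j))⟩
  have hadd : ∀ Φ : H → H, (∀ a ∈ adj K {θ}, ∀ b ∈ adj K {θ}, a ≠ 0 → b ≠ 0 →
      Φ (a * b) = Φ a + Φ b) → ∑ j, (c j : H) * Φ (v j) = ∑ j, (c j : H) * Φ (k j) := by
    intro Φ hΦ
    have hquot : ∀ v p q : H, p ∈ adj K {θ} → q ∈ adj K {θ} → p ≠ 0 → q ≠ 0 → v = p / q →
        Φ v = Φ p - Φ q := by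
      intro v p q hp hq hp0 hq0 hvq
      have h1 : p = v * q := by
        rw [hvq]
        field_simp
      have h2 : v ≠ 0 := by
        rintro rfl
        rw [zero_mul] at h1
        exact hp0 h1
      have h3 : v ∈ adj K {θ} := by
        rw [hvq]
        exact (adj K {θ}).div_mem hp hq
      have h4 := hΦ v h3 q hq h2 hq0
      rw [← h1] at h4
      rw [h4]
      ring
    have hsp : ∀ j, Φ (aeval θ (W j)) = Φ ((W j).leadingCoeff : H) +
        ∑ π ∈ S, (multiplicity π (W j) : H) * Φ (aeval θ π) := by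
      intro j
      have h1 := PlL_split (fun R => Φ (aeval θ R)) (fun R R' hR hR' => by
        show Φ (aeval θ (R * R')) = _
        rw [map_mul]
        exact hΦ _ (hmem R) _ (hmem R') (he0 R hR) (he0 R' hR')) S hS (hW j) (hSmem j)
      have h2 : aeval θ (C (W j).leadingCoeff) = ((W j).leadingCoeff : H) := aeval_C _ _
      have h3 : Φ (aeval θ (W j)) = Φ (aeval θ (C (W j).leadingCoeff)) +
        ∑ π ∈ S, (multiplicity π (W j) : H) * Φ (aeval θ π) := h1
      rw [h3, h2]
    have h1 : ∑ j, (c' j : H) * Φ (aeval θ (W j)) =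
        ∑ j, (c' j : H) * Φ ((W j).leadingCoeff : H) := by
      rw [Finset.sum_congr rfl fun j _ => by rw [hsp j, mul_add, Finset.mul_sum]]
      rw [Finset.sum_add_distrib, Finset.sum_comm]
      rw [add_eq_left]
      refine Finset.sum_eq_zero fun π hπ => ?_
      have h2 := congrArg (fun x : K => (x : H)) (hres π (hS π hπ).1)
      have h3 : ∑ j, (c' j : H) * (multiplicity π (W j) : H) = 0 := by
        have h4 : ((∑ j, c' j * (multiplicity π (W j) : K) : K) : H) =
            ∑ j, (c' j : H) * (multiplicity π (W j) : H) := by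
          push_cast
          rfl
        rw [← h4]
        exact h2
      calc ∑ j, (c' j : H) * ((multiplicity π (W j) : H) * Φ (aeval θ π))
          = (∑ j, (c' j : H) * (multiplicity π (W j) : H)) * Φ (aeval θ π) := by
            rw [Finset.sum_mul]
            exact Finset.sum_congr rfl fun j _ => by ring
        _ = 0 := by rw [h3, zero_mul]
    rw [hsum fun R => Φ (aeval θ R), hsum fun R => Φ ((R.leadingCoeff : K) : H)] at h1
    have h5 : ∀ j, Φ (v j) = Φ (aeval θ (P j)) - Φ (aeval θ (Q j)) := fun j =>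
      hquot _ _ _ (hmem _) (hmem _) (he0 _ (hP0 j)) (hQ j) (hvj j)
    have h6 : ∀ j, Φ (k j) = Φ ((P j).leadingCoeff : H) - Φ ((Q j).leadingCoeff : H) := fun j =>
      hquot _ _ _ (le_adj K _ (P j).leadingCoeff.2) (le_adj K _ (Q j).leadingCoeff.2)
        (hlP _ (hP0 j)) (hlP _ (hQ0 j)) (by rw [hkdef])
    calc ∑ j, (c j : H) * Φ (v j) = ∑ j, (c j : H) * (Φ (aeval θ (P j)) - Φ (aeval θ (Q j))) :=
          Finset.sum_congr rfl fun j _ => by rw [h5 j]
      _ = ∑ j, (c j : H) * (Φ ((P j).leadingCoeff : H) - Φ ((Q j).leadingCoeff : H)) := h1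
      _ = ∑ j, (c j : H) * Φ (k j) := Finset.sum_congr rfl fun j _ => by rw [h6 j]
  have hlogk : ∀ i, ∑ j, (c j : H) * (D i (v j) / v j) = ∑ j, (c j : H) * (D i (k j) / k j) :=
    fun i => hadd (fun x => D i x / x) fun a _ b _ ha hb => PlL_dlog (D i) ha hb
  -- the degree of U
  have hconst : ∀ i, ∃ κ : K, d i U = C κ := by
    intro i
    have h1 : D i u ∈ K := by
      rw [h i, hlogk i]
      refine K.sum_mem fun j _ => K.mul_mem (hK.cst (c j).2) (K.div_mem (hK.map i _ (hk j).1)
        (hk j).1)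
    refine ⟨⟨D i u, h1⟩, ?_⟩
    apply hinj
    rw [← hev, ← hU, aeval_C]
    rfl
  have hcoef : ∀ i (n : ℕ), 1 ≤ n → D i ((U.coeff n : K) : H) +
      (n + 1) * D i θ * ((U.coeff (n + 1) : K) : H) = 0 := by
    intro i n hn
    obtain ⟨κ, hκ⟩ := hconst i
    have h1 := (hd i).coeff U n
    rw [hκ, coeff_C, if_neg (by omega)] at h1
    have h2 : ((0 : K) : H) = 0 := rfl
    rw [h2] at h1
    linear_combination -h1
  have hdeg : U.natDegree ≤ 1 := by
    by_contra hcon
    push Not at hcon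
    obtain ⟨N, hN⟩ : ∃ N, U.natDegree = N + 2 := ⟨U.natDegree - 2, by omega⟩
    have hlead : ((U.coeff (N + 2) : K) : H) ≠ 0 := by
      rw [← hN]
      apply hlP U
      rintro rfl
      rw [natDegree_zero] at hcon
      omega
    have htop : ∀ i, D i ((U.coeff (N + 2) : K) : H) = 0 := by
      intro i
      have h1 := hcoef i (N + 2) (by omega)
      have h2 : U.coeff (N + 2 + 1) = 0 := coeff_eq_zero_of_natDegree_lt (by omega)
      have h3 : ((0 : K) : H) = 0 := rfl
      rw [h2, h3, mul_zero, add_zero] at h1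
      exact h1
    have hc1 : ((U.coeff (N + 1) : K) : H) + (N + 2) * ((U.coeff (N + 2) : K) : H) * θ ∈
        Cst D := by
      intro i
      have h1 := hcoef i (N + 1) (by omega)
      have h2 : D i ((N + 2 : H)) = 0 := by
        have h3 := (D i).map_natCast (N + 2)
        push_cast at h3
        exact h3
      rw [map_add, Derivation.leibniz, Derivation.leibniz, htop i, h2]
      simp only [smul_eq_mul]
      push_cast at h1
      linear_combination h1
    have hθK : θ ∈ K := by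
      have h1 := K.sub_mem (hK.cst hc1) (U.coeff (N + 1)).2
      have h2 : (N + 2 : H) ≠ 0 := by
        have h3 : ((N + 2 : ℕ) : H) ≠ 0 := Nat.cast_ne_zero.2 (by omega)
        push_cast at h3
        exact h3
      have h4 : (N + 2 : H) ∈ K := by
        have h3 := natCast_mem K (N + 2)
        push_cast at h3
        exact h3
      have h5 : θ = (((U.coeff (N + 1) : K) : H) + (N + 2) * ((U.coeff (N + 2) : K) : H) * θ -
          ((U.coeff (N + 1) : K) : H)) / ((N + 2) * ((U.coeff (N + 2) : K) : H)) := by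
        field_simp
        ring
      rw [h5]
      exact K.div_mem h1 (K.mul_mem h4 (U.coeff (N + 2)).2)
    have h6 : (X - C (⟨θ, hθK⟩ : K) : K[X]) ≠ 0 := X_sub_C_ne_zero _
    apply he0 _ h6
    rw [map_sub, aeval_X, aeval_C]
    exact sub_self θ
  have hU1 : U = C (U.coeff 1) * X + C (U.coeff 0) := by
    conv_lhs => rw [eq_X_add_C_of_natDegree_le_one hdeg]
  have hcst : ((U.coeff 1 : K) : H) ∈ Cst D := by
    intro i
    have h1 := hcoef i 1 le_rfl
    have h2 : U.coeff (1 + 1) = 0 := coeff_eq_zero_of_natDegree_lt (by omega)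
    have h3 : ((0 : K) : H) = 0 := rfl
    rw [h2, h3, mul_zero, add_zero] at h1
    exact h1
  refine ⟨⟨_, hcst⟩, ((U.coeff 0 : K) : H), k, (U.coeff 0).2, hk, ?_, hlogk, ?_⟩
  · rw [hU]
    conv_lhs => rw [hU1]
    rw [map_add, map_mul, aeval_C, aeval_X, aeval_C]
    rfl
  · intro ν hν
    apply Subtype.ext
    have h1 := hadd (fun x => (ν x : H)) fun a ha b hb ha0 hb0 => by
      show ((ν (a * b) : Cst D) : H) = _
      rw [hν.mul a ha b hb ha0 hb0]
      rfl
    push_cast
    exact h1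

end Pool.Agent.TC
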