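import Pool.Agent.H.MP_b2d7dd_lc.TC.Sc

/-!
# Module Pv: parallel values

`Pv W as F ρ lam`: `ρ` = values of the terms in a field, `lam` = their logarithms, for terms over the
list: both depend only on the function of the term; `ρ` is compatible with `1`, sums and products,
`lam` with products and with the powers of the list.
-/

namespace Pool.Agent.TC

open Pool.Agent.TI (Tm)

variable {W : Finset (List Bool)} {as : List Tm} {F : Type} [Field F] [CharZero F]

/-- Parallel values. -/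
structure Pv (W : Finset (List Bool)) (as : List Tm) (F : Type) [Field F] (ρ lam : Tm → F) :
    Prop where
  one : ρ .one = 1
  add : ∀ s t, ats s ⊆ At W as → ats t ⊆ At W as → ρ (.add s t) = ρ s + ρ t
  mul : ∀ s t, ats s ⊆ At W as → ats t ⊆ At W as → ρ (.mul s t) = ρ s * ρ t
  ext : ∀ s t, ats s ⊆ At W as → ats t ⊆ At W as → rf W s = rf W t → ρ s = ρ t
  lmul : ∀ s t, ats s ⊆ At W as → ats t ⊆ At W as → lam (.mul s t) = lam s + lam t
  lext : ∀ s t, ats s ⊆ At W as → ats t ⊆ At W as → rf W s = rf W t → lam s = lam t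
  lpow : ∀ a b, Tm.pow a b ∈ as → lam (.pow a b) = ρ b * lam a

/-- Numerals (for `n ≥ 1`). -/
def num : ℕ → Tm
  | 0 => .one
  | 1 => .one
  | n + 2 => .add (num (n + 1)) .one

theorem rf_num {n : ℕ} (hn : 1 ≤ n) (x : Pt W) : rf W (num n) x = n := by
  induction n with
  | zero => omega
  | succ n ih =>
    cases n with
    | zero =>
      show (1 : ℝ) = _
      norm_num
    | succ n =>
      show rf W (num (n + 1)) x + 1 = _
      rw [ih (by omega)]
      push_cast
      ring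

theorem ats_num (n : ℕ) : ats (num n) = ∅ := by
  induction n with
  | zero => rfl
  | succ n ih =>
    cases n with
    | zero => rfl
    | succ n =>
      show ats (num (n + 1)) ∪ (∅ : Set Tm) = ∅
      rw [ih, Set.union_empty]

private theorem Pv_one_ats : ats .one ⊆ At W as := Set.empty_subset _

private theorem Pv_mul_ats {s t : Tm} (hs : ats s ⊆ At W as) (ht : ats t ⊆ At W as) :
    ats (.mul s t) ⊆ At W as := Set.union_subset hs ht

private theorem Pv_log_mul (s t : Tm) (x : Pt W) :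
    Real.log (rf W (.mul s t) x) = Real.log (rf W s x) + Real.log (rf W t x) :=
  Real.log_mul (rf_pos W s x).ne' (rf_pos W t x).ne'

private theorem Pv_log_one (x : Pt W) : Real.log (rf W .one x) = 0 := Real.log_one

private theorem Pv_lam_one {F : Type} [Field F] {ρ lam : Tm → F} (h : Pv W as F ρ lam) :
    lam .one = 0 := by
  have h1 := h.lmul .one .one Pv_one_ats Pv_one_ats
  have h2 := h.lext (.mul .one .one) .one (Pv_mul_ats Pv_one_ats Pv_one_ats) Pv_one_ats (by
    funext x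
    show (1 : ℝ) * 1 = 1
    norm_num)
  rw [h2] at h1
  exact left_eq_add.1 h1

private theorem Pv_pow {b : Tm} (hb : ats b ⊆ At W as) (n : ℕ) :
    ∃ A : Tm, ats A ⊆ At W as ∧ (∀ x, Real.log (rf W A x) = n * Real.log (rf W b x)) ∧
      ∀ (F : Type) [Field F] (ρ lam : Tm → F), Pv W as F ρ lam → lam A = n * lam b := by
  induction n with
  | zero =>
    refine ⟨.one, Pv_one_ats, fun x => ?_, fun F _ ρ lam h => ?_⟩
    · rw [Pv_log_one, Nat.cast_zero, zero_mul]
    · rw [Pv_lam_one h, Nat.cast_zero, zero_mul]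
  | succ n ih =>
    obtain ⟨A, hA, lA, mA⟩ := ih
    refine ⟨.mul A b, Pv_mul_ats hA hb, fun x => ?_, fun F _ ρ lam h => ?_⟩
    · rw [Pv_log_mul, lA, Nat.cast_succ, add_mul, one_mul]
    · rw [h.lmul A b hA hb, mA F ρ lam h, Nat.cast_succ, add_mul, one_mul]

private theorem Pv_prod {J : Type} (s : Finset J) (b : J → Tm)
    (hb : ∀ j ∈ s, ats (b j) ⊆ At W as) (n : J → ℕ) :
    ∃ A : Tm, ats A ⊆ At W as ∧
      (∀ x, Real.log (rf W A x) = ∑ j ∈ s, (n j : ℝ) * Real.log (rf W (b j) x)) ∧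
      ∀ (F : Type) [Field F] (ρ lam : Tm → F), Pv W as F ρ lam →
        lam A = ∑ j ∈ s, (n j : F) * lam (b j) := by
  classical
  induction s using Finset.induction_on with
  | empty =>
    refine ⟨.one, Pv_one_ats, fun x => ?_, fun F _ ρ lam h => ?_⟩
    · rw [Pv_log_one, Finset.sum_empty]
    · rw [Pv_lam_one h, Finset.sum_empty]
  | insert j s hj ih =>
    obtain ⟨A, hA, lA, mA⟩ := ih fun i hi => hb i (Finset.mem_insert_of_mem hi)
    obtain ⟨B, hB, lB, mB⟩ := Pv_pow (hb j (Finset.mem_insert_self _ _)) (n j)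
    refine ⟨.mul B A, Pv_mul_ats hB hA, fun x => ?_, fun F _ ρ lam h => ?_⟩
    · rw [Pv_log_mul, lA, lB, Finset.sum_insert hj]
    · rw [h.lmul B A hB hA, mA F ρ lam h, mB F ρ lam h, Finset.sum_insert hj]

/-- Relations between logarithms. -/
theorem Pv.rel {ρ lam : Tm → F} (h : Pv W as F ρ lam) {J : Type} (s : Finset J) (b : J → Tm)
    (hb : ∀ j ∈ s, ats (b j) ⊆ At W as) (k : J → ℤ)
    (h0 : ∀ x, ∑ j ∈ s, (k j : ℝ) * Real.log (rf W (b j) x) = 0) :
    ∑ j ∈ s, (k j : F) * lam (b j) = 0 := by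
  obtain ⟨A, hA, lA, mA⟩ := Pv_prod s b hb fun j => (k j).toNat
  obtain ⟨B, hB, lB, mB⟩ := Pv_prod s b hb fun j => (-k j).toNat
  have hk : ∀ j, k j = ((k j).toNat : ℤ) - ((-k j).toNat : ℤ) := fun j => by omega
  have h1 : rf W A = rf W B := by
    funext x
    apply Real.log_injOn_pos (rf_pos W A x) (rf_pos W B x)
    rw [lA, lB, ← sub_eq_zero, ← Finset.sum_sub_distrib, ← h0 x]
    refine Finset.sum_congr rfl fun j _ => ?_
    rw [← sub_mul]
    congr 1
    exact_mod_cast (hk j).symm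
  have h2 := h.lext A B hA hB h1
  rw [mA F ρ lam h, mB F ρ lam h, ← sub_eq_zero, ← Finset.sum_sub_distrib] at h2
  rw [← h2]
  refine Finset.sum_congr rfl fun j _ => ?_
  rw [← sub_mul]
  congr 1
  exact_mod_cast congrArg (Int.cast : ℤ → F) (hk j)

/-- A common denominator. -/
private theorem Pv_den {as' : List Tm} {v : Pt W → ℝ} (hv : v ∈ Vs W as') :
    ∃ D : ℕ, 1 ≤ D ∧ ∃ f ∈ Finsupp.supported ℤ ℤ (At W as'),
      (D : ℤ) • v = Finsupp.linearCombination ℤ (lr W) f := by
  unfold Vs at hv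
  induction hv using Submodule.span_induction with
  | mem x hx =>
    obtain ⟨c, hc, rfl⟩ := hx
    refine ⟨1, le_refl _, Finsupp.single c 1, Finsupp.single_mem_supported ℤ 1 hc, ?_⟩
    rw [Finsupp.linearCombination_single, Nat.cast_one]
  | zero => exact ⟨1, le_refl _, 0, zero_mem _, by rw [map_zero, smul_zero]⟩
  | add x y _ _ h1 h2 =>
    obtain ⟨D1, hD1, f1, hf1, e1⟩ := h1
    obtain ⟨D2, hD2, f2, hf2, e2⟩ := h2
    refine ⟨D1 * D2, Nat.one_le_iff_ne_zero.2 (by positivity), (D2 : ℤ) • f1 + (D1 : ℤ) • f2,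
      add_mem (Submodule.smul_mem _ _ hf1) (Submodule.smul_mem _ _ hf2), ?_⟩
    rw [map_add, map_smul, map_smul, ← e1, ← e2, smul_smul, smul_smul, smul_add]
    congr 1
    congr 1
    push_cast
    ring
  | smul q x _ h1 =>
    obtain ⟨D, hD, f, hf, e⟩ := h1
    have hd := q.den_pos
    refine ⟨D * q.den, Nat.one_le_iff_ne_zero.2 (by positivity), q.num • f,
      Submodule.smul_mem _ _ hf, ?_⟩
    rw [map_smul, ← e]
    funext t
    have h2 : (q : ℝ) * (q.den : ℝ) = (q.num : ℝ) := by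
      exact_mod_cast Rat.mul_den_eq_num q
    show ((D * q.den : ℕ) : ℤ) • (q • x t) = q.num • ((D : ℤ) • x t)
    rw [zsmul_eq_mul, zsmul_eq_mul, zsmul_eq_mul, Rat.smul_def, ← h2]
    push_cast
    ring

/-- The terms as sums of exponentials. -/
private theorem Pv_exps {t : Tm} (ht : ats t ⊆ At W as) :
    ∃ (ι : Type) (_ : Fintype ι) (_ : Nonempty ι) (w : ι → Vs W as),
      ∀ x, rf W t x = ∑ i, Real.exp ((w i : Pt W → ℝ) x) := by
  induction t with
  | one =>
    refine ⟨Unit, inferInstance, inferInstance, fun _ => 0, fun x => ?_⟩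
    rw [Finset.univ_unique, Finset.sum_singleton]
    show (1 : ℝ) = Real.exp 0
    rw [Real.exp_zero]
  | var w =>
    refine ⟨Unit, inferInstance, inferInstance, fun _ => ⟨lr W (.var w),
      Submodule.subset_span ⟨.var w, ht rfl, rfl⟩⟩, fun x => ?_⟩
    rw [Finset.univ_unique, Finset.sum_singleton]
    exact rf_var W w x
  | add s t hs ht' =>
    obtain ⟨ι, i1, i2, u, hu⟩ := hs (Set.subset_union_left.trans ht)
    obtain ⟨κ, k1, k2, v, hv⟩ := ht' (Set.subset_union_right.trans ht)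
    refine ⟨ι ⊕ κ, inferInstance, inferInstance, Sum.elim u v, fun x => ?_⟩
    rw [Fintype.sum_sum_type]
    show rf W s x + rf W t x = _
    rw [hu, hv]
    rfl
  | mul s t hs ht' =>
    obtain ⟨ι, i1, i2, u, hu⟩ := hs (Set.subset_union_left.trans ht)
    obtain ⟨κ, k1, k2, v, hv⟩ := ht' (Set.subset_union_right.trans ht)
    refine ⟨ι × κ, inferInstance, inferInstance, fun p => u p.1 + v p.2, fun x => ?_⟩
    show rf W s x * rf W t x = _
    rw [hu, hv, Finset.sum_mul_sum, Fintype.sum_prod_type]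
    refine Finset.sum_congr rfl fun i _ => Finset.sum_congr rfl fun j _ => ?_
    rw [← Real.exp_add]
    rfl
  | pow s t _ _ =>
    refine ⟨Unit, inferInstance, inferInstance, fun _ => ⟨lr W (.pow s t),
      Submodule.subset_span ⟨.pow s t, ht rfl, rfl⟩⟩, fun x => ?_⟩
    rw [Finset.univ_unique, Finset.sum_singleton]
    exact rf_pow W s t x

/-- The quotient of two terms, if constant, is rational. -/
private theorem Pv_quot (hc : Cl W as) {A B : Tm} (hA : ats A ⊆ At W as)
    (hB : ats B ⊆ At W as) {e : ℝ} (h : ∀ x, rf W A x = e * rf W B x) :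
    ∃ p₁ p₂ : ℕ, 1 ≤ p₁ ∧ 1 ≤ p₂ ∧ (p₁ : ℝ) * e = p₂ := by
  classical
  obtain ⟨ι, i1, i2, u, hu⟩ := Pv_exps hA
  obtain ⟨κ, k1, k2, v, hv⟩ := Pv_exps hB
  have hfg : (∑ i, Finsupp.single (u i) (1 : ℝ)) = ∑ j, Finsupp.single (v j) e := by
    apply exp_ind hc
    rw [map_sum, map_sum]
    funext x
    have h1 := h x
    rw [hu, hv, Finset.mul_sum] at h1
    rw [Finset.sum_apply, Finset.sum_apply]
    simp only [Finsupp.linearCombination_single, Pi.smul_apply, smul_eq_mul, one_mul]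
    exact h1
  obtain ⟨i0⟩ := i2
  have h2 := DFunLike.congr_fun hfg (u i0)
  rw [Finsupp.finsetSum_apply, Finsupp.finsetSum_apply] at h2
  simp only [Finsupp.single_apply] at h2
  rw [← Finset.sum_filter, ← Finset.sum_filter, Finset.sum_const, Finset.sum_const, nsmul_eq_mul,
    nsmul_eq_mul, mul_one] at h2
  have h3 : 1 ≤ (Finset.univ.filter fun i => u i = u i0).card :=
    Finset.card_pos.2 ⟨i0, Finset.mem_filter.2 ⟨Finset.mem_univ _, rfl⟩⟩
  refine ⟨(Finset.univ.filter fun j => v j = u i0).card,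
    (Finset.univ.filter fun i => u i = u i0).card, ?_, h3, h2.symm⟩
  rw [Nat.one_le_iff_ne_zero]
  intro h4
  rw [h4, Nat.cast_zero, zero_mul, Nat.cast_eq_zero] at h2
  omega

private theorem Pv_at (hc : Cl W as) {c : Tm} (h : c ∈ At W as) :
    ats c ⊆ At W as ∧ ∀ x, lr W c x = Real.log (rf W c x) := by
  rcases h with ⟨w, hw, rfl⟩ | h
  · refine ⟨?_, fun x => ?_⟩
    · rintro y rfl
      exact Or.inl ⟨w, hw, rfl⟩
    · rw [rf_var, Real.log_exp]
  · obtain ⟨a, b, rfl, -⟩ := hc.nw c h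
    refine ⟨?_, fun x => ?_⟩
    · rintro y rfl
      exact Or.inr h
    · rw [rf_pow, Real.log_exp]

/-- The relation for the logarithm of a term with integral coefficients; the constant is the logarithm
of a positive rational number. -/
theorem rat_rel {L : Finset (Pt W → ℝ)} (hc : Cl W as) (hs : Sc W as L) {as' : List Tm}
    (has : as' <:+ as) {a : Tm} (ha : ats a ⊆ At W as)
    (hr : Rl (Vs W as') L fun x => Real.log (rf W a x)) :
    ∃ (M : ℕ) (m : (Pt W → ℝ) → ℤ) (S : Finset Tm) (q : Tm → ℤ) (p₁ p₂ : ℕ), 1 ≤ M ∧ 1 ≤ p₁ ∧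
      1 ≤ p₂ ∧ ↑S ⊆ At W as' ∧ ∀ x, M * Real.log (rf W a x) + Real.log p₁ =
        ∑ l ∈ L, (m l : ℝ) * l x + ∑ c ∈ S, (q c : ℝ) * lr W c x + Real.log p₂ := by
  classical
  obtain ⟨M, m, v, c, hM, hv, hrel⟩ := hr
  obtain ⟨D, hD, f, hf, hDf⟩ := Pv_den hv
  have hfS : (f.support : Set Tm) ⊆ At W as' := (Finsupp.mem_supported _ _).1 hf
  have hat : ∀ t ∈ f.support, t ∈ At W as := by
    intro t ht
    rcases hfS ht with h1 | h1
    · exact Or.inl h1
    · exact Or.inr (has.subset h1)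
  have hvx : ∀ x, (D : ℝ) * v x = ∑ t ∈ f.support, (f t : ℝ) * lr W t x := by
    intro x
    have h1 := congrFun hDf x
    rw [Finsupp.linearCombination_apply, Finsupp.sum, Finset.sum_apply] at h1
    simp only [Pi.smul_apply, zsmul_eq_mul] at h1
    rw [← h1]
    push_cast
    rfl
  have hLb : ∀ l : Pt W → ℝ, ∃ b : Tm, l ∈ L → ats b ⊆ At W as ∧ l = fun x => Real.log (rf W b x) := by
    intro l
    by_cases hl : l ∈ L
    · obtain ⟨b, hb⟩ := hs.lb l hl
      exact ⟨b, fun _ => hb⟩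
    · exact ⟨.one, fun h => absurd h hl⟩
  choose b hb using hLb
  obtain ⟨A1, hA1, lA1, -⟩ := Pv_pow ha (D * M)
  obtain ⟨A2, hA2, lA2, -⟩ := Pv_prod L b (fun l hl => (hb l hl).1) fun l => (-((D : ℤ) * m l)).toNat
  obtain ⟨A3, hA3, lA3, -⟩ := Pv_prod f.support (fun t => t) (fun t ht => (Pv_at hc (hat t ht)).1)
    fun t => (-f t).toNat
  obtain ⟨B2, hB2, lB2, -⟩ := Pv_prod L b (fun l hl => (hb l hl).1) fun l => ((D : ℤ) * m l).toNat
  obtain ⟨B3, hB3, lB3, -⟩ := Pv_prod f.support (fun t => t) (fun t ht => (Pv_at hc (hat t ht)).1)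
    fun t => (f t).toNat
  have hL : ∀ x, Real.log (rf W B2 x) - Real.log (rf W A2 x) =
      ∑ l ∈ L, (((D : ℤ) * m l : ℤ) : ℝ) * l x := by
    intro x
    rw [lA2, lB2, ← Finset.sum_sub_distrib]
    refine Finset.sum_congr rfl fun l hl => ?_
    have h1 : l x = Real.log (rf W (b l) x) := congrFun (hb l hl).2 x
    rw [← sub_mul, ← h1]
    congr 1
    have h2 : ((((D : ℤ) * m l).toNat : ℤ)) - ((-((D : ℤ) * m l)).toNat : ℤ) = (D : ℤ) * m l := by
      omega
    exact_mod_cast h2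
  have hS : ∀ x, Real.log (rf W B3 x) - Real.log (rf W A3 x) =
      ∑ t ∈ f.support, (f t : ℝ) * lr W t x := by
    intro x
    rw [lA3, lB3, ← Finset.sum_sub_distrib]
    refine Finset.sum_congr rfl fun t ht => ?_
    rw [← sub_mul, (Pv_at hc (hat t ht)).2 x]
    congr 1
    have h2 : (((f t).toNat : ℤ)) - ((-f t).toNat : ℤ) = f t := by omega
    exact_mod_cast h2
  have hAB : ∀ x, rf W (.mul A1 (.mul A2 A3)) x = Real.exp (D * c) * rf W (.mul B2 B3) x := by
    intro x
    apply Real.log_injOn_pos (rf_pos W _ x) (mul_pos (Real.exp_pos _) (rf_pos W _ x))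
    rw [Real.log_mul (Real.exp_pos _).ne' (rf_pos W _ x).ne', Real.log_exp, Pv_log_mul, Pv_log_mul,
      Pv_log_mul, lA1]
    have h1 := hL x
    have h2 := hS x
    have h3 := hrel x
    have h4 := hvx x
    have h5 : ∑ l ∈ L, (((D : ℤ) * m l : ℤ) : ℝ) * l x = D * ∑ l ∈ L, (m l : ℝ) * l x := by
      rw [Finset.mul_sum]
      refine Finset.sum_congr rfl fun l _ => ?_
      push_cast
      ring
    have h6 : (D : ℝ) * (M * Real.log (rf W a x)) =
        D * (∑ l ∈ L, (m l : ℝ) * l x + v x + c) := by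
      rw [← h3]
    push_cast
    rw [h5] at h1
    rw [← h4] at h2
    linarith
  obtain ⟨p₁, p₂, hp₁, hp₂, hp⟩ := Pv_quot hc (Pv_mul_ats hA1 (Pv_mul_ats hA2 hA3))
    (Pv_mul_ats hB2 hB3) hAB
  refine ⟨D * M, fun l => (D : ℤ) * m l, f.support, f, p₁, p₂, ?_, hp₁, hp₂, hfS, fun x => ?_⟩
  · exact Nat.mul_pos hD hM
  · have hlog : Real.log p₁ + D * c = Real.log p₂ := by
      rw [← hp, Real.log_mul (Nat.cast_ne_zero.2 (by omega)) (Real.exp_pos _).ne', Real.log_exp]
    have h3 := hrel x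
    have h4 := hvx x
    have h5 : ∑ l ∈ L, (((D : ℤ) * m l : ℤ) : ℝ) * l x = D * ∑ l ∈ L, (m l : ℝ) * l x := by
      rw [Finset.mul_sum]
      refine Finset.sum_congr rfl fun l _ => ?_
      push_cast
      ring
    have h6 : (D : ℝ) * (M * Real.log (rf W a x)) =
        D * (∑ l ∈ L, (m l : ℝ) * l x + v x + c) := by
      rw [← h3]
    rw [h5, ← h4, ← hlog]
    push_cast
    linarith

/-- The logarithms of the primes. -/
private theorem Pv_primes : LinearIndependent ℚ fun q : Nat.Primes => Real.log q := by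
  classical
  rw [linearIndependent_iff']
  intro s g hg q0 hq0
  obtain ⟨N, hN0, hN⟩ : ∃ N : ℕ, N ≠ 0 ∧ ∀ p ∈ s, ∃ m : ℤ, g p = m / N := by
    refine ⟨∏ p ∈ s, (g p).den, Finset.prod_ne_zero_iff.2 fun p _ => (g p).den_nz, fun p hp => ?_⟩
    obtain ⟨r, hr⟩ := Finset.dvd_prod_of_mem (fun p => (g p).den) hp
    have hr0 : r ≠ 0 := by
      rintro rfl
      rw [mul_zero] at hr
      exact Finset.prod_ne_zero_iff.2 (fun p _ => (g p).den_nz) hr
    refine ⟨(g p).num * r, ?_⟩
    rw [hr]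
    push_cast
    have h2 : (r : ℚ) ≠ 0 := Nat.cast_ne_zero.2 hr0
    rw [mul_div_mul_right _ _ h2]
    exact (Rat.num_div_den _).symm
  choose! k hk using hN
  have hNq : (N : ℚ) ≠ 0 := Nat.cast_ne_zero.2 hN0
  have h1 : ∑ q ∈ s, (k q : ℝ) * Real.log q = 0 := by
    have h2 : ∑ q ∈ s, (k q : ℝ) * Real.log q = N * ∑ q ∈ s, g q • Real.log (q : ℕ) := by
      rw [Finset.mul_sum]
      refine Finset.sum_congr rfl fun q hq => ?_
      rw [Rat.smul_def, hk q hq]
      have hNr : (N : ℝ) ≠ 0 := Nat.cast_ne_zero.2 hN0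
      push_cast
      field_simp
    rw [h2]
    rw [show (∑ q ∈ s, g q • Real.log (q : ℕ)) = 0 from hg, mul_zero]
  have h2 : ((∏ q ∈ s, (q : ℕ) ^ (k q).toNat : ℕ) : ℝ) = ((∏ q ∈ s, (q : ℕ) ^ (-k q).toNat : ℕ) : ℝ) := by
    have hpos : ∀ e : Nat.Primes → ℕ, 0 < ((∏ q ∈ s, (q : ℕ) ^ e q : ℕ) : ℝ) := by
      intro e
      have : 0 < ∏ q ∈ s, (q : ℕ) ^ e q := Finset.prod_pos fun q _ => pow_pos q.2.pos _
      exact_mod_cast this
    have hlog : ∀ e : Nat.Primes → ℕ, Real.log ((∏ q ∈ s, (q : ℕ) ^ e q : ℕ) : ℝ) =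
        ∑ q ∈ s, (e q : ℝ) * Real.log q := by
      intro e
      push_cast
      rw [Real.log_prod]
      · refine Finset.sum_congr rfl fun q _ => ?_
        rw [Real.log_pow]
      · intro q _
        exact pow_ne_zero _ (Nat.cast_ne_zero.2 q.2.ne_zero)
    apply Real.log_injOn_pos (hpos _) (hpos _)
    rw [hlog, hlog, ← sub_eq_zero, ← Finset.sum_sub_distrib, ← h1]
    refine Finset.sum_congr rfl fun q _ => ?_
    rw [← sub_mul]
    congr 1
    have h2 : (((k q).toNat : ℤ)) - ((-k q).toNat : ℤ) = k q := by omega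
    exact_mod_cast h2
  have h3 : (∏ q ∈ s, (q : ℕ) ^ (k q).toNat) = ∏ q ∈ s, (q : ℕ) ^ (-k q).toNat := by
    exact_mod_cast h2
  have hfac : ∀ e : Nat.Primes → ℕ, (∏ q ∈ s, (q : ℕ) ^ e q).factorization (q0 : ℕ) = e q0 := by
    intro e
    rw [Nat.factorization_prod fun q _ => pow_ne_zero _ q.2.ne_zero, Finsupp.finsetSum_apply,
      Finset.sum_eq_single q0]
    · rw [q0.2.factorization_pow, Finsupp.single_eq_same]
    · intro q _ hq
      rw [q.2.factorization_pow, Finsupp.single_apply, if_neg]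
      intro h
      exact hq (Subtype.ext h)
    · intro h
      exact absurd hq0 h
  have h4 := congrArg (fun n => n.factorization (q0 : ℕ)) h3
  simp only [hfac] at h4
  have h5 : k q0 = 0 := by omega
  rw [hk q0 hq0, h5, Int.cast_zero, zero_div]

/-- The functions `exp v · l` and `exp v · log p` are linearly independent over `ℚ` (the types of all
functions are given). -/
theorem exp_log_ind2 {V : Submodule ℚ (Pt W → ℝ)} {L : Finset (Pt W → ℝ)} (h : Ind V L) :
    LinearIndependent ℚ (fun p : V × (L ⊕ Nat.Primes) => fun x : Pt W =>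
      Real.exp ((p.1 : Pt W → ℝ) x) *
        (Sum.elim (fun l : L => (l : Pt W → ℝ) x) (fun q : Nat.Primes => Real.log (q : ℕ)) :
          L ⊕ Nat.Primes → ℝ) p.2) := by
  classical
  rw [linearIndependent_iff']
  intro s c hs p0 hp0
  obtain ⟨φ, hφ⟩ : ∃ φ : V × (L ⊕ Nat.Primes) → V × (L →₀ ℕ), φ =
      (fun p : V × (L ⊕ Nat.Primes) => ((p.1, Sum.elim (fun l : L => Finsupp.single l 1)
        (fun _ => 0) p.2) : V × (L →₀ ℕ))) := ⟨_, rfl⟩
  obtain ⟨κ, hκ⟩ : ∃ κ : L ⊕ Nat.Primes → ℝ, κ = (Sum.elim (fun _ : L => (1 : ℝ))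
      (fun q : Nat.Primes => Real.log (q : ℕ)) : L ⊕ Nat.Primes → ℝ) := ⟨_, rfl⟩
  have h1 : ∑ p ∈ s, Finsupp.single (φ p) ((c p : ℝ) * κ p.2) = 0 := by
    apply h
    rw [map_zero, map_sum]
    funext x
    have h2 := congrFun hs x
    rw [Finset.sum_apply] at h2
    rw [Finset.sum_apply, ← h2]
    refine Finset.sum_congr rfl fun p _ => ?_
    obtain ⟨v, l | q⟩ := p
    · rw [hφ, hκ, Finsupp.linearCombination_single]
      show (((c (v, Sum.inl l) : ℚ) : ℝ) * 1) * (Real.exp ((v : Pt W → ℝ) x) *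
        (Finsupp.single l 1).prod fun (l : L) (k : ℕ) => ((l : Pt W → ℝ) x) ^ k) =
        c (v, Sum.inl l) • (Real.exp ((v : Pt W → ℝ) x) * (l : Pt W → ℝ) x)
      rw [Finsupp.prod_single_index (h := fun (l : L) (k : ℕ) => ((l : Pt W → ℝ) x) ^ k)
        (pow_zero _), Rat.smul_def, pow_one, mul_one]
    · rw [hφ, hκ, Finsupp.linearCombination_single]
      show (((c (v, Sum.inr q) : ℚ) : ℝ) * Real.log (q : ℕ)) * (Real.exp ((v : Pt W → ℝ) x) *
        (0 : L →₀ ℕ).prod fun (l : L) (k : ℕ) => ((l : Pt W → ℝ) x) ^ k) =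
        c (v, Sum.inr q) • (Real.exp ((v : Pt W → ℝ) x) * Real.log (q : ℕ))
      rw [Finsupp.prod_zero_index, Rat.smul_def]
      ring
  have h2 : ∀ y, ∑ p ∈ s, (if φ p = y then (c p : ℝ) * κ p.2 else 0) = 0 := by
    intro y
    have h3 := DFunLike.congr_fun h1 y
    rw [Finsupp.finsetSum_apply, Finsupp.zero_apply] at h3
    simpa only [Finsupp.single_apply] using h3
  obtain ⟨v, l | q⟩ := p0
  · have h3 := h2 (φ (v, Sum.inl l))
    rw [Finset.sum_eq_single (v, Sum.inl l)] at h3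
    · rw [if_pos rfl, hκ] at h3
      simpa using h3
    · rintro ⟨v', l' | q'⟩ _ hne
      · rw [if_neg]
        intro h4
        rw [hφ] at h4
        simp only [Sum.elim_inl, Prod.mk.injEq] at h4
        obtain ⟨e1, e2⟩ := h4
        have e3 := Finsupp.single_left_injective one_ne_zero e2
        exact hne (by rw [e1, e3])
      · rw [if_neg]
        intro h4
        rw [hφ] at h4
        simp only [Sum.elim_inl, Sum.elim_inr, Prod.mk.injEq] at h4
        exact Finsupp.single_ne_zero.2 one_ne_zero h4.2.symm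
    · intro h4
      exact absurd hp0 h4
  · have h3 := h2 (φ (v, Sum.inr q))
    rw [← Finset.sum_filter] at h3
    have h4 : ∑ r ∈ s.preimage (fun r : Nat.Primes => ((v, Sum.inr r) : V × (L ⊕ Nat.Primes)))
          (fun r _ r' _ e => by simpa using e), c (v, Sum.inr r) • Real.log (r : ℕ) =
        ∑ p ∈ s.filter (fun p => φ p = φ (v, Sum.inr q)), (c p : ℝ) * κ p.2 := by
      refine Finset.sum_nbij (fun r : Nat.Primes => ((v, Sum.inr r) : V × (L ⊕ Nat.Primes)))
        ?_ ?_ ?_ ?_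
      · intro r hr
        rw [Finset.mem_preimage] at hr
        refine Finset.mem_filter.2 ⟨hr, ?_⟩
        rw [hφ]
        rfl
      · intro r _ r' _ e
        simpa using e
      · rintro ⟨v', l' | q'⟩ hp
        · exfalso
          have h5 := (Finset.mem_filter.1 hp).2
          rw [hφ] at h5
          simp only [Sum.elim_inl, Sum.elim_inr, Prod.mk.injEq] at h5
          exact Finsupp.single_ne_zero.2 one_ne_zero h5.2
        · have h5 := Finset.mem_filter.1 hp
          have h6 := h5.2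
          rw [hφ] at h6
          simp only [Sum.elim_inr, Prod.mk.injEq, and_true] at h6
          subst h6
          exact ⟨q', Finset.mem_coe.2 (Finset.mem_preimage.2 h5.1), rfl⟩
      · intro r _
        rw [hκ, Rat.smul_def]
        rfl
    rw [← h4] at h3
    exact linearIndependent_iff'.1 Pv_primes _ (fun r => c (v, Sum.inr r)) h3 q
      (Finset.mem_preimage.2 hp0)

/-- The functions `exp v · l` and `exp v · log p` are linearly independent over `ℚ`. -/
theorem exp_log_ind {V : Submodule ℚ (Pt W → ℝ)} {L : Finset (Pt W → ℝ)} (h : Ind V L) :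
    LinearIndependent ℚ (fun p : V × (L ⊕ Nat.Primes) => fun x : Pt W =>
      Real.exp ((p.1 : Pt W → ℝ) x) *
        Sum.elim (fun l : L => (l : Pt W → ℝ) x) (fun q => Real.log q) p.2) := by
  have h1 : (fun p : V × (L ⊕ Nat.Primes) => fun x : Pt W =>
      Real.exp ((p.1 : Pt W → ℝ) x) *
        Sum.elim (fun l : L => (l : Pt W → ℝ) x) (fun q => Real.log q) p.2) =
      (fun p : V × (L ⊕ Nat.Primes) => fun x : Pt W =>
      Real.exp ((p.1 : Pt W → ℝ) x) *
        (Sum.elim (fun l : L => (l : Pt W → ℝ) x) (fun q : Nat.Primes => Real.log (q : ℕ)) :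
          L ⊕ Nat.Primes → ℝ) p.2) := by
    funext p x
    obtain ⟨v, l | q⟩ := p
    · rfl
    · rfl
  rw [h1]
  exact exp_log_ind2 h

end Pool.Agent.TC
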