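import Pool.Agent.H.MP_b2d7dd_lc.TC.Rl
import Pool.Agent.H.MP_b2d7dd_lc.TC.Fx

/-!
# Module Rf: relations between logarithms hold for the numerators
-/

namespace Pool.Agent.TC

open Pool.Agent.TI (Tm)
open Finset

variable {W : Finset (List Bool)} {n L : ℕ} {ex : ℕ → Tm} {κ : ℕ} {Pk : ℕ → ℕ} {mu : ℕ → ℕ → ℕ}

theorem Rf_single (Q : Lx W) :
    Q = ∑ g ∈ Q.coeff.support, (Q.coeff g) • (AddMonoidAlgebra.single g 1 : Lx W) := by
  conv_lhs => rw [← AddMonoidAlgebra.sum_coeff_single Q]
  rw [Finsupp.sum]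
  refine Finset.sum_congr rfl fun g _ => ?_
  rw [AddMonoidAlgebra.smul_single, smul_eq_mul, mul_one]

/-- The value for an algebra map. -/
theorem Rf_evl {K : Type} [CommRing K] (j : Lx W →+* K) (Q : Lx W) :
    evl (fun g => j (AddMonoidAlgebra.single g 1)) Q = j Q := by
  conv_rhs => rw [Rf_single Q, map_sum]
  unfold evl
  rw [Finsupp.sum]
  refine Finset.sum_congr rfl fun g _ => ?_
  rw [map_zsmul, zsmul_eq_mul]

theorem Rf_mo {K : Type} [CommRing K] (j : Lx W →+* K) (S : AddSubmonoid (Gx W)) :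
    Mo S (fun g => j (AddMonoidAlgebra.single g 1)) := by
  refine ⟨?_, fun g _ h _ => ?_⟩
  · show j (AddMonoidAlgebra.single 0 1) = 1
    rw [← AddMonoidAlgebra.one_def, map_one]
  · show j (AddMonoidAlgebra.single (g + h) 1) = _
    rw [← map_mul, AddMonoidAlgebra.single_mul_single, mul_one]

theorem Rf_one : Mo (⊤ : AddSubmonoid (Gx W)) (fun _ => (1 : ℤ)) :=
  ⟨rfl, fun _ _ _ _ => (mul_one 1).symm⟩

theorem Rf_su (Q : Lx W) : Su ⊤ Q := fun _ _ => AddSubmonoid.mem_top _

theorem Rf_hP1 (t : Tm) : evl (fun _ => (1 : ℤ)) (hP W t) = e1 t := by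
  have hm := Rf_one (W := W)
  induction t with
  | one =>
    show evl (fun _ => (1 : ℤ)) (1 : Lx W) = _
    rw [evl_one hm]
    rfl
  | var w =>
    show evl (fun _ => (1 : ℤ)) (AddMonoidAlgebra.single (lr W (.var w), 0, 0) 1 : Lx W) = _
    rw [evl_single]
    rfl
  | add s t hs ht =>
    show evl (fun _ => (1 : ℤ)) (hP W s + hP W t) = ((e1 s + e1 t : ℕ) : ℤ)
    rw [evl_add, hs, ht, Nat.cast_add]
  | mul s t hs ht =>
    show evl (fun _ => (1 : ℤ)) (hP W s * hP W t) = ((e1 s * e1 t : ℕ) : ℤ)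
    rw [evl_mul hm (Rf_su _) (Rf_su _), hs, ht, Nat.cast_mul]
  | pow s t _ _ =>
    show evl (fun _ => (1 : ℤ)) (AddMonoidAlgebra.single (lr W (.pow s t), 0, 0) 1 : Lx W) = _
    rw [evl_single]
    rfl

theorem Rf_hP0 (t : Tm) : hP W t ≠ 0 := by
  intro h
  have h1 := Rf_hP1 (W := W) t
  rw [h, evl_zero] at h1
  have h2 := e1_pos t
  omega

theorem Rf_av {K : Type} [CommRing K] (j : Lx W →+* K) (t : Tm) :
    av (fun a => j (h1 W (lr W a))) t = j (hP W t) := by
  induction t with
  | one => exact (map_one j).symm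
  | var w => rfl
  | add s t hs ht =>
    show av _ s + av _ t = j (hP W s + hP W t)
    rw [hs, ht, map_add]
  | mul s t hs ht =>
    show av _ s * av _ t = j (hP W s * hP W t)
    rw [hs, ht, map_mul]
  | pow s t _ _ => rfl

theorem Rf_cz : CharZero (Lx W) := by
  refine ⟨fun m n h => ?_⟩
  have h1 : ∀ m : ℕ, evl (fun _ => (1 : ℤ)) (m : Lx W) = m := by
    intro m
    have e : (m : Lx W) = (m : ℤ) • (1 : Lx W) := by
      rw [zsmul_eq_mul, mul_one, Int.cast_natCast]
    rw [e, evl_zsmul, evl_one (Rf_one (W := W)), mul_one]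
    rfl
  have h2 : evl (fun _ => (1 : ℤ)) (m : Lx W) = evl (fun _ => (1 : ℤ)) (n : Lx W) :=
    congrArg (evl (fun _ => (1 : ℤ))) h
  rw [h1, h1] at h2
  exact_mod_cast h2

/-- Group equal subterms. -/
theorem Rf_group {K : Type} [Field K] [CharZero K] {as : List Tm} {p : Tm → K}
    (hch : Ch W as p) (hp : ∀ t : Tm, t ∉ ats t → p t = 0) {i : ℕ}
    (hi : exA ex i ⊆ At W as) (k : ℕ → ℤ) (hk : ∑ a ∈ range i, k a • lr W (ex a) = 0) :
    ∑ a ∈ range i, (k a : K) * p (ex a) = 0 := by
  classical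
  have hl : ∀ t : Tm, t ∉ ats t → lr W t = 0 := by
    intro t ht
    cases t with
    | one => rfl
    | var w => exact absurd rfl ht
    | add s t => rfl
    | mul s t => rfl
    | pow s t => exact absurd rfl ht
  obtain ⟨S, hS⟩ : ∃ S : Finset Tm, S = ((range i).filter fun a => ex a ∈ ats (ex a)).image ex :=
    ⟨_, rfl⟩
  have hgrp : ∀ {R : Type} [CommRing R] (q : Tm → R), (∀ t, t ∉ ats t → q t = 0) →
      ∑ t ∈ S, ((∑ a ∈ (range i).filter fun a => ex a = t, k a : ℤ) : R) * q t =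
        ∑ a ∈ range i, (k a : R) * q (ex a) := by
    intro R _ q hq
    have e1 : ∑ a ∈ range i, (k a : R) * q (ex a) =
        ∑ a ∈ (range i).filter fun a => ex a ∈ ats (ex a), (k a : R) * q (ex a) := by
      symm
      refine Finset.sum_subset (Finset.filter_subset _ _) fun a ha hna => ?_
      rw [hq (ex a) (fun h => hna (Finset.mem_filter.2 ⟨ha, h⟩)), mul_zero]
    rw [e1, ← Finset.sum_fiberwise_of_maps_to (s := (range i).filter fun a => ex a ∈ ats (ex a))
      (t := S) (g := ex) (fun a ha => by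
        rw [hS]
        exact Finset.mem_image_of_mem ex ha)]
    refine Finset.sum_congr rfl fun t ht => ?_
    rw [Int.cast_sum, Finset.sum_mul, Finset.filter_filter]
    have ht' : t ∈ ats t := by
      rw [hS] at ht
      obtain ⟨a, ha, rfl⟩ := Finset.mem_image.1 ht
      exact (Finset.mem_filter.1 ha).2
    have e2 : ((range i).filter fun a => ex a ∈ ats (ex a) ∧ ex a = t) =
        (range i).filter fun a => ex a = t := by
      refine Finset.filter_congr fun a _ => ⟨fun h => h.2, fun h => ⟨?_, h⟩⟩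
      rw [h]
      exact ht'
    rw [e2]
    refine Finset.sum_congr rfl fun a ha => ?_
    rw [(Finset.mem_filter.1 ha).2]
  have h1 := hch S (fun t => ∑ a ∈ (range i).filter fun a => ex a = t, k a) (by
      intro t ht
      rw [hS] at ht
      obtain ⟨a, ha, rfl⟩ := Finset.mem_image.1 ht
      rw [Finset.mem_filter, Finset.mem_range] at ha
      exact hi ⟨a, ha.1, rfl, ha.2⟩) (by
      intro x
      rw [hgrp (fun t => lr W t x) (fun t ht => by rw [hl t ht]; rfl)]
      have h2 := congrFun hk x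
      rw [Finset.sum_apply] at h2
      simp only [Pi.smul_apply, zsmul_eq_mul] at h2
      exact h2)
  rw [← hgrp p hp]
  exact h1

/-- The relations between the logarithms hold for the numerators. -/
theorem rel_fwd (h : FamC W n L ex) (hM : MB κ Pk mu (Bs1 ex L)) {i : ℕ} (hi : i ≤ L) (k : ℕ → ℤ)
    (hk : ∑ a ∈ range i, k a • lr W (ex a) = 0) : ∑ a ∈ range i, k a • cn W κ mu ex i a = 0 := by
  classical
  have hcz := Rf_cz (W := W)
  obtain ⟨F, hF, hC, j, hj⟩ : ∃ (F : Type) (_ : Field F) (_ : CharZero F) (j : Lx W →+* F),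
      Function.Injective j :=
    ⟨FractionRing (Lx W), inferInstance,
      charZero_of_injective_algebraMap (IsFractionRing.injective (Lx W) (FractionRing (Lx W))),
      algebraMap (Lx W) (FractionRing (Lx W)), IsFractionRing.injective _ _⟩
  obtain ⟨lc, hlc, hlc2⟩ := hM.lc (fun k => j (ga W k))
  obtain ⟨P, hPf, hPg, hPa, hPl, hPi⟩ : ∃ P : Pr F, (P.f = fun a => j (h1 W (lr W a))) ∧
      (P.g = fun a => j (h2 W (lr W a))) ∧ (P.α = fun w => j (al W w)) ∧ P.lc = lc ∧
      P.iv = fun x => x⁻¹ := ⟨⟨fun a => j (h1 W (lr W a)), fun a => j (h2 W (lr W a)),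
        fun w => j (al W w), lc, fun x => x⁻¹⟩, rfl, rfl, rfl, rfl, rfl⟩
  have hne : ∀ t : Tm, av P.f t ≠ 0 := by
    intro t
    rw [hPf, Rf_av]
    intro h0
    exact Rf_hP0 (W := W) t (hj (h0.trans (map_zero j).symm))
  obtain ⟨as, has, hsub⟩ := h.cl hi
  have hch := ch_F (W := W) (P := P) (f := fun v => j (h1 W v)) (g := fun v => j (h2 W v))
    ⟨by
      show j (AddMonoidAlgebra.single (0, 0, 0) 1) = 1
      exact (Rf_mo j ⊤).zero, fun v _ w _ => by
      show j (AddMonoidAlgebra.single (v + w, 0, 0) 1) = j (AddMonoidAlgebra.single (v, 0, 0) 1) *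
        j (AddMonoidAlgebra.single (w, 0, 0) 1)
      rw [← (Rf_mo j ⊤).add _ (AddSubmonoid.mem_top _) _ (AddSubmonoid.mem_top _)]
      simp⟩
    ⟨by
      show j (AddMonoidAlgebra.single (0, 0, 0) 1) = 1
      exact (Rf_mo j ⊤).zero, fun v _ w _ => by
      show j (AddMonoidAlgebra.single (0, v + w, 0) 1) = j (AddMonoidAlgebra.single (0, v, 0) 1) *
        j (AddMonoidAlgebra.single (0, w, 0) 1)
      rw [← (Rf_mo j ⊤).add _ (AddSubmonoid.mem_top _) _ (AddSubmonoid.mem_top _)]
      simp⟩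
    (fun a => by rw [hPf]) (fun a => by rw [hPg]) hPi hne (by rw [hPl]; exact hlc) as has
  have hsum := Rf_group hch (by
    intro t ht
    cases t with
    | one => rfl
    | var w => exact absurd rfl ht
    | add s t => rfl
    | mul s t => rfl
    | pow s t => exact absurd rfl ht) hsub k hk
  have hfit : Fit W κ mu Set.univ (fun g => j (AddMonoidAlgebra.single g 1)) P := by
    refine ⟨Rf_mo j _, fun a _ => ?_, fun a _ => ?_, fun w => ?_⟩
    · rw [hPf]
      rfl
    · rw [hPg]
      rfl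
    · rw [hPa]
      rfl
  have hcl : ClA Set.univ := fun _ _ _ => ⟨Set.subset_univ _, Set.subset_univ _⟩
  have key : ∀ a < L, j (phP W κ mu (ex a)) = ph P (ex a) * j (dn W (ex a)) := by
    intro a ha
    rw [← Rf_evl j, ← Rf_evl j (dn W (ex a))]
    cases hx : ex a with
    | one =>
      show evl _ (0 : Lx W) = 0 * _
      rw [evl_zero, zero_mul]
    | var w =>
      show evl _ (al W w) = P.α w * evl _ (1 : Lx W)
      rw [Rf_evl, Rf_evl, map_one, mul_one, hPa]
    | add s t =>
      show evl _ (0 : Lx W) = 0 * _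
      rw [evl_zero, zero_mul]
    | mul s t =>
      show evl _ (0 : Lx W) = 0 * _
      rw [evl_zero, zero_mul]
    | pow s t =>
      refine evl_phP hcl hfit (Set.subset_univ _) (Set.subset_univ _) fun c hc => ⟨?_, ?_⟩
      · rw [hPi]
        exact mul_inv_cancel₀ (hne c)
      · rw [hPl]
        refine hlc2 _ ?_
        rw [← hx] at hc
        obtain ⟨a', ha', b, hb⟩ := h.bs a ha c hc
        exact ⟨a', lt_of_le_of_lt ha' ha, c, b, hb, rfl⟩
  refine hj ?_
  rw [map_zero, map_sum]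
  have e : ∀ a ∈ range i, j (k a • cn W κ mu ex i a) =
      ((k a : F) * ph P (ex a)) * ∏ b ∈ range i, j (dn W (ex b)) := by
    intro a ha
    rw [map_zsmul, zsmul_eq_mul, cn, map_mul, map_prod,
      key a (lt_of_lt_of_le (Finset.mem_range.1 ha) hi), ← Finset.mul_prod_erase _ _ ha]
    ring
  rw [Finset.sum_congr rfl e, ← Finset.sum_mul, hsum, zero_mul]

end Pool.Agent.TC
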