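import Pool.Agent.H.MP_b2d7dd_lc.TC.Nb
import Pool.Agent.H.MP_b2d7dd_lc.TC.Mb
import Pool.Agent.H.MP_b2d7dd_lc.TC.Cf

/-!
# Module Rl: the relations between the logarithms and between the numerators

`ex a` (`a < L`) = the subterms of an identity in the order of the tokens. `exA ex i` = the variables
and powers among the first `i` subterms. `cn i a` = the numerator of `ph (ex a)` over the common
denominator of the first `i` subterms.
-/

namespace Pool.Agent.TC

open Pool.Agent.TI (Tm)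
open Finset

/-- The variables and powers among the first subterms. -/
def exA (ex : ℕ → Tm) (i : ℕ) : Set Tm := {u | ∃ a < i, u = ex a ∧ u ∈ ats u}

/-- Families of subterms. -/
structure FamC (W : Finset (List Bool)) (n L : ℕ) (ex : ℕ → Tm) : Prop where
  sz : ∀ a, (ex a).sz ≤ n + 1
  le : L ≤ n
  at1 : ∀ i < L, ats (ex i) ⊆ exA ex (i + 1)
  at2 : ∀ i < L, ∀ a b, ex i = .pow a b → ats a ⊆ exA ex i ∧ ats b ⊆ exA ex i
  bs : ∀ i < L, ∀ c ∈ bases (ex i), ∃ a ≤ i, ∃ b, ex a = .pow c b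
  var : ∀ i < L, ∀ w, ex i = .var w → w ∈ W
  big : ∀ i < L, ∀ a b, ex i = .pow a b → Big a ∧ NC b

/-- The numbers `e1` of the bases. -/
def Bs1 (ex : ℕ → Tm) (L : ℕ) : Set ℕ := {m | ∃ a < L, ∃ c b, ex a = .pow c b ∧ m = e1 c}

variable {W : Finset (List Bool)} {n L : ℕ} {ex : ℕ → Tm} {κ : ℕ} {Pk : ℕ → ℕ} {mu : ℕ → ℕ → ℕ}

/-- The numerators over the common denominator. -/
noncomputable def cn (W : Finset (List Bool)) (κ : ℕ) (mu : ℕ → ℕ → ℕ) (ex : ℕ → Tm) (i a : ℕ) :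
    Lx W :=
  phP W κ mu (ex a) * ∏ b ∈ (range i).erase a, dn W (ex b)

/-- The common denominator. -/
noncomputable def Dn (W : Finset (List Bool)) (ex : ℕ → Tm) (i : ℕ) : Lx W :=
  ∏ b ∈ range i, dn W (ex b)

private theorem Rl_mono {i j : ℕ} (hij : i ≤ j) : exA ex i ⊆ exA ex j := by
  rintro u ⟨a, ha, h1, h2⟩
  exact ⟨a, lt_of_lt_of_le ha hij, h1, h2⟩

private theorem Rl_atom {u t : Tm} (h : u ∈ ats t) : (∃ w, u = .var w) ∨ ∃ a b, u = .pow a b := by
  induction t with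
  | one => exact absurd h (Set.notMem_empty u)
  | var w => exact Or.inl ⟨w, h⟩
  | add s t hs ht =>
    rcases h with h | h
    · exact hs h
    · exact ht h
  | mul s t hs ht =>
    rcases h with h | h
    · exact hs h
    · exact ht h
  | pow s t _ _ => exact Or.inr ⟨s, t, h⟩

theorem FamC.clA (h : FamC W n L ex) {i : ℕ} (hi : i ≤ L) : ClA (exA ex i) := by
  intro a b hab
  obtain ⟨c, hc, h1, -⟩ := hab
  obtain ⟨h2, h3⟩ := h.at2 c (lt_of_lt_of_le hc hi) a b h1.symm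
  exact ⟨h2.trans (Rl_mono hc.le), h3.trans (Rl_mono hc.le)⟩

/-- The atoms of the first subterms are atoms of a closed list. -/
theorem FamC.cl (h : FamC W n L ex) {i : ℕ} (hi : i ≤ L) :
    ∃ as, Cl W as ∧ exA ex i ⊆ At W as := by
  induction i with
  | zero =>
    refine ⟨[], trivial, ?_⟩
    rintro u ⟨a, ha, -⟩
    exact absurd ha (Nat.not_lt_zero a)
  | succ i ih =>
    obtain ⟨as, h1, h2⟩ := ih (by omega)
    have hiL : i < L := by omega
    by_cases hp : ∃ a b, ex i = .pow a b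
    · obtain ⟨a, b, hab⟩ := hp
      obtain ⟨h3, h4⟩ := h.at2 i hiL a b hab
      obtain ⟨h5, h6⟩ := h.big i hiL a b hab
      refine ⟨.pow a b :: as, ⟨⟨a, b, rfl, h3.trans h2, h4.trans h2, h5, h6⟩, h1⟩, ?_⟩
      rintro u ⟨c, hc, hu, hu'⟩
      rcases Nat.lt_succ_iff_lt_or_eq.1 hc with hc | hc
      · exact Cl.at_cons _ (h2 ⟨c, hc, hu, hu'⟩)
      · rw [hc, hab] at hu
        rw [hu]
        exact Or.inr List.mem_cons_self
    · refine ⟨as, h1, ?_⟩
      rintro u ⟨c, hc, hu, hu'⟩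
      rcases Nat.lt_succ_iff_lt_or_eq.1 hc with hc | hc
      · exact h2 ⟨c, hc, hu, hu'⟩
      · rw [hc] at hu
        rcases Rl_atom hu' with ⟨w, hw⟩ | ⟨a, b, hab⟩
        · exact Or.inl ⟨w, h.var i hiL w (hu.symm.trans hw), hw⟩
        · exact absurd ⟨a, b, hu.symm.trans hab⟩ hp

theorem VA_exA (i : ℕ) : VA W (exA ex i) = Vn (fun a => lr W (ex a)) i := by
  refine le_antisymm ?_ ?_
  · refine AddSubmonoid.closure_mono ?_
    rintro v ⟨u, ⟨a, ha, hu, -⟩, rfl⟩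
    exact ⟨a, ha, by rw [hu]⟩
  · refine (AddSubmonoid.closure_le).2 ?_
    rintro v ⟨a, ha, rfl⟩
    change lr W (ex a) ∈ VA W (exA ex i)
    cases hx : ex a with
    | one => exact (VA W (exA ex i)).zero_mem
    | var w => exact lr_mem_VA ⟨a, ha, hx.symm, rfl⟩
    | add s t => exact (VA W (exA ex i)).zero_mem
    | mul s t => exact (VA W (exA ex i)).zero_mem
    | pow s t => exact lr_mem_VA ⟨a, ha, hx.symm, rfl⟩

theorem cn_bound (h : FamC W n L ex) (hM : MB κ Pk mu (Bs1 ex L)) {i : ℕ} (hi : i ≤ L) {a : ℕ}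
    (ha : a < i) (g : Gx W) :
    |(cn W κ mu ex i a).coeff g| ≤ ((2 ^ (n + 3) ^ 3 : ℕ) : ℤ) := by
  have hMu : Mu κ mu (ex a) := by
    intro c hc
    obtain ⟨a', ha', b, hb⟩ := h.bs a (by omega) c hc
    exact hM.sum_le ⟨a', by omega, c, b, hb, rfl⟩ (e1_le c)
  have h1 : nrm (phP W κ mu (ex a)) ≤ 2 ^ (3 * (n + 1) ^ 2) :=
    (nrm_ph hMu).trans (Nat.pow_le_pow_right two_pos
      (Nat.mul_le_mul_left 3 (Nat.pow_le_pow_left (h.sz a) 2)))
  have h2 : ∀ b, nrm (dn W (ex b)) ≤ 2 ^ (n + 1) ^ 2 := fun b =>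
    (nrm_P (ex b)).2.2.trans (Nat.pow_le_pow_right two_pos (Nat.pow_le_pow_left (h.sz b) 2))
  have h3 : nrm (∏ b ∈ (range i).erase a, dn W (ex b)) ≤ 2 ^ (n * (n + 1) ^ 2) := by
    refine (nrm_prod _ _).trans ((Finset.prod_le_pow_card _ _ _ fun b _ => h2 b).trans ?_)
    rw [← pow_mul, mul_comm]
    refine Nat.pow_le_pow_right two_pos (Nat.mul_le_mul_right _ ?_)
    have h4 := Finset.card_erase_le (s := range i) (a := a)
    rw [card_range] at h4
    have h5 := h.le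
    omega
  have h6 : nrm (cn W κ mu ex i a) ≤ 2 ^ (n + 3) ^ 3 := by
    refine nrm_mul.trans ((Nat.mul_le_mul h1 h3).trans ?_)
    rw [← pow_add]
    refine Nat.pow_le_pow_right two_pos ?_
    nlinarith
  exact (coeff_le_nrm g).trans (by exact_mod_cast h6)

end Pool.Agent.TC
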