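import Pool.Agent.H.MP_b2d7dd_lc.TC.Df

/-!
# Module Rt: the rational form
-/

namespace Pool.Agent.TC

variable {ι H : Type} [Field H] [CharZero H] {D : ι → Derivation ℤ H H} {K : Subfield H}

omit [CharZero H] in
private theorem ld_mul (d : Derivation ℤ H H) {x y : H} (hx : x ≠ 0) (hy : y ≠ 0) :
    d (x * y) / (x * y) = d x / x + d y / y := by
  rw [Derivation.leibniz, smul_eq_mul, smul_eq_mul]
  field_simp
  ring

omit [CharZero H] in
private theorem ld_pow (d : Derivation ℤ H H) {x : H} (hx : x ≠ 0) (n : ℕ) :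
    d (x ^ n) / x ^ n = n * (d x / x) := by
  induction n with
  | zero => simp
  | succ n ih => rw [pow_succ, ld_mul d (pow_ne_zero _ hx) hx, ih]; push_cast; ring

omit [CharZero H] in
private theorem ld_inv (d : Derivation ℤ H H) {x : H} (hx : x ≠ 0) :
    d x⁻¹ / x⁻¹ = -(d x / x) := by
  have h := ld_mul d hx (inv_ne_zero hx)
  rw [mul_inv_cancel₀ hx, Derivation.map_one_eq_zero, zero_div] at h
  exact (neg_eq_of_add_eq_zero_right h.symm).symm

omit [CharZero H] in
private theorem ld_zpow (d : Derivation ℤ H H) {x : H} (hx : x ≠ 0) (k : ℤ) :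
    d (x ^ k) / x ^ k = k * (d x / x) := by
  rcases k with n | n
  · rw [Int.ofNat_eq_natCast, zpow_natCast, ld_pow d hx, Int.cast_natCast]
  · rw [zpow_negSucc, ld_inv d (pow_ne_zero _ hx), ld_pow d hx]
    push_cast
    ring

omit [CharZero H] in
private theorem ld_prod (d : Derivation ℤ H H) {α : Type} (s : Finset α) (f : α → H)
    (hf : ∀ a ∈ s, f a ≠ 0) :
    d (∏ a ∈ s, f a) / ∏ a ∈ s, f a = ∑ a ∈ s, d (f a) / f a := by
  classical
  induction s using Finset.induction_on with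
  | empty => simp
  | insert a s ha ih =>
    rw [Finset.prod_insert ha, Finset.sum_insert ha, ld_mul d (hf a (Finset.mem_insert_self _ _))
      (Finset.prod_ne_zero_iff.2 fun b hb => hf b (Finset.mem_insert_of_mem hb)),
      ih fun b hb => hf b (Finset.mem_insert_of_mem hb)]

private theorem sep_lin {V : Type} [AddCommGroup V] [Module ℚ V] (p : Submodule ℚ V) (x : V)
    (hx : x ∉ p) : ∃ f : V →ₗ[ℚ] ℚ, f x ≠ 0 ∧ ∀ y ∈ p, f y = 0 := by
  obtain ⟨f, hf1, hf2⟩ := Submodule.exists_dual_map_eq_bot_of_notMem hx inferInstance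
  refine ⟨f, hf1, fun y hy => ?_⟩
  have : f y ∈ Submodule.map f p := Submodule.mem_map_of_mem hy
  rw [hf2] at this
  simpa using this

/-- Linear algebra: additive functions separate the elements of a group up to torsion. -/
theorem sep_add {G : Type} [AddCommGroup G] {F : Type} [Field F] [CharZero F] {L : Type}
    [Fintype L] (a : G) (x : L → G) (r : L → F)
    (h : ∀ ν : G →+ F, ν a = ∑ l, r l * ν (x l)) :
    ∃ (M : ℕ) (m : L → ℤ), 1 ≤ M ∧ M • a = ∑ l, m l • x l := by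
  classical
  let j : G →ₗ[ℤ] TensorProduct ℤ ℚ G := TensorProduct.mk ℤ ℚ G 1
  have hmem : j a ∈ Submodule.span ℚ (Set.range fun l => j (x l)) := by
    by_contra hn
    obtain ⟨f, hf1, hf2⟩ := sep_lin _ _ hn
    have hf0 : ∀ l, f (j (x l)) = 0 := fun l => hf2 _ (Submodule.subset_span ⟨l, rfl⟩)
    let ν : G →+ F := (algebraMap ℚ F).toAddMonoidHom.comp
      (f.toAddMonoidHom.comp j.toAddMonoidHom)
    have hν : ∀ g, ν g = algebraMap ℚ F (f (j g)) := fun g => rfl
    have h2 := h ν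
    rw [hν] at h2
    simp only [hν, hf0, map_zero, mul_zero, Finset.sum_const_zero] at h2
    exact hf1 ((map_eq_zero _).1 h2)
  obtain ⟨c, hc⟩ := (Submodule.mem_span_range_iff_exists_fun ℚ).1 hmem
  have hz : ∀ l, ∃ z : ℤ, ((∏ k, (c k).den : ℕ) : ℚ) * c l = z := by
    intro l
    obtain ⟨k, hk⟩ := Finset.dvd_prod_of_mem (fun k => (c k).den) (Finset.mem_univ l)
    refine ⟨k * (c l).num, ?_⟩
    rw [hk]
    push_cast
    have := Rat.den_mul_eq_num (c l)
    rw [mul_right_comm, this]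
    ring
  choose z hz using hz
  have hM0 : 1 ≤ ∏ k, (c k).den := Finset.prod_pos fun k _ => (c k).den_pos
  have hj : j ((∏ k, (c k).den) • a - ∑ l, z l • x l) = 0 := by
    rw [map_sub, map_nsmul, map_sum, ← hc, Finset.smul_sum, ← Finset.sum_sub_distrib]
    refine Finset.sum_eq_zero fun l _ => ?_
    rw [map_zsmul, ← Nat.cast_smul_eq_nsmul ℚ, ← Int.cast_smul_eq_zsmul ℚ, smul_smul, hz, sub_self]
  have hloc : IsLocalizedModule (nonZeroDivisors ℤ) j :=
    IsLocalization.tensorProduct_isLocalizedModule (nonZeroDivisors ℤ) ℚ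
  obtain ⟨s, hs⟩ := (IsLocalizedModule.eq_zero_iff (nonZeroDivisors ℤ) j).1 hj
  have hs0 : (s : ℤ) ≠ 0 := nonZeroDivisors.ne_zero s.2
  have hs' : (s : ℤ) • ((∏ k, (c k).den) • a - ∑ l, z l • x l) = 0 := hs
  refine ⟨(s : ℤ).natAbs * ∏ k, (c k).den, fun l => ((s : ℤ).natAbs : ℤ) * z l,
    Nat.mul_pos (Int.natAbs_pos.2 hs0) hM0, ?_⟩
  have h3 : ((s : ℤ).natAbs : ℤ) • ((∏ k, (c k).den) • a - ∑ l, z l • x l) = 0 := by
    rcases Int.natAbs_eq (s : ℤ) with h4 | h4
    · rw [← h4, hs']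
    · have : ((s : ℤ).natAbs : ℤ) = -(s : ℤ) := by omega
      rw [this, neg_smul, hs', neg_zero]
  rw [smul_sub, sub_eq_zero, Finset.smul_sum] at h3
  rw [mul_smul, ← natCast_zsmul _ (s : ℤ).natAbs, h3]
  exact Finset.sum_congr rfl fun l _ => by rw [mul_smul]

/-- If `u' = v' / v` in `K`, then a power of `v` is, up to a constant, a product of powers of the
second components of `Λ`, and the multiple of `u` is the combination of the first ones. -/
theorem SK.rat {Λ : Set (H × H)} (h : SK D K Λ)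
    (hΛ : ∀ p ∈ Λ, p.1 ∈ K ∧ p.2 ∈ K ∧ p.2 ≠ 0 ∧ ∀ i, D i p.1 = D i p.2 / p.2)
    {u v : H} (hu : u ∈ K) (hv : v ∈ K) (hv0 : v ≠ 0) (huv : ∀ i, D i u = D i v / v) :
    ∃ (M : ℕ) (m : (H × H) →₀ ℤ) (c : H), 1 ≤ M ∧ (∀ p ∈ m.support, p ∈ Λ) ∧ c ∈ Cst D ∧
      v ^ M = c * m.prod (fun p k => p.2 ^ k) ∧
      (M : H) * u - m.sum (fun p k => (k : H) * p.1) ∈ Cst D := by
  classical
  obtain ⟨e, he, -, hν⟩ := h Unit u (fun _ => 1) (fun _ => v) hu (fun _ => ⟨hv, hv0⟩)
    (by intro i; simp [huv i])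
  let C' : Subgroup (↥K)ˣ :=
    { carrier := {w | ((w : ↥K) : H) ∈ Cst D}
      mul_mem' := by
        intro a b ha hb
        have : (((a * b : (↥K)ˣ) : ↥K) : H) = ((a : ↥K) : H) * ((b : ↥K) : H) := by push_cast; rfl
        rw [Set.mem_ofPred_eq, this]
        exact (Cst D).mul_mem ha hb
      one_mem' := by
        rw [Set.mem_ofPred_eq]
        exact (Cst D).one_mem
      inv_mem' := by
        intro a ha
        have : (((a⁻¹ : (↥K)ˣ) : ↥K) : H) = ((a : ↥K) : H)⁻¹ := by push_cast; rfl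
        rw [Set.mem_ofPred_eq, this]
        exact (Cst D).inv_mem ha }
  have hC' : ∀ w : (↥K)ˣ, w ∈ C' ↔ ((w : ↥K) : H) ∈ Cst D := fun w => Iff.rfl
  have hne : ∀ x : H, ∀ hx : x ∈ K, x ≠ 0 → (⟨x, hx⟩ : ↥K) ≠ 0 := by
    intro x hx h0 h1
    exact h0 (congrArg Subtype.val h1)
  let un : ∀ x : H, x ∈ K → x ≠ 0 → (↥K)ˣ := fun x hx h0 => Units.mk0 ⟨x, hx⟩ (hne x hx h0)
  have hun : ∀ x hx h0, ((un x hx h0 : ↥K) : H) = x := fun x hx h0 => rfl
  have key := sep_add (G := Additive ((↥K)ˣ ⧸ C')) (F := Cst D) (L := e.support)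
    (Additive.ofMul (QuotientGroup.mk' C' (un v hv hv0)))
    (fun l => Additive.ofMul (QuotientGroup.mk' C' (un l.1.2 (hΛ _ (he _ l.2)).2.1
      (hΛ _ (he _ l.2)).2.2.1))) (fun l => e l.1) (by
    intro ν
    let ν' : H → Cst D := fun x => if hx : x ∈ K ∧ x ≠ 0 then
      ν (Additive.ofMul (QuotientGroup.mk' C' (un x hx.1 hx.2))) else 0
    have hν' : ∀ x (hx : x ∈ K) (h0 : x ≠ 0),
        ν' x = ν (Additive.ofMul (QuotientGroup.mk' C' (un x hx h0))) :=
      fun x hx h0 => dif_pos ⟨hx, h0⟩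
    have hVl : Vl D K ν' := by
      refine ⟨fun a ha b hb ha0 hb0 => ?_, fun c hc hc0 => ?_⟩
      · rw [hν' _ ha ha0, hν' _ hb hb0, hν' _ (K.mul_mem ha hb) (mul_ne_zero ha0 hb0), ← map_add,
          ← ofMul_mul, ← map_mul]
        congr 3
        exact Units.ext (Subtype.ext rfl)
      · by_cases hK : c ∈ K
        · rw [hν' _ hK hc0]
          have : QuotientGroup.mk' C' (un c hK hc0) = 1 :=
            (QuotientGroup.eq_one_iff _).2 ((hC' _).2 (by rw [hun _ hK hc0]; exact hc))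
          rw [this, ofMul_one, map_zero]
        · exact dif_neg fun h => hK h.1
    have h1 := hν ν' hVl
    rw [Finset.univ_unique, Finset.sum_singleton, one_mul, hν' v hv hv0] at h1
    rw [h1, Finsupp.sum, ← Finset.sum_attach]
    refine Finset.sum_congr rfl fun l _ => ?_
    rw [hν' l.1.2 (hΛ _ (he _ l.2)).2.1 (hΛ _ (he _ l.2)).2.2.1])
  obtain ⟨M, m, hM, hMm⟩ := key
  set W : (↥K)ˣ := ∏ l : e.support, un l.1.2 (hΛ _ (he _ l.2)).2.1
      (hΛ _ (he _ l.2)).2.2.1 ^ m l with hW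
  have h1 : QuotientGroup.mk' C' (un v hv hv0 ^ M) = QuotientGroup.mk' C' W := by
    apply Additive.ofMul.injective
    rw [map_pow, ofMul_pow, hMm, hW, map_prod]
    refine Eq.trans ?_ (ofMul_prod _ _).symm
    refine Finset.sum_congr rfl fun l _ => ?_
    rw [map_zpow, ofMul_zpow]
  have h2 : un v hv hv0 ^ M / W ∈ C' := by
    rw [← QuotientGroup.eq_one_iff, ← QuotientGroup.mk'_apply, map_div, h1, div_self']
  let m' : (H × H) →₀ ℤ := Finsupp.onFinset e.support
    (fun p => if hp : p ∈ e.support then m ⟨p, hp⟩ else 0) (by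
      intro p hp
      by_contra hn
      exact hp (dif_neg hn))
  have hm' : ∀ l : e.support, m' l.1 = m l := fun l => dif_pos l.2
  have hsub : m'.support ⊆ e.support := Finsupp.support_onFinset_subset
  have hWH : ((W : ↥K) : H) = m'.prod (fun p k => p.2 ^ k) := by
    rw [Finsupp.prod_of_support_subset m' hsub _ (fun _ _ => zpow_zero _), ← Finset.prod_attach, hW]
    push_cast
    refine Finset.prod_congr rfl fun l _ => ?_
    rw [hm' l]
    change K.subtype (_ ^ m l) = _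
    rw [map_zpow₀]
    rfl
  have h3 : v ^ M / ((W : ↥K) : H) ∈ Cst D := by
    have := (hC' _).1 h2
    push_cast at this
    exact this
  have hW0 : ((W : ↥K) : H) ≠ 0 := by
    intro h0
    exact W.ne_zero (Subtype.ext h0)
  have h4 : v ^ M = v ^ M / ((W : ↥K) : H) * m'.prod (fun p k => p.2 ^ k) := by
    rw [← hWH, div_mul_cancel₀ _ hW0]
  refine ⟨M, m', v ^ M / ((W : ↥K) : H), hM, fun p hp => he _ (hsub hp), h3, h4, ?_⟩
  rw [mem_Cst]
  intro i
  have hvM : v ^ M ≠ 0 := pow_ne_zero _ hv0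
  have h5 := ld_pow (D i) hv0 M
  rw [h4, ld_mul (D i) (div_ne_zero hvM hW0) (by rw [← hWH]; exact hW0), mem_Cst.1 h3 i,
    zero_div, zero_add, Finsupp.prod, ld_prod (D i) _ _ fun p hp => zpow_ne_zero _
      (hΛ _ (he _ (hsub hp))).2.2.1] at h5
  rw [map_sub, Finsupp.sum, map_sum, ← nsmul_eq_mul, map_nsmul, huv i, nsmul_eq_mul, ← h5,
    ← Finset.sum_sub_distrib]
  refine Finset.sum_eq_zero fun p hp => ?_
  rw [ld_zpow (D i) (hΛ _ (he _ (hsub hp))).2.2.1, ← zsmul_eq_mul (p.1), map_zsmul,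
    (hΛ _ (he _ (hsub hp))).2.2.2 i, zsmul_eq_mul, sub_self]

end Pool.Agent.TC
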