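import Pool.Agent.H.MP_b2d7dd_lc.TC.Df

/-!
# Module Tx: algebraic logarithms and exponentials
-/

namespace Pool.Agent.TC

variable {ι H : Type} [Field H] [CharZero H] {D : ι → Derivation ℤ H H} {K : Subfield H}

open Polynomial

/-- The derivation on `K`, as an additive map. -/
private noncomputable def rdh (hK : Stb D K) (i : ι) : K →+ K where
  toFun a := ⟨D i (a : H), hK.map i _ a.2⟩
  map_zero' := by
    apply Subtype.ext
    simp
  map_add' a b := by
    apply Subtype.ext
    simp

omit [CharZero H] in
private theorem rdh_coe (hK : Stb D K) (i : ι) (a : K) : ((rdh hK i a : K) : H) = D i (a : H) := rfl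

/-- The derivation of the coefficients. -/
private noncomputable def dcf (hK : Stb D K) (i : ι) (p : K[X]) : K[X] :=
  ∑ j ∈ Finset.range (p.natDegree + 1), monomial j (rdh hK i (p.coeff j))

omit [CharZero H] in
private theorem coeff_dcf (hK : Stb D K) (i : ι) (p : K[X]) (j : ℕ) :
    (dcf hK i p).coeff j = rdh hK i (p.coeff j) := by
  unfold dcf
  rw [finsetSum_coeff]
  simp only [coeff_monomial]
  rw [Finset.sum_ite_eq']
  split_ifs with h
  · rfl
  · have : p.coeff j = 0 := by
      apply coeff_eq_zero_of_natDegree_lt
      simp only [Finset.mem_range, not_lt] at h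
      omega
    rw [this, map_zero]

omit [CharZero H] in
private theorem dcf_add (hK : Stb D K) (i : ι) (p q : K[X]) :
    dcf hK i (p + q) = dcf hK i p + dcf hK i q := by
  ext j
  simp [coeff_dcf]

omit [CharZero H] in
private theorem dcf_mon (hK : Stb D K) (i : ι) (n : ℕ) (a : K) :
    dcf hK i (monomial n a) = monomial n (rdh hK i a) := by
  ext j
  rw [coeff_dcf, coeff_monomial, coeff_monomial]
  split_ifs with h
  · rfl
  · simp

omit [CharZero H] in
/-- The chain rule. -/
private theorem D_aeval (hK : Stb D K) (i : ι) (θ : H) (p : K[X]) :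
    D i (aeval θ p) = aeval θ (dcf hK i p) + aeval θ (derivative p) * D i θ := by
  induction p using Polynomial.induction_on' with
  | add p q hp hq =>
    rw [dcf_add, derivative_add, map_add, map_add, map_add, map_add, hp, hq]
    ring
  | monomial n a =>
    rw [dcf_mon, derivative_monomial, aeval_monomial, aeval_monomial, aeval_monomial]
    have h1 : ∀ x : K, algebraMap K H x = (x : H) := fun _ => rfl
    rw [h1, h1, h1, rdh_coe, Derivation.leibniz, Derivation.leibniz_pow]
    simp only [smul_eq_mul, nsmul_eq_mul, Subfield.coe_mul, SubringClass.coe_natCast]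
    ring

omit [CharZero H] in
private theorem eq_zero_of_deg {θ : H} (ha : IsAlgebraic K θ) (Q : K[X])
    (hc : ∀ j, (minpoly K θ).natDegree ≤ j → Q.coeff j = 0) (h0 : aeval θ Q = 0) : Q = 0 := by
  by_contra hne
  have h1 : (minpoly K θ).natDegree ≤ Q.natDegree :=
    natDegree_le_natDegree (minpoly.degree_le_of_ne_zero K θ hne h0)
  have h2 := hc Q.natDegree h1
  exact hne (leadingCoeff_eq_zero.1 h2)

/-- An algebraic element with derivatives in `K` is in `K` (the sum of the conjugates). -/
theorem alg_log (hK : Stb D K) {θ : H} (h : ∀ i, D i θ ∈ K) (ha : IsAlgebraic K θ) : θ ∈ K := by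
  have hint : IsIntegral K θ := ha.isIntegral
  set P := minpoly K θ with hP
  have hmon : P.Monic := minpoly.monic hint
  have hpos : 0 < P.natDegree := minpoly.natDegree_pos hint
  have hPθ : aeval θ P = 0 := minpoly.aeval K θ
  have key : ∀ i, D i (((P.coeff (P.natDegree - 1) : K) : H) + (P.natDegree : H) * θ) = 0 := by
    intro i
    have hQ : dcf hK i P + derivative P * C (⟨D i θ, h i⟩ : K) = 0 := by
      apply eq_zero_of_deg ha
      · intro j hj
        rw [← hP] at hj
        rw [coeff_add, coeff_dcf, coeff_mul_C, coeff_derivative]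
        have h2 : P.coeff (j + 1) = 0 := coeff_eq_zero_of_natDegree_lt (by omega)
        rw [h2]
        rcases hj.eq_or_lt with hj | hj
        · have h1 : P.coeff j = 1 := by rw [← hj]; exact hmon
          rw [h1]
          apply Subtype.ext
          simp [rdh_coe]
        · rw [coeff_eq_zero_of_natDegree_lt hj]
          simp
      · rw [map_add, map_mul, aeval_C]
        have := D_aeval hK i θ P
        rw [hPθ, map_zero] at this
        exact this.symm
    have h3 := congrArg (fun q : K[X] => q.coeff (P.natDegree - 1)) hQ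
    simp only [coeff_add, coeff_dcf, coeff_mul_C, coeff_derivative, coeff_zero] at h3
    have h4 : P.natDegree - 1 + 1 = P.natDegree := by omega
    have h5 : ((P.natDegree - 1 : ℕ) : K) + 1 = (P.natDegree : K) := by
      rw [← h4]; push_cast; simp
    rw [h4, h5] at h3
    have h6 : P.coeff P.natDegree = 1 := hmon
    rw [h6, one_mul] at h3
    have h7 := congrArg (fun x : K => (x : H)) h3
    simp only [Subfield.coe_add, Subfield.coe_mul, rdh_coe, SubringClass.coe_natCast,
      Subfield.coe_zero] at h7
    rw [map_add, Derivation.leibniz, Derivation.map_natCast]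
    simp only [smul_eq_mul, mul_zero, add_zero]
    exact h7
  have hc : ((P.coeff (P.natDegree - 1) : K) : H) + (P.natDegree : H) * θ ∈ K :=
    hK.cst (mem_Cst.2 key)
  have hn : (P.natDegree : H) ≠ 0 := by exact_mod_cast hpos.ne'
  have h8 : (P.natDegree : H) * θ ∈ K := by
    have := K.sub_mem hc (P.coeff (P.natDegree - 1)).2
    simpa using this
  have h9 : ((P.natDegree : H))⁻¹ * ((P.natDegree : H) * θ) ∈ K :=
    K.mul_mem (K.inv_mem (natCast_mem K _)) h8
  rwa [inv_mul_cancel_left₀ hn] at h9

/-- An algebraic exponential has a power in `K` (the product of the conjugates). -/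
theorem alg_exp (hK : Stb D K) {θ g : H} (hg : g ∈ K) (h0 : θ ≠ 0)
    (h : ∀ i, D i θ = θ * D i g) (ha : IsAlgebraic K θ) : ∃ N : ℕ, 1 ≤ N ∧ θ ^ N ∈ K := by
  have hint : IsIntegral K θ := ha.isIntegral
  set P := minpoly K θ with hP
  have hmon : P.Monic := minpoly.monic hint
  have hpos : 0 < P.natDegree := minpoly.natDegree_pos hint
  have hPθ : aeval θ P = 0 := minpoly.aeval K θ
  have ha0 : P.coeff 0 ≠ 0 := by
    rw [hP]
    exact minpoly.coeff_zero_ne_zero hint h0
  have ha0' : ((P.coeff 0 : K) : H) ≠ 0 := by
    intro h'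
    exact ha0 (Subtype.ext h')
  refine ⟨P.natDegree, hpos, ?_⟩
  have key : ∀ i, D i (((P.coeff 0 : K) : H)) = (P.natDegree : H) * D i g * ((P.coeff 0 : K) : H) := by
    intro i
    set g' : K := ⟨D i g, hK.map i _ hg⟩ with hg'
    have hQ : dcf hK i P + derivative P * X * C g' - C ((P.natDegree : K) * g') * P = 0 := by
      apply eq_zero_of_deg ha
      · intro j hj
        rw [← hP] at hj
        obtain ⟨k, rfl⟩ : ∃ k, j = k + 1 := ⟨j - 1, by omega⟩
        rw [coeff_sub, coeff_add, coeff_dcf, coeff_mul_C, coeff_mul_X, coeff_derivative,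
          coeff_C_mul]
        rcases hj.eq_or_lt with hj | hj
        · have h1 : P.coeff (k + 1) = 1 := by rw [← hj]; exact hmon
          have h2 : (P.natDegree : K) = (k : K) + 1 := by rw [hj]; push_cast; rfl
          rw [h1, h2]
          have h3 : rdh hK i 1 = 0 := by
            apply Subtype.ext
            simp [rdh_coe]
          rw [h3]
          ring
        · rw [coeff_eq_zero_of_natDegree_lt hj]
          simp
      · rw [map_sub, map_mul, map_add, map_mul, map_mul, hPθ, aeval_C, aeval_X, mul_zero, sub_zero]
        have h3 := D_aeval hK i θ P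
        rw [hPθ, map_zero, h i] at h3
        have h4 : (algebraMap K H) g' = D i g := rfl
        rw [h4, mul_assoc]
        exact h3.symm
    have h3 := congrArg (fun q : K[X] => q.coeff 0) hQ
    simp only [coeff_sub, coeff_add, coeff_dcf, coeff_mul_C, coeff_mul_X_zero, coeff_C_mul,
      coeff_zero, zero_mul, add_zero] at h3
    have h7 := congrArg (fun x : K => (x : H)) h3
    simp only [Subfield.coe_sub, Subfield.coe_mul, rdh_coe, SubringClass.coe_natCast,
      Subfield.coe_zero] at h7
    exact sub_eq_zero.1 h7
  have hc : θ ^ P.natDegree * (((P.coeff 0 : K) : H))⁻¹ ∈ K := by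
    apply hK.cst
    rw [mem_Cst]
    intro i
    rw [Derivation.leibniz, Derivation.leibniz_inv, Derivation.leibniz_pow, key i, h i]
    simp only [smul_eq_mul, nsmul_eq_mul]
    have h5 : θ ^ P.natDegree = θ ^ (P.natDegree - 1) * θ := by
      rw [← pow_succ]; congr 1; omega
    rw [h5]
    field_simp
    ring
  have := K.mul_mem hc (P.coeff 0).2
  rwa [inv_mul_cancel_right₀ ha0'] at this

end Pool.Agent.TC
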