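import Pool.Agent.H.MP_b2d7dd_lc.TC.PlL
import Pool.Agent.H.MP_b2d7dd_lc.TC.Tx

/-!
# Module SKa: adjunction of a variable and of a logarithm
-/

namespace Pool.Agent.TC

variable {ι H : Type} [Field H] [CharZero H] {D : ι → Derivation ℤ H H} {K : Subfield H}

/-- Adjunction of a variable. -/
theorem SK_var (hK : Stb D K) {Λ : Set (H × H)} (h : SK D K Λ) {θ : H} {i0 : ι}
    (h0 : ∀ x ∈ K, D i0 x = 0) (h1 : D i0 θ = 1) (h2 : ∀ i, i ≠ i0 → D i θ = 0) :
    SK D (adj K {θ}) Λ := by
  intro J _ u c v hu hv hd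
  have hθ : ∀ i, D i θ ∈ K := by
    intro i
    by_cases hi : i = i0
    · rw [hi, h1]
      exact K.one_mem
    · rw [h2 i hi]
      exact K.zero_mem
  have ht : Transcendental K θ := by
    intro ha
    have h3 := h0 θ (alg_log hK hθ ha)
    rw [h1] at h3
    exact one_ne_zero h3
  obtain ⟨c0, u0, k, hu0, hk, hu', hs, hν⟩ := pole_log hK ht hθ hu c v hv hd
  have hc0 : (c0 : H) = 0 := by
    have h3 := hd i0
    rw [hs i0, hu', map_add, Derivation.leibniz, h1, mem_Cst.1 c0.2 i0, h0 u0 hu0] at h3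
    rw [Finset.sum_eq_zero fun j _ => by rw [h0 _ (hk j).1, zero_div, mul_zero]] at h3
    simpa using h3
  have hu0' : u = u0 := by rw [hu', hc0, zero_mul, zero_add]
  obtain ⟨e, he1, he2, he3⟩ := h J u0 c k hu0 hk fun i => by rw [← hs i, ← hd i, hu0']
  refine ⟨e, he1, by rw [hu0']; exact he2, fun ν hV => ?_⟩
  rw [hν ν hV]
  exact he3 ν ⟨fun a ha b hb => hV.mul a (le_adj K _ ha) b (le_adj K _ hb), hV.cst⟩

/-- Adjunction of a logarithm. -/
theorem SK_log (hK : Stb D K) {Λ : Set (H × H)} (h : SK D K Λ) {θ b : H} (hb : b ∈ K)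
    (hb0 : b ≠ 0) (hθ : ∀ i, D i θ = D i b / b) (ht : Transcendental K θ) :
    SK D (adj K {θ}) (insert (θ, b) Λ) := by
  classical
  intro J _ u c v hu hv hd
  have hθ' : ∀ i, D i θ ∈ K := fun i => by
    rw [hθ i]
    exact K.div_mem (hK.map i b hb) hb
  obtain ⟨c0, u0, k, hu0, hk, hu', hs, hν⟩ := pole_log hK ht hθ' hu c v hv hd
  obtain ⟨e, he1, he2, he3⟩ := h (Option J) u0 (fun o => o.elim (-c0) c) (fun o => o.elim b k) hu0
    (fun o => by
      cases o with
      | none => exact ⟨hb, hb0⟩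
      | some j => exact hk j)
    (fun i => by
      rw [Fintype.sum_option]
      simp only [Option.elim_none, Option.elim_some]
      rw [← hs i, ← hd i, hu', map_add, Derivation.leibniz, mem_Cst.1 c0.2 i, hθ i]
      simp)
  refine ⟨e + Finsupp.single (θ, b) c0, fun p hp => ?_, ?_, fun ν hV => ?_⟩
  · rcases Finset.mem_union.1 (Finsupp.support_add hp) with h3 | h3
    · exact Or.inr (he1 p h3)
    · have h4 := Finsupp.support_single_subset h3
      rw [Finset.mem_singleton] at h4
      exact Or.inl h4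
  · rw [Finsupp.sum_add_index' (by simp) (by intro p a a'; push_cast; ring),
      Finsupp.sum_single_index (by simp)]
    have h3 : u - (e.sum (fun p a => (a : H) * p.1) + (c0 : H) * θ) =
        u0 - e.sum (fun p a => (a : H) * p.1) := by
      rw [hu']
      ring
    show u - (e.sum (fun p a => (a : H) * p.1) + (c0 : H) * θ) ∈ Cst D
    rw [h3]
    exact he2
  · rw [hν ν hV, Finsupp.sum_add_index' (by simp) (by intro p a a'; ring),
      Finsupp.sum_single_index (by simp), ← he3 ν ⟨fun a ha b hb =>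
        hV.mul a (le_adj K _ ha) b (le_adj K _ hb), hV.cst⟩, Fintype.sum_option]
    simp only [Option.elim_none, Option.elim_some]
    ring

end Pool.Agent.TC
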