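import Pool.Agent.H.MP_b2d7dd_lc.TC.PlE
import Pool.Agent.H.MP_b2d7dd_lc.TC.Tx

/-!
# Module SKb: adjunction of an exponential with its roots

`E N` = the `N`-th root of `exp g`, for `N ≥ 1`.
-/

namespace Pool.Agent.TC

variable {ι H : Type} [Field H] [CharZero H] {D : ι → Derivation ℤ H H} {K : Subfield H}

/-- The fields `K(E N)` are directed. -/
theorem SKb_le {E : ℕ → H} (hM : ∀ N M, 1 ≤ N → 1 ≤ M → E (N * M) ^ M = E N) {N M : ℕ}
    (hN : 1 ≤ N) (hM1 : 1 ≤ M) : adj K {E N} ≤ adj K {E (N * M)} := by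
  refine adj_le (le_adj K _) ?_
  intro x hx
  rw [Set.mem_singleton_iff] at hx
  rw [hx, ← hM N M hN hM1]
  exact pow_mem (mem_adj K (Set.mem_singleton _)) M

theorem SKb_le_dvd {E : ℕ → H} (hM : ∀ N M, 1 ≤ N → 1 ≤ M → E (N * M) ^ M = E N) {N M : ℕ}
    (hN : 1 ≤ N) (hM1 : 1 ≤ M) (h : N ∣ M) : adj K {E N} ≤ adj K {E M} := by
  obtain ⟨M', rfl⟩ := h
  have h1 : 1 ≤ M' := by
    rcases Nat.eq_zero_or_pos M' with h0 | h0
    · rw [h0, mul_zero] at hM1
      omega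
    · exact h0
  exact SKb_le hM hN h1

/-- Every element of the union is in one of the fields. -/
theorem SKb_level {E : ℕ → H} (hM : ∀ N M, 1 ≤ N → 1 ≤ M → E (N * M) ^ M = E N) {x : H}
    (hx : x ∈ adj K {x | ∃ N : ℕ, 1 ≤ N ∧ x = E N}) : ∃ N : ℕ, 1 ≤ N ∧ x ∈ adj K {E N} := by
  have key : ∀ {x y : H}, (∃ N : ℕ, 1 ≤ N ∧ x ∈ adj K {E N}) → (∃ N : ℕ, 1 ≤ N ∧ y ∈ adj K {E N}) →
      ∃ N : ℕ, 1 ≤ N ∧ x ∈ adj K {E N} ∧ y ∈ adj K {E N} := by
    rintro x y ⟨N, hN, hx⟩ ⟨M, hM1, hy⟩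
    have h1 : 1 ≤ N * M := Nat.mul_pos hN hM1
    exact ⟨N * M, h1, SKb_le_dvd hM hN h1 (dvd_mul_right _ _) hx,
      SKb_le_dvd hM hM1 h1 (dvd_mul_left _ _) hy⟩
  unfold adj at hx
  induction hx using Subfield.closure_induction with
  | mem x hx =>
    rcases hx with hx | ⟨N, hN, rfl⟩
    · exact ⟨1, le_refl 1, le_adj K _ hx⟩
    · exact ⟨N, hN, mem_adj K (Set.mem_singleton _)⟩
  | one => exact ⟨1, le_refl 1, one_mem _⟩
  | add x y _ _ h1 h2 =>
    obtain ⟨N, hN, h3, h4⟩ := key h1 h2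
    exact ⟨N, hN, add_mem h3 h4⟩
  | neg x _ h1 =>
    obtain ⟨N, hN, h3⟩ := h1
    exact ⟨N, hN, neg_mem h3⟩
  | inv x _ h1 =>
    obtain ⟨N, hN, h3⟩ := h1
    exact ⟨N, hN, inv_mem h3⟩
  | mul x y _ _ h1 h2 =>
    obtain ⟨N, hN, h3, h4⟩ := key h1 h2
    exact ⟨N, hN, mul_mem h3 h4⟩

/-- A function which is additive on the products, on a power. -/
theorem SKb_pow {K : Subfield H} {ν : H → Cst D} (hν : Vl D K ν) {a : H} (ha : a ∈ K)
    (ha0 : a ≠ 0) (n : ℕ) : ν (a ^ n) = n * ν a := by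
  induction n with
  | zero =>
    rw [pow_zero, hν.cst 1 (one_mem _) one_ne_zero, Nat.cast_zero, zero_mul]
  | succ n ih =>
    rw [pow_succ, hν.mul _ (pow_mem ha n) _ ha (pow_ne_zero n ha0) ha0, ih]
    push_cast
    ring

/-- Adjunction of an exponential and of its roots. -/
theorem SK_exp (hK : Stb D K) {Λ : Set (H × H)} (h : SK D K Λ) {g : H} (hg : g ∈ K) (E : ℕ → H)
    (hE0 : ∀ N, 1 ≤ N → E N ≠ 0) (hE : ∀ i, ∀ N : ℕ, 1 ≤ N → D i (E N) = E N * (D i g / N))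
    (hM : ∀ N M, 1 ≤ N → 1 ≤ M → E (N * M) ^ M = E N) (ht : Transcendental K (E 1)) :
    SK D (adj K {x | ∃ N : ℕ, 1 ≤ N ∧ x = E N}) (insert (g, E 1) Λ) := by
  classical
  intro J _ u c v hu hv hd
  -- one level
  obtain ⟨N0, hN0, hu0⟩ := SKb_level hM hu
  have hvl : ∀ j, ∃ N : ℕ, 1 ≤ N ∧ v j ∈ adj K {E N} := fun j => SKb_level hM (hv j).1
  choose Nj hNj hvj using hvl
  obtain ⟨N, hN⟩ : ∃ N : ℕ, N = N0 * ∏ j, Nj j := ⟨_, rfl⟩
  have hN1 : 1 ≤ N := by
    rw [hN]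
    exact Nat.mul_pos hN0 (Finset.prod_pos fun j _ => hNj j)
  have huN : u ∈ adj K {E N} := SKb_le_dvd hM hN0 hN1 (by rw [hN]; exact dvd_mul_right _ _) hu0
  have hvN : ∀ j, v j ∈ adj K {E N} ∧ v j ≠ 0 := fun j =>
    ⟨SKb_le_dvd hM (hNj j) hN1 (by
      rw [hN]
      exact (Finset.dvd_prod_of_mem Nj (Finset.mem_univ j)).mul_left _) (hvj j), (hv j).2⟩
  have hEN : E N ^ N = E 1 := by
    have := hM 1 N (le_refl 1) hN1
    rwa [one_mul] at this
  have hNH : (N : H) ≠ 0 := Nat.cast_ne_zero.mpr (by omega)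
  have htN : Transcendental K (E N) := by
    intro halg
    exact ht (by rw [← hEN]; exact halg.pow N)
  have hNK : (N : H) ∈ K := natCast_mem K N
  have hgN : g / N ∈ K := div_mem hg hNK
  have hDg : ∀ i, D i (g / N) = D i g / N := by
    intro i
    have h1 : D i g = (N : H) * D i (g / N) := by
      have h2 : g = N • (g / N) := by
        rw [nsmul_eq_mul, mul_div_cancel₀ _ hNH]
      conv_lhs => rw [h2]
      rw [map_nsmul, nsmul_eq_mul]
    rw [h1, mul_div_cancel_left₀ _ hNH]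
  have hθ : ∀ i, D i (E N) = E N * D i (g / N) := fun i => by rw [hDg, hE i N hN1]
  obtain ⟨m, k, huK, hk, heq, hval⟩ := pole_exp hK htN hgN hθ huN c v hvN hd
  -- the relation in `K`
  obtain ⟨s, hs⟩ : ∃ s : Cst D, s = ∑ j, c j * m j := ⟨_, rfl⟩
  have hsH : (s : H) = ∑ j, (c j : H) * m j := by
    rw [hs]
    push_cast
    rfl
  have hsD : ∀ i, D i (s : H) = 0 := fun i => s.2 i
  have hu' : u - (s : H) * (g / N) ∈ K := sub_mem huK (mul_mem (hK.cst s.2) hgN)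
  obtain ⟨e, he1, he2, he3⟩ := h J (u - (s : H) * (g / N)) c k hu' hk (by
    intro i
    rw [map_sub, Derivation.leibniz, hsD i, hd i, heq i, ← hsH]
    simp)
  refine ⟨e + Finsupp.single (g, E 1) (s / (N : Cst D)), ?_, ?_, ?_⟩
  · intro p hp
    rcases Finset.mem_union.mp (Finsupp.support_add hp) with h1 | h1
    · exact Set.mem_insert_of_mem _ (he1 p h1)
    · rw [Finset.mem_singleton.mp (Finsupp.support_single_subset h1)]
      exact Set.mem_insert _ _
  · rw [Finsupp.sum_add_index' (by simp) (by intro a b1 b2; push_cast; ring),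
      Finsupp.sum_single_index (by simp)]
    have h1 : ((s / (N : Cst D) : Cst D) : H) * g = (s : H) * (g / N) := by
      push_cast
      ring
    rw [h1]
    have h2 : u - (e.sum (fun p a => (a : H) * p.1) + (s : H) * (g / N)) =
        u - (s : H) * (g / N) - e.sum (fun p a => (a : H) * p.1) := by ring
    rw [h2]
    exact he2
  · intro ν hν
    have hle : adj K {E N} ≤ adj K {x | ∃ N : ℕ, 1 ≤ N ∧ x = E N} := by
      refine adj_le (le_adj K _) ?_
      intro x hx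
      rw [Set.mem_singleton_iff] at hx
      exact mem_adj K ⟨N, hN1, hx⟩
    have hν1 : Vl D (adj K {E N}) ν :=
      ⟨fun a ha b hb => hν.mul a (hle ha) b (hle hb), hν.cst⟩
    have hν2 : Vl D K ν :=
      ⟨fun a ha b hb => hν.mul a (le_adj K _ ha) b (le_adj K _ hb), hν.cst⟩
    rw [Finsupp.sum_add_index' (by simp) (by intro a b1 b2; ring),
      Finsupp.sum_single_index (by simp), hval ν hν1, he3 ν hν2, ← hs]
    have h3 : ν (E 1) = N * ν (E N) := by
      rw [← hEN]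
      exact SKb_pow hν1 (mem_adj K (Set.mem_singleton _)) (hE0 N hN1) N
    have hNC : (N : Cst D) ≠ 0 := by
      intro h0
      apply hNH
      have := congrArg (fun x : Cst D => (x : H)) h0
      simpa using this
    show _ = _ + s / (N : Cst D) * ν (E 1)
    rw [h3]
    field_simp

end Pool.Agent.TC
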