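import Pool.Agent.H.MP_b2d7dd_lc.TC.Sp

/-!
# Module Sc: the structure of the field generated by a closed list

`RP W as L g` = `g` is a real combination of the functions `exp v` and `exp v · l` with `l ∈ L` and
`v ≠ 0` a sum of logarithms of variables and powers. `Sc W as L` = the invariant for the list: the
logarithms of the powers of the list are in `RP`, and the logarithm of the base of every power is, up
to a multiple, an integral combination of `L` plus a rational combination of the logarithms of the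
variables and of the powers which come later in the list, plus a constant.
-/

namespace Pool.Agent.TC

open Pool.Agent.TI (Tm)

variable {W : Finset (List Bool)} {as : List Tm}

/-- The combinations. -/
def RP (W : Finset (List Bool)) (as : List Tm) (L : Finset (Pt W → ℝ)) (g : Pt W → ℝ) : Prop :=
  g ∈ Submodule.span ℝ {f | ∃ v ∈ Vm W as, v ≠ 0 ∧ ((f = fun x => Real.exp (v x)) ∨
    ∃ l ∈ L, f = fun x => Real.exp (v x) * l x)}

/-- The invariant of the list. -/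
structure Sc (W : Finset (List Bool)) (as : List Tm) (L : Finset (Pt W → ℝ)) : Prop where
  iv : Iv (Vs W as) L
  l0 : L0 W ⊆ L
  lb : ∀ l ∈ L, ∃ b : Tm, ats b ⊆ At W as ∧ l = fun x => Real.log (rf W b x)
  rp : ∀ a ∈ as, RP W as L (lr W a)
  rl : ∀ a b : Tm, ∀ as' : List Tm, (Tm.pow a b :: as') <:+ as →
    Rl (Vs W as') L fun x => Real.log (rf W a x)

theorem Rl.mono {V V' : Submodule ℚ (Pt W → ℝ)} {L L' : Finset (Pt W → ℝ)} {g : Pt W → ℝ}
    (h : Rl V L g) (hV : V ≤ V') (hL : L ⊆ L') : Rl V' L' g := by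
  classical
  obtain ⟨M, m, v, c, hM, hv, h1⟩ := h
  refine ⟨M, fun l => if l ∈ L then m l else 0, v, c, hM, hV hv, fun t => ?_⟩
  have h2 : ∑ l ∈ L, (((if l ∈ L then m l else 0 : ℤ)) : ℝ) * l t =
      ∑ l ∈ L', (((if l ∈ L then m l else 0 : ℤ)) : ℝ) * l t := by
    refine Finset.sum_subset hL fun l _ hl => ?_
    rw [if_neg hl, Int.cast_zero, zero_mul]
  have h3 : ∑ l ∈ L, (((if l ∈ L then m l else 0 : ℤ)) : ℝ) * l t = ∑ l ∈ L, (m l : ℝ) * l t :=
    Finset.sum_congr rfl fun l hl => by rw [if_pos hl]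
  rw [h1 t, ← h3, h2]

private theorem Sc_coord (w : W) : (fun x : Pt W => x w) = lr W (.var w.1) := by
  funext x
  show x w = if h : w.1 ∈ W then x ⟨w.1, h⟩ else 0
  rw [dif_pos w.2]

theorem Sc.nil : Sc W [] (L0 W) := by
  classical
  refine ⟨?_, Finset.Subset.refl _, ?_, ?_, ?_⟩
  · rw [Vs_nil]
    exact iv0 W
  · intro l hl
    obtain ⟨w, -, rfl⟩ := Finset.mem_image.1 hl
    refine ⟨.var w.1, ?_, ?_⟩
    · intro t ht
      rw [show t = .var w.1 from ht]
      exact Or.inl ⟨w.1, w.2, rfl⟩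
    · funext x
      rw [rf_var, Real.log_exp]
      exact congrFun (Sc_coord w) x
  · intro a ha
    exact absurd ha List.not_mem_nil
  · intro a b as' h
    exact absurd (List.suffix_nil.1 h) (List.cons_ne_nil _ _)

/-- The real spans of elements of the field. -/
private theorem Sc_span {V : Submodule ℚ (Pt W → ℝ)} {L : Finset (Pt W → ℝ)}
    {S : Set (Pt W → ℝ)} (hS : ∀ f ∈ S, f ∈ An W ∧ toH W f ∈ Kf V L) {g : Pt W → ℝ}
    (hg : g ∈ Submodule.span ℝ S) : g ∈ An W ∧ toH W g ∈ Kf V L := by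
  induction hg using Submodule.span_induction with
  | mem f hf => exact hS f hf
  | zero =>
    have h0 : toH W (0 : Pt W → ℝ) = 0 := Hf_zero
    refine ⟨zero_mem _, ?_⟩
    rw [h0]
    exact zero_mem _
  | add f g _ _ h1 h2 =>
    refine ⟨add_mem h1.1 h2.1, ?_⟩
    have h3 : toH W (f + g) = toH W f + toH W g := toH_add h1.1 h2.1
    rw [h3]
    exact add_mem h1.2 h2.2
  | smul c f _ h1 =>
    have h2 : (fun _ : Pt W => c) ∈ An W := (mem_An W).2 analyticOnNhd_const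
    refine ⟨(An W).mul_mem h2 h1.1, ?_⟩
    have h3 : toH W (c • f) = toH W (fun _ => c) * toH W f := toH_smul c h1.1
    rw [h3]
    exact mul_mem (le_adj _ _ (mem_Cst_DD.2 ⟨c, rfl⟩)) h1.2

private theorem Sc_gen {V : Submodule ℚ (Pt W → ℝ)} {L : Finset (Pt W → ℝ)} (h : Iv V L)
    {v : Pt W → ℝ} (hv : v ∈ V) : (fun x => Real.exp (v x)) ∈ An W ∧
      toH W (fun x => Real.exp (v x)) ∈ Kf V L :=
  ⟨(mem_An W).2 ((mem_An W).1 (h.anV v hv)).rexp, mem_adj _ (Or.inl ⟨v, hv, rfl⟩)⟩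

private theorem Sc_genl {V : Submodule ℚ (Pt W → ℝ)} {L : Finset (Pt W → ℝ)} (h : Iv V L)
    {v l : Pt W → ℝ} (hv : v ∈ V) (hl : l ∈ L) : (fun x => Real.exp (v x) * l x) ∈ An W ∧
      toH W (fun x => Real.exp (v x) * l x) ∈ Kf V L := by
  have h1 := Sc_gen h hv
  refine ⟨(An W).mul_mem h1.1 (h.anL l hl), ?_⟩
  rw [toH_mul h1.1 (h.anL l hl)]
  exact mul_mem h1.2 (mem_adj _ (Or.inr ⟨l, hl, rfl⟩))

private theorem Sc_RPK {L : Finset (Pt W → ℝ)} (h : Iv (Vs W as) L) {g : Pt W → ℝ}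
    (hg : RP W as L g) : g ∈ An W ∧ toH W g ∈ Kf (Vs W as) L := by
  refine Sc_span ?_ hg
  rintro f ⟨v, hv, -, rfl | ⟨l, hl, rfl⟩⟩
  · exact Sc_gen h (Vm_le hv)
  · exact Sc_genl h (Vm_le hv) hl

private theorem Sc_RP_mono {as as' : List Tm} {L L' : Finset (Pt W → ℝ)} {g : Pt W → ℝ}
    (h : RP W as L g) (h1 : Vm W as ≤ Vm W as') (h2 : L ⊆ L') : RP W as' L' g := by
  refine Submodule.span_mono ?_ h
  rintro f ⟨v, hv, hv0, hf⟩
  exact ⟨v, h1 hv, hv0, hf.imp_right fun ⟨l, hl, hf⟩ => ⟨l, h2 hl, hf⟩⟩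

/-- The generators, `v = 0` allowed. -/
private def Sc_Q (W : Finset (List Bool)) (as : List Tm) (L : Finset (Pt W → ℝ)) :
    Set (Pt W → ℝ) :=
  {f | ∃ v ∈ Vm W as, (f = fun x => Real.exp (v x)) ∨ ∃ l ∈ L, f = fun x => Real.exp (v x) * l x}

private theorem Sc_RP_Q {L : Finset (Pt W → ℝ)} {g : Pt W → ℝ} (h : RP W as L g) :
    g ∈ Submodule.span ℝ (Sc_Q W as L) := by
  refine Submodule.span_mono ?_ h
  rintro f ⟨v, hv, -, hf⟩
  exact ⟨v, hv, hf⟩

private theorem Sc_L_Q {L : Finset (Pt W → ℝ)} {l : Pt W → ℝ} (h : l ∈ L) :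
    l ∈ Submodule.span ℝ (Sc_Q W as L) := by
  refine Submodule.subset_span ⟨0, zero_mem _, Or.inr ⟨l, h, ?_⟩⟩
  funext x
  rw [Pi.zero_apply, Real.exp_zero, one_mul]

private theorem Sc_c_Q {L : Finset (Pt W → ℝ)} (c : ℝ) :
    (fun _ => c) ∈ Submodule.span ℝ (Sc_Q W as L) := by
  have h1 : (fun _ : Pt W => c) = c • fun x : Pt W => Real.exp ((0 : Pt W → ℝ) x) := by
    funext x
    rw [Pi.smul_apply, Pi.zero_apply, Real.exp_zero, smul_eq_mul, mul_one]
  rw [h1]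
  exact Submodule.smul_mem _ _ (Submodule.subset_span ⟨0, zero_mem _, Or.inl rfl⟩)

private theorem Sc_q (q : ℚ) (f : Pt W → ℝ) : q • f = (q : ℝ) • f := by
  funext x
  rw [Pi.smul_apply, Pi.smul_apply, Rat.smul_def, smul_eq_mul]

/-- The elements of `V`, up to combinations of the coordinates, are combinations of the logarithms of
the powers. -/
private theorem Sc_dec {L : Finset (Pt W → ℝ)} (h : Sc W as L) {v : Pt W → ℝ}
    (hv : v ∈ Vs W as) : ∃ v1 ∈ Vs W as, RP W as L v1 ∧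
      v - v1 ∈ Submodule.span ℝ {f : Pt W → ℝ | f = (fun _ => 1) ∨ f ∈ L} := by
  classical
  have hle : ∀ c ∈ At W as, lr W c ∈ Vs W as := fun c hc => Vm_le (lr_mem_Vm hc)
  unfold Vs at hv
  induction hv using Submodule.span_induction with
  | mem f hf =>
    obtain ⟨c, hc, rfl⟩ := hf
    rcases hc with ⟨w, hw, rfl⟩ | hc
    · refine ⟨0, zero_mem _, Submodule.zero_mem _, ?_⟩
      rw [sub_zero]
      refine Submodule.subset_span (Or.inr (h.l0 ?_))
      exact Finset.mem_image.2 ⟨⟨w, hw⟩, Finset.mem_univ _, Sc_coord ⟨w, hw⟩⟩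
    · refine ⟨lr W c, hle c (Or.inr hc), h.rp c hc, ?_⟩
      rw [sub_self]
      exact Submodule.zero_mem _
  | zero =>
    refine ⟨0, zero_mem _, Submodule.zero_mem _, ?_⟩
    rw [sub_zero]
    exact Submodule.zero_mem _
  | add f g _ _ h1 h2 =>
    obtain ⟨f1, hf1, hf2, hf3⟩ := h1
    obtain ⟨g1, hg1, hg2, hg3⟩ := h2
    refine ⟨f1 + g1, add_mem hf1 hg1, Submodule.add_mem _ hf2 hg2, ?_⟩
    rw [add_sub_add_comm]
    exact Submodule.add_mem _ hf3 hg3
  | smul q f _ h1 =>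
    obtain ⟨f1, hf1, hf2, hf3⟩ := h1
    refine ⟨q • f1, Submodule.smul_mem _ _ hf1, ?_, ?_⟩
    · rw [Sc_q]
      exact Submodule.smul_mem _ _ hf2
    · rw [← smul_sub, Sc_q]
      exact Submodule.smul_mem _ _ hf3

private theorem Sc_T_Q {L : Finset (Pt W → ℝ)} {f : Pt W → ℝ}
    (h : f ∈ Submodule.span ℝ {f : Pt W → ℝ | f = (fun _ => 1) ∨ f ∈ L}) :
    f ∈ Submodule.span ℝ (Sc_Q W as L) := by
  refine (Submodule.span_le.2 ?_) h
  rintro g (rfl | hg)
  · exact Sc_c_Q 1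
  · exact Sc_L_Q hg

private theorem Sc_comb (L : Finset (Pt W → ℝ)) (m : (Pt W → ℝ) → ℤ) (c : ℝ) :
    (fun t => ∑ l ∈ L, (m l : ℝ) * l t + c) ∈
      Submodule.span ℝ {f : Pt W → ℝ | f = (fun _ => 1) ∨ f ∈ L} := by
  have h1 : (fun t => ∑ l ∈ L, (m l : ℝ) * l t + c) =
      (∑ l ∈ L, (m l : ℝ) • l) + c • fun _ : Pt W => (1 : ℝ) := by
    funext t
    rw [Pi.add_apply, Finset.sum_apply, Pi.smul_apply, smul_eq_mul, mul_one]
    rfl
  rw [h1]
  refine Submodule.add_mem _ (Submodule.sum_mem _ fun l hl => ?_) ?_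
  · exact Submodule.smul_mem _ _ (Submodule.subset_span (Or.inr hl))
  · exact Submodule.smul_mem _ _ (Submodule.subset_span (Or.inl rfl))

/-- Functions with a relation. -/
private theorem Sc_rel {L : Finset (Pt W → ℝ)} (h : Sc W as L) {g : Pt W → ℝ}
    (hr : Rl (Vs W as) L g) : ∃ (M : ℕ) (v1 : Pt W → ℝ), 1 ≤ M ∧ v1 ∈ Vs W as ∧ RP W as L v1 ∧
      (M : ℝ) • g - v1 ∈ Submodule.span ℝ {f : Pt W → ℝ | f = (fun _ => 1) ∨ f ∈ L} := by
  obtain ⟨M, m, v, c, hM, hv, h1⟩ := hr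
  obtain ⟨v1, hv1, hv2, hv3⟩ := Sc_dec h hv
  refine ⟨M, v1, hM, hv1, hv2, ?_⟩
  have h2 : (M : ℝ) • g - v1 = (fun t => ∑ l ∈ L, (m l : ℝ) * l t + c) + (v - v1) := by
    funext t
    rw [Pi.sub_apply, Pi.smul_apply, smul_eq_mul, h1 t, Pi.add_apply, Pi.sub_apply]
    ring
  rw [h2]
  exact Submodule.add_mem _ (Sc_comb L m c) hv3

private theorem Sc_rel_Q {L : Finset (Pt W → ℝ)} (h : Sc W as L) {g : Pt W → ℝ}
    (hr : Rl (Vs W as) L g) : g ∈ Submodule.span ℝ (Sc_Q W as L) := by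
  obtain ⟨M, v1, hM, -, hv2, hv3⟩ := Sc_rel h hr
  have hM0 : (M : ℝ) ≠ 0 := Nat.cast_ne_zero.2 (by omega)
  have h1 := Submodule.add_mem _ (Sc_T_Q (as := as) hv3) (Sc_RP_Q hv2)
  rw [sub_add_cancel] at h1
  have h2 := Submodule.smul_mem _ ((M : ℝ)⁻¹) h1
  rwa [smul_smul, inv_mul_cancel₀ hM0, one_smul] at h2

private theorem Sc_mul {L : Finset (Pt W → ℝ)} (hc : Cl W as) {f g : Pt W → ℝ}
    (hf : f ∈ Submodule.span ℝ {f | ∃ v ∈ Vm W as, v ≠ 0 ∧ f = fun x => Real.exp (v x)})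
    (hg : g ∈ Submodule.span ℝ (Sc_Q W as L)) : RP W as L (f * g) := by
  have h1 := Submodule.mul_mem_mul hf hg
  rw [Submodule.span_mul_span] at h1
  refine Submodule.span_mono ?_ h1
  rintro _ ⟨a, ⟨v, hv, hv0, rfl⟩, b, ⟨w, hw, hb⟩, rfl⟩
  refine ⟨v + w, add_mem hv hw, Vm_add hc hv hw hv0, ?_⟩
  rcases hb with rfl | ⟨l, hl, rfl⟩
  · left
    funext x
    show Real.exp (v x) * Real.exp (w x) = Real.exp ((v + w) x)
    rw [Pi.add_apply, Real.exp_add]
  · right
    refine ⟨l, hl, ?_⟩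
    funext x
    show Real.exp (v x) * (Real.exp (w x) * l x) = Real.exp ((v + w) x) * l x
    rw [Pi.add_apply, Real.exp_add, mul_assoc]

private theorem Sc_single {L : Finset (Pt W → ℝ)} (l : L) (x : Pt W) :
    (Finsupp.single l 1).prod (fun l k => ((l : Pt W → ℝ) x) ^ k) = (l : Pt W → ℝ) x :=
  (Finsupp.prod_single_index (h := fun (l : L) (k : ℕ) => ((l : Pt W → ℝ) x) ^ k)
    (pow_zero _)).trans (pow_one _)

/-- A combination of the functions with `v ≠ 0` which is a combination of `L` and `1` is zero. -/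
private theorem Sc_disj {V : Submodule ℚ (Pt W → ℝ)} {L : Finset (Pt W → ℝ)} (h : Ind V L)
    (hV : ∀ v ∈ Vm W as, v ∈ V) {F : Pt W → ℝ} (h1 : RP W as L F)
    (h2 : F ∈ Submodule.span ℝ {f : Pt W → ℝ | f = (fun _ => 1) ∨ f ∈ L}) : F = 0 := by
  classical
  have hd : Disjoint {p : V × (L →₀ ℕ) | p.1 ≠ 0} {p | p.1 = 0} := by
    rw [Set.disjoint_left]
    intro p hp hp'
    exact hp hp'
  have h3 := LinearIndependent.disjoint_span_image h hd
  refine (Submodule.disjoint_def.1 h3) F (Submodule.span_mono ?_ h1) (Submodule.span_mono ?_ h2)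
  · rintro f ⟨v, hv, hv0, hf⟩
    have hv1 : (⟨v, hV v hv⟩ : V) ≠ 0 := fun h => hv0 (congrArg Subtype.val h)
    rcases hf with rfl | ⟨l, hl, rfl⟩
    · refine ⟨(⟨v, hV v hv⟩, 0), hv1, ?_⟩
      funext x
      show Real.exp (v x) * (0 : L →₀ ℕ).prod (fun l k => ((l : Pt W → ℝ) x) ^ k) = _
      rw [Finsupp.prod_zero_index, mul_one]
    · refine ⟨(⟨v, hV v hv⟩, Finsupp.single ⟨l, hl⟩ 1), hv1, ?_⟩
      funext x
      show Real.exp (v x) * (Finsupp.single (⟨l, hl⟩ : L) 1).prod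
        (fun l k => ((l : Pt W → ℝ) x) ^ k) = Real.exp (v x) * l x
      rw [Sc_single ⟨l, hl⟩ x]
  · rintro f (rfl | hl)
    · refine ⟨(0, 0), rfl, ?_⟩
      funext x
      show Real.exp ((0 : Pt W → ℝ) x) * (0 : L →₀ ℕ).prod (fun l k => ((l : Pt W → ℝ) x) ^ k) = _
      rw [Finsupp.prod_zero_index, mul_one, Pi.zero_apply, Real.exp_zero]
    · refine ⟨(0, Finsupp.single ⟨f, hl⟩ 1), rfl, ?_⟩
      funext x
      show Real.exp ((0 : Pt W → ℝ) x) * (Finsupp.single (⟨f, hl⟩ : L) 1).prod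
        (fun l k => ((l : Pt W → ℝ) x) ^ k) = f x
      rw [Sc_single ⟨f, hl⟩ x, Pi.zero_apply, Real.exp_zero, one_mul]

private theorem Sc_mem {L : Finset (Pt W → ℝ)} (h : Sc W as L) {g : Pt W → ℝ}
    (hg : RP W as L g) (hr : Rl (Vs W as) L g) : g ∈ Vs W as := by
  obtain ⟨M, v1, hM, hv1, hv2, hv3⟩ := Sc_rel h hr
  have h1 : RP W as L ((M : ℝ) • g - v1) :=
    Submodule.sub_mem _ (Submodule.smul_mem _ _ hg) hv2
  have h2 := sub_eq_zero.1 (Sc_disj h.iv.ind (fun v hv => Vm_le hv) h1 hv3)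
  have hM0 : (M : ℝ) ≠ 0 := Nat.cast_ne_zero.2 (by omega)
  have h3 : g = ((M : ℚ)⁻¹) • v1 := by
    rw [Sc_q, ← h2, smul_smul]
    push_cast
    rw [inv_mul_cancel₀ hM0, one_smul]
  rw [h3]
  exact Submodule.smul_mem _ _ hv1

/-- The logarithm of a term. -/
theorem Sc.log {L : Finset (Pt W → ℝ)} (hc : Cl W as) (h : Sc W as L) {a : Tm}
    (ha : ats a ⊆ At W as) :
    ∃ L', L ⊆ L' ∧ Sc W as L' ∧ Rl (Vs W as) L' fun x => Real.log (rf W a x) := by
  classical
  have hb : rf W a ∈ An W ∧ toH W (rf W a) ∈ Kf (Vs W as) L := by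
    refine Sc_span ?_ (rf_span ha)
    rintro f ⟨v, hv, rfl⟩
    exact Sc_gen h.iv (Vm_le hv)
  rcases step_log h.iv hb.1 (rf_pos W a) hb.2 with h1 | h1
  · refine ⟨_, Finset.subset_insert _ _, ⟨h1, h.l0.trans (Finset.subset_insert _ _), ?_, ?_, ?_⟩, ?_⟩
    · intro l hl
      rcases Finset.mem_insert.1 hl with rfl | hl
      · exact ⟨a, ha, rfl⟩
      · exact h.lb l hl
    · intro c hc'
      exact Sc_RP_mono (h.rp c hc') le_rfl (Finset.subset_insert _ _)
    · intro a' b' as' hs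
      exact (h.rl a' b' as' hs).mono le_rfl (Finset.subset_insert _ _)
    · refine ⟨1, fun l => if l = (fun x => Real.log (rf W a x)) then 1 else 0, 0, 0, le_rfl,
        zero_mem _, fun t => ?_⟩
      rw [Finset.sum_eq_single_of_mem _ (Finset.mem_insert_self _ _)]
      · beta_reduce
        rw [if_pos rfl]
        simp
      · intro l _ hl
        beta_reduce
        rw [if_neg hl, Int.cast_zero, zero_mul]
  · exact ⟨L, Finset.Subset.refl _, h, h1⟩

/-- A new power. -/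
theorem Sc.exp {L : Finset (Pt W → ℝ)} (hc : Cl W as) (h : Sc W as L) {a b : Tm}
    (hn : Nw W as (.pow a b)) (hr : Rl (Vs W as) L fun x => Real.log (rf W a x)) :
    Sc W (Tm.pow a b :: as) L := by
  obtain ⟨a', b', he, ha, hb, hba, hnb⟩ := hn
  injection he with h1 h2
  subst h1
  subst h2
  have hg : RP W as L (lr W (.pow a b)) := Sc_mul hc (rf_span_nc hc hb hnb) (Sc_rel_Q h hr)
  have hgK := Sc_RPK h.iv hg
  have hiv : Iv (Vs W (.pow a b :: as)) L := by
    rw [Vs_cons]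
    rcases step_exp h.iv hgK.1 hgK.2 with h3 | h3
    · exact h3
    · have h4 : lr W (.pow a b) ∈ Vs W as := Sc_mem h hg h3
      rw [sup_eq_left.2 ((Submodule.span_singleton_le_iff_mem _ _).2 h4)]
      exact h.iv
  refine ⟨hiv, h.l0, ?_, ?_, ?_⟩
  · intro l hl
    obtain ⟨b, hb, hl⟩ := h.lb l hl
    exact ⟨b, hb.trans (Cl.at_cons _), hl⟩
  · intro c hc
    rcases List.mem_cons.1 hc with rfl | hc
    · exact Sc_RP_mono hg (Vm_mono _) (Finset.Subset.refl _)
    · exact Sc_RP_mono (h.rp c hc) (Vm_mono _) (Finset.Subset.refl _)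
  · intro a' b' as' hs
    rcases List.suffix_cons_iff.1 hs with hs | hs
    · injection hs with h3 h4
      injection h3 with h5 h6
      subst h4
      subst h5
      exact hr
    · exact h.rl a' b' as' hs

theorem exists_Sc (h : Cl W as) : ∃ L, Sc W as L := by
  induction as with
  | nil => exact ⟨_, Sc.nil⟩
  | cons t as ih =>
    obtain ⟨a, b, rfl, h1, h2, h3, h4⟩ := h.1
    obtain ⟨L, hL⟩ := ih h.2
    obtain ⟨L', -, hL', hr⟩ := hL.log h.2 h1
    exact ⟨L', hL'.exp h.2 ⟨a, b, rfl, h1, h2, h3, h4⟩ hr⟩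

/-- The logarithms of finitely many terms. -/
theorem exists_Sc_logs (h : Cl W as) (B : Finset Tm) (hB : ∀ a ∈ B, ats a ⊆ At W as) :
    ∃ L, Sc W as L ∧ ∀ a ∈ B, Rl (Vs W as) L fun x => Real.log (rf W a x) := by
  classical
  induction B using Finset.induction_on with
  | empty =>
    obtain ⟨L, hL⟩ := exists_Sc h
    exact ⟨L, hL, by simp⟩
  | insert a B _ ih =>
    obtain ⟨L, hL, h1⟩ := ih fun b hb => hB b (Finset.mem_insert_of_mem hb)
    obtain ⟨L', h2, hL', hr⟩ := hL.log h (hB a (Finset.mem_insert_self _ _))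
    refine ⟨L', hL', fun b hb => ?_⟩
    rcases Finset.mem_insert.1 hb with rfl | hb
    · exact hr
    · exact (h1 b hb).mono le_rfl h2

/-- The exponentials of the rational combinations are linearly independent. -/
theorem exp_ind (h : Cl W as) :
    LinearIndependent ℝ (fun v : Vs W as => fun x : Pt W => Real.exp ((v : Pt W → ℝ) x)) := by
  obtain ⟨L, hL⟩ := exists_Sc h
  have h1 : Ind (Vs W as) L := hL.iv.ind
  unfold Ind at h1
  have h2 := h1.comp (fun v : Vs W as => ((v, 0) : Vs W as × (L →₀ ℕ)))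
    fun v w hvw => congrArg Prod.fst hvw
  have h3 : (fun v : Vs W as => fun x : Pt W => Real.exp ((v : Pt W → ℝ) x)) =
      (fun p : Vs W as × (L →₀ ℕ) => (fun t : Pt W => Real.exp ((p.1 : Pt W → ℝ) t) *
        p.2.prod fun l k => ((l : Pt W → ℝ) t) ^ k)) ∘
          fun v : Vs W as => ((v, 0) : Vs W as × (L →₀ ℕ)) := by
    funext v x
    show _ = Real.exp ((v : Pt W → ℝ) x) *
      (0 : L →₀ ℕ).prod (fun l k => ((l : Pt W → ℝ) x) ^ k)
    rw [Finsupp.prod_zero_index, mul_one]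
  rw [h3]
  exact h2

end Pool.Agent.TC
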