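import Pool.Agent.H.MP_b2d7dd_lc.TC.Bs

/-!
# Module Sp: the spans of the logarithms of the variables and powers
-/

namespace Pool.Agent.TC

open Pool.Agent.TI (Tm)

variable {W : Finset (List Bool)} {as : List Tm}

/-- The rational combinations. -/
noncomputable def Vs (W : Finset (List Bool)) (as : List Tm) : Submodule ℚ (Pt W → ℝ) :=
  Submodule.span ℚ (lr W '' At W as)

/-- The sums. -/
def Vm (W : Finset (List Bool)) (as : List Tm) : AddSubmonoid (Pt W → ℝ) :=
  AddSubmonoid.closure (lr W '' At W as)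

theorem Vm_le {v : Pt W → ℝ} (h : v ∈ Vm W as) : v ∈ Vs W as := by
  have h1 : Vm W as ≤ (Vs W as).toAddSubmonoid :=
    AddSubmonoid.closure_le.2 fun x hx => Submodule.subset_span hx
  exact h1 h

theorem Vs_nil : Vs W [] = V0 W := by
  unfold Vs V0
  congr 1
  ext f
  constructor
  · rintro ⟨a, ha, rfl⟩
    rcases ha with ⟨w, hw, rfl⟩ | ha
    · refine ⟨⟨w, hw⟩, ?_⟩
      funext t
      simp [lr, hw]
    · simp at ha
  · rintro ⟨w, rfl⟩
    refine ⟨.var w.1, Or.inl ⟨w.1, w.2, rfl⟩, ?_⟩
    funext t
    simp [lr]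

private theorem Sp_At (t : Tm) : At W (t :: as) = At W as ∪ {t} := by
  ext a
  constructor
  · rintro (h | h)
    · exact Or.inl (Or.inl h)
    · rcases List.mem_cons.1 h with h | h
      · exact Or.inr h
      · exact Or.inl (Or.inr h)
  · rintro (h | h)
    · exact Cl.at_cons t h
    · exact Or.inr (List.mem_cons.2 (Or.inl h))

theorem Vs_cons (t : Tm) : Vs W (t :: as) = Vs W as ⊔ Submodule.span ℚ {lr W t} := by
  unfold Vs
  rw [Sp_At, Set.image_union, Submodule.span_union, Set.image_singleton]

theorem Vm_mono (t : Tm) : Vm W as ≤ Vm W (t :: as) :=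
  AddSubmonoid.closure_mono (Set.image_mono (Cl.at_cons t))

theorem lr_mem_Vm {a : Tm} (h : a ∈ At W as) : lr W a ∈ Vm W as :=
  AddSubmonoid.subset_closure ⟨a, h, rfl⟩

/-- At the point `1` all values are at least `1`. -/
theorem rf_ge (t : Tm) : 1 ≤ rf W t (fun _ => 1) := by
  induction t with
  | one => exact le_rfl
  | var w =>
    unfold rf
    split_ifs
    · exact Real.one_le_exp zero_le_one
    · exact le_rfl
  | add a b ha hb =>
    show 1 ≤ rf W a (fun _ => 1) + rf W b (fun _ => 1)
    linarith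
  | mul a b ha hb =>
    show 1 ≤ rf W a (fun _ => 1) * rf W b (fun _ => 1)
    exact one_le_mul_of_one_le_of_one_le ha hb
  | pow a b ha hb =>
    show 1 ≤ Real.exp (rf W b (fun _ => 1) * Real.log (rf W a (fun _ => 1)))
    exact Real.one_le_exp (mul_nonneg (rf_pos W b _).le (Real.log_nonneg ha))

theorem rf_gt (h : Cl W as) {t : Tm} (hb : Big t) (ha : ats t ⊆ At W as) :
    1 < rf W t (fun _ => 1) := by
  induction t with
  | one => exact hb.elim
  | var w =>
    have h1 : w ∈ W := by
      rcases ha (show Tm.var w ∈ ats (Tm.var w) from rfl) with ⟨w', hw', h2⟩ | h2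
      · injection h2 with h3
        rw [h3]
        exact hw'
      · obtain ⟨a, b, h3, _⟩ := h.nw _ h2
        exact absurd h3 (by simp)
    have h2 : rf W (.var w) (fun _ => 1) = Real.exp 1 := by simp [rf, h1]
    rw [h2]
    exact Real.one_lt_exp_iff.2 one_pos
  | add a b _ _ =>
    show 1 < rf W a (fun _ => 1) + rf W b (fun _ => 1)
    have h1 := rf_ge (W := W) a
    have h2 := rf_ge (W := W) b
    linarith
  | mul a b iha ihb =>
    show 1 < rf W a (fun _ => 1) * rf W b (fun _ => 1)
    have h1 := rf_ge (W := W) a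
    have h2 := rf_ge (W := W) b
    have ha1 : ats a ⊆ At W as := Set.subset_union_left.trans ha
    have hb1 : ats b ⊆ At W as := Set.subset_union_right.trans ha
    rcases hb with hb | hb
    · exact one_lt_mul_of_lt_of_le (iha hb ha1) h2
    · exact one_lt_mul_of_le_of_lt h1 (ihb hb hb1)
  | pow a b iha ihb =>
    show 1 < Real.exp (rf W b (fun _ => 1) * Real.log (rf W a (fun _ => 1)))
    have h1 : ats a ⊆ At W as := by
      rcases ha (show Tm.pow a b ∈ ats (Tm.pow a b) from rfl) with ⟨w', hw', h2⟩ | h2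
      · exact absurd h2 (by simp)
      · obtain ⟨a', b', h3, h4, _⟩ := h.nw _ h2
        injection h3 with h5 h6
        rw [h5]
        exact h4
    exact Real.one_lt_exp_iff.2 (mul_pos (rf_pos W b _) (Real.log_pos (iha hb h1)))

theorem lr_pt (h : Cl W as) {a : Tm} (ha : a ∈ At W as) : 0 < lr W a (fun _ => 1) := by
  rcases ha with ⟨w, hw, rfl⟩ | ha
  · have h2 : lr W (.var w) (fun _ => 1) = 1 := by simp [lr, hw]
    rw [h2]
    exact one_pos
  · obtain ⟨s, b, rfl, h1, h2, h3, h4⟩ := h.nw _ ha
    show 0 < rf W b (fun _ => 1) * Real.log (rf W s (fun _ => 1))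
    exact mul_pos (rf_pos W b _) (Real.log_pos (rf_gt h h3 h1))

theorem Vm_pt (h : Cl W as) {v : Pt W → ℝ} (hv : v ∈ Vm W as) :
    v = 0 ∨ 0 < v (fun _ => 1) := by
  induction hv using AddSubmonoid.closure_induction with
  | mem x hx =>
    obtain ⟨a, ha, rfl⟩ := hx
    exact Or.inr (lr_pt h ha)
  | zero => exact Or.inl rfl
  | add x y _ _ hx hy =>
    rcases hx with rfl | hx
    · rw [zero_add]
      exact hy
    · rcases hy with rfl | hy
      · rw [add_zero]
        exact Or.inr hx
      · exact Or.inr (add_pos hx hy)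

theorem Vm_add (h : Cl W as) {v w : Pt W → ℝ} (hv : v ∈ Vm W as) (hw : w ∈ Vm W as)
    (h0 : v ≠ 0) : v + w ≠ 0 := by
  intro h1
  have h2 : v (fun _ => 1) + w (fun _ => 1) = 0 := congrFun h1 (fun _ => 1)
  have h3 : 0 < v (fun _ => 1) := (Vm_pt h hv).resolve_left h0
  rcases Vm_pt h hw with rfl | h4
  · have h5 : v (fun _ => 1) + 0 = 0 := h2
    linarith
  · linarith

private theorem Sp_mul {A B : Set (Pt W → ℝ)} {f g : Pt W → ℝ} (C : Set (Pt W → ℝ))
    (hf : f ∈ Submodule.span ℝ A) (hg : g ∈ Submodule.span ℝ B)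
    (h : ∀ a ∈ A, ∀ b ∈ B, (fun x => a x * b x) ∈ C) :
    (fun x => f x * g x) ∈ Submodule.span ℝ C := by
  have h1 : ∀ a ∈ A, (fun x => a x * g x) ∈ Submodule.span ℝ C := by
    intro a ha
    induction hg using Submodule.span_induction with
    | mem b hb => exact Submodule.subset_span (h a ha b hb)
    | zero =>
      have h2 : (fun x : Pt W => a x * (0 : Pt W → ℝ) x) = 0 := by
        funext x
        simp
      rw [h2]
      exact Submodule.zero_mem _
    | add b c _ _ hb hc =>
      have h2 : (fun x : Pt W => a x * (b + c) x) = (fun x => a x * b x) + fun x => a x * c x := by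
        funext x
        simp [mul_add]
      rw [h2]
      exact Submodule.add_mem _ hb hc
    | smul r b _ hb =>
      have h2 : (fun x : Pt W => a x * (r • b) x) = r • fun x => a x * b x := by
        funext x
        simp
        ring
      rw [h2]
      exact Submodule.smul_mem _ r hb
  induction hf using Submodule.span_induction with
  | mem a ha => exact h1 a ha
  | zero =>
    have h2 : (fun x : Pt W => (0 : Pt W → ℝ) x * g x) = 0 := by
      funext x
      simp
    rw [h2]
    exact Submodule.zero_mem _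
  | add b c _ _ hb hc =>
    have h2 : (fun x : Pt W => (b + c) x * g x) = (fun x => b x * g x) + fun x => c x * g x := by
      funext x
      simp [add_mul]
    rw [h2]
    exact Submodule.add_mem _ hb hc
  | smul r b _ hb =>
    have h2 : (fun x : Pt W => (r • b) x * g x) = r • fun x => b x * g x := by
      funext x
      simp
      ring
    rw [h2]
    exact Submodule.smul_mem _ r hb

/-- The terms as sums of exponentials. -/
theorem rf_span {t : Tm} (ht : ats t ⊆ At W as) :
    rf W t ∈ Submodule.span ℝ {f | ∃ v ∈ Vm W as, f = fun x => Real.exp (v x)} := by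
  induction t with
  | one =>
    refine Submodule.subset_span ⟨0, zero_mem _, ?_⟩
    funext x
    simp [rf]
  | var w =>
    refine Submodule.subset_span ⟨lr W (.var w), lr_mem_Vm (ht rfl), ?_⟩
    funext x
    exact rf_var W w x
  | add a b iha ihb =>
    exact Submodule.add_mem _ (iha (Set.subset_union_left.trans ht))
      (ihb (Set.subset_union_right.trans ht))
  | mul a b iha ihb =>
    refine Sp_mul _ (iha (Set.subset_union_left.trans ht)) (ihb (Set.subset_union_right.trans ht)) ?_
    rintro _ ⟨v, hv, rfl⟩ _ ⟨w, hw, rfl⟩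
    refine ⟨v + w, add_mem hv hw, ?_⟩
    funext x
    exact (Real.exp_add _ _).symm
  | pow a b _ _ =>
    exact Submodule.subset_span ⟨lr W (.pow a b), lr_mem_Vm (ht rfl), rfl⟩

theorem rf_span_nc (h : Cl W as) {t : Tm} (ht : ats t ⊆ At W as) (hn : NC t) :
    rf W t ∈ Submodule.span ℝ {f | ∃ v ∈ Vm W as, v ≠ 0 ∧ f = fun x => Real.exp (v x)} := by
  have hne : ∀ a ∈ At W as, lr W a ≠ 0 := by
    intro a ha h0
    have h1 := lr_pt h ha
    rw [h0] at h1
    exact lt_irrefl _ h1
  induction t with
  | one => exact hn.elim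
  | var w =>
    refine Submodule.subset_span ⟨lr W (.var w), lr_mem_Vm (ht rfl), hne _ (ht rfl), ?_⟩
    funext x
    exact rf_var W w x
  | add a b iha ihb =>
    exact Submodule.add_mem _ (iha (Set.subset_union_left.trans ht) hn.1)
      (ihb (Set.subset_union_right.trans ht) hn.2)
  | mul a b iha ihb =>
    have ha := Set.subset_union_left.trans ht
    have hb := Set.subset_union_right.trans ht
    rcases hn with hn | hn
    · refine Sp_mul _ (iha ha hn) (rf_span hb) ?_
      rintro _ ⟨v, hv, h0, rfl⟩ _ ⟨w, hw, rfl⟩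
      refine ⟨v + w, add_mem hv hw, Vm_add h hv hw h0, ?_⟩
      funext x
      exact (Real.exp_add _ _).symm
    · refine Sp_mul _ (rf_span ha) (ihb hb hn) ?_
      rintro _ ⟨v, hv, rfl⟩ _ ⟨w, hw, h0, rfl⟩
      refine ⟨v + w, add_mem hv hw, ?_, ?_⟩
      · rw [add_comm]
        exact Vm_add h hw hv h0
      · funext x
        exact (Real.exp_add _ _).symm
  | pow a b _ _ =>
    exact Submodule.subset_span ⟨lr W (.pow a b), lr_mem_Vm (ht rfl), hne _ (ht rfl), rfl⟩

end Pool.Agent.TC
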