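import Pool.Agent.H.MP_b2d7dd_lc.TC.Br
import Pool.Agent.H.MP_b2d7dd_lc.TC.Adj
import Pool.Agent.H.MP_b2d7dd_lc.TC.SKa
import Pool.Agent.H.MP_b2d7dd_lc.TC.SKb
import Pool.Agent.H.MP_b2d7dd_lc.TC.Rt

/-!
# Module St: the two steps
-/

namespace Pool.Agent.TC

variable {W : Finset (List Bool)} {V : Submodule ℚ (Pt W → ℝ)} {L : Finset (Pt W → ℝ)}

private theorem St_alg {f : Pt W → ℝ} (hf : f ∈ An W) :
    toH W f = algebraMap (An W) (HW W) ⟨f, hf⟩ := by
  unfold toH
  rw [dif_pos hf]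

private theorem St_const (c : ℝ) : (fun _ : Pt W => c) ∈ An W :=
  (mem_An W).2 analyticOnNhd_const

private theorem St_mul {f g : Pt W → ℝ} (hf : f ∈ An W) (hg : g ∈ An W) :
    (fun t => f t * g t) ∈ An W := (An W).mul_mem hf hg

private theorem St_add {f g : Pt W → ℝ} (hf : f ∈ An W) (hg : g ∈ An W) :
    (fun t => f t + g t) ∈ An W := (An W).add_mem hf hg

private theorem St_smul (c : ℝ) {f : Pt W → ℝ} (hf : f ∈ An W) :
    (fun t => c * f t) ∈ An W := St_mul (St_const c) hf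

private theorem St_exp {f : Pt W → ℝ} (hf : f ∈ An W) : (fun t => Real.exp (f t)) ∈ An W :=
  (mem_An W).2 fun t ht => ((mem_An W).1 hf t ht).rexp'

private theorem St_log {f : Pt W → ℝ} (hf : f ∈ An W) (h0 : ∀ t, 0 < f t) :
    (fun t => Real.log (f t)) ∈ An W :=
  (mem_An W).2 fun t ht => AnalyticAt.fun_comp (g := Real.log) (f := f) (analyticAt_log (h0 t))
    ((mem_An W).1 hf t ht)

private theorem St_pow {f : Pt W → ℝ} (hf : f ∈ An W) (n : ℕ) :
    toH W (fun t => f t ^ n) = toH W f ^ n := by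
  have h1 : (fun t => f t ^ n) ∈ An W := (An W).pow_mem hf n
  rw [St_alg hf, St_alg h1, ← map_pow]
  rfl

private theorem St_int {f : Pt W → ℝ} (hf : f ∈ An W) (k : ℤ) :
    toH W (fun t => (k : ℝ) * f t) = (k : HW W) * toH W f := by
  have h1 : (fun t => (k : ℝ) * f t) ∈ An W := St_smul _ hf
  rw [St_alg hf, St_alg h1, ← map_intCast (algebraMap (An W) (HW W)) k, ← map_mul]
  congr 1

private theorem St_nat {f : Pt W → ℝ} (hf : f ∈ An W) (k : ℕ) :
    toH W (fun t => (k : ℝ) * f t) = (k : HW W) * toH W f := by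
  have h := St_int hf (k : ℤ)
  simpa using h

private theorem St_ne {f : Pt W → ℝ} (hf : f ∈ An W) (h0 : ∀ t, f t ≠ 0) : toH W f ≠ 0 := by
  intro h
  have h1 : toH W (fun _ : Pt W => (0 : ℝ)) = 0 := by
    rw [St_alg (St_const 0)]
    exact map_zero _
  have h2 := toH_inj hf (St_const 0) (h.trans h1.symm)
  exact h0 0 (congrFun h2 0)

private theorem St_exp_ne {f : Pt W → ℝ} (hf : f ∈ An W) :
    (toH W fun t => Real.exp (f t)) ≠ 0 := St_ne (St_exp hf) fun _ => (Real.exp_pos _).ne'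

private theorem St_cst (c : ℝ) : toH W (fun _ => c) ∈ Cst (DD W) := mem_Cst_DD.2 ⟨c, rfl⟩

private theorem St_cK (c : ℝ) : toH W (fun _ => c) ∈ Kf V L := le_adj _ _ (St_cst c)

private theorem St_expV {v : Pt W → ℝ} (hv : v ∈ V) :
    (toH W fun t => Real.exp (v t)) ∈ Kf V L := mem_adj _ (Or.inl ⟨v, hv, rfl⟩)

private theorem St_memL {l : Pt W → ℝ} (hl : l ∈ L) : toH W l ∈ Kf V L :=
  mem_adj _ (Or.inr ⟨l, hl, rfl⟩)

private theorem St_dexp {f : Pt W → ℝ} (hf : f ∈ An W) (i : W) :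
    DD W i (toH W f) =
      DD W i (toH W fun t => Real.exp (f t)) / toH W fun t => Real.exp (f t) := by
  obtain ⟨h1, h2⟩ := DD_exp (w := i) hf
  rw [h2, mul_div_cancel_left₀ _ h1]

/-- The pairs are in the field. -/
private theorem St_Lb (h : Iv V L) : ∀ p ∈ Lb V L, p.1 ∈ Kf V L ∧ p.2 ∈ Kf V L ∧
    p.2 ≠ 0 ∧ ∀ i, DD W i p.1 = DD W i p.2 / p.2 := by
  rintro p ⟨f, hf, rfl⟩
  rcases hf with hf | hf
  · have ha := h.anV f hf
    exact ⟨h.vL f hf, St_expV hf, St_exp_ne ha, fun i => St_dexp ha i⟩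
  · have ha := h.anL f hf
    exact ⟨St_memL hf, h.eL f hf, St_exp_ne ha, fun i => St_dexp ha i⟩

private theorem St_split (m : (HW W × HW W) → ℤ) (F : (HW W × HW W) → Pt W → ℝ)
    (s : Finset (HW W × HW W)) (hF : ∀ p ∈ s, F p ∈ V ∨ F p ∈ L) :
    ∃ (m' : (Pt W → ℝ) → ℤ) (v : Pt W → ℝ), v ∈ V ∧
      ∀ t, ∑ p ∈ s, (m p : ℝ) * F p t = ∑ l ∈ L, (m' l : ℝ) * l t + v t := by
  classical
  induction s using Finset.induction_on with
  | empty => exact ⟨fun _ => 0, 0, V.zero_mem, fun t => by simp⟩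
  | insert p s hp ih =>
    obtain ⟨m', v, hv, h1⟩ := ih fun q hq => hF q (Finset.mem_insert_of_mem hq)
    rcases hF p (Finset.mem_insert_self _ _) with h2 | h2
    · refine ⟨m', v + (m p) • F p, V.add_mem hv (V.smul_of_tower_mem _ h2), fun t => ?_⟩
      rw [Finset.sum_insert hp, h1 t, Pi.add_apply, Pi.smul_apply, zsmul_eq_mul]
      ring
    · refine ⟨fun l => m' l + if l = F p then m p else 0, v, hv, fun t => ?_⟩
      rw [Finset.sum_insert hp, h1 t]
      have h3 : ∀ l : Pt W → ℝ, (((m' l + if l = F p then m p else 0 : ℤ)) : ℝ) * l t =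
          (m' l : ℝ) * l t + if l = F p then (m p : ℝ) * F p t else 0 := by
        intro l
        by_cases hl : l = F p
        · rw [if_pos hl, if_pos hl, hl]
          push_cast
          ring
        · rw [if_neg hl, if_neg hl]
          push_cast
          ring
      rw [Finset.sum_congr rfl fun l _ => h3 l, Finset.sum_add_distrib, Finset.sum_ite_eq',
        if_pos h2]
      ring

/-- From `u' = v' / v` in the field to a relation between functions. -/
theorem Iv.rel (h : Iv V L) {g : Pt W → ℝ} (hg : g ∈ An W) (hg1 : toH W g ∈ Kf V L) {N : ℕ}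
    (hN : 1 ≤ N) (he : (toH W fun t => Real.exp (g t)) ^ N ∈ Kf V L) : Rl V L g := by
  classical
  have h0 := St_exp_ne hg
  have huv : ∀ i, DD W i ((N : HW W) * toH W g) =
      DD W i ((toH W fun t => Real.exp (g t)) ^ N) / (toH W fun t => Real.exp (g t)) ^ N := by
    intro i
    obtain ⟨h1, h2⟩ := DD_exp (w := i) hg
    have h3 : (toH W fun t => Real.exp (g t)) ^ N =
        (toH W fun t => Real.exp (g t)) ^ (N - 1) * toH W fun t => Real.exp (g t) := by
      rw [← pow_succ, Nat.sub_add_cancel hN]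
    rw [Derivation.leibniz_pow, h2, ← nsmul_eq_mul, map_nsmul]
    simp only [smul_eq_mul, nsmul_eq_mul]
    rw [eq_div_iff (pow_ne_zero _ h1), h3]
    ring
  obtain ⟨M, m, c, hM, hm, hc, -, hr⟩ := h.sk.rat (St_Lb h)
    ((Kf V L).mul_mem (natCast_mem _ N) hg1) he (pow_ne_zero _ h0) huv
  -- the functions
  have hF : ∀ p : HW W × HW W, ∃ f : Pt W → ℝ, p ∈ m.support →
      (f ∈ V ∨ f ∈ L) ∧ p = (toH W f, toH W fun t => Real.exp (f t)) := by
    intro p
    by_cases hp : p ∈ m.support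
    · obtain ⟨f, hf⟩ := hm p hp
      exact ⟨f, fun _ => hf⟩
    · exact ⟨0, fun h => absurd h hp⟩
  choose F hF using hF
  have hFA : ∀ p ∈ m.support, F p ∈ An W := by
    intro p hp
    rcases (hF p hp).1 with h1 | h1
    · exact h.anV _ h1
    · exact h.anL _ h1
  obtain ⟨m', v, hv, hs⟩ := St_split (V := V) (L := L) (fun p => m p) F m.support
    fun p hp => (hF p hp).1
  have hsum : m.sum (fun p k => (k : HW W) * p.1) =
      toH W (fun t => ∑ p ∈ m.support, (m p : ℝ) * F p t) := by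
    rw [toH_sum _ _ fun p hp => St_smul _ (hFA p hp), Finsupp.sum]
    refine Finset.sum_congr rfl fun p hp => ?_
    rw [St_int (hFA p hp)]
    have h1 := congrArg Prod.fst (hF p hp).2
    rw [h1]
  obtain ⟨c', hc'⟩ := mem_Cst_DD.1 hr
  have hSA : (fun t => ∑ p ∈ m.support, (m p : ℝ) * F p t) ∈ An W := by
    have h1 : (fun t => ∑ p ∈ m.support, (m p : ℝ) * F p t) =
        ∑ p ∈ m.support, fun t => (m p : ℝ) * F p t := by
      funext t
      rw [Finset.sum_apply]
    rw [h1]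
    exact (An W).sum_mem fun p hp => St_smul _ (hFA p hp)
  have heq : toH W (fun t => ((M * N : ℕ) : ℝ) * g t) =
      toH W (fun t => (∑ p ∈ m.support, (m p : ℝ) * F p t) + c') := by
    rw [St_nat hg, toH_add hSA (St_const c'), ← hc', ← hsum]
    push_cast
    ring
  have hfun := toH_inj (St_smul _ hg) (St_add hSA (St_const c')) heq
  refine ⟨M * N, m', v, c', Nat.mul_pos hM hN, hv, fun t => ?_⟩
  have h1 := congrFun hfun t
  rw [hs t] at h1
  exact h1

private theorem St_Kf_mono {V' : Submodule ℚ (Pt W → ℝ)} {L' : Finset (Pt W → ℝ)} (hV : V ≤ V')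
    (hL : L ⊆ L') : Kf V L ≤ Kf V' L' := by
  refine adj_le (le_adj _ _) ?_
  rintro x (⟨v, hv, rfl⟩ | ⟨l, hl, rfl⟩)
  · exact St_expV (hV hv)
  · exact St_memL (hL hl)

open Classical in
private theorem St_Kf_insert (l : Pt W → ℝ) :
    Kf V (insert l L) = adj (Kf V L) {toH W l} := by
  apply le_antisymm
  · refine adj_le ((le_adj _ _).trans (le_adj _ _)) ?_
    rintro x (⟨v, hv, rfl⟩ | ⟨l', hl', rfl⟩)
    · exact le_adj _ _ (St_expV hv)
    · rcases Finset.mem_insert.1 hl' with rfl | h1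
      · exact mem_adj _ rfl
      · exact le_adj _ _ (St_memL h1)
  · refine adj_le (St_Kf_mono le_rfl (Finset.subset_insert _ _)) ?_
    intro x hx
    rw [Set.mem_singleton_iff] at hx
    rw [hx]
    exact St_memL (Finset.mem_insert_self _ _)

open Classical in
/-- The logarithm of a positive function of the field. -/
theorem step_log (h : Iv V L) {b : Pt W → ℝ} (hb : b ∈ An W) (h0 : ∀ t, 0 < b t)
    (hbK : toH W b ∈ Kf V L) :
    Iv V (insert (fun t => Real.log (b t)) L) ∨ Rl V L fun t => Real.log (b t) := by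
  have hl := St_log hb h0
  have hel : (fun t => Real.exp (Real.log (b t))) = b := by
    funext t
    exact Real.exp_log (h0 t)
  have hb0 : toH W b ≠ 0 := St_ne hb fun t => (h0 t).ne'
  have hD : ∀ i, DD W i (toH W fun t => Real.log (b t)) = DD W i (toH W b) / toH W b :=
    fun i => (DD_log hb h0).2
  have hDK : ∀ i, DD W i (toH W fun t => Real.log (b t)) ∈ Kf V L := by
    intro i
    rw [hD i]
    exact (Kf V L).div_mem (h.stb.map i _ hbK) hbK
  by_cases ha : IsAlgebraic (Kf V L) (toH W fun t => Real.log (b t))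
  · right
    have h1 := alg_log h.stb hDK ha
    refine h.rel hl h1 le_rfl ?_
    rw [pow_one, hel]
    exact hbK
  · left
    have hle : Kf V L ≤ Kf V (insert (fun t => Real.log (b t)) L) :=
      St_Kf_mono le_rfl (Finset.subset_insert _ _)
    refine ⟨h.anV, ?_, fun v hv => hle (h.vL v hv), fun i v hv => hle (h.dV i v hv), ?_,
      ind_log h.anV h.anL h.ind hl ha, ?_, ?_⟩
    · intro l hl'
      rcases Finset.mem_insert.1 hl' with rfl | h1
      · exact hl
      · exact h.anL l h1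
    · intro i l hl'
      rcases Finset.mem_insert.1 hl' with rfl | h1
      · exact hle (hDK i)
      · exact hle (h.dL i l h1)
    · intro l hl'
      rcases Finset.mem_insert.1 hl' with rfl | h1
      · rw [hel]
        exact hle hbK
      · exact hle (h.eL l h1)
    · rw [St_Kf_insert]
      refine (SK_log h.stb h.sk hbK hb0 hD ha).mono ?_
      intro p hp
      rcases Set.mem_insert_iff.1 hp with rfl | ⟨f, hf, rfl⟩
      · exact ⟨fun t => Real.log (b t), Or.inr (Finset.mem_insert_self _ _), by rw [hel]⟩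
      · exact ⟨f, hf.imp_right Finset.mem_insert_of_mem, rfl⟩

private noncomputable def St_E (g : Pt W → ℝ) (N : ℕ) : HW W :=
  toH W fun t => Real.exp (((N : ℝ)⁻¹) * g t)

private theorem St_E_pow {g : Pt W → ℝ} (hg : g ∈ An W) {N M : ℕ} (hM : 1 ≤ M) :
    St_E g (N * M) ^ M = St_E g N := by
  unfold St_E
  rw [← St_pow (St_exp (St_smul _ hg))]
  congr 1
  funext t
  rw [← Real.exp_nat_mul]
  congr 1
  have h1 : (M : ℝ) ≠ 0 := Nat.cast_ne_zero.2 (by omega)
  push_cast
  rw [mul_inv]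
  field_simp

private theorem St_E_one (g : Pt W → ℝ) : St_E g 1 = toH W fun t => Real.exp (g t) := by
  unfold St_E
  congr 1
  funext t
  simp

private theorem St_E_D {g : Pt W → ℝ} (hg : g ∈ An W) (i : W) {N : ℕ} (hN : 1 ≤ N) :
    DD W i (St_E g N) = St_E g N * (DD W i (toH W g) / N) := by
  unfold St_E
  have h1 := St_smul ((N : ℝ)⁻¹) hg
  rw [(DD_exp (w := i) h1).2]
  congr 1
  have hN0 : (N : ℝ) ≠ 0 := Nat.cast_ne_zero.2 (by omega)
  have hN1 : (N : HW W) ≠ 0 := Nat.cast_ne_zero.2 (by omega)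
  have h2 : toH W g = (N : HW W) * toH W (fun t => ((N : ℝ)⁻¹) * g t) := by
    rw [← St_nat h1]
    congr 1
    funext t
    rw [← mul_assoc, mul_inv_cancel₀ hN0, one_mul]
  rw [eq_div_iff hN1]
  conv_rhs => rw [h2, ← nsmul_eq_mul, map_nsmul, nsmul_eq_mul]
  ring

/-- The integral powers of the roots. -/
private theorem St_E_int {g : Pt W → ℝ} (hg : g ∈ An W) {K : Subfield (HW W)} (a : ℤ) {N : ℕ}
    (h : St_E g N ∈ K) : (toH W fun t => Real.exp ((a : ℝ) * (((N : ℝ)⁻¹) * g t))) ∈ K := by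
  have h1 := St_smul ((N : ℝ)⁻¹) hg
  have key : ∀ n : ℕ, (toH W fun t => Real.exp ((n : ℝ) * (((N : ℝ)⁻¹) * g t))) = St_E g N ^ n := by
    intro n
    unfold St_E
    rw [← St_pow (St_exp h1)]
    congr 1
    funext t
    rw [← Real.exp_nat_mul]
  obtain ⟨n, rfl | rfl⟩ := Int.eq_nat_or_neg a
  · rw [Int.cast_natCast, key n]
    exact K.pow_mem h n
  · have h2 : (toH W fun t => Real.exp ((((-(n : ℤ)) : ℤ) : ℝ) * (((N : ℝ)⁻¹) * g t))) =
        (St_E g N ^ n)⁻¹ := by
      refine eq_inv_of_mul_eq_one_left ?_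
      rw [← key n, ← toH_mul (St_exp (St_smul _ h1)) (St_exp (St_smul _ h1)), ← toH_one]
      congr 1
      funext t
      rw [← Real.exp_add]
      push_cast
      rw [show -(n : ℝ) * ((N : ℝ)⁻¹ * g t) + (n : ℝ) * ((N : ℝ)⁻¹ * g t) = 0 by ring, Real.exp_zero]
    rw [h2]
    exact K.inv_mem (K.pow_mem h n)

private theorem St_mem_sup {g v' : Pt W → ℝ} (hv' : v' ∈ V ⊔ Submodule.span ℚ {g}) :
    ∃ v ∈ V, ∃ q : ℚ, v' = fun t => v t + (q : ℝ) * g t := by
  obtain ⟨v, hv, y, hy, rfl⟩ := Submodule.mem_sup.1 hv'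
  obtain ⟨q, rfl⟩ := Submodule.mem_span_singleton.1 hy
  refine ⟨v, hv, q, ?_⟩
  funext t
  rw [Pi.add_apply, Pi.smul_apply, Rat.smul_def]

private theorem St_Kf_sup (hV : ∀ v ∈ V, v ∈ An W) {g : Pt W → ℝ} (hg : g ∈ An W) :
    Kf (V ⊔ Submodule.span ℚ {g}) L = adj (Kf V L) {x | ∃ N : ℕ, 1 ≤ N ∧ x = St_E g N} := by
  apply le_antisymm
  · refine adj_le ((le_adj _ _).trans (le_adj _ _)) ?_
    rintro x (⟨v', hv', rfl⟩ | ⟨l', hl', rfl⟩)
    · obtain ⟨v, hv, q, rfl⟩ := St_mem_sup hv'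
      have h1 : (fun t => Real.exp (v t + (q : ℝ) * g t)) =
          fun t => Real.exp (v t) * Real.exp ((q.num : ℝ) * (((q.den : ℝ)⁻¹) * g t)) := by
        funext t
        rw [Real.exp_add]
        congr 2
        rw [← mul_assoc, ← div_eq_mul_inv, ← Rat.cast_def]
      have h2 : (fun t => (q.num : ℝ) * (((q.den : ℝ)⁻¹) * g t)) ∈ An W :=
        St_smul _ (St_smul _ hg)
      rw [h1, toH_mul (St_exp (hV v hv)) (St_exp h2)]
      refine Subfield.mul_mem _ (le_adj _ _ (St_expV hv)) ?_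
      exact St_E_int hg _ (mem_adj _ ⟨q.den, q.den_pos, rfl⟩)
    · exact le_adj _ _ (St_memL hl')
  · refine adj_le (St_Kf_mono le_sup_left (Finset.Subset.refl _)) ?_
    rintro x ⟨N, -, rfl⟩
    have h1 : (fun t => ((N : ℝ)⁻¹) * g t) ∈ V ⊔ Submodule.span ℚ {g} := by
      have h2 : (fun t => ((N : ℝ)⁻¹) * g t) = ((N : ℚ)⁻¹) • g := by
        funext t
        rw [Pi.smul_apply, Rat.smul_def]
        push_cast
        rfl
      rw [h2]
      exact Submodule.smul_mem _ _ (Submodule.mem_sup_right (Submodule.mem_span_singleton_self g))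
    exact St_expV h1

/-- The exponential of a function of the field. -/
theorem step_exp (h : Iv V L) {g : Pt W → ℝ} (hg : g ∈ An W) (hgK : toH W g ∈ Kf V L) :
    Iv (V ⊔ Submodule.span ℚ {g}) L ∨ Rl V L g := by
  by_cases ha : IsAlgebraic (Kf V L) (toH W fun t => Real.exp (g t))
  · right
    obtain ⟨N, hN, he⟩ := alg_exp h.stb hgK (St_exp_ne hg) (fun i => (DD_exp (w := i) hg).2) ha
    exact h.rel hg hgK hN he
  · left
    have hle : Kf V L ≤ Kf (V ⊔ Submodule.span ℚ {g}) L :=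
      St_Kf_mono le_sup_left (Finset.Subset.refl _)
    have hv'K : ∀ v' ∈ V ⊔ Submodule.span ℚ {g}, toH W v' ∈ Kf V L := by
      intro v' hv'
      obtain ⟨v, hv, q, rfl⟩ := St_mem_sup hv'
      rw [toH_add (h.anV v hv) (St_smul _ hg), toH_smul _ hg]
      exact add_mem (h.vL v hv) (mul_mem (St_cK _) hgK)
    refine ⟨?_, h.anL, fun v' hv' => hle (hv'K v' hv'), ?_, fun i l hl => hle (h.dL i l hl),
      ind_exp h.anV h.anL h.ind hg ha, fun l hl => hle (h.eL l hl), ?_⟩
    · intro v' hv'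
      obtain ⟨v, hv, q, rfl⟩ := St_mem_sup hv'
      exact St_add (h.anV v hv) (St_smul _ hg)
    · intro i v' hv'
      exact hle (h.stb.map i _ (hv'K v' hv'))
    · rw [St_Kf_sup h.anV hg]
      refine (SK_exp h.stb h.sk hgK (St_E g) (fun N _ => St_exp_ne (St_smul _ hg))
        (fun i N hN => St_E_D hg i hN) (fun N M _ hM => St_E_pow hg hM) ?_).mono ?_
      · rw [St_E_one]
        exact ha
      · intro p hp
        rcases Set.mem_insert_iff.1 hp with rfl | ⟨f, hf, rfl⟩
        · exact ⟨g, Or.inl (Submodule.mem_sup_right (Submodule.mem_span_singleton_self g)),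
            by rw [St_E_one]⟩
        · exact ⟨f, hf.imp_left fun h => Submodule.mem_sup_left h, rfl⟩

end Pool.Agent.TC
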